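import Pool.Agent.NTot.SL1

/-!
# The Selberg sieve for residue classes, uniform in the dimension (module M1)
-/

set_option autoImplicit false

namespace Pool.Agent.NTot

open Finset BoundingSieve ArithmeticFunction
open scoped Classical

noncomputable section

namespace SL1

variable {bad : ℕ → ℕ → Prop} {P : Finset ℕ}

/-- density of the classes -/
def dn (bad : ℕ → ℕ → Prop) (q : ℕ) : ℝ := (H6.Hooley.rho bad q : ℝ) / q

theorem selberg_prime (hP : ∀ q ∈ P, q.Prime) (h0 : ∀ q ∈ P, 0 < H6.Hooley.rho bad q)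
    (h1 : ∀ q ∈ P, H6.Hooley.rho bad q < q) (X : ℕ) {q : ℕ} (hq : q.Prime) :
    (cSieve bad P hP h0 h1 X).selbergTerms q = dn bad q * (1 - dn bad q)⁻¹ := by
  rw [selbergTerms_apply, hq.primeFactors, prod_singleton]
  have : (cSieve bad P hP h0 h1 X).nu q = dn bad q := by
    show prodPrimeFactors (fun q => (H6.Hooley.rho bad q : ℝ) / q) q = _
    rw [prodPrimeFactors_apply hq.ne_zero, hq.primeFactors, prod_singleton]
    rfl
  rw [this]

theorem dn_pos {q : ℕ} (hq : q.Prime) (h : 0 < H6.Hooley.rho bad q) : 0 < dn bad q := by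
  unfold dn
  have := hq.pos
  positivity

theorem dn_lt {q : ℕ} (hq : q.Prime) (h : H6.Hooley.rho bad q < q) : dn bad q < 1 := by
  unfold dn
  rw [div_lt_one (by exact_mod_cast hq.pos)]
  exact_mod_cast h

/-- sum of the twisted Selberg terms over all divisors -/
theorem sum_twist (hP : ∀ q ∈ P, q.Prime) (h0 : ∀ q ∈ P, 0 < H6.Hooley.rho bad q)
    (h1 : ∀ q ∈ P, H6.Hooley.rho bad q < q) (X : ℕ) (η : ℝ) :
    ∑ l ∈ (∏ q ∈ P, q).divisors, (cSieve bad P hP h0 h1 X).selbergTerms l * (l : ℝ) ^ η =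
      ∏ q ∈ P, (1 + dn bad q * (1 - dn bad q)⁻¹ * (q : ℝ) ^ η) := by
  set s := cSieve bad P hP h0 h1 X with hs
  let g : ArithmeticFunction ℝ := ⟨fun l => s.selbergTerms l * (l : ℝ) ^ η, by simp⟩
  have hg : g.IsMultiplicative := by
    refine ⟨?_, ?_⟩
    · show s.selbergTerms 1 * ((1 : ℕ) : ℝ) ^ η = 1
      rw [selbergTerms_isMultiplicative.map_one]
      simp
    · intro m n hmn
      show s.selbergTerms (m * n) * ((m * n : ℕ) : ℝ) ^ η =
        (s.selbergTerms m * (m : ℝ) ^ η) * (s.selbergTerms n * (n : ℝ) ^ η)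
      rw [selbergTerms_isMultiplicative.map_mul_of_coprime hmn]
      push_cast
      rw [Real.mul_rpow (by positivity) (by positivity)]
      ring
  have h := hg.prodPrimeFactors_one_add_of_squarefree (squarefree_prod hP)
  rw [Nat.primeFactors_prod hP] at h
  have e : ∀ q ∈ P, (1 + g q) = (1 + dn bad q * (1 - dn bad q)⁻¹ * (q : ℝ) ^ η) := by
    intro q hq
    show 1 + s.selbergTerms q * (q : ℝ) ^ η = _
    rw [hs, selberg_prime hP h0 h1 X (hP q hq)]
  rw [Finset.prod_congr rfl e] at h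
  rw [h]
  rfl

theorem rpow_sub_one_le {q z : ℕ} (hq : 1 ≤ q) (hqz : q ≤ z) (hz : 2 ≤ z) :
    (q : ℝ) ^ (1 / Real.log z) - 1 ≤ 2 * Real.log q / Real.log z := by
  have hz2 : (2 : ℝ) ≤ z := by exact_mod_cast hz
  have hlz : 0 < Real.log z := Real.log_pos (by linarith)
  have hq1 : (1 : ℝ) ≤ q := by exact_mod_cast hq
  have hlq : 0 ≤ Real.log q := Real.log_nonneg hq1
  have hlqz : Real.log q ≤ Real.log z := Real.log_le_log (by linarith) (by exact_mod_cast hqz)
  set x := Real.log q / Real.log z with hx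
  have hx0 : 0 ≤ x := by positivity
  have hx1 : x ≤ 1 := by rw [hx, div_le_one hlz]; exact hlqz
  have e : (q : ℝ) ^ (1 / Real.log z) = Real.exp x := by
    rw [Real.rpow_def_of_pos (by linarith), hx]
    congr 1; ring
  rw [e, mul_div_assoc, ← hx]
  have h2 := Real.abs_exp_sub_one_sub_id_le (x := x) (by rw [abs_of_nonneg hx0]; exact hx1)
  have h3 := (abs_le.mp h2).2
  nlinarith

end SL1

open SL1

/-- the sum of the Selberg terms is at least half of the full product -/
theorem SS_lower : ∃ c : ℝ, 1 ≤ c ∧ ∀ (bad : ℕ → ℕ → Prop) (P : Finset ℕ)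
    (hP : ∀ q ∈ P, q.Prime) (h0 : ∀ q ∈ P, 0 < H6.Hooley.rho bad q)
    (h1 : ∀ q ∈ P, H6.Hooley.rho bad q < q) (X k z D : ℕ), 2 ≤ z → (∀ q ∈ P, q ≤ z) →
    (∀ q ∈ P, H6.Hooley.rho bad q ≤ k) → 1 ≤ D → (c * k + 1) * Real.log z ≤ Real.log D →
    1 / 2 * ∏ q ∈ P, (1 - dn bad q)⁻¹ ≤ H6.SS (cSieve bad P hP h0 h1 X) D := by
  obtain ⟨C, hC, hM⟩ := mertens_log
  refine ⟨2 * (1 + 2 * C), by linarith, ?_⟩
  intro bad P hP h0 h1 X k z D hz hPz hk hD hlog
  set s := cSieve bad P hP h0 h1 X with hs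
  have hz2 : (2 : ℝ) ≤ z := by exact_mod_cast hz
  have hlz2 : Real.log 2 ≤ Real.log z := Real.log_le_log (by norm_num) hz2
  have hl2 : (0.69 : ℝ) < Real.log 2 := by linarith [Real.log_two_gt_d9]
  have hlz : 0 < Real.log z := by linarith
  set η : ℝ := 1 / Real.log z with hη
  have hη0 : 0 < η := by positivity
  set T : ℝ := ∏ q ∈ P, (1 - dn bad q)⁻¹ with hT
  have hTpos : 0 < T := by
    apply Finset.prod_pos
    intro q hq
    have := dn_lt (hP q hq) (h1 q hq)
    exact inv_pos.mpr (by linarith)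
  -- full sum
  have hfull : ∑ l ∈ (∏ q ∈ P, q).divisors, s.selbergTerms l = T := by
    have h := sum_twist hP h0 h1 X 0
    simp only [Real.rpow_zero, mul_one] at h
    rw [← hs] at h
    rw [h, hT]
    apply Finset.prod_congr rfl
    intro q hq
    have := dn_lt (hP q hq) (h1 q hq)
    have h3 : 1 - dn bad q ≠ 0 := by linarith
    field_simp
    ring
  have hnn : ∀ l ∈ (∏ q ∈ P, q).divisors, 0 ≤ s.selbergTerms l := fun l hl =>
    (selbergTerms_pos (s := s) (Nat.dvd_of_mem_divisors hl)).le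
  have hsplit : ∑ l ∈ (∏ q ∈ P, q).divisors, s.selbergTerms l ≤
      H6.SS s D + ∑ l ∈ (∏ q ∈ P, q).divisors, s.selbergTerms l * ((l : ℝ) ^ η * (D : ℝ) ^ (-η)) := by
    have e : H6.SS s D = ∑ l ∈ (∏ q ∈ P, q).divisors, if l ≤ D then s.selbergTerms l else 0 := rfl
    rw [e, ← Finset.sum_add_distrib]
    apply Finset.sum_le_sum
    intro l hl
    have hl0 : 0 < l := Nat.pos_of_mem_divisors hl
    have hl0' : (0 : ℝ) < l := by exact_mod_cast hl0
    have hD0 : (0 : ℝ) < D := by exact_mod_cast hD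
    have h4 : 0 ≤ s.selbergTerms l * ((l : ℝ) ^ η * (D : ℝ) ^ (-η)) :=
      mul_nonneg (hnn l hl) (by positivity)
    split_ifs with h
    · linarith
    · rw [zero_add]
      have h5 : (D : ℝ) ≤ l := by exact_mod_cast (not_le.mp h).le
      have h6 : (1 : ℝ) ≤ (l : ℝ) ^ η * (D : ℝ) ^ (-η) := by
        rw [Real.rpow_neg hD0.le, ← div_eq_mul_inv, ← Real.div_rpow hl0'.le hD0.le]
        apply Real.one_le_rpow _ hη0.le
        rw [le_div_iff₀ hD0]; linarith
      calc s.selbergTerms l = s.selbergTerms l * 1 := (mul_one _).symm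
        _ ≤ _ := mul_le_mul_of_nonneg_left h6 (hnn l hl)
  have htail : ∑ l ∈ (∏ q ∈ P, q).divisors, s.selbergTerms l * ((l : ℝ) ^ η * (D : ℝ) ^ (-η)) ≤
      1 / 2 * T := by
    have e1 : ∑ l ∈ (∏ q ∈ P, q).divisors, s.selbergTerms l * ((l : ℝ) ^ η * (D : ℝ) ^ (-η)) =
        (∏ q ∈ P, (1 + dn bad q * (1 - dn bad q)⁻¹ * (q : ℝ) ^ η)) * (D : ℝ) ^ (-η) := by
      rw [← sum_twist hP h0 h1 X η, Finset.sum_mul]
      apply Finset.sum_congr rfl
      intro l _; rw [← hs]; ring
    rw [e1]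
    have e2 : ∏ q ∈ P, (1 + dn bad q * (1 - dn bad q)⁻¹ * (q : ℝ) ^ η) =
        T * ∏ q ∈ P, (1 + ((q : ℝ) ^ η - 1) * dn bad q) := by
      rw [hT, ← Finset.prod_mul_distrib]
      apply Finset.prod_congr rfl
      intro q hq
      have := dn_lt (hP q hq) (h1 q hq)
      have h3 : 1 - dn bad q ≠ 0 := by linarith
      field_simp
      ring
    have e3 : ∏ q ∈ P, (1 + ((q : ℝ) ^ η - 1) * dn bad q) ≤ Real.exp (2 * (1 + 2 * C) * k) := by
      have h5 : ∀ q ∈ P, 1 + ((q : ℝ) ^ η - 1) * dn bad q ≤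
          Real.exp (2 * k / Real.log z * (Real.log q / q)) := by
        intro q hq
        have hqp := (hP q hq)
        have hq0 : (0 : ℝ) < q := by exact_mod_cast hqp.pos
        have h6 := rpow_sub_one_le hqp.one_lt.le (hPz q hq) hz
        have h7 : dn bad q ≤ k / q := by
          unfold dn
          gcongr
          exact_mod_cast hk q hq
        have h8 := (dn_pos hqp (h0 q hq)).le
        have h9 : 0 ≤ Real.log q := Real.log_natCast_nonneg q
        have h10 : ((q : ℝ) ^ η - 1) * dn bad q ≤ 2 * k / Real.log z * (Real.log q / q) := by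
          calc ((q : ℝ) ^ η - 1) * dn bad q ≤ (2 * Real.log q / Real.log z) * (k / q) := by
                apply mul_le_mul h6 h7 h8
                positivity
            _ = _ := by ring
        have h11 := Real.add_one_le_exp (2 * k / Real.log z * (Real.log q / q))
        linarith
      have h12 : ∀ q ∈ P, 0 ≤ 1 + ((q : ℝ) ^ η - 1) * dn bad q := by
        intro q hq
        have hqp := (hP q hq)
        have hq1 : (1 : ℝ) ≤ q := by exact_mod_cast hqp.one_lt.le
        have h8 := (dn_pos hqp (h0 q hq)).le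
        have h13 : (1 : ℝ) ≤ (q : ℝ) ^ η := Real.one_le_rpow hq1 hη0.le
        have : 0 ≤ ((q : ℝ) ^ η - 1) * dn bad q := mul_nonneg (by linarith) h8
        linarith
      refine (Finset.prod_le_prod h12 h5).trans ?_
      rw [← Real.exp_sum, ← Finset.mul_sum]
      apply Real.exp_le_exp.mpr
      have h14 : ∑ q ∈ P, Real.log q / (q : ℝ) ≤ Real.log z + C := by
        refine le_trans ?_ (hM z hz)
        apply Finset.sum_le_sum_of_subset_of_nonneg
        · intro q hq
          rw [mem_PZ]; exact ⟨hP q hq, hPz q hq⟩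
        · intro q _ _
          exact div_nonneg (Real.log_natCast_nonneg q) (Nat.cast_nonneg q)
      calc 2 * k / Real.log z * ∑ q ∈ P, Real.log q / (q : ℝ) ≤
            2 * k / Real.log z * (Real.log z + C) := by gcongr
        _ = 2 * (1 + C / Real.log z) * k := by field_simp
        _ ≤ 2 * (1 + 2 * C) * k := by
            have : C / Real.log z ≤ 2 * C := by
              rw [div_le_iff₀ hlz]
              nlinarith
            gcongr
    have e4 : (D : ℝ) ^ (-η) ≤ Real.exp (-(2 * (1 + 2 * C) * k + 1)) := by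
      have hD0 : (0 : ℝ) < D := by exact_mod_cast hD
      rw [Real.rpow_def_of_pos hD0]
      apply Real.exp_le_exp.mpr
      rw [hη]
      have : 2 * (1 + 2 * C) * k + 1 ≤ Real.log D / Real.log z := by
        rw [le_div_iff₀ hlz]; exact hlog
      have e5 : Real.log D * -(1 / Real.log z) = -(Real.log D / Real.log z) := by ring
      rw [e5]; linarith
    rw [e2]
    have h15 : Real.exp (-1 : ℝ) ≤ 1 / 2 := by
      have := Real.add_one_le_exp (1 : ℝ)
      rw [Real.exp_neg]
      rw [inv_le_comm₀ (Real.exp_pos _) (by norm_num)]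
      linarith
    calc (T * ∏ q ∈ P, (1 + ((q : ℝ) ^ η - 1) * dn bad q)) * (D : ℝ) ^ (-η)
        = T * ((∏ q ∈ P, (1 + ((q : ℝ) ^ η - 1) * dn bad q)) * (D : ℝ) ^ (-η)) := by ring
      _ ≤ T * (Real.exp (2 * (1 + 2 * C) * k) * Real.exp (-(2 * (1 + 2 * C) * k + 1))) := by
          gcongr
      _ = T * Real.exp (-1 : ℝ) := by
          rw [← Real.exp_add]; congr 2; ring
      _ ≤ T * (1 / 2) := by gcongr
      _ = 1 / 2 * T := by ring
  rw [hfull] at hsplit
  linarith

/-- bound for the full product -/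
theorem full_le {bad : ℕ → ℕ → Prop} {P : Finset ℕ} (hP : ∀ q ∈ P, q.Prime)
    (h1 : ∀ q ∈ P, H6.Hooley.rho bad q < q) (k z : ℕ) (hz : 2 ≤ z) (hPz : ∀ q ∈ P, q ≤ z)
    (hk : ∀ q ∈ P, H6.Hooley.rho bad q ≤ k) :
    ∏ q ∈ P, (1 - dn bad q)⁻¹ ≤ Real.exp (8 * k * Real.log z) := by
  have hz2 : (2 : ℝ) ≤ z := by exact_mod_cast hz
  have hlz2 : Real.log 2 ≤ Real.log z := Real.log_le_log (by norm_num) hz2
  have hl2 : (0.69 : ℝ) < Real.log 2 := by linarith [Real.log_two_gt_d9]
  have hlz : 0 < Real.log z := by linarith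
  have h5 : ∀ q ∈ P, (1 - dn bad q)⁻¹ ≤
      Real.exp ((if q ≤ 2 * k then Real.log z else 0) + 2 * k / q) := by
    intro q hq
    have hqp := hP q hq
    have hq0 : (0 : ℝ) < q := by exact_mod_cast hqp.pos
    have hlt := dn_lt hqp (h1 q hq)
    split_ifs with h
    · have h6 : (q : ℝ)⁻¹ ≤ 1 - dn bad q := by
        unfold dn
        have h7 : (H6.Hooley.rho bad q : ℝ) + 1 ≤ q := by exact_mod_cast h1 q hq
        rw [inv_eq_one_div, le_sub_iff_add_le, ← add_div, div_le_one hq0]
        linarith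
      have h7 : (1 - dn bad q)⁻¹ ≤ q := by
        rw [inv_le_comm₀ (by linarith) hq0]; exact h6
      refine h7.trans ?_
      calc (q : ℝ) ≤ z := by exact_mod_cast hPz q hq
        _ = Real.exp (Real.log z) := (Real.exp_log (by linarith)).symm
        _ ≤ _ := by
          apply Real.exp_le_exp.mpr
          have : (0 : ℝ) ≤ 2 * k / q := by positivity
          linarith
    · have h8 : dn bad q ≤ k / q := by
        unfold dn
        gcongr
        exact_mod_cast hk q hq
      have h9 : (k : ℝ) / q ≤ 1 / 2 := by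
        rw [div_le_iff₀ hq0]
        have : (2 * k : ℝ) ≤ q := by exact_mod_cast (not_le.mp h).le
        linarith
      have h10 : 0 ≤ dn bad q := by unfold dn; positivity
      rw [zero_add]
      set x := dn bad q with hx
      have h11 : x ≤ 1 / 2 := h8.trans h9
      have h12 : (1 - x)⁻¹ ≤ 1 + 2 * x := by
        rw [inv_le_iff_one_le_mul₀ (by linarith)]
        nlinarith
      have h13 := Real.add_one_le_exp (2 * x)
      refine h12.trans ((by linarith : 1 + 2 * x ≤ Real.exp (2 * x)).trans ?_)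
      apply Real.exp_le_exp.mpr
      calc 2 * x ≤ 2 * (k / q) := by gcongr
        _ = _ := by ring
  have h6 : ∀ q ∈ P, 0 ≤ (1 - dn bad q)⁻¹ := by
    intro q hq
    have := dn_lt (hP q hq) (h1 q hq)
    exact (inv_pos.mpr (by linarith)).le
  refine (Finset.prod_le_prod h6 h5).trans ?_
  rw [← Real.exp_sum]
  apply Real.exp_le_exp.mpr
  rw [Finset.sum_add_distrib]
  have h7 : ∑ q ∈ P, (if q ≤ 2 * k then Real.log z else 0) ≤ 2 * k * Real.log z := by
    rw [← Finset.sum_filter, Finset.sum_const, nsmul_eq_mul]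
    have : (P.filter (fun q => q ≤ 2 * k)).card ≤ 2 * k := by
      have hsub : P.filter (fun q => q ≤ 2 * k) ⊆ Finset.Icc 1 (2 * k) := by
        intro q hq
        rw [mem_filter] at hq
        rw [mem_Icc]
        exact ⟨(hP q hq.1).one_lt.le, hq.2⟩
      have := Finset.card_le_card hsub
      rwa [Nat.card_Icc, Nat.add_sub_cancel] at this
    have h8 : ((P.filter (fun q => q ≤ 2 * k)).card : ℝ) ≤ 2 * k := by exact_mod_cast this
    gcongr
  have h8 : ∑ q ∈ P, 2 * (k : ℝ) / q ≤ 2 * k * (1 + Real.log z) := by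
    have e : ∑ q ∈ P, 2 * (k : ℝ) / q = 2 * k * ∑ q ∈ P, (1 : ℝ) / q := by
      rw [Finset.mul_sum]
      apply Finset.sum_congr rfl
      intro q _; ring
    rw [e]
    have h9 : ∑ q ∈ P, (1 : ℝ) / q ≤ 1 + Real.log z := by
      calc ∑ q ∈ P, (1 : ℝ) / q ≤ ∑ q ∈ Finset.Icc 1 z, (1 : ℝ) / q := by
            apply Finset.sum_le_sum_of_subset_of_nonneg
            · intro q hq
              rw [mem_Icc]; exact ⟨(hP q hq).one_lt.le, hPz q hq⟩
            · intro q _ _; positivity
        _ = ((harmonic z : ℚ) : ℝ) := by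
            rw [harmonic_eq_sum_Icc]; push_cast
            apply Finset.sum_congr rfl
            intro q _; rw [one_div]
        _ ≤ _ := harmonic_le_one_add_log z
    gcongr
  have hk0 : (0 : ℝ) ≤ k := Nat.cast_nonneg k
  nlinarith

/-- **The sieve, uniform in the dimension.** -/
theorem SL : ∃ C₀ : ℝ, 1 ≤ C₀ ∧ ∀ (k X H z : ℕ) (Ω : ℕ → Finset ℕ), 1 ≤ k → 2 ≤ z → 1 ≤ X →
    C₀ * k * Real.log z ≤ Real.log X → (∀ l ∈ PZ z, Ω l ⊆ range l ∧ (Ω l).card ≤ k) →
    (((Ioc H (H + X)).filter (fun n => ∀ l ∈ PZ z, n % l ∉ Ω l)).card : ℝ) ≤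
      4 * X * ∏ l ∈ PZ z, (1 - ((Ω l).card : ℝ) / l) := by
  obtain ⟨c, hc, hSS⟩ := SS_lower
  refine ⟨20 * (c + 2), by linarith, ?_⟩
  intro k X H z Ω hk hz hX hlog hΩ
  have hz2 : (2 : ℝ) ≤ z := by exact_mod_cast hz
  have hlz2 : Real.log 2 ≤ Real.log z := Real.log_le_log (by norm_num) hz2
  have hl2 : (0.69 : ℝ) < Real.log 2 := by linarith [Real.log_two_gt_d9]
  have hlz : 0 < Real.log z := by linarith
  have hk1 : (1 : ℝ) ≤ k := by exact_mod_cast hk
  have hX0 : (0 : ℝ) < X := by exact_mod_cast hX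
  by_cases hfull : ∃ l ∈ PZ z, (Ω l).card = l
  · -- some class set is everything
    obtain ⟨l, hl, hcard⟩ := hfull
    have hl0 : 0 < l := (mem_PZ.mp hl).1.pos
    have hΩl : Ω l = range l := Finset.eq_of_subset_of_card_le (hΩ l hl).1 (by rw [card_range, hcard])
    have h1 : (Ioc H (H + X)).filter (fun n => ∀ l ∈ PZ z, n % l ∉ Ω l) = ∅ := by
      rw [Finset.filter_eq_empty_iff]
      intro n _ h
      apply h l hl
      rw [hΩl, mem_range]
      exact Nat.mod_lt _ hl0
    have h2 : ∏ l ∈ PZ z, (1 - ((Ω l).card : ℝ) / l) = 0 := by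
      apply Finset.prod_eq_zero hl
      rw [hcard, div_self (by exact_mod_cast hl0.ne'), sub_self]
    rw [h1, h2]; simp
  push Not at hfull
  -- the predicate
  obtain ⟨bad, hbad⟩ : ∃ bad : ℕ → ℕ → Prop, ∀ l s, bad l s ↔ (s + (H + 1)) % l ∈ Ω l :=
    ⟨fun l s => (s + (H + 1)) % l ∈ Ω l, fun _ _ => Iff.rfl⟩
  have hper : H6.Hooley.Per bad := by
    intro q s
    rw [hbad, hbad, Nat.mod_add_mod]
  have hrho : ∀ l ∈ PZ z, H6.Hooley.rho bad l = (Ω l).card := by
    intro l hl
    have hl0 : 0 < l := (mem_PZ.mp hl).1.pos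
    unfold H6.Hooley.rho
    apply Finset.card_bij (fun s _ => (s + (H + 1)) % l)
    · intro s hs
      exact (hbad _ _).mp (mem_filter.mp hs).2
    · intro s hs t ht hst
      have h1 := mem_range.mp (mem_filter.mp hs).1
      have h2 := mem_range.mp (mem_filter.mp ht).1
      have h3 : s + (H + 1) ≡ t + (H + 1) [MOD l] := hst
      have h4 := Nat.ModEq.add_right_cancel' _ h3
      unfold Nat.ModEq at h4
      rwa [Nat.mod_eq_of_lt h1, Nat.mod_eq_of_lt h2] at h4
    · intro t ht
      have h1 := mem_range.mp ((hΩ l hl).1 ht)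
      refine ⟨(t + (l - (H + 1) % l)) % l, ?_, ?_⟩
      · have h2 : ((t + (l - (H + 1) % l)) % l + (H + 1)) % l = t := by
          have h3 := Nat.mod_lt (H + 1) hl0
          rw [Nat.mod_add_mod]
          have h4 : t + (l - (H + 1) % l) + (H + 1) = t + l + l * ((H + 1) / l) := by
            have := Nat.mod_add_div (H + 1) l
            omega
          rw [h4, Nat.add_mul_mod_self_left, Nat.add_mod_right, Nat.mod_eq_of_lt h1]
        rw [mem_filter, mem_range, hbad]
        exact ⟨Nat.mod_lt _ hl0, by rw [h2]; exact ht⟩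
      · have h3 := Nat.mod_lt (H + 1) hl0
        rw [Nat.mod_add_mod]
        have h4 : t + (l - (H + 1) % l) + (H + 1) = t + l + l * ((H + 1) / l) := by
          have := Nat.mod_add_div (H + 1) l
          omega
        rw [h4, Nat.add_mul_mod_self_left, Nat.add_mod_right, Nat.mod_eq_of_lt h1]
  set P := (PZ z).filter (fun l => 0 < (Ω l).card) with hPdef
  have hP : ∀ q ∈ P, q.Prime := fun q hq => (mem_PZ.mp (mem_filter.mp hq).1).1
  have h0 : ∀ q ∈ P, 0 < H6.Hooley.rho bad q := fun q hq => by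
    rw [hrho q (mem_filter.mp hq).1]; exact (mem_filter.mp hq).2
  have h1 : ∀ q ∈ P, H6.Hooley.rho bad q < q := fun q hq => by
    have hq' := (mem_filter.mp hq).1
    rw [hrho q hq']
    have := Finset.card_le_card (hΩ q hq').1
    rw [card_range] at this
    exact lt_of_le_of_ne this (hfull q hq')
  have hPz : ∀ q ∈ P, q ≤ z := fun q hq => (mem_PZ.mp (mem_filter.mp hq).1).2
  have hPk : ∀ q ∈ P, H6.Hooley.rho bad q ≤ k := fun q hq => by
    rw [hrho q (mem_filter.mp hq).1]; exact (hΩ q (mem_filter.mp hq).1).2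
  -- the level
  set D : ℕ := ⌊Real.exp (Real.log X / 10)⌋₊ with hD
  have hlogX0 : 0 ≤ Real.log X := Real.log_natCast_nonneg X
  have he1 : 1 ≤ Real.exp (Real.log X / 10) := Real.one_le_exp (by positivity)
  have hD1 : 1 ≤ D := by
    rw [hD]; exact Nat.le_floor (by simpa using he1)
  have hDle : (D : ℝ) ≤ Real.exp (Real.log X / 10) := Nat.floor_le (Real.exp_pos _).le
  have hDge : Real.exp (Real.log X / 10) / 2 ≤ D := by
    have h3 := Nat.lt_floor_add_one (Real.exp (Real.log X / 10))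
    rw [← hD] at h3
    have h4 : (1 : ℝ) ≤ D := by exact_mod_cast hD1
    linarith
  have hlogD : (c * k + 1) * Real.log z ≤ Real.log D := by
    have h3 : Real.log (Real.exp (Real.log X / 10) / 2) ≤ Real.log D :=
      Real.log_le_log (by positivity) hDge
    rw [Real.log_div (Real.exp_pos _).ne' (by norm_num), Real.log_exp] at h3
    nlinarith
  have hb := bound hP h0 h1 X hper D hD1
  have hss := hSS bad P hP h0 h1 X k z D hz hPz hPk hD1 hlogD
  set T : ℝ := ∏ q ∈ P, (1 - dn bad q)⁻¹ with hT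
  have hTpos : 0 < T := by
    apply Finset.prod_pos
    intro q hq
    have := dn_lt (hP q hq) (h1 q hq)
    exact inv_pos.mpr (by linarith)
  have hTle := full_le hP h1 k z hz hPz hPk
  rw [← hT] at hTle
  have hD6 : (D : ℝ) ^ 6 ≤ 2 * X / T := by
    have h3 : (D : ℝ) ^ 6 ≤ Real.exp (Real.log X / 10) ^ 6 := by gcongr
    rw [← Real.exp_nat_mul] at h3
    rw [le_div_iff₀ hTpos]
    have h4 : Real.exp ((6 : ℕ) * (Real.log X / 10)) * Real.exp (8 * k * Real.log z) ≤ X := by
      rw [← Real.exp_add]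
      conv_rhs => rw [← Real.exp_log hX0]
      apply Real.exp_le_exp.mpr
      push_cast
      nlinarith
    calc (D : ℝ) ^ 6 * T ≤ Real.exp ((6 : ℕ) * (Real.log X / 10)) * Real.exp (8 * k * Real.log z) := by
          gcongr
      _ ≤ X := h4
      _ ≤ 2 * X := by linarith
  have hmain : (X : ℝ) / H6.SS (cSieve bad P hP h0 h1 X) D ≤ 2 * X / T := by
    have h3 : 0 < 1 / 2 * T := by positivity
    calc (X : ℝ) / H6.SS (cSieve bad P hP h0 h1 X) D ≤ X / (1 / 2 * T) := by
          gcongr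
      _ = 2 * X / T := by field_simp
  have hcount : (((Ioc H (H + X)).filter (fun n => ∀ l ∈ PZ z, n % l ∉ Ω l)).card : ℝ) =
      (((range X).filter (fun s => ∀ q ∈ P, ¬ bad q s)).card : ℝ) := by
    norm_cast
    symm
    apply Finset.card_bij (fun s _ => s + (H + 1))
    · intro s hs
      rw [mem_filter, mem_range] at hs
      rw [mem_filter, mem_Ioc]
      refine ⟨⟨by omega, by omega⟩, fun l hl hmem => ?_⟩
      have : l ∈ P := by
        rw [hPdef, mem_filter]
        exact ⟨hl, Finset.card_pos.mpr ⟨_, hmem⟩⟩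
      exact hs.2 l this ((hbad _ _).mpr hmem)
    · intro a _ b _ hab
      omega
    · intro n hn
      rw [mem_filter, mem_Ioc] at hn
      refine ⟨n - (H + 1), ?_, by omega⟩
      rw [mem_filter, mem_range]
      refine ⟨by omega, fun q hq hb' => ?_⟩
      have e : n - (H + 1) + (H + 1) = n := by omega
      have hbad' : (n - (H + 1) + (H + 1)) % q ∈ Ω q := (hbad _ _).mp hb'
      rw [e] at hbad'
      exact hn.2 q (mem_filter.mp hq).1 hbad'
  have hprod : ∏ l ∈ PZ z, (1 - ((Ω l).card : ℝ) / l) = T⁻¹ := by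
    rw [hT, Finset.prod_inv_distrib, inv_inv]
    rw [← Finset.prod_filter_mul_prod_filter_not (PZ z) (fun l => 0 < (Ω l).card), ← hPdef]
    have h5 : ∏ l ∈ (PZ z).filter (fun l => ¬ 0 < (Ω l).card), (1 - ((Ω l).card : ℝ) / l) = 1 := by
      apply Finset.prod_eq_one
      intro l hl
      have := (mem_filter.mp hl).2
      have h6 : (Ω l).card = 0 := by omega
      rw [h6]; simp
    rw [h5, mul_one]
    apply Finset.prod_congr rfl
    intro q hq
    unfold dn
    rw [hrho q (mem_filter.mp hq).1]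
  rw [hcount, hprod]
  calc (((range X).filter (fun s => ∀ q ∈ P, ¬ bad q s)).card : ℝ)
      ≤ X / H6.SS (cSieve bad P hP h0 h1 X) D + (D : ℝ) ^ 6 := by convert hb
    _ ≤ 2 * X / T + 2 * X / T := by linarith
    _ = 4 * X * T⁻¹ := by field_simp; ring

end

end Pool.Agent.NTot
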