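import Pool.Agent.NTot.Defs
import Pool.Agent.H6.HR.Mertens

/-!
# Mertens-type facts (module M0)
-/

set_option autoImplicit false

namespace Pool.Agent.NTot

open Finset Pool.Agent.CoprimeSieve

noncomputable section

theorem mem_PZ {z l : ℕ} : l ∈ PZ z ↔ l.Prime ∧ l ≤ z := by
  unfold PZ
  rw [mem_filter, mem_Icc]
  constructor
  · rintro ⟨⟨_, h2⟩, h3⟩; exact ⟨h3, h2⟩
  · rintro ⟨h1, h2⟩; exact ⟨⟨h1.one_lt.le, h2⟩, h1⟩

theorem PZ_eq_pr (z : ℕ) : PZ z = pr (z : ℝ) := by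
  ext l; rw [mem_PZ, mem_pr]; simp

theorem mertens_log : ∃ C : ℝ, 1 ≤ C ∧ ∀ z : ℕ, 2 ≤ z →
    ∑ l ∈ PZ z, Real.log l / l ≤ Real.log z + C := by
  obtain ⟨C, hC, h⟩ := mertens_first
  refine ⟨C + 1, by linarith, fun z hz => ?_⟩
  have h1 := (abs_le.mp (h (z : ℝ) (by exact_mod_cast (by omega : 1 ≤ z)))).2
  rw [PZ_eq_pr]
  unfold mE at h1
  linarith

theorem mertens_inv : ∃ C : ℝ, 1 ≤ C ∧ ∀ z : ℕ, 3 ≤ z →
    ∑ l ∈ PZ z, (1 : ℝ) / l ≤ Real.log (Real.log z) + C := by
  obtain ⟨C, hC, h⟩ := mertens_second_upper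
  have hl2 : 0 < Real.log 2 := Real.log_pos (by norm_num)
  refine ⟨1 + C / Real.log 2 + |Real.log (Real.log 2)|, ?_, fun z hz => ?_⟩
  · have : 0 ≤ C / Real.log 2 := by positivity
    have := abs_nonneg (Real.log (Real.log 2))
    linarith
  · have hz3 : (3 : ℝ) ≤ z := by exact_mod_cast hz
    have h1 := h 2 z le_rfl (by linarith)
    have hlz : 0 < Real.log z := Real.log_pos (by linarith)
    rw [Real.log_div hlz.ne' hl2.ne'] at h1
    have h2 : ∑ l ∈ PZ z, (1 : ℝ) / l ≤ 1 / 2 +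
        ∑ p ∈ (pr z).filter (fun p : ℕ => (2 : ℝ) < (p : ℝ)), (1 : ℝ) / p := by
      rw [PZ_eq_pr, ← Finset.sum_filter_add_sum_filter_not (pr (z : ℝ)) (fun p : ℕ => (2 : ℝ) < (p : ℝ)),
        add_comm]
      have : ((pr (z : ℝ)).filter (fun p : ℕ => ¬ (2 : ℝ) < (p : ℝ))) ⊆ {2} := by
        intro p hp
        rw [mem_filter, mem_pr] at hp
        rw [mem_singleton]
        have h3 : (p : ℝ) ≤ 2 := not_lt.mp hp.2
        have h4 : p ≤ 2 := by exact_mod_cast h3
        have := hp.1.1.two_le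
        omega
      have h5 := Finset.sum_le_sum_of_subset_of_nonneg (f := fun p : ℕ => (1 : ℝ) / p) this
        (fun i _ _ => by positivity)
      rw [Finset.sum_singleton] at h5
      push_cast at h5
      linarith
    have h6 := le_abs_self (-(Real.log (Real.log 2)))
    rw [abs_neg] at h6
    linarith

/-- `∏ (1 - 1/l) ≤ exp (-∑ 1/l)` -/
theorem prod_one_sub_le_exp (S : Finset ℕ) (hS : ∀ l ∈ S, 1 ≤ l) :
    ∏ l ∈ S, (1 - (1 : ℝ) / l) ≤ Real.exp (-∑ l ∈ S, (1 : ℝ) / l) := by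
  rw [← Finset.sum_neg_distrib, Real.exp_sum]
  apply Finset.prod_le_prod
  · intro l hl
    have h1 : (1 : ℝ) ≤ l := by exact_mod_cast hS l hl
    have : (1 : ℝ) / l ≤ 1 := by rw [div_le_one (by linarith)]; exact h1
    linarith
  · intro l _
    have := Real.add_one_le_exp (-((1 : ℝ) / l))
    linarith

theorem mertens_prod_range : ∃ C : ℝ, 1 ≤ C ∧ ∀ y z : ℕ, 2 ≤ y → y ≤ z →
    ∏ l ∈ (PZ z).filter (fun l => y < l), (1 - (1 : ℝ) / l) ≤ C * Real.log y / Real.log z := by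
  obtain ⟨C, hC, h⟩ := H6.HR.mertens_second_lower
  have hl2 : 0 < Real.log 2 := Real.log_pos (by norm_num)
  refine ⟨Real.exp (C / Real.log 2), Real.one_le_exp (by positivity), fun y z hy hyz => ?_⟩
  have hy2 : (2 : ℝ) ≤ y := by exact_mod_cast hy
  have hyz' : (y : ℝ) ≤ z := by exact_mod_cast hyz
  have hly : 0 < Real.log y := Real.log_pos (by linarith)
  have hlz : 0 < Real.log z := Real.log_pos (by linarith)
  have h1 := h y z hy2 hyz'
  have h2 := prod_one_sub_le_exp ((PZ z).filter (fun l => y < l))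
    (fun l hl => (mem_PZ.mp (mem_filter.mp hl).1).1.one_lt.le)
  refine h2.trans ?_
  have e : (PZ z).filter (fun l => y < l) = (pr (z : ℝ)).filter (fun p : ℕ => (y : ℝ) < (p : ℝ)) := by
    rw [PZ_eq_pr]
    apply Finset.filter_congr
    intro p _
    simp
  rw [e]
  have h3 : C / Real.log y ≤ C / Real.log 2 := by
    apply div_le_div_of_nonneg_left hC hl2
    exact Real.log_le_log (by norm_num) hy2
  have h4 : -∑ p ∈ (pr (z : ℝ)).filter (fun p : ℕ => (y : ℝ) < (p : ℝ)), (1 : ℝ) / p ≤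
      C / Real.log 2 + Real.log (Real.log y / Real.log z) := by
    rw [Real.log_div hly.ne' hlz.ne']
    rw [Real.log_div hlz.ne' hly.ne'] at h1
    linarith
  calc Real.exp (-∑ p ∈ (pr (z : ℝ)).filter (fun p : ℕ => (y : ℝ) < (p : ℝ)), (1 : ℝ) / p)
      ≤ Real.exp (C / Real.log 2 + Real.log (Real.log y / Real.log z)) := Real.exp_le_exp.mpr h4
    _ = Real.exp (C / Real.log 2) * (Real.log y / Real.log z) := by
        rw [Real.exp_add, Real.exp_log (by positivity)]
    _ = _ := by ring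

theorem mertens_prod : ∃ C : ℝ, 1 ≤ C ∧ ∀ z : ℕ, 2 ≤ z →
    ∏ l ∈ PZ z, (1 - (1 : ℝ) / l) ≤ C / Real.log z := by
  obtain ⟨C, hC, h⟩ := mertens_prod_range
  refine ⟨C, hC, fun z hz => ?_⟩
  have h1 := h 2 z le_rfl hz
  have hz2 : (2 : ℝ) ≤ z := by exact_mod_cast hz
  have hlz : 0 < Real.log z := Real.log_pos (by linarith)
  have h2 : ∏ l ∈ PZ z, (1 - (1 : ℝ) / l) ≤ ∏ l ∈ (PZ z).filter (fun l => 2 < l), (1 - (1 : ℝ) / l) := by
    rw [← Finset.prod_filter_mul_prod_filter_not (PZ z) (fun l => 2 < l)]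
    have hn : ∀ l ∈ (PZ z).filter (fun l => 2 < l), 0 ≤ (1 - (1 : ℝ) / l) := by
      intro l hl
      have h1 : (1 : ℝ) ≤ l := by exact_mod_cast (mem_PZ.mp (mem_filter.mp hl).1).1.one_lt.le
      have : (1 : ℝ) / l ≤ 1 := by rw [div_le_one (by linarith)]; exact h1
      linarith
    have hn2 : ∏ l ∈ (PZ z).filter (fun l => ¬ 2 < l), (1 - (1 : ℝ) / l) ≤ 1 := by
      apply Finset.prod_le_one
      · intro l hl
        have h1 : (1 : ℝ) ≤ l := by exact_mod_cast (mem_PZ.mp (mem_filter.mp hl).1).1.one_lt.le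
        have : (1 : ℝ) / l ≤ 1 := by rw [div_le_one (by linarith)]; exact h1
        linarith
      · intro l _
        have : (0 : ℝ) ≤ 1 / l := by positivity
        linarith
    exact mul_le_of_le_one_right (Finset.prod_nonneg hn) hn2
  refine (h2.trans h1).trans ?_
  have hl2' : Real.log 2 ≤ 1 := by linarith [Real.log_two_lt_d9]
  gcongr
  push_cast
  nlinarith

theorem card_PB : ∃ C : ℝ, 1 ≤ C ∧ ∀ X : ℕ, 2 ≤ X → ((PB X).card : ℝ) ≤ C * X / Real.log X := by
  refine ⟨2 * Real.log 4, ?_, fun X hX => ?_⟩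
  · have h2 : Real.log 4 = 2 * Real.log 2 := by
      rw [show (4 : ℝ) = 2 ^ 2 by norm_num, Real.log_pow]; norm_num
    rw [h2]
    linarith [Real.log_two_gt_d9]
  have hX2 : (2 : ℝ) ≤ X := by exact_mod_cast hX
  have hlX : 0 < Real.log X := Real.log_pos (by linarith)
  rw [le_div_iff₀ hlX]
  have h1 : ((PB X).card : ℝ) * Real.log X ≤ ∑ p ∈ PB X, Real.log p := by
    rw [← nsmul_eq_mul]
    apply Finset.card_nsmul_le_sum
    intro p hp
    have hp' := mem_Ioc.mp (mem_filter.mp hp).1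
    exact Real.log_le_log (by linarith) (by exact_mod_cast hp'.1.le)
  have h2 : ∑ p ∈ PB X, Real.log p ≤ Real.log (primorial (2 * X)) := by
    unfold primorial
    rw [Nat.cast_prod, Real.log_prod (fun p hp => by
      have := (mem_filter.mp hp).2.pos
      positivity)]
    apply Finset.sum_le_sum_of_subset_of_nonneg
    · intro p hp
      rw [PB, mem_filter, mem_Ioc] at hp
      rw [mem_filter, mem_range]
      exact ⟨by omega, hp.2⟩
    · intro p _ _
      exact Real.log_natCast_nonneg p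
  have h3 : Real.log (primorial (2 * X)) ≤ 2 * X * Real.log 4 := by
    have h4 : ((primorial (2 * X) : ℕ) : ℝ) ≤ (4 : ℝ) ^ (2 * X) := by
      exact_mod_cast primorial_le_four_pow (2 * X)
    have h5 := Real.log_le_log (by exact_mod_cast primorial_pos (2 * X)) h4
    rw [Real.log_pow] at h5
    push_cast at h5
    exact h5
  linarith

theorem rho_le_one : ∃ n₀ : ℕ, ∀ n, n₀ ≤ n → ∑ p ∈ W n, (1 : ℝ) / p ≤ 1 := by
  obtain ⟨C, hC, h⟩ := mertens_second_upper
  have hlim : Filter.Tendsto (fun n : ℕ => lam ^ n) Filter.atTop Filter.atTop :=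
    tendsto_pow_atTop_atTop_of_one_lt (by unfold lam; norm_num)
  obtain ⟨n₀, hn₀⟩ := Filter.eventually_atTop.mp
    (hlim.eventually (Filter.eventually_ge_atTop (max 2 (4 * C * lam))))
  refine ⟨n₀, fun n hn => ?_⟩
  have h1 := hn₀ n hn
  have hN2 : 2 ≤ lam ^ n := (le_max_left _ _).trans h1
  have hNC : 4 * C * lam ≤ lam ^ n := (le_max_right _ _).trans h1
  have hlam : lam = 9 / 8 := rfl
  have hNpos : 0 < NN n := by unfold NN; linarith
  have hexp : 2 ≤ Real.exp (NN n / lam) := by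
    have : (1 : ℝ) ≤ NN n / lam := by
      rw [le_div_iff₀ (by rw [hlam]; norm_num), hlam]
      unfold NN; linarith
    have h2 := Real.add_one_le_exp (NN n / lam)
    linarith
  have hle : Real.exp (NN n / lam) ≤ Real.exp (NN n) := by
    apply Real.exp_le_exp.mpr
    rw [div_le_iff₀ (by rw [hlam]; norm_num), hlam]
    linarith
  have h2 := h (Real.exp (NN n / lam)) (Real.exp (NN n)) hexp hle
  rw [Real.log_exp, Real.log_exp] at h2
  have hsub : W n ⊆ (pr (Real.exp (NN n))).filter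
      (fun p : ℕ => Real.exp (NN n / lam) < (p : ℝ)) := by
    intro p hp
    rw [W, mem_filter, mem_range] at hp
    obtain ⟨_, hpp, hp1, hp2⟩ := hp
    have hp0 : (0 : ℝ) < p := by exact_mod_cast hpp.pos
    rw [mem_filter, mem_pr]
    refine ⟨⟨hpp, ?_⟩, ?_⟩
    · rw [← Real.exp_log hp0]; exact Real.exp_le_exp.mpr hp2
    · rw [← Real.exp_log hp0]
      apply Real.exp_lt_exp.mpr
      rw [div_lt_iff₀ (by rw [hlam]; norm_num)]
      linarith
  have h3 := Finset.sum_le_sum_of_subset_of_nonneg (f := fun p : ℕ => (1 : ℝ) / p) hsub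
    (fun i _ _ => by positivity)
  refine h3.trans (h2.trans ?_)
  have e1 : NN n / (NN n / lam) = lam := by field_simp
  rw [e1]
  have h4 : Real.log lam ≤ lam - 1 := Real.log_le_sub_one_of_pos (by rw [hlam]; norm_num)
  have hlam0 : 0 < lam := by rw [hlam]; norm_num
  have h5 : C / (NN n / lam) ≤ 1 / 4 := by
    rw [div_le_iff₀ (by positivity)]
    have : C * lam ≤ NN n / 4 := by unfold NN; linarith
    have e2 : 1 / 4 * (NN n / lam) = (NN n / 4) / lam := by ring
    rw [e2, le_div_iff₀ (by rw [hlam]; norm_num)]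
    exact this
  have h6 : Real.log lam ≤ 1 / 8 := by
    refine h4.trans ?_
    rw [hlam]; norm_num
  linarith

end

end Pool.Agent.NTot
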