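import Pool.Agent.NTot.Mertens

/-!
# Basic facts on windows, growth of `NN`, dyadic decompositions (module M0b)
-/

set_option autoImplicit false

namespace Pool.Agent.NTot

open Finset Filter Topology

noncomputable section

/-! ### growth -/

theorem lam_pos : (0 : ℝ) < lam := by unfold lam; norm_num
theorem one_lt_lam : (1 : ℝ) < lam := by unfold lam; norm_num
theorem lam_le_two : lam ≤ 2 := by unfold lam; norm_num

theorem NN_pos (n : ℕ) : 0 < NN n := pow_pos lam_pos n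
theorem one_le_NN (n : ℕ) : 1 ≤ NN n := one_le_pow₀ one_lt_lam.le
theorem NN_succ (n : ℕ) : NN (n + 1) = lam * NN n := by unfold NN; rw [pow_succ]; ring
theorem NN_mono {m n : ℕ} (h : m ≤ n) : NN m ≤ NN n := pow_le_pow_right₀ one_lt_lam.le h
theorem NN_lt {m n : ℕ} (h : m < n) : NN m < NN n := pow_lt_pow_right₀ one_lt_lam h
theorem NN_add (m n : ℕ) : NN (m + n) = NN m * NN n := pow_add _ _ _

theorem log_NN (n : ℕ) : Real.log (NN n) = n * Real.log lam := by
  unfold NN; rw [Real.log_pow]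

theorem log_lam_le : Real.log lam ≤ 1 / 8 := by
  have := Real.log_le_sub_one_of_pos lam_pos
  refine this.trans ?_
  unfold lam; norm_num

theorem log_lam_ge : 1 / 9 ≤ Real.log lam := by
  have h := Real.one_sub_inv_le_log_of_pos lam_pos
  refine le_trans ?_ h
  unfold lam; norm_num

theorem log_NN_le (n : ℕ) : Real.log (NN n) ≤ n := by
  rw [log_NN]
  have := log_lam_le
  have hn : (0 : ℝ) ≤ n := Nat.cast_nonneg n
  nlinarith

theorem le_log_NN (n : ℕ) : (n : ℝ) / 9 ≤ Real.log (NN n) := by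
  rw [log_NN]
  have := log_lam_ge
  have hn : (0 : ℝ) ≤ n := Nat.cast_nonneg n
  nlinarith

theorem log_NN_nonneg (n : ℕ) : 0 ≤ Real.log (NN n) := Real.log_nonneg (one_le_NN n)

theorem NN_rpow (n : ℕ) (θ : ℝ) : NN n ^ θ = Real.exp (θ * n * Real.log lam) := by
  rw [Real.rpow_def_of_pos (NN_pos n), log_NN]
  congr 1; ring

theorem tendsto_NN_rpow {θ : ℝ} (hθ : 0 < θ) : Tendsto (fun n : ℕ => NN n ^ θ) atTop atTop := by
  have h1 : Tendsto (fun n : ℕ => NN n) atTop atTop :=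
    tendsto_pow_atTop_atTop_of_one_lt one_lt_lam
  exact (tendsto_rpow_atTop hθ).comp h1

/-- powers of `n` are negligible against powers of `NN n` -/
theorem poly_le (k : ℕ) (c θ : ℝ) (hθ : 0 < θ) : ∃ n₀ : ℕ, ∀ n, n₀ ≤ n →
    c * (n : ℝ) ^ k ≤ NN n ^ θ := by
  have hl : 0 < θ * Real.log lam := by
    have := log_lam_ge
    positivity
  have h1 := isLittleO_pow_exp_pos_mul_atTop k hl
  have h2 := h1.def (show (0 : ℝ) < 1 / (|c| + 1) by positivity)
  have h3 := tendsto_natCast_atTop_atTop (R := ℝ) |>.eventually h2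
  obtain ⟨n₀, hn₀⟩ := eventually_atTop.mp h3
  refine ⟨n₀, fun n hn => ?_⟩
  have h4 := hn₀ n hn
  rw [Real.norm_of_nonneg (by positivity), Real.norm_of_nonneg (Real.exp_pos _).le] at h4
  rw [NN_rpow]
  have e : θ * n * Real.log lam = θ * Real.log lam * n := by ring
  rw [e]
  have h5 : c * (n : ℝ) ^ k ≤ (|c| + 1) * (n : ℝ) ^ k := by
    have : c ≤ |c| + 1 := by linarith [le_abs_self c]
    gcongr
  refine h5.trans ?_
  calc (|c| + 1) * (n : ℝ) ^ k ≤ (|c| + 1) * (1 / (|c| + 1) * Real.exp (θ * Real.log lam * n)) := by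
        gcongr
    _ = Real.exp (θ * Real.log lam * n) := by field_simp

/-- powers of `n` are eventually ordered -/
theorem pow_le_pow_ev (k l : ℕ) (c : ℝ) (h : k < l) : ∃ n₀ : ℕ, ∀ n, n₀ ≤ n →
    c * (n : ℝ) ^ k ≤ (n : ℝ) ^ l := by
  refine ⟨⌈|c|⌉₊ + 1, fun n hn => ?_⟩
  have h1 : |c| ≤ n := (Nat.le_ceil _).trans (by exact_mod_cast (by omega : ⌈|c|⌉₊ ≤ n))
  have hn1 : (1 : ℝ) ≤ n := by exact_mod_cast (by omega : 1 ≤ n)
  calc c * (n : ℝ) ^ k ≤ n * (n : ℝ) ^ k := by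
        have : c ≤ n := (le_abs_self c).trans h1
        gcongr
    _ = (n : ℝ) ^ (k + 1) := by ring
    _ ≤ (n : ℝ) ^ l := pow_le_pow_right₀ hn1 h

/-! ### membership -/

theorem le_exp_of_log_le {p : ℕ} {x : ℝ} (hp : 0 < p) (h : Real.log p ≤ x) :
    p ≤ ⌊Real.exp x⌋₊ := by
  apply Nat.le_floor
  have hp0 : (0 : ℝ) < p := by exact_mod_cast hp
  rw [← Real.exp_log hp0]
  exact Real.exp_le_exp.mpr h

theorem log_le_of_le_exp {p : ℕ} {x : ℝ} (hp : 0 < p) (h : p ≤ ⌊Real.exp x⌋₊) :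
    Real.log p ≤ x := by
  have hp0 : (0 : ℝ) < p := by exact_mod_cast hp
  have h1 : (p : ℝ) ≤ Real.exp x := (Nat.le_floor_iff (Real.exp_pos x).le).mp h
  rw [← Real.log_exp x]
  exact Real.log_le_log hp0 h1

theorem mem_W {n p : ℕ} : p ∈ W n ↔ p.Prime ∧ NN n < lam * Real.log p ∧ Real.log p ≤ NN n := by
  unfold W
  rw [mem_filter, mem_range]
  constructor
  · rintro ⟨_, h⟩; exact h
  · rintro ⟨h1, h2, h3⟩
    exact ⟨Nat.lt_succ_of_le (le_exp_of_log_le h1.pos h3), h1, h2, h3⟩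

theorem mem_LP {n r : ℕ} : r ∈ LP n ↔
    r.Prime ∧ Real.sqrt (NN n) < Real.log r ∧ Real.log r ≤ NN n := by
  unfold LP
  rw [mem_filter, mem_range]
  constructor
  · rintro ⟨h0, h1, h2⟩
    exact ⟨h1, h2, log_le_of_le_exp h1.pos (Nat.lt_succ_iff.mp h0)⟩
  · rintro ⟨h1, h2, h3⟩
    exact ⟨Nat.lt_succ_of_le (le_exp_of_log_le h1.pos h3), h1, h2⟩

theorem mem_NP {b n Q : ℕ} : Q ∈ NP b n ↔ Q.Prime ∧ NN n / 2 ≤ Real.log Q ∧
    Real.log Q ≤ NN n ∧ MM b n ≤ (Q - 1) / gpf (Q - 1) ∧ ∀ r ∈ LP n, ¬ r ^ 2 ∣ Q - 1 := by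
  unfold NP
  rw [mem_filter, mem_range]
  constructor
  · rintro ⟨h0, h1, h2, h3, h4⟩
    exact ⟨h1, h2, log_le_of_le_exp h1.pos (Nat.lt_succ_iff.mp h0), h3, h4⟩
  · rintro ⟨h1, h2, h3, h4, h5⟩
    exact ⟨Nat.lt_succ_of_le (le_exp_of_log_le h1.pos h3), h1, h2, h4, h5⟩

theorem mem_lpd {n m r : ℕ} : r ∈ lpd n m ↔ r ∈ LP n ∧ r ∣ m := by
  unfold lpd; rw [mem_filter]

theorem mem_W7 {n q : ℕ} : q ∈ W7 n ↔ ∃ j, j ≤ 6 ∧ q ∈ W (n - j) := by
  unfold W7
  rw [mem_biUnion]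
  constructor
  · rintro ⟨j, hj, h⟩
    exact ⟨j, by rw [mem_range] at hj; omega, h⟩
  · rintro ⟨j, hj, h⟩
    exact ⟨j, mem_range.mpr (by omega), h⟩

theorem mem_PB {X t : ℕ} : t ∈ PB X ↔ t.Prime ∧ X < t ∧ t ≤ 2 * X := by
  unfold PB
  rw [mem_filter, mem_Ioc]
  tauto

theorem prime_of_mem_LP {n r : ℕ} (h : r ∈ LP n) : r.Prime := (mem_LP.mp h).1
theorem prime_of_mem_W {n r : ℕ} (h : r ∈ W n) : r.Prime := (mem_W.mp h).1

theorem W_disjoint {m n : ℕ} (h : m ≠ n) : Disjoint (W m) (W n) := by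
  rw [Finset.disjoint_left]
  intro p hm hn
  rw [mem_W] at hm hn
  rcases Nat.lt_or_gt_of_ne h with h | h
  · have h1 : NN (m + 1) ≤ NN n := NN_mono h
    rw [NN_succ] at h1
    have := mul_le_mul_of_nonneg_left hm.2.2 lam_pos.le
    linarith [hn.2.1]
  · have h1 : NN (n + 1) ≤ NN m := NN_mono h
    rw [NN_succ] at h1
    have := mul_le_mul_of_nonneg_left hn.2.2 lam_pos.le
    linarith [hm.2.1]

/-- every prime `r` with `1 ≤ log r ≤ NN n` lies in exactly one window `W i`, `i ≤ n` -/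
theorem exists_window {n r : ℕ} (hr : r.Prime) (h1 : 1 ≤ Real.log r) (h2 : Real.log r ≤ NN n) :
    ∃ i, i ≤ n ∧ r ∈ W i := by
  classical
  have hex : ∃ i, Real.log r ≤ NN i := ⟨n, h2⟩
  refine ⟨Nat.find hex, Nat.find_min' hex h2, ?_⟩
  rw [mem_W]
  refine ⟨hr, ?_, Nat.find_spec hex⟩
  rcases Nat.eq_zero_or_pos (Nat.find hex) with h0 | h0
  · rw [h0]
    have e : NN 0 = 1 := by unfold NN; simp
    rw [e]
    have := one_lt_lam
    nlinarith
  · have h3 := Nat.find_min hex (m := Nat.find hex - 1) (by omega)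
    have h4 : NN (Nat.find hex) = lam * NN (Nat.find hex - 1) := by
      rw [← NN_succ]; congr 1; omega
    rw [h4]
    exact mul_lt_mul_of_pos_left (not_le.mp h3) lam_pos

/-- large primes lie in the windows `W (n - j)`; the index of the window is at least `n / 2` -/
theorem LP_window {n r : ℕ} (hr : r ∈ LP n) : ∃ j, j ≤ n ∧ r ∈ W (n - j) ∧ n < 2 * (n - j) + 1 := by
  rw [mem_LP] at hr
  obtain ⟨hp, h1, h2⟩ := hr
  have h3 : 1 ≤ Real.sqrt (NN n) := by
    rw [Real.one_le_sqrt]; exact one_le_NN n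
  obtain ⟨i, hi, hW⟩ := exists_window hp (by linarith) h2
  refine ⟨n - i, by omega, ?_, ?_⟩
  · rw [show n - (n - i) = i by omega]; exact hW
  · rw [show n - (n - i) = i by omega]
    have h4 := (mem_W.mp hW).2.2
    have h5 : Real.sqrt (NN n) < NN i := by linarith
    have h6 : NN n < NN i ^ 2 := by
      have h7 := Real.lt_sq_of_sqrt_lt h5
      exact h7
    by_contra hcon
    have h8 : 2 * i ≤ n := by omega
    have h9 : NN i ^ 2 ≤ NN n := by
      have : NN i ^ 2 = NN (2 * i) := by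
        unfold NN; rw [← pow_mul]; congr 1; ring
      rw [this]; exact NN_mono h8
    linarith

/-- sum over the large primes as a sum over windows -/
theorem sum_LP_le (n : ℕ) (f : ℕ → ℝ) (hf : ∀ r, 0 ≤ f r) :
    ∑ r ∈ LP n, f r ≤ ∑ j ∈ range (n + 1), ∑ r ∈ W (n - j), f r := by
  classical
  have hsub : LP n ⊆ (range (n + 1)).biUnion (fun j => W (n - j)) := by
    intro r hr
    obtain ⟨j, hj, hW, _⟩ := LP_window hr
    rw [mem_biUnion]
    exact ⟨j, mem_range.mpr (by omega), hW⟩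
  refine (Finset.sum_le_sum_of_subset_of_nonneg hsub (fun r _ _ => hf r)).trans ?_
  rw [Finset.sum_biUnion]
  intro i hi j hj hij
  rw [mem_coe, mem_range] at hi hj
  apply W_disjoint
  omega

/-- `W7 n` consists of large primes, for `n ≥ 13` -/
theorem W7_sub_LP {n : ℕ} (hn : 14 ≤ n) : W7 n ⊆ LP n := by
  intro q hq
  rw [mem_W7] at hq
  obtain ⟨j, hj, hW⟩ := hq
  rw [mem_W] at hW
  obtain ⟨hp, h1, h2⟩ := hW
  rw [mem_LP]
  refine ⟨hp, ?_, h2.trans (NN_mono (by omega))⟩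
  have h3 : NN (n - 7) < Real.log q := by
    have h4 : NN (n - j) = lam * NN (n - j - 1) := by
      rw [← NN_succ]; congr 1; omega
    have h5 : lam * NN (n - j - 1) < lam * Real.log q := by linarith
    have h6 := lt_of_mul_lt_mul_left h5 lam_pos.le
    exact lt_of_le_of_lt (NN_mono (by omega)) h6
  refine lt_of_le_of_lt ?_ h3
  rw [Real.sqrt_le_left (NN_pos _).le]
  have : NN (n - 7) ^ 2 = NN (2 * (n - 7)) := by
    unfold NN; rw [← pow_mul]; congr 1; ring
  rw [this]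
  exact NN_mono (by omega)

theorem W7_log {n q : ℕ} (hn : 7 ≤ n) (hq : q ∈ W7 n) : NN n / 3 < Real.log q ∧ Real.log q ≤ NN n := by
  rw [mem_W7] at hq
  obtain ⟨j, hj, hW⟩ := hq
  rw [mem_W] at hW
  obtain ⟨hp, h1, h2⟩ := hW
  refine ⟨?_, h2.trans (NN_mono (by omega))⟩
  have h4 : NN (n - j) = lam * NN (n - j - 1) := by
    rw [← NN_succ]; congr 1; omega
  have h5 : lam * NN (n - j - 1) < lam * Real.log q := by linarith
  have h6 := lt_of_mul_lt_mul_left h5 lam_pos.le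
  have h7 : NN (n - 7) < Real.log q := lt_of_le_of_lt (NN_mono (by omega)) h6
  have h8 : NN n = NN 7 * NN (n - 7) := by
    rw [← NN_add]; congr 1; omega
  have h9 : NN 7 ≤ 3 := by unfold NN lam; norm_num
  have h10 := NN_pos (n - 7)
  rw [h8]
  nlinarith

/-! ### dyadic decompositions -/

/-- dyadic decomposition of a sum over integers in `(1, 2^I]` -/
theorem sum_dyadic (S : Finset ℕ) (f : ℕ → ℝ) (I : ℕ) (hS : ∀ r ∈ S, 1 < r ∧ r ≤ 2 ^ I) :
    ∑ r ∈ S, f r = ∑ i ∈ range I, ∑ r ∈ S.filter (fun r => 2 ^ i < r ∧ r ≤ 2 ^ (i + 1)), f r := by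
  classical
  have h : S = (range I).biUnion (fun i => S.filter (fun r => 2 ^ i < r ∧ r ≤ 2 ^ (i + 1))) := by
    ext r
    rw [mem_biUnion]
    constructor
    · intro hr
      obtain ⟨h1, h2⟩ := hS r hr
      have hex : ∃ i, r ≤ 2 ^ i := ⟨I, h2⟩
      have hpos : 0 < Nat.find hex := by
        by_contra h0
        have h3 : Nat.find hex = 0 := by omega
        have h4 := Nat.find_spec hex
        rw [h3] at h4
        simp at h4
        omega
      have hle := Nat.find_min' hex h2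
      refine ⟨Nat.find hex - 1, mem_range.mpr (by omega), ?_⟩
      rw [mem_filter]
      refine ⟨hr, ?_, ?_⟩
      · exact not_le.mp (Nat.find_min hex (m := Nat.find hex - 1) (by omega))
      · rw [show Nat.find hex - 1 + 1 = Nat.find hex by omega]
        exact Nat.find_spec hex
    · rintro ⟨i, _, hi⟩
      exact (mem_filter.mp hi).1
  conv_lhs => rw [h]
  rw [Finset.sum_biUnion]
  intro i _ j _ hij
  rw [Function.onFun, Finset.disjoint_left]
  intro r hi hj
  rw [mem_filter] at hi hj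
  rcases Nat.lt_or_gt_of_ne hij with h | h
  · have : 2 ^ (i + 1) ≤ 2 ^ j := Nat.pow_le_pow_right (by norm_num) h
    omega
  · have : 2 ^ (j + 1) ≤ 2 ^ i := Nat.pow_le_pow_right (by norm_num) h
    omega

/-- dyadic decomposition of a sum over integers in `(M, 2^I M]` -/
theorem sum_dyadic_from (M : ℕ) (f : ℕ → ℝ) (I : ℕ) (S : Finset ℕ)
    (hS : ∀ m ∈ S, M < m ∧ m ≤ 2 ^ I * M) (hf : ∀ m, 0 ≤ f m) :
    ∑ m ∈ S, f m ≤ ∑ i ∈ range I, ∑ m ∈ Ioc (2 ^ i * M) (2 * (2 ^ i * M)), f m := by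
  classical
  have h : S ⊆ (range I).biUnion (fun i => Ioc (2 ^ i * M) (2 * (2 ^ i * M))) := by
    intro m hm
    obtain ⟨h1, h2⟩ := hS m hm
    rw [mem_biUnion]
    have hex : ∃ i, m ≤ 2 ^ i * M := ⟨I, h2⟩
    have hpos : 0 < Nat.find hex := by
      by_contra h0
      have h3 : Nat.find hex = 0 := by omega
      have h4 := Nat.find_spec hex
      rw [h3] at h4
      simp at h4
      omega
    have hle := Nat.find_min' hex h2
    refine ⟨Nat.find hex - 1, mem_range.mpr (by omega), ?_⟩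
    rw [mem_Ioc]
    refine ⟨not_le.mp (Nat.find_min hex (m := Nat.find hex - 1) (by omega)), ?_⟩
    have h5 : 2 * (2 ^ (Nat.find hex - 1) * M) = 2 ^ (Nat.find hex) * M := by
      rw [← mul_assoc, ← pow_succ']
      congr 2; omega
    rw [h5]
    exact Nat.find_spec hex
  refine (Finset.sum_le_sum_of_subset_of_nonneg h (fun m _ _ => hf m)).trans ?_
  rw [Finset.sum_biUnion]
  intro i _ j _ hij
  rw [Function.onFun, Finset.disjoint_left]
  intro r hi hj
  rw [mem_Ioc] at hi hj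
  have key : ∀ a b : ℕ, a < b → 2 * (2 ^ a * M) ≤ 2 ^ b * M := by
    intro a b hab
    have h1 : 2 ^ (a + 1) ≤ 2 ^ b := Nat.pow_le_pow_right (by norm_num) hab
    calc 2 * (2 ^ a * M) = 2 ^ (a + 1) * M := by rw [pow_succ]; ring
      _ ≤ 2 ^ b * M := Nat.mul_le_mul_right _ h1
  rcases Nat.lt_or_gt_of_ne hij with h | h
  · have := key i j h
    omega
  · have := key j i h
    omega

end

end Pool.Agent.NTot
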