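import Pool.Agent.NTot.Mertens

/-!
# Basic facts on the chain weights (module M3d)
-/

set_option autoImplicit false

namespace Pool.Agent.NTot

open Finset Filter Topology

noncomputable section

theorem uu_nonneg (M₀ s P : ℕ) : 0 ≤ uu M₀ s P := by
  induction s generalizing P with
  | zero =>
    unfold uu
    split_ifs <;> norm_num
  | succ s ih =>
    unfold uu
    split_ifs
    · apply sum_nonneg
      intro m _
      exact div_nonneg (ih _) (Nat.cast_nonneg _)
    · exact le_rfl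

theorem uu_prime {M₀ s P : ℕ} (h : uu M₀ s P ≠ 0) : P.Prime := by
  by_contra hP
  apply h
  cases s with
  | zero => unfold uu; rw [if_neg hP]
  | succ s => unfold uu; rw [if_neg hP]

theorem uu_le (M₀ s P : ℕ) : uu M₀ s P ≤ (∑ m ∈ Ico 1 M₀, (1 : ℝ) / m) ^ s := by
  induction s generalizing P with
  | zero =>
    unfold uu
    split_ifs <;> norm_num
  | succ s ih =>
    have h0 : 0 ≤ ∑ m ∈ Ico 1 M₀, (1 : ℝ) / m := sum_nonneg (fun m _ => by positivity)
    unfold uu
    split_ifs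
    · rw [pow_succ, mul_sum]
      apply sum_le_sum
      intro m _
      rw [mul_one_div]
      exact div_le_div_of_nonneg_right (ih _) (Nat.cast_nonneg _)
    · positivity

theorem U_nonneg (b n P : ℕ) : 0 ≤ U b n P := by
  unfold U
  exact sum_nonneg (fun s _ => uu_nonneg _ _ _)

theorem U_prime {b n P : ℕ} (h : U b n P ≠ 0) : P.Prime := by
  by_contra hP
  apply h
  unfold U
  apply sum_eq_zero
  intro s _
  by_contra h2
  exact hP (uu_prime h2)

theorem sum_Ico_inv_le {M₀ : ℕ} (_ : 1 ≤ M₀) : ∑ m ∈ Ico 1 M₀, (1 : ℝ) / m ≤ 1 + Real.log M₀ := by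
  have h1 : ∑ m ∈ Ico 1 M₀, (1 : ℝ) / m ≤ ∑ m ∈ Icc 1 M₀, (1 : ℝ) / m := by
    apply sum_le_sum_of_subset_of_nonneg
    · intro m hm
      rw [mem_Ico] at hm
      rw [mem_Icc]
      omega
    · intro m _ _
      positivity
  refine h1.trans ?_
  have h2 := harmonic_le_one_add_log M₀
  rw [harmonic_eq_sum_Icc] at h2
  push_cast at h2
  simpa [one_div] using h2

theorem log_MM_le (b n : ℕ) : Real.log (MM b n) ≤ (n : ℝ) ^ (4 * b + 8) + 1 := by
  unfold MM
  have h0 : (0 : ℝ) ≤ (n : ℝ) ^ (4 * b + 8) := by positivity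
  have h1 := Nat.ceil_lt_add_one (Real.exp_pos ((n : ℝ) ^ (4 * b + 8))).le
  have h2 : (1 : ℝ) ≤ Real.exp ((n : ℝ) ^ (4 * b + 8)) := Real.one_le_exp h0
  have h3 : (⌈Real.exp ((n : ℝ) ^ (4 * b + 8))⌉₊ : ℝ) ≤ Real.exp ((n : ℝ) ^ (4 * b + 8) + 1) := by
    rw [Real.exp_add]
    have := Real.exp_one_gt_d9
    nlinarith
  have h4 : (0 : ℝ) < (⌈Real.exp ((n : ℝ) ^ (4 * b + 8))⌉₊ : ℝ) := by
    have := Nat.le_ceil (Real.exp ((n : ℝ) ^ (4 * b + 8)))
    linarith
  have h5 := Real.log_le_log h4 h3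
  rwa [Real.log_exp] at h5

theorem one_le_MM (b n : ℕ) : 1 ≤ MM b n := by
  unfold MM
  exact Nat.one_le_iff_ne_zero.2 (Nat.ceil_pos.2 (Real.exp_pos _)).ne'

theorem U_le : ∀ b : ℕ, ∃ n₀ : ℕ, ∀ n, n₀ ≤ n → ∀ P, U b n P ≤ Real.exp ((n : ℝ) ^ (2 * b + 3)) := by
  intro b
  have h1 := Real.isLittleO_log_id_atTop.bound (show (0 : ℝ) < 1 / (4 * b + 12) by positivity)
  have h2 := (tendsto_natCast_atTop_atTop (R := ℝ)).eventually h1
  obtain ⟨n₁, h2⟩ := eventually_atTop.1 h2
  refine ⟨max n₁ 3, fun n hn P => ?_⟩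
  have hn3 : 3 ≤ n := (le_max_right _ _).trans hn
  have hn3R : (3 : ℝ) ≤ n := by exact_mod_cast hn3
  have h3 := h2 n ((le_max_left _ _).trans hn)
  have hlog1 : 1 ≤ Real.log n := by
    rw [Real.le_log_iff_exp_le (by linarith)]
    have := Real.exp_one_lt_d9
    linarith
  rw [Real.norm_of_nonneg (by linarith), id, Real.norm_of_nonneg (by linarith)] at h3
  have hb0 : (0 : ℝ) ≤ b := Nat.cast_nonneg b
  have h4 : (4 * b + 12) * Real.log n ≤ n := by
    have : (4 * (b : ℝ) + 12) * Real.log n ≤ (4 * b + 12) * (1 / (4 * b + 12) * n) := by gcongr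
    refine this.trans (le_of_eq ?_)
    field_simp
  set S := ∑ m ∈ Ico 1 (MM b n), (1 : ℝ) / m with hS
  have hS0 : 0 ≤ S := sum_nonneg (fun m _ => by positivity)
  have hSle : S ≤ Real.exp ((4 * b + 9) * Real.log n) := by
    have e1 := sum_Ico_inv_le (one_le_MM b n)
    have e2 := log_MM_le b n
    have e3 : Real.exp ((4 * b + 9) * Real.log n) = (n : ℝ) ^ (4 * b + 9) := by
      rw [mul_comm, Real.exp_mul, Real.exp_log (by linarith)]
      exact_mod_cast rfl
    rw [e3]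
    have e4 : (n : ℝ) ^ (4 * b + 9) = (n : ℝ) ^ (4 * b + 8) * n := pow_succ _ _
    have e5 : (1 : ℝ) ≤ (n : ℝ) ^ (4 * b + 8) := one_le_pow₀ (by linarith)
    nlinarith
  set K := KK b n with hK
  have hKR : (K : ℝ) = (n : ℝ) ^ (2 * b + 2) := by
    rw [hK]; unfold KK; push_cast; rfl
  have hU : U b n P ≤ (K + 1) * (Real.exp ((4 * b + 9) * Real.log n)) ^ K := by
    unfold U
    have e1 : ∀ s ∈ range (KK b n + 1), uu (MM b n) s P ≤
        (Real.exp ((4 * b + 9) * Real.log n)) ^ K := by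
      intro s hs
      rw [mem_range] at hs
      have e2 : 1 ≤ Real.exp ((4 * b + 9) * Real.log n) := by
        apply Real.one_le_exp
        positivity
      calc uu (MM b n) s P ≤ S ^ s := uu_le _ _ _
        _ ≤ (Real.exp ((4 * b + 9) * Real.log n)) ^ s := by gcongr
        _ ≤ _ := pow_le_pow_right₀ e2 (by omega)
    refine (sum_le_sum e1).trans ?_
    rw [sum_const, card_range, nsmul_eq_mul]
    push_cast
    exact le_rfl
  refine hU.trans ?_
  have e6 : (K : ℝ) + 1 ≤ Real.exp K := Real.add_one_le_exp _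
  calc ((K : ℝ) + 1) * (Real.exp ((4 * b + 9) * Real.log n)) ^ K
      ≤ Real.exp K * (Real.exp ((4 * b + 9) * Real.log n)) ^ K := by gcongr
    _ = Real.exp (K * (1 + (4 * b + 9) * Real.log n)) := by
        rw [← Real.exp_nat_mul, ← Real.exp_add]; congr 1; ring
    _ ≤ _ := by
        rw [Real.exp_le_exp]
        have e7 : 1 + (4 * (b : ℝ) + 9) * Real.log n ≤ n := by linarith
        calc (K : ℝ) * (1 + (4 * b + 9) * Real.log n) ≤ K * n := by gcongr
          _ = (n : ℝ) ^ (2 * b + 3) := by rw [hKR]; ring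

end

end Pool.Agent.NTot
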