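import Pool.Agent.NTot.Forms
import Pool.Agent.NTot.UBasic

/-!
# Expansion of the chain weights (common part of M3a, M3b, M3c)
-/

set_option autoImplicit false

namespace Pool.Agent.NTot

open Finset Filter Topology

noncomputable section

/-- value of a form -/
def vf (f : ℕ × ℕ) (t : ℕ) : ℕ := f.1 * t + f.2

/-- one step of a chain, on forms -/
def stp (m : ℕ) (f : ℕ × ℕ) : ℕ × ℕ := (m * f.1, m * f.2 + 1)

/-- the `h`-th form of the chain `l` over `f` -/
def fm (f : ℕ × ℕ) (l : List ℕ) : ℕ → ℕ × ℕ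
  | 0 => f
  | h + 1 => stp (l.getD h 1) (fm f l h)

theorem fm_cons (f : ℕ × ℕ) (m : ℕ) (l : List ℕ) (h : ℕ) :
    fm f (m :: l) (h + 1) = fm (stp m f) l h := by
  induction h with
  | zero => simp [fm]
  | succ h ih =>
    rw [fm, ih]
    simp [fm]

theorem vf_stp (m : ℕ) (f : ℕ × ℕ) (t : ℕ) : vf (stp m f) t = m * vf f t + 1 := by
  simp only [vf, stp]; ring

/-- chains of length `s` with multipliers in `[1, M)` -/
def chs (M : ℕ) : ℕ → Finset (List ℕ)
  | 0 => {[]}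
  | s + 1 => (Ico 1 M ×ˢ chs M s).image (fun x => x.1 :: x.2)

/-- weight of a chain -/
def wt (l : List ℕ) : ℝ := (l.map (fun m : ℕ => (1 : ℝ) / m)).prod

theorem wt_cons (m : ℕ) (l : List ℕ) : wt (m :: l) = 1 / (m : ℝ) * wt l := by
  simp [wt]

theorem wt_nonneg (l : List ℕ) : 0 ≤ wt l := by
  unfold wt
  apply List.prod_nonneg
  intro x hx
  rw [List.mem_map] at hx
  obtain ⟨m, _, rfl⟩ := hx
  positivity

theorem sum_chs_succ (M s : ℕ) (g : List ℕ → ℝ) :
    ∑ l ∈ chs M (s + 1), g l = ∑ m ∈ Ico 1 M, ∑ l ∈ chs M s, g (m :: l) := by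
  rw [chs, Finset.sum_image, Finset.sum_product]
  rintro ⟨a, l⟩ _ ⟨a', l'⟩ _ h
  simp only [List.cons.injEq] at h
  rw [h.1, h.2]

theorem mem_chs {M : ℕ} : ∀ {s : ℕ} {l : List ℕ}, l ∈ chs M s →
    l.length = s ∧ ∀ m ∈ l, 1 ≤ m ∧ m < M
  | 0, l, h => by
    rw [chs, mem_singleton] at h
    subst h
    simp
  | s + 1, l, h => by
    rw [chs, mem_image] at h
    obtain ⟨⟨m, l'⟩, hx, rfl⟩ := h
    rw [mem_product, mem_Ico] at hx
    obtain ⟨h1, h2⟩ := mem_chs hx.2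
    refine ⟨by simpa using h1, ?_⟩
    intro m' hm'
    rw [List.mem_cons] at hm'
    rcases hm' with rfl | hm'
    · exact hx.1
    · exact h2 m' hm'

/-- the sum of the `1/m` -/
def S1 (M : ℕ) : ℝ := ∑ m ∈ Ico 1 M, (1 : ℝ) / m

theorem S1_nonneg (M : ℕ) : 0 ≤ S1 M := Finset.sum_nonneg (fun _ _ => by positivity)

theorem sum_wt (M : ℕ) : ∀ s : ℕ, ∑ l ∈ chs M s, wt l = (S1 M) ^ s
  | 0 => by simp [chs, wt]
  | s + 1 => by
    rw [sum_chs_succ]
    simp only [wt_cons]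
    simp_rw [← Finset.mul_sum]
    rw [← Finset.sum_mul, sum_wt M s, pow_succ, mul_comm]
    rfl

theorem uu_expand (M t : ℕ) : ∀ (s : ℕ) (f : ℕ × ℕ), uu M s (vf f t) =
    ∑ l ∈ chs M s, if (∀ h ≤ s, (vf (fm f l h) t).Prime) then wt l else 0
  | 0, f => by
    rw [uu, chs, sum_singleton]
    by_cases hp : (vf f t).Prime
    · rw [if_pos hp, if_pos]
      · simp [wt]
      · intro h hh
        obtain rfl : h = 0 := by omega
        exact hp
    · rw [if_neg hp, if_neg]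
      intro h
      exact hp (h 0 le_rfl)
  | s + 1, f => by
    rw [uu, sum_chs_succ]
    by_cases hp : (vf f t).Prime
    · rw [if_pos hp]
      apply Finset.sum_congr rfl
      intro m _
      rw [← vf_stp, uu_expand M t s (stp m f), Finset.sum_div]
      apply Finset.sum_congr rfl
      intro l _
      have hiff : (∀ h ≤ s + 1, (vf (fm f (m :: l) h) t).Prime) ↔
          (∀ h ≤ s, (vf (fm (stp m f) l h) t).Prime) := by
        constructor
        · intro H h hh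
          have := H (h + 1) (by omega)
          rwa [fm_cons] at this
        · intro H h hh
          rcases h with _ | h
          · exact hp
          · rw [fm_cons]
            exact H h (by omega)
      by_cases hc : ∀ h ≤ s, (vf (fm (stp m f) l h) t).Prime
      · rw [if_pos hc, if_pos (hiff.mpr hc), wt_cons]
        ring
      · rw [if_neg hc, if_neg (fun h => hc (hiff.mp h)), zero_div]
    · rw [if_neg hp]
      symm
      apply Finset.sum_eq_zero
      intro m _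
      apply Finset.sum_eq_zero
      intro l _
      rw [if_neg]
      intro h
      exact hp (h 0 (by omega))

/-- all chains of length at most `K` -/
def ach (M K : ℕ) : Finset (List ℕ) := (range (K + 1)).biUnion (chs M)

theorem sum_ach (M K : ℕ) (g : List ℕ → ℝ) :
    ∑ l ∈ ach M K, g l = ∑ s ∈ range (K + 1), ∑ l ∈ chs M s, g l := by
  rw [ach, Finset.sum_biUnion]
  intro s _ s' _ hss
  rw [Function.onFun, Finset.disjoint_left]
  intro l h1 h2
  exact hss ((mem_chs h1).1.symm.trans (mem_chs h2).1)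

theorem mem_ach {M K : ℕ} {l : List ℕ} (h : l ∈ ach M K) :
    l.length ≤ K ∧ ∀ m ∈ l, 1 ≤ m ∧ m < M := by
  rw [ach, mem_biUnion] at h
  obtain ⟨s, hs, hl⟩ := h
  rw [mem_range] at hs
  obtain ⟨h1, h2⟩ := mem_chs hl
  exact ⟨by omega, h2⟩

theorem U_expand (b n t : ℕ) (f : ℕ × ℕ) : U b n (vf f t) =
    ∑ l ∈ ach (MM b n) (KK b n),
      if (∀ h ≤ l.length, (vf (fm f l h) t).Prime) then wt l else 0 := by
  rw [sum_ach, U]
  apply Finset.sum_congr rfl
  intro s _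
  rw [uu_expand]
  apply Finset.sum_congr rfl
  intro l hl
  rw [(mem_chs hl).1]

theorem sum_ach_wt (M K : ℕ) (g : ℝ) :
    ∑ l ∈ ach M K, wt l * g ^ l.length = ∑ s ∈ range (K + 1), (S1 M * g) ^ s := by
  rw [sum_ach]
  apply Finset.sum_congr rfl
  intro s _
  rw [mul_pow, ← sum_wt, Finset.sum_mul]
  apply Finset.sum_congr rfl
  intro l hl
  rw [(mem_chs hl).1]

theorem sum_ach_le {M K : ℕ} {g : ℝ} (hg : 0 ≤ g) (h : S1 M * g ≤ 1 / 4) :
    ∑ l ∈ ach M K, wt l * g ^ l.length ≤ 4 / 3 := by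
  rw [sum_ach_wt]
  have h0 : 0 ≤ S1 M * g := mul_nonneg (S1_nonneg M) hg
  calc ∑ s ∈ range (K + 1), (S1 M * g) ^ s ≤ ∑ s ∈ range (K + 1), (1 / 4 : ℝ) ^ s := by
        apply Finset.sum_le_sum
        intro s _
        exact pow_le_pow_left₀ h0 h s
    _ ≤ 4 / 3 := by
        rw [geom_sum_eq (by norm_num)]
        have : (0 : ℝ) ≤ (1 / 4) ^ (K + 1) := by positivity
        rw [div_le_iff_of_neg (by norm_num)]
        linarith

/-! ### properties of the forms of a chain -/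

theorem getD_bd {l : List ℕ} {M : ℕ} (hM : 2 ≤ M) (hl : ∀ m ∈ l, 1 ≤ m ∧ m < M) (h : ℕ) :
    1 ≤ l.getD h 1 ∧ l.getD h 1 < M := by
  by_cases hh : h < l.length
  · rw [List.getD_eq_getElem _ _ hh]
    exact hl _ (List.getElem_mem hh)
  · rw [List.getD_eq_default _ _ (by omega)]
    omega

theorem fm_pos {l : List ℕ} {M : ℕ} (hM : 2 ≤ M) (hl : ∀ m ∈ l, 1 ≤ m ∧ m < M) {a : ℕ} (ha : 1 ≤ a) :
    ∀ h : ℕ, 1 ≤ (fm (a, 1) l h).1 ∧ 1 ≤ (fm (a, 1) l h).2
  | 0 => ⟨ha, le_rfl⟩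
  | h + 1 => by
    have h1 := fm_pos hM hl ha h
    have h2 := getD_bd hM hl h
    refine ⟨?_, ?_⟩
    · exact Nat.mul_pos h2.1 h1.1
    · show 1 ≤ _ * _ + 1
      omega

theorem fm_two {l : List ℕ} {M : ℕ} (hM : 2 ≤ M) (hl : ∀ m ∈ l, 1 ≤ m ∧ m < M) {a : ℕ} (ha : 1 ≤ a)
    (h : ℕ) : 2 ≤ (fm (a, 1) l (h + 1)).2 := by
  have h1 := fm_pos hM hl ha h
  have h2 := getD_bd hM hl h
  have : 1 ≤ l.getD h 1 * (fm (a, 1) l h).2 := Nat.mul_pos h2.1 h1.2
  show 2 ≤ _ * _ + 1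
  omega

theorem fm_bd {l : List ℕ} {M : ℕ} (hM : 2 ≤ M) (hl : ∀ m ∈ l, 1 ≤ m ∧ m < M) {a : ℕ} (ha : 1 ≤ a) :
    ∀ h : ℕ, (fm (a, 1) l h).1 ≤ a * M ^ h ∧ (fm (a, 1) l h).2 ≤ M ^ h
  | 0 => by simp [fm]
  | h + 1 => by
    have h0 := fm_bd hM hl ha h
    have h1 := fm_pos hM hl ha h
    have h2 := getD_bd hM hl h
    refine ⟨?_, ?_⟩
    · show _ * _ ≤ _
      calc l.getD h 1 * (fm (a, 1) l h).1 ≤ M * (a * M ^ h) := Nat.mul_le_mul h2.2.le h0.1
        _ = a * M ^ (h + 1) := by ring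
    · show _ * _ + 1 ≤ _
      calc l.getD h 1 * (fm (a, 1) l h).2 + 1 ≤ l.getD h 1 * (fm (a, 1) l h).2 + (fm (a, 1) l h).2 := by
            omega
        _ = (l.getD h 1 + 1) * (fm (a, 1) l h).2 := by ring
        _ ≤ M * M ^ h := Nat.mul_le_mul h2.2 h0.2
        _ = M ^ (h + 1) := by ring

/-- proportional forms with prime values are equal -/
theorem prop_eq {f g : ℕ × ℕ} {t : ℕ} (ht : 1 ≤ t) (hf1 : 1 ≤ f.1) (hf2 : 1 ≤ f.2)
    (hf : (vf f t).Prime) (hg : (vf g t).Prime) (h : f.1 * g.2 = g.1 * f.2) :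
    f = g := by
  have e : f.1 * vf g t = g.1 * vf f t := by
    unfold vf
    rw [mul_add, mul_add, h]
    ring
  have hlt : f.1 < vf f t := by
    unfold vf
    nlinarith
  have hdvd : vf f t ∣ f.1 * vf g t := by rw [e]; exact dvd_mul_left _ _
  have h1 : vf f t ∣ vf g t := by
    rcases (Nat.Prime.dvd_mul hf).mp hdvd with h | h
    · exact absurd (Nat.le_of_dvd hf1 h) (by omega)
    · exact h
  have h2 : vf f t = vf g t := (Nat.prime_dvd_prime_iff_eq hf hg).mp h1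
  rw [h2] at e
  have h3 : f.1 = g.1 := Nat.eq_of_mul_eq_mul_right hg.pos e
  have h4 : f.2 = g.2 := by
    unfold vf at h2
    rw [h3] at h2
    omega
  exact Prod.ext h3 h4

theorem fm_inj {ι : Type} {a : ι → ℕ} (hinj : Function.Injective a) (ha : ∀ i, 1 ≤ a i)
    {φ : ι → List ℕ} {M : ℕ} (hM : 2 ≤ M) (hφ : ∀ i, ∀ m ∈ φ i, 1 ≤ m ∧ m < M) {t : ℕ} (ht : 1 ≤ t)
    (hp : ∀ i, ∀ h ≤ (φ i).length, (vf (fm (a i, 1) (φ i) h) t).Prime) :
    ∀ (h h' : ℕ) (i j : ι), h ≤ (φ i).length → h' ≤ (φ j).length →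
      fm (a i, 1) (φ i) h = fm (a j, 1) (φ j) h' → i = j ∧ h = h'
  | 0, 0, i, j, _, _, e => by
    simp only [fm, Prod.mk.injEq, and_true] at e
    exact ⟨hinj e, rfl⟩
  | 0, h' + 1, i, j, _, _, e => by
    have h1 := fm_two hM (hφ j) (ha j) h'
    rw [← e] at h1
    simp [fm] at h1
  | h + 1, 0, i, j, _, _, e => by
    have h1 := fm_two hM (hφ i) (ha i) h
    rw [e] at h1
    simp [fm] at h1
  | h + 1, h' + 1, i, j, hh, hh', e => by
    have p1 := fm_pos hM (hφ i) (ha i) h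
    have p2 := fm_pos hM (hφ j) (ha j) h'
    have m1 := getD_bd hM (hφ i) h
    have m2 := getD_bd hM (hφ j) h'
    have e1 : (φ i).getD h 1 * (fm (a i, 1) (φ i) h).1 = (φ j).getD h' 1 * (fm (a j, 1) (φ j) h').1 :=
      congrArg Prod.fst e
    have e2 : (φ i).getD h 1 * (fm (a i, 1) (φ i) h).2 = (φ j).getD h' 1 * (fm (a j, 1) (φ j) h').2 := by
      have := congrArg Prod.snd e
      change (φ i).getD h 1 * (fm (a i, 1) (φ i) h).2 + 1 =
        (φ j).getD h' 1 * (fm (a j, 1) (φ j) h').2 + 1 at this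
      omega
    have e3 : (fm (a i, 1) (φ i) h).1 * (fm (a j, 1) (φ j) h').2 =
        (fm (a j, 1) (φ j) h').1 * (fm (a i, 1) (φ i) h).2 := by
      have hpos : 0 < (φ i).getD h 1 * (φ j).getD h' 1 := Nat.mul_pos m1.1 m2.1
      apply Nat.eq_of_mul_eq_mul_left hpos
      calc (φ i).getD h 1 * (φ j).getD h' 1 *
            ((fm (a i, 1) (φ i) h).1 * (fm (a j, 1) (φ j) h').2)
          = ((φ i).getD h 1 * (fm (a i, 1) (φ i) h).1) *
              ((φ j).getD h' 1 * (fm (a j, 1) (φ j) h').2) := by ring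
        _ = ((φ j).getD h' 1 * (fm (a j, 1) (φ j) h').1) *
              ((φ i).getD h 1 * (fm (a i, 1) (φ i) h).2) := by rw [e1, e2]
        _ = _ := by ring
    have e4 := prop_eq ht p1.1 p1.2 (hp i h (by omega)) (hp j h' (by omega)) e3
    have := fm_inj hinj ha hM hφ ht hp h h' i j (by omega) (by omega) e4
    exact ⟨this.1, by omega⟩

theorem om_le (F : Finset (ℕ × ℕ)) (l : ℕ) : om F l ≤ l := by
  unfold om
  exact (card_filter_le _ _).trans (card_range l).le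

theorem fac_nonneg (F : Finset (ℕ × ℕ)) (l : ℕ) : 0 ≤ 1 - (om F l : ℝ) / l := by
  have h1 : (om F l : ℝ) ≤ l := by exact_mod_cast om_le F l
  have : (om F l : ℝ) / l ≤ 1 := div_le_one_of_le₀ h1 (by positivity)
  linarith

theorem fac_le_one (F : Finset (ℕ × ℕ)) (l : ℕ) : 1 - (om F l : ℝ) / l ≤ 1 := by
  have : 0 ≤ (om F l : ℝ) / l := by positivity
  linarith

/-- the count of `t` for which all forms of a family of chains are prime -/
theorem chain_count : ∃ C₁ : ℝ, 1 ≤ C₁ ∧ ∃ N₀ : ℝ, ∀ N : ℝ, N₀ ≤ N →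
    ∀ (ι : Type) [Fintype ι] [DecidableEq ι] (a : ι → ℕ) (B : Finset (ℕ × ℕ)) (φ : ι → List ℕ)
      (M X f : ℕ), Function.Injective a → B ⊆ {(1, 0)} → f = B.card + ∑ i, ((φ i).length + 1) →
    1 ≤ f → (f : ℝ) ≤ N ^ (1 / 6 : ℝ) → 2 ≤ M → (∀ i, ∀ m ∈ φ i, 1 ≤ m ∧ m < M) →
    (∀ i, 1 ≤ a i ∧ (a i : ℝ) * (M : ℝ) ^ (φ i).length ≤ Real.exp (5 * N)) →
    N ^ (0.49 : ℝ) ≤ Real.log X → Real.log X ≤ 5 * N →
    (((Ioc X (2 * X)).filter (fun t => (∀ g ∈ B, (vf g t).Prime) ∧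
        ∀ i, ∀ h ≤ (φ i).length, (vf (fm (a i, 1) (φ i) h) t).Prime)).card : ℝ) ≤
      X * (∏ l ∈ PZ ⌊N ^ 2⌋₊, (1 - (om (B ∪ univ.image (fun i => (a i, 1))) l : ℝ) / l)) *
        (C₁ * f * Real.log N / Real.log X) ^ f := by
  obtain ⟨C₁, hC₁, N₀, hF⟩ := forms
  refine ⟨C₁, hC₁, max N₀ 1, ?_⟩
  intro N hN ι _ _ a B φ M X f hinj hB hf hf1 hfN hM hφ ha hX1 hX2
  have hN1 : 1 ≤ N := (le_max_right _ _).trans hN
  have hN0 : 0 ≤ N := by linarith
  replace hN : N₀ ≤ N := (le_max_left _ _).trans hN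
  set T := (Ioc X (2 * X)).filter (fun t => (∀ g ∈ B, (vf g t).Prime) ∧
        ∀ i, ∀ h ≤ (φ i).length, (vf (fm (a i, 1) (φ i) h) t).Prime) with hT
  -- the finset of indices and of forms
  let I : Finset (Σ _ : ι, ℕ) := univ.sigma (fun i => range ((φ i).length + 1))
  let G : (Σ _ : ι, ℕ) → ℕ × ℕ := fun x => fm (a x.1, 1) (φ x.1) x.2
  let F : Finset (ℕ × ℕ) := B ∪ I.image G
  have hTF : T = (Ioc X (2 * X)).filter (fun t => ∀ g ∈ F, (g.1 * t + g.2).Prime) := by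
    rw [hT]
    apply Finset.filter_congr
    intro t _
    constructor
    · rintro ⟨h1, h2⟩ g hg
      rw [mem_union] at hg
      rcases hg with hg | hg
      · exact h1 g hg
      · rw [mem_image] at hg
        obtain ⟨⟨i, h⟩, hx, rfl⟩ := hg
        rw [mem_sigma, mem_range] at hx
        exact h2 i h (by have := hx.2; simp only at this; omega)
    · intro H
      refine ⟨fun g hg => H g (mem_union_left _ hg), fun i h hh => ?_⟩
      exact H (fm (a i, 1) (φ i) h) (mem_union_right _ (mem_image.mpr ⟨⟨i, h⟩, by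
        rw [mem_sigma, mem_range]; exact ⟨mem_univ _, by simp only; omega⟩, rfl⟩))
  by_cases hne : T.Nonempty
  · obtain ⟨t, htT⟩ := hne
    have htT' := htT
    rw [hT, mem_filter, mem_Ioc] at htT'
    obtain ⟨⟨ht1, ht2⟩, htB, htI⟩ := htT'
    have ht : 1 ≤ t := by omega
    have hGinj : Set.InjOn G I := by
      rintro ⟨i, h⟩ hx ⟨j, h'⟩ hy e
      rw [Finset.mem_coe, mem_sigma, mem_range] at hx hy
      have h1 := hx.2
      have h2 := hy.2
      simp only at h1 h2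
      have := fm_inj hinj (fun i => (ha i).1) hM hφ ht htI h h' i j (by omega) (by omega) e
      rw [this.1, this.2]
    have hGpos : ∀ g ∈ I.image G, 1 ≤ g.1 ∧ 1 ≤ g.2 ∧ (vf g t).Prime := by
      intro g hg
      rw [mem_image] at hg
      obtain ⟨⟨i, h⟩, hx, rfl⟩ := hg
      rw [mem_sigma, mem_range] at hx
      have h1 := hx.2
      simp only at h1
      have := fm_pos hM (hφ i) (ha i).1 h
      exact ⟨this.1, this.2, htI i h (by omega)⟩
    have hdisj : Disjoint B (I.image G) := by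
      rw [Finset.disjoint_left]
      intro g hg1 hg2
      have h1 := hB hg1
      rw [mem_singleton] at h1
      have h2 := (hGpos g hg2).2.1
      rw [h1] at h2
      simp at h2
    have hcard : F.card = f := by
      rw [hf, card_union_of_disjoint hdisj, card_image_of_injOn hGinj, card_sigma]
      simp
    have hF0 : B ∪ univ.image (fun i => (a i, 1)) ⊆ F := by
      apply Finset.union_subset_union le_rfl
      intro g hg
      rw [mem_image] at hg
      obtain ⟨i, _, rfl⟩ := hg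
      exact mem_image.mpr ⟨⟨i, 0⟩, by rw [mem_sigma, mem_range]; exact ⟨mem_univ _, by simp⟩, rfl⟩
    have hexp : (1 : ℝ) ≤ Real.exp (5 * N) := Real.one_le_exp (by linarith)
    have key := hF N hN F (B ∪ univ.image (fun i => (a i, 1))) X hF0 (by rw [hcard]; exact hf1)
      (by rw [hcard]; exact hfN) ?_ ?_ hX1 hX2
    · rw [hcard] at key
      rw [hTF]
      exact key
    · intro g hg
      rw [mem_union] at hg
      rcases hg with hg | hg
      · have h1 := hB hg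
        rw [mem_singleton] at h1
        rw [h1]
        refine ⟨le_rfl, by simpa using hexp, by simp; positivity⟩
      · rw [mem_image] at hg
        obtain ⟨⟨i, h⟩, hx, rfl⟩ := hg
        rw [mem_sigma, mem_range] at hx
        have h1 := hx.2
        simp only at h1
        have hb := fm_bd hM (hφ i) (ha i).1 h
        have hpos := fm_pos hM (hφ i) (ha i).1 h
        have hM1 : (1 : ℝ) ≤ M := by exact_mod_cast (by omega : 1 ≤ M)
        have hpow : (M : ℝ) ^ h ≤ (M : ℝ) ^ (φ i).length := pow_le_pow_right₀ hM1 (by omega)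
        have ha1 : (1 : ℝ) ≤ a i := by exact_mod_cast (ha i).1
        refine ⟨hpos.1, ?_, ?_⟩
        · have h2 : ((fm (a i, 1) (φ i) h).1 : ℝ) ≤ a i * (M : ℝ) ^ h := by exact_mod_cast hb.1
          refine h2.trans (le_trans ?_ (ha i).2)
          gcongr
        · have h2 : ((fm (a i, 1) (φ i) h).2 : ℝ) ≤ (M : ℝ) ^ h := by exact_mod_cast hb.2
          refine h2.trans (hpow.trans (le_trans ?_ (ha i).2))
          have : 0 ≤ (M : ℝ) ^ (φ i).length := by positivity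
          nlinarith
    · intro g hg g' hg' hne e
      rw [mem_union] at hg hg'
      rcases hg with hg | hg
      · have h1 := hB hg
        rw [mem_singleton] at h1
        rcases hg' with hg' | hg'
        · have h2 := hB hg'
          rw [mem_singleton] at h2
          exact hne (h1.trans h2.symm)
        · have h2 := hGpos g' hg'
          rw [h1] at e
          simp only [mul_zero, one_mul] at e
          omega
      · have h1 := hGpos g hg
        rcases hg' with hg' | hg'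
        · have h2 := hB hg'
          rw [mem_singleton] at h2
          rw [h2] at e
          simp only [mul_zero, one_mul] at e
          omega
        · have h2 := hGpos g' hg'
          exact hne (prop_eq ht h1.1 h1.2.1 h1.2.2 h2.2.2 e)
  · rw [Finset.not_nonempty_iff_eq_empty] at hne
    rw [hne, card_empty, Nat.cast_zero]
    have h1 : 0 ≤ ∏ l ∈ PZ ⌊N ^ 2⌋₊,
        (1 - (om (B ∪ univ.image (fun i => (a i, 1))) l : ℝ) / l) :=
      Finset.prod_nonneg (fun l _ => fac_nonneg _ l)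
    have h2 : 0 ≤ Real.log N := Real.log_nonneg hN1
    have h3 : 0 ≤ Real.log X := Real.log_natCast_nonneg X
    positivity

/-! ### numerics -/

theorem ch_NN_rpow (n : ℕ) (ε : ℝ) : (NN n) ^ ε = ((9 / 8 : ℝ) ^ ε) ^ n := by
  unfold NN lam
  rw [← Real.rpow_natCast, ← Real.rpow_mul (by norm_num), ← Real.rpow_natCast,
    ← Real.rpow_mul (by norm_num), mul_comm]

theorem ch_one_le_NN (n : ℕ) : 1 ≤ NN n := by
  unfold NN lam
  exact one_le_pow₀ (by norm_num)

theorem ch_log_NN_le (n : ℕ) : Real.log (NN n) ≤ n := by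
  unfold NN lam
  rw [Real.log_pow]
  have h : Real.log (9 / 8) ≤ 1 := by
    have := Real.log_le_sub_one_of_pos (show (0 : ℝ) < 9 / 8 by norm_num)
    linarith
  have : (0 : ℝ) ≤ n := by positivity
  nlinarith

theorem ch_poly_le (k : ℕ) (ε C : ℝ) (hε : 0 < ε) :
    ∃ n₀ : ℕ, ∀ n, n₀ ≤ n → C * (n : ℝ) ^ k ≤ (NN n) ^ ε := by
  have hr : 1 < (9 / 8 : ℝ) ^ ε := Real.one_lt_rpow (by norm_num) hε
  have h := tendsto_pow_const_div_const_pow_of_one_lt k hr
  have h2 := h.eventually (gt_mem_nhds (show (0 : ℝ) < 1 / (|C| + 1) by positivity))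
  obtain ⟨n₀, hn₀⟩ := Filter.eventually_atTop.mp h2
  refine ⟨n₀, fun n hn => ?_⟩
  have h3 := hn₀ n hn
  rw [ch_NN_rpow]
  have hpos : 0 < ((9 / 8 : ℝ) ^ ε) ^ n := by positivity
  rw [div_lt_iff₀ hpos] at h3
  have hC : C ≤ |C| + 1 := by linarith [le_abs_self C]
  have hn : (0 : ℝ) ≤ (n : ℝ) ^ k := by positivity
  calc C * (n : ℝ) ^ k ≤ (|C| + 1) * (n : ℝ) ^ k := by gcongr
    _ ≤ (|C| + 1) * (1 / (|C| + 1) * ((9 / 8 : ℝ) ^ ε) ^ n) := by gcongr
    _ = _ := by field_simp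

theorem MM_le (b n : ℕ) : (MM b n : ℝ) ≤ Real.exp ((n : ℝ) ^ (4 * b + 8) + 1) := by
  have h1 : (MM b n : ℝ) < Real.exp ((n : ℝ) ^ (4 * b + 8)) + 1 :=
    Nat.ceil_lt_add_one (Real.exp_nonneg _)
  have h2 : (1 : ℝ) ≤ Real.exp ((n : ℝ) ^ (4 * b + 8)) := Real.one_le_exp (by positivity)
  have h3 : (2 : ℝ) ≤ Real.exp 1 := by
    have := Real.add_one_le_exp (1 : ℝ)
    linarith
  rw [Real.exp_add]
  nlinarith

theorem two_le_MM {b n : ℕ} (hn : 1 ≤ n) : 2 ≤ MM b n := by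
  have h1 : (1 : ℝ) ≤ (n : ℝ) ^ (4 * b + 8) := one_le_pow₀ (by exact_mod_cast hn)
  have h2 : Real.exp 1 ≤ Real.exp ((n : ℝ) ^ (4 * b + 8)) := Real.exp_le_exp.mpr h1
  have h3 : (2 : ℝ) ≤ Real.exp 1 := by
    have := Real.add_one_le_exp (1 : ℝ)
    linarith
  have h4 := Nat.le_ceil (Real.exp ((n : ℝ) ^ (4 * b + 8)))
  have h5 : (2 : ℝ) ≤ (MM b n : ℝ) := h3.trans (h2.trans h4)
  exact_mod_cast h5

theorem S1_le {M : ℕ} (_hM : 1 ≤ M) : S1 M ≤ 1 + Real.log M := by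
  have h1 := harmonic_le_one_add_log M
  rw [harmonic_eq_sum_Icc] at h1
  push_cast at h1
  refine le_trans ?_ h1
  unfold S1
  simp only [one_div]
  apply Finset.sum_le_sum_of_subset_of_nonneg
  · intro m hm
    rw [mem_Ico] at hm
    rw [mem_Icc]
    omega
  · intro m _ _
    positivity

theorem S1_MM_le {b n : ℕ} (hn : 1 ≤ n) : S1 (MM b n) ≤ 3 * (n : ℝ) ^ (4 * b + 8) := by
  have h1 := S1_le (M := MM b n) (by have := two_le_MM (b := b) hn; omega)
  have h2 : Real.log (MM b n) ≤ (n : ℝ) ^ (4 * b + 8) + 1 := by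
    have hpos : (0 : ℝ) < MM b n := by
      have := two_le_MM (b := b) hn
      exact_mod_cast (by omega : 0 < MM b n)
    have := Real.log_le_log hpos (MM_le b n)
    rwa [Real.log_exp] at this
  have h3 : (1 : ℝ) ≤ (n : ℝ) ^ (4 * b + 8) := one_le_pow₀ (by exact_mod_cast hn)
  linarith

/-- the numerical facts on the parameters -/
theorem params (b : ℕ) (C : ℝ) (hC : 0 ≤ C) : ∃ n₀ : ℕ, ∀ n, n₀ ≤ n → 1 ≤ n ∧
    (1 + KK b n * (KK b n + 1) : ℝ) ≤ (NN n) ^ (1 / 6 : ℝ) ∧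
    (MM b n : ℝ) ^ (KK b n) ≤ Real.exp (2 * NN n) ∧
    C * ((NN n) ^ (1 / 6 : ℝ) * Real.log (NN n)) * S1 (MM b n) ≤ (NN n) ^ (0.49 : ℝ) := by
  obtain ⟨n1, h1⟩ := ch_poly_le (4 * b + 4) (1 / 6) 3 (by norm_num)
  obtain ⟨n2, h2⟩ := ch_poly_le (6 * b + 10) 1 1 (by norm_num)
  obtain ⟨n3, h3⟩ := ch_poly_le (4 * b + 9) (0.49 - 1 / 6) (3 * C) (by norm_num)
  refine ⟨max (max n1 n2) (max n3 1), fun n hn => ?_⟩
  have hn1 : n1 ≤ n := (le_max_left _ _).trans ((le_max_left _ _).trans hn)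
  have hn2 : n2 ≤ n := (le_max_right _ _).trans ((le_max_left _ _).trans hn)
  have hn3 : n3 ≤ n := (le_max_left _ _).trans ((le_max_right _ _).trans hn)
  have hn4 : 1 ≤ n := (le_max_right _ _).trans ((le_max_right _ _).trans hn)
  have hnR : (1 : ℝ) ≤ n := by exact_mod_cast hn4
  refine ⟨hn4, ?_, ?_, ?_⟩
  · refine le_trans ?_ (h1 n hn1)
    unfold KK
    push_cast
    have e : (n : ℝ) ^ (4 * b + 4) = (n : ℝ) ^ (2 * b + 2) * (n : ℝ) ^ (2 * b + 2) := by
      rw [← pow_add]; congr 1; omega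
    rw [e]
    have h4 : (1 : ℝ) ≤ (n : ℝ) ^ (2 * b + 2) := one_le_pow₀ hnR
    nlinarith
  · have h4 := MM_le b n
    have h5 : (MM b n : ℝ) ^ (KK b n) ≤ (Real.exp ((n : ℝ) ^ (4 * b + 8) + 1)) ^ (KK b n) :=
      pow_le_pow_left₀ (by positivity) h4 _
    refine h5.trans ?_
    rw [← Real.exp_nat_mul]
    apply Real.exp_le_exp.mpr
    have h6 := h2 n hn2
    rw [Real.rpow_one, one_mul] at h6
    refine le_trans ?_ (mul_le_mul_of_nonneg_left h6 (by norm_num))
    unfold KK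
    push_cast
    have e : (n : ℝ) ^ (6 * b + 10) = (n : ℝ) ^ (2 * b + 2) * (n : ℝ) ^ (4 * b + 8) := by
      rw [← pow_add]; congr 1; omega
    rw [e]
    have h7 : (1 : ℝ) ≤ (n : ℝ) ^ (2 * b + 2) := one_le_pow₀ hnR
    have h8 : (1 : ℝ) ≤ (n : ℝ) ^ (4 * b + 8) := one_le_pow₀ hnR
    nlinarith
  · have h4 := h3 n hn3
    have hN : 0 < NN n := by linarith [ch_one_le_NN n]
    have hNp : 0 ≤ (NN n) ^ (1 / 6 : ℝ) := Real.rpow_nonneg hN.le _
    have hlog : Real.log (NN n) ≤ n := ch_log_NN_le n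
    have hlog0 : 0 ≤ Real.log (NN n) := Real.log_nonneg (ch_one_le_NN n)
    have hS := S1_MM_le (b := b) hn4
    have hS0 := S1_nonneg (MM b n)
    have e1 : (NN n) ^ (0.49 : ℝ) = (NN n) ^ (1 / 6 : ℝ) * (NN n) ^ (0.49 - 1 / 6 : ℝ) := by
      rw [← Real.rpow_add hN]; congr 1; ring
    rw [e1]
    calc C * ((NN n) ^ (1 / 6 : ℝ) * Real.log (NN n)) * S1 (MM b n)
        ≤ C * ((NN n) ^ (1 / 6 : ℝ) * n) * (3 * (n : ℝ) ^ (4 * b + 8)) := by gcongr
      _ = (NN n) ^ (1 / 6 : ℝ) * (3 * C * (n : ℝ) ^ (4 * b + 9)) := by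
          rw [show 4 * b + 9 = (4 * b + 8) + 1 by ring, pow_succ]; ring
      _ ≤ _ := by gcongr

/-- the general moment bound -/
theorem chain_moment : ∃ C₁ : ℝ, 1 ≤ C₁ ∧ ∀ b : ℕ, ∃ n₀ : ℕ, ∀ n, n₀ ≤ n →
    ∀ (ι : Type) [Fintype ι] [DecidableEq ι] (a : ι → ℕ) (B : Finset (ℕ × ℕ)) (X : ℕ),
    Function.Injective a → B ⊆ {(1, 0)} → 1 ≤ B.card + Fintype.card ι → Fintype.card ι ≤ KK b n →
    (∀ i, 1 ≤ a i ∧ (a i : ℝ) ≤ Real.exp (3 * NN n)) →
    (NN n) ^ (0.49 : ℝ) ≤ Real.log X → Real.log X ≤ 3 * NN n →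
    ∑ t ∈ (Ioc X (2 * X)).filter (fun t => ∀ g ∈ B, (vf g t).Prime), ∏ i, U b n (a i * t + 1) ≤
      X * (∏ l ∈ PZ ⌊(NN n) ^ 2⌋₊,
        (1 - (om (B ∪ univ.image (fun i => (a i, 1))) l : ℝ) / l)) *
        (C₁ * ((B.card + Fintype.card ι : ℕ) : ℝ) * Real.log (NN n) / Real.log X) ^
          (B.card + Fintype.card ι) * (4 / 3) ^ (Fintype.card ι) := by
  obtain ⟨C₁, hC₁, N₀, hCC⟩ := chain_count
  refine ⟨C₁, hC₁, fun b => ?_⟩
  obtain ⟨n1, h1⟩ := params b (4 * C₁ * Real.exp 1) (by positivity)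
  obtain ⟨n2, h2⟩ := ch_poly_le 0 1 N₀ (by norm_num)
  refine ⟨max n1 n2, ?_⟩
  intro n hn ι _ _ a B X hinj hB hf1 hcK ha hX1 hX2
  obtain ⟨hn1, hp1, hp2, hp3⟩ := h1 n ((le_max_left _ _).trans hn)
  have hN₀ : N₀ ≤ NN n := by
    have := h2 n ((le_max_right _ _).trans hn)
    rwa [pow_zero, mul_one, Real.rpow_one] at this
  set N := NN n with hNdef
  have hN1 : 1 ≤ N := ch_one_le_NN n
  have hlogN : 0 ≤ Real.log N := Real.log_nonneg hN1
  have hX0 : 0 < Real.log X := lt_of_lt_of_le (by positivity) hX1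
  set M := MM b n with hMdef
  set K := KK b n with hKdef
  have hM2 : 2 ≤ M := two_le_MM hn1
  have hM1 : (1 : ℝ) ≤ M := by exact_mod_cast (by omega : 1 ≤ M)
  set f₀ := B.card + Fintype.card ι with hf₀
  set L := Real.log N / Real.log X with hL
  have hL0 : 0 ≤ L := div_nonneg hlogN hX0.le
  set P := ∏ l ∈ PZ ⌊N ^ 2⌋₊, (1 - (om (B ∪ univ.image (fun i => (a i, 1))) l : ℝ) / l) with hP
  have hP0 : 0 ≤ P := Finset.prod_nonneg (fun l _ => fac_nonneg _ l)
  set γ := C₁ * Real.exp 1 * N ^ (1 / 6 : ℝ) * L with hγ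
  have hγ0 : 0 ≤ γ := by positivity
  have hγS : S1 M * γ ≤ 1 / 4 := by
    rw [hγ, hL]
    have e : S1 M * (C₁ * Real.exp 1 * N ^ (1 / 6 : ℝ) * (Real.log N / Real.log X)) =
      (1 / 4) * ((4 * C₁ * Real.exp 1) * (N ^ (1 / 6 : ℝ) * Real.log N) * S1 M) / Real.log X := by
      ring
    rw [e, div_le_iff₀ hX0]
    have := hp3.trans hX1
    linarith
  have hBcard : B.card ≤ 1 := (card_le_card hB).trans (by simp)
  -- expand
  have step1 : ∀ t, ∏ i, U b n (a i * t + 1) =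
      ∑ φ ∈ Fintype.piFinset (fun _ : ι => ach M K),
        if (∀ i, ∀ h ≤ (φ i).length, (vf (fm (a i, 1) (φ i) h) t).Prime) then
          ∏ i, wt (φ i) else 0 := by
    intro t
    have e1 : ∀ i, U b n (a i * t + 1) = ∑ l ∈ ach M K,
        if (∀ h ≤ l.length, (vf (fm (a i, 1) l h) t).Prime) then wt l else 0 := by
      intro i
      exact U_expand b n t (a i, 1)
    rw [Finset.prod_congr rfl (fun i _ => e1 i), Finset.prod_univ_sum]
    apply Finset.sum_congr rfl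
    intro φ _
    rw [Finset.prod_ite_zero]
    simp only [mem_univ, true_implies]
  rw [Finset.sum_congr rfl (fun t _ => step1 t), Finset.sum_comm]
  have step2 : ∀ φ ∈ Fintype.piFinset (fun _ : ι => ach M K),
      (∑ t ∈ (Ioc X (2 * X)).filter (fun t => ∀ g ∈ B, (vf g t).Prime),
        if (∀ i, ∀ h ≤ (φ i).length, (vf (fm (a i, 1) (φ i) h) t).Prime) then
          ∏ i, wt (φ i) else 0) ≤
      X * P * (C₁ * f₀ * L) ^ f₀ * ∏ i, (wt (φ i) * γ ^ (φ i).length) := by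
    intro φ hφ
    rw [Fintype.mem_piFinset] at hφ
    rw [← Finset.sum_filter, Finset.filter_filter, Finset.sum_const, nsmul_eq_mul]
    have hlen : ∀ i, (φ i).length ≤ K := fun i => (mem_ach (hφ i)).1
    set nc := ∑ i, (φ i).length with hnc
    have hsum : B.card + ∑ i, ((φ i).length + 1) = f₀ + nc := by
      rw [Finset.sum_add_distrib, Finset.sum_const, card_univ, smul_eq_mul, mul_one]
      omega
    have hncK : nc ≤ Fintype.card ι * K := by
      rw [hnc]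
      calc ∑ i, (φ i).length ≤ ∑ _i : ι, K := Finset.sum_le_sum (fun i _ => hlen i)
        _ = Fintype.card ι * K := by rw [Finset.sum_const, card_univ, smul_eq_mul]
    have hfle : (((f₀ + nc : ℕ)) : ℝ) ≤ N ^ (1 / 6 : ℝ) := by
      refine le_trans ?_ hp1
      have : f₀ + nc ≤ 1 + K * (K + 1) := by
        have : Fintype.card ι * K ≤ K * K := Nat.mul_le_mul_right K hcK
        nlinarith
      exact_mod_cast this
    have hcnt := hCC N hN₀ ι a B φ M X (f₀ + nc) hinj hB hsum.symm (by omega) hfle hM2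
      (fun i => (mem_ach (hφ i)).2) ?_ hX1 (by linarith)
    · have hw : 0 ≤ ∏ i, wt (φ i) := Finset.prod_nonneg (fun i _ => wt_nonneg _)
      have hpow : (C₁ * ((f₀ + nc : ℕ) : ℝ) * Real.log N / Real.log X) ^ (f₀ + nc) ≤
          (C₁ * f₀ * L) ^ f₀ * γ ^ nc := by
        have hf₀R : (1 : ℝ) ≤ f₀ := by exact_mod_cast hf1
        have e1 : C₁ * ((f₀ + nc : ℕ) : ℝ) * Real.log N / Real.log X =
            C₁ * L * ((f₀ + nc : ℕ) : ℝ) := by rw [hL]; ring
        rw [e1, pow_add, mul_pow (C₁ * L) _ f₀, mul_pow (C₁ * L) _ nc]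
        have e2 : (((f₀ + nc : ℕ)) : ℝ) ^ f₀ ≤ (f₀ : ℝ) ^ f₀ * (Real.exp 1) ^ nc := by
          have e3 : (((f₀ + nc : ℕ)) : ℝ) = f₀ * (1 + nc / f₀) := by
            push_cast
            field_simp
          rw [e3, mul_pow]
          apply mul_le_mul_of_nonneg_left _ (by positivity)
          have e4 : (1 + (nc : ℝ) / f₀) ≤ Real.exp (nc / f₀) := by
            have := Real.add_one_le_exp ((nc : ℝ) / f₀)
            linarith
          calc (1 + (nc : ℝ) / f₀) ^ f₀ ≤ (Real.exp (nc / f₀)) ^ f₀ :=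
                pow_le_pow_left₀ (by positivity) e4 _
            _ = Real.exp 1 ^ nc := by
                rw [← Real.exp_nat_mul, ← Real.exp_nat_mul]
                congr 1
                field_simp
        have e5 : (((f₀ + nc : ℕ)) : ℝ) ^ nc ≤ (N ^ (1 / 6 : ℝ)) ^ nc :=
          pow_le_pow_left₀ (by positivity) hfle _
        calc (C₁ * L) ^ f₀ * (((f₀ + nc : ℕ)) : ℝ) ^ f₀ * ((C₁ * L) ^ nc * (((f₀ + nc : ℕ)) : ℝ) ^ nc)
            ≤ (C₁ * L) ^ f₀ * ((f₀ : ℝ) ^ f₀ * (Real.exp 1) ^ nc) *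
              ((C₁ * L) ^ nc * (N ^ (1 / 6 : ℝ)) ^ nc) := by gcongr
          _ = (C₁ * f₀ * L) ^ f₀ * γ ^ nc := by
              rw [hγ]
              simp only [mul_pow]
              ring
      rw [Finset.prod_mul_distrib, Finset.prod_pow_eq_pow_sum]
      calc _ ≤ (X * P * ((C₁ * ((f₀ + nc : ℕ) : ℝ) * Real.log N / Real.log X) ^ (f₀ + nc))) *
            ∏ i, wt (φ i) := by
            apply mul_le_mul_of_nonneg_right _ hw
            exact hcnt
        _ ≤ (X * P * ((C₁ * f₀ * L) ^ f₀ * γ ^ nc)) * ∏ i, wt (φ i) := by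
            gcongr
        _ = _ := by ring
    · intro i
      refine ⟨(ha i).1, ?_⟩
      have h3 : (M : ℝ) ^ (φ i).length ≤ (M : ℝ) ^ K := pow_le_pow_right₀ hM1 (hlen i)
      calc (a i : ℝ) * (M : ℝ) ^ (φ i).length ≤ Real.exp (3 * N) * Real.exp (2 * N) := by
            apply mul_le_mul (ha i).2 (h3.trans hp2) (by positivity) (by positivity)
        _ = Real.exp (5 * N) := by rw [← Real.exp_add]; congr 1; ring
  refine (Finset.sum_le_sum step2).trans ?_
  rw [← Finset.mul_sum, ← Finset.prod_univ_sum (fun _ : ι => ach M K)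
    (fun _ l => wt l * γ ^ l.length)]
  have hfin : ∏ _i : ι, ∑ l ∈ ach M K, wt l * γ ^ l.length ≤ (4 / 3) ^ (Fintype.card ι) := by
    rw [Finset.prod_const, card_univ]
    apply pow_le_pow_left₀ _ (sum_ach_le hγ0 hγS)
    exact Finset.sum_nonneg (fun l _ => mul_nonneg (wt_nonneg l) (by positivity))
  have e6 : C₁ * (f₀ : ℝ) * Real.log N / Real.log X = C₁ * f₀ * L := by rw [hL]; ring
  rw [e6]
  exact mul_le_mul_of_nonneg_left hfin (by positivity)

end

end Pool.Agent.NTot
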