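import Pool.Agent.NTot.LongChain

/-!
# M10: decomposition of the primes of a window
-/

set_option autoImplicit false

namespace Pool.Agent.NTot

open Finset Filter Topology

noncomputable section

theorem Decomp.uu_nonneg (M₀ : ℕ) : ∀ s P, 0 ≤ uu M₀ s P
  | 0, P => by
      unfold uu
      split_ifs <;> norm_num
  | s + 1, P => by
      unfold uu
      split_ifs
      · exact sum_nonneg (fun m _ => div_nonneg (Decomp.uu_nonneg M₀ s _) (Nat.cast_nonneg _))
      · exact le_rfl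

namespace Decomp

theorem gpf_mem {m : ℕ} (hm : 2 ≤ m) : gpf m ∈ m.primeFactors := by
  unfold gpf
  have hne : m.primeFactors.Nonempty := Nat.nonempty_primeFactors.mpr (by omega)
  obtain ⟨x, hx, h⟩ := Finset.exists_mem_eq_sup m.primeFactors hne id
  rw [h]
  exact hx

theorem gpf_prime {m : ℕ} (hm : 2 ≤ m) : (gpf m).Prime :=
  Nat.prime_of_mem_primeFactors (gpf_mem hm)

theorem gpf_dvd {m : ℕ} (hm : 2 ≤ m) : gpf m ∣ m :=
  Nat.dvd_of_mem_primeFactors (gpf_mem hm)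

theorem desc_prime {M₀ : ℕ} : ∀ {s Q p : ℕ}, desc M₀ s Q p → p.Prime ∧ Q.Prime
  | 0, Q, p, h => by
      obtain ⟨h1, h2⟩ := h
      exact ⟨h1 ▸ h2, h2⟩
  | s + 1, Q, p, h => ⟨h.1, (desc_prime h.2.2.2).2⟩

theorem desc_le {M₀ : ℕ} : ∀ {s Q p : ℕ}, desc M₀ s Q p → Q ≤ p
  | 0, Q, p, h => h.1.ge
  | s + 1, Q, p, h => by
      have h1 := desc_le h.2.2.2
      have h2 : gpf (p - 1) ≤ p - 1 :=
        Nat.le_of_dvd (by have := h.2.1; omega) (gpf_dvd (by have := h.2.1; omega))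
      omega

theorem step_eq {p : ℕ} (hp : 2 < p) :
    ((p - 1) / gpf (p - 1)) * gpf (p - 1) + 1 = p ∧ 1 ≤ (p - 1) / gpf (p - 1) := by
  have h2 : 2 ≤ p - 1 := by omega
  have hd := gpf_dvd h2
  have hpos := (gpf_prime h2).pos
  have h3 := Nat.div_mul_cancel hd
  refine ⟨by omega, ?_⟩
  exact (Nat.one_le_div_iff hpos).mpr (Nat.le_of_dvd (by omega) hd)

theorem desc_size {M₀ : ℕ} : ∀ {s Q p : ℕ}, desc M₀ s Q p → p ≤ Q * M₀ ^ s
  | 0, Q, p, h => by rw [h.1]; simp
  | s + 1, Q, p, h => by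
      have h1 := desc_size h.2.2.2
      obtain ⟨h2, h3⟩ := step_eq h.2.1
      have h4 : (p - 1) / gpf (p - 1) + 1 ≤ M₀ := h.2.2.1
      have h5 : 1 ≤ gpf (p - 1) := (gpf_prime (by have := h.2.1; omega)).pos
      calc p = ((p - 1) / gpf (p - 1)) * gpf (p - 1) + 1 := h2.symm
        _ ≤ ((p - 1) / gpf (p - 1)) * gpf (p - 1) + gpf (p - 1) := by omega
        _ = ((p - 1) / gpf (p - 1) + 1) * gpf (p - 1) := by ring
        _ ≤ M₀ * (Q * M₀ ^ s) := Nat.mul_le_mul h4 h1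
        _ = Q * M₀ ^ (s + 1) := by ring

theorem desc_snoc {M₀ : ℕ} : ∀ {s Q p : ℕ}, desc M₀ (s + 1) Q p →
    ∃ m ∈ Ico 1 M₀, desc M₀ s (m * Q + 1) p
  | 0, Q, p, h => by
      obtain ⟨h1, h2, h3, h4, h5⟩ := h
      obtain ⟨h6, h7⟩ := step_eq h2
      refine ⟨(p - 1) / gpf (p - 1), mem_Ico.mpr ⟨h7, h3⟩, ?_, ?_⟩
      · rw [← h4, h6]
      · rw [← h4, h6]; exact h1
  | s + 1, Q, p, h => by
      obtain ⟨h1, h2, h3, h4⟩ := h
      obtain ⟨m, hm, h5⟩ := desc_snoc h4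
      exact ⟨m, hm, h1, h2, h3, h5⟩

open Classical in
theorem chain_sum {M₀ : ℕ} (T : Finset ℕ) : ∀ (s Q : ℕ),
    ∑ p ∈ T, (if desc M₀ s Q p then (1 : ℝ) / p else 0) ≤ uu M₀ s Q / Q
  | 0, Q => by
      by_cases hQ : Q.Prime
      · have h1 : ∑ p ∈ T, (if desc M₀ 0 Q p then (1 : ℝ) / p else 0) ≤
            ∑ p ∈ insert Q T, (if p = Q then (1 : ℝ) / p else 0) := by
          refine (Finset.sum_le_sum (g := fun p => if p = Q then (1 : ℝ) / p else 0)
            (fun p _ => ?_)).trans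
            (Finset.sum_le_sum_of_subset_of_nonneg (Finset.subset_insert _ _) (fun p _ _ => ?_))
          · by_cases h : desc M₀ 0 Q p
            · rw [if_pos h, if_pos h.1]
            · rw [if_neg h]; split_ifs <;> positivity
          · split_ifs <;> positivity
        refine h1.trans ?_
        rw [Finset.sum_ite_eq' (insert Q T) Q (fun p => (1 : ℝ) / p), if_pos (Finset.mem_insert_self _ _)]
        unfold uu
        rw [if_pos hQ]
      · have h1 : ∑ p ∈ T, (if desc M₀ 0 Q p then (1 : ℝ) / p else 0) = 0 := by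
          apply Finset.sum_eq_zero
          intro p _
          rw [if_neg]
          intro h
          exact hQ h.2
        rw [h1]
        exact div_nonneg (uu_nonneg _ _ _) (Nat.cast_nonneg _)
  | s + 1, Q => by
      by_cases hQ : Q.Prime
      · have hQ0 : (0 : ℝ) < Q := by exact_mod_cast hQ.pos
        have h1 : ∑ p ∈ T, (if desc M₀ (s + 1) Q p then (1 : ℝ) / p else 0) ≤
            ∑ p ∈ T, ∑ m ∈ Ico 1 M₀, (if desc M₀ s (m * Q + 1) p then (1 : ℝ) / p else 0) := by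
          refine Finset.sum_le_sum (fun p _ => ?_)
          by_cases h : desc M₀ (s + 1) Q p
          · obtain ⟨m, hm, h2⟩ := desc_snoc h
            rw [if_pos h]
            have h3 := Finset.single_le_sum
              (f := fun m => if desc M₀ s (m * Q + 1) p then (1 : ℝ) / p else 0)
              (fun i _ => by split_ifs <;> positivity) hm
            rw [if_pos h2] at h3
            exact h3
          · rw [if_neg h]
            exact Finset.sum_nonneg (fun i _ => by split_ifs <;> positivity)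
        refine h1.trans ?_
        rw [Finset.sum_comm]
        have h2 : ∀ m ∈ Ico 1 M₀, ∑ p ∈ T, (if desc M₀ s (m * Q + 1) p then (1 : ℝ) / p else 0) ≤
            uu M₀ s (m * Q + 1) / m / Q := by
          intro m hm
          have hm1 : (1 : ℝ) ≤ m := by exact_mod_cast (mem_Ico.mp hm).1
          refine (chain_sum T s (m * Q + 1)).trans ?_
          rw [div_div]
          apply div_le_div_of_nonneg_left (uu_nonneg _ _ _) (by positivity)
          push_cast
          linarith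
        refine (Finset.sum_le_sum h2).trans ?_
        rw [← Finset.sum_div]
        conv_rhs => unfold uu
        rw [if_pos hQ]
      · have h1 : ∑ p ∈ T, (if desc M₀ (s + 1) Q p then (1 : ℝ) / p else 0) = 0 := by
          apply Finset.sum_eq_zero
          intro p _
          rw [if_neg]
          intro h
          exact hQ (desc_prime h).2
        rw [h1]
        exact div_nonneg (uu_nonneg _ _ _) (Nat.cast_nonneg _)

/-- either `p` has a long descent or the descent stops -/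
theorem desc_dich {M₀ : ℕ} {p : ℕ} (hp : p.Prime) : ∀ s : ℕ, (∃ Q, desc M₀ s Q p) ∨
    ∃ s' < s, ∃ Q, desc M₀ s' Q p ∧ ¬ (2 < Q ∧ (Q - 1) / gpf (Q - 1) < M₀)
  | 0 => Or.inl ⟨p, rfl, hp⟩
  | s + 1 => by
      rcases desc_dich hp s with ⟨Q, hQ⟩ | ⟨s', hs', Q, hQ, h⟩
      · by_cases h : 2 < Q ∧ (Q - 1) / gpf (Q - 1) < M₀
        · left
          refine ⟨gpf (Q - 1), ?_⟩
          have key : ∀ s p, desc M₀ s Q p → desc M₀ (s + 1) (gpf (Q - 1)) p := by
            intro s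
            induction s with
            | zero =>
                intro p hp
                obtain ⟨h1, h2⟩ := hp
                subst h1
                exact ⟨h2, h.1, h.2, rfl, gpf_prime (by have := h.1; omega)⟩
            | succ s ih =>
                intro p hp
                obtain ⟨h1, h2, h3, h4⟩ := hp
                exact ⟨h1, h2, h3, ih _ h4⟩
          exact key s p hQ
        · right
          exact ⟨s, by omega, Q, hQ, h⟩
      · right
        exact ⟨s', by omega, Q, hQ, h⟩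


theorem sum_inv_le (Y : ℕ) : ∑ t ∈ Icc 1 Y, (1 : ℝ) / t ≤ 1 + Real.log Y := by
  have h := harmonic_le_one_add_log Y
  rw [harmonic_eq_sum_Icc] at h
  push_cast at h
  simpa [one_div] using h

/-- Rankin's bound for smooth numbers -/
theorem smooth_bound : ∃ C : ℝ, 1 ≤ C ∧ ∀ N : ℝ, 16 ≤ N → ∀ Ds : Finset ℕ,
    (∀ d ∈ Ds, d ≠ 0 ∧ (∀ r, r.Prime → r ∣ d → Real.log r ≤ Real.sqrt N) ∧
      N ^ (3 / 4 : ℝ) ≤ Real.log d) →
    ∑ d ∈ Ds, (1 : ℝ) / d ≤ C * N ^ 5 * Real.exp (-N ^ (1 / 4 : ℝ)) := by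
  obtain ⟨C, hC, hm⟩ := mertens_inv
  refine ⟨Real.exp (9 * C), Real.one_le_exp (by linarith), fun N hN Ds hDs => ?_⟩
  have hN0 : 0 < N := by linarith
  have hsq4 : 4 ≤ Real.sqrt N := by
    rw [show (4 : ℝ) = Real.sqrt 16 by
      rw [show (16 : ℝ) = 4 ^ 2 by norm_num, Real.sqrt_sq (by norm_num)]]
    exact Real.sqrt_le_sqrt hN
  set q := Real.sqrt N with hq
  have hq0 : 0 < q := by linarith
  have hqq : q * q = N := Real.mul_self_sqrt hN0.le
  set η : ℝ := 1 / q with hη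
  have hη0 : 0 < η := by positivity
  have hη4 : η ≤ 1 / 4 := by
    rw [hη]
    exact one_div_le_one_div_of_le (by norm_num) hsq4
  have hηN : η * N ^ (3 / 4 : ℝ) = N ^ (1 / 4 : ℝ) := by
    rw [hη, hq, Real.sqrt_eq_rpow, one_div, ← Real.rpow_neg hN0.le, ← Real.rpow_add hN0]
    norm_num
  let f : ℕ →* ℝ :=
    { toFun := fun m => (m : ℝ) ^ (η - 1)
      map_one' := by simp
      map_mul' := fun a b => by
        push_cast
        exact Real.mul_rpow (Nat.cast_nonneg _) (Nat.cast_nonneg _) }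
  have hf : ∀ m : ℕ, f m = (m : ℝ) ^ (η - 1) := fun m => rfl
  have hf0 : ∀ m : ℕ, 0 ≤ f m := fun m => by rw [hf]; positivity
  have hf23 : ∀ p : ℕ, p.Prime → f p ≤ 2 / 3 := by
    intro p hp
    have hp2 : (2 : ℝ) ≤ p := by exact_mod_cast hp.two_le
    rw [hf]
    calc (p : ℝ) ^ (η - 1) ≤ (p : ℝ) ^ (-(3 / 4) : ℝ) :=
          Real.rpow_le_rpow_of_exponent_le (by linarith) (by linarith)
      _ ≤ (2 : ℝ) ^ (-(3 / 4) : ℝ) :=
          Real.rpow_le_rpow_of_nonpos (by norm_num) hp2 (by norm_num)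
      _ ≤ 2 / 3 := by
          rw [Real.rpow_neg (by norm_num), inv_le_comm₀ (by positivity) (by norm_num)]
          have h1 : ((3 / 2 : ℝ) ^ (4 : ℕ)) ^ (1 / 4 : ℝ) ≤ ((2 : ℝ) ^ (3 : ℕ)) ^ (1 / 4 : ℝ) :=
            Real.rpow_le_rpow (by positivity) (by norm_num) (by norm_num)
          rw [← Real.rpow_natCast, ← Real.rpow_mul (by norm_num), ← Real.rpow_natCast,
            ← Real.rpow_mul (by norm_num)] at h1
          norm_num at h1 ⊢
          exact h1
  set s : Finset ℕ := range (⌊Real.exp q⌋₊ + 1) with hs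
  obtain ⟨-, hsum⟩ := EulerProduct.summable_and_hasSum_factoredNumbers_prod_filter_prime_geometric
    (f := f) (fun {p} hp => by
      rw [Real.norm_eq_abs, abs_of_nonneg (hf0 p)]
      have := hf23 p hp
      linarith) s
  have hsum2 := hasSum_subtype_iff_indicator.mp hsum
  have h1 : ∑ d ∈ Ds, f d ≤ ∏ p ∈ s with p.Prime, (1 - f p)⁻¹ := by
    refine le_trans (le_of_eq ?_) (sum_le_hasSum Ds (fun i _ => ?_) hsum2)
    · refine Finset.sum_congr rfl (fun d hd => ?_)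
      rw [Set.indicator_of_mem]
      obtain ⟨hd0, hd1, -⟩ := hDs d hd
      rw [Nat.mem_factoredNumbers_iff_primeFactors_subset]
      refine ⟨hd0, fun r hr => ?_⟩
      have hrp := Nat.prime_of_mem_primeFactors hr
      have h2 := hd1 r hrp (Nat.dvd_of_mem_primeFactors hr)
      rw [hs, mem_range, Nat.lt_succ_iff]
      apply Nat.le_floor
      rw [← Real.exp_log (show (0 : ℝ) < r by exact_mod_cast hrp.pos)]
      exact Real.exp_le_exp.mpr h2
    · exact Set.indicator_nonneg (fun m _ => hf0 m) i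
  have h2 : ∏ p ∈ s with p.Prime, (1 - f p)⁻¹ ≤ Real.exp (∑ p ∈ s with p.Prime, 3 * f p) := by
    rw [Real.exp_sum]
    apply Finset.prod_le_prod
    · intro p hp
      have := hf23 p (mem_filter.mp hp).2
      exact inv_nonneg.mpr (by linarith)
    · intro p hp
      have h3 := hf23 p (mem_filter.mp hp).2
      have h4 := hf0 p
      rw [inv_le_comm₀ (by linarith) (Real.exp_pos _), ← Real.exp_neg]
      have h5 : Real.exp (-(3 * f p)) ≤ 1 / (1 + 3 * f p) := by
        rw [Real.exp_neg, ← one_div]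
        apply one_div_le_one_div_of_le (by linarith)
        linarith [Real.add_one_le_exp (3 * f p)]
      refine h5.trans ?_
      rw [div_le_iff₀ (by linarith)]
      nlinarith
  have hsPZ : s.filter Nat.Prime = PZ ⌊Real.exp q⌋₊ := by
    ext l
    rw [mem_PZ, mem_filter, hs, mem_range, Nat.lt_succ_iff]
    tauto
  have hfl3 : 3 ≤ ⌊Real.exp q⌋₊ := by
    apply Nat.le_floor
    have := Real.add_one_le_exp q
    push_cast
    linarith
  have h3 : ∑ p ∈ s with p.Prime, 3 * f p ≤ 9 * (Real.log q + C) := by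
    have h4 : ∀ p ∈ s.filter Nat.Prime, 3 * f p ≤ 3 * Real.exp 1 * ((1 : ℝ) / p) := by
      intro p hp
      rw [hsPZ, mem_PZ] at hp
      have hp0 : (0 : ℝ) < p := by exact_mod_cast hp.1.pos
      have hlp : Real.log p ≤ q := by
        have h5 : (p : ℝ) ≤ Real.exp q :=
          (Nat.cast_le.mpr hp.2).trans (Nat.floor_le (Real.exp_pos _).le)
        have h6 := Real.log_le_log hp0 h5
        rwa [Real.log_exp] at h6
      have h5 : f p = (p : ℝ) ^ η * (1 / p) := by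
        rw [hf, Real.rpow_sub_one hp0.ne']
        ring
      have h6 : (p : ℝ) ^ η ≤ Real.exp 1 := by
        rw [Real.rpow_def_of_pos hp0]
        apply Real.exp_le_exp.mpr
        rw [hη, mul_one_div]
        rw [div_le_one hq0]
        exact hlp
      rw [h5]
      have h7 : (0 : ℝ) ≤ 1 / p := by positivity
      nlinarith [mul_le_mul_of_nonneg_right h6 h7]
    refine (Finset.sum_le_sum h4).trans ?_
    rw [← Finset.mul_sum, hsPZ]
    have h5 := hm ⌊Real.exp q⌋₊ hfl3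
    have h6 : Real.log (Real.log (⌊Real.exp q⌋₊ : ℝ)) ≤ Real.log q := by
      have h7 : (3 : ℝ) ≤ (⌊Real.exp q⌋₊ : ℝ) := by exact_mod_cast hfl3
      apply Real.log_le_log (Real.log_pos (by linarith))
      have h8 := Real.log_le_log (by linarith) (Nat.floor_le (Real.exp_pos q).le)
      rwa [Real.log_exp] at h8
    have he : Real.exp 1 ≤ 3 := by linarith [Real.exp_one_lt_d9]
    have hlq : 0 ≤ Real.log q := Real.log_nonneg (by linarith)
    have h9 : ∑ l ∈ PZ ⌊Real.exp q⌋₊, (1 : ℝ) / l ≤ Real.log q + C := by linarith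
    have h10 : 0 ≤ ∑ l ∈ PZ ⌊Real.exp q⌋₊, (1 : ℝ) / l :=
      Finset.sum_nonneg (fun i _ => by positivity)
    have h11 : 3 * Real.exp 1 ≤ 9 := by linarith
    calc 3 * Real.exp 1 * ∑ l ∈ PZ ⌊Real.exp q⌋₊, (1 : ℝ) / l
        ≤ 9 * ∑ l ∈ PZ ⌊Real.exp q⌋₊, (1 : ℝ) / l := mul_le_mul_of_nonneg_right h11 h10
      _ ≤ 9 * (Real.log q + C) := by linarith
  have h4 : ∑ d ∈ Ds, f d ≤ Real.exp (9 * C) * N ^ 5 := by
    refine h1.trans (h2.trans ((Real.exp_le_exp.mpr h3).trans ?_))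
    have e1 : Real.exp (9 * (Real.log q + C)) = Real.exp (9 * C) * q ^ 9 := by
      rw [mul_add, Real.exp_add, mul_comm]
      congr 1
      rw [show (9 : ℝ) * Real.log q = ((9 : ℕ) : ℝ) * Real.log q by norm_num, ← Real.log_pow,
        Real.exp_log (by positivity)]
    rw [e1]
    apply mul_le_mul_of_nonneg_left _ (Real.exp_pos _).le
    calc q ^ 9 ≤ q ^ 10 := pow_le_pow_right₀ (by linarith) (by norm_num)
      _ = (q * q) ^ 5 := by ring
      _ = N ^ 5 := by rw [hqq]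
  have h5 : ∀ d ∈ Ds, (1 : ℝ) / d ≤ Real.exp (-N ^ (1 / 4 : ℝ)) * f d := by
    intro d hd
    obtain ⟨hd0, -, hd2⟩ := hDs d hd
    have hd0' : (0 : ℝ) < d := by exact_mod_cast Nat.pos_of_ne_zero hd0
    have e : f d = (d : ℝ) ^ η * (1 / d) := by
      rw [hf, Real.rpow_sub_one hd0'.ne']
      ring
    rw [e, ← mul_assoc]
    apply le_mul_of_one_le_left (by positivity)
    rw [Real.rpow_def_of_pos hd0', ← Real.exp_add]
    apply Real.one_le_exp
    have := mul_le_mul_of_nonneg_left hd2 hη0.le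
    rw [hηN] at this
    linarith
  refine (Finset.sum_le_sum h5).trans ?_
  rw [← Finset.mul_sum]
  have := mul_le_mul_of_nonneg_left h4 (Real.exp_pos (-N ^ (1 / 4 : ℝ))).le
  linarith

/-- part of `m` composed of primes outside `LP n` -/
def sm (n m : ℕ) : ℕ := ∏ r ∈ m.primeFactors.filter (fun r => r ∉ LP n), r ^ m.factorization r

/-- complementary part -/
def lg (n m : ℕ) : ℕ := ∏ r ∈ m.primeFactors.filter (fun r => ¬ r ∉ LP n), r ^ m.factorization r

theorem sm_mul_lg (n : ℕ) {m : ℕ} (hm : m ≠ 0) : sm n m * lg n m = m := by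
  unfold sm lg
  rw [Finset.prod_filter_mul_prod_filter_not]
  conv_rhs => rw [← Nat.prod_factorization_pow_eq_self hm]
  rfl

theorem log_sm (n m : ℕ) : Real.log (sm n m) =
    ∑ r ∈ m.primeFactors.filter (fun r => r ∉ LP n), (m.factorization r : ℝ) * Real.log r := by
  unfold sm
  rw [Nat.cast_prod, Real.log_prod (fun r hr => ?_)]
  · refine Finset.sum_congr rfl (fun r _ => ?_)
    push_cast
    rw [Real.log_pow]
  · have := (Nat.prime_of_mem_primeFactors (mem_filter.mp hr).1).pos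
    positivity

theorem sm_prime_dvd {n m r : ℕ} (hr : r.Prime) (h : r ∣ sm n m) : r ∣ m ∧ r ∉ LP n := by
  unfold sm at h
  rw [Prime.dvd_finsetProd_iff hr.prime] at h
  obtain ⟨a, ha, h2⟩ := h
  have h3 := hr.dvd_of_dvd_pow h2
  rw [mem_filter] at ha
  have h4 := (Nat.prime_dvd_prime_iff_eq hr (Nat.prime_of_mem_primeFactors ha.1)).mp h3
  subst h4
  exact ⟨Nat.dvd_of_mem_primeFactors ha.1, ha.2⟩

theorem mem_LP {n r : ℕ} : r ∈ LP n ↔ r.Prime ∧ Real.sqrt (NN n) < Real.log r ∧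
    Real.log r ≤ NN n := by
  unfold LP
  rw [mem_filter, mem_range, Nat.lt_succ_iff]
  constructor
  · rintro ⟨h1, h2, h3⟩
    refine ⟨h2, h3, ?_⟩
    have h4 : (r : ℝ) ≤ Real.exp (NN n) := (Nat.cast_le.mpr h1).trans (Nat.floor_le (Real.exp_pos _).le)
    have h5 := Real.log_le_log (by exact_mod_cast h2.pos) h4
    rwa [Real.log_exp] at h5
  · rintro ⟨h1, h2, h3⟩
    refine ⟨Nat.le_floor ?_, h1, h2⟩
    rw [← Real.exp_log (show (0 : ℝ) < r by exact_mod_cast h1.pos)]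
    exact Real.exp_le_exp.mpr h3



/-- all integers up to `e^N` -/
def YY (n : ℕ) : ℕ := ⌊Real.exp (NN n)⌋₊

theorem sum_YY_le {n : ℕ} (hN : 0 ≤ NN n) : ∑ t ∈ Icc 1 (YY n), (1 : ℝ) / t ≤ 1 + NN n := by
  refine (sum_inv_le _).trans ?_
  have h1 : 1 ≤ YY n := Nat.le_floor (by push_cast; exact Real.one_le_exp hN)
  have h2 : Real.log (YY n) ≤ NN n := by
    have h3 := Real.log_le_log (by exact_mod_cast h1) (Nat.floor_le (Real.exp_pos (NN n)).le)
    rwa [Real.log_exp] at h3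
  linarith

/-- the primes `Q` with large smooth part of `Q - 1` -/
def TS (n : ℕ) : Finset ℕ :=
  (range (YY n + 1)).filter (fun Q => 2 ≤ Q ∧ (NN n) ^ (3 / 4 : ℝ) <
    ∑ r ∈ (Q - 1).primeFactors.filter (fun r => r ∉ LP n),
      ((Q - 1).factorization r : ℝ) * Real.log r)

/-- the primes `Q` with a large square in `Q - 1` -/
def TQ (n : ℕ) : Finset ℕ :=
  (range (YY n + 1)).filter (fun Q => 2 ≤ Q ∧ ∃ r ∈ LP n, r ^ 2 ∣ Q - 1)

theorem TS_sum : ∃ C : ℝ, 1 ≤ C ∧ ∀ n : ℕ, 16 ≤ NN n →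
    ∑ Q ∈ TS n, (1 : ℝ) / Q ≤ C * (NN n) ^ 5 * Real.exp (-(NN n) ^ (1 / 4 : ℝ)) * (1 + NN n) := by
  obtain ⟨C, hC, h⟩ := smooth_bound
  refine ⟨C, hC, fun n hN => ?_⟩
  set Ds : Finset ℕ := (TS n).image (fun Q => sm n (Q - 1)) with hDs
  have h1 := h (NN n) hN Ds (by
    intro d hd
    rw [hDs, mem_image] at hd
    obtain ⟨Q, hQ, rfl⟩ := hd
    rw [TS, mem_filter, mem_range, Nat.lt_succ_iff] at hQ
    obtain ⟨hQ1, hQ2, hQ3⟩ := hQ
    have hne : Q - 1 ≠ 0 := by omega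
    refine ⟨?_, ?_, ?_⟩
    · intro h0
      have := sm_mul_lg n hne
      rw [h0, zero_mul] at this
      exact hne this.symm
    · intro r hr hrd
      obtain ⟨h2, h3⟩ := sm_prime_dvd hr hrd
      by_contra hcon
      apply h3
      rw [mem_LP]
      refine ⟨hr, not_le.mp hcon, ?_⟩
      have h4 : r ≤ Q - 1 := Nat.le_of_dvd (by omega) h2
      have h5 : (r : ℝ) ≤ Real.exp (NN n) := by
        refine le_trans ?_ (Nat.floor_le (Real.exp_pos (NN n)).le)
        exact_mod_cast (by have : YY n = ⌊Real.exp (NN n)⌋₊ := rfl; omega : r ≤ ⌊Real.exp (NN n)⌋₊)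
      have h6 := Real.log_le_log (by exact_mod_cast hr.pos) h5
      rwa [Real.log_exp] at h6
    · rw [log_sm]
      exact hQ3.le)
  have hinj : Set.InjOn (fun Q => (sm n (Q - 1), lg n (Q - 1))) (TS n : Set ℕ) := by
    intro Q hQ Q' hQ' he
    simp only [Prod.mk.injEq] at he
    have hQ2 : 2 ≤ Q := (mem_filter.mp (Finset.mem_coe.mp hQ)).2.1
    have hQ2' : 2 ≤ Q' := (mem_filter.mp (Finset.mem_coe.mp hQ')).2.1
    have e1 := sm_mul_lg n (show Q - 1 ≠ 0 by omega)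
    have e2 := sm_mul_lg n (show Q' - 1 ≠ 0 by omega)
    rw [he.1, he.2, e2] at e1
    omega
  have h2 : ∑ Q ∈ TS n, (1 : ℝ) / Q ≤
      ∑ x ∈ (TS n).image (fun Q => (sm n (Q - 1), lg n (Q - 1))), (1 : ℝ) / x.1 * (1 / x.2) := by
    rw [Finset.sum_image hinj]
    refine Finset.sum_le_sum (fun Q hQ => ?_)
    have hQ2 : 2 ≤ Q := (mem_filter.mp hQ).2.1
    have e1 := sm_mul_lg n (show Q - 1 ≠ 0 by omega)
    have e2 : ((sm n (Q - 1) : ℕ) : ℝ) * (lg n (Q - 1) : ℕ) = ((Q - 1 : ℕ) : ℝ) := by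
      rw [← Nat.cast_mul, e1]
    rw [one_div_mul_one_div, e2]
    apply one_div_le_one_div_of_le
    · exact_mod_cast (by omega : 0 < Q - 1)
    · exact_mod_cast (by omega : Q - 1 ≤ Q)
  have h3 : (TS n).image (fun Q => (sm n (Q - 1), lg n (Q - 1))) ⊆ Ds ×ˢ Icc 1 (YY n) := by
    intro x hx
    rw [mem_image] at hx
    obtain ⟨Q, hQ, rfl⟩ := hx
    rw [mem_product]
    refine ⟨mem_image.mpr ⟨Q, hQ, rfl⟩, ?_⟩
    rw [TS, mem_filter, mem_range, Nat.lt_succ_iff] at hQ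
    obtain ⟨hQ1, hQ2, -⟩ := hQ
    have e1 := sm_mul_lg n (show Q - 1 ≠ 0 by omega)
    have hlg : lg n (Q - 1) ∣ Q - 1 := ⟨sm n (Q - 1), by rw [mul_comm]; exact e1.symm⟩
    rw [mem_Icc]
    constructor
    · exact Nat.pos_of_dvd_of_pos hlg (by omega)
    · exact (Nat.le_of_dvd (by omega) hlg).trans (by omega)
  have h4 : ∑ x ∈ (TS n).image (fun Q => (sm n (Q - 1), lg n (Q - 1))), (1 : ℝ) / x.1 * (1 / x.2) ≤
      (∑ d ∈ Ds, (1 : ℝ) / d) * ∑ t ∈ Icc 1 (YY n), (1 : ℝ) / t := by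
    rw [Finset.sum_mul_sum, ← Finset.sum_product']
    exact Finset.sum_le_sum_of_subset_of_nonneg h3 (fun i _ _ => by positivity)
  refine (h2.trans h4).trans ?_
  apply mul_le_mul h1 (sum_YY_le (by linarith)) (Finset.sum_nonneg (fun i _ => by positivity))
  have : 0 < NN n := by linarith
  positivity

theorem TQ_sum {n : ℕ} (hN : 16 ≤ NN n) :
    ∑ Q ∈ TQ n, (1 : ℝ) / Q ≤ Real.exp (-(Real.sqrt (NN n))) * (1 + NN n) * (1 + NN n) := by
  classical
  set ρ : ℕ → ℕ := fun Q => if h : ∃ r, r ∈ LP n ∧ r ^ 2 ∣ Q - 1 then h.choose else 0 with hρ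
  have hρ1 : ∀ Q ∈ TQ n, ρ Q ∈ LP n ∧ (ρ Q) ^ 2 ∣ Q - 1 := by
    intro Q hQ
    have h := (mem_filter.mp hQ).2.2
    simp only [hρ]
    rw [dif_pos h]
    exact h.choose_spec
  have hQ2 : ∀ Q ∈ TQ n, 2 ≤ Q ∧ Q ≤ YY n := fun Q hQ => by
    rw [TQ, mem_filter, mem_range, Nat.lt_succ_iff] at hQ
    exact ⟨hQ.2.1, hQ.1⟩
  set ψ : ℕ → ℕ × ℕ := fun Q => (ρ Q, (Q - 1) / (ρ Q) ^ 2) with hψ
  have hinj : Set.InjOn ψ (TQ n : Set ℕ) := by
    intro Q hQ Q' hQ' he
    simp only [hψ, Prod.mk.injEq] at he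
    have e1 := Nat.div_mul_cancel (hρ1 Q hQ).2
    have e2 := Nat.div_mul_cancel (hρ1 Q' hQ').2
    rw [he.2, he.1, e2] at e1
    have := (hQ2 Q hQ).1
    have := (hQ2 Q' hQ').1
    omega
  have h2 : ∑ Q ∈ TQ n, (1 : ℝ) / Q ≤
      ∑ x ∈ (TQ n).image ψ, (1 : ℝ) / (x.1 : ℝ) ^ 2 * (1 / x.2) := by
    rw [Finset.sum_image hinj]
    refine Finset.sum_le_sum (fun Q hQ => ?_)
    have h2 := (hQ2 Q hQ).1
    have e1 := Nat.div_mul_cancel (hρ1 Q hQ).2
    have e2 : (((ρ Q) : ℕ) : ℝ) ^ 2 * (((Q - 1) / (ρ Q) ^ 2 : ℕ) : ℝ) = ((Q - 1 : ℕ) : ℝ) := by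
      rw [mul_comm, ← Nat.cast_pow, ← Nat.cast_mul, e1]
    rw [one_div_mul_one_div, e2]
    apply one_div_le_one_div_of_le
    · exact_mod_cast (by omega : 0 < Q - 1)
    · exact_mod_cast (by omega : Q - 1 ≤ Q)
  have h3 : (TQ n).image ψ ⊆ LP n ×ˢ Icc 1 (YY n) := by
    intro x hx
    rw [mem_image] at hx
    obtain ⟨Q, hQ, rfl⟩ := hx
    obtain ⟨h4, h5⟩ := hρ1 Q hQ
    obtain ⟨h6, h7⟩ := hQ2 Q hQ
    rw [mem_product]
    refine ⟨h4, ?_⟩
    rw [mem_Icc]
    have hpos : 0 < (ρ Q) ^ 2 := Nat.pos_of_dvd_of_pos h5 (by omega)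
    refine ⟨(Nat.one_le_div_iff hpos).mpr (Nat.le_of_dvd (by omega) h5), ?_⟩
    exact (Nat.div_le_self _ _).trans (by omega)
  have h4 : ∑ x ∈ (TQ n).image ψ,
      (1 : ℝ) / (x.1 : ℝ) ^ 2 * (1 / x.2) ≤
      (∑ r ∈ LP n, (1 : ℝ) / (r : ℝ) ^ 2) * ∑ t ∈ Icc 1 (YY n), (1 : ℝ) / t := by
    rw [Finset.sum_mul_sum, ← Finset.sum_product']
    exact Finset.sum_le_sum_of_subset_of_nonneg h3 (fun i _ _ => by positivity)
  have h5 : ∑ r ∈ LP n, (1 : ℝ) / (r : ℝ) ^ 2 ≤ Real.exp (-(Real.sqrt (NN n))) * (1 + NN n) := by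
    have h6 : ∀ r ∈ LP n, (1 : ℝ) / (r : ℝ) ^ 2 ≤ Real.exp (-(Real.sqrt (NN n))) * (1 / r) := by
      intro r hr
      rw [mem_LP] at hr
      have hr0 : (0 : ℝ) < r := by exact_mod_cast hr.1.pos
      have h7 : 1 / (r : ℝ) ≤ Real.exp (-(Real.sqrt (NN n))) := by
        rw [Real.exp_neg, ← one_div]
        apply one_div_le_one_div_of_le (Real.exp_pos _)
        rw [← Real.exp_log hr0]
        exact Real.exp_le_exp.mpr hr.2.1.le
      have e : (1 : ℝ) / (r : ℝ) ^ 2 = 1 / r * (1 / r) := by field_simp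
      rw [e]
      exact mul_le_mul_of_nonneg_right h7 (by positivity)
    refine (Finset.sum_le_sum h6).trans ?_
    rw [← Finset.mul_sum]
    apply mul_le_mul_of_nonneg_left _ (Real.exp_pos _).le
    refine le_trans ?_ (sum_YY_le (show 0 ≤ NN n by linarith))
    apply Finset.sum_le_sum_of_subset_of_nonneg
    · intro r hr
      rw [LP, mem_filter, mem_range, Nat.lt_succ_iff] at hr
      rw [mem_Icc]
      exact ⟨hr.2.1.pos, hr.1⟩
    · intro i _ _; positivity
  refine (h2.trans h4).trans ?_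
  apply mul_le_mul h5 (sum_YY_le (by linarith)) (Finset.sum_nonneg (fun i _ => by positivity))
  have : 0 < NN n := by linarith
  positivity

/-- the integers in the range of roots -/
def TL (n : ℕ) : Finset ℕ :=
  (range (YY n + 1)).filter (fun Q => 2 ≤ Q ∧ NN n / 2 ≤ Real.log Q)

/-- dyadic summation -/
theorem TL_sum {n : ℕ} (hN : 16 ≤ NN n) (f : ℕ → ℝ) (hf : ∀ m, 0 ≤ f m) (c : ℝ) (hc : 0 ≤ c)
    (h : ∀ X : ℕ, (NN n) ^ (0.49 : ℝ) ≤ Real.log X → Real.log X ≤ 3 * NN n →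
      ∑ P ∈ Ioc X (2 * X), f P ≤ X * c) :
    ∑ Q ∈ TL n, f Q / Q ≤ (2 * NN n + 1) * c := by
  have hN0 : 0 < NN n := by linarith
  have hlogle : ∀ Q ∈ TL n, Real.log Q ≤ NN n := by
    intro Q hQ
    rw [TL, mem_filter, mem_range, Nat.lt_succ_iff] at hQ
    have h5 : (Q : ℝ) ≤ Real.exp (NN n) := by
      refine le_trans ?_ (Nat.floor_le (Real.exp_pos (NN n)).le)
      exact_mod_cast hQ.1
    have h6 := Real.log_le_log (by exact_mod_cast (by omega : 0 < Q)) h5
    rwa [Real.log_exp] at h6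
  have hl2 : 0.6931 < Real.log 2 := by linarith [Real.log_two_gt_d9]
  have hl2' : Real.log 2 < 0.6932 := by linarith [Real.log_two_lt_d9]
  have hmaps : ∀ Q ∈ TL n, Nat.log 2 (Q - 1) ∈ range (⌊2 * NN n⌋₊ + 1) := by
    intro Q hQ
    have h1 := hlogle Q hQ
    have hQ2 : 2 ≤ Q := (mem_filter.mp hQ).2.1
    rw [mem_range, Nat.lt_succ_iff]
    apply Nat.le_floor
    have h2 : 2 ^ (Nat.log 2 (Q - 1)) ≤ Q - 1 := Nat.pow_log_le_self 2 (by omega)
    have h3 : ((2 : ℝ)) ^ (Nat.log 2 (Q - 1)) ≤ Q := by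
      exact_mod_cast h2.trans (Nat.sub_le _ _)
    have h4 := Real.log_le_log (by positivity) h3
    rw [Real.log_pow] at h4
    have h5 : (0 : ℝ) ≤ (Nat.log 2 (Q - 1) : ℝ) := Nat.cast_nonneg _
    nlinarith
  rw [← Finset.sum_fiberwise_of_maps_to hmaps]
  have hcard : ((range (⌊2 * NN n⌋₊ + 1)).card : ℝ) ≤ 2 * NN n + 1 := by
    rw [card_range]
    push_cast
    linarith [Nat.floor_le (show 0 ≤ 2 * NN n by linarith)]
  refine le_trans ?_ (mul_le_mul_of_nonneg_right hcard hc)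
  rw [← nsmul_eq_mul]
  apply Finset.sum_le_card_nsmul
  intro i _
  by_cases hne : ((TL n).filter (fun Q => Nat.log 2 (Q - 1) = i)).Nonempty
  · obtain ⟨Q₀, hQ₀⟩ := hne
    rw [mem_filter] at hQ₀
    obtain ⟨hQ₀, hi⟩ := hQ₀
    have hmem : ∀ Q ∈ TL n, Nat.log 2 (Q - 1) = i → 2 ^ i < Q ∧ Q ≤ 2 * 2 ^ i := by
      intro Q hQ hQi
      have hQ2 : 2 ≤ Q := (mem_filter.mp hQ).2.1
      have h2 : 2 ^ (Nat.log 2 (Q - 1)) ≤ Q - 1 := Nat.pow_log_le_self 2 (by omega)
      have h3 : Q - 1 < 2 ^ (Nat.log 2 (Q - 1) + 1) := Nat.lt_pow_succ_log_self (by norm_num) _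
      rw [hQi] at h2 h3
      rw [pow_succ] at h3
      omega
    have hX := hmem Q₀ hQ₀ hi
    have hX0 : (0 : ℝ) < ((2 ^ i : ℕ) : ℝ) := by positivity
    have hb := h (2 ^ i) (by
      have h1 := (mem_filter.mp hQ₀).2.2
      have h2 : Real.log Q₀ ≤ Real.log 2 + Real.log ((2 ^ i : ℕ) : ℝ) := by
        rw [← Real.log_mul (by norm_num) hX0.ne']
        apply Real.log_le_log
        · exact_mod_cast (by have := hX.1; omega : 0 < Q₀)
        · exact_mod_cast hX.2
      have h3 : (NN n) ^ (0.49 : ℝ) ≤ (NN n) ^ (1 / 2 : ℝ) :=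
        Real.rpow_le_rpow_of_exponent_le (by linarith) (by norm_num)
      rw [← Real.sqrt_eq_rpow] at h3
      have h4 : Real.sqrt (NN n) ≤ NN n / 2 - 1 := by
        rw [Real.sqrt_le_left (by linarith)]
        nlinarith
      linarith) (by
      have h1 := hlogle Q₀ hQ₀
      have h2 : Real.log ((2 ^ i : ℕ) : ℝ) ≤ Real.log Q₀ := by
        apply Real.log_le_log hX0
        exact_mod_cast hX.1.le
      linarith)
    calc ∑ Q ∈ (TL n).filter (fun Q => Nat.log 2 (Q - 1) = i), f Q / Q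
        ≤ ∑ Q ∈ (TL n).filter (fun Q => Nat.log 2 (Q - 1) = i), f Q / ((2 ^ i : ℕ) : ℝ) := by
          refine Finset.sum_le_sum (fun Q hQ => ?_)
          rw [mem_filter] at hQ
          apply div_le_div_of_nonneg_left (hf Q) hX0
          exact_mod_cast (hmem Q hQ.1 hQ.2).1.le
      _ ≤ ∑ Q ∈ Ioc (2 ^ i) (2 * 2 ^ i), f Q / ((2 ^ i : ℕ) : ℝ) := by
          apply Finset.sum_le_sum_of_subset_of_nonneg
          · intro Q hQ
            rw [mem_filter] at hQ
            exact mem_Ioc.mpr (hmem Q hQ.1 hQ.2)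
          · intro Q _ _
            exact div_nonneg (hf Q) hX0.le
      _ ≤ c := by
          rw [← Finset.sum_div, div_le_iff₀ hX0, mul_comm c]
          exact hb
  · rw [Finset.not_nonempty_iff_eq_empty.mp hne, Finset.sum_empty]
    exact hc



theorem ev_pow (k : ℕ) (c : ℝ) : ∀ᶠ n : ℕ in atTop, c * (n : ℝ) ^ k ≤ (NN n) ^ (1 / 4 : ℝ) := by
  have hlam : lam = 9 / 8 := rfl
  have hl : (1 : ℝ) < lam ^ (1 / 4 : ℝ) := Real.one_lt_rpow (by rw [hlam]; norm_num) (by norm_num)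
  have ht := tendsto_pow_const_div_const_pow_of_one_lt k hl
  have h1 := (tendsto_order.1 ht).2 (1 / (|c| + 1)) (by positivity)
  filter_upwards [h1] with n hn
  have e : (NN n) ^ (1 / 4 : ℝ) = (lam ^ (1 / 4 : ℝ)) ^ n := by
    unfold NN
    rw [← Real.rpow_natCast, ← Real.rpow_natCast, ← Real.rpow_mul (by rw [hlam]; norm_num),
      ← Real.rpow_mul (by rw [hlam]; norm_num), mul_comm]
  rw [e]
  have hpos : (0 : ℝ) < (lam ^ (1 / 4 : ℝ)) ^ n := by positivity
  rw [div_lt_div_iff₀ hpos (by positivity), one_mul] at hn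
  have h2 : c * (n : ℝ) ^ k ≤ (|c| + 1) * (n : ℝ) ^ k := by
    apply mul_le_mul_of_nonneg_right _ (by positivity)
    linarith [le_abs_self c]
  linarith

theorem NN_le_exp (n : ℕ) : NN n ≤ Real.exp n := by
  have h : (lam : ℝ) ≤ Real.exp 1 := by
    have : lam = 9 / 8 := rfl
    rw [this]
    linarith [Real.exp_one_gt_d9]
  unfold NN
  calc lam ^ n ≤ (Real.exp 1) ^ n := pow_le_pow_left₀ (by unfold lam; norm_num) h n
    _ = Real.exp n := by rw [← Real.exp_nat_mul, mul_one]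

theorem numerics (b : ℕ) (C : ℝ) (hC : 1 ≤ C) : ∀ᶠ n : ℕ in atTop, 16 ≤ NN n ∧
    6 * (n : ℝ) ^ (6 * b + 10) ≤ NN n ∧ 1 ≤ (n : ℝ) ∧
    Real.exp ((n : ℝ) ^ (2 * b + 1)) * ((2 * NN n + 1) * Real.exp (-(n : ℝ) ^ (2 * b + 2))) ≤
      Real.exp (-(n : ℝ)) / 2 ∧
    Real.exp ((n : ℝ) ^ (2 * b + 1)) * (Real.exp ((n : ℝ) ^ (2 * b + 3)) *
      (C * (NN n) ^ 5 * Real.exp (-(NN n) ^ (1 / 4 : ℝ)) * (1 + NN n) +
        Real.exp (-(Real.sqrt (NN n))) * (1 + NN n) * (1 + NN n))) ≤ Real.exp (-(n : ℝ)) / 2 := by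
  have hlogC : 0 ≤ Real.log C := Real.log_nonneg hC
  filter_upwards [ev_pow 0 16, ev_pow (6 * b + 10) 6, eventually_ge_atTop 6,
    ev_pow (2 * b + 3) (Real.log C + 20)] with n h1 h2 h3 h4
  have hn : (6 : ℝ) ≤ n := by exact_mod_cast h3
  have hN1 : 1 ≤ NN n := by
    unfold NN
    exact one_le_pow₀ (by unfold lam; norm_num)
  have hN14 : (NN n) ^ (1 / 4 : ℝ) ≤ NN n := by
    have := Real.rpow_le_rpow_of_exponent_le hN1 (show (1 / 4 : ℝ) ≤ 1 by norm_num)
    rwa [Real.rpow_one] at this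
  have hN12 : (NN n) ^ (1 / 4 : ℝ) ≤ Real.sqrt (NN n) := by
    rw [Real.sqrt_eq_rpow]
    exact Real.rpow_le_rpow_of_exponent_le hN1 (by norm_num)
  have hNe := NN_le_exp n
  rw [pow_zero, mul_one] at h1
  have hhalf : Real.exp (-(n : ℝ) - 1) ≤ Real.exp (-(n : ℝ)) / 2 := by
    rw [sub_eq_add_neg, Real.exp_add]
    have : Real.exp (-1 : ℝ) ≤ 1 / 2 := by
      rw [Real.exp_neg, ← one_div]
      apply one_div_le_one_div_of_le (by norm_num)
      linarith [Real.exp_one_gt_d9]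
    have h5 := Real.exp_pos (-(n : ℝ))
    nlinarith
  have hexp1 : 1 ≤ Real.exp (n : ℝ) := Real.one_le_exp (by linarith)
  have hexp2 : (3 : ℝ) ≤ Real.exp 2 := by
    have := Real.add_one_le_exp (2 : ℝ)
    linarith
  have hexp21 : (2 : ℝ) ≤ Real.exp 1 := by linarith [Real.exp_one_gt_d9]
  have hp1 : (1 : ℝ) ≤ (n : ℝ) ^ (2 * b + 1) := one_le_pow₀ (by linarith)
  have hpn : (n : ℝ) ≤ (n : ℝ) ^ (2 * b + 1) := le_self_pow₀ (by linarith) (by omega)
  have hp3 : (n : ℝ) ^ (2 * b + 1) ≤ (n : ℝ) ^ (2 * b + 3) :=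
    pow_le_pow_right₀ (by linarith) (by omega)
  refine ⟨by linarith, by linarith, by linarith, ?_, ?_⟩
  · have e1 : 2 * NN n + 1 ≤ Real.exp (n + 2) := by
      rw [Real.exp_add]
      nlinarith
    calc Real.exp ((n : ℝ) ^ (2 * b + 1)) * ((2 * NN n + 1) * Real.exp (-(n : ℝ) ^ (2 * b + 2)))
        ≤ Real.exp ((n : ℝ) ^ (2 * b + 1)) * (Real.exp (n + 2) * Real.exp (-(n : ℝ) ^ (2 * b + 2))) := by
          gcongr
      _ = Real.exp ((n : ℝ) ^ (2 * b + 1) + (n + 2) - (n : ℝ) ^ (2 * b + 2)) := by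
          rw [← Real.exp_add, ← Real.exp_add]
          ring_nf
      _ ≤ Real.exp (-(n : ℝ) - 1) := by
          apply Real.exp_le_exp.mpr
          have e2 : (n : ℝ) ^ (2 * b + 2) = n * (n : ℝ) ^ (2 * b + 1) := by ring
          rw [e2]
          nlinarith
      _ ≤ _ := hhalf
  · have e1 : 1 + NN n ≤ Real.exp (n + 1) := by
      rw [Real.exp_add]
      nlinarith
    have e0 : 0 ≤ 1 + NN n := by linarith
    have e5 : (NN n) ^ 5 ≤ Real.exp (5 * n) := by
      calc (NN n) ^ 5 ≤ (Real.exp n) ^ 5 := pow_le_pow_left₀ (by linarith) hNe 5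
        _ = Real.exp (5 * n) := by rw [← Real.exp_nat_mul]; norm_num
    have eC : C = Real.exp (Real.log C) := (Real.exp_log (by linarith)).symm
    have f1 : C * (NN n) ^ 5 * Real.exp (-(NN n) ^ (1 / 4 : ℝ)) * (1 + NN n) ≤
        Real.exp (Real.log C + 6 * n + 2 - (NN n) ^ (1 / 4 : ℝ)) := by
      calc C * (NN n) ^ 5 * Real.exp (-(NN n) ^ (1 / 4 : ℝ)) * (1 + NN n)
          ≤ Real.exp (Real.log C) * Real.exp (5 * n) * Real.exp (-(NN n) ^ (1 / 4 : ℝ)) *
              Real.exp (n + 1) := by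
            rw [← eC]
            gcongr
        _ = Real.exp (Real.log C + 5 * n + (-(NN n) ^ (1 / 4 : ℝ)) + (n + 1)) := by
            rw [← Real.exp_add, ← Real.exp_add, ← Real.exp_add]
        _ ≤ _ := by
            apply Real.exp_le_exp.mpr
            linarith
    have f2 : Real.exp (-(Real.sqrt (NN n))) * (1 + NN n) * (1 + NN n) ≤
        Real.exp (Real.log C + 6 * n + 2 - (NN n) ^ (1 / 4 : ℝ)) := by
      calc Real.exp (-(Real.sqrt (NN n))) * (1 + NN n) * (1 + NN n)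
          ≤ Real.exp (-(Real.sqrt (NN n))) * Real.exp (n + 1) * Real.exp (n + 1) := by
            gcongr
        _ = Real.exp (-(Real.sqrt (NN n)) + (n + 1) + (n + 1)) := by
            rw [← Real.exp_add, ← Real.exp_add]
        _ ≤ _ := by
            apply Real.exp_le_exp.mpr
            linarith
    calc Real.exp ((n : ℝ) ^ (2 * b + 1)) * (Real.exp ((n : ℝ) ^ (2 * b + 3)) *
          (C * (NN n) ^ 5 * Real.exp (-(NN n) ^ (1 / 4 : ℝ)) * (1 + NN n) +
            Real.exp (-(Real.sqrt (NN n))) * (1 + NN n) * (1 + NN n)))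
        ≤ Real.exp ((n : ℝ) ^ (2 * b + 1)) * (Real.exp ((n : ℝ) ^ (2 * b + 3)) *
          (Real.exp 1 * Real.exp (Real.log C + 6 * n + 2 - (NN n) ^ (1 / 4 : ℝ)))) := by
          have hpos := Real.exp_pos (Real.log C + 6 * n + 2 - (NN n) ^ (1 / 4 : ℝ))
          gcongr
          nlinarith
      _ = Real.exp ((n : ℝ) ^ (2 * b + 1) + (n : ℝ) ^ (2 * b + 3) + 1 +
            (Real.log C + 6 * n + 2 - (NN n) ^ (1 / 4 : ℝ))) := by
          rw [← Real.exp_add, ← Real.exp_add, ← Real.exp_add]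
          ring_nf
      _ ≤ Real.exp (-(n : ℝ) - 1) := by
          apply Real.exp_le_exp.mpr
          have g1 : Real.log C ≤ Real.log C * (n : ℝ) ^ (2 * b + 3) :=
            le_mul_of_one_le_right hlogC (by linarith)
          linarith
      _ ≤ _ := hhalf

theorem mem_W {n p : ℕ} (hp : p ∈ W n) : p.Prime ∧ NN n < 9 / 8 * Real.log p ∧
    Real.log p ≤ NN n ∧ p ≤ YY n := by
  rw [W, mem_filter, mem_range, Nat.lt_succ_iff] at hp
  exact ⟨hp.2.1, hp.2.2.1, hp.2.2.2, hp.1⟩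

theorem desc_big {b n : ℕ} (hN : 16 ≤ NN n) (h6 : 6 * (n : ℝ) ^ (6 * b + 10) ≤ NN n)
    (hn : 1 ≤ (n : ℝ)) {p Q s : ℕ} (hp : p ∈ W n) (hs : s ≤ KK b n)
    (h : desc (MM b n) s Q p) : NN n / 2 ≤ Real.log Q ∧ Q ≤ YY n ∧ 2 < Q ∧ Q.Prime := by
  obtain ⟨hp1, hp2, hp3, hp4⟩ := mem_W hp
  obtain ⟨-, hQp⟩ := desc_prime h
  have hQ0 : (0 : ℝ) < Q := by exact_mod_cast hQp.pos
  have hM1 : 1 ≤ MM b n := by
    unfold MM
    exact Nat.one_le_ceil_iff.mpr (Real.exp_pos _)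
  have hM1' : (1 : ℝ) ≤ MM b n := by exact_mod_cast hM1
  have hx1 : (1 : ℝ) ≤ (n : ℝ) ^ (4 * b + 8) := one_le_pow₀ hn
  have hMlog : Real.log (MM b n) ≤ 2 * (n : ℝ) ^ (4 * b + 8) := by
    have h1 : (MM b n : ℝ) ≤ Real.exp ((n : ℝ) ^ (4 * b + 8)) + 1 := by
      unfold MM
      exact (Nat.ceil_lt_add_one (Real.exp_pos _).le).le
    have h2 : Real.exp ((n : ℝ) ^ (4 * b + 8)) + 1 ≤ Real.exp ((n : ℝ) ^ (4 * b + 8) + 1) := by
      rw [Real.exp_add]
      have h3 : 1 ≤ Real.exp ((n : ℝ) ^ (4 * b + 8)) := Real.one_le_exp (by linarith)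
      nlinarith [Real.exp_one_gt_d9]
    have h3 := Real.log_le_log (by linarith) (h1.trans h2)
    rw [Real.log_exp] at h3
    linarith
  have h1 : (p : ℝ) ≤ Q * (MM b n : ℝ) ^ s := by exact_mod_cast desc_size h
  have h2 : Real.log p ≤ Real.log Q + s * Real.log (MM b n) := by
    have h3 := Real.log_le_log (by exact_mod_cast hp1.pos) h1
    rwa [Real.log_mul hQ0.ne' (by positivity), Real.log_pow] at h3
  have h3 : (s : ℝ) * Real.log (MM b n) ≤ (n : ℝ) ^ (2 * b + 2) * (2 * (n : ℝ) ^ (4 * b + 8)) := by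
    apply mul_le_mul _ hMlog (Real.log_nonneg hM1') (by positivity)
    have : (s : ℝ) ≤ (KK b n : ℕ) := by exact_mod_cast hs
    refine this.trans (le_of_eq ?_)
    unfold KK
    push_cast
    rfl
  have h4 : (n : ℝ) ^ (2 * b + 2) * (2 * (n : ℝ) ^ (4 * b + 8)) = 2 * (n : ℝ) ^ (6 * b + 10) := by
    rw [mul_left_comm, ← pow_add]
    congr 2
    ring
  have h5 : NN n / 2 ≤ Real.log Q := by linarith
  refine ⟨h5, (desc_le h).trans hp4, ?_, hQp⟩
  by_contra hcon
  have h7 : (Q : ℝ) ≤ 2 := by exact_mod_cast not_lt.mp hcon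
  have h8 := Real.log_le_log hQ0 h7
  linarith [Real.log_two_lt_d9]



end Decomp

open Decomp

theorem decomposition : ∀ b : ℕ, ∃ n₀ : ℕ, ∀ n, n₀ ≤ n → ∀ (G F : ℕ → ℝ),
    (∀ p ∈ W n, 0 ≤ G p ∧ G p ≤ Real.exp ((n : ℝ) ^ (2 * b + 1))) → (∀ Q ∈ NP b n, 0 ≤ F Q) →
    (∀ p ∈ W n, ∀ Q, Good b n p Q → G p ≤ F Q) →
    ∑ p ∈ W n, G p / p ≤ ∑ Q ∈ NP b n, U b n Q / Q * F Q + Real.exp (-(n : ℝ)) := by
  classical
  intro b
  obtain ⟨C, hC, hTS⟩ := TS_sum
  obtain ⟨n₁, hLC⟩ := long_chain b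
  obtain ⟨n₂, hU⟩ := U_le b
  obtain ⟨n₃, hnum⟩ := eventually_atTop.mp (numerics b C hC)
  refine ⟨max n₁ (max n₂ n₃), fun n hn G F hG hF hGF => ?_⟩
  have hLC := hLC n (le_trans (le_max_left _ _) hn)
  have hU := hU n (le_trans (le_trans (le_max_left _ _) (le_max_right _ _)) hn)
  obtain ⟨hN16, h6, hn1, hnumA, hnumB⟩ :=
    hnum n (le_trans (le_trans (le_max_right _ _) (le_max_right _ _)) hn)
  have hTSn := hTS n hN16
  have hTQn := TQ_sum hN16
  set M := MM b n with hM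
  set K := KK b n with hK
  have hUdef : ∀ Q, U b n Q = ∑ s ∈ range (K + 1), uu M s Q := fun Q => rfl
  have hUnn : ∀ Q, 0 ≤ U b n Q := fun Q => by
    rw [hUdef]
    exact Finset.sum_nonneg (fun s _ => Decomp.uu_nonneg _ _ _)
  -- good primes
  have good : ∑ p ∈ (W n).filter (fun p => ∃ Q, Good b n p Q), G p / p ≤
      ∑ Q ∈ NP b n, U b n Q / Q * F Q := by
    have h1 : ∀ p ∈ (W n).filter (fun p => ∃ Q, Good b n p Q), G p / p ≤
        ∑ Q ∈ NP b n, ∑ s ∈ range (K + 1), (if desc M s Q p then (1 : ℝ) / p else 0) * F Q := by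
      intro p hp
      rw [mem_filter] at hp
      obtain ⟨hpW, Q, hQ⟩ := hp
      have h2 := hGF p hpW Q hQ
      obtain ⟨hQN, ⟨s, hs, hd⟩, -⟩ := hQ
      have hp0 : (0 : ℝ) < p := by exact_mod_cast (mem_W hpW).1.pos
      have h3 : G p / p ≤ (if desc M s Q p then (1 : ℝ) / p else 0) * F Q := by
        rw [if_pos hd, one_div, inv_mul_eq_div]
        exact div_le_div_of_nonneg_right h2 hp0.le
      refine h3.trans ?_
      have h4 : ∀ Q' ∈ NP b n, ∀ s' ∈ range (K + 1),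
          0 ≤ (if desc M s' Q' p then (1 : ℝ) / p else 0) * F Q' := by
        intro Q' hQ' s' _
        apply mul_nonneg _ (hF Q' hQ')
        split_ifs <;> positivity
      refine le_trans ?_ (Finset.single_le_sum
        (f := fun Q => ∑ s ∈ range (K + 1), (if desc M s Q p then (1 : ℝ) / p else 0) * F Q)
        (fun Q' hQ' => Finset.sum_nonneg (h4 Q' hQ')) hQN)
      exact Finset.single_le_sum
        (f := fun s => (if desc M s Q p then (1 : ℝ) / p else 0) * F Q) (h4 Q hQN)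
        (mem_range.mpr (by omega))
    refine (Finset.sum_le_sum h1).trans ?_
    rw [Finset.sum_comm]
    refine Finset.sum_le_sum (fun Q hQ => ?_)
    rw [Finset.sum_comm, hUdef, Finset.sum_div, Finset.sum_mul]
    refine Finset.sum_le_sum (fun s _ => ?_)
    rw [← Finset.sum_mul]
    exact mul_le_mul_of_nonneg_right (chain_sum _ s Q) (hF Q hQ)
  -- bad primes
  have bad : ∑ p ∈ (W n).filter (fun p => ¬ ∃ Q, Good b n p Q), G p / p ≤ Real.exp (-(n : ℝ)) := by
    have h1 : ∀ p ∈ (W n).filter (fun p => ¬ ∃ Q, Good b n p Q), G p / p ≤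
        Real.exp ((n : ℝ) ^ (2 * b + 1)) *
          (∑ Q ∈ TL n, (if desc M K Q p then (1 : ℝ) / p else 0) +
            (∑ Q ∈ TS n, ∑ s ∈ range (K + 1), (if desc M s Q p then (1 : ℝ) / p else 0) +
             ∑ Q ∈ TQ n, ∑ s ∈ range (K + 1), (if desc M s Q p then (1 : ℝ) / p else 0))) := by
      intro p hp
      rw [mem_filter] at hp
      obtain ⟨hpW, hbad⟩ := hp
      obtain ⟨hG0, hG1⟩ := hG p hpW
      have hpp := (mem_W hpW).1
      have hp0 : (0 : ℝ) < p := by exact_mod_cast hpp.pos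
      have nn0 : ∀ Q s, (0 : ℝ) ≤ (if desc M s Q p then (1 : ℝ) / p else 0) := by
        intro Q s
        split_ifs <;> positivity
      have nnL : 0 ≤ ∑ Q ∈ TL n, (if desc M K Q p then (1 : ℝ) / p else 0) :=
        Finset.sum_nonneg (fun Q _ => nn0 Q K)
      have nnS : 0 ≤ ∑ Q ∈ TS n, ∑ s ∈ range (K + 1), (if desc M s Q p then (1 : ℝ) / p else 0) :=
        Finset.sum_nonneg (fun Q _ => Finset.sum_nonneg (fun s _ => nn0 Q s))
      have nnQ : 0 ≤ ∑ Q ∈ TQ n, ∑ s ∈ range (K + 1), (if desc M s Q p then (1 : ℝ) / p else 0) :=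
        Finset.sum_nonneg (fun Q _ => Finset.sum_nonneg (fun s _ => nn0 Q s))
      have key : (1 : ℝ) / p ≤ (∑ Q ∈ TL n, (if desc M K Q p then (1 : ℝ) / p else 0) +
            (∑ Q ∈ TS n, ∑ s ∈ range (K + 1), (if desc M s Q p then (1 : ℝ) / p else 0) +
             ∑ Q ∈ TQ n, ∑ s ∈ range (K + 1), (if desc M s Q p then (1 : ℝ) / p else 0))) := by
        have hsingle : ∀ (T : Finset ℕ) (Q s : ℕ), Q ∈ T → s ≤ K → desc M s Q p → (1 : ℝ) / p ≤
            ∑ Q ∈ T, ∑ s ∈ range (K + 1), (if desc M s Q p then (1 : ℝ) / p else 0) := by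
          intro T Q s hQT hsK hd
          refine le_trans ?_ (Finset.single_le_sum
            (f := fun Q => ∑ s ∈ range (K + 1), (if desc M s Q p then (1 : ℝ) / p else 0))
            (fun Q' _ => Finset.sum_nonneg (fun s _ => nn0 Q' s)) hQT)
          refine le_trans ?_ (Finset.single_le_sum
            (f := fun s => (if desc M s Q p then (1 : ℝ) / p else 0))
            (fun s _ => nn0 Q s) (mem_range.mpr (Nat.lt_succ_iff.mpr hsK)))
          rw [if_pos hd]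
        rcases desc_dich (M₀ := M) hpp K with ⟨Q, hQ⟩ | ⟨s, hs, Q, hd, hstop⟩
        · obtain ⟨h2, h3, h4, -⟩ := desc_big hN16 h6 hn1 hpW le_rfl hQ
          have h5 : Q ∈ TL n := by
            rw [TL, mem_filter, mem_range, Nat.lt_succ_iff]
            exact ⟨h3, h4.le, h2⟩
          have h7 := Finset.single_le_sum
            (f := fun Q => (if desc M K Q p then (1 : ℝ) / p else 0)) (fun Q _ => nn0 Q K) h5
          rw [if_pos hQ] at h7
          linarith
        · obtain ⟨h2, h3, h4, h5⟩ := desc_big hN16 h6 hn1 hpW hs.le hd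
          have hstop' : M ≤ (Q - 1) / gpf (Q - 1) := by
            by_contra hcon
            exact hstop ⟨h4, not_le.mp hcon⟩
          by_cases hsq : ∃ r ∈ LP n, r ^ 2 ∣ Q - 1
          · have h7 : Q ∈ TQ n := by
              rw [TQ, mem_filter, mem_range, Nat.lt_succ_iff]
              exact ⟨h3, h4.le, hsq⟩
            have := hsingle _ Q s h7 hs.le hd
            linarith
          · by_cases hsm : (∑ r ∈ (Q - 1).primeFactors.filter (fun r => r ∉ LP n),
              ((Q - 1).factorization r : ℝ) * Real.log r) ≤ (NN n) ^ (3 / 4 : ℝ)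
            · exfalso
              apply hbad
              refine ⟨Q, ?_, ⟨s, hs, hd⟩, hsm⟩
              rw [NP, mem_filter, mem_range, Nat.lt_succ_iff]
              refine ⟨h3, h5, h2, hstop', fun r hr hd => hsq ⟨r, hr, hd⟩⟩
            · have h7 : Q ∈ TS n := by
                rw [TS, mem_filter, mem_range, Nat.lt_succ_iff]
                exact ⟨h3, h4.le, not_le.mp hsm⟩
              have := hsingle _ Q s h7 hs.le hd
              linarith
      calc G p / p = G p * (1 / p) := by ring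
        _ ≤ Real.exp ((n : ℝ) ^ (2 * b + 1)) * _ := mul_le_mul hG1 key (by positivity) (Real.exp_pos _).le
    refine (Finset.sum_le_sum h1).trans ?_
    rw [← Finset.mul_sum, Finset.sum_add_distrib, Finset.sum_add_distrib]
    have hL : ∑ p ∈ (W n).filter (fun p => ¬ ∃ Q, Good b n p Q),
        ∑ Q ∈ TL n, (if desc M K Q p then (1 : ℝ) / p else 0) ≤
        (2 * NN n + 1) * Real.exp (-(n : ℝ) ^ (2 * b + 2)) := by
      rw [Finset.sum_comm]
      refine (Finset.sum_le_sum (fun Q _ => chain_sum _ K Q)).trans ?_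
      exact TL_sum hN16 (fun Q => uu M K Q) (fun m => Decomp.uu_nonneg _ _ _) _
        (Real.exp_pos _).le (fun X hX1 hX2 => hLC X hX1 hX2)
    have hX : ∀ T : Finset ℕ, ∑ p ∈ (W n).filter (fun p => ¬ ∃ Q, Good b n p Q),
        ∑ Q ∈ T, ∑ s ∈ range (K + 1), (if desc M s Q p then (1 : ℝ) / p else 0) ≤
        Real.exp ((n : ℝ) ^ (2 * b + 3)) * ∑ Q ∈ T, (1 : ℝ) / Q := by
      intro T
      rw [Finset.sum_comm, Finset.mul_sum]
      refine Finset.sum_le_sum (fun Q _ => ?_)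
      rw [Finset.sum_comm]
      refine (Finset.sum_le_sum (fun s _ => chain_sum _ s Q)).trans ?_
      rw [← Finset.sum_div, ← hUdef, mul_one_div]
      exact div_le_div_of_nonneg_right (hU Q) (Nat.cast_nonneg _)
    have hS := hX (TS n)
    have hQ := hX (TQ n)
    have hE3 : 0 < Real.exp ((n : ℝ) ^ (2 * b + 3)) := Real.exp_pos _
    have hS' := mul_le_mul_of_nonneg_left hTSn hE3.le
    have hQ' := mul_le_mul_of_nonneg_left hTQn hE3.le
    have hE1 : 0 < Real.exp ((n : ℝ) ^ (2 * b + 1)) := Real.exp_pos _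
    have htot := mul_le_mul_of_nonneg_left (add_le_add hL (add_le_add (hS.trans hS') (hQ.trans hQ'))) hE1.le
    refine htot.trans ?_
    have hring : Real.exp ((n : ℝ) ^ (2 * b + 1)) *
        ((2 * NN n + 1) * Real.exp (-(n : ℝ) ^ (2 * b + 2)) +
          (Real.exp ((n : ℝ) ^ (2 * b + 3)) *
            (C * NN n ^ 5 * Real.exp (-NN n ^ (1 / 4 : ℝ)) * (1 + NN n)) +
          Real.exp ((n : ℝ) ^ (2 * b + 3)) *
            (Real.exp (-√(NN n)) * (1 + NN n) * (1 + NN n)))) =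
        Real.exp ((n : ℝ) ^ (2 * b + 1)) * ((2 * NN n + 1) * Real.exp (-(n : ℝ) ^ (2 * b + 2))) +
        Real.exp ((n : ℝ) ^ (2 * b + 1)) * (Real.exp ((n : ℝ) ^ (2 * b + 3)) *
          (C * (NN n) ^ 5 * Real.exp (-(NN n) ^ (1 / 4 : ℝ)) * (1 + NN n) +
            Real.exp (-(Real.sqrt (NN n))) * (1 + NN n) * (1 + NN n))) := by ring
    rw [hring]
    linarith
  rw [← Finset.sum_filter_add_sum_filter_not (W n) (fun p => ∃ Q, Good b n p Q)]
  exact add_le_add good bad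

end

end Pool.Agent.NTot
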