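import Mathlib

/-!
# Definitions for the normal order of the iterated totient stopping time (MP_628140_nt)

See `/team-store/notes_MP_628140_nt_helper37.md`.
-/

set_option autoImplicit false

namespace Pool.Agent.NTot

open Finset

noncomputable section

/-- ratio of consecutive windows, on the scale of `log p` -/
def lam : ℝ := 9 / 8

/-- `N = lam ^ n` -/
def NN (n : ℕ) : ℝ := lam ^ n

/-- the window `W n`: primes `p` with `lam^(n-1) < log p ≤ lam^n` -/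
def W (n : ℕ) : Finset ℕ :=
  (range (⌊Real.exp (NN n)⌋₊ + 1)).filter
    (fun p => p.Prime ∧ NN n < lam * Real.log p ∧ Real.log p ≤ NN n)

/-- the large primes for `n` -/
def LP (n : ℕ) : Finset ℕ :=
  (range (⌊Real.exp (NN n)⌋₊ + 1)).filter (fun r => r.Prime ∧ Real.sqrt (NN n) < Real.log r)

/-- log-mass in `W n` of the primes satisfying `P` -/
def rho (n : ℕ) (P : ℕ → Prop) : ℝ := by
  classical exact ∑ p ∈ (W n).filter P, (1 : ℝ) / p

/-- moment and chain parameter -/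
def KK (b n : ℕ) : ℕ := n ^ (2 * b + 2)

/-- the threshold `M₀` for special primes -/
def MM (b n : ℕ) : ℕ := ⌈Real.exp ((n : ℝ) ^ (4 * b + 8))⌉₊

/-- weights of special chains of length exactly `s` above `P` -/
def uu (M₀ : ℕ) : ℕ → ℕ → ℝ
  | 0, P => if P.Prime then 1 else 0
  | s + 1, P => if P.Prime then ∑ m ∈ Ico 1 M₀, uu M₀ s (m * P + 1) / m else 0

/-- weight of all special chains of length at most `KK b n` above `P` -/
def U (b n P : ℕ) : ℝ := ∑ s ∈ range (KK b n + 1), uu (MM b n) s P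

/-- primes of the block `(X, 2X]` -/
def PB (X : ℕ) : Finset ℕ := (Ioc X (2 * X)).filter Nat.Prime

/-- the counting function `N_M(t) = ∑_{m ∈ (M,2M]} U(d m t + 1)` -/
def NM (b n d M t : ℕ) : ℝ := ∑ m ∈ Ioc M (2 * M), U b n (d * m * t + 1)

/-- the ratio `d / φ(d)` -/
def dphi (d : ℕ) : ℝ := (d : ℝ) / (Nat.totient d : ℝ)

/-- the primes up to `z` -/
def PZ (z : ℕ) : Finset ℕ := (Icc 1 z).filter Nat.Prime

/-- largest prime factor -/
def gpf (m : ℕ) : ℕ := m.primeFactors.sup id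

/-- normal primes for `n` (no large prime divides `Q - 1` twice) -/
def NP (b n : ℕ) : Finset ℕ :=
  (range (⌊Real.exp (NN n)⌋₊ + 1)).filter
    (fun Q => Q.Prime ∧ NN n / 2 ≤ Real.log Q ∧ MM b n ≤ (Q - 1) / gpf (Q - 1) ∧
      ∀ r ∈ LP n, ¬ r ^ 2 ∣ Q - 1)

/-- the envelope -/
def V (b : ℕ) (E : ℝ) : ℝ := Real.exp (E ^ b) - 1

/-- the `V`-mass of the window `W n` -/
def HH (b : ℕ) (E : ℕ → ℝ) (n : ℕ) : ℝ := ∑ p ∈ W n, V b (E p) / p

/-- `∑_{j ≤ 6} H_{n-j}` -/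
def H7 (b : ℕ) (E : ℕ → ℝ) (n : ℕ) : ℝ := ∑ j ∈ range 7, HH b E (n - j)

/-- the functional `Φ_A(F)` -/
def Phi (n : ℕ) (A : ℕ → ℝ) (F : ℕ → ℝ) : ℝ :=
  ∑ j ∈ range (n + 1),
    (∑ r ∈ W (n - j), F r / r * (1 + j + Real.posLog (F r / A j)) + A j)

/-- the function `A_q(v)`, `v = log m / N` -/
def Aq (b n : ℕ) (E : ℕ → ℝ) (q m : ℕ) : ℝ :=
  Real.exp ((1 - Real.log m / NN n / 2) ^ (b - 1) * (E q) ^ b) - 1

/-- large prime divisors of `m` -/
def lpd (n m : ℕ) : Finset ℕ := (LP n).filter (fun r => r ∣ m)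

/-- `q ∈ W n ∪ ... ∪ W (n-6)` -/
def W7 (n : ℕ) : Finset ℕ := (range 7).biUnion (fun j => W (n - j))

/-- the main sum `T_I` -/
def TI (b n : ℕ) (E h : ℕ → ℝ) : ℝ :=
  ∑ Q ∈ NP b n, U b n Q / Q *
    (if gpf (Q - 1) ∈ W7 n then
      Aq b n E (gpf (Q - 1)) ((Q - 1) / gpf (Q - 1)) *
        ∏ r ∈ lpd n ((Q - 1) / gpf (Q - 1)), (1 + h r) else 0)

/-- the sum `T(F,h)` with a top marked prime weighted by `F` -/
def TT (b n : ℕ) (F h : ℕ → ℝ) : ℝ :=
  ∑ Q ∈ NP b n, U b n Q / Q *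
    ∑ q ∈ lpd n (Q - 1), F q * ∏ r ∈ (lpd n (Q - 1)).filter (· < q), (1 + h r)

/-- special descent: `p` is obtained from `Q` by exactly `s` special steps -/
def desc (M₀ : ℕ) : ℕ → ℕ → ℕ → Prop
  | 0, Q, p => p = Q ∧ Q.Prime
  | s + 1, Q, p => p.Prime ∧ 2 < p ∧ (p - 1) / gpf (p - 1) < M₀ ∧ desc M₀ s Q (gpf (p - 1))

/-- `Q` is a good root of `p` (for the window `n`) -/
def Good (b n p Q : ℕ) : Prop :=
  Q ∈ NP b n ∧ (∃ s, s < KK b n ∧ desc (MM b n) s Q p) ∧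
  (∑ r ∈ (Q - 1).primeFactors.filter (fun r => r ∉ LP n),
      ((Q - 1).factorization r : ℝ) * Real.log r) ≤ (NN n) ^ (3 / 4 : ℝ)

end

end Pool.Agent.NTot
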