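import Pool.Agent.NTot.Defs

/-!
# Frames, levels and the pointwise majorant (definitions)
-/

set_option autoImplicit false

namespace Pool.Agent.NTot

open Finset Filter Topology

noncomputable section

/-- the class of additive functions -/
structure AddFn (Δ D₂ : ℝ) (D : ℕ → ℝ) : Prop where
  mul : ∀ a b, a ≠ 0 → b ≠ 0 → D (a * b) = D a + D b
  nonneg : ∀ n, 1 ≤ n → 0 ≤ D n
  le_log : ∀ n, 1 ≤ n → D n ≤ Δ * Real.log n
  shift : ∀ p, p.Prime → 2 < p → |D p - D (p - 1)| ≤ D₂ / p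

/-- frame data -/
structure Frame where
  (n0 : ℕ) (c0 a L kap : ℝ)

/-- `t₀ = log (lam ^ n0)` -/
def Frame.t0 (f : Frame) : ℝ := Real.log (NN f.n0)

/-- the width `Λ(u)` -/
def Frame.Lam (f : Frame) (u : ℝ) : ℝ :=
  if u ≤ NN f.n0 then (f.a + 1 / f.t0 ^ 2) * (NN f.n0 / u) ^ f.kap
  else f.a * (NN f.n0 / u) ^ f.kap + 1 / (Real.log u) ^ 2

/-- the level `c(u)` -/
def Frame.cc (f : Frame) (u : ℝ) : ℝ :=
  if u ≤ NN f.n0 then f.c0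
  else f.c0 + f.L * (f.a + 1 / f.t0 ^ 2) +
    f.L / Real.log 2 * (f.a * (1 - (NN f.n0 / u) ^ f.kap) / f.kap + 1 / f.t0 - 1 / Real.log u)

/-- the normalised excess of `p` -/
def lev (f : Frame) (D : ℕ → ℝ) (p : ℕ) : ℝ :=
  max 0 (D p / Real.log p - f.cc (Real.log p)) / f.Lam (Real.log p)

/-- light threshold: `ω ≤ w2 b` iff `lam * ω ≤ 2^{-2(b+1)}` -/
def w2 (b : ℕ) : ℝ := (1 / 2) ^ (2 * (b + 1)) / lam

/-- reduced level -/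
def er (w3 Ls ω E : ℝ) : ℝ := if w3 ≤ ω then max 0 (E - Ls) else E

/-- the function `β` -/
def bet (b : ℕ) (w3 Ls ω E : ℝ) : ℝ :=
  if w2 b < ω ∧ ω ≤ 1 / 2 ∧ Ls < E then Real.exp ((1 / 2 : ℝ) ^ (3 / 4 : ℝ) * (er w3 Ls ω E) ^ b) else 0

/-- the function `h` -/
def hfun (b : ℕ) (w3 Ls ω E : ℝ) : ℝ :=
  if ω ≤ w2 b then Real.exp (1 / 4 * (lam * ω) ^ (1 / 4 : ℝ) * (er w3 Ls ω E) ^ b) - 1
  else if ω ≤ 1 / 2 then
    Real.exp ((1 / 2 : ℝ) ^ (3 / 4 : ℝ) * (er w3 Ls ω E) ^ b) - 1 + bet b w3 Ls ω E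
  else 0

/-- `ω_r = log r / N` -/
def omr (n r : ℕ) : ℝ := Real.log r / NN n

/-- weight of the top prime in case II -/
def Qf (b n : ℕ) (E : ℕ → ℝ) (q : ℕ) : ℝ :=
  by classical exact if q ∈ W7 n then Real.exp ((1 - w2 b) ^ (3 / 4 : ℝ) * (E q) ^ b) else 0

/-- the pointwise majorant -/
def Maj (b n : ℕ) (w3 Ls s : ℝ) (E : ℕ → ℝ) (Q : ℕ) : ℝ :=
  2 * ((if gpf (Q - 1) ∈ W7 n then
        Aq b n E (gpf (Q - 1)) ((Q - 1) / gpf (Q - 1)) *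
          ∏ r ∈ lpd n ((Q - 1) / gpf (Q - 1)), (1 + hfun b w3 Ls (omr n r) (E r)) else 0) +
    2 * ∑ q ∈ lpd n (Q - 1), hfun b w3 Ls (omr n q) (E q) *
        ∏ r ∈ (lpd n (Q - 1)).filter (· < q), (1 + hfun b w3 Ls (omr n r) (E r)) +
    1 / s * ∑ q ∈ lpd n (Q - 1), Qf b n E q *
        ∏ r ∈ (lpd n (Q - 1)).filter (· < q),
          (1 + (hfun b w3 Ls (omr n r) (E r) + s * bet b w3 Ls (omr n r) (E r))))

end

end Pool.Agent.NTot
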