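import Pool.Agent.NTot.UMoment
import Pool.Agent.NTot.Basic

/-!
# M8: tiny cofactors
-/

set_option autoImplicit false

namespace Pool.Agent.NTot

open Finset Filter Topology

noncomputable section

namespace Tiny

/-- Young's inequality with exponents `3/2` and `3`. -/
theorem young {x y τ : ℝ} (hx : 0 ≤ x) (hy : 0 ≤ y) (hτ : 0 < τ) :
    x * y ≤ τ * x ^ (3 / 2 : ℝ) + (τ ^ 2)⁻¹ * y ^ 3 := by
  have hc : (3 / 2 : ℝ).HolderConjugate 3 := by
    rw [Real.holderConjugate_iff]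
    constructor
    · norm_num
    · norm_num
  set s : ℝ := τ ^ (2 / 3 : ℝ) with hs
  have hs0 : 0 < s := Real.rpow_pos_of_pos hτ _
  have h1 := Real.young_inequality_of_nonneg (a := s * x) (b := s⁻¹ * y)
    (by positivity) (by positivity) hc
  have e1 : s * x * (s⁻¹ * y) = x * y := by field_simp
  have e2 : (s * x) ^ (3 / 2 : ℝ) = τ * x ^ (3 / 2 : ℝ) := by
    rw [Real.mul_rpow hs0.le hx, hs, ← Real.rpow_mul hτ.le]
    norm_num
  have e3 : (s⁻¹ * y) ^ (3 : ℝ) = (τ ^ 2)⁻¹ * y ^ 3 := by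
    rw [show (3 : ℝ) = ((3 : ℕ) : ℝ) by norm_num, Real.rpow_natCast, mul_pow, inv_pow, hs,
      ← Real.rpow_natCast (τ ^ (2 / 3 : ℝ)) 3, ← Real.rpow_mul hτ.le]
    norm_num
  rw [e1, e2, e3] at h1
  have h2 : 0 ≤ τ * x ^ (3 / 2 : ℝ) := by positivity
  have h3 : 0 ≤ (τ ^ 2)⁻¹ * y ^ 3 := by positivity
  linarith

/-- the third power of a sum, with the diagonal terms separated -/
theorem cube_bound (S : Finset ℕ) (R : Finset ℕ) (w : ℕ → ℝ) (u : ℕ → ℕ → ℝ) (B₁ B₂ wm : ℝ)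
    (hw : ∀ q, 0 ≤ w q) (hwm : ∀ q ∈ S, w q ≤ wm) (hB₁ : 0 ≤ B₁) (hB₂ : 0 ≤ B₂)
    (h1 : ∀ q₁ ∈ S, ∀ q₂ ∈ S, ∀ q₃ ∈ S, q₁ ≠ q₂ → q₁ ≠ q₃ → q₂ ≠ q₃ →
      ∑ r ∈ R, u q₁ r * u q₂ r * u q₃ r ≤ B₁)
    (h2 : ∀ q₁ ∈ S, ∀ q₂ ∈ S, ∀ q₃ ∈ S, ∑ r ∈ R, u q₁ r * u q₂ r * u q₃ r ≤ B₂) :
    ∑ r ∈ R, (∑ q ∈ S, w q * u q r) ^ 3 ≤
      B₁ * (∑ q ∈ S, w q) ^ 3 + 3 * B₂ * wm * (∑ q ∈ S, w q) ^ 2 := by
  classical
  have key : ∀ r, (∑ q ∈ S, w q * u q r) ^ 3 =
      ∑ q₁ ∈ S, ∑ q₂ ∈ S, ∑ q₃ ∈ S, w q₁ * w q₂ * w q₃ * (u q₁ r * u q₂ r * u q₃ r) := by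
    intro r
    rw [pow_succ, pow_two, Finset.sum_mul_sum]
    rw [Finset.sum_mul]
    refine Finset.sum_congr rfl fun q₁ _ => ?_
    rw [Finset.sum_mul]
    refine Finset.sum_congr rfl fun q₂ _ => ?_
    rw [Finset.mul_sum]
    refine Finset.sum_congr rfl fun q₃ _ => ?_
    ring
  have s0 : 0 ≤ ∑ q ∈ S, w q := Finset.sum_nonneg fun q _ => hw q
  calc ∑ r ∈ R, (∑ q ∈ S, w q * u q r) ^ 3
      = ∑ r ∈ R, ∑ q₁ ∈ S, ∑ q₂ ∈ S, ∑ q₃ ∈ S,
          w q₁ * w q₂ * w q₃ * (u q₁ r * u q₂ r * u q₃ r) :=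
        Finset.sum_congr rfl fun r _ => key r
    _ = ∑ q₁ ∈ S, ∑ q₂ ∈ S, ∑ q₃ ∈ S, w q₁ * w q₂ * w q₃ *
          ∑ r ∈ R, (u q₁ r * u q₂ r * u q₃ r) := by
        rw [Finset.sum_comm]
        refine Finset.sum_congr rfl fun q₁ _ => ?_
        rw [Finset.sum_comm]
        refine Finset.sum_congr rfl fun q₂ _ => ?_
        rw [Finset.sum_comm]
        refine Finset.sum_congr rfl fun q₃ _ => ?_
        rw [Finset.mul_sum]
    _ ≤ ∑ q₁ ∈ S, ∑ q₂ ∈ S, ∑ q₃ ∈ S, w q₁ * w q₂ * w q₃ *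
          (B₁ + ((if q₁ = q₂ then B₂ else 0) + (if q₁ = q₃ then B₂ else 0) +
            (if q₂ = q₃ then B₂ else 0))) := by
        refine Finset.sum_le_sum fun q₁ h₁ => Finset.sum_le_sum fun q₂ h₂ =>
          Finset.sum_le_sum fun q₃ h₃ => ?_
        have hw3 : 0 ≤ w q₁ * w q₂ * w q₃ := mul_nonneg (mul_nonneg (hw _) (hw _)) (hw _)
        refine mul_le_mul_of_nonneg_left ?_ hw3
        by_cases c1 : q₁ = q₂
        · have := h2 q₁ h₁ q₂ h₂ q₃ h₃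
          rw [if_pos c1]
          split_ifs <;> linarith
        · by_cases c2 : q₁ = q₃
          · have := h2 q₁ h₁ q₂ h₂ q₃ h₃
            rw [if_pos c2]
            split_ifs <;> linarith
          · by_cases c3 : q₂ = q₃
            · have := h2 q₁ h₁ q₂ h₂ q₃ h₃
              rw [if_pos c3]
              split_ifs <;> linarith
            · have := h1 q₁ h₁ q₂ h₂ q₃ h₃ c1 c2 c3
              rw [if_neg c1, if_neg c2, if_neg c3]
              linarith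
    _ = B₁ * (∑ q ∈ S, w q) ^ 3 + 3 * B₂ * (∑ q ∈ S, w q ^ 2) * (∑ q ∈ S, w q) := by
        have a1 : ∑ q₁ ∈ S, ∑ q₂ ∈ S, ∑ q₃ ∈ S, w q₁ * w q₂ * w q₃ * B₁ =
            B₁ * (∑ q ∈ S, w q) ^ 3 := by
          rw [pow_succ, pow_two, Finset.sum_mul_sum, Finset.sum_mul, Finset.mul_sum]
          refine Finset.sum_congr rfl fun q₁ _ => ?_
          rw [Finset.sum_mul, Finset.mul_sum]
          refine Finset.sum_congr rfl fun q₂ _ => ?_
          rw [Finset.mul_sum, Finset.mul_sum]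
          refine Finset.sum_congr rfl fun q₃ _ => ?_
          ring
        have a2 : ∑ q₁ ∈ S, ∑ q₂ ∈ S, ∑ q₃ ∈ S, w q₁ * w q₂ * w q₃ *
            (if q₁ = q₂ then B₂ else 0) = B₂ * (∑ q ∈ S, w q ^ 2) * (∑ q ∈ S, w q) := by
          rw [mul_assoc, Finset.sum_mul, Finset.mul_sum]
          refine Finset.sum_congr rfl fun q₁ h₁ => ?_
          rw [Finset.sum_eq_single q₁]
          · rw [Finset.mul_sum, Finset.mul_sum]
            refine Finset.sum_congr rfl fun q₃ _ => ?_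
            rw [if_pos rfl]; ring
          · intro q₂ _ hne
            refine Finset.sum_eq_zero fun q₃ _ => ?_
            rw [if_neg (Ne.symm hne), mul_zero]
          · intro h; exact absurd h₁ h
        have a3 : ∑ q₁ ∈ S, ∑ q₂ ∈ S, ∑ q₃ ∈ S, w q₁ * w q₂ * w q₃ *
            (if q₁ = q₃ then B₂ else 0) = B₂ * (∑ q ∈ S, w q ^ 2) * (∑ q ∈ S, w q) := by
          rw [mul_assoc, Finset.sum_mul, Finset.mul_sum]
          refine Finset.sum_congr rfl fun q₁ h₁ => ?_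
          rw [Finset.mul_sum, Finset.mul_sum]
          refine Finset.sum_congr rfl fun q₂ _ => ?_
          rw [Finset.sum_eq_single q₁]
          · rw [if_pos rfl]; ring
          · intro q₃ _ hne
            rw [if_neg (Ne.symm hne), mul_zero]
          · intro h; exact absurd h₁ h
        have a4 : ∑ q₁ ∈ S, ∑ q₂ ∈ S, ∑ q₃ ∈ S, w q₁ * w q₂ * w q₃ *
            (if q₂ = q₃ then B₂ else 0) = B₂ * (∑ q ∈ S, w q ^ 2) * (∑ q ∈ S, w q) := by
          rw [mul_assoc, mul_comm (∑ q ∈ S, w q ^ 2), Finset.sum_mul, Finset.mul_sum]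
          refine Finset.sum_congr rfl fun q₁ h₁ => ?_
          rw [Finset.mul_sum, Finset.mul_sum]
          refine Finset.sum_congr rfl fun q₂ h₂ => ?_
          rw [Finset.sum_eq_single q₂]
          · rw [if_pos rfl]; ring
          · intro q₃ _ hne
            rw [if_neg (Ne.symm hne), mul_zero]
          · intro h; exact absurd h₂ h
        simp only [mul_add, Finset.sum_add_distrib]
        rw [a1, a2, a3, a4]
        ring
    _ ≤ B₁ * (∑ q ∈ S, w q) ^ 3 + 3 * B₂ * wm * (∑ q ∈ S, w q) ^ 2 := by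
        have b1 : ∑ q ∈ S, w q ^ 2 ≤ wm * ∑ q ∈ S, w q := by
          rw [Finset.mul_sum]
          refine Finset.sum_le_sum fun q hq => ?_
          rw [pow_two]
          exact mul_le_mul_of_nonneg_right (hwm q hq) (hw q)
        have b2 : 3 * B₂ * (∑ q ∈ S, w q ^ 2) * (∑ q ∈ S, w q) ≤
            3 * B₂ * (wm * ∑ q ∈ S, w q) * (∑ q ∈ S, w q) := by
          gcongr
        have b3 : 3 * B₂ * (wm * ∑ q ∈ S, w q) * (∑ q ∈ S, w q) =
            3 * B₂ * wm * (∑ q ∈ S, w q) ^ 2 := by ring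
        linarith

theorem log_two_ge : (1 / 2 : ℝ) ≤ Real.log 2 := by
  have := Real.log_two_gt_d9
  linarith

theorem log_two_le_one : Real.log 2 ≤ 1 := by
  have := Real.log_two_lt_d9
  linarith

theorem omA_le {A : Finset ℕ} {l : ℕ} : (omA A l : ℝ) ≤ l := by
  have : omA A l ≤ l := by
    unfold omA
    refine (card_filter_le _ _).trans ?_
    rw [card_range]
  exact_mod_cast this

theorem prod_le_one' (A : Finset ℕ) (z : ℕ) :
    0 ≤ ∏ l ∈ PZ z, (1 - (omA A l : ℝ) / l) ∧ ∏ l ∈ PZ z, (1 - (omA A l : ℝ) / l) ≤ 1 := by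
  have h0 : ∀ l ∈ PZ z, 0 ≤ 1 - (omA A l : ℝ) / l := by
    intro l _
    have := div_le_one_of_le₀ (omA_le (A := A) (l := l)) (Nat.cast_nonneg l)
    linarith
  refine ⟨Finset.prod_nonneg h0, Finset.prod_le_one h0 ?_⟩
  intro l _
  have : 0 ≤ (omA A l : ℝ) / l := by positivity
  linarith

theorem block : ∃ C : ℝ, 1 ≤ C ∧ ∀ b : ℕ, ∃ n₀ : ℕ, ∀ n, n₀ ≤ n → ∀ (a : ℕ) (F₁ : ℕ → ℝ), 1 ≤ a →
    (a : ℝ) ≤ Real.exp (NN n) →
    (∀ r, 0 ≤ F₁ r ∧ F₁ r ≤ Real.exp (KK b n / 8)) →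
    ∀ i : ℕ, NN n ^ (0.49 : ℝ) ≤ i * Real.log 2 → i * Real.log 2 ≤ NN n →
    ∑ r ∈ PB (2 ^ i), (∑ q ∈ LP n, F₁ q / q * U b n (a * q * r + 1)) ^ 3 ≤
      2 ^ i * (C * (n : ℝ) ^ 4 / (i : ℝ) ^ 4 * (∑ q ∈ LP n, F₁ q / q) ^ 3 +
        1 / (6 * NN n ^ 2) * (∑ q ∈ LP n, F₁ q / q) ^ 2) := by
  obtain ⟨C₂, hC₂, hmom⟩ := U_moment
  refine ⟨(8 * C₂) ^ 4, ?_, fun b => ?_⟩
  · have : (1 : ℝ) ≤ 8 * C₂ := by linarith
    exact one_le_pow₀ this
  obtain ⟨n₁, hmom⟩ := hmom b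
  obtain ⟨n₂, hUle⟩ := U_le b
  obtain ⟨n₃, hpoly⟩ := poly_le (2 * b + 3) 20 (1 / 2) (by norm_num)
  refine ⟨max (max n₁ n₂) (max n₃ 3), fun n hn a F₁ ha1 ha2 hF i hi1 hi2 => ?_⟩
  have hn1 : n₁ ≤ n := by omega
  have hn2 : n₂ ≤ n := by omega
  have hn3 : n₃ ≤ n := by omega
  have hn4 : 3 ≤ n := by omega
  have hnR : (3 : ℝ) ≤ n := by exact_mod_cast hn4
  specialize hmom n hn1
  specialize hUle n hn2
  specialize hpoly n hn3
  have hN := NN_pos n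
  have hN1 := one_le_NN n
  have hl2 := log_two_ge
  have hl2' := log_two_le_one
  have hi0 : (0 : ℝ) < i := by
    have h1 : 0 < NN n ^ (0.49 : ℝ) := Real.rpow_pos_of_pos hN _
    by_contra hcon
    have h2 : (i : ℝ) ≤ 0 := not_lt.mp hcon
    nlinarith
  have hlogX : Real.log ((2 ^ i : ℕ) : ℝ) = i * Real.log 2 := by
    push_cast
    rw [Real.log_pow]
  set um : ℝ := Real.exp ((n : ℝ) ^ (2 * b + 3)) with hum
  set wm : ℝ := Real.exp (KK b n / 8 - Real.sqrt (NN n)) with hwm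
  have hw : ∀ q, 0 ≤ F₁ q / q := fun q => div_nonneg (hF q).1 (Nat.cast_nonneg q)
  have hwle : ∀ q ∈ LP n, F₁ q / q ≤ wm := by
    intro q hq
    have hq' := mem_LP.mp hq
    have hq0 : (0 : ℝ) < q := by exact_mod_cast hq'.1.pos
    rw [div_le_iff₀ hq0]
    have h1 : Real.exp (Real.sqrt (NN n)) ≤ q := by
      rw [← Real.exp_log hq0]
      exact Real.exp_le_exp.mpr hq'.2.1.le
    calc F₁ q ≤ Real.exp (KK b n / 8) := (hF q).2
      _ = wm * Real.exp (Real.sqrt (NN n)) := by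
          rw [hwm, ← Real.exp_add]; congr 1; ring
      _ ≤ wm * q := mul_le_mul_of_nonneg_left h1 (Real.exp_pos _).le
  have hU0 : ∀ P, 0 ≤ U b n P := fun P => U_nonneg b n P
  have hum0 : 0 < um := Real.exp_pos _
  set B₁ : ℝ := 2 ^ i * ((8 * C₂) ^ 4 * (n : ℝ) ^ 4 / (i : ℝ) ^ 4) with hB₁
  set B₂ : ℝ := 2 ^ i * um ^ 3 with hB₂
  have hcube := cube_bound (LP n) (PB (2 ^ i)) (fun q => F₁ q / q)
    (fun q r => U b n (a * q * r + 1)) B₁ B₂ wm hw hwle (by positivity) (by positivity)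
    (by
      intro q₁ h₁ q₂ h₂ q₃ h₃ h12 h13 h23
      classical
      have p₁ := mem_LP.mp h₁
      have p₂ := mem_LP.mp h₂
      have p₃ := mem_LP.mp h₃
      have hinj : ∀ {x y : ℕ}, x ≠ y → a * x ≠ a * y := by
        intro x y hxy h
        exact hxy (Nat.eq_of_mul_eq_mul_left (by omega) h)
      set A : Finset ℕ := {a * q₁, a * q₂, a * q₃} with hA
      have hcard : A.card = 3 := by
        rw [hA]
        exact Finset.card_eq_three.mpr ⟨_, _, _, hinj h12, hinj h13, hinj h23, rfl⟩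
      have hKK : 3 ≤ KK b n := by
        unfold KK
        calc 3 ≤ n := hn4
          _ = n ^ 1 := (pow_one n).symm
          _ ≤ n ^ (2 * b + 2) := Nat.pow_le_pow_right (by omega) (by omega)
      have hbd : ∀ q, q ∈ LP n → 1 ≤ a * q ∧ ((a * q : ℕ) : ℝ) ≤ Real.exp (3 * NN n) := by
        intro q hq
        have hq' := mem_LP.mp hq
        have hq0 : (0 : ℝ) < q := by exact_mod_cast hq'.1.pos
        refine ⟨Nat.mul_pos ha1 hq'.1.pos, ?_⟩
        push_cast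
        have h1 : (q : ℝ) ≤ Real.exp (NN n) := by
          rw [← Real.exp_log hq0]
          exact Real.exp_le_exp.mpr hq'.2.2
        calc (a : ℝ) * q ≤ Real.exp (NN n) * Real.exp (NN n) := by gcongr
          _ = Real.exp (2 * NN n) := by rw [← Real.exp_add]; congr 1; ring
          _ ≤ Real.exp (3 * NN n) := Real.exp_le_exp.mpr (by linarith)
      have hm := hmom A (2 ^ i) (by omega) (by omega) (by
        intro x hx
        rw [hA, Finset.mem_insert, Finset.mem_insert, Finset.mem_singleton] at hx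
        rcases hx with rfl | rfl | rfl
        · exact hbd _ h₁
        · exact hbd _ h₂
        · exact hbd _ h₃) (by rw [hlogX]; exact hi1) (by rw [hlogX]; linarith)
      have hprod : ∀ t, ∏ x ∈ A, U b n (x * t + 1) =
          U b n (a * q₁ * t + 1) * U b n (a * q₂ * t + 1) * U b n (a * q₃ * t + 1) := by
        intro t
        rw [hA, Finset.prod_insert, Finset.prod_insert, Finset.prod_singleton]
        · ring
        · rw [Finset.mem_singleton]; exact hinj h23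
        · rw [Finset.mem_insert, Finset.mem_singleton]
          push Not
          exact ⟨hinj h12, hinj h13⟩
      simp only [hprod] at hm
      refine hm.trans ?_
      rw [hcard, hlogX]
      obtain ⟨hp0, hp1⟩ := prod_le_one' A ⌊NN n ^ 2⌋₊
      have hlogN := log_NN_le n
      have hlogN0 := log_NN_nonneg n
      have hq : C₂ * (((3 : ℕ) : ℝ) + 1) * Real.log (NN n) / (i * Real.log 2) ≤
          8 * C₂ * n / i := by
        rw [div_le_div_iff₀ (by positivity) hi0]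
        have e1 : C₂ * (((3 : ℕ) : ℝ) + 1) * Real.log (NN n) * i ≤ C₂ * 4 * n * i := by
          push_cast
          have : C₂ * (3 + 1) * Real.log (NN n) ≤ C₂ * 4 * n := by
            have : C₂ * (3 + 1) * Real.log (NN n) ≤ C₂ * (3 + 1) * n := by gcongr
            linarith
          gcongr
        have e2 : C₂ * 4 * n * i ≤ 8 * C₂ * n * (i * Real.log 2) := by
          have h5 : 0 ≤ C₂ * n * i := by positivity
          nlinarith
        linarith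
      have hq0 : 0 ≤ C₂ * (((3 : ℕ) : ℝ) + 1) * Real.log (NN n) / (i * Real.log 2) := by
        positivity
      calc ((2 ^ i : ℕ) : ℝ) * (∏ l ∈ PZ ⌊NN n ^ 2⌋₊, (1 - (omA A l : ℝ) / l)) *
            (C₂ * (((3 : ℕ) : ℝ) + 1) * Real.log (NN n) / (i * Real.log 2)) ^ (3 + 1)
          ≤ ((2 ^ i : ℕ) : ℝ) * 1 * (8 * C₂ * n / i) ^ (3 + 1) := by gcongr
        _ = B₁ := by
            rw [hB₁, div_pow, mul_pow]
            push_cast
            ring)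
    (by
      intro q₁ h₁ q₂ h₂ q₃ h₃
      have hcardPB : ((PB (2 ^ i)).card : ℝ) ≤ 2 ^ i := by
        have : (PB (2 ^ i)).card ≤ 2 ^ i := by
          unfold PB
          refine (card_filter_le _ _).trans ?_
          rw [Nat.card_Ioc]
          omega
        exact_mod_cast this
      calc ∑ r ∈ PB (2 ^ i), U b n (a * q₁ * r + 1) * U b n (a * q₂ * r + 1) *
            U b n (a * q₃ * r + 1) ≤ ∑ r ∈ PB (2 ^ i), um ^ 3 := by
            refine Finset.sum_le_sum fun r _ => ?_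
            have e1 := hUle (a * q₁ * r + 1)
            have e2 := hUle (a * q₂ * r + 1)
            have e3 := hUle (a * q₃ * r + 1)
            calc U b n (a * q₁ * r + 1) * U b n (a * q₂ * r + 1) * U b n (a * q₃ * r + 1)
                ≤ um * um * um := by
                  refine mul_le_mul (mul_le_mul e1 e2 (hU0 _) hum0.le) e3 (hU0 _) (by positivity)
              _ = um ^ 3 := by ring
        _ = (PB (2 ^ i)).card * um ^ 3 := by rw [Finset.sum_const, nsmul_eq_mul]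
        _ ≤ B₂ := by rw [hB₂]; gcongr)
  refine hcube.trans ?_
  have hsmall : 3 * um ^ 3 * wm ≤ 1 / (6 * NN n ^ 2) := by
    have h1 : um ^ 3 = Real.exp (3 * (n : ℝ) ^ (2 * b + 3)) := by
      rw [hum, ← Real.exp_nat_mul]; norm_num
    rw [h1, hwm]
    have hKKr : (KK b n : ℝ) ≤ (n : ℝ) ^ (2 * b + 3) := by
      unfold KK
      push_cast
      exact pow_le_pow_right₀ (by linarith) (by omega)
    have hnp : (n : ℝ) ≤ (n : ℝ) ^ (2 * b + 3) := by
      calc (n : ℝ) = (n : ℝ) ^ 1 := (pow_one _).symm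
        _ ≤ (n : ℝ) ^ (2 * b + 3) := pow_le_pow_right₀ (by linarith) (by omega)
    have hsq : Real.sqrt (NN n) = NN n ^ (1 / 2 : ℝ) := Real.sqrt_eq_rpow _
    have h2 : NN n = Real.exp (Real.log (NN n)) := (Real.exp_log hN).symm
    have h3 : (6 : ℝ) * NN n ^ 2 ≤ Real.exp (2 + 2 * n) := by
      have e1 : NN n ≤ Real.exp n := by
        rw [h2]; exact Real.exp_le_exp.mpr (log_NN_le n)
      have e2 : (6 : ℝ) ≤ Real.exp 2 := by
        have := Real.exp_one_gt_d9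
        have h : Real.exp 2 = Real.exp 1 * Real.exp 1 := by rw [← Real.exp_add]; norm_num
        rw [h]; nlinarith
      calc (6 : ℝ) * NN n ^ 2 ≤ Real.exp 2 * Real.exp n ^ 2 := by gcongr
        _ = Real.exp (2 + 2 * n) := by
            rw [← Real.exp_nat_mul, ← Real.exp_add]; norm_num
    have h4 : (3 : ℝ) ≤ Real.exp 2 := by
      have := Real.add_one_le_exp (2 : ℝ)
      linarith
    have h5 : 1 / Real.exp (2 + 2 * n) ≤ 1 / (6 * NN n ^ 2) := by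
      apply one_div_le_one_div_of_le (by positivity) h3
    refine le_trans ?_ h5
    rw [one_div, ← Real.exp_neg]
    calc 3 * Real.exp (3 * (n : ℝ) ^ (2 * b + 3)) * Real.exp (KK b n / 8 - Real.sqrt (NN n))
        ≤ Real.exp 2 * Real.exp (3 * (n : ℝ) ^ (2 * b + 3)) *
            Real.exp (KK b n / 8 - Real.sqrt (NN n)) := by gcongr
      _ = Real.exp (2 + 3 * (n : ℝ) ^ (2 * b + 3) + (KK b n / 8 - Real.sqrt (NN n))) := by
          rw [← Real.exp_add, ← Real.exp_add]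
      _ ≤ Real.exp (-(2 + 2 * n)) := by
          apply Real.exp_le_exp.mpr
          rw [hsq]
          nlinarith [hpoly, hKKr, hnp, hnR]
  have hS0 : 0 ≤ (∑ q ∈ LP n, F₁ q / q) ^ 2 := sq_nonneg _
  calc B₁ * (∑ q ∈ LP n, F₁ q / q) ^ 3 + 3 * B₂ * wm * (∑ q ∈ LP n, F₁ q / q) ^ 2
      = 2 ^ i * ((8 * C₂) ^ 4 * (n : ℝ) ^ 4 / (i : ℝ) ^ 4 * (∑ q ∈ LP n, F₁ q / q) ^ 3 +
          (3 * um ^ 3 * wm) * (∑ q ∈ LP n, F₁ q / q) ^ 2) := by
        rw [hB₁, hB₂]; ring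
    _ ≤ _ := by gcongr

/-- the third moment over all the large primes -/
theorem cubes : ∀ b : ℕ, ∃ n₀ : ℕ, ∀ n, n₀ ≤ n → ∀ (a : ℕ) (F₁ : ℕ → ℝ), 1 ≤ a →
    (a : ℝ) ≤ Real.exp (NN n) →
    (∀ r, 0 ≤ F₁ r ∧ F₁ r ≤ Real.exp (KK b n / 8)) →
    ∑ r ∈ LP n, (∑ q ∈ LP n, F₁ q / q * U b n (a * q * r + 1)) ^ 3 / r ≤
      (NN n)⁻¹ * (1 + ∑ q ∈ LP n, F₁ q / q) ^ 3 := by
  obtain ⟨C, hC, hblock⟩ := block
  intro b
  obtain ⟨n₁, hblock⟩ := hblock b
  obtain ⟨n₂, hpoly⟩ := poly_le 4 (4 * C) 0.47 (by norm_num)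
  obtain ⟨n₃, htwo⟩ := poly_le 0 2 0.01 (by norm_num)
  refine ⟨max n₁ (max n₂ n₃), fun n hn a F₁ ha1 ha2 hF => ?_⟩
  have hn1 : n₁ ≤ n := by omega
  have hn2 : n₂ ≤ n := by omega
  have hn3 : n₃ ≤ n := by omega
  specialize hblock n hn1 a F₁ ha1 ha2 hF
  specialize hpoly n hn2
  specialize htwo n hn3
  rw [pow_zero, mul_one] at htwo
  have hN := NN_pos n
  have hN1 := one_le_NN n
  have hl2 := log_two_ge
  have hl2' := log_two_le_one
  set N := NN n with hNdef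
  set S₁ := ∑ q ∈ LP n, F₁ q / q with hS₁
  have hS₁0 : 0 ≤ S₁ := Finset.sum_nonneg fun q _ => div_nonneg (hF q).1 (Nat.cast_nonneg q)
  set M : ℕ → ℝ := fun r => ∑ q ∈ LP n, F₁ q / q * U b n (a * q * r + 1) with hM
  have hM0 : ∀ r, 0 ≤ M r := fun r => Finset.sum_nonneg fun q _ =>
    mul_nonneg (div_nonneg (hF q).1 (Nat.cast_nonneg q)) (U_nonneg b n _)
  have h49 : (0 : ℝ) < N ^ (0.49 : ℝ) := Real.rpow_pos_of_pos hN _
  have h49' : (1 : ℝ) ≤ N ^ (0.49 : ℝ) := Real.one_le_rpow hN1 (by norm_num)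
  have hsq : N ^ (0.49 : ℝ) + 1 ≤ Real.sqrt N := by
    have e : Real.sqrt N = N ^ (0.49 : ℝ) * N ^ (0.01 : ℝ) := by
      rw [Real.sqrt_eq_rpow, ← Real.rpow_add hN]; norm_num
    rw [e]
    nlinarith
  set I : ℕ := ⌈2 * N⌉₊ with hI
  have hIle : (I : ℝ) ≤ 3 * N := by
    have := Nat.ceil_lt_add_one (show (0 : ℝ) ≤ 2 * N by positivity)
    linarith
  have hIge : 2 * N ≤ I := Nat.le_ceil _
  set k : ℕ := ⌈N ^ (0.49 : ℝ)⌉₊ with hk
  have hkge : N ^ (0.49 : ℝ) ≤ k := Nat.le_ceil _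
  have hk1 : 1 ≤ k := by
    have : (1 : ℝ) ≤ k := h49'.trans hkge
    exact_mod_cast this
  rw [sum_dyadic (LP n) (fun r => M r ^ 3 / r) I (by
    intro r hr
    have hr' := mem_LP.mp hr
    refine ⟨hr'.1.one_lt, ?_⟩
    have hr0 : (0 : ℝ) < r := by exact_mod_cast hr'.1.pos
    have h1 : Real.log r ≤ Real.log ((2 : ℝ) ^ I) := by
      rw [Real.log_pow]
      calc Real.log r ≤ N := hr'.2.2
        _ ≤ I * Real.log 2 := by nlinarith
    have h2 : (r : ℝ) ≤ (2 : ℝ) ^ I := (Real.log_le_log_iff hr0 (by positivity)).mp h1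
    exact_mod_cast h2)]
  have hterm : ∀ i ∈ range I, ∑ r ∈ (LP n).filter (fun r => 2 ^ i < r ∧ r ≤ 2 ^ (i + 1)),
      M r ^ 3 / r ≤ (1 + S₁) ^ 3 * ((if i ∈ Finset.Ioo (k - 1) I then
        C * (n : ℝ) ^ 4 / N ^ (0.98 : ℝ) * ((i : ℝ) ^ 2)⁻¹ else 0) + 1 / (6 * N ^ 2)) := by
    intro i hi
    rw [mem_range] at hi
    rcases Finset.eq_empty_or_nonempty
      ((LP n).filter (fun r => 2 ^ i < r ∧ r ≤ 2 ^ (i + 1))) with he | hne
    · rw [he, Finset.sum_empty]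
      have : (0 : ℝ) ≤ (if i ∈ Finset.Ioo (k - 1) I then
        C * (n : ℝ) ^ 4 / N ^ (0.98 : ℝ) * ((i : ℝ) ^ 2)⁻¹ else 0) := by
        split_ifs
        · positivity
        · exact le_rfl
      positivity
    · obtain ⟨r₀, hr₀⟩ := hne
      rw [mem_filter] at hr₀
      obtain ⟨hrL, hr1, hr2⟩ := hr₀
      have hr' := mem_LP.mp hrL
      have hr0 : (0 : ℝ) < r₀ := by exact_mod_cast hr'.1.pos
      have hlog1 : Real.log r₀ ≤ (i + 1) * Real.log 2 := by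
        have h1 : (r₀ : ℝ) ≤ (2 : ℝ) ^ (i + 1) := by exact_mod_cast hr2
        have h2 := Real.log_le_log hr0 h1
        rw [Real.log_pow] at h2
        push_cast at h2
        exact h2
      have hlog2 : i * Real.log 2 ≤ Real.log r₀ := by
        have h1 : ((2 : ℝ) ^ i) ≤ r₀ := by exact_mod_cast hr1.le
        have h2 := Real.log_le_log (by positivity) h1
        rw [Real.log_pow] at h2
        exact h2
      have hlo : N ^ (0.49 : ℝ) ≤ i * Real.log 2 := by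
        have := hr'.2.1
        nlinarith
      have hhi : i * Real.log 2 ≤ N := hlog2.trans hr'.2.2
      have hb := hblock i hlo hhi
      have hi0 : N ^ (0.49 : ℝ) ≤ i := by
        have : (0 : ℝ) ≤ i := Nat.cast_nonneg i
        nlinarith
      have hipos : (0 : ℝ) < i := lt_of_lt_of_le h49 hi0
      have hki : k ≤ i := Nat.ceil_le.mpr hi0
      rw [if_pos (Finset.mem_Ioo.mpr ⟨by omega, hi⟩)]
      have hT1 : 1 ≤ 1 + S₁ := by linarith
      have hS3 : S₁ ^ 3 ≤ (1 + S₁) ^ 3 := by gcongr; linarith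
      have hS2 : S₁ ^ 2 ≤ (1 + S₁) ^ 3 := by
        calc S₁ ^ 2 ≤ (1 + S₁) ^ 2 := by gcongr; linarith
          _ ≤ (1 + S₁) ^ 3 := pow_le_pow_right₀ hT1 (by norm_num)
      have h2i : (0 : ℝ) < 2 ^ i := by positivity
      have hi4 : C * (n : ℝ) ^ 4 / (i : ℝ) ^ 4 ≤
          C * (n : ℝ) ^ 4 / N ^ (0.98 : ℝ) * ((i : ℝ) ^ 2)⁻¹ := by
        rw [← div_eq_mul_inv, div_div]
        have e : N ^ (0.98 : ℝ) * (i : ℝ) ^ 2 ≤ (i : ℝ) ^ 4 := by
          have e1 : N ^ (0.98 : ℝ) = (N ^ (0.49 : ℝ)) ^ 2 := by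
            rw [pow_two, ← Real.rpow_add hN]; norm_num
          rw [e1]
          calc (N ^ (0.49 : ℝ)) ^ 2 * (i : ℝ) ^ 2 ≤ (i : ℝ) ^ 2 * (i : ℝ) ^ 2 := by gcongr
            _ = (i : ℝ) ^ 4 := by ring
        have e0 : 0 < N ^ (0.98 : ℝ) := Real.rpow_pos_of_pos hN _
        apply div_le_div_of_nonneg_left (by positivity) (by positivity) e
      calc ∑ r ∈ (LP n).filter (fun r => 2 ^ i < r ∧ r ≤ 2 ^ (i + 1)), M r ^ 3 / r
          ≤ ∑ r ∈ (LP n).filter (fun r => 2 ^ i < r ∧ r ≤ 2 ^ (i + 1)),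
              M r ^ 3 / 2 ^ i := by
            refine Finset.sum_le_sum fun r hr => ?_
            rw [mem_filter] at hr
            have h1 : ((2 : ℝ) ^ i) ≤ r := by exact_mod_cast hr.2.1.le
            have h2 : 0 ≤ M r ^ 3 := pow_nonneg (hM0 r) 3
            exact div_le_div_of_nonneg_left h2 h2i h1
        _ ≤ ∑ r ∈ PB (2 ^ i), M r ^ 3 / 2 ^ i := by
            refine Finset.sum_le_sum_of_subset_of_nonneg ?_ ?_
            · intro r hr
              rw [mem_filter] at hr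
              rw [mem_PB]
              refine ⟨(mem_LP.mp hr.1).1, hr.2.1, ?_⟩
              have := hr.2.2
              rw [pow_succ] at this
              omega
            · intro r _ _
              have h2 : 0 ≤ M r ^ 3 := pow_nonneg (hM0 r) 3
              positivity
        _ = (∑ r ∈ PB (2 ^ i), M r ^ 3) / 2 ^ i := by rw [Finset.sum_div]
        _ ≤ (2 ^ i * (C * (n : ℝ) ^ 4 / (i : ℝ) ^ 4 * S₁ ^ 3 +
              1 / (6 * N ^ 2) * S₁ ^ 2)) / 2 ^ i := by gcongr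
        _ = C * (n : ℝ) ^ 4 / (i : ℝ) ^ 4 * S₁ ^ 3 + 1 / (6 * N ^ 2) * S₁ ^ 2 := by
            field_simp
        _ ≤ C * (n : ℝ) ^ 4 / N ^ (0.98 : ℝ) * ((i : ℝ) ^ 2)⁻¹ * (1 + S₁) ^ 3 +
              1 / (6 * N ^ 2) * (1 + S₁) ^ 3 := by gcongr
        _ = _ := by ring
  refine (Finset.sum_le_sum hterm).trans ?_
  rw [← Finset.mul_sum, Finset.sum_add_distrib, mul_comm]
  refine mul_le_mul_of_nonneg_right ?_ (by positivity)
  rw [Finset.sum_const, card_range, nsmul_eq_mul]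
  have hfirst : ∑ i ∈ range I, (if i ∈ Finset.Ioo (k - 1) I then
        C * (n : ℝ) ^ 4 / N ^ (0.98 : ℝ) * ((i : ℝ) ^ 2)⁻¹ else 0) ≤ 1 / (2 * N) := by
    rw [← Finset.sum_filter]
    have hfil : (range I).filter (fun i => i ∈ Finset.Ioo (k - 1) I) = Finset.Ioo (k - 1) I := by
      ext i
      rw [mem_filter, mem_range, Finset.mem_Ioo]
      omega
    rw [hfil, ← Finset.mul_sum]
    have hs := sum_Ioo_inv_sq_le (α := ℝ) (k - 1) I
    have hkk : (((k - 1 : ℕ) : ℝ) + 1) = k := by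
      rw [Nat.cast_sub hk1]; push_cast; ring
    rw [hkk] at hs
    have hk0 : (0 : ℝ) < k := by exact_mod_cast hk1
    have e0 : 0 < N ^ (0.98 : ℝ) := Real.rpow_pos_of_pos hN _
    calc C * (n : ℝ) ^ 4 / N ^ (0.98 : ℝ) * ∑ i ∈ Finset.Ioo (k - 1) I, ((i : ℝ) ^ 2)⁻¹
        ≤ C * (n : ℝ) ^ 4 / N ^ (0.98 : ℝ) * (2 / N ^ (0.49 : ℝ)) := by
          have : (2 : ℝ) / k ≤ 2 / N ^ (0.49 : ℝ) := by gcongr
          have h1 := hs.trans this
          gcongr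
      _ = (4 * C * (n : ℝ) ^ 4) / (2 * (N ^ (0.98 : ℝ) * N ^ (0.49 : ℝ))) := by
          field_simp; ring
      _ ≤ N ^ (0.47 : ℝ) / (2 * (N ^ (0.98 : ℝ) * N ^ (0.49 : ℝ))) := by gcongr
      _ = 1 / (2 * N) := by
          have h1 : N ^ (0.98 : ℝ) * N ^ (0.49 : ℝ) = N ^ (0.47 : ℝ) * N := by
            rw [← Real.rpow_add hN]
            nth_rewrite 3 [← Real.rpow_one N]
            rw [← Real.rpow_add hN]; norm_num
          have h2 : 0 < N ^ (0.47 : ℝ) := Real.rpow_pos_of_pos hN _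
          rw [h1]
          field_simp
  have hsecond : (I : ℝ) * (1 / (6 * N ^ 2)) ≤ 1 / (2 * N) := by
    calc (I : ℝ) * (1 / (6 * N ^ 2)) ≤ (3 * N) * (1 / (6 * N ^ 2)) := by gcongr
      _ = 1 / (2 * N) := by field_simp; norm_num
  have hfin : 1 / (2 * N) + 1 / (2 * N) = N⁻¹ := by field_simp; norm_num
  linarith

end Tiny

theorem tiny : ∀ b : ℕ, ∃ n₀ : ℕ, ∀ n, n₀ ≤ n → ∀ (a : ℕ) (F₁ F₂ : ℕ → ℝ), 1 ≤ a →
    (a : ℝ) ≤ Real.exp (NN n) →
    (∀ r, 0 ≤ F₁ r ∧ F₁ r ≤ Real.exp (KK b n / 8)) →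
    (∀ r, 0 ≤ F₂ r ∧ F₂ r ≤ Real.exp (KK b n / 8)) →
    ∑ q ∈ LP n, ∑ r ∈ (LP n).erase q, F₁ q / q * (F₂ r / r) * U b n (a * q * r + 1) ≤
      (NN n) ^ (-(1 / 3) : ℝ) * (1 + ∑ q ∈ LP n, F₁ q / q) *
        (1 + ∑ r ∈ LP n, (F₂ r) ^ (3 / 2 : ℝ) / r) := by
  intro b
  obtain ⟨n₀, hcubes⟩ := Tiny.cubes b
  refine ⟨n₀, fun n hn a F₁ F₂ ha1 ha2 hF₁ hF₂ => ?_⟩
  specialize hcubes n hn a F₁ ha1 ha2 hF₁
  have hN := NN_pos n
  have hN1 := one_le_NN n
  set N := NN n with hNdef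
  set S₁ := ∑ q ∈ LP n, F₁ q / q with hS₁
  have hS₁0 : 0 ≤ S₁ := Finset.sum_nonneg fun q _ => div_nonneg (hF₁ q).1 (Nat.cast_nonneg q)
  set M : ℕ → ℝ := fun r => ∑ q ∈ LP n, F₁ q / q * U b n (a * q * r + 1) with hM
  have hM0 : ∀ r, 0 ≤ M r := fun r => Finset.sum_nonneg fun q _ =>
    mul_nonneg (div_nonneg (hF₁ q).1 (Nat.cast_nonneg q)) (U_nonneg b n _)
  set τ : ℝ := N ^ (-(1 / 3) : ℝ) with hτ
  have hτ0 : 0 < τ := Real.rpow_pos_of_pos hN _
  set T : ℝ := 1 + S₁ with hT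
  have hT1 : 1 ≤ T := by linarith
  have hT0 : 0 < T := by linarith
  have hstep1 : ∑ q ∈ LP n, ∑ r ∈ (LP n).erase q,
      F₁ q / q * (F₂ r / r) * U b n (a * q * r + 1) ≤ ∑ r ∈ LP n, F₂ r / r * M r := by
    calc ∑ q ∈ LP n, ∑ r ∈ (LP n).erase q, F₁ q / q * (F₂ r / r) * U b n (a * q * r + 1)
        ≤ ∑ q ∈ LP n, ∑ r ∈ LP n, F₁ q / q * (F₂ r / r) * U b n (a * q * r + 1) := by
          refine Finset.sum_le_sum fun q _ => ?_
          refine Finset.sum_le_sum_of_subset_of_nonneg (Finset.erase_subset _ _) ?_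
          intro r _ _
          exact mul_nonneg (mul_nonneg (div_nonneg (hF₁ q).1 (Nat.cast_nonneg q))
            (div_nonneg (hF₂ r).1 (Nat.cast_nonneg r))) (U_nonneg b n _)
      _ = ∑ r ∈ LP n, F₂ r / r * M r := by
          rw [Finset.sum_comm]
          refine Finset.sum_congr rfl fun r _ => ?_
          rw [hM, Finset.mul_sum]
          refine Finset.sum_congr rfl fun q _ => ?_
          ring
  have hstep2 : ∀ r ∈ LP n, F₂ r / r * M r ≤
      T * τ * (F₂ r ^ (3 / 2 : ℝ) / r) + (τ ^ 2)⁻¹ * (T ^ 2)⁻¹ * (M r ^ 3 / r) := by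
    intro r hr
    have hr0 : (0 : ℝ) < r := by exact_mod_cast (mem_LP.mp hr).1.pos
    have hy := Tiny.young (hF₂ r).1 (div_nonneg (hM0 r) hT0.le) hτ0
    have h1 : F₂ r / r * M r = T / r * (F₂ r * (M r / T)) := by field_simp
    rw [h1]
    calc T / r * (F₂ r * (M r / T))
        ≤ T / r * (τ * F₂ r ^ (3 / 2 : ℝ) + (τ ^ 2)⁻¹ * (M r / T) ^ 3) := by gcongr
      _ = _ := by field_simp
  have hτ3 : (τ ^ 2)⁻¹ * N⁻¹ = τ := by
    have h1 : N⁻¹ = N ^ (-1 : ℝ) := (Real.rpow_neg_one N).symm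
    rw [h1, hτ, ← Real.rpow_natCast, ← Real.rpow_mul hN.le, ← Real.rpow_neg hN.le,
      ← Real.rpow_add hN]
    norm_num
  calc ∑ q ∈ LP n, ∑ r ∈ (LP n).erase q, F₁ q / q * (F₂ r / r) * U b n (a * q * r + 1)
      ≤ ∑ r ∈ LP n, F₂ r / r * M r := hstep1
    _ ≤ ∑ r ∈ LP n, (T * τ * (F₂ r ^ (3 / 2 : ℝ) / r) +
          (τ ^ 2)⁻¹ * (T ^ 2)⁻¹ * (M r ^ 3 / r)) := Finset.sum_le_sum hstep2
    _ = T * τ * ∑ r ∈ LP n, F₂ r ^ (3 / 2 : ℝ) / r +
          (τ ^ 2)⁻¹ * (T ^ 2)⁻¹ * ∑ r ∈ LP n, M r ^ 3 / r := by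
        rw [Finset.sum_add_distrib, ← Finset.mul_sum, ← Finset.mul_sum]
    _ ≤ T * τ * ∑ r ∈ LP n, F₂ r ^ (3 / 2 : ℝ) / r +
          (τ ^ 2)⁻¹ * (T ^ 2)⁻¹ * (N⁻¹ * T ^ 3) := by gcongr
    _ = T * τ * ∑ r ∈ LP n, F₂ r ^ (3 / 2 : ℝ) / r + ((τ ^ 2)⁻¹ * N⁻¹) * T := by
        field_simp
    _ = τ * T * (1 + ∑ r ∈ LP n, F₂ r ^ (3 / 2 : ℝ) / r) := by
        rw [hτ3]; ring

end

end Pool.Agent.NTot
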