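import Pool.Agent.NTot.Basic
import Pool.Agent.NTot.Tiny

/-!
# Expansion of the products over large prime divisors (common part of M11a, M11b)
-/

set_option autoImplicit false

namespace Pool.Agent.NTot

open Finset Filter Topology

noncomputable section

/-- product of a set of primes -/
def dS (S : Finset ℕ) : ℕ := ∏ r ∈ S, r

theorem dS_pos {S : Finset ℕ} (hS : ∀ r ∈ S, r.Prime) : 0 < dS S :=
  Finset.prod_pos (fun r hr => (hS r hr).pos)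

theorem totient_dS {S : Finset ℕ} (hS : ∀ r ∈ S, r.Prime) :
    (Nat.totient (dS S) : ℝ) = ∏ r ∈ S, ((r : ℝ) - 1) := by
  classical
  induction S using Finset.induction_on with
  | empty => simp [dS]
  | insert a s ha ih =>
    have hs : ∀ r ∈ s, r.Prime := fun r hr => hS r (mem_insert_of_mem hr)
    have hap : a.Prime := hS a (mem_insert_self a s)
    have e : dS (insert a s) = a * dS s := by unfold dS; rw [prod_insert ha]
    have hc : Nat.Coprime a (dS s) := by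
      unfold dS
      refine Nat.Coprime.prod_right (fun r hr => ?_)
      exact (Nat.coprime_primes hap (hs r hr)).mpr (fun h => ha (h ▸ hr))
    rw [e, Nat.totient_mul hc, Nat.totient_prime hap, prod_insert ha, ← ih hs]
    push_cast [Nat.cast_sub hap.one_le]
    ring

theorem prod_one_add_le_exp (s : Finset ℕ) (f g : ℕ → ℝ) (hf : ∀ r ∈ s, 0 ≤ f r)
    (hfg : ∀ r ∈ s, f r ≤ g r) : ∏ r ∈ s, (1 + f r) ≤ Real.exp (∑ r ∈ s, g r) := by
  rw [Real.exp_sum]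
  refine prod_le_prod (fun r hr => by have := hf r hr; linarith) (fun r hr => ?_)
  have h1 := Real.add_one_le_exp (g r)
  have h2 := hfg r hr
  linarith

theorem sum_powerset_prod (s : Finset ℕ) (f : ℕ → ℝ) :
    ∑ S ∈ s.powerset, ∏ r ∈ S, f r = ∏ r ∈ s, (1 + f r) := by
  rw [Finset.prod_one_add]

theorem one_lt_of_LP {n r : ℕ} (hr : r ∈ LP n) : (1 : ℝ) < r := by
  exact_mod_cast (prime_of_mem_LP hr).one_lt

theorem sum_h_div_totient (n : ℕ) (h : ℕ → ℝ) (hh : ∀ r, 0 ≤ h r) :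
    ∑ S ∈ (LP n).powerset, (∏ r ∈ S, h r) / (Nat.totient (dS S) : ℝ) ≤
      Real.exp (∑ r ∈ LP n, h r / (r - 1)) := by
  have e : ∑ S ∈ (LP n).powerset, (∏ r ∈ S, h r) / (Nat.totient (dS S) : ℝ) =
      ∑ S ∈ (LP n).powerset, ∏ r ∈ S, (h r / ((r : ℝ) - 1)) := by
    refine sum_congr rfl (fun S hS => ?_)
    rw [totient_dS (fun r hr => prime_of_mem_LP (mem_powerset.mp hS hr)), prod_div_distrib]
  rw [e, sum_powerset_prod]
  refine prod_one_add_le_exp _ _ _ (fun r hr => ?_) (fun r _ => le_refl _)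
  have := one_lt_of_LP hr
  exact div_nonneg (hh r) (by linarith)

theorem sum_h_div (n : ℕ) (h : ℕ → ℝ) (hh : ∀ r, 0 ≤ h r) :
    ∑ S ∈ (LP n).powerset, (∏ r ∈ S, h r) / (dS S : ℝ) ≤
      Real.exp (∑ r ∈ LP n, h r / (r - 1)) := by
  have e : ∑ S ∈ (LP n).powerset, (∏ r ∈ S, h r) / (dS S : ℝ) =
      ∑ S ∈ (LP n).powerset, ∏ r ∈ S, (h r / (r : ℝ)) := by
    refine sum_congr rfl (fun S hS => ?_)
    unfold dS
    rw [prod_div_distrib]
    push_cast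
    rfl
  rw [e, sum_powerset_prod]
  refine prod_one_add_le_exp _ _ _ (fun r hr => ?_) (fun r hr => ?_)
  · have := one_lt_of_LP hr
    exact div_nonneg (hh r) (by linarith)
  · have := one_lt_of_LP hr
    exact div_le_div_of_nonneg_left (hh r) (by linarith) (by linarith)

theorem sum_le_sum_inj {α β : Type*} [DecidableEq β] (s : Finset α) (t : Finset β) (f : α → ℝ)
    (g : β → ℝ) (i : α → β) (hi : ∀ a ∈ s, i a ∈ t)
    (hinj : ∀ a ∈ s, ∀ a' ∈ s, i a = i a' → a = a') (hf : ∀ a ∈ s, f a ≤ g (i a))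
    (hg : ∀ b ∈ t, 0 ≤ g b) : ∑ a ∈ s, f a ≤ ∑ b ∈ t, g b := by
  calc ∑ a ∈ s, f a ≤ ∑ a ∈ s, g (i a) := sum_le_sum hf
    _ = ∑ b ∈ s.image i, g b := by
        rw [sum_image]
        intro a ha a' ha' h
        exact hinj a ha a' ha' h
    _ ≤ ∑ b ∈ t, g b :=
        sum_le_sum_of_subset_of_nonneg (image_subset_iff.mpr hi) (fun b hb _ => hg b hb)

theorem sup_id_mem {S : Finset ℕ} (h : S.Nonempty) : S.sup id ∈ S := by
  obtain ⟨r, hr, he⟩ := Finset.exists_mem_eq_sup S h id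
  rw [he]; exact hr

theorem harm_bound (b : ℕ) : ∃ n₀ : ℕ, ∀ n, n₀ ≤ n →
    ∑ m ∈ Ico 1 (MM b n), (1 : ℝ) / m ≤ (NN n) ^ (1 / 12 : ℝ) := by
  obtain ⟨n₀, h₀⟩ := poly_le (4 * b + 8) 3 (1 / 12) (by norm_num)
  refine ⟨max n₀ 1, fun n hn => ?_⟩
  have hn0 : n₀ ≤ n := le_trans (le_max_left _ _) hn
  have hn1 : 1 ≤ n := le_trans (le_max_right _ _) hn
  refine le_trans ?_ (h₀ n hn0)
  have hn1' : (1 : ℝ) ≤ (n : ℝ) := by exact_mod_cast hn1
  have hp : (1 : ℝ) ≤ (n : ℝ) ^ (4 * b + 8) := one_le_pow₀ hn1'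
  -- harmonic bound
  have h1 : ∑ m ∈ Ico 1 (MM b n), (1 : ℝ) / m ≤ 1 + Real.log (MM b n) := by
    rcases Nat.eq_zero_or_pos (MM b n) with h | h
    · rw [h]; simp
    · have h2 := harmonic_le_one_add_log (MM b n)
      refine le_trans ?_ h2
      rw [harmonic_eq_sum_Icc]
      push_cast
      have e : ∑ m ∈ Ico 1 (MM b n), (1 : ℝ) / m = ∑ m ∈ Ico 1 (MM b n), ((m : ℝ))⁻¹ :=
        sum_congr rfl (fun m _ => one_div _)
      rw [e]
      refine sum_le_sum_of_subset_of_nonneg ?_ (fun m _ _ => by positivity)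
      intro m hm
      rw [mem_Ico] at hm
      rw [mem_Icc]
      exact ⟨hm.1, hm.2.le⟩
  have h2 : (MM b n : ℝ) ≤ Real.exp ((n : ℝ) ^ (4 * b + 8)) * Real.exp 1 := by
    unfold MM
    have h3 := Nat.ceil_lt_add_one (Real.exp_pos ((n : ℝ) ^ (4 * b + 8))).le
    have h4 : (1 : ℝ) ≤ Real.exp ((n : ℝ) ^ (4 * b + 8)) := Real.one_le_exp (by positivity)
    have h5 : (2 : ℝ) ≤ Real.exp 1 := by
      have := Real.add_one_le_exp (1 : ℝ); linarith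
    nlinarith
  have h3 : Real.log (MM b n) ≤ (n : ℝ) ^ (4 * b + 8) + 1 := by
    rcases Nat.eq_zero_or_pos (MM b n) with h | h
    · rw [h]; simp only [Nat.cast_zero, Real.log_zero]; positivity
    · rw [← Real.exp_add] at h2
      have := Real.log_le_log (by exact_mod_cast h) h2
      rwa [Real.log_exp] at this
  linarith

theorem triple_facts {b n Q q : ℕ} {S : Finset ℕ} (hQ : Q ∈ NP b n) (hq : q ∈ LP n)
    (hqd : q ∣ Q - 1) (hS : S ⊆ lpd n ((Q - 1) / q)) :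
    (Q - 1) / q = dS S * ((Q - 1) / q / dS S) ∧ 1 ≤ (Q - 1) / q / dS S ∧
      Q = dS S * q * ((Q - 1) / q / dS S) + 1 ∧ q ∉ S ∧
      (((Q - 1) / q : ℕ) : ℝ) ≤ Real.exp (NN n) ∧ MM b n ≤ (Q - 1) / q ∧
      (∀ r ∈ S, r ∈ LP n) ∧ 1 ≤ (Q - 1) / q ∧ 1 ≤ dS S := by
  obtain ⟨hQp, hQ1, hQ2, hQ3, hQ4⟩ := mem_NP.mp hQ
  have hqp := prime_of_mem_LP hq
  have hk : 0 < Q - 1 := by have := hQp.two_le; omega
  have hkm : q * ((Q - 1) / q) = Q - 1 := Nat.mul_div_cancel' hqd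
  have hm : 0 < (Q - 1) / q := Nat.div_pos (Nat.le_of_dvd hk hqd) hqp.pos
  have hSp : ∀ r ∈ S, r.Prime := fun r hr => prime_of_mem_LP (mem_lpd.mp (hS hr)).1
  have hdvd : dS S ∣ (Q - 1) / q := by
    unfold dS
    exact Finset.prod_primes_dvd _ (fun r hr => (hSp r hr).prime)
      (fun r hr => (mem_lpd.mp (hS hr)).2)
  have hd0 : 0 < dS S := dS_pos hSp
  have e1 : dS S * ((Q - 1) / q / dS S) = (Q - 1) / q := Nat.mul_div_cancel' hdvd
  have hm' : 0 < (Q - 1) / q / dS S := Nat.div_pos (Nat.le_of_dvd hm hdvd) hd0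
  refine ⟨e1.symm, hm', ?_, ?_, ?_, ?_, fun r hr => (mem_lpd.mp (hS hr)).1, hm, hd0⟩
  · have e2 : dS S * q * ((Q - 1) / q / dS S) = Q - 1 := by
      rw [show dS S * q * ((Q - 1) / q / dS S) = q * (dS S * ((Q - 1) / q / dS S)) by ring, e1, hkm]
    omega
  · intro hqS
    have h1 := (mem_lpd.mp (hS hqS)).2
    refine hQ4 q hq ?_
    rw [pow_two, ← hkm]
    exact Nat.mul_dvd_mul_left q h1
  · have h1 : (Q - 1) / q ≤ Q := le_trans (Nat.div_le_self _ _) (Nat.sub_le _ _)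
    have h2 : (Q : ℝ) ≤ Real.exp (NN n) := by
      have hQ0 : (0 : ℝ) < Q := by exact_mod_cast hQp.pos
      rw [← Real.exp_log hQ0]
      exact Real.exp_le_exp.mpr hQ2
    exact le_trans (by exact_mod_cast h1) h2
  · refine le_trans hQ3 (Nat.div_le_div_left ?_ hqp.pos)
    have : q ∈ (Q - 1).primeFactors := Nat.mem_primeFactors.mpr ⟨hqp, hqd, hk.ne'⟩
    exact Finset.le_sup (f := id) this

/-- hypotheses for the expansion -/
structure ExpData (b n : ℕ) (T0 : Finset ℕ) (T : ℕ → Finset ℕ) (R : ℕ → ℕ → Finset ℕ)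
    (f : ℕ → ℕ → ℝ) (F1 h : ℕ → ℝ) : Prop where
  T0_sub : T0 ⊆ LP n
  T_sub : ∀ Q ∈ NP b n, T Q ⊆ T0
  T_dvd : ∀ Q ∈ NP b n, ∀ q ∈ T Q, q ∣ Q - 1
  R_sub : ∀ Q ∈ NP b n, ∀ q ∈ T Q, R Q q ⊆ lpd n ((Q - 1) / q)
  f_nonneg : ∀ q ∈ T0, ∀ m : ℕ, 1 ≤ m → (m : ℝ) ≤ Real.exp (NN n) → 0 ≤ f q m
  f_le : ∀ q ∈ T0, ∀ m : ℕ, 1 ≤ m → (m : ℝ) ≤ Real.exp (NN n) → f q m ≤ F1 q
  f_anti : ∀ q ∈ T0, ∀ m m' : ℕ, 1 ≤ m' → m' ≤ m → (m : ℝ) ≤ Real.exp (NN n) → f q m ≤ f q m'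
  F1b : ∀ r, 0 ≤ F1 r ∧ F1 r ≤ Real.exp (KK b n / 8)
  hb : ∀ r, 0 ≤ h r ∧ h r ≤ Real.exp (KK b n / 8)

/-- the index set of the expansion -/
def src (b n : ℕ) (T : ℕ → Finset ℕ) (R : ℕ → ℕ → Finset ℕ) :
    Finset (Σ _ : ℕ, Σ _ : ℕ, Finset ℕ) :=
  (NP b n).sigma (fun Q => (T Q).sigma (fun q => (R Q q).powerset))

/-- the cofactor -/
def cof (x : Σ _ : ℕ, Σ _ : ℕ, Finset ℕ) : ℕ := (x.1 - 1) / x.2.1 / dS x.2.2

/-- the summand -/
def xwt (b n : ℕ) (f : ℕ → ℕ → ℝ) (h : ℕ → ℝ) (x : Σ _ : ℕ, Σ _ : ℕ, Finset ℕ) : ℝ :=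
  U b n x.1 / x.1 * (f x.2.1 ((x.1 - 1) / x.2.1) * ∏ r ∈ x.2.2, h r)

theorem lhs_eq (b n : ℕ) (T : ℕ → Finset ℕ) (R : ℕ → ℕ → Finset ℕ) (f : ℕ → ℕ → ℝ) (h : ℕ → ℝ) :
    ∑ Q ∈ NP b n, U b n Q / Q * ∑ q ∈ T Q, f q ((Q - 1) / q) * ∏ r ∈ R Q q, (1 + h r) =
      ∑ x ∈ src b n T R, xwt b n f h x := by
  unfold src
  rw [Finset.sum_sigma]
  refine sum_congr rfl (fun Q _ => ?_)
  rw [Finset.sum_sigma, mul_sum]
  refine sum_congr rfl (fun q _ => ?_)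
  rw [← sum_powerset_prod, mul_sum, mul_sum]
  rfl

theorem mem_src {b n : ℕ} {T : ℕ → Finset ℕ} {R : ℕ → ℕ → Finset ℕ}
    {x : Σ _ : ℕ, Σ _ : ℕ, Finset ℕ} :
    x ∈ src b n T R ↔ x.1 ∈ NP b n ∧ x.2.1 ∈ T x.1 ∧ x.2.2 ⊆ R x.1 x.2.1 := by
  unfold src
  rw [mem_sigma, mem_sigma, mem_powerset]

theorem src_facts {b n : ℕ} {T0 : Finset ℕ} {T : ℕ → Finset ℕ} {R : ℕ → ℕ → Finset ℕ}
    {f : ℕ → ℕ → ℝ} {F1 h : ℕ → ℝ} (H : ExpData b n T0 T R f F1 h)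
    {x : Σ _ : ℕ, Σ _ : ℕ, Finset ℕ} (hx : x ∈ src b n T R) :
    (x.1 - 1) / x.2.1 = dS x.2.2 * cof x ∧ 1 ≤ cof x ∧
      x.1 = dS x.2.2 * x.2.1 * cof x + 1 ∧ x.2.1 ∉ x.2.2 ∧
      (((x.1 - 1) / x.2.1 : ℕ) : ℝ) ≤ Real.exp (NN n) ∧ MM b n ≤ (x.1 - 1) / x.2.1 ∧
      (∀ r ∈ x.2.2, r ∈ LP n) ∧ 1 ≤ (x.1 - 1) / x.2.1 ∧ 1 ≤ dS x.2.2 ∧ x.2.1 ∈ T0 ∧
      x.2.1 ∈ LP n := by
  obtain ⟨h1, h2, h3⟩ := mem_src.mp hx
  have h4 : x.2.1 ∈ T0 := H.T_sub _ h1 h2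
  have h5 : x.2.1 ∈ LP n := H.T0_sub h4
  obtain ⟨a1, a2, a3, a4, a5, a6, a7, a8, a9⟩ := triple_facts h1 h5 (H.T_dvd _ h1 _ h2)
    (h3.trans (H.R_sub _ h1 _ h2))
  exact ⟨a1, a2, a3, a4, a5, a6, a7, a8, a9, h4, h5⟩

theorem partA {b n : ℕ} {T0 : Finset ℕ} {T : ℕ → Finset ℕ} {R : ℕ → ℕ → Finset ℕ}
    {f : ℕ → ℕ → ℝ} {F1 h : ℕ → ℝ} (H : ExpData b n T0 T R f F1 h) (hM : 1 ≤ MM b n) :
    ∑ x ∈ (src b n T R).filter (fun x => MM b n ≤ cof x), xwt b n f h x ≤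
      ∑ S ∈ (LP n).powerset.filter (fun S => (dS S : ℝ) ≤ Real.exp (NN n)),
        (∏ r ∈ S, h r) / (dS S : ℝ) *
          ∑ q ∈ T0, ∑ m ∈ Icc (MM b n) ⌊Real.exp (NN n)⌋₊,
            (1 : ℝ) / (q * m) * f q m * U b n (dS S * q * m + 1) := by
  classical
  set g : Finset ℕ × ℕ × ℕ → ℝ := fun y => (∏ r ∈ y.1, h r) / (dS y.1 : ℝ) *
    ((1 : ℝ) / (y.2.1 * y.2.2) * f y.2.1 y.2.2 * U b n (dS y.1 * y.2.1 * y.2.2 + 1)) with hg
  have e : ∑ S ∈ (LP n).powerset.filter (fun S => (dS S : ℝ) ≤ Real.exp (NN n)),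
        (∏ r ∈ S, h r) / (dS S : ℝ) *
          ∑ q ∈ T0, ∑ m ∈ Icc (MM b n) ⌊Real.exp (NN n)⌋₊,
            (1 : ℝ) / (q * m) * f q m * U b n (dS S * q * m + 1) =
      ∑ y ∈ ((LP n).powerset.filter (fun S => (dS S : ℝ) ≤ Real.exp (NN n))) ×ˢ
        (T0 ×ˢ Icc (MM b n) ⌊Real.exp (NN n)⌋₊), g y := by
    rw [sum_product]
    refine sum_congr rfl (fun S _ => ?_)
    rw [sum_product, mul_sum]
    refine sum_congr rfl (fun q _ => ?_)
    rw [mul_sum]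
  rw [e]
  have hdiv : ∀ (A B : ℕ), 1 ≤ A → 1 ≤ B → A ≤ A * B := fun A B _ hB => Nat.le_mul_of_pos_right A hB
  refine sum_le_sum_inj _ _ _ g (fun x => (x.2.2, x.2.1, cof x)) ?_ ?_ ?_ ?_
  · intro x hx
    obtain ⟨hx1, hx2⟩ := mem_filter.mp hx
    obtain ⟨a1, a2, a3, a4, a5, a6, a7, a8, a9, a10, a11⟩ := src_facts H hx1
    rw [mem_product, mem_product, mem_filter, mem_powerset, mem_Icc]
    refine ⟨⟨fun r hr => a7 r hr, ?_⟩, a10, hx2, ?_⟩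
    · refine le_trans ?_ a5
      rw [a1]
      exact_mod_cast hdiv _ _ a9 a2
    · apply Nat.le_floor
      refine le_trans ?_ a5
      rw [a1]
      exact_mod_cast Nat.le_mul_of_pos_left _ a9
  · intro x hx x' hx' hxx
    obtain ⟨hx1, hx2⟩ := mem_filter.mp hx
    obtain ⟨hx1', hx2'⟩ := mem_filter.mp hx'
    obtain ⟨a1, a2, a3, a4, a5, a6, a7, a8, a9, a10, a11⟩ := src_facts H hx1
    obtain ⟨c1, c2, c3, c4, c5, c6, c7, c8, c9, c10, c11⟩ := src_facts H hx1'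
    simp only [Prod.mk.injEq] at hxx
    obtain ⟨e1, e2, e3⟩ := hxx
    have e4 : x.1 = x'.1 := by rw [a3, c3, e1, e2, e3]
    obtain ⟨x1, x2, x3⟩ := x
    obtain ⟨y1, y2, y3⟩ := x'
    simp only at e1 e2 e4
    subst e1 e2 e4
    rfl
  · intro x hx
    obtain ⟨hx1, hx2⟩ := mem_filter.mp hx
    obtain ⟨a1, a2, a3, a4, a5, a6, a7, a8, a9, a10, a11⟩ := src_facts H hx1
    have hle : cof x ≤ (x.1 - 1) / x.2.1 := by rw [a1]; exact Nat.le_mul_of_pos_left _ a9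
    have hf := H.f_anti _ a10 _ _ a2 hle a5
    have hcexp : ((cof x : ℕ) : ℝ) ≤ Real.exp (NN n) := le_trans (by exact_mod_cast hle) a5
    have hf0 := H.f_nonneg _ a10 _ a2 hcexp
    have hf0' := H.f_nonneg _ a10 _ a8 a5
    have hU := U_nonneg b n x.1
    have hh : 0 ≤ ∏ r ∈ x.2.2, h r := prod_nonneg (fun r _ => (H.hb r).1)
    have hq : (0 : ℝ) < x.2.1 := by exact_mod_cast (prime_of_mem_LP a11).pos
    have hc : (0 : ℝ) < cof x := by exact_mod_cast a2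
    have hd : (0 : ℝ) < dS x.2.2 := by exact_mod_cast a9
    have hQ : (dS x.2.2 * x.2.1 * cof x : ℝ) ≤ x.1 := by
      have : ((dS x.2.2 * x.2.1 * cof x : ℕ) : ℝ) ≤ x.1 := by
        exact_mod_cast (by omega : dS x.2.2 * x.2.1 * cof x ≤ x.1)
      push_cast at this
      exact this
    simp only [hg, xwt]
    rw [← a3]
    calc U b n x.1 / x.1 * (f x.2.1 ((x.1 - 1) / x.2.1) * ∏ r ∈ x.2.2, h r)
        ≤ U b n x.1 / (dS x.2.2 * x.2.1 * cof x : ℝ) * (f x.2.1 (cof x) * ∏ r ∈ x.2.2, h r) := by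
          refine mul_le_mul ?_ ?_ ?_ ?_
          · exact div_le_div_of_nonneg_left hU (by positivity) hQ
          · exact mul_le_mul_of_nonneg_right hf hh
          · positivity
          · positivity
      _ = _ := by field_simp
  · rintro ⟨S, q, m⟩ hy
    rw [mem_product, mem_product, mem_filter, mem_powerset, mem_Icc] at hy
    obtain ⟨⟨h1, h2⟩, h3, h4, h5⟩ := hy
    simp only [hg]
    have hh : 0 ≤ ∏ r ∈ S, h r := prod_nonneg (fun r _ => (H.hb r).1)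
    have hm : (m : ℝ) ≤ Real.exp (NN n) := (Nat.le_floor_iff (Real.exp_pos _).le).mp h5
    have hf0 := H.f_nonneg q h3 m (le_trans hM h4) hm
    have hU := U_nonneg b n (dS S * q * m + 1)
    positivity

theorem partB {b n : ℕ} {T0 : Finset ℕ} {T : ℕ → Finset ℕ} {R : ℕ → ℕ → Finset ℕ}
    {f : ℕ → ℕ → ℝ} {F1 h : ℕ → ℝ} (H : ExpData b n T0 T R f F1 h) :
    ∑ x ∈ (src b n T R).filter (fun x => ¬ MM b n ≤ cof x), xwt b n f h x ≤
      ∑ y ∈ ((LP n).powerset ×ˢ Ico 1 (MM b n)).filter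
          (fun y => ((dS y.1 * y.2 : ℕ) : ℝ) ≤ Real.exp (NN n)),
        (∏ r ∈ y.1, h r) / (dS y.1 : ℝ) * (1 / y.2) *
          ∑ q ∈ LP n, ∑ r ∈ (LP n).erase q,
            F1 q / q * (h r / r) * U b n (dS y.1 * y.2 * q * r + 1) := by
  classical
  set g : (Finset ℕ × ℕ) × (Σ _ : ℕ, ℕ) → ℝ := fun y => (∏ r ∈ y.1.1, h r) / (dS y.1.1 : ℝ) *
    (1 / y.1.2) * (F1 y.2.1 / y.2.1 * (h y.2.2 / y.2.2) *
      U b n (dS y.1.1 * y.1.2 * y.2.1 * y.2.2 + 1)) with hg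
  have e : ∑ y ∈ ((LP n).powerset ×ˢ Ico 1 (MM b n)).filter
          (fun y => ((dS y.1 * y.2 : ℕ) : ℝ) ≤ Real.exp (NN n)),
        (∏ r ∈ y.1, h r) / (dS y.1 : ℝ) * (1 / y.2) *
          ∑ q ∈ LP n, ∑ r ∈ (LP n).erase q,
            F1 q / q * (h r / r) * U b n (dS y.1 * y.2 * q * r + 1) =
      ∑ y ∈ (((LP n).powerset ×ˢ Ico 1 (MM b n)).filter
          (fun y => ((dS y.1 * y.2 : ℕ) : ℝ) ≤ Real.exp (NN n))) ×ˢ
        ((LP n).sigma (fun q => (LP n).erase q)), g y := by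
    rw [sum_product]
    refine sum_congr rfl (fun y _ => ?_)
    rw [sum_sigma, mul_sum]
    refine sum_congr rfl (fun q _ => ?_)
    rw [mul_sum]
  rw [e]
  have key : ∀ x ∈ (src b n T R).filter (fun x => ¬ MM b n ≤ cof x),
      x.2.2.sup id ∈ x.2.2 := by
    intro x hx
    obtain ⟨hx1, hx2⟩ := mem_filter.mp hx
    obtain ⟨a1, a2, a3, a4, a5, a6, a7, a8, a9, a10, a11⟩ := src_facts H hx1
    apply sup_id_mem
    rw [Finset.nonempty_iff_ne_empty]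
    intro h0
    rw [h0] at a1
    have : dS ∅ = 1 := by simp [dS]
    rw [this, one_mul] at a1
    rw [a1] at a6
    exact hx2 a6
  have hprod : ∀ x ∈ (src b n T R).filter (fun x => ¬ MM b n ≤ cof x),
      dS x.2.2 = x.2.2.sup id * dS (x.2.2.erase (x.2.2.sup id)) := by
    intro x hx
    unfold dS
    exact (Finset.mul_prod_erase x.2.2 (fun r => r) (key x hx)).symm
  refine sum_le_sum_inj _ _ _ g
    (fun x => ((x.2.2.erase (x.2.2.sup id), cof x), ⟨x.2.1, x.2.2.sup id⟩)) ?_ ?_ ?_ ?_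
  · intro x hx
    have hk := key x hx
    have hp := hprod x hx
    obtain ⟨hx1, hx2⟩ := mem_filter.mp hx
    obtain ⟨a1, a2, a3, a4, a5, a6, a7, a8, a9, a10, a11⟩ := src_facts H hx1
    rw [mem_product, mem_filter, mem_product, mem_powerset, mem_Ico, mem_sigma, mem_erase]
    refine ⟨⟨⟨fun r hr => a7 r (mem_of_mem_erase hr), a2, not_le.mp hx2⟩, ?_⟩, a11, ?_, a7 _ hk⟩
    · refine le_trans ?_ a5
      rw [a1, hp]
      have hr1 : 0 < x.2.2.sup id := (prime_of_mem_LP (a7 _ hk)).pos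
      have : dS (x.2.2.erase (x.2.2.sup id)) * cof x ≤
          x.2.2.sup id * dS (x.2.2.erase (x.2.2.sup id)) * cof x :=
        Nat.mul_le_mul_right _ (Nat.le_mul_of_pos_left _ hr1)
      exact_mod_cast this
    · intro hne
      apply a4
      simp only at hne
      rw [← hne]
      exact hk
  · intro x hx x' hx' hxx
    have hk := key x hx
    have hk' := key x' hx'
    obtain ⟨hx1, hx2⟩ := mem_filter.mp hx
    obtain ⟨hx1', hx2'⟩ := mem_filter.mp hx'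
    obtain ⟨a1, a2, a3, a4, a5, a6, a7, a8, a9, a10, a11⟩ := src_facts H hx1
    obtain ⟨c1, c2, c3, c4, c5, c6, c7, c8, c9, c10, c11⟩ := src_facts H hx1'
    simp only [Prod.mk.injEq, Sigma.mk.injEq, heq_eq_eq] at hxx
    obtain ⟨⟨e1, e3⟩, e2, e0⟩ := hxx
    have e5 : x.2.2 = x'.2.2 := by
      rw [← Finset.insert_erase hk, e1, e0, Finset.insert_erase hk']
    have e4 : x.1 = x'.1 := by rw [a3, c3, e5, e2, e3]
    obtain ⟨x1, x2, x3⟩ := x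
    obtain ⟨y1, y2, y3⟩ := x'
    simp only at e5 e2 e4
    subst e5 e2 e4
    rfl
  · intro x hx
    have hk := key x hx
    have hp := hprod x hx
    obtain ⟨hx1, hx2⟩ := mem_filter.mp hx
    obtain ⟨a1, a2, a3, a4, a5, a6, a7, a8, a9, a10, a11⟩ := src_facts H hx1
    have hf := H.f_le _ a10 _ a8 a5
    have hf0' := H.f_nonneg _ a10 _ a8 a5
    have hU := U_nonneg b n x.1
    set r := x.2.2.sup id with hr
    set S' := x.2.2.erase r with hS'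
    have hh : 0 ≤ ∏ r ∈ S', h r := prod_nonneg (fun r _ => (H.hb r).1)
    have hhr : 0 ≤ h r := (H.hb r).1
    have hF1 := (H.F1b x.2.1).1
    have hprodh : ∏ r ∈ x.2.2, h r = h r * ∏ r ∈ S', h r :=
      (Finset.mul_prod_erase x.2.2 h hk).symm
    have hq : (0 : ℝ) < x.2.1 := by exact_mod_cast (prime_of_mem_LP a11).pos
    have hrp : (0 : ℝ) < r := by exact_mod_cast (prime_of_mem_LP (a7 _ hk)).pos
    have hc : (0 : ℝ) < cof x := by exact_mod_cast a2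
    have hd' : 0 < dS S' := by
      refine dS_pos (fun t ht => prime_of_mem_LP (a7 t (mem_of_mem_erase ht)))
    have hd : (0 : ℝ) < dS S' := by exact_mod_cast hd'
    have a3' : x.1 = dS S' * cof x * x.2.1 * r + 1 := by
      rw [a3, hp]; ring
    have hQ : (dS S' * cof x * x.2.1 * r : ℝ) ≤ x.1 := by
      have : ((dS S' * cof x * x.2.1 * r : ℕ) : ℝ) ≤ x.1 := by
        exact_mod_cast (by omega : dS S' * cof x * x.2.1 * r ≤ x.1)
      push_cast at this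
      exact this
    simp only [hg, xwt]
    rw [← a3', hprodh]
    calc U b n x.1 / x.1 * (f x.2.1 ((x.1 - 1) / x.2.1) * (h r * ∏ r ∈ S', h r))
        ≤ U b n x.1 / (dS S' * cof x * x.2.1 * r : ℝ) * (F1 x.2.1 * (h r * ∏ r ∈ S', h r)) := by
          refine mul_le_mul ?_ ?_ ?_ ?_
          · exact div_le_div_of_nonneg_left hU (by positivity) hQ
          · exact mul_le_mul_of_nonneg_right hf (by positivity)
          · positivity
          · positivity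
      _ = _ := by field_simp
  · rintro ⟨⟨S, m⟩, ⟨q, r⟩⟩ hy
    simp only [hg]
    have hh : 0 ≤ ∏ r ∈ S, h r := prod_nonneg (fun r _ => (H.hb r).1)
    have hU := U_nonneg b n (dS S * m * q * r + 1)
    have h1 := (H.F1b q).1
    have h2 := (H.hb r).1
    positivity

/-- the expansion: cofactors `≥ M₀` give the first sum, cofactors `< M₀` are negligible -/
theorem expand (b : ℕ) : ∃ n₀ : ℕ, ∀ n, n₀ ≤ n →
    ∀ (T0 : Finset ℕ) (T : ℕ → Finset ℕ) (R : ℕ → ℕ → Finset ℕ)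
      (f : ℕ → ℕ → ℝ) (F1 h : ℕ → ℝ), ExpData b n T0 T R f F1 h →
    ∑ Q ∈ NP b n, U b n Q / Q * ∑ q ∈ T Q, f q ((Q - 1) / q) * ∏ r ∈ R Q q, (1 + h r) ≤
      ∑ S ∈ (LP n).powerset.filter (fun S => (dS S : ℝ) ≤ Real.exp (NN n)),
        (∏ r ∈ S, h r) / (dS S : ℝ) *
          (∑ q ∈ T0, ∑ m ∈ Icc (MM b n) ⌊Real.exp (NN n)⌋₊,
            (1 : ℝ) / (q * m) * f q m * U b n (dS S * q * m + 1)) +
      Real.exp (∑ r ∈ LP n, h r / (r - 1)) * ((NN n) ^ (-(1 / 4) : ℝ) *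
        (1 + ∑ q ∈ LP n, F1 q / q) * (1 + ∑ r ∈ LP n, (h r) ^ (3 / 2 : ℝ) / r)) := by
  classical
  obtain ⟨n₁, h₁⟩ := tiny b
  obtain ⟨n₂, h₂⟩ := harm_bound b
  refine ⟨max n₁ n₂, fun n hn T0 T R f F1 h H => ?_⟩
  have hn1 := h₁ n (le_trans (le_max_left _ _) hn)
  have hn2 := h₂ n (le_trans (le_max_right _ _) hn)
  have hM : 1 ≤ MM b n := by
    unfold MM
    exact Nat.one_le_iff_ne_zero.mpr (by
      have := Nat.ceil_pos.mpr (Real.exp_pos ((n : ℝ) ^ (4 * b + 8)))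
      omega)
  rw [lhs_eq, ← sum_filter_add_sum_filter_not (src b n T R) (fun x => MM b n ≤ cof x)]
  refine add_le_add (partA H hM) ((partB H).trans ?_)
  set c : ℝ := (NN n) ^ (-(1 / 3) : ℝ) * (1 + ∑ q ∈ LP n, F1 q / q) *
        (1 + ∑ r ∈ LP n, (h r) ^ (3 / 2 : ℝ) / r) with hc
  have hs1 : 0 ≤ ∑ q ∈ LP n, F1 q / q :=
    sum_nonneg (fun q _ => div_nonneg (H.F1b q).1 (Nat.cast_nonneg q))
  have hs2 : 0 ≤ ∑ r ∈ LP n, (h r) ^ (3 / 2 : ℝ) / r :=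
    sum_nonneg (fun r _ => div_nonneg (Real.rpow_nonneg (H.hb r).1 _) (Nat.cast_nonneg r))
  have hN := NN_pos n
  have hc0 : 0 ≤ c := by
    have : 0 ≤ (NN n) ^ (-(1 / 3) : ℝ) := Real.rpow_nonneg hN.le _
    positivity
  have step1 : ∑ y ∈ ((LP n).powerset ×ˢ Ico 1 (MM b n)).filter
          (fun y => ((dS y.1 * y.2 : ℕ) : ℝ) ≤ Real.exp (NN n)),
        (∏ r ∈ y.1, h r) / (dS y.1 : ℝ) * (1 / y.2) *
          ∑ q ∈ LP n, ∑ r ∈ (LP n).erase q,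
            F1 q / q * (h r / r) * U b n (dS y.1 * y.2 * q * r + 1) ≤
      ∑ y ∈ (LP n).powerset ×ˢ Ico 1 (MM b n),
        (∏ r ∈ y.1, h r) / (dS y.1 : ℝ) * (1 / y.2) * c := by
    refine (sum_le_sum (g := fun y : Finset ℕ × ℕ =>
      (∏ r ∈ y.1, h r) / (dS y.1 : ℝ) * (1 / (y.2 : ℝ)) * c) ?_).trans ?_
    · intro y hy
      rw [mem_filter, mem_product, mem_powerset, mem_Ico] at hy
      obtain ⟨⟨h1, h2, h3⟩, h4⟩ := hy
      have hh : 0 ≤ ∏ r ∈ y.1, h r := prod_nonneg (fun r _ => (H.hb r).1)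
      refine mul_le_mul_of_nonneg_left ?_ (by positivity)
      have hd : 1 ≤ dS y.1 := dS_pos (fun r hr => prime_of_mem_LP (h1 hr))
      exact hn1 (dS y.1 * y.2) F1 h (Nat.mul_pos hd h2) h4 H.F1b H.hb
    · refine sum_le_sum_of_subset_of_nonneg (filter_subset _ _) (fun y _ _ => ?_)
      have hh : 0 ≤ ∏ r ∈ y.1, h r := prod_nonneg (fun r _ => (H.hb r).1)
      positivity
  refine step1.trans ?_
  have step2 : ∑ y ∈ (LP n).powerset ×ˢ Ico 1 (MM b n),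
        (∏ r ∈ y.1, h r) / (dS y.1 : ℝ) * (1 / (y.2 : ℝ)) * c =
      (∑ S ∈ (LP n).powerset, (∏ r ∈ S, h r) / (dS S : ℝ)) *
        (∑ m ∈ Ico 1 (MM b n), (1 : ℝ) / m) * c := by
    rw [← sum_mul, sum_product, sum_mul_sum]
  rw [step2]
  have hA : 0 ≤ ∑ S ∈ (LP n).powerset, (∏ r ∈ S, h r) / (dS S : ℝ) :=
    sum_nonneg (fun S _ => div_nonneg (prod_nonneg (fun r _ => (H.hb r).1)) (Nat.cast_nonneg _))
  have hB : 0 ≤ ∑ m ∈ Ico 1 (MM b n), (1 : ℝ) / m := sum_nonneg (fun m _ => by positivity)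
  have hA' := sum_h_div n h (fun r => (H.hb r).1)
  calc (∑ S ∈ (LP n).powerset, (∏ r ∈ S, h r) / (dS S : ℝ)) *
        (∑ m ∈ Ico 1 (MM b n), (1 : ℝ) / m) * c
      ≤ Real.exp (∑ r ∈ LP n, h r / (r - 1)) * (NN n) ^ (1 / 12 : ℝ) * c := by
        refine mul_le_mul_of_nonneg_right ?_ hc0
        exact mul_le_mul hA' hn2 hB (Real.exp_pos _).le
    _ = Real.exp (∑ r ∈ LP n, h r / (r - 1)) * ((NN n) ^ (-(1 / 4) : ℝ) *
        (1 + ∑ q ∈ LP n, F1 q / q) * (1 + ∑ r ∈ LP n, (h r) ^ (3 / 2 : ℝ) / r)) := by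
        have e : (NN n) ^ (1 / 12 : ℝ) * (NN n) ^ (-(1 / 3) : ℝ) = (NN n) ^ (-(1 / 4) : ℝ) := by
          rw [← Real.rpow_add hN]
          norm_num
        rw [← e, hc]
        ring

end

end Pool.Agent.NTot
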