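import Pool.Agent.NTot.Chains

/-!
# M3b: Brun-Titchmarsh for the chain weights
-/

set_option autoImplicit false

namespace Pool.Agent.NTot

open Finset Filter Topology

noncomputable section

theorem om_single {a l : ℕ} (hl : l.Prime) (hla : ¬ l ∣ a) : 1 ≤ om {(a, 1)} l := by
  unfold om
  apply Finset.card_pos.mpr
  have hcop : Nat.Coprime a l := (Nat.Coprime.symm ((Nat.Prime.coprime_iff_not_dvd hl).mpr hla))
  -- solve a t = -1 mod l
  have : Fact l.Prime := ⟨hl⟩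
  have ha0 : (a : ZMod l) ≠ 0 := by
    intro h
    exact hla ((ZMod.natCast_eq_zero_iff a l).mp h)
  refine ⟨(-(a : ZMod l)⁻¹).val, ?_⟩
  rw [mem_filter, mem_range]
  refine ⟨ZMod.val_lt _, (a, 1), mem_singleton_self _, ?_⟩
  rw [← ZMod.natCast_eq_zero_iff]
  push_cast
  rw [ZMod.natCast_zmod_val]
  rw [mul_neg, mul_inv_cancel₀ ha0]
  ring

theorem prod_coprime_le {a z : ℕ} (ha : 1 ≤ a) :
    ∏ l ∈ PZ z, (1 - (om {(a, 1)} l : ℝ) / l) ≤ (∏ l ∈ PZ z, (1 - (1 : ℝ) / l)) * dphi a := by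
  have hf : ∀ l : ℕ, l.Prime → 0 < 1 - (1 : ℝ) / l := by
    intro l hl
    have h1 : (1 : ℝ) < l := by exact_mod_cast hl.one_lt
    have : (1 : ℝ) / l < 1 := by rw [div_lt_one (by linarith)]; exact h1
    linarith
  have hf1 : ∀ l : ℕ, 1 - (1 : ℝ) / l ≤ 1 := by
    intro l
    have : (0 : ℝ) ≤ 1 / l := by positivity
    linarith
  have h1 : ∏ l ∈ PZ z, (1 - (om {(a, 1)} l : ℝ) / l) ≤
      ∏ l ∈ (PZ z).filter (fun l => ¬ l ∣ a), (1 - (1 : ℝ) / l) := by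
    rw [← Finset.prod_filter_mul_prod_filter_not (PZ z) (fun l => l ∣ a)]
    have h2 : ∏ l ∈ (PZ z).filter (fun l => l ∣ a), (1 - (om {(a, 1)} l : ℝ) / l) ≤ 1 :=
      Finset.prod_le_one (fun l _ => fac_nonneg _ l) (fun l _ => fac_le_one _ l)
    have h3 : ∏ l ∈ (PZ z).filter (fun l => ¬ l ∣ a), (1 - (om {(a, 1)} l : ℝ) / l) ≤
        ∏ l ∈ (PZ z).filter (fun l => ¬ l ∣ a), (1 - (1 : ℝ) / l) := by
      apply Finset.prod_le_prod
      · intro l _
        exact fac_nonneg _ l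
      · intro l hl
        rw [mem_filter, mem_PZ] at hl
        have h4 : (1 : ℝ) ≤ om {(a, 1)} l := by exact_mod_cast om_single hl.1.1 hl.2
        have h5 : (0 : ℝ) < l := by exact_mod_cast hl.1.1.pos
        have : (1 : ℝ) / l ≤ (om {(a, 1)} l : ℝ) / l := by gcongr
        linarith
    have h6 : 0 ≤ ∏ l ∈ (PZ z).filter (fun l => ¬ l ∣ a), (1 - (om {(a, 1)} l : ℝ) / l) :=
      Finset.prod_nonneg (fun l _ => fac_nonneg _ l)
    calc _ ≤ 1 * ∏ l ∈ (PZ z).filter (fun l => ¬ l ∣ a), (1 - (om {(a, 1)} l : ℝ) / l) := by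
          gcongr
      _ ≤ _ := by rw [one_mul]; exact h3
  refine h1.trans ?_
  rw [← Finset.prod_filter_mul_prod_filter_not (PZ z) (fun l => l ∣ a)
    (fun l : ℕ => 1 - (1 : ℝ) / l)]
  have hq0 : 0 ≤ ∏ l ∈ (PZ z).filter (fun l => ¬ l ∣ a), (1 - (1 : ℝ) / l) :=
    Finset.prod_nonneg (fun l hl => (hf l (mem_PZ.mp (mem_filter.mp hl).1).1).le)
  have hsub : (PZ z).filter (fun l => l ∣ a) ⊆ a.primeFactors := by
    intro l hl
    rw [mem_filter, mem_PZ] at hl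
    rw [Nat.mem_primeFactors]
    exact ⟨hl.1.1, hl.2, by omega⟩
  have h7 : ∏ l ∈ a.primeFactors, (1 - (1 : ℝ) / l) ≤
      ∏ l ∈ (PZ z).filter (fun l => l ∣ a), (1 - (1 : ℝ) / l) := by
    rw [← Finset.prod_sdiff hsub]
    have h8 : ∏ l ∈ a.primeFactors \ (PZ z).filter (fun l => l ∣ a), (1 - (1 : ℝ) / l) ≤ 1 :=
      Finset.prod_le_one (fun l hl => (hf l (Nat.prime_of_mem_primeFactors (mem_sdiff.mp hl).1)).le)
        (fun l _ => hf1 l)
    have h9 : 0 ≤ ∏ l ∈ (PZ z).filter (fun l => l ∣ a), (1 - (1 : ℝ) / l) :=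
      Finset.prod_nonneg (fun l hl => (hf l (mem_PZ.mp (mem_filter.mp hl).1).1).le)
    exact mul_le_of_le_one_left h9 h8
  have haR : (0 : ℝ) < a := by exact_mod_cast ha
  have hφ : (0 : ℝ) < Nat.totient a := by exact_mod_cast Nat.totient_pos.mpr ha
  have h10 : (Nat.totient a : ℝ) = a * ∏ l ∈ a.primeFactors, (1 - (1 : ℝ) / l) := by
    have := Nat.totient_eq_mul_prod_factors a
    have h11 : ((Nat.totient a : ℚ) : ℝ) = ((a * ∏ p ∈ a.primeFactors, (1 - (p : ℚ)⁻¹) : ℚ) : ℝ) := by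
      rw [this]
    push_cast at h11
    rw [h11]
    simp only [one_div]
  have h12 : 1 ≤ (∏ l ∈ (PZ z).filter (fun l => l ∣ a), (1 - (1 : ℝ) / l)) * dphi a := by
    unfold dphi
    rw [mul_div_assoc', le_div_iff₀ hφ, one_mul, h10, mul_comm]
    gcongr
  calc _ = (∏ l ∈ (PZ z).filter (fun l => ¬ l ∣ a), (1 - (1 : ℝ) / l)) * 1 := by rw [mul_one]
    _ ≤ (∏ l ∈ (PZ z).filter (fun l => ¬ l ∣ a), (1 - (1 : ℝ) / l)) *
        ((∏ l ∈ (PZ z).filter (fun l => l ∣ a), (1 - (1 : ℝ) / l)) * dphi a) := by gcongr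
    _ = _ := by ring

theorem U_BT : ∃ C₂ : ℝ, 1 ≤ C₂ ∧ ∀ b : ℕ, ∃ n₀ : ℕ, ∀ n, n₀ ≤ n → ∀ (a X : ℕ), 1 ≤ a →
    (a : ℝ) ≤ Real.exp (3 * NN n) → (NN n) ^ (0.49 : ℝ) ≤ Real.log X → Real.log X ≤ 3 * NN n →
    ∑ m ∈ Ioc X (2 * X), U b n (a * m + 1) ≤ C₂ * X / Real.log X * dphi a := by
  obtain ⟨C₁, hC₁, h⟩ := chain_moment
  obtain ⟨C, hC, hM⟩ := mertens_prod
  refine ⟨4 / 3 * C * C₁, by nlinarith, fun b => ?_⟩
  obtain ⟨n₀, hn₀⟩ := h b
  obtain ⟨n1, hn1⟩ := ch_poly_le 0 1 2 (by norm_num)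
  refine ⟨max (max n₀ n1) 1, fun n hn a X ha1 ha2 hX1 hX2 => ?_⟩
  have hN2 : 2 ≤ NN n := by
    have := hn1 n ((le_max_right _ _).trans ((le_max_left _ _).trans hn))
    rwa [pow_zero, mul_one, Real.rpow_one] at this
  have hn' : 1 ≤ n := (le_max_right _ _).trans hn
  have hK : 1 ≤ KK b n := by unfold KK; exact Nat.one_le_pow _ _ (by omega)
  have key := hn₀ n ((le_max_left _ _).trans ((le_max_left _ _).trans hn)) Unit (fun _ => a) ∅ X
    (Function.injective_of_subsingleton _) (empty_subset _) (by simp) (by simpa using hK)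
    (fun _ => ⟨ha1, ha2⟩) hX1 hX2
  have e1 : (∅ ∪ univ.image (fun _ : Unit => (a, 1)) : Finset (ℕ × ℕ)) = {(a, 1)} := by
    ext g
    simp
  simp only [notMem_empty, IsEmpty.forall_iff, implies_true, filter_true, univ_unique,
    prod_const, card_singleton, pow_one, card_empty, Fintype.card_unit, zero_add,
    Nat.cast_one, mul_one] at key
  have e1' : (∅ ∪ image (fun _ : Unit => (a, 1)) {default} : Finset (ℕ × ℕ)) = {(a, 1)} := by
    rw [← e1]; rfl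
  rw [e1'] at key
  refine key.trans ?_
  have hN0 : 0 < NN n := by linarith
  have hlogN : 0 < Real.log (NN n) := Real.log_pos (by linarith)
  have hX0 : 0 < Real.log X := lt_of_lt_of_le (by positivity) hX1
  have hz : NN n ≤ (⌊(NN n) ^ 2⌋₊ : ℝ) := by
    have := Nat.lt_floor_add_one ((NN n) ^ 2)
    nlinarith
  have hz2 : 2 ≤ ⌊(NN n) ^ 2⌋₊ := by
    have : (2 : ℝ) ≤ (⌊(NN n) ^ 2⌋₊ : ℝ) := hN2.trans hz
    exact_mod_cast this
  have hP : ∏ l ∈ PZ ⌊(NN n) ^ 2⌋₊, (1 - (om {(a, 1)} l : ℝ) / l) ≤ C / Real.log (NN n) * dphi a := by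
    refine (prod_coprime_le ha1).trans ?_
    have hd : 0 ≤ dphi a := by unfold dphi; positivity
    apply mul_le_mul_of_nonneg_right _ hd
    refine (hM _ hz2).trans ?_
    apply div_le_div_of_nonneg_left (by linarith) hlogN
    exact Real.log_le_log hN0 hz
  have hd : 0 ≤ dphi a := by unfold dphi; positivity
  calc (X : ℝ) * (∏ l ∈ PZ ⌊(NN n) ^ 2⌋₊, (1 - (om {(a, 1)} l : ℝ) / l)) *
        (C₁ * Real.log (NN n) / Real.log X) * (4 / 3)
      ≤ (X : ℝ) * (C / Real.log (NN n) * dphi a) * (C₁ * Real.log (NN n) / Real.log X) * (4 / 3) := by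
        gcongr
    _ = _ := by field_simp

end

end Pool.Agent.NTot
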