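import Pool.Agent.NTot.Ls
import Pool.Agent.NTot.UBT
import Pool.Agent.NTot.Basic

/-!
# The F-bound (module M7)
-/

set_option autoImplicit false

namespace Pool.Agent.NTot

open Finset Filter Topology

noncomputable section

theorem fb_dphi_nonneg (d : ℕ) : 0 ≤ dphi d := by unfold dphi; positivity

theorem fb_dphi_mul {d r : ℕ} (hd : 1 ≤ d) (hr : r.Prime) : dphi (d * r) ≤ 2 * dphi d := by
  unfold dphi
  have h1 : d.totient * r.totient ≤ (d * r).totient := Nat.totient_super_multiplicative d r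
  rw [Nat.totient_prime hr] at h1
  have hφ : (0 : ℝ) < d.totient := by exact_mod_cast Nat.totient_pos.2 hd
  have hr2 : (2 : ℝ) ≤ r := by exact_mod_cast hr.two_le
  have h2 : (d.totient : ℝ) * (r / 2) ≤ ((d * r).totient : ℝ) := by
    have h3 : (d.totient : ℝ) * ((r - 1 : ℕ) : ℝ) ≤ ((d * r).totient : ℝ) := by exact_mod_cast h1
    refine le_trans ?_ h3
    rw [Nat.cast_sub hr.one_lt.le]
    push_cast
    gcongr
    linarith
  have h4 : (0 : ℝ) < (d.totient : ℝ) * (r / 2) := by positivity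
  calc ((d * r : ℕ) : ℝ) / ((d * r).totient : ℝ) ≤ ((d * r : ℕ) : ℝ) / ((d.totient : ℝ) * (r / 2)) := by
        gcongr
    _ = 2 * ((d : ℝ) / d.totient) := by
        push_cast
        field_simp

theorem fb_harm {i I : ℕ} (hi : 1 ≤ i) (hiI : i ≤ I) :
    ∑ l ∈ Ico i I, (1 : ℝ) / l ≤ 2 * Real.log (I / i) := by
  have hi0 : (0 : ℝ) < i := by exact_mod_cast hi
  induction I, hiI using Nat.le_induction with
  | base => simp [div_self hi0.ne']
  | succ I hI ih =>
    have hI0 : (0 : ℝ) < I := by exact_mod_cast (by omega : 0 < I)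
    have hI1 : (1 : ℝ) ≤ I := by exact_mod_cast (by omega : 1 ≤ I)
    rw [sum_Ico_succ_top hI]
    have h1 : Real.log ((I : ℝ) / (I + 1)) ≤ (I : ℝ) / (I + 1) - 1 :=
      Real.log_le_sub_one_of_pos (by positivity)
    have h2 : (I : ℝ) / (I + 1) - 1 = -(1 / (I + 1)) := by field_simp; ring
    have h3 : Real.log ((I : ℝ) / (I + 1)) = Real.log (I / i) - Real.log ((I + 1 : ℝ) / i) := by
      rw [Real.log_div hI0.ne' (by positivity), Real.log_div hI0.ne' hi0.ne',
        Real.log_div (by positivity) hi0.ne']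
      ring
    have h4 : (1 : ℝ) / I ≤ 2 * (1 / (I + 1)) := by
      rw [mul_one_div, div_le_div_iff₀ hI0 (by positivity)]
      linarith
    push_cast
    linarith

/-- the conclusion of `LS` for a fixed `n` -/
def fb_LS (C₄ : ℝ) (b n : ℕ) : Prop :=
  ∀ (d X M : ℕ) (F : ℕ → ℝ) (A : ℝ), 1 ≤ d → (d : ℝ) ≤ Real.exp (NN n) →
    (NN n) ^ (0.49 : ℝ) ≤ Real.log X → Real.log X ≤ NN n → MM b n ≤ 2 * M →
    (M : ℝ) ≤ Real.exp (NN n) → 0 < A →
    (∀ t ∈ PB X, 0 ≤ F t ∧ F t ≤ A * Real.exp (KK b n / 4)) →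
    ∑ t ∈ PB X, F t * NM b n d M t ≤
      C₄ * (M * dphi d / Real.log X) *
        (∑ t ∈ PB X, F t * Real.posLog (F t / A) + A * X / Real.log X)

/-- the conclusion of `U_BT` for a fixed `n` -/
def fb_BT (C₂ : ℝ) (b n : ℕ) : Prop :=
  ∀ (a X : ℕ), 1 ≤ a →
    (a : ℝ) ≤ Real.exp (3 * NN n) → (NN n) ^ (0.49 : ℝ) ≤ Real.log X → Real.log X ≤ 3 * NN n →
    ∑ m ∈ Ioc X (2 * X), U b n (a * m + 1) ≤ C₂ * X / Real.log X * dphi a

theorem fb_NM_nonneg (b n d M t : ℕ) : 0 ≤ NM b n d M t := by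
  unfold NM
  exact sum_nonneg (fun m _ => U_nonneg _ _ _)

theorem fb_NM_eq (b n d M t : ℕ) : NM b n d M t = ∑ m ∈ Ioc M (2 * M), U b n (d * t * m + 1) := by
  unfold NM
  apply sum_congr rfl
  intro m _
  congr 2
  ring

open scoped Classical in
/-- the contribution of a dyadic block of `m` -/
def fb_h (b n d l r : ℕ) : ℝ :=
  if MM b n ≤ 2 * 2 ^ l ∧ ((2 ^ l : ℕ) : ℝ) ≤ Real.exp (NN n) then
    1 / ((2 ^ l : ℕ) : ℝ) * NM b n d (2 ^ l) r else 0

theorem fb_h_nonneg (b n d l r : ℕ) : 0 ≤ fb_h b n d l r := by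
  unfold fb_h
  split_ifs
  · exact mul_nonneg (by positivity) (fb_NM_nonneg _ _ _ _ _)
  · exact le_rfl

theorem fb_inner {b n d r I : ℕ} (hI : ⌊Real.exp (NN n)⌋₊ ≤ 2 ^ I) (hM : 1 < MM b n) :
    ∑ m ∈ Icc (MM b n) ⌊Real.exp (NN n)⌋₊, (1 : ℝ) / m * U b n (d * r * m + 1) ≤
      ∑ l ∈ range I, fb_h b n d l r := by
  classical
  rw [sum_dyadic (Icc (MM b n) ⌊Real.exp (NN n)⌋₊) _ I]
  · apply sum_le_sum
    intro l _
    set S := (Icc (MM b n) ⌊Real.exp (NN n)⌋₊).filter (fun r => 2 ^ l < r ∧ r ≤ 2 ^ (l + 1)) with hS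
    by_cases hne : S.Nonempty
    · obtain ⟨m, hm⟩ := hne
      rw [hS, mem_filter, mem_Icc] at hm
      have h2 : 2 ^ (l + 1) = 2 * 2 ^ l := pow_succ' _ _
      have hgood : MM b n ≤ 2 * 2 ^ l ∧ ((2 ^ l : ℕ) : ℝ) ≤ Real.exp (NN n) := by
        refine ⟨by omega, ?_⟩
        have h3 : (m : ℝ) ≤ Real.exp (NN n) :=
          (Nat.le_floor_iff (Real.exp_pos _).le).1 hm.1.2
        have h4 : ((2 ^ l : ℕ) : ℝ) ≤ m := by exact_mod_cast hm.2.1.le
        linarith
      unfold fb_h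
      rw [if_pos hgood, fb_NM_eq, mul_sum]
      have hsub : S ⊆ Ioc (2 ^ l) (2 * 2 ^ l) := by
        intro x hx
        rw [hS, mem_filter] at hx
        rw [mem_Ioc, ← h2]
        exact hx.2
      refine (sum_le_sum_of_subset_of_nonneg hsub ?_).trans ?_
      · intro x _ _
        exact mul_nonneg (by positivity) (U_nonneg _ _ _)
      · apply sum_le_sum
        intro x hx
        rw [mem_Ioc] at hx
        apply mul_le_mul_of_nonneg_right _ (U_nonneg _ _ _)
        apply one_div_le_one_div_of_le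
        · exact_mod_cast (by positivity : 0 < 2 ^ l)
        · exact_mod_cast hx.1.le
    · rw [not_nonempty_iff_eq_empty.1 hne, sum_empty]
      exact fb_h_nonneg _ _ _ _ _
  · intro m hm
    rw [mem_Icc] at hm
    exact ⟨by omega, by omega⟩

theorem fb_log_two_pow (i : ℕ) : Real.log ((2 ^ i : ℕ) : ℝ) = i * Real.log 2 := by
  push_cast
  rw [Real.log_pow]

theorem fb_half_log_two : (1 : ℝ) / 2 ≤ Real.log 2 := by
  have := Real.log_two_gt_d9; linarith

theorem fb_log_two_le : Real.log 2 ≤ 7 / 10 := by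
  have := Real.log_two_lt_d9; linarith

/-- the low range -/
theorem fb_low {C₄ : ℝ} (hC₄ : 1 ≤ C₄) {b n : ℕ} (hLS : fb_LS C₄ b n) {d i : ℕ} (hd : 1 ≤ d)
    (hdN : (d : ℝ) ≤ Real.exp (NN n)) (hi1 : (NN n) ^ (0.49 : ℝ) ≤ i * Real.log 2)
    (hi2 : i * Real.log 2 ≤ NN n) (F : ℕ → ℝ) {A : ℝ} (hA : 0 < A)
    (hF : ∀ t ∈ PB (2 ^ i), 0 ≤ F t ∧ F t ≤ A * Real.exp (KK b n / 4)) :
    ∑ t ∈ PB (2 ^ i), F t / t * ∑ l ∈ range i, fb_h b n d l t ≤
      4 * C₄ * dphi d * (∑ t ∈ PB (2 ^ i), F t / t * Real.posLog (F t / A)) +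
        2 * C₄ * dphi d * (A / (i * Real.log 2)) := by
  have hlog := fb_log_two_pow i
  have hNpos : 0 < (NN n) ^ (0.49 : ℝ) := Real.rpow_pos_of_pos (NN_pos n) _
  have hil : 0 < (i : ℝ) * Real.log 2 := lt_of_lt_of_le hNpos hi1
  have hl2 := fb_half_log_two
  have hi0 : (0 : ℝ) < i := by
    by_contra h
    have : (i : ℝ) ≤ 0 := not_lt.1 h
    nlinarith
  have hdp := fb_dphi_nonneg d
  have hX0 : (0 : ℝ) < ((2 ^ i : ℕ) : ℝ) := by exact_mod_cast (by positivity : 0 < 2 ^ i)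
  set X : ℝ := ((2 ^ i : ℕ) : ℝ) with hX
  set Sg := ∑ t ∈ PB (2 ^ i), F t * Real.posLog (F t / A) with hSg
  have hSg0 : 0 ≤ Sg := by
    apply sum_nonneg
    intro t ht
    exact mul_nonneg (hF t ht).1 Real.posLog_nonneg
  -- each l
  have hl : ∀ l ∈ range i, ∑ t ∈ PB (2 ^ i), F t / t * fb_h b n d l t ≤
      1 / X * (C₄ * (dphi d / (i * Real.log 2)) * (Sg + A * X / (i * Real.log 2))) := by
    intro l _
    have hrhs : 0 ≤ 1 / X * (C₄ * (dphi d / (i * Real.log 2)) * (Sg + A * X / (i * Real.log 2))) := by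
      positivity
    by_cases hgood : MM b n ≤ 2 * 2 ^ l ∧ ((2 ^ l : ℕ) : ℝ) ≤ Real.exp (NN n)
    · have h1 := hLS d (2 ^ i) (2 ^ l) F A hd hdN (by rw [hlog]; exact hi1) (by rw [hlog]; exact hi2)
        hgood.1 hgood.2 hA hF
      rw [hlog] at h1
      have hY0 : (0 : ℝ) < ((2 ^ l : ℕ) : ℝ) := by exact_mod_cast (by positivity : 0 < 2 ^ l)
      calc ∑ t ∈ PB (2 ^ i), F t / t * fb_h b n d l t
          ≤ ∑ t ∈ PB (2 ^ i), 1 / X * (1 / ((2 ^ l : ℕ) : ℝ)) * (F t * NM b n d (2 ^ l) t) := by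
            apply sum_le_sum
            intro t ht
            unfold fb_h
            rw [if_pos hgood]
            have ht' := mem_PB.1 ht
            have htX : X ≤ t := by rw [hX]; exact_mod_cast ht'.2.1.le
            have h2 : F t / t ≤ F t / X := div_le_div_of_nonneg_left (hF t ht).1 hX0 htX
            have h3 := fb_NM_nonneg b n d (2 ^ l) t
            calc F t / t * (1 / ((2 ^ l : ℕ) : ℝ) * NM b n d (2 ^ l) t)
                ≤ F t / X * (1 / ((2 ^ l : ℕ) : ℝ) * NM b n d (2 ^ l) t) := by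
                  apply mul_le_mul_of_nonneg_right h2
                  positivity
              _ = _ := by ring
        _ = 1 / X * (1 / ((2 ^ l : ℕ) : ℝ)) * ∑ t ∈ PB (2 ^ i), F t * NM b n d (2 ^ l) t := by
            rw [mul_sum]
        _ ≤ 1 / X * (1 / ((2 ^ l : ℕ) : ℝ)) * (C₄ * (((2 ^ l : ℕ) : ℝ) * dphi d / (i * Real.log 2)) *
              (Sg + A * X / (i * Real.log 2))) := by
            apply mul_le_mul_of_nonneg_left h1
            positivity
        _ = _ := by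
            field_simp
    · refine le_trans (le_of_eq ?_) hrhs
      apply sum_eq_zero
      intro t _
      unfold fb_h
      rw [if_neg hgood, mul_zero]
  have hswap : ∑ t ∈ PB (2 ^ i), F t / t * ∑ l ∈ range i, fb_h b n d l t =
      ∑ l ∈ range i, ∑ t ∈ PB (2 ^ i), F t / t * fb_h b n d l t := by
    simp_rw [mul_sum]
    rw [sum_comm]
  rw [hswap]
  refine (sum_le_sum hl).trans ?_
  rw [sum_const, card_range, nsmul_eq_mul]
  have h5 : (i : ℝ) * (1 / X * (C₄ * (dphi d / (i * Real.log 2)) * (Sg + A * X / (i * Real.log 2)))) =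
      C₄ * dphi d * (1 / Real.log 2) * (Sg / X) + C₄ * dphi d * (1 / Real.log 2) * (A / (i * Real.log 2)) := by
    have : Real.log 2 ≠ 0 := by positivity
    field_simp
  rw [h5]
  have h6 : 1 / Real.log 2 ≤ 2 := by
    rw [div_le_iff₀ (by linarith)]; linarith
  have h7 : Sg / X ≤ 2 * ∑ t ∈ PB (2 ^ i), F t / t * Real.posLog (F t / A) := by
    rw [hSg, sum_div, mul_sum]
    apply sum_le_sum
    intro t ht
    have ht' := mem_PB.1 ht
    have htX : (t : ℝ) ≤ 2 * X := by rw [hX]; exact_mod_cast ht'.2.2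
    have ht0 : (0 : ℝ) < t := by exact_mod_cast ht'.1.pos
    have h8 : 0 ≤ F t * Real.posLog (F t / A) := mul_nonneg (hF t ht).1 Real.posLog_nonneg
    calc F t * Real.posLog (F t / A) / X ≤ F t * Real.posLog (F t / A) * (2 / t) := by
          rw [div_eq_mul_inv]
          apply mul_le_mul_of_nonneg_left _ h8
          rw [inv_eq_one_div, div_le_div_iff₀ hX0 ht0]
          linarith
      _ = _ := by ring
  have h9 : 0 ≤ Sg / X := by positivity
  have h10 : 0 ≤ A / (i * Real.log 2) := by positivity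
  have h11 : 0 ≤ C₄ * dphi d := by positivity
  have h12 : C₄ * dphi d * (1 / Real.log 2) ≤ 2 * C₄ * dphi d := by nlinarith
  calc C₄ * dphi d * (1 / Real.log 2) * (Sg / X) + C₄ * dphi d * (1 / Real.log 2) * (A / (i * Real.log 2))
      ≤ 2 * C₄ * dphi d * (2 * ∑ t ∈ PB (2 ^ i), F t / t * Real.posLog (F t / A)) +
        2 * C₄ * dphi d * (A / (i * Real.log 2)) := by
        gcongr
    _ = _ := by ring

/-- the high range -/
theorem fb_high {C₂ : ℝ} (hC₂ : 1 ≤ C₂) {b n : ℕ} (hBT : fb_BT C₂ b n) {d i I r : ℕ} (hd : 1 ≤ d)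
    (hdN : (d : ℝ) ≤ Real.exp (NN n)) (hr : r.Prime) (hrN : (r : ℝ) ≤ Real.exp (NN n))
    (hi1 : (NN n) ^ (0.49 : ℝ) ≤ i * Real.log 2) (hiI : i ≤ I)
    (hI : ∀ l, l < I → l * Real.log 2 ≤ NN n) :
    ∑ l ∈ Ico i I, fb_h b n d l r ≤ 8 * C₂ * dphi d * Real.log (I / i) := by
  have hNpos : 0 < (NN n) ^ (0.49 : ℝ) := Real.rpow_pos_of_pos (NN_pos n) _
  have hil : 0 < (i : ℝ) * Real.log 2 := lt_of_lt_of_le hNpos hi1
  have hl2 := fb_half_log_two
  have hi0 : (0 : ℝ) < i := by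
    by_contra h
    have : (i : ℝ) ≤ 0 := not_lt.1 h
    nlinarith
  have hi1' : 1 ≤ i := by exact_mod_cast hi0
  have hdp := fb_dphi_nonneg d
  have hterm : ∀ l ∈ Ico i I, fb_h b n d l r ≤ 4 * C₂ * dphi d * (1 / l) := by
    intro l hl
    rw [mem_Ico] at hl
    have hl0 : (0 : ℝ) < l := by exact_mod_cast (by omega : 0 < l)
    have hrhs : 0 ≤ 4 * C₂ * dphi d * (1 / (l : ℝ)) := by positivity
    unfold fb_h
    split_ifs with hgood
    · rw [fb_NM_eq]
      have h1 := hBT (d * r) (2 ^ l) (Nat.mul_pos hd hr.pos) (by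
        push_cast
        calc (d : ℝ) * r ≤ Real.exp (NN n) * Real.exp (NN n) := by gcongr
          _ = Real.exp (2 * NN n) := by rw [← Real.exp_add]; congr 1; ring
          _ ≤ Real.exp (3 * NN n) := by
            rw [Real.exp_le_exp]; have := NN_pos n; linarith)
        (by
          rw [fb_log_two_pow]
          refine hi1.trans ?_
          have : (i : ℝ) ≤ l := by exact_mod_cast hl.1
          gcongr)
        (by
          rw [fb_log_two_pow]
          have := hI l hl.2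
          have := NN_pos n
          linarith)
      rw [fb_log_two_pow] at h1
      have hY0 : (0 : ℝ) < ((2 ^ l : ℕ) : ℝ) := by exact_mod_cast (by positivity : 0 < 2 ^ l)
      have h2 := fb_dphi_mul hd hr
      calc 1 / ((2 ^ l : ℕ) : ℝ) * ∑ m ∈ Ioc (2 ^ l) (2 * 2 ^ l), U b n (d * r * m + 1)
          ≤ 1 / ((2 ^ l : ℕ) : ℝ) * (C₂ * ((2 ^ l : ℕ) : ℝ) / (l * Real.log 2) * (2 * dphi d)) := by
            gcongr
            refine h1.trans ?_
            gcongr
        _ = 2 * C₂ * dphi d * (1 / Real.log 2) * (1 / l) := by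
            field_simp
        _ ≤ 2 * C₂ * dphi d * 2 * (1 / l) := by
            gcongr
            rw [div_le_iff₀ (by linarith)]; linarith
        _ = _ := by ring
    · exact hrhs
  refine (sum_le_sum hterm).trans ?_
  rw [← mul_sum]
  have h3 := fb_harm hi1' hiI
  calc 4 * C₂ * dphi d * ∑ l ∈ Ico i I, (1 : ℝ) / l ≤ 4 * C₂ * dphi d * (2 * Real.log (I / i)) := by
        gcongr
    _ = _ := by ring


/-- one window -/
theorem fb_window {C₂ C₄ : ℝ} (hC₂ : 1 ≤ C₂) (hC₄ : 1 ≤ C₄) {b n : ℕ} (hLS : fb_LS C₄ b n)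
    (hBT : fb_BT C₂ b n) (hn1 : (NN n) ^ (0.49 : ℝ) ≤ Real.sqrt (NN n) - 1)
    (hn2 : 2 ≤ Real.sqrt (NN n)) (hM : 1 < MM b n) {d : ℕ} (hd : 1 ≤ d)
    (hdN : (d : ℝ) ≤ Real.exp (NN n)) (F : ℕ → ℝ) (hF0 : ∀ r, 0 ≤ F r) {j : ℕ} (hj : j ≤ n) {A : ℝ}
    (hA : 0 < A) (hF : ∀ r ∈ W (n - j), F r ≤ A * Real.exp (KK b n / 4)) :
    ∑ r ∈ (W (n - j)).filter (fun r => r ∈ LP n), F r / r *
        ∑ m ∈ Icc (MM b n) ⌊Real.exp (NN n)⌋₊, (1 : ℝ) / m * U b n (d * r * m + 1) ≤
      16 * (C₂ + C₄) * dphi d *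
        (∑ r ∈ W (n - j), F r / r * (1 + j + Real.posLog (F r / A)) + A) := by
  classical
  set N := NN n with hN
  set N' := NN (n - j) with hN'
  have hNN' : N = N' * NN j := by
    rw [hN, hN', ← NN_add]
    congr 1
    omega
  have hN1 : 1 ≤ N := one_le_NN n
  have hN'1 : 1 ≤ N' := one_le_NN (n - j)
  have hl2 := fb_half_log_two
  have hl2' := fb_log_two_le
  have hl20 : 0 < Real.log 2 := by linarith
  have hdp := fb_dphi_nonneg d
  set W' := (W (n - j)).filter (fun r => r ∈ LP n) with hW'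
  set I := ⌊N / Real.log 2⌋₊ + 1 with hIdef
  have hI : ∀ l, l < I → l * Real.log 2 ≤ N := by
    intro l hl
    have h1 : l ≤ ⌊N / Real.log 2⌋₊ := by omega
    have h2 : (l : ℝ) ≤ N / Real.log 2 := (Nat.le_floor_iff (by positivity)).1 h1
    rwa [le_div_iff₀ hl20] at h2
  have hIle : (I : ℝ) ≤ 3 * N := by
    have h1 : (⌊N / Real.log 2⌋₊ : ℝ) ≤ N / Real.log 2 := Nat.floor_le (by positivity)
    have h2 : N / Real.log 2 ≤ 2 * N := by
      rw [div_le_iff₀ hl20]; nlinarith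
    rw [hIdef]
    push_cast
    linarith
  have h2I : ⌊Real.exp N⌋₊ ≤ 2 ^ I := by
    have h1 : Real.exp N ≤ ((2 ^ I : ℕ) : ℝ) := by
      rw [← Real.exp_log (show (0 : ℝ) < ((2 ^ I : ℕ) : ℝ) by exact_mod_cast (by positivity : 0 < 2 ^ I)),
        fb_log_two_pow, Real.exp_le_exp]
      have h2 := (Nat.lt_floor_add_one (N / Real.log 2)).le
      rw [div_le_iff₀ hl20] at h2
      rw [hIdef]
      push_cast
      exact h2
    have h2 : ((⌊Real.exp N⌋₊ : ℕ) : ℝ) ≤ ((2 ^ I : ℕ) : ℝ) :=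
      (Nat.floor_le (Real.exp_pos _).le).trans h1
    exact_mod_cast h2
  set inner : ℕ → ℝ := fun r =>
    ∑ m ∈ Icc (MM b n) ⌊Real.exp N⌋₊, (1 : ℝ) / m * U b n (d * r * m + 1) with hinner
  have hW'mem : ∀ r ∈ W', r.Prime ∧ N' < lam * Real.log r ∧ Real.log r ≤ N' ∧ Real.sqrt N < Real.log r ∧
      Real.log r ≤ N := by
    intro r hr
    rw [hW', mem_filter, mem_W, mem_LP] at hr
    exact ⟨hr.1.1, hr.1.2.1, hr.1.2.2, hr.2.2.1, hr.2.2.2⟩
  have hdy : ∀ f : ℕ → ℝ, ∑ r ∈ W', f r =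
      ∑ i ∈ range I, ∑ r ∈ W'.filter (fun r => 2 ^ i < r ∧ r ≤ 2 ^ (i + 1)), f r := by
    intro f
    apply sum_dyadic
    intro r hr
    obtain ⟨h1, _, _, _, h5⟩ := hW'mem r hr
    exact ⟨h1.one_lt, (le_exp_of_log_le h1.pos h5).trans h2I⟩
  -- facts for a nonempty block
  have hblock : ∀ i ∈ range I, (W'.filter (fun r => 2 ^ i < r ∧ r ≤ 2 ^ (i + 1))).Nonempty →
      N ^ (0.49 : ℝ) ≤ i * Real.log 2 ∧ i * Real.log 2 ≤ N ∧ N' / 2 ≤ i * Real.log 2 ∧
      i ≤ ⌊2 * N'⌋₊ ∧ Real.log (I / i) ≤ 2 * (1 + j) := by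
    intro i hi ⟨r, hr⟩
    rw [mem_filter] at hr
    obtain ⟨hp, h1, h2, h3, h4⟩ := hW'mem r hr.1
    have hr0 : (0 : ℝ) < r := by exact_mod_cast hp.pos
    have h5 : (i : ℝ) * Real.log 2 ≤ Real.log r := by
      rw [← fb_log_two_pow]
      apply Real.log_le_log
      · exact_mod_cast (by positivity : 0 < 2 ^ i)
      · exact_mod_cast hr.2.1.le
    have h6 : Real.log r ≤ (i + 1) * Real.log 2 := by
      have h7 : Real.log r ≤ Real.log ((2 ^ (i + 1) : ℕ) : ℝ) := by
        apply Real.log_le_log hr0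
        exact_mod_cast hr.2.2
      rw [fb_log_two_pow] at h7
      push_cast at h7
      exact h7
    have hlam : lam = 9 / 8 := rfl
    have h8 : N' / 2 ≤ i * Real.log 2 := by
      rw [hlam] at h1
      nlinarith
    have h9 : N ^ (0.49 : ℝ) ≤ i * Real.log 2 := by linarith
    have h10 : (i : ℝ) ≤ 2 * N' := by
      have hi0 : (0 : ℝ) ≤ i := Nat.cast_nonneg i
      nlinarith
    have hi0 : (0 : ℝ) < i := by
      by_contra h
      have : (i : ℝ) ≤ 0 := not_lt.1 h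
      nlinarith
    refine ⟨h9, hI i (mem_range.1 hi), h8, Nat.le_floor h10, ?_⟩
    have hI0 : (0 : ℝ) < I := by rw [hIdef]; positivity
    have h11 : (I : ℝ) / i ≤ 6 * NN j := by
      rw [div_le_iff₀ hi0]
      have h12 : N' / 2 ≤ i := by nlinarith
      have h13 := NN_pos j
      calc (I : ℝ) ≤ 3 * N := hIle
        _ = 6 * NN j * (N' / 2) := by rw [hNN']; ring
        _ ≤ 6 * NN j * i := by gcongr
    have h14 := Real.log_le_log (by positivity) h11
    rw [Real.log_mul (by norm_num) (NN_pos j).ne'] at h14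
    have h15 := log_NN_le j
    have h16 : Real.log 6 ≤ 2 := by
      rw [Real.log_le_iff_le_exp (by norm_num)]
      have h17 : Real.exp 2 = Real.exp 1 * Real.exp 1 := by rw [← Real.exp_add]; norm_num
      have := Real.exp_one_gt_d9
      rw [h17]
      nlinarith
    have : (0 : ℝ) ≤ j := Nat.cast_nonneg j
    linarith
  -- one block
  have hone : ∀ i ∈ range I, ∑ r ∈ W'.filter (fun r => 2 ^ i < r ∧ r ≤ 2 ^ (i + 1)), F r / r * inner r ≤
      4 * C₄ * dphi d * (∑ r ∈ W'.filter (fun r => 2 ^ i < r ∧ r ≤ 2 ^ (i + 1)),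
        F r / r * Real.posLog (F r / A)) +
      (if (W'.filter (fun r => 2 ^ i < r ∧ r ≤ 2 ^ (i + 1))).Nonempty then
        4 * C₄ * dphi d * A / N' else 0) +
      16 * C₂ * dphi d * (1 + j) * ∑ r ∈ W'.filter (fun r => 2 ^ i < r ∧ r ≤ 2 ^ (i + 1)), F r / r := by
    intro i hi
    set B := W'.filter (fun r => 2 ^ i < r ∧ r ≤ 2 ^ (i + 1)) with hB
    by_cases hne : B.Nonempty
    · obtain ⟨h1, h2, h3, _, h5⟩ := hblock i hi hne
      rw [if_pos hne]
      have hiI : i ≤ I := (mem_range.1 hi).le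
      set F' : ℕ → ℝ := fun t => if t ∈ W' then F t else 0 with hF'
      have hBsub : B ⊆ PB (2 ^ i) := by
        intro r hr
        rw [hB, mem_filter] at hr
        rw [mem_PB]
        exact ⟨(hW'mem r hr.1).1, hr.2.1, by rw [← pow_succ']; exact hr.2.2⟩
      have hBF : ∀ r ∈ B, F' r = F r := by
        intro r hr
        rw [hB, mem_filter] at hr
        simp only [hF', hr.1, if_true]
      have hzero : ∀ t ∈ PB (2 ^ i), t ∉ B → F' t = 0 := by
        intro t ht htB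
        simp only [hF']
        rw [if_neg]
        intro htW
        apply htB
        rw [hB, mem_filter, pow_succ']
        exact ⟨htW, (mem_PB.1 ht).2⟩
      have hlow := fb_low hC₄ hLS hd hdN h1 h2 F' hA (by
        intro t _
        simp only [hF']
        split_ifs with h
        · rw [hW', mem_filter] at h
          exact ⟨hF0 t, hF t h.1⟩
        · exact ⟨le_rfl, by positivity⟩)
      have e1 : ∑ t ∈ PB (2 ^ i), F' t / t * ∑ l ∈ range i, fb_h b n d l t =
          ∑ t ∈ B, F t / t * ∑ l ∈ range i, fb_h b n d l t := by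
        rw [← sum_subset hBsub]
        · apply sum_congr rfl
          intro t ht
          rw [hBF t ht]
        · intro t ht htB
          rw [hzero t ht htB]; simp
      have e2 : ∑ t ∈ PB (2 ^ i), F' t / t * Real.posLog (F' t / A) =
          ∑ t ∈ B, F t / t * Real.posLog (F t / A) := by
        rw [← sum_subset hBsub]
        · apply sum_congr rfl
          intro t ht
          rw [hBF t ht]
        · intro t ht htB
          rw [hzero t ht htB]; simp
      rw [e1, e2] at hlow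
      have hN'0 : 0 < N' := by linarith
      have e3 : 2 * C₄ * dphi d * (A / (i * Real.log 2)) ≤ 4 * C₄ * dphi d * A / N' := by
        have h6 : A / (i * Real.log 2) ≤ A / (N' / 2) := by
          apply div_le_div_of_nonneg_left hA.le (by positivity) h3
        calc 2 * C₄ * dphi d * (A / (i * Real.log 2)) ≤ 2 * C₄ * dphi d * (A / (N' / 2)) := by gcongr
          _ = _ := by field_simp; ring
      have e4 : ∑ r ∈ B, F r / r * inner r ≤ ∑ t ∈ B, F t / t * ∑ l ∈ range i, fb_h b n d l t +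
          16 * C₂ * dphi d * (1 + j) * ∑ r ∈ B, F r / r := by
        rw [mul_sum, ← sum_add_distrib]
        apply sum_le_sum
        intro r hr
        rw [hB, mem_filter] at hr
        obtain ⟨hp, _, _, _, g5⟩ := hW'mem r hr.1
        have g6 : inner r ≤ ∑ l ∈ range I, fb_h b n d l r := fb_inner h2I hM
        rw [← sum_range_add_sum_Ico _ hiI] at g6
        have g7 := fb_high hC₂ hBT (I := I) hd hdN hp (by
          rw [← Real.exp_log (show (0 : ℝ) < r by exact_mod_cast hp.pos)]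
          exact Real.exp_le_exp.2 g5) h1 hiI hI
        have g8 : 8 * C₂ * dphi d * Real.log (I / i) ≤ 16 * C₂ * dphi d * (1 + j) := by
          calc 8 * C₂ * dphi d * Real.log (I / i) ≤ 8 * C₂ * dphi d * (2 * (1 + j)) := by gcongr
            _ = _ := by ring
        have g9 : 0 ≤ F r / r := div_nonneg (hF0 r) (Nat.cast_nonneg _)
        calc F r / r * inner r ≤ F r / r * (∑ l ∈ range i, fb_h b n d l r + 16 * C₂ * dphi d * (1 + j)) := by
              apply mul_le_mul_of_nonneg_left _ g9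
              linarith
          _ = _ := by ring
      linarith
    · rw [if_neg hne, not_nonempty_iff_eq_empty.1 hne]
      simp
  have hsum : ∑ r ∈ W', F r / r * inner r ≤
      4 * C₄ * dphi d * (∑ r ∈ W', F r / r * Real.posLog (F r / A)) + 12 * C₄ * dphi d * A +
      16 * C₂ * dphi d * (1 + j) * ∑ r ∈ W', F r / r := by
    rw [hdy (fun r => F r / r * inner r), hdy (fun r => F r / r * Real.posLog (F r / A)),
      hdy (fun r => F r / r)]
    refine (sum_le_sum hone).trans ?_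
    rw [sum_add_distrib, sum_add_distrib, ← mul_sum, ← mul_sum]
    have hcount : ∑ i ∈ range I, (if (W'.filter (fun r => 2 ^ i < r ∧ r ≤ 2 ^ (i + 1))).Nonempty then
        4 * C₄ * dphi d * A / N' else 0) ≤ 12 * C₄ * dphi d * A := by
      rw [← sum_filter, sum_const, nsmul_eq_mul]
      have hc : (((range I).filter (fun i =>
          (W'.filter (fun r => 2 ^ i < r ∧ r ≤ 2 ^ (i + 1))).Nonempty)).card : ℝ) ≤ 3 * N' := by
        have h1 : (range I).filter (fun i =>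
            (W'.filter (fun r => 2 ^ i < r ∧ r ≤ 2 ^ (i + 1))).Nonempty) ⊆ range (⌊2 * N'⌋₊ + 1) := by
          intro i hi
          rw [mem_filter] at hi
          rw [mem_range]
          have := (hblock i hi.1 hi.2).2.2.2.1
          omega
        have h2 := card_le_card h1
        rw [card_range] at h2
        have h3 : ((⌊2 * N'⌋₊ + 1 : ℕ) : ℝ) ≤ 3 * N' := by
          have := Nat.floor_le (show 0 ≤ 2 * N' by linarith)
          push_cast
          linarith
        refine le_trans ?_ h3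
        exact_mod_cast h2
      have hN'0 : 0 < N' := by linarith
      calc _ ≤ 3 * N' * (4 * C₄ * dphi d * A / N') := by gcongr
        _ = _ := by field_simp; ring
    linarith
  refine hsum.trans ?_
  have hWsub : ∀ f : ℕ → ℝ, (∀ r, 0 ≤ f r) → ∑ r ∈ W', f r ≤ ∑ r ∈ W (n - j), f r := by
    intro f hf
    exact sum_le_sum_of_subset_of_nonneg (filter_subset _ _) (fun r _ _ => hf r)
  have k1 := hWsub (fun r => F r / r * Real.posLog (F r / A))
    (fun r => mul_nonneg (div_nonneg (hF0 r) (Nat.cast_nonneg _)) Real.posLog_nonneg)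
  have k2 := hWsub (fun r => F r / r) (fun r => div_nonneg (hF0 r) (Nat.cast_nonneg _))
  have k3 : ∑ r ∈ W (n - j), F r / r * (1 + j + Real.posLog (F r / A)) =
      (1 + j) * ∑ r ∈ W (n - j), F r / r + ∑ r ∈ W (n - j), F r / r * Real.posLog (F r / A) := by
    rw [mul_sum, ← sum_add_distrib]
    apply sum_congr rfl
    intro r _
    ring
  rw [k3]
  set S1 := ∑ r ∈ W (n - j), F r / r * Real.posLog (F r / A) with hS1
  set S2 := ∑ r ∈ W (n - j), F r / r with hS2
  have hS1' : 0 ≤ S1 := sum_nonneg (fun r _ =>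
    mul_nonneg (div_nonneg (hF0 r) (Nat.cast_nonneg _)) Real.posLog_nonneg)
  have hS2' : 0 ≤ S2 := sum_nonneg (fun r _ => div_nonneg (hF0 r) (Nat.cast_nonneg _))
  have hj0 : (0 : ℝ) ≤ j := Nat.cast_nonneg j
  calc 4 * C₄ * dphi d * (∑ r ∈ W', F r / r * Real.posLog (F r / A)) + 12 * C₄ * dphi d * A +
      16 * C₂ * dphi d * (1 + j) * ∑ r ∈ W', F r / r
      ≤ 4 * C₄ * dphi d * S1 + 12 * C₄ * dphi d * A + 16 * C₂ * dphi d * (1 + j) * S2 := by
        gcongr
    _ ≤ 16 * (C₂ + C₄) * dphi d * ((1 + j) * S2 + S1 + A) := by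
        have p1 : 0 ≤ C₄ * dphi d * S1 := by positivity
        have p2 : 0 ≤ C₂ * dphi d * S1 := by positivity
        have p3 : 0 ≤ C₄ * dphi d * A := by positivity
        have p4 : 0 ≤ C₂ * dphi d * A := by positivity
        have p5 : 0 ≤ C₄ * dphi d * ((1 + j) * S2) := by positivity
        nlinarith

theorem fb_ev (b : ℕ) : ∃ n₀ : ℕ, ∀ n, n₀ ≤ n → (NN n) ^ (0.49 : ℝ) ≤ Real.sqrt (NN n) - 1 ∧
    2 ≤ Real.sqrt (NN n) ∧ 1 < MM b n := by
  have h1 := tendsto_NN_rpow (θ := 0.01) (by norm_num)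
  obtain ⟨n₁, hn₁⟩ := eventually_atTop.1 (h1.eventually_ge_atTop 2)
  refine ⟨max n₁ 1, fun n hn => ?_⟩
  have h2 := hn₁ n ((le_max_left _ _).trans hn)
  have hn1 : 1 ≤ n := (le_max_right _ _).trans hn
  have hN1 := one_le_NN n
  have hN0 := NN_pos n
  have h3 : (1 : ℝ) ≤ (NN n) ^ (0.49 : ℝ) := Real.one_le_rpow hN1 (by norm_num)
  have h4 : Real.sqrt (NN n) = (NN n) ^ (0.49 : ℝ) * (NN n) ^ (0.01 : ℝ) := by
    rw [← Real.rpow_add hN0, Real.sqrt_eq_rpow]; norm_num
  refine ⟨?_, ?_, ?_⟩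
  · rw [h4]; nlinarith
  · rw [h4]; nlinarith
  · unfold MM
    have h5 : Real.exp 1 ≤ Real.exp ((n : ℝ) ^ (4 * b + 8)) := by
      rw [Real.exp_le_exp]
      apply one_le_pow₀
      exact_mod_cast hn1
    have h6 := Nat.le_ceil (Real.exp ((n : ℝ) ^ (4 * b + 8)))
    have h7 := Real.exp_one_gt_d9
    have h8 : (1 : ℝ) < (⌈Real.exp ((n : ℝ) ^ (4 * b + 8))⌉₊ : ℝ) := by linarith
    exact_mod_cast h8

theorem F_bound : ∃ C₆ : ℝ, 1 ≤ C₆ ∧ ∀ b : ℕ, ∃ n₀ : ℕ, ∀ n, n₀ ≤ n →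
    ∀ (d : ℕ) (F A : ℕ → ℝ), 1 ≤ d → (d : ℝ) ≤ Real.exp (NN n) →
    (∀ r, 0 ≤ F r) → (∀ j, 0 < A j ∧ A j ≤ 1) →
    (∀ j ≤ n, ∀ r ∈ W (n - j), F r ≤ A j * Real.exp (KK b n / 4)) →
    ∑ r ∈ LP n, F r / r * ∑ m ∈ Icc (MM b n) ⌊Real.exp (NN n)⌋₊,
        (1 : ℝ) / m * U b n (d * r * m + 1) ≤
      C₆ * dphi d * Phi n A F := by
  classical
  obtain ⟨C₄, hC₄, hLS⟩ := LS
  obtain ⟨C₂, hC₂, hBT⟩ := U_BT
  refine ⟨16 * (C₂ + C₄), by linarith, fun b => ?_⟩
  obtain ⟨n₁, h1⟩ := hLS b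
  obtain ⟨n₂, h2⟩ := hBT b
  obtain ⟨n₃, h3⟩ := fb_ev b
  refine ⟨max n₁ (max n₂ n₃), fun n hn d F A hd hdN hF0 hA hF => ?_⟩
  have hn1 : n₁ ≤ n := (le_max_left _ _).trans hn
  have hn2 : n₂ ≤ n := ((le_max_left _ _).trans (le_max_right _ _)).trans hn
  have hn3 : n₃ ≤ n := ((le_max_right _ _).trans (le_max_right _ _)).trans hn
  obtain ⟨g1, g2, g3⟩ := h3 n hn3
  set inner : ℕ → ℝ := fun r =>
    ∑ m ∈ Icc (MM b n) ⌊Real.exp (NN n)⌋₊, (1 : ℝ) / m * U b n (d * r * m + 1) with hinner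
  have hinner0 : ∀ r, 0 ≤ inner r := fun r =>
    sum_nonneg (fun m _ => mul_nonneg (by positivity) (U_nonneg _ _ _))
  have e1 : ∑ r ∈ LP n, F r / r * inner r =
      ∑ r ∈ LP n, (if r ∈ LP n then F r / r * inner r else 0) := by
    apply sum_congr rfl
    intro r hr
    rw [if_pos hr]
  have e2 := sum_LP_le n (fun r => if r ∈ LP n then F r / r * inner r else 0) (by
    intro r
    split_ifs
    · exact mul_nonneg (div_nonneg (hF0 r) (Nat.cast_nonneg _)) (hinner0 r)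
    · exact le_rfl)
  have e3 : ∀ j ∈ range (n + 1), ∑ r ∈ W (n - j), (if r ∈ LP n then F r / r * inner r else 0) ≤
      16 * (C₂ + C₄) * dphi d *
        (∑ r ∈ W (n - j), F r / r * (1 + j + Real.posLog (F r / A j)) + A j) := by
    intro j hj
    rw [mem_range] at hj
    rw [← sum_filter]
    exact fb_window hC₂ hC₄ (h1 n hn1) (h2 n hn2) g1 g2 g3 hd hdN F hF0 (by omega) (hA j).1
      (hF j (by omega))
  change ∑ r ∈ LP n, F r / r * inner r ≤ _
  rw [e1]
  refine e2.trans ((sum_le_sum e3).trans ?_)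
  rw [← mul_sum]
  exact le_rfl

end

end Pool.Agent.NTot
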