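import Pool.Agent.NTot.SL

/-!
# Prime values of linear forms (module M2)
-/

set_option autoImplicit false

namespace Pool.Agent.NTot

open Finset Filter Topology

noncomputable section

/-- number of roots mod `l` of the product of the forms -/
def om (F : Finset (ℕ × ℕ)) (l : ℕ) : ℕ :=
  ((range l).filter (fun t => ∃ f ∈ F, l ∣ f.1 * t + f.2)).card

theorem fr_exists_root {l a : ℕ} (hl : l.Prime) (ha : ¬ l ∣ a) (b : ℕ) :
    ∃ t, t < l ∧ l ∣ a * t + b := by
  have : Fact l.Prime := ⟨hl⟩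
  have ha' : (a : ZMod l) ≠ 0 := by
    rw [Ne, ZMod.natCast_eq_zero_iff]
    exact ha
  refine ⟨(-(b : ZMod l) * (a : ZMod l)⁻¹).val, ZMod.val_lt _, ?_⟩
  rw [← ZMod.natCast_eq_zero_iff]
  push_cast
  rw [ZMod.natCast_zmod_val]
  field_simp
  ring

theorem fr_root_unique {l a b s t : ℕ} (hl : l.Prime) (ha : ¬ l ∣ a) (hs : s < l) (ht : t < l)
    (h1 : l ∣ a * s + b) (h2 : l ∣ a * t + b) : s = t := by
  have h3 : a * s + b ≡ a * t + b [MOD l] :=
    ((Nat.modEq_zero_iff_dvd).2 h1).trans ((Nat.modEq_zero_iff_dvd).2 h2).symm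
  have h4 : a * s ≡ a * t [MOD l] := Nat.ModEq.add_right_cancel' b h3
  have h5 : s ≡ t [MOD l] :=
    Nat.ModEq.cancel_left_of_coprime ((Nat.Prime.coprime_iff_not_dvd hl).2 ha) h4
  exact Nat.ModEq.eq_of_lt_of_lt h5 hs ht

theorem fr_om_ge {F : Finset (ℕ × ℕ)} {l : ℕ} (hl : l.Prime) (h1 : ∀ f ∈ F, ¬ l ∣ f.1)
    (h2 : ∀ f ∈ F, ∀ g ∈ F, f ≠ g → ¬ f.1 * g.2 ≡ g.1 * f.2 [MOD l]) : F.card ≤ om F l := by
  classical
  have hr : ∀ f : ℕ × ℕ, ∃ t, f ∈ F → (t < l ∧ l ∣ f.1 * t + f.2) := by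
    intro f
    by_cases hf : f ∈ F
    · obtain ⟨t, ht⟩ := fr_exists_root hl (h1 f hf) f.2
      exact ⟨t, fun _ => ht⟩
    · exact ⟨0, fun h => absurd h hf⟩
  choose r hr using hr
  unfold om
  apply card_le_card_of_injOn r
  · intro f hf
    rw [mem_coe, mem_filter, mem_range]
    exact ⟨(hr f hf).1, f, hf, (hr f hf).2⟩
  · intro f hf g hg hfg
    by_contra hne
    apply h2 f hf g hg hne
    have e1 := (hr f hf).2
    have e2 := (hr g hg).2
    rw [← hfg] at e2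
    have e3 : g.1 * (f.1 * r f + f.2) ≡ f.1 * (g.1 * r f + g.2) [MOD l] :=
      ((Nat.modEq_zero_iff_dvd).2 (e1.mul_left _)).trans
        ((Nat.modEq_zero_iff_dvd).2 (e2.mul_left _)).symm
    have e4 : g.1 * f.1 * r f + g.1 * f.2 ≡ g.1 * f.1 * r f + f.1 * g.2 [MOD l] := by
      have a1 : g.1 * (f.1 * r f + f.2) = g.1 * f.1 * r f + g.1 * f.2 := by ring
      have a2 : f.1 * (g.1 * r f + g.2) = g.1 * f.1 * r f + f.1 * g.2 := by ring
      rwa [a1, a2] at e3
    exact (Nat.ModEq.add_left_cancel' _ e4).symm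

theorem fr_om_le {F : Finset (ℕ × ℕ)} {l : ℕ} (hl : l.Prime) (h : ∀ f ∈ F, l ∣ f.1 → ¬ l ∣ f.2) :
    om F l ≤ F.card := by
  classical
  unfold om
  have h1 : (range l).filter (fun t => ∃ f ∈ F, l ∣ f.1 * t + f.2) ⊆
      F.biUnion (fun f => (range l).filter (fun t => l ∣ f.1 * t + f.2)) := by
    intro t ht
    rw [mem_filter] at ht
    obtain ⟨h1, f, hf, h2⟩ := ht
    rw [mem_biUnion]
    exact ⟨f, hf, mem_filter.2 ⟨h1, h2⟩⟩
  refine (card_le_card h1).trans ?_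
  refine (card_biUnion_le_card_mul _ _ 1 ?_).trans (by omega)
  intro f hf
  rw [card_le_one]
  intro s hs t ht
  rw [mem_filter, mem_range] at hs ht
  by_cases ha : l ∣ f.1
  · exfalso
    apply h f hf ha
    exact (Nat.dvd_add_right (ha.mul_right s)).1 hs.2
  · exact fr_root_unique hl ha hs.1 ht.1 hs.2 ht.2

theorem fr_om_le_self (F : Finset (ℕ × ℕ)) (l : ℕ) : om F l ≤ l := by
  unfold om
  exact (card_filter_le _ _).trans (by simp)

theorem fr_card_primeFactors {Q : ℕ} (hQ : Q ≠ 0) :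
    (Q.primeFactors.card : ℝ) * Real.log 2 ≤ Real.log Q := by
  have h1 : 2 ^ Q.primeFactors.card ≤ Q := by
    have h2 : 2 ^ Q.primeFactors.card ≤ ∏ p ∈ Q.primeFactors, p := by
      apply pow_card_le_prod
      intro p hp
      exact (Nat.prime_of_mem_primeFactors hp).two_le
    exact h2.trans (Nat.le_of_dvd (Nat.pos_of_ne_zero hQ) (Nat.prod_primeFactors_dvd Q))
  have h2 : (2 : ℝ) ^ Q.primeFactors.card ≤ Q := by exact_mod_cast h1
  have h3 := Real.log_le_log (by positivity) h2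
  rwa [Real.log_pow] at h3

/-- difference of the cross products -/
def fr_del (f g : ℕ × ℕ) : ℕ := (f.1 * g.2 - g.1 * f.2) + (g.1 * f.2 - f.1 * g.2)

theorem fr_del_dvd {f g : ℕ × ℕ} {l : ℕ} (h : f.1 * g.2 ≡ g.1 * f.2 [MOD l]) : l ∣ fr_del f g := by
  unfold fr_del
  rcases le_total (f.1 * g.2) (g.1 * f.2) with h1 | h1
  · rw [Nat.sub_eq_zero_of_le h1, zero_add]
    exact (Nat.modEq_iff_dvd' h1).1 h
  · rw [Nat.sub_eq_zero_of_le h1, add_zero]
    exact (Nat.modEq_iff_dvd' h1).1 h.symm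

theorem fr_del_ne {f g : ℕ × ℕ} (h : f.1 * g.2 ≠ g.1 * f.2) : fr_del f g ≠ 0 := by
  unfold fr_del
  omega

theorem fr_del_le {f g : ℕ × ℕ} {A : ℝ} (hA : 0 ≤ A) (h1 : (f.1 : ℝ) ≤ A) (h2 : (f.2 : ℝ) ≤ A)
    (h3 : (g.1 : ℝ) ≤ A) (h4 : (g.2 : ℝ) ≤ A) : (fr_del f g : ℝ) ≤ A * A := by
  unfold fr_del
  have h5 : (f.1 * g.2 - g.1 * f.2) + (g.1 * f.2 - f.1 * g.2) ≤ max (f.1 * g.2) (g.1 * f.2) := by
    omega
  have h6 : (((f.1 * g.2 - g.1 * f.2) + (g.1 * f.2 - f.1 * g.2) : ℕ) : ℝ) ≤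
      ((max (f.1 * g.2) (g.1 * f.2) : ℕ) : ℝ) := by exact_mod_cast h5
  refine h6.trans ?_
  rw [Nat.cast_max]
  apply max_le
  · push_cast; gcongr
  · push_cast; gcongr

/-- product whose prime factors are the bad primes -/
def fr_Q (F : Finset (ℕ × ℕ)) : ℕ := (∏ f ∈ F, f.1) * ∏ x ∈ F.offDiag, fr_del x.1 x.2

theorem fr_Q_ne {F : Finset (ℕ × ℕ)} (h1 : ∀ f ∈ F, 1 ≤ f.1)
    (h2 : ∀ f ∈ F, ∀ g ∈ F, f ≠ g → f.1 * g.2 ≠ g.1 * f.2) : fr_Q F ≠ 0 := by
  unfold fr_Q
  apply mul_ne_zero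
  · rw [prod_ne_zero_iff]
    intro f hf
    have := h1 f hf
    omega
  · rw [prod_ne_zero_iff]
    intro x hx
    rw [mem_offDiag] at hx
    exact fr_del_ne (h2 _ hx.1 _ hx.2.1 hx.2.2)

theorem fr_Q_log {F : Finset (ℕ × ℕ)} {N : ℝ} (hN : 0 ≤ N) (h1 : ∀ f ∈ F, 1 ≤ f.1 ∧
      (f.1 : ℝ) ≤ Real.exp (5 * N) ∧ (f.2 : ℝ) ≤ Real.exp (5 * N))
    (h2 : ∀ f ∈ F, ∀ g ∈ F, f ≠ g → f.1 * g.2 ≠ g.1 * f.2) :
    Real.log (fr_Q F) ≤ 15 * N * (F.card : ℝ) ^ 2 := by
  have hQ := fr_Q_ne (fun f hf => (h1 f hf).1) h2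
  have hQpos : (0 : ℝ) < fr_Q F := by exact_mod_cast Nat.pos_of_ne_zero hQ
  have hle : (fr_Q F : ℝ) ≤ Real.exp (15 * N * (F.card : ℝ) ^ 2) := by
    unfold fr_Q
    push_cast
    have e1 : ∏ f ∈ F, (f.1 : ℝ) ≤ Real.exp (5 * N) ^ F.card := by
      rw [← prod_const]
      apply Finset.prod_le_prod
      · intro f _; positivity
      · intro f hf; exact (h1 f hf).2.1
    have e2 : ∏ x ∈ F.offDiag, (fr_del x.1 x.2 : ℝ) ≤
        (Real.exp (5 * N) * Real.exp (5 * N)) ^ F.offDiag.card := by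
      rw [← prod_const]
      apply Finset.prod_le_prod
      · intro f _; positivity
      · intro x hx
        rw [mem_offDiag] at hx
        exact fr_del_le (Real.exp_pos _).le (h1 _ hx.1).2.1 (h1 _ hx.1).2.2 (h1 _ hx.2.1).2.1
          (h1 _ hx.2.1).2.2
    have e3 : (F.offDiag.card : ℝ) ≤ (F.card : ℝ) ^ 2 := by
      have : F.offDiag.card ≤ F.card ^ 2 := by
        rw [offDiag_card, sq]; omega
      exact_mod_cast this
    have e4 : (F.card : ℝ) ≤ (F.card : ℝ) ^ 2 := by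
      have : F.card ≤ F.card ^ 2 := Nat.le_self_pow (by norm_num) _
      exact_mod_cast this
    calc _ ≤ Real.exp (5 * N) ^ F.card * (Real.exp (5 * N) * Real.exp (5 * N)) ^ F.offDiag.card := by
          gcongr
      _ = Real.exp (5 * N * F.card + 10 * N * F.offDiag.card) := by
          rw [← Real.exp_add, ← Real.exp_nat_mul, ← Real.exp_nat_mul, ← Real.exp_add]
          congr 1
          ring
      _ ≤ _ := by
          rw [Real.exp_le_exp]
          nlinarith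
  have := Real.log_le_log hQpos hle
  rwa [Real.log_exp] at this


theorem fr_one_sub_ge {x : ℝ} (h0 : 0 ≤ x) (h1 : x ≤ 1 / 2) : Real.exp (-(2 * x)) ≤ 1 - x := by
  have h2 := Real.add_one_le_exp (2 * x)
  have h3 : Real.exp (-(2 * x)) * Real.exp (2 * x) = 1 := by rw [← Real.exp_add]; simp
  have h4 := Real.exp_pos (-(2 * x))
  have h5 : Real.exp (-(2 * x)) * (1 + 2 * x) ≤ 1 := by nlinarith
  have h6 : 1 ≤ (1 - x) * (1 + 2 * x) := by nlinarith
  have h7 : Real.exp (-(2 * x)) * (1 + 2 * x) ≤ (1 - x) * (1 + 2 * x) := h5.trans h6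
  exact le_of_mul_le_mul_right h7 (by linarith)

/-- the primes beyond `N^2` -/
theorem fr_large {F : Finset (ℕ × ℕ)} {N : ℝ} (hN : 3600 ≤ N) (hJ : (F.card : ℝ) ≤ N ^ (1 / 6 : ℝ))
    (h1 : ∀ f ∈ F, 1 ≤ f.1 ∧ (f.1 : ℝ) ≤ Real.exp (5 * N) ∧ (f.2 : ℝ) ≤ Real.exp (5 * N))
    (h2 : ∀ f ∈ F, ∀ g ∈ F, f ≠ g → f.1 * g.2 ≠ g.1 * f.2) (T : Finset ℕ)
    (hT : ∀ l ∈ T, l.Prime ∧ N ^ 2 < (l : ℝ)) :
    ∏ l ∈ T, (1 - (om F l : ℝ) / l) ≤ Real.exp 1 * (∏ l ∈ T, (1 - (1 : ℝ) / l)) ^ F.card := by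
  classical
  set J := F.card with hJd
  set Q := fr_Q F with hQd
  have hN0 : 0 < N := by linarith
  have hQ : Q ≠ 0 := fr_Q_ne (fun f hf => (h1 f hf).1) h2
  have hstep : ∀ l ∈ T, 1 - (om F l : ℝ) / l ≤
      (1 - (1 : ℝ) / l) ^ J * (if l ∈ Q.primeFactors then Real.exp (2 * J / N ^ 2) else 1) := by
    intro l hl
    obtain ⟨hlp, hlN⟩ := hT l hl
    have hl2 : (2 : ℝ) ≤ l := by exact_mod_cast hlp.two_le
    have hl0 : (0 : ℝ) < l := by linarith
    split_ifs with hb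
    · have e1 : Real.exp (-(2 * (1 / (l : ℝ)))) ≤ 1 - 1 / (l : ℝ) := by
        apply fr_one_sub_ge (by positivity)
        rw [div_le_div_iff₀ hl0 (by norm_num)]; linarith
      have e2 : Real.exp (-(2 / N ^ 2)) ≤ 1 - 1 / (l : ℝ) := by
        refine le_trans ?_ e1
        rw [Real.exp_le_exp]
        have : 1 / (l : ℝ) ≤ 1 / N ^ 2 := by
          apply one_div_le_one_div_of_le (by positivity) hlN.le
        have e3 : 2 / N ^ 2 = 2 * (1 / N ^ 2) := by ring
        rw [e3]; linarith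
      have e4 : 1 ≤ (1 - (1 : ℝ) / l) ^ J * Real.exp (2 * J / N ^ 2) := by
        have e5 : Real.exp (2 * J / N ^ 2) = (Real.exp (2 / N ^ 2)) ^ J := by
          rw [← Real.exp_nat_mul]; congr 1; ring
        rw [e5, ← mul_pow]
        apply one_le_pow₀
        have e6 : Real.exp (-(2 / N ^ 2)) * Real.exp (2 / N ^ 2) = 1 := by
          rw [← Real.exp_add]; simp
        exact e6.symm.le.trans (mul_le_mul_of_nonneg_right e2 (Real.exp_pos _).le)
      have e7 : 0 ≤ (om F l : ℝ) / l := by positivity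
      linarith
    · rw [mul_one]
      have hb' : ∀ x : ℕ, x ∣ Q → ¬ l ∣ x := by
        intro x hx hlx
        exact hb (Nat.mem_primeFactors.2 ⟨hlp, hlx.trans hx, hQ⟩)
      have hge : J ≤ om F l := by
        apply fr_om_ge hlp
        · intro f hf
          apply hb'
          rw [hQd]
          unfold fr_Q
          exact (dvd_prod_of_mem (fun f : ℕ × ℕ => f.1) hf).mul_right _
        · intro f hf g hg hfg hmod
          refine hb' (fr_del f g) ?_ (fr_del_dvd hmod)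
          rw [hQd]
          unfold fr_Q
          have hmem : (f, g) ∈ F.offDiag := mem_offDiag.2 ⟨hf, hg, hfg⟩
          exact (dvd_prod_of_mem (fun x : (ℕ × ℕ) × (ℕ × ℕ) => fr_del x.1 x.2) hmem).mul_left _
      have hb1 := one_add_mul_le_pow (a := -(1 / (l : ℝ))) (by
        have : 1 / (l : ℝ) ≤ 1 := by rw [div_le_one hl0]; linarith
        linarith) J
      have hge' : (J : ℝ) ≤ om F l := by exact_mod_cast hge
      have hdiv : (J : ℝ) / l ≤ (om F l : ℝ) / l := by gcongr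
      calc 1 - (om F l : ℝ) / l ≤ 1 - (J : ℝ) / l := by linarith
        _ = 1 + (J : ℝ) * (-(1 / (l : ℝ))) := by ring
        _ ≤ (1 + -(1 / (l : ℝ))) ^ J := hb1
        _ = _ := by rw [← sub_eq_add_neg]
  have hnn : ∀ l ∈ T, 0 ≤ 1 - (om F l : ℝ) / l := by
    intro l hl
    have hl0 : (0 : ℝ) < l := by exact_mod_cast (hT l hl).1.pos
    rw [sub_nonneg, div_le_one hl0]
    exact_mod_cast fr_om_le_self F l
  have hnn1 : ∀ l ∈ T, 0 ≤ 1 - (1 : ℝ) / l := by
    intro l hl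
    have hl0 : (0 : ℝ) < l := by exact_mod_cast (hT l hl).1.pos
    rw [sub_nonneg, div_le_one hl0]
    exact_mod_cast (hT l hl).1.one_lt.le
  refine (Finset.prod_le_prod hnn hstep).trans ?_
  rw [prod_mul_distrib, prod_pow, mul_comm]
  apply mul_le_mul_of_nonneg_right _ (pow_nonneg (prod_nonneg hnn1) _)
  rw [← prod_filter, prod_const]
  have hcard : ((T.filter (fun l => l ∈ Q.primeFactors)).card : ℝ) ≤ 30 * N * (J : ℝ) ^ 2 := by
    have e1 : (T.filter (fun l => l ∈ Q.primeFactors)).card ≤ Q.primeFactors.card := by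
      apply card_le_card
      intro l hl
      exact (mem_filter.1 hl).2
    have e2 := fr_card_primeFactors hQ
    have e3 := fr_Q_log hN0.le h1 h2
    have e4 : (1 : ℝ) / 2 ≤ Real.log 2 := by
      have := Real.log_two_gt_d9; linarith
    have e5 : ((T.filter (fun l => l ∈ Q.primeFactors)).card : ℝ) ≤ Q.primeFactors.card := by
      exact_mod_cast e1
    have e6 : (0 : ℝ) ≤ Q.primeFactors.card := by positivity
    nlinarith
  rw [← Real.exp_nat_mul, Real.exp_le_exp]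
  have hJ0 : (0 : ℝ) ≤ J := by positivity
  have hJ3 : (J : ℝ) ^ 3 ≤ N ^ (1 / 2 : ℝ) := by
    calc (J : ℝ) ^ 3 ≤ (N ^ (1 / 6 : ℝ)) ^ 3 := by gcongr
      _ = N ^ (1 / 2 : ℝ) := by
        rw [← Real.rpow_natCast, ← Real.rpow_mul hN0.le]; norm_num
  have hhalf : N ^ (1 / 2 : ℝ) * N ^ (1 / 2 : ℝ) = N := by
    rw [← Real.rpow_add hN0]; norm_num
  have h60 : (60 : ℝ) ≤ N ^ (1 / 2 : ℝ) := by
    have : (60 : ℝ) = (3600 : ℝ) ^ (1 / 2 : ℝ) := by
      rw [← Real.sqrt_eq_rpow, show (3600 : ℝ) = 60 ^ 2 by norm_num, Real.sqrt_sq (by norm_num)]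
    rw [this]
    gcongr
  calc ((T.filter (fun l => l ∈ Q.primeFactors)).card : ℝ) * (2 * J / N ^ 2)
      ≤ (30 * N * (J : ℝ) ^ 2) * (2 * J / N ^ 2) := by gcongr
    _ = 60 * (J : ℝ) ^ 3 / N := by field_simp; ring
    _ ≤ 60 * N ^ (1 / 2 : ℝ) / N := by gcongr
    _ ≤ N ^ (1 / 2 : ℝ) * N ^ (1 / 2 : ℝ) / N := by gcongr
    _ = 1 := by rw [hhalf]; exact div_self hN0.ne'

theorem fr_ev (c : ℝ) (hc : 0 < c) : ∃ N₀ : ℝ, ∀ N : ℝ, N₀ ≤ N →
    3600 ≤ N ∧ 2 * Real.log N + 2 ≤ N ^ ((0.49 : ℝ) - 1 / 6) / c := by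
  have h1 := isLittleO_log_rpow_atTop (r := (0.49 : ℝ) - 1 / 6) (by norm_num)
  have h2 := h1.bound (show (0 : ℝ) < 1 / (4 * c) by positivity)
  rw [Filter.eventually_atTop] at h2
  obtain ⟨N₁, h2⟩ := h2
  refine ⟨max N₁ 3600, fun N hN => ⟨(le_max_right _ _).trans hN, ?_⟩⟩
  have h3 := h2 N ((le_max_left _ _).trans hN)
  have hN3 : (3600 : ℝ) ≤ N := (le_max_right _ _).trans hN
  have hlog : 1 ≤ Real.log N := by
    rw [Real.le_log_iff_exp_le (by linarith)]
    have := Real.exp_one_lt_d9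
    linarith
  rw [Real.norm_of_nonneg (by linarith), Real.norm_of_nonneg (by positivity)] at h3
  have e1 : 1 / (4 * c) * N ^ ((0.49 : ℝ) - 1 / 6) = (N ^ ((0.49 : ℝ) - 1 / 6) / c) / 4 := by
    field_simp
  rw [e1] at h3
  linarith

theorem forms : ∃ C₁ : ℝ, 1 ≤ C₁ ∧ ∃ N₀ : ℝ, ∀ N : ℝ, N₀ ≤ N →
    ∀ (F F₀ : Finset (ℕ × ℕ)) (X : ℕ), F₀ ⊆ F → 1 ≤ F.card → (F.card : ℝ) ≤ N ^ (1 / 6 : ℝ) →
    (∀ f ∈ F, 1 ≤ f.1 ∧ (f.1 : ℝ) ≤ Real.exp (5 * N) ∧ (f.2 : ℝ) ≤ Real.exp (5 * N)) →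
    (∀ f ∈ F, ∀ g ∈ F, f ≠ g → f.1 * g.2 ≠ g.1 * f.2) →
    N ^ (0.49 : ℝ) ≤ Real.log X → Real.log X ≤ 5 * N →
    (((Ioc X (2 * X)).filter (fun t => ∀ f ∈ F, (f.1 * t + f.2).Prime)).card : ℝ) ≤
      X * (∏ l ∈ PZ ⌊N ^ 2⌋₊, (1 - (om F₀ l : ℝ) / l)) *
        (C₁ * F.card * Real.log N / Real.log X) ^ F.card := by
  classical
  obtain ⟨C₀, hC₀, hSL⟩ := SL
  obtain ⟨C, hC, hM⟩ := mertens_prod_range
  have he1 : 1 ≤ Real.exp 1 := Real.one_le_exp (by norm_num)
  obtain ⟨N₀, hN₀⟩ := fr_ev C₀ (by linarith)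
  refine ⟨16 * Real.exp 1 * C * C₀, ?_, N₀, ?_⟩
  · have : 1 ≤ Real.exp 1 * C := one_le_mul_of_one_le_of_one_le he1 hC
    have : 1 ≤ Real.exp 1 * C * C₀ := one_le_mul_of_one_le_of_one_le this hC₀
    nlinarith
  intro N hN F F₀ X hFF hJ1 hJ h1 h2 hX1 hX2
  obtain ⟨hN3, hNR⟩ := hN₀ N hN
  set J := F.card with hJd
  set L := Real.log X with hL
  have hN0 : 0 < N := by linarith
  have hJ1R : (1 : ℝ) ≤ J := by exact_mod_cast hJ1
  have hlogN : 0 < Real.log N := Real.log_pos (by linarith)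
  have hNpow : 0 < N ^ (0.49 : ℝ) := Real.rpow_pos_of_pos hN0 _
  have hL0 : 0 < L := lt_of_lt_of_le hNpow hX1
  have hX0 : 0 < X := by
    rcases Nat.eq_zero_or_pos X with h | h
    · rw [hL, h] at hL0; simp at hL0
    · exact h
  have hXR : (0 : ℝ) < X := by exact_mod_cast hX0
  set R := L / (C₀ * J) with hR
  have hCJ : 0 < C₀ * J := by positivity
  have hR1 : 2 * Real.log N + 2 ≤ R := by
    refine hNR.trans ?_
    rw [hR, div_le_div_iff₀ (by linarith) hCJ, Real.rpow_sub hN0]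
    have hN6 : 0 < N ^ (1 / 6 : ℝ) := Real.rpow_pos_of_pos hN0 _
    calc N ^ (0.49 : ℝ) / N ^ (1 / 6 : ℝ) * (C₀ * J)
        ≤ N ^ (0.49 : ℝ) / N ^ (1 / 6 : ℝ) * (C₀ * N ^ (1 / 6 : ℝ)) := by gcongr
      _ = N ^ (0.49 : ℝ) * C₀ := by field_simp
      _ ≤ L * C₀ := by gcongr
  have hR2 : 2 ≤ R := by linarith
  have hRL : R ≤ L := by
    rw [hR]
    apply div_le_self hL0.le
    exact one_le_mul_of_one_le_of_one_le hC₀ hJ1R
  set z := ⌊Real.exp R⌋₊ with hz
  set y := ⌊N ^ 2⌋₊ with hy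
  have hexpR : 3 ≤ Real.exp R := by
    have := Real.add_one_le_exp R; linarith
  have hz2 : 2 ≤ z := by
    rw [hz]; apply Nat.le_floor; push_cast; linarith
  have hzle : (z : ℝ) ≤ Real.exp R := Nat.floor_le (Real.exp_pos _).le
  have hz0 : (0 : ℝ) < z := by exact_mod_cast (by omega : 0 < z)
  have hzX : z ≤ X := by
    have : (z : ℝ) ≤ X := by
      refine hzle.trans ?_
      calc Real.exp R ≤ Real.exp L := Real.exp_le_exp.2 hRL
        _ = X := by rw [hL, Real.exp_log hXR]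
    exact_mod_cast this
  have hlogz : Real.log z ≤ R := by
    have := Real.log_le_log hz0 hzle
    rwa [Real.log_exp] at this
  have hlogz2 : R / 2 ≤ Real.log z := by
    have e1 : Real.exp R / 2 ≤ z := by
      have := Nat.lt_floor_add_one (Real.exp R)
      rw [← hz] at this
      linarith
    have e2 := Real.log_le_log (by positivity) e1
    rw [Real.log_div (Real.exp_pos _).ne' (by norm_num), Real.log_exp] at e2
    have e3 := Real.log_two_lt_d9
    linarith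
  have hy2 : 2 ≤ y := by
    rw [hy]; apply Nat.le_floor; push_cast; nlinarith
  have hyle : (y : ℝ) ≤ N ^ 2 := Nat.floor_le (by positivity)
  have hyz : y ≤ z := by
    rw [hy, hz]
    apply Nat.floor_mono
    calc N ^ 2 = Real.exp (2 * Real.log N) := by
          rw [mul_comm, Real.exp_mul, Real.exp_log hN0]; norm_cast
      _ ≤ Real.exp R := Real.exp_le_exp.2 (by linarith)
  have hlogz0 : 0 < Real.log z := by linarith
  -- nonnegativity of the right side
  have hprodnn : 0 ≤ ∏ l ∈ PZ y, (1 - (om F₀ l : ℝ) / l) := by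
    apply prod_nonneg
    intro l hl
    have hl0 : (0 : ℝ) < l := by exact_mod_cast (mem_PZ.1 hl).1.pos
    rw [sub_nonneg, div_le_one hl0]
    exact_mod_cast fr_om_le_self F₀ l
  by_cases hdeg : ∃ f ∈ F, ∃ l, l.Prime ∧ l ≤ z ∧ l ∣ f.1 ∧ l ∣ f.2
  · obtain ⟨f, hf, l, hlp, hlz, hl1, hl2⟩ := hdeg
    have h0 : (Ioc X (2 * X)).filter (fun t => ∀ f ∈ F, (f.1 * t + f.2).Prime) = ∅ := by
      rw [filter_eq_empty_iff]
      intro t ht hall
      rw [mem_Ioc] at ht
      have hp := hall f hf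
      have hd : l ∣ f.1 * t + f.2 := dvd_add (hl1.mul_right _) hl2
      have he := (Nat.prime_dvd_prime_iff_eq hlp hp).1 hd
      have h1f := (h1 f hf).1
      have : t ≤ f.1 * t := Nat.le_mul_of_pos_left _ h1f
      omega
    rw [h0, card_empty, Nat.cast_zero]
    positivity
  · push Not at hdeg
    set G : ℕ → Finset (ℕ × ℕ) := fun l => if l ≤ y then F₀ else F with hG
    have hGF : ∀ l, G l ⊆ F := by
      intro l
      simp only [hG]
      split_ifs
      · exact hFF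
      · exact Subset.refl _
    set Ω : ℕ → Finset ℕ := fun l => (range l).filter (fun t => ∃ f ∈ G l, l ∣ f.1 * t + f.2) with hΩ
    have hΩom : ∀ l, (Ω l).card = om (G l) l := fun l => rfl
    have hs := hSL J X X z Ω hJ1 hz2 hX0 ?_ ?_
    · have hsub : (((Ioc X (2 * X)).filter (fun t => ∀ f ∈ F, (f.1 * t + f.2).Prime)).card : ℝ) ≤
          (((Ioc X (X + X)).filter (fun n => ∀ l ∈ PZ z, n % l ∉ Ω l)).card : ℝ) := by
        rw [two_mul]
        norm_cast
        apply card_le_card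
        intro t ht
        rw [mem_filter] at ht ⊢
        refine ⟨ht.1, ?_⟩
        intro l hl hmem
        rw [hΩ, mem_filter] at hmem
        obtain ⟨_, f, hf, hdv⟩ := hmem
        have hfF := hGF l hf
        have hp := ht.2 f hfF
        have hd : l ∣ f.1 * t + f.2 := by
          have e1 : f.1 * (t % l) + f.2 ≡ f.1 * t + f.2 [MOD l] :=
            Nat.ModEq.add_right _ (Nat.ModEq.mul_left _ (Nat.mod_modEq t l))
          exact (e1.dvd_iff dvd_rfl).1 hdv
        have he := (Nat.prime_dvd_prime_iff_eq (mem_PZ.1 hl).1 hp).1 hd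
        have h1f := (h1 f hfF).1
        have h3 : t ≤ f.1 * t := Nat.le_mul_of_pos_left _ h1f
        have h4 := (mem_PZ.1 hl).2
        have h5 := (mem_Ioc.1 ht.1).1
        omega
      refine (hsub.trans hs).trans ?_
      have hsplit : ∏ l ∈ PZ z, (1 - ((Ω l).card : ℝ) / l) =
          (∏ l ∈ PZ y, (1 - (om F₀ l : ℝ) / l)) *
            ∏ l ∈ (PZ z).filter (fun l => y < l), (1 - (om F l : ℝ) / l) := by
        rw [← prod_filter_mul_prod_filter_not (PZ z) (fun l => l ≤ y)]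
        congr 1
        · have e1 : (PZ z).filter (fun l => l ≤ y) = PZ y := by
            ext l
            rw [mem_filter, mem_PZ, mem_PZ]
            constructor
            · rintro ⟨⟨a, _⟩, b⟩; exact ⟨a, b⟩
            · rintro ⟨a, b⟩; exact ⟨⟨a, b.trans hyz⟩, b⟩
          rw [e1]
          apply prod_congr rfl
          intro l hl
          rw [hΩom, hG]
          simp only [(mem_PZ.1 hl).2, if_true]
        · have e1 : (PZ z).filter (fun l => ¬ l ≤ y) = (PZ z).filter (fun l => y < l) := by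
            apply filter_congr
            intro l _
            exact not_le
          rw [e1]
          apply prod_congr rfl
          intro l hl
          rw [mem_filter] at hl
          rw [hΩom, hG]
          simp only [not_le.2 hl.2, if_false]
      rw [hsplit]
      have hlarge := fr_large hN3 hJ h1 h2 ((PZ z).filter (fun l => y < l)) (by
        intro l hl
        rw [mem_filter, mem_PZ] at hl
        refine ⟨hl.1.1, ?_⟩
        have := (Nat.floor_lt (by positivity)).1 hl.2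
        exact this)
      have hMz := hM y z hy2 hyz
      have hnn1 : 0 ≤ ∏ l ∈ (PZ z).filter (fun l => y < l), (1 - (1 : ℝ) / l) := by
        apply prod_nonneg
        intro l hl
        rw [mem_filter, mem_PZ] at hl
        have hl0 : (0 : ℝ) < l := by exact_mod_cast hl.1.1.pos
        rw [sub_nonneg, div_le_one hl0]
        exact_mod_cast hl.1.1.one_lt.le
      have hlogy : Real.log y ≤ 2 * Real.log N := by
        have e1 := Real.log_le_log (by exact_mod_cast (by omega : 0 < y)) hyle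
        rw [Real.log_pow] at e1
        push_cast at e1
        exact e1
      have hbase : ∏ l ∈ (PZ z).filter (fun l => y < l), (1 - (1 : ℝ) / l) ≤
          4 * C * C₀ * J * Real.log N / L := by
        refine hMz.trans ?_
        have hR' : R / 2 = L / (2 * (C₀ * J)) := by rw [hR]; field_simp
        calc C * Real.log y / Real.log z ≤ C * (2 * Real.log N) / (L / (2 * (C₀ * J))) := by
              gcongr
              rw [← hR']; exact hlogz2
          _ = _ := by field_simp; ring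
      have hfinal : 4 * (Real.exp 1 * (4 * C * C₀ * J * Real.log N / L) ^ J) ≤
          (16 * Real.exp 1 * C * C₀ * J * Real.log N / L) ^ J := by
        have e1 : 16 * Real.exp 1 * C * C₀ * J * Real.log N / L =
            (4 * Real.exp 1) * (4 * C * C₀ * J * Real.log N / L) := by ring
        rw [e1, mul_pow, ← mul_assoc]
        apply mul_le_mul_of_nonneg_right _ (by positivity)
        exact le_self_pow₀ (by linarith) (by omega)
      calc 4 * X * ((∏ l ∈ PZ y, (1 - (om F₀ l : ℝ) / l)) *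
            ∏ l ∈ (PZ z).filter (fun l => y < l), (1 - (om F l : ℝ) / l))
          ≤ 4 * X * ((∏ l ∈ PZ y, (1 - (om F₀ l : ℝ) / l)) *
            (Real.exp 1 * (4 * C * C₀ * J * Real.log N / L) ^ J)) := by
            gcongr
            refine hlarge.trans ?_
            gcongr
        _ = X * (∏ l ∈ PZ y, (1 - (om F₀ l : ℝ) / l)) *
            (4 * (Real.exp 1 * (4 * C * C₀ * J * Real.log N / L) ^ J)) := by ring
        _ ≤ _ := by gcongr
    · calc C₀ * J * Real.log z ≤ C₀ * J * R := by gcongr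
        _ = L := by rw [hR]; field_simp
    · intro l hl
      refine ⟨filter_subset _ _, ?_⟩
      rw [hΩom]
      refine (fr_om_le (mem_PZ.1 hl).1 ?_).trans (card_le_card (hGF l))
      intro f hf hl1 hl2
      exact hdeg f (hGF l hf) l (mem_PZ.1 hl).1 (mem_PZ.1 hl).2 hl1 hl2

end

end Pool.Agent.NTot
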