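import Pool.Agent.NTot.Mom
import Pool.Agent.NTot.UBT
import Pool.Agent.NTot.Basic

/-!
# Primes p with a very large prime factor of p-1; Brun-Titchmarsh in windows (module M9a)
-/

set_option autoImplicit false

namespace Pool.Agent.NTot

open Finset Filter Topology

noncomputable section

namespace LFac

theorem one_le_U {b n P : ℕ} (h : P.Prime) : 1 ≤ U b n P := by
  unfold U
  have h0 : uu (MM b n) 0 P = 1 := by simp [uu, h]
  calc (1 : ℝ) = uu (MM b n) 0 P := h0.symm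
    _ ≤ ∑ s ∈ range (KK b n + 1), uu (MM b n) s P :=
      Finset.single_le_sum (f := fun s => uu (MM b n) s P) (fun s _ => uu_nonneg _ _ _)
        (mem_range.mpr (by omega))

theorem tendsto_NN : Tendsto (fun n : ℕ => NN n) atTop atTop :=
  tendsto_pow_atTop_atTop_of_one_lt one_lt_lam

theorem rpow_le {N v : ℝ} (hN : 0 < N) (hv : 0 < v) (h : 4 / v ≤ N ^ (0.51 : ℝ)) :
    N ^ (0.49 : ℝ) ≤ v * N / 4 := by
  have e : N = N ^ (0.49 : ℝ) * N ^ (0.51 : ℝ) := by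
    rw [← Real.rpow_add hN]; norm_num
  have h1 : N ^ (0.49 : ℝ) * (4 / v) ≤ N := by
    calc N ^ (0.49 : ℝ) * (4 / v) ≤ N ^ (0.49 : ℝ) * N ^ (0.51 : ℝ) := by gcongr
      _ = N := e.symm
  have h2 : N ^ (0.49 : ℝ) * (4 / v) * (v / 4) = N ^ (0.49 : ℝ) := by field_simp
  rw [← h2]
  calc N ^ (0.49 : ℝ) * (4 / v) * (v / 4) ≤ N * (v / 4) := by gcongr
    _ = _ := by ring

theorem log_floor_exp {x : ℝ} (hx : 1 ≤ x) : x - 1 ≤ Real.log (⌊Real.exp x⌋₊ : ℝ) ∧
    Real.log (⌊Real.exp x⌋₊ : ℝ) ≤ x ∧ 1 ≤ ⌊Real.exp x⌋₊ := by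
  have h1 : Real.exp x < (⌊Real.exp x⌋₊ : ℝ) + 1 := Nat.lt_floor_add_one _
  have h2 : 2 ≤ Real.exp x := by linarith [Real.add_one_le_exp x]
  have h3 : Real.exp (x - 1) ≤ (⌊Real.exp x⌋₊ : ℝ) := by
    rw [Real.exp_sub, div_le_iff₀ (Real.exp_pos _)]
    have a3 : (2 : ℝ) ≤ Real.exp 1 := by linarith [Real.add_one_le_exp (1 : ℝ)]
    nlinarith
  have h4 : (0 : ℝ) < (⌊Real.exp x⌋₊ : ℝ) := lt_of_lt_of_le (Real.exp_pos _) h3
  refine ⟨?_, ?_, ?_⟩
  · rw [Real.le_log_iff_exp_le h4]; exact h3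
  · rw [Real.log_le_iff_le_exp h4]
    exact Nat.floor_le (Real.exp_pos _).le
  · exact_mod_cast h4

theorem exp_le_two_pow {N : ℝ} (I : ℕ) (h : N ≤ I * Real.log 2) : Real.exp N ≤ 2 ^ I := by
  calc Real.exp N ≤ Real.exp (I * Real.log 2) := Real.exp_le_exp.mpr h
    _ = 2 ^ I := by rw [Real.exp_nat_mul, Real.exp_log (by norm_num)]

theorem W_facts {n p : ℕ} (hN : 200 ≤ NN n) (hp : p ∈ W n) : p.Prime ∧ 8 / 9 * NN n ≤ Real.log p ∧
    Real.log p ≤ NN n ∧ 3 ≤ p := by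
  rw [mem_W] at hp
  obtain ⟨h1, h2, h3⟩ := hp
  have h4 : 8 / 9 * NN n ≤ Real.log p := by unfold lam at h2; linarith
  refine ⟨h1, h4, h3, ?_⟩
  have h5 : (100 : ℝ) ≤ Real.log p := by linarith
  by_contra h
  have h6 : p ≤ 2 := by omega
  have hp0 : (0 : ℝ) < p := by exact_mod_cast h1.pos
  have h7 : Real.log p ≤ p - 1 := Real.log_le_sub_one_of_pos hp0
  have h8 : (p : ℝ) ≤ 2 := by exact_mod_cast h6
  linarith

theorem rho_eq (n : ℕ) (P : ℕ → Prop) [DecidablePred P] :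
    rho n P = ∑ p ∈ (W n).filter P, (1 : ℝ) / p := by
  unfold rho
  congr!

/-- one block -/
theorem block_BT {C₂ c : ℝ} (b n d X : ℕ) (hc : 0 < c) (hd : 1 ≤ d) (hX : 1 ≤ X) (hC₂ : 0 ≤ C₂)
    (hlow : c ≤ Real.log X)
    (hb : ∑ m ∈ Ioc X (2 * X), U b n (d * m + 1) ≤ C₂ * X / Real.log X * dphi d) :
    ∑ m ∈ Ioc X (2 * X), 1 / ((d : ℝ) * m) * U b n (d * m + 1) ≤ C₂ / (c * Nat.totient d) := by
  have hX0 : (0 : ℝ) < X := by exact_mod_cast hX
  have hd0 : (1 : ℝ) ≤ d := by exact_mod_cast hd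
  have htot : (0 : ℝ) < Nat.totient d := by exact_mod_cast Nat.totient_pos.mpr (by omega)
  have hlX : 0 < Real.log X := by linarith
  calc ∑ m ∈ Ioc X (2 * X), 1 / ((d : ℝ) * m) * U b n (d * m + 1)
      ≤ ∑ m ∈ Ioc X (2 * X), 1 / ((d : ℝ) * X) * U b n (d * m + 1) := by
        apply Finset.sum_le_sum
        intro m hm
        rw [mem_Ioc] at hm
        have hmX : (X : ℝ) ≤ m := by exact_mod_cast hm.1.le
        have := U_nonneg b n (d * m + 1)
        gcongr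
    _ = 1 / ((d : ℝ) * X) * ∑ m ∈ Ioc X (2 * X), U b n (d * m + 1) := by rw [Finset.mul_sum]
    _ ≤ 1 / ((d : ℝ) * X) * (C₂ * X / Real.log X * dphi d) := by gcongr
    _ = C₂ / (Real.log X * Nat.totient d) := by
        unfold dphi
        field_simp
    _ ≤ C₂ / (c * Nat.totient d) := by gcongr

/-- the number of dyadic blocks -/
theorem exists_I {N : ℝ} (hN : 4 ≤ N) : ∃ I : ℕ, N ≤ I * Real.log 2 ∧ I * Real.log 2 ≤ N + 1 ∧
    (I : ℝ) ≤ 2 * N := by
  have hl2 : (0.69 : ℝ) ≤ Real.log 2 := by linarith [Real.log_two_gt_d9]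
  have hl2' : Real.log 2 ≤ 0.7 := by linarith [Real.log_two_lt_d9]
  have hl2p : 0 < Real.log 2 := by linarith
  refine ⟨⌈N / Real.log 2⌉₊, ?_, ?_, ?_⟩
  · have := Nat.le_ceil (N / Real.log 2)
    rwa [div_le_iff₀ hl2p] at this
  · have hI2 := Nat.ceil_lt_add_one (show 0 ≤ N / Real.log 2 by positivity)
    have h5 : (⌈N / Real.log 2⌉₊ : ℝ) * Real.log 2 ≤ (N / Real.log 2 + 1) * Real.log 2 := by gcongr
    have h6 : (N / Real.log 2 + 1) * Real.log 2 = N + Real.log 2 := by field_simp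
    linarith
  · have hI2 := Nat.ceil_lt_add_one (show 0 ≤ N / Real.log 2 by positivity)
    have : N / Real.log 2 ≤ N / 0.69 := by gcongr
    have h7 : N / 0.69 + 1 ≤ 2 * N := by
      rw [div_add_one (by norm_num), div_le_iff₀ (by norm_num)]
      linarith
    linarith

theorem log_block (i M : ℕ) (hM : 1 ≤ M) :
    Real.log ((2 ^ i * M : ℕ) : ℝ) = i * Real.log 2 + Real.log M := by
  have : (1 : ℝ) ≤ M := by exact_mod_cast hM
  push_cast
  rw [Real.log_mul (by positivity) (by positivity), Real.log_pow]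

end LFac

open LFac in
theorem BT_window : ∃ C : ℝ, 1 ≤ C ∧ ∀ v : ℝ, 0 < v → v < 1 / 2 → ∃ n₀ : ℕ, ∀ n, n₀ ≤ n →
    ∀ d : ℕ, 1 ≤ d → rho n (fun p => d ∣ p - 1 ∧ Real.log d ≤ (1 - v) * Real.log p) ≤
      C / (v * (Nat.totient d : ℝ)) := by
  classical
  obtain ⟨C₂, hC₂, hBT⟩ := U_BT
  refine ⟨8 * C₂, by linarith, fun v hv0 hv1 => ?_⟩
  obtain ⟨n1, hn1⟩ := hBT 0
  have hlim2 : Tendsto (fun n : ℕ => NN n ^ (0.51 : ℝ)) atTop atTop :=
    tendsto_NN_rpow (by norm_num)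
  obtain ⟨n2, hn2⟩ := eventually_atTop.mp (tendsto_NN.eventually (eventually_ge_atTop (100 / v)))
  obtain ⟨n3, hn3⟩ := eventually_atTop.mp (hlim2.eventually (eventually_ge_atTop (4 / v)))
  refine ⟨max n1 (max n2 n3), fun n hn d hd => ?_⟩
  have hnn1 : n1 ≤ n := (le_max_left _ _).trans hn
  have hnn2 : n2 ≤ n := (le_max_left _ _).trans ((le_max_right _ _).trans hn)
  have hnn3 : n3 ≤ n := (le_max_right _ _).trans ((le_max_right _ _).trans hn)
  have hvN : 100 ≤ v * NN n := by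
    have := hn2 n hnn2
    rw [div_le_iff₀ hv0] at this
    linarith
  have hN200 : 200 ≤ NN n := by
    have hNp := NN_pos n
    nlinarith
  have hNp := NN_pos n
  have h49 := rpow_le hNp hv0 (hn3 n hnn3)
  have hd0 : (1 : ℝ) ≤ d := by exact_mod_cast hd
  have htot : (0 : ℝ) < Nat.totient d := by exact_mod_cast Nat.totient_pos.mpr (by omega)
  rw [rho_eq]
  set S := (W n).filter (fun p => d ∣ p - 1 ∧ Real.log d ≤ (1 - v) * Real.log p) with hS
  rcases S.eq_empty_or_nonempty with hemp | ⟨p₀, hp₀⟩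
  · rw [hemp, sum_empty]
    positivity
  have hdle : (d : ℝ) ≤ Real.exp (3 * NN n) := by
    rw [hS, mem_filter] at hp₀
    obtain ⟨h1, h2, h3⟩ := hp₀
    have h4 := (W_facts hN200 h1)
    have h5 : Real.log d ≤ 3 * NN n := by
      have h6 : (1 - v) * Real.log p₀ ≤ 1 * Real.log p₀ := by
        have : 0 ≤ Real.log p₀ := by linarith [h4.2.1]
        gcongr
        linarith
      linarith [h4.2.2.1]
    rw [← Real.exp_log (show (0 : ℝ) < d by linarith)]
    exact Real.exp_le_exp.mpr h5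
  set g : ℕ → ℝ := fun m => 1 / ((d : ℝ) * m) * U 0 n (d * m + 1) with hg
  have hg0 : ∀ m, 0 ≤ g m := fun m => mul_nonneg (by positivity) (U_nonneg _ _ _)
  have hfac : ∀ p ∈ S, p = d * ((p - 1) / d) + 1 ∧ 1 ≤ (p - 1) / d := by
    intro p hp
    rw [hS, mem_filter] at hp
    have h4 := (W_facts hN200 hp.1)
    have h5 : d * ((p - 1) / d) = p - 1 := Nat.mul_div_cancel' hp.2.1
    refine ⟨by omega, ?_⟩
    have : d ≤ p - 1 := Nat.le_of_dvd (by omega) hp.2.1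
    exact (Nat.one_le_div_iff (by omega)).mpr this
  have h1 : ∑ p ∈ S, (1 : ℝ) / p ≤ ∑ p ∈ S, g ((p - 1) / d) := by
    apply Finset.sum_le_sum
    intro p hp
    obtain ⟨h5, h6⟩ := hfac p hp
    have hpp : p.Prime := by
      rw [hS, mem_filter] at hp
      exact (W_facts hN200 hp.1).1
    have h7 : 1 ≤ U 0 n (d * ((p - 1) / d) + 1) := by
      rw [← h5]; exact one_le_U hpp
    have hm0 : (1 : ℝ) ≤ (((p - 1) / d : ℕ) : ℝ) := by exact_mod_cast h6
    have h8 : (d : ℝ) * (((p - 1) / d : ℕ) : ℝ) ≤ p := by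
      have : d * ((p - 1) / d) ≤ p := by omega
      exact_mod_cast this
    have hpos : 0 < (d : ℝ) * (((p - 1) / d : ℕ) : ℝ) := by positivity
    calc (1 : ℝ) / p ≤ 1 / ((d : ℝ) * (((p - 1) / d : ℕ) : ℝ)) := by
          apply one_div_le_one_div_of_le hpos h8
      _ ≤ 1 / ((d : ℝ) * (((p - 1) / d : ℕ) : ℝ)) * U 0 n (d * ((p - 1) / d) + 1) :=
          le_mul_of_one_le_right (by positivity) h7
  have h2 : ∑ p ∈ S, g ((p - 1) / d) = ∑ m ∈ S.image (fun p => (p - 1) / d), g m := by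
    rw [Finset.sum_image]
    intro p hp q hq hpq
    have hp' := (hfac p hp).1
    have hq' := (hfac q hq).1
    simp only at hpq
    rw [hp', hq', hpq]
  obtain ⟨hM1, hM2, hM3⟩ := log_floor_exp (x := v * NN n / 3) (by linarith)
  obtain ⟨M, hM⟩ : ∃ M, M = ⌊Real.exp (v * NN n / 3)⌋₊ := ⟨_, rfl⟩
  rw [← hM] at hM1 hM2 hM3
  obtain ⟨I, hI1, hI4, hI3⟩ := exists_I (N := NN n) (by linarith)
  have hl2' : Real.log 2 ≤ 1 := by linarith [Real.log_two_lt_d9]
  have h3 := sum_dyadic_from M g I (S.image (fun p => (p - 1) / d)) (by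
    intro m hm
    rw [mem_image] at hm
    obtain ⟨p, hp, rfl⟩ := hm
    obtain ⟨h5, h6⟩ := hfac p hp
    rw [hS, mem_filter] at hp
    obtain ⟨hpW, _, hpd⟩ := hp
    obtain ⟨hpp, hW1, hW2, hW3⟩ := W_facts hN200 hpW
    obtain ⟨m, hm⟩ : ∃ m, m = (p - 1) / d := ⟨_, rfl⟩
    rw [← hm] at h5 h6
    rw [← hm]
    have hm0 : (1 : ℝ) ≤ m := by exact_mod_cast h6
    have hp3 : (3 : ℝ) ≤ p := by exact_mod_cast hW3
    have hpe : (p : ℝ) = d * m + 1 := by exact_mod_cast h5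
    have hdm : (1 : ℝ) ≤ d * m := one_le_mul_of_one_le_of_one_le hd0 hm0
    constructor
    · have h7 : Real.log p ≤ Real.log 2 + (Real.log d + Real.log m) := by
        rw [← Real.log_mul (by positivity) (by positivity),
          ← Real.log_mul (by norm_num) (by positivity)]
        apply Real.log_le_log (by positivity)
        linarith
      have h12 : v * (8 / 9 * NN n) ≤ v * Real.log p := by gcongr
      have h8 : v * NN n / 3 < Real.log m := by linarith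
      have h9 : Real.exp (v * NN n / 3) < m := by
        rw [← Real.exp_log (show (0 : ℝ) < m by positivity)]
        exact Real.exp_lt_exp.mpr h8
      have h10 : (M : ℝ) ≤ Real.exp (v * NN n / 3) := by
        rw [hM]; exact Nat.floor_le (Real.exp_pos _).le
      have h11 : (M : ℝ) < m := by linarith
      exact_mod_cast h11
    · have h7 : (m : ℝ) ≤ p := by
        rw [hpe]
        have : (m : ℝ) ≤ d * m := le_mul_of_one_le_left (by positivity) hd0
        linarith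
      have h8 : (p : ℝ) ≤ Real.exp (NN n) := by
        rw [← Real.exp_log (show (0 : ℝ) < p by positivity)]
        exact Real.exp_le_exp.mpr hW2
      have h9 := exp_le_two_pow I hI1
      have h10 : (m : ℝ) ≤ 2 ^ I := by linarith
      have h11 : m ≤ 2 ^ I := by exact_mod_cast h10
      exact h11.trans (Nat.le_mul_of_pos_right _ hM3)) hg0
  have hblock : ∀ i ∈ range I, ∑ m ∈ Ioc (2 ^ i * M) (2 * (2 ^ i * M)), g m ≤
      C₂ / ((v * NN n / 4) * Nat.totient d) := by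
    intro i hi
    rw [mem_range] at hi
    have hX1 : 1 ≤ 2 ^ i * M := Nat.mul_pos (by positivity) hM3
    have hlogX := log_block i M hM3
    have hi' : (i : ℝ) * Real.log 2 ≤ I * Real.log 2 := by
      have : (i : ℝ) ≤ I := by exact_mod_cast hi.le
      have : 0 < Real.log 2 := Real.log_pos (by norm_num)
      gcongr
    have hlow : v * NN n / 4 ≤ Real.log ((2 ^ i * M : ℕ) : ℝ) := by
      rw [hlogX]
      have : (0 : ℝ) ≤ i * Real.log 2 := by
        have : 0 < Real.log 2 := Real.log_pos (by norm_num)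
        positivity
      linarith
    have hup : Real.log ((2 ^ i * M : ℕ) : ℝ) ≤ 3 * NN n := by
      rw [hlogX]
      have : v * NN n ≤ 1 / 2 * NN n := by gcongr
      linarith
    have hb := hn1 n hnn1 d (2 ^ i * M) hd hdle (h49.trans hlow) hup
    exact block_BT 0 n d (2 ^ i * M) (by linarith) hd hX1 (by linarith) hlow hb
  calc ∑ p ∈ S, (1 : ℝ) / p ≤ _ := h1
    _ = _ := h2
    _ ≤ _ := h3
    _ ≤ ∑ _i ∈ range I, C₂ / ((v * NN n / 4) * Nat.totient d) := Finset.sum_le_sum hblock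
    _ = I * (C₂ / ((v * NN n / 4) * Nat.totient d)) := by rw [sum_const, card_range, nsmul_eq_mul]
    _ ≤ 2 * NN n * (C₂ / ((v * NN n / 4) * Nat.totient d)) := by gcongr
    _ = 8 * C₂ / (v * Nat.totient d) := by field_simp; ring

namespace LFac

theorem dphi_one : dphi 1 = 1 := by unfold dphi; simp

/-- one block with a long cofactor -/
theorem block_MOM {C₃ c : ℝ} (b n X M : ℕ) (hc : 0 < c) (hX : 1 ≤ X) (hM : 1 ≤ M) (hC₃ : 0 ≤ C₃)
    (hlow : c ≤ Real.log X)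
    (hm : ∑ t ∈ PB X, (NM b n 1 M t) ^ 1 ≤
      X / Real.log X * (C₃ * (1 : ℕ) * (M * dphi 1 / Real.log X)) ^ 1) :
    ∑ m ∈ Ioc M (2 * M), ∑ r ∈ PB X, 1 / ((m : ℝ) * r) * U b n (m * r + 1) ≤ C₃ / c ^ 2 := by
  have hX0 : (0 : ℝ) < X := by exact_mod_cast hX
  have hM0 : (0 : ℝ) < M := by exact_mod_cast hM
  have hlX : 0 < Real.log X := by linarith
  have h1 : ∑ m ∈ Ioc M (2 * M), ∑ r ∈ PB X, 1 / ((m : ℝ) * r) * U b n (m * r + 1) ≤
      ∑ m ∈ Ioc M (2 * M), ∑ r ∈ PB X, 1 / ((M : ℝ) * X) * U b n (m * r + 1) := by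
    apply Finset.sum_le_sum
    intro m hm
    apply Finset.sum_le_sum
    intro r hr
    rw [mem_Ioc] at hm
    rw [mem_PB] at hr
    have hmM : (M : ℝ) ≤ m := by exact_mod_cast hm.1.le
    have hrX : (X : ℝ) ≤ r := by exact_mod_cast hr.2.1.le
    have := U_nonneg b n (m * r + 1)
    gcongr
  refine h1.trans ?_
  have h2 : ∑ m ∈ Ioc M (2 * M), ∑ r ∈ PB X, 1 / ((M : ℝ) * X) * U b n (m * r + 1) =
      1 / ((M : ℝ) * X) * ∑ t ∈ PB X, NM b n 1 M t := by
    rw [Finset.sum_comm, Finset.mul_sum]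
    apply Finset.sum_congr rfl
    intro r _
    unfold NM
    rw [Finset.mul_sum]
    apply Finset.sum_congr rfl
    intro m _
    rw [one_mul]
  rw [h2]
  simp only [pow_one, dphi_one, Nat.cast_one] at hm
  calc 1 / ((M : ℝ) * X) * ∑ t ∈ PB X, NM b n 1 M t
      ≤ 1 / ((M : ℝ) * X) * (X / Real.log X * (C₃ * 1 * (M * 1 / Real.log X))) := by gcongr
    _ = C₃ / Real.log X ^ 2 := by field_simp
    _ ≤ C₃ / c ^ 2 := by gcongr

/-- one block with a short cofactor -/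
theorem block_small {C₂ c LN : ℝ} (b n X m z : ℕ) (hc : 0 < c) (hX : 1 ≤ X) (hm1 : 1 ≤ m)
    (hC₂ : 0 ≤ C₂) (hLN : 0 ≤ LN) (hlow : c ≤ Real.log X)
    (hm : ∑ t ∈ PB X, ∏ a ∈ ({m} : Finset ℕ), U b n (a * t + 1) ≤
      X * (∏ l ∈ PZ z, (1 - (omA {m} l : ℝ) / l)) *
        (C₂ * ((({m} : Finset ℕ).card : ℝ) + 1) * LN / Real.log X) ^ (({m} : Finset ℕ).card + 1)) :
    ∑ r ∈ PB X, 1 / ((m : ℝ) * r) * U b n (m * r + 1) ≤ 1 / m * (2 * C₂ * LN / c) ^ 2 := by
  have hX0 : (0 : ℝ) < X := by exact_mod_cast hX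
  have hm0 : (0 : ℝ) < m := by exact_mod_cast hm1
  have hlX : 0 < Real.log X := by linarith
  rw [card_singleton] at hm
  simp only [prod_singleton] at hm
  have hprod : ∏ l ∈ PZ z, (1 - (omA {m} l : ℝ) / l) ≤ 1 := by
    apply Finset.prod_le_one
    · intro l hl
      have hl0 : (0 : ℝ) < l := by exact_mod_cast (mem_PZ.mp hl).1.pos
      have h2 : (omA {m} l : ℝ) ≤ l := by
        have : omA {m} l ≤ l := by
          unfold omA
          exact (card_filter_le _ _).trans (by rw [card_range])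
        exact_mod_cast this
      have : (omA {m} l : ℝ) / l ≤ 1 := by rw [div_le_one hl0]; exact h2
      linarith
    · intro l _
      have : (0 : ℝ) ≤ (omA {m} l : ℝ) / l := by positivity
      linarith
  calc ∑ r ∈ PB X, 1 / ((m : ℝ) * r) * U b n (m * r + 1)
      ≤ ∑ r ∈ PB X, 1 / ((m : ℝ) * X) * U b n (m * r + 1) := by
        apply Finset.sum_le_sum
        intro r hr
        rw [mem_PB] at hr
        have hrX : (X : ℝ) ≤ r := by exact_mod_cast hr.2.1.le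
        have := U_nonneg b n (m * r + 1)
        gcongr
    _ = 1 / ((m : ℝ) * X) * ∑ r ∈ PB X, U b n (m * r + 1) := by rw [Finset.mul_sum]
    _ ≤ 1 / ((m : ℝ) * X) * (X * 1 * (C₂ * (((1 : ℕ) : ℝ) + 1) * LN / Real.log X) ^ (1 + 1)) := by
        refine mul_le_mul_of_nonneg_left (hm.trans ?_) (by positivity)
        gcongr
    _ = 1 / m * (2 * C₂ * LN / Real.log X) ^ 2 := by
        push_cast
        field_simp
        ring
    _ ≤ 1 / m * (2 * C₂ * LN / c) ^ 2 := by gcongr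

theorem sum_Icc_inv_le (M : ℕ) (hM : 1 ≤ M) : ∑ m ∈ Icc 1 M, (1 : ℝ) / m ≤ 1 + Real.log M := by
  have h := harmonic_le_one_add_log M
  rw [harmonic_eq_sum_Icc] at h
  push_cast at h
  simpa [one_div] using h

end LFac

open LFac in
theorem large_factor : ∃ C : ℝ, 1 ≤ C ∧ ∀ v : ℝ, 0 < v → v < 1 / 2 → ∃ n₀ : ℕ, ∀ n, n₀ ≤ n →
    rho n (fun p => ∃ r, r.Prime ∧ r ∣ p - 1 ∧ (1 - v) * Real.log p < Real.log r) ≤ C * v := by
  classical
  obtain ⟨C₂, hC₂, hUM⟩ := U_moment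
  obtain ⟨C₃, hC₃, hMOM⟩ := MOM
  refine ⟨64 * C₃ + 1, by linarith, fun v hv0 hv1 => ?_⟩
  obtain ⟨n1, hn1⟩ := hUM 0
  obtain ⟨n2, hn2⟩ := hMOM 0
  obtain ⟨n3, hn3⟩ := eventually_atTop.mp (tendsto_NN.eventually (eventually_ge_atTop (100 / v)))
  have hlim2 : Tendsto (fun n : ℕ => NN n ^ (0.51 : ℝ)) atTop atTop :=
    tendsto_NN_rpow (by norm_num)
  obtain ⟨n4, hn4⟩ := eventually_atTop.mp (hlim2.eventually (eventually_ge_atTop (4 / 1)))
  obtain ⟨n5, hn5⟩ := poly_le 10 (512 * C₂ ^ 2 / v) 1 (by norm_num)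
  obtain ⟨n6, hn6⟩ := poly_le 8 4 1 (by norm_num)
  refine ⟨max (max n1 n2) (max (max n3 n4) (max (max n5 n6) 1)), fun n hn => ?_⟩
  simp only [max_le_iff] at hn
  obtain ⟨⟨hnn1, hnn2⟩, ⟨hnn3, hnn4⟩, ⟨hnn5, hnn6⟩, hnn7⟩ := hn
  obtain ⟨N, hNdef⟩ : ∃ N, N = NN n := ⟨_, rfl⟩
  have hNp : 0 < N := by rw [hNdef]; exact NN_pos n
  have hvN : 100 ≤ v * N := by
    have := hn3 n hnn3
    rw [div_le_iff₀ hv0, ← hNdef] at this
    linarith
  have hN200 : 200 ≤ N := by nlinarith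
  have h49 : N ^ (0.49 : ℝ) ≤ N / 4 := by
    have := rpow_le hNp one_pos (by rw [hNdef]; exact hn4 n hnn4)
    linarith
  have h5' : 512 * C₂ ^ 2 / v * (n : ℝ) ^ 10 ≤ N := by
    have := hn5 n hnn5
    rwa [Real.rpow_one, ← hNdef] at this
  have h6' : 4 * (n : ℝ) ^ 8 ≤ N := by
    have := hn6 n hnn6
    rwa [Real.rpow_one, ← hNdef] at this
  have hn1r : (1 : ℝ) ≤ n := by exact_mod_cast hnn7
  rw [rho_eq]
  obtain ⟨S, hS⟩ : ∃ S, S = (W n).filter
    (fun p => ∃ r : ℕ, r.Prime ∧ r ∣ p - 1 ∧ (1 - v) * Real.log p < Real.log r) := ⟨_, rfl⟩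
  rw [← hS]
  have hSW : ∀ p ∈ S, p.Prime ∧ 8 / 9 * N ≤ Real.log p ∧ Real.log p ≤ N ∧ 3 ≤ p := by
    intro p hp
    rw [hS, mem_filter] at hp
    have := W_facts (by rw [← hNdef]; exact hN200) hp.1
    rwa [← hNdef] at this
  have hex : ∀ p ∈ S, ∃ r : ℕ, r.Prime ∧ r ∣ p - 1 ∧ (1 - v) * Real.log p < Real.log r := by
    intro p hp
    rw [hS, mem_filter] at hp
    exact hp.2
  choose! r hr1 hr2 hr3 using hex
  obtain ⟨T, hT⟩ : ∃ T : ℕ → ℕ → ℝ, T = fun (m r : ℕ) => 1 / ((m : ℝ) * r) * U 0 n (m * r + 1) := ⟨_, rfl⟩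
  have hT0 : ∀ m r, 0 ≤ T m r := fun m r => by
    rw [hT]; exact mul_nonneg (by positivity) (U_nonneg _ _ _)
  have hfac : ∀ p ∈ S, p = ((p - 1) / r p) * r p + 1 ∧ 1 ≤ (p - 1) / r p := by
    intro p hp
    obtain ⟨hpp, hW1, hW2, hW3⟩ := hSW p hp
    have h5 : ((p - 1) / r p) * r p = p - 1 := Nat.div_mul_cancel (hr2 p hp)
    refine ⟨by omega, ?_⟩
    have : r p ≤ p - 1 := Nat.le_of_dvd (by omega) (hr2 p hp)
    exact (Nat.one_le_div_iff (hr1 p hp).pos).mpr this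
  have h1 : ∑ p ∈ S, (1 : ℝ) / p ≤ ∑ p ∈ S, T ((p - 1) / r p) (r p) := by
    apply Finset.sum_le_sum
    intro p hp
    obtain ⟨h5, h6⟩ := hfac p hp
    have h7 : 1 ≤ U 0 n (((p - 1) / r p) * r p + 1) := by
      rw [← h5]; exact one_le_U (hSW p hp).1
    have hm0 : (1 : ℝ) ≤ (((p - 1) / r p : ℕ) : ℝ) := by exact_mod_cast h6
    have hr0 : (1 : ℝ) ≤ (r p : ℝ) := by exact_mod_cast (hr1 p hp).one_lt.le
    have h8 : (((p - 1) / r p : ℕ) : ℝ) * (r p : ℝ) ≤ p := by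
      have : ((p - 1) / r p) * r p ≤ p := by omega
      exact_mod_cast this
    have hpos : 0 < (((p - 1) / r p : ℕ) : ℝ) * (r p : ℝ) := by positivity
    rw [hT]
    calc (1 : ℝ) / p ≤ 1 / ((((p - 1) / r p : ℕ) : ℝ) * (r p : ℝ)) := by
          apply one_div_le_one_div_of_le hpos h8
      _ ≤ 1 / ((((p - 1) / r p : ℕ) : ℝ) * (r p : ℝ)) * U 0 n (((p - 1) / r p) * r p + 1) :=
          le_mul_of_one_le_right (by positivity) h7
  have h2 : ∑ p ∈ S, T ((p - 1) / r p) (r p) =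
      ∑ x ∈ S.image (fun p => ((p - 1) / r p, r p)), T x.1 x.2 := by
    rw [Finset.sum_image]
    intro p hp q hq hpq
    have hp' := (hfac p hp).1
    have hq' := (hfac q hq).1
    simp only [Prod.mk.injEq] at hpq
    rw [hp', hq', hpq.1, hpq.2]
  -- parameters
  obtain ⟨hX1, hX2, hX3⟩ := log_floor_exp (x := 4 * N / 9) (by linarith)
  have hX4 : ((⌊Real.exp (4 * N / 9)⌋₊ : ℕ) : ℝ) ≤ Real.exp (4 * N / 9) :=
    Nat.floor_le (Real.exp_pos _).le
  obtain ⟨X₀, hX₀⟩ : ∃ X₀, X₀ = ⌊Real.exp (4 * N / 9)⌋₊ := ⟨_, rfl⟩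
  rw [← hX₀] at hX1 hX2 hX3 hX4
  have hl2 : (0.69 : ℝ) ≤ Real.log 2 := by linarith [Real.log_two_gt_d9]
  have hl2' : Real.log 2 ≤ 0.7 := by linarith [Real.log_two_lt_d9]
  have hl2p : 0 < Real.log 2 := by linarith
  obtain ⟨I, hIdef⟩ : ∃ I, I = ⌈(N - Real.log X₀) / Real.log 2⌉₊ := ⟨_, rfl⟩
  have hI1 : N ≤ I * Real.log 2 + Real.log X₀ := by
    have := Nat.le_ceil ((N - Real.log X₀) / Real.log 2)
    rw [div_le_iff₀ hl2p, ← hIdef] at this
    linarith
  have hI2 : ∀ i, i < I → (i : ℝ) * Real.log 2 + Real.log X₀ ≤ N := by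
    intro i hi
    rw [hIdef, Nat.lt_ceil, lt_div_iff₀ hl2p] at hi
    linarith
  have hI3 : (I : ℝ) ≤ 2 * N := by
    have h7 : (I : ℝ) < (N - Real.log X₀) / Real.log 2 + 1 := by
      rw [hIdef]
      apply Nat.ceil_lt_add_one
      apply div_nonneg _ hl2p.le
      linarith
    have h8 : (N - Real.log X₀) / Real.log 2 ≤ N / 0.69 := by
      gcongr
      linarith
    have h9 : N / 0.69 + 1 ≤ 2 * N := by
      rw [div_add_one (by norm_num), div_le_iff₀ (by norm_num)]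
      linarith
    linarith
  obtain ⟨J, hJ1, hJ2, hJ3⟩ := exists_I (N := v * N) (by linarith)
  obtain ⟨M₁, hM₁⟩ : ∃ M₁, M₁ = (MM 0 n + 1) / 2 := ⟨_, rfl⟩
  have hMM1 : 1 ≤ MM 0 n := one_le_MM 0 n
  have hM₁1 : 1 ≤ M₁ := by omega
  have hM₁2 : MM 0 n ≤ 2 * M₁ := by omega
  have hM₁3 : M₁ ≤ MM 0 n := by omega
  have hM₁r : (1 : ℝ) ≤ M₁ := by exact_mod_cast hM₁1
  have hlogM₁ : Real.log M₁ ≤ (n : ℝ) ^ 8 + 1 := by
    have h7 := log_MM_le 0 n
    have h8 : Real.log M₁ ≤ Real.log (MM 0 n) := by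
      apply Real.log_le_log (by linarith)
      exact_mod_cast hM₁3
    simpa using h8.trans h7
  obtain ⟨Mx, hMx⟩ : ∃ Mx, Mx = ⌊Real.exp (v * N)⌋₊ := ⟨_, rfl⟩
  have h3 : ∑ x ∈ S.image (fun p => ((p - 1) / r p, r p)), T x.1 x.2 ≤
      ∑ x ∈ (Icc 1 Mx) ×ˢ ((Ioc X₀ (2 ^ I * X₀)).filter Nat.Prime), T x.1 x.2 := by
    apply Finset.sum_le_sum_of_subset_of_nonneg
    · intro x hx
      rw [mem_image] at hx
      obtain ⟨p, hp, rfl⟩ := hx
      obtain ⟨h5, h6⟩ := hfac p hp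
      obtain ⟨hpp, hW1, hW2, hW3⟩ := hSW p hp
      have hrp := hr1 p hp
      have hrlog := hr3 p hp
      obtain ⟨m, hm⟩ : ∃ m, m = (p - 1) / r p := ⟨_, rfl⟩
      rw [← hm] at h5 h6
      rw [mem_product, mem_Icc, mem_filter, mem_Ioc]
      simp only
      rw [← hm]
      have hm0 : (1 : ℝ) ≤ m := by exact_mod_cast h6
      have hr0 : (1 : ℝ) ≤ (r p : ℝ) := by exact_mod_cast hrp.one_lt.le
      have hp3 : (3 : ℝ) ≤ p := by exact_mod_cast hW3
      have hpe : (p : ℝ) = m * (r p) + 1 := by exact_mod_cast h5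
      have hlogm : Real.log m + Real.log (r p) ≤ Real.log p := by
        rw [← Real.log_mul (by positivity) (by positivity)]
        apply Real.log_le_log (by positivity)
        linarith
      have hvlog : v * Real.log p ≤ v * N := by gcongr
      have hv12 : (1 / 2 : ℝ) * Real.log p ≤ (1 - v) * Real.log p := by
        have : 0 ≤ Real.log p := by linarith
        gcongr
        linarith
      refine ⟨⟨h6, ?_⟩, ⟨?_, ?_⟩, hrp⟩
      · rw [hMx]
        apply Nat.le_floor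
        rw [← Real.exp_log (show (0 : ℝ) < m by positivity)]
        apply Real.exp_le_exp.mpr
        linarith
      · have h9 : Real.exp (4 * N / 9) < (r p : ℝ) := by
          rw [← Real.exp_log (show (0 : ℝ) < (r p : ℝ) by positivity)]
          apply Real.exp_lt_exp.mpr
          linarith
        have h10 : (X₀ : ℝ) < (r p : ℝ) := by linarith
        exact_mod_cast h10
      · have h9 : Real.log (r p) ≤ Real.log ((2 ^ I * X₀ : ℕ) : ℝ) := by
          rw [log_block I X₀ hX3]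
          have : 0 ≤ Real.log m := Real.log_nonneg hm0
          linarith
        have hX0p : (0 : ℝ) < ((2 ^ I * X₀ : ℕ) : ℝ) := by
          have : 0 < 2 ^ I * X₀ := Nat.mul_pos (by positivity) hX3
          exact_mod_cast this
        have h10 := (Real.log_le_log_iff (by positivity) hX0p).mp h9
        exact_mod_cast h10
    · intro x _ _
      exact hT0 _ _
  rw [Finset.sum_product_right] at h3
  -- blocks
  have hrow : ∀ i ∈ range I, ∑ r ∈ PB (2 ^ i * X₀), ∑ m ∈ Icc 1 Mx, T m r ≤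
      2 * (v * N) * (C₃ / (N / 4) ^ 2) + ((n : ℝ) ^ 8 + 2) * (2 * C₂ * n / (N / 4)) ^ 2 := by
    intro i hi
    rw [mem_range] at hi
    have hXi : 1 ≤ 2 ^ i * X₀ := Nat.mul_pos (by positivity) hX3
    have hlogX := log_block i X₀ hX3
    have hlow : N / 4 ≤ Real.log ((2 ^ i * X₀ : ℕ) : ℝ) := by
      rw [hlogX]
      have : (0 : ℝ) ≤ i * Real.log 2 := by positivity
      linarith
    have hup : Real.log ((2 ^ i * X₀ : ℕ) : ℝ) ≤ N := by
      rw [hlogX]; exact hI2 i hi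
    obtain ⟨X, hXdef⟩ : ∃ X, X = 2 ^ i * X₀ := ⟨_, rfl⟩
    rw [← hXdef] at hXi hlow hup ⊢
    rw [Finset.sum_comm]
    have hsplit : ∑ m ∈ Icc 1 Mx, ∑ r ∈ PB X, T m r ≤ ∑ m ∈ Ioc M₁ Mx, ∑ r ∈ PB X, T m r +
        ∑ m ∈ Icc 1 M₁, ∑ r ∈ PB X, T m r := by
      rw [← Finset.sum_filter_add_sum_filter_not (Icc 1 Mx) (fun m => M₁ < m)]
      have hnn : ∀ m : ℕ, 0 ≤ ∑ r ∈ PB X, T m r := fun m => Finset.sum_nonneg (fun r _ => hT0 m r)
      apply add_le_add
      · apply Finset.sum_le_sum_of_subset_of_nonneg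
        · intro m hm
          rw [mem_filter, mem_Icc] at hm
          rw [mem_Ioc]
          exact ⟨hm.2, hm.1.2⟩
        · intro m _ _; exact hnn m
      · apply Finset.sum_le_sum_of_subset_of_nonneg
        · intro m hm
          rw [mem_filter, mem_Icc] at hm
          rw [mem_Icc]
          omega
        · intro m _ _; exact hnn m
    refine hsplit.trans (add_le_add ?_ ?_)
    · have hd := sum_dyadic_from M₁ (fun m => ∑ r ∈ PB X, T m r) J (Ioc M₁ Mx) (by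
        intro m hm
        rw [mem_Ioc] at hm
        refine ⟨hm.1, ?_⟩
        have h7 : (Mx : ℝ) ≤ 2 ^ J := by
          rw [hMx]
          exact (Nat.floor_le (Real.exp_pos _).le).trans (exp_le_two_pow J hJ1)
        have h8 : Mx ≤ 2 ^ J := by exact_mod_cast h7
        exact (hm.2.trans h8).trans (Nat.le_mul_of_pos_right _ hM₁1))
        (fun m => Finset.sum_nonneg (fun r _ => hT0 m r))
      refine hd.trans ?_
      have hbl : ∀ j ∈ range J, ∑ m ∈ Ioc (2 ^ j * M₁) (2 * (2 ^ j * M₁)), ∑ r ∈ PB X, T m r ≤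
          C₃ / (N / 4) ^ 2 := by
        intro j hj
        rw [mem_range] at hj
        have hMj : 1 ≤ 2 ^ j * M₁ := Nat.mul_pos (by positivity) hM₁1
        have hlogM := log_block j M₁ hM₁1
        have h7 : MM 0 n ≤ 2 * (2 ^ j * M₁) := by
          have : 1 * M₁ ≤ 2 ^ j * M₁ := Nat.mul_le_mul_right _ Nat.one_le_two_pow
          omega
        have h8 : ((2 ^ j * M₁ : ℕ) : ℝ) ≤ Real.exp (NN n) := by
          have hp0 : (0 : ℝ) < ((2 ^ j * M₁ : ℕ) : ℝ) := by exact_mod_cast hMj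
          rw [← Real.exp_log hp0, ← hNdef]
          apply Real.exp_le_exp.mpr
          rw [hlogM]
          have h9 : (j : ℝ) * Real.log 2 ≤ J * Real.log 2 := by
            have : (j : ℝ) ≤ J := by exact_mod_cast hj.le
            gcongr
          have h10 : v * N ≤ 1 / 2 * N := by gcongr
          linarith
        have hb := hn2 n hnn2 1 1 X (2 ^ j * M₁) le_rfl (by
          unfold KK
          exact Nat.one_le_pow _ _ (by omega)) le_rfl (by
          push_cast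
          exact Real.one_le_exp (NN_pos n).le) (by rw [← hNdef]; linarith) (by rw [← hNdef]; exact hup) h7 h8
        rw [hT]
        exact block_MOM 0 n X (2 ^ j * M₁) (by linarith) hXi hMj (by linarith) hlow hb
      calc _ ≤ ∑ _j ∈ range J, C₃ / (N / 4) ^ 2 := Finset.sum_le_sum hbl
        _ = J * (C₃ / (N / 4) ^ 2) := by rw [sum_const, card_range, nsmul_eq_mul]
        _ ≤ 2 * (v * N) * (C₃ / (N / 4) ^ 2) := by gcongr
    · have hbl : ∀ m ∈ Icc 1 M₁, ∑ r ∈ PB X, T m r ≤ 1 / (m : ℝ) * (2 * C₂ * n / (N / 4)) ^ 2 := by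
        intro m hm
        rw [mem_Icc] at hm
        have hm1 : (1 : ℝ) ≤ m := by exact_mod_cast hm.1
        have hlogN : 0 ≤ Real.log (NN n) := log_NN_nonneg n
        have hme : (m : ℝ) ≤ Real.exp (3 * NN n) := by
          rw [← Real.exp_log (show (0 : ℝ) < m by positivity), ← hNdef]
          apply Real.exp_le_exp.mpr
          have h9 : Real.log m ≤ Real.log M₁ := by
            apply Real.log_le_log (by positivity)
            exact_mod_cast hm.2
          linarith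
        have hb := hn1 n hnn1 {m} X (by rw [card_singleton]) (by
          rw [card_singleton]
          unfold KK
          exact Nat.one_le_pow _ _ (by omega)) (by
          intro a ha
          rw [mem_singleton] at ha
          subst ha
          exact ⟨hm.1, hme⟩) (by rw [← hNdef]; linarith) (by rw [← hNdef]; linarith)
        rw [hT]
        refine (block_small 0 n X m _ (by linarith) hXi hm.1 (by linarith) hlogN hlow hb).trans ?_
        have h9 := log_NN_le n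
        gcongr
      calc _ ≤ ∑ m ∈ Icc 1 M₁, 1 / (m : ℝ) * (2 * C₂ * n / (N / 4)) ^ 2 := Finset.sum_le_sum hbl
        _ = (∑ m ∈ Icc 1 M₁, 1 / (m : ℝ)) * (2 * C₂ * n / (N / 4)) ^ 2 := by rw [Finset.sum_mul]
        _ ≤ ((n : ℝ) ^ 8 + 2) * (2 * C₂ * n / (N / 4)) ^ 2 := by
            have h9 := sum_Icc_inv_le M₁ hM₁1
            gcongr
            linarith
  have h4 : ∑ r ∈ (Ioc X₀ (2 ^ I * X₀)).filter Nat.Prime, ∑ m ∈ Icc 1 Mx, T m r ≤
      ∑ i ∈ range I, ∑ r ∈ PB (2 ^ i * X₀), ∑ m ∈ Icc 1 Mx, T m r := by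
    have hd := sum_dyadic_from X₀ (fun r => if r.Prime then ∑ m ∈ Icc 1 Mx, T m r else 0) I
      (Ioc X₀ (2 ^ I * X₀)) (fun r hr => by rw [mem_Ioc] at hr; exact hr) (fun r => by
        split_ifs
        · exact Finset.sum_nonneg (fun m _ => hT0 m r)
        · exact le_rfl)
    rw [Finset.sum_filter]
    refine hd.trans (le_of_eq ?_)
    apply Finset.sum_congr rfl
    intro i _
    unfold PB
    rw [Finset.sum_filter]
  have h5 : ∑ i ∈ range I, ∑ r ∈ PB (2 ^ i * X₀), ∑ m ∈ Icc 1 Mx, T m r ≤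
      2 * N * (2 * (v * N) * (C₃ / (N / 4) ^ 2) +
        ((n : ℝ) ^ 8 + 2) * (2 * C₂ * n / (N / 4)) ^ 2) := by
    calc _ ≤ ∑ _i ∈ range I, (2 * (v * N) * (C₃ / (N / 4) ^ 2) +
        ((n : ℝ) ^ 8 + 2) * (2 * C₂ * n / (N / 4)) ^ 2) := Finset.sum_le_sum hrow
      _ = I * (2 * (v * N) * (C₃ / (N / 4) ^ 2) +
        ((n : ℝ) ^ 8 + 2) * (2 * C₂ * n / (N / 4)) ^ 2) := by
          rw [sum_const, card_range, nsmul_eq_mul]
      _ ≤ _ := by
          gcongr
  have h6 : 2 * N * (2 * (v * N) * (C₃ / (N / 4) ^ 2) +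
        ((n : ℝ) ^ 8 + 2) * (2 * C₂ * n / (N / 4)) ^ 2) =
      64 * C₃ * v + 128 * C₂ ^ 2 * n ^ 2 * (n ^ 8 + 2) / N := by
    field_simp
    ring
  have h7 : 128 * C₂ ^ 2 * (n : ℝ) ^ 2 * ((n : ℝ) ^ 8 + 2) / N ≤ v := by
    rw [div_le_iff₀ hNp]
    have h8 : 512 * C₂ ^ 2 * (n : ℝ) ^ 10 ≤ v * N := by
      have h9 : 512 * C₂ ^ 2 / v * (n : ℝ) ^ 10 * v ≤ N * v := by gcongr
      have h10 : 512 * C₂ ^ 2 / v * (n : ℝ) ^ 10 * v = 512 * C₂ ^ 2 * (n : ℝ) ^ 10 := by field_simp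
      linarith
    have h9 : (1 : ℝ) ≤ (n : ℝ) ^ 8 := one_le_pow₀ hn1r
    calc 128 * C₂ ^ 2 * (n : ℝ) ^ 2 * ((n : ℝ) ^ 8 + 2)
        ≤ 128 * C₂ ^ 2 * (n : ℝ) ^ 2 * (4 * (n : ℝ) ^ 8) := by
          gcongr
          linarith
      _ = 512 * C₂ ^ 2 * (n : ℝ) ^ 10 := by ring
      _ ≤ v * N := h8
  linarith

end

end Pool.Agent.NTot
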