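import Pool.Agent.NTot.Defs2

/-!
# M12a: frame facts and the size of the levels
-/

set_option autoImplicit false

namespace Pool.Agent.NTot

open Finset Filter Topology

noncomputable section

namespace Fr

theorem lam_pos : (0 : ℝ) < lam := by unfold lam; norm_num
theorem one_lt_lam : (1 : ℝ) < lam := by unfold lam; norm_num
theorem NN_pos (n : ℕ) : 0 < NN n := pow_pos lam_pos n
theorem one_le_NN (n : ℕ) : 1 ≤ NN n := one_le_pow₀ one_lt_lam.le
theorem log_NN (n : ℕ) : Real.log (NN n) = n * Real.log lam := by unfold NN; rw [Real.log_pow]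

theorem loglam_le : Real.log lam ≤ 1 / 8 := by
  have := Real.log_le_sub_one_of_pos lam_pos
  have h : lam - 1 = 1 / 8 := by unfold lam; norm_num
  linarith

theorem loglam_ge : 1 / 9 ≤ Real.log lam := by
  have := Real.one_sub_inv_le_log_of_pos lam_pos
  have h : 1 - lam⁻¹ = 1 / 9 := by unfold lam; norm_num
  linarith

/-- key inequality -/
theorem key {b : ℕ} (hb : 1 ≤ b) {x y : ℝ} (hy : 0 < y) (hxy : y ≤ x)
    (hly : 8 * (b : ℝ) ≤ Real.log y) :
    (Real.log x / Real.log y) ^ 2 ≤ (x / y) ^ (1 / (4 * (b : ℝ))) := by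
  have hb' : (1 : ℝ) ≤ b := by exact_mod_cast hb
  have hx : 0 < x := lt_of_lt_of_le hy hxy
  have ht : 0 < Real.log y := by linarith
  have hst : Real.log y ≤ Real.log x := Real.log_le_log hy hxy
  have hs : 0 < Real.log x := by linarith
  have h1 : Real.log x / Real.log y ≤ Real.exp (Real.log x / Real.log y - 1) := by
    have := Real.add_one_le_exp (Real.log x / Real.log y - 1)
    linarith
  have h2 : (Real.log x / Real.log y) ^ 2 ≤ Real.exp (2 * (Real.log x / Real.log y - 1)) := by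
    calc (Real.log x / Real.log y) ^ 2 ≤ (Real.exp (Real.log x / Real.log y - 1)) ^ 2 := by
          gcongr
      _ = _ := by rw [← Real.exp_nat_mul]; norm_num
  refine h2.trans ?_
  rw [Real.rpow_def_of_pos (by positivity), Real.log_div hx.ne' hy.ne']
  apply Real.exp_le_exp.2
  have h3 : 2 * (Real.log x / Real.log y - 1) = (Real.log x - Real.log y) * (2 / Real.log y) := by
    field_simp
  rw [h3]
  apply mul_le_mul_of_nonneg_left _ (by linarith)
  rw [div_le_div_iff₀ ht (by positivity)]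
  linarith

/-- admissible frames -/
structure Ok (b : ℕ) (f : Frame) : Prop where
  hb : 2 ≤ b
  kap : f.kap = 1 / (4 * b)
  c0 : 0 ≤ f.c0
  a : 0 ≤ f.a
  L : 0 ≤ f.L
  t0 : 8 * (b : ℝ) ≤ f.t0

variable {b : ℕ} {f : Frame}

theorem Ok.kap_pos (h : Ok b f) : 0 < f.kap := by
  rw [h.kap]
  have : (2 : ℝ) ≤ b := by exact_mod_cast h.hb
  positivity

theorem Ok.t0_pos (h : Ok b f) : 0 < f.t0 := by
  have := h.t0
  have : (2 : ℝ) ≤ b := by exact_mod_cast h.hb
  linarith [h.t0]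

theorem Ok.key (h : Ok b f) {x y : ℝ} (hy : 0 < y) (hxy : y ≤ x)
    (hly : 8 * (b : ℝ) ≤ Real.log y) :
    (Real.log x / Real.log y) ^ 2 ≤ (x / y) ^ f.kap := by
  rw [h.kap]
  exact Fr.key (by have := h.hb; omega) hy hxy hly

theorem Lam_nonneg (h : Ok b f) {u : ℝ} (hu : 0 ≤ u) : 0 ≤ f.Lam u := by
  unfold Frame.Lam
  have h1 := NN_pos f.n0
  have h2 := h.a
  split_ifs
  · positivity
  · positivity

/-- (F1) upper bound -/
theorem Lam_le (h : Ok b f) {u u' : ℝ} (hu' : 0 < u') (huu : u' ≤ u)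
    (hl : 8 * (b : ℝ) ≤ Real.log u') : f.Lam u' ≤ f.Lam u * (u / u') ^ f.kap := by
  have hT := NN_pos f.n0
  have hu : 0 < u := lt_of_lt_of_le hu' huu
  have ha := h.a
  have hb2 : (2 : ℝ) ≤ b := by exact_mod_cast h.hb
  have hmul : (NN f.n0 / u) ^ f.kap * (u / u') ^ f.kap = (NN f.n0 / u') ^ f.kap := by
    rw [← Real.mul_rpow (by positivity) (by positivity)]
    congr 1
    field_simp
  have hlu' : 0 < Real.log u' := by linarith
  have hlu : 0 < Real.log u := lt_of_lt_of_le hlu' (Real.log_le_log hu' huu)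
  unfold Frame.Lam
  by_cases h1 : u ≤ NN f.n0
  · have h2 : u' ≤ NN f.n0 := huu.trans h1
    rw [if_pos h1, if_pos h2, mul_assoc, hmul]
  · rw [if_neg h1]
    by_cases h2 : u' ≤ NN f.n0
    · rw [if_pos h2, add_mul, add_mul, mul_assoc, hmul]
      have h3 : 1 / f.t0 ^ 2 * (NN f.n0 / u') ^ f.kap ≤
          1 / Real.log u ^ 2 * (u / u') ^ f.kap := by
        have h4 := h.key hT (not_le.1 h1).le (by exact h.t0)
        have h5 : (u / u') ^ f.kap = (u / NN f.n0) ^ f.kap * (NN f.n0 / u') ^ f.kap := by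
          rw [← Real.mul_rpow (by positivity) (by positivity)]
          congr 1
          field_simp
        rw [h5, ← mul_assoc]
        apply mul_le_mul_of_nonneg_right _ (by positivity)
        have ht0 := h.t0_pos
        have h6 : Real.log (NN f.n0) = f.t0 := rfl
        rw [h6] at h4
        calc 1 / f.t0 ^ 2 = 1 / Real.log u ^ 2 * (Real.log u / f.t0) ^ 2 := by
              field_simp
          _ ≤ _ := mul_le_mul_of_nonneg_left h4 (by positivity)
      linarith
    · rw [if_neg h2, add_mul, mul_assoc, hmul]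
      have h3 : 1 / Real.log u' ^ 2 ≤ 1 / Real.log u ^ 2 * (u / u') ^ f.kap := by
        have h4 := h.key hu' huu hl
        calc 1 / Real.log u' ^ 2 = 1 / Real.log u ^ 2 * (Real.log u / Real.log u') ^ 2 := by
              field_simp
          _ ≤ _ := mul_le_mul_of_nonneg_left h4 (by positivity)
      linarith

/-- (F1) lower bound -/
theorem Lam_ge (h : Ok b f) {u : ℝ} (hu : 0 < u) (hl : 8 * (b : ℝ) ≤ Real.log u) :
    1 / Real.log u ^ 2 ≤ f.Lam u := by
  have hT := NN_pos f.n0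
  have ha := h.a
  have hb2 : (2 : ℝ) ≤ b := by exact_mod_cast h.hb
  have hlu : 0 < Real.log u := by linarith
  unfold Frame.Lam
  by_cases h1 : u ≤ NN f.n0
  · rw [if_pos h1]
    have h4 := h.key hu h1 hl
    have ht0 := h.t0_pos
    have h6 : Real.log (NN f.n0) = f.t0 := rfl
    rw [h6] at h4
    calc 1 / Real.log u ^ 2 = 1 / f.t0 ^ 2 * (f.t0 / Real.log u) ^ 2 := by field_simp
      _ ≤ 1 / f.t0 ^ 2 * (NN f.n0 / u) ^ f.kap := mul_le_mul_of_nonneg_left h4 (by positivity)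
      _ ≤ (f.a + 1 / f.t0 ^ 2) * (NN f.n0 / u) ^ f.kap := by
          apply mul_le_mul_of_nonneg_right _ (by positivity)
          linarith
  · rw [if_neg h1]
    have : 0 ≤ f.a * (NN f.n0 / u) ^ f.kap := by positivity
    linarith

theorem Lam_pos (h : Ok b f) {u : ℝ} (hu : 0 < u) (hl : 8 * (b : ℝ) ≤ Real.log u) :
    0 < f.Lam u := by
  have hb2 : (2 : ℝ) ≤ b := by exact_mod_cast h.hb
  have hlu : 0 < Real.log u := by linarith
  exact lt_of_lt_of_le (by positivity) (Lam_ge h hu hl)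

theorem rp_le_one (h : Ok b f) {u : ℝ} (hu : NN f.n0 ≤ u) : (NN f.n0 / u) ^ f.kap ≤ 1 := by
  have hT := NN_pos f.n0
  have hu0 : 0 < u := lt_of_lt_of_le hT hu
  apply Real.rpow_le_one (by positivity) _ h.kap_pos.le
  rw [div_le_one hu0]; exact hu

theorem cc_above (h : Ok b f) {u : ℝ} (hu : NN f.n0 < u) :
    0 ≤ f.a * (1 - (NN f.n0 / u) ^ f.kap) / f.kap + 1 / f.t0 - 1 / Real.log u := by
  have hT := NN_pos f.n0
  have ha := h.a
  have hk := h.kap_pos
  have h1 := rp_le_one h hu.le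
  have h2 : f.t0 ≤ Real.log u := Real.log_le_log hT hu.le
  have h3 : 1 / Real.log u ≤ 1 / f.t0 := one_div_le_one_div_of_le h.t0_pos h2
  have h4 : 0 ≤ f.a * (1 - (NN f.n0 / u) ^ f.kap) / f.kap := by
    apply div_nonneg (mul_nonneg ha (by linarith)) hk.le
  linarith

/-- (F2) monotonicity -/
theorem cc_mono (h : Ok b f) {u u' : ℝ} (hu' : 0 < u') (huu : u' ≤ u) : f.cc u' ≤ f.cc u := by
  have hT := NN_pos f.n0
  have ha := h.a
  have hL := h.L
  have hk := h.kap_pos
  have hl2 : 0 < Real.log 2 := Real.log_pos (by norm_num)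
  have ht0 := h.t0_pos
  unfold Frame.cc
  by_cases h1 : u ≤ NN f.n0
  · rw [if_pos h1, if_pos (huu.trans h1)]
  · rw [if_neg h1]
    by_cases h2 : u' ≤ NN f.n0
    · rw [if_pos h2]
      have h3 := cc_above h (not_le.1 h1)
      have h4 : 0 ≤ f.L / Real.log 2 *
          (f.a * (1 - (NN f.n0 / u) ^ f.kap) / f.kap + 1 / f.t0 - 1 / Real.log u) :=
        mul_nonneg (by positivity) h3
      have h5 : 0 ≤ f.L * (f.a + 1 / f.t0 ^ 2) := by positivity
      linarith
    · rw [if_neg h2]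
      have h3 : (NN f.n0 / u) ^ f.kap ≤ (NN f.n0 / u') ^ f.kap := by
        apply Real.rpow_le_rpow (by have := lt_of_lt_of_le hu' huu; positivity) _ hk.le
        exact div_le_div_of_nonneg_left hT.le hu' huu
      have h4 : f.t0 ≤ Real.log u' := Real.log_le_log hT (not_le.1 h2).le
      have h5 : 1 / Real.log u ≤ 1 / Real.log u' :=
        one_div_le_one_div_of_le (by linarith) (Real.log_le_log hu' huu)
      have h6 : f.a * (1 - (NN f.n0 / u') ^ f.kap) / f.kap ≤
          f.a * (1 - (NN f.n0 / u) ^ f.kap) / f.kap := by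
        apply div_le_div_of_nonneg_right _ hk.le
        apply mul_le_mul_of_nonneg_left _ ha
        linarith
      have h7 : f.L / Real.log 2 *
          (f.a * (1 - (NN f.n0 / u') ^ f.kap) / f.kap + 1 / f.t0 - 1 / Real.log u') ≤
          f.L / Real.log 2 *
          (f.a * (1 - (NN f.n0 / u) ^ f.kap) / f.kap + 1 / f.t0 - 1 / Real.log u) := by
        apply mul_le_mul_of_nonneg_left _ (by positivity)
        linarith
      linarith

theorem cc_nonneg (h : Ok b f) {u : ℝ} (hu : 0 < u) : 0 ≤ f.cc u := by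
  by_cases h1 : u ≤ NN f.n0
  · unfold Frame.cc
    rw [if_pos h1]; exact h.c0
  · have h2 := cc_mono h (NN_pos f.n0) (not_le.1 h1).le
    have h3 : f.cc (NN f.n0) = f.c0 := by unfold Frame.cc; rw [if_pos le_rfl]
    rw [h3] at h2
    exact h.c0.trans h2

/-- (F2) the gap -/
theorem cc_gap (h : Ok b f) {u u' : ℝ} (hu' : 0 < u') (hu : NN f.n0 < u) (huu : 2 * u' ≤ u) :
    f.L * f.Lam u ≤ f.cc u - f.cc u' := by
  have hT := NN_pos f.n0
  have ha := h.a
  have hL := h.L
  have hk := h.kap_pos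
  have hl2 : 0 < Real.log 2 := Real.log_pos (by norm_num)
  have ht0 := h.t0_pos
  have hu0 : 0 < u := hT.trans hu
  have htu : f.t0 ≤ Real.log u := Real.log_le_log hT hu.le
  have hLam : f.Lam u = f.a * (NN f.n0 / u) ^ f.kap + 1 / Real.log u ^ 2 := by
    unfold Frame.Lam; rw [if_neg (not_le.2 hu)]
  rw [hLam]
  by_cases h2 : u' ≤ NN f.n0
  · have h3 := cc_above h hu
    have h4 : 0 ≤ f.L / Real.log 2 *
        (f.a * (1 - (NN f.n0 / u) ^ f.kap) / f.kap + 1 / f.t0 - 1 / Real.log u) :=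
      mul_nonneg (by positivity) h3
    have h5 : f.a * (NN f.n0 / u) ^ f.kap ≤ f.a * 1 :=
      mul_le_mul_of_nonneg_left (rp_le_one h hu.le) ha
    have h6 : 1 / Real.log u ^ 2 ≤ 1 / f.t0 ^ 2 :=
      one_div_le_one_div_of_le (by positivity) (by gcongr)
    have h7 : f.L * (f.a * (NN f.n0 / u) ^ f.kap + 1 / Real.log u ^ 2) ≤
        f.L * (f.a + 1 / f.t0 ^ 2) := mul_le_mul_of_nonneg_left (by linarith) hL
    have h8 : f.cc u = f.c0 + f.L * (f.a + 1 / f.t0 ^ 2) + f.L / Real.log 2 *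
        (f.a * (1 - (NN f.n0 / u) ^ f.kap) / f.kap + 1 / f.t0 - 1 / Real.log u) := by
      unfold Frame.cc; rw [if_neg (not_le.2 hu)]
    have h9 : f.cc u' = f.c0 := by unfold Frame.cc; rw [if_pos h2]
    rw [h8, h9]
    linarith
  · have hu'T := not_le.1 h2
    have htu' : f.t0 ≤ Real.log u' := Real.log_le_log hT hu'T.le
    have hlog : Real.log 2 ≤ Real.log u - Real.log u' := by
      have := Real.log_le_log (by positivity) huu
      rw [Real.log_mul (by norm_num) hu'.ne'] at this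
      linarith
    have h8 : f.cc u - f.cc u' = f.L / Real.log 2 *
        (f.a / f.kap * ((NN f.n0 / u') ^ f.kap - (NN f.n0 / u) ^ f.kap) +
          (1 / Real.log u' - 1 / Real.log u)) := by
      unfold Frame.cc; rw [if_neg (not_le.2 hu), if_neg h2]; ring
    rw [h8]
    have h9 : (NN f.n0 / u') ^ f.kap = (NN f.n0 / u) ^ f.kap * (u / u') ^ f.kap := by
      rw [← Real.mul_rpow (by positivity) (by positivity)]
      congr 1
      field_simp
    have h10 : 1 + f.kap * Real.log 2 ≤ (u / u') ^ f.kap := by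
      rw [Real.rpow_def_of_pos (by positivity), Real.log_div hu0.ne' hu'.ne']
      have h11 := Real.add_one_le_exp ((Real.log u - Real.log u') * f.kap)
      have h12 : Real.log 2 * f.kap ≤ (Real.log u - Real.log u') * f.kap :=
        mul_le_mul_of_nonneg_right hlog hk.le
      linarith
    have hrp : 0 ≤ (NN f.n0 / u) ^ f.kap := by positivity
    have h13 : f.a * (NN f.n0 / u) ^ f.kap * Real.log 2 ≤
        f.a / f.kap * ((NN f.n0 / u') ^ f.kap - (NN f.n0 / u) ^ f.kap) := by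
      rw [h9]
      have h14 : (NN f.n0 / u) ^ f.kap * (f.kap * Real.log 2) ≤
          (NN f.n0 / u) ^ f.kap * (u / u') ^ f.kap - (NN f.n0 / u) ^ f.kap := by
        nlinarith
      have h15 := mul_le_mul_of_nonneg_left h14 (by positivity : 0 ≤ f.a / f.kap)
      refine le_trans (le_of_eq ?_) h15
      field_simp
    have hlu' : 0 < Real.log u' := by linarith
    have hlu : 0 < Real.log u := by linarith
    have h16 : 1 / Real.log u ^ 2 * Real.log 2 ≤ 1 / Real.log u' - 1 / Real.log u := by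
      have h17 : 1 / Real.log u' - 1 / Real.log u =
          (Real.log u - Real.log u') / (Real.log u * Real.log u') := by
        field_simp
      rw [h17, one_div, inv_mul_eq_div]
      apply div_le_div₀ (by linarith) hlog (by positivity)
      have : Real.log u' ≤ Real.log u := by linarith
      nlinarith
    have h18 : (f.a * (NN f.n0 / u) ^ f.kap + 1 / Real.log u ^ 2) * Real.log 2 ≤
        f.a / f.kap * ((NN f.n0 / u') ^ f.kap - (NN f.n0 / u) ^ f.kap) +
          (1 / Real.log u' - 1 / Real.log u) := by linarith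
    have h19 := mul_le_mul_of_nonneg_left h18 (by positivity : 0 ≤ f.L / Real.log 2)
    refine le_trans (le_of_eq ?_) h19
    field_simp

theorem lev_nonneg (h : Ok b f) (D : ℕ → ℝ) (r : ℕ) : 0 ≤ lev f D r := by
  unfold lev
  apply div_nonneg (le_max_left _ _)
  apply Lam_nonneg h
  exact Real.log_natCast_nonneg r

theorem mem_LP {n r : ℕ} : r ∈ LP n ↔ r.Prime ∧ Real.sqrt (NN n) < Real.log r ∧
    Real.log r ≤ NN n := by
  unfold LP
  rw [mem_filter, mem_range, Nat.lt_succ_iff]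
  constructor
  · rintro ⟨h1, h2, h3⟩
    refine ⟨h2, h3, ?_⟩
    have h4 : (r : ℝ) ≤ Real.exp (NN n) := by
      rw [← Nat.le_floor_iff (Real.exp_pos _).le]; exact h1
    have h5 : (0 : ℝ) < r := by exact_mod_cast h2.pos
    rwa [← Real.log_le_iff_le_exp h5] at h4
  · rintro ⟨h1, h2, h3⟩
    refine ⟨?_, h1, h2⟩
    rw [Nat.le_floor_iff (Real.exp_pos _).le]
    have h5 : (0 : ℝ) < r := by exact_mod_cast h1.pos
    rwa [Real.log_le_iff_le_exp h5] at h3

theorem loglog_ge {n : ℕ} (hn : 144 * b ≤ n) {u : ℝ} (hu : Real.sqrt (NN n) ≤ u) :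
    8 * (b : ℝ) ≤ Real.log u := by
  have h1 : Real.log (Real.sqrt (NN n)) ≤ Real.log u :=
    Real.log_le_log (Real.sqrt_pos.2 (NN_pos n)) hu
  rw [Real.log_sqrt (NN_pos n).le, log_NN] at h1
  have h2 := loglam_ge
  have h3 : (144 : ℝ) * b ≤ n := by exact_mod_cast hn
  have h4 : (n : ℝ) * (1 / 9) ≤ n * Real.log lam := mul_le_mul_of_nonneg_left h2 (Nat.cast_nonneg _)
  linarith

theorem t0_ge (hn : 144 * b ≤ f.n0) : 8 * (b : ℝ) ≤ f.t0 := by
  have h1 : f.t0 = f.n0 * Real.log lam := log_NN f.n0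
  rw [h1]
  have h2 := loglam_ge
  have h3 : (144 : ℝ) * b ≤ f.n0 := by exact_mod_cast hn
  have h4 : (f.n0 : ℝ) * (1 / 9) ≤ f.n0 * Real.log lam :=
    mul_le_mul_of_nonneg_left h2 (Nat.cast_nonneg _)
  have h5 : (0 : ℝ) ≤ b := Nat.cast_nonneg _
  linarith

/-- bound of the truncated excess -/
theorem exc_le {Δ D₂ : ℝ} {D : ℕ → ℝ} (hΔ : 1 ≤ Δ) (hD : AddFn Δ D₂ D) (h : Ok b f)
    {n : ℕ} {u : ℝ} (hu : 0 < u) (hl : 8 * (b : ℝ) ≤ Real.log u) (hun : u ≤ NN n) (c : ℝ) (hc : 0 ≤ c)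
    {r : ℕ} (hr : 1 < r) : max 0 (D r / Real.log r - c) / f.Lam u ≤ Δ * (n / 8 : ℝ) ^ 2 := by
  have hb2 : (2 : ℝ) ≤ b := by exact_mod_cast h.hb
  have hlu : 0 < Real.log u := by linarith
  have h1 := Lam_ge h hu hl
  have hLpos := Lam_pos h hu hl
  have hlr : 0 < Real.log r := Real.log_pos (by exact_mod_cast hr)
  have h2 : D r / Real.log r ≤ Δ := by
    rw [div_le_iff₀ hlr]
    exact hD.le_log r (by omega)
  have h3 : max 0 (D r / Real.log r - c) ≤ Δ := max_le (by linarith) (by linarith)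
  rw [div_le_iff₀ hLpos]
  refine h3.trans ?_
  have h4 : Real.log u ≤ n / 8 := by
    have h5 : Real.log u ≤ Real.log (NN n) := Real.log_le_log hu hun
    rw [log_NN] at h5
    have h6 := mul_le_mul_of_nonneg_left loglam_le (Nat.cast_nonneg (α := ℝ) n)
    linarith
  have h5 : 1 ≤ (n / 8 : ℝ) ^ 2 * f.Lam u := by
    calc (1 : ℝ) = (Real.log u) ^ 2 * (1 / Real.log u ^ 2) := by field_simp
      _ ≤ (n / 8 : ℝ) ^ 2 * f.Lam u := by
          apply mul_le_mul (by gcongr) h1 (by positivity) (by positivity)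
  nlinarith

end Fr

open Fr

/-- size of the levels -/
theorem lev_le (Δ D₂ : ℝ) (hΔ : 1 ≤ Δ) : ∀ b : ℕ, 2 ≤ b → ∃ n₀ : ℕ, ∀ n, n₀ ≤ n →
    ∀ (f : Frame) (D : ℕ → ℝ), AddFn Δ D₂ D → n₀ ≤ f.n0 → f.n0 < n → 0 ≤ f.c0 → 0 ≤ f.a → f.a ≤ 1 →
    1 ≤ f.L → f.kap = 1 / (4 * b) →
    ∀ r ∈ LP n, (lev f D r) ^ b ≤ (n : ℝ) ^ (2 * b + 1) / 2 := by
  intro b hb
  obtain ⟨m, hm⟩ := exists_nat_ge (2 * Δ ^ b)
  refine ⟨max (144 * b) m, ?_⟩
  intro n hn f D hD hn0 hn0n hc0 ha ha1 hL hkap r hr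
  have hn1 : 144 * b ≤ n := (le_max_left _ _).trans hn
  have hn2 : m ≤ n := (le_max_right _ _).trans hn
  have hok : Ok b f := ⟨hb, hkap, hc0, ha, by linarith, t0_ge ((le_max_left _ _).trans hn0)⟩
  obtain ⟨hrp, hr1, hr2⟩ := mem_LP.1 hr
  have hsq : 0 < Real.sqrt (NN n) := Real.sqrt_pos.2 (NN_pos n)
  have hu : 0 < Real.log r := hsq.trans hr1
  have hl := loglog_ge hn1 hr1.le
  have h1 : lev f D r ≤ Δ * (n / 8 : ℝ) ^ 2 := by
    unfold lev
    exact exc_le hΔ hD hok hu hl hr2 _ (cc_nonneg hok hu) hrp.one_lt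
  have h2 := lev_nonneg hok D r
  have hn3 : 2 * Δ ^ b ≤ (n : ℝ) := hm.trans (by exact_mod_cast hn2)
  have hnn : (0 : ℝ) ≤ n := Nat.cast_nonneg _
  calc (lev f D r) ^ b ≤ (Δ * (n / 8 : ℝ) ^ 2) ^ b := by gcongr
    _ = Δ ^ b * (n / 8 : ℝ) ^ (2 * b) := by rw [mul_pow, ← pow_mul]
    _ ≤ Δ ^ b * (n : ℝ) ^ (2 * b) := by
        have : 0 ≤ Δ ^ b := by positivity
        apply mul_le_mul_of_nonneg_left _ this
        gcongr
        linarith
    _ ≤ (n / 2) * (n : ℝ) ^ (2 * b) := by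
        apply mul_le_mul_of_nonneg_right _ (by positivity)
        linarith
    _ = _ := by ring

end

end Pool.Agent.NTot
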