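import Pool.Agent.NTot.Chains

/-!
# M3c: long special chains
-/

set_option autoImplicit false

namespace Pool.Agent.NTot

open Finset Filter Topology

noncomputable section

theorem long_chain : ∀ b : ℕ, ∃ n₀ : ℕ, ∀ n, n₀ ≤ n → ∀ X : ℕ,
    (NN n) ^ (0.49 : ℝ) ≤ Real.log X → Real.log X ≤ 3 * NN n →
    ∑ P ∈ Ioc X (2 * X), uu (MM b n) (KK b n) P ≤ X * Real.exp (-(n : ℝ) ^ (2 * b + 2)) := by
  intro b
  obtain ⟨C₁, hC₁, N₀, hCC⟩ := chain_count
  obtain ⟨n1, h1⟩ := params b (C₁ * Real.exp 1) (by positivity)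
  obtain ⟨n2, h2⟩ := ch_poly_le 0 1 N₀ (by norm_num)
  refine ⟨max (max n1 n2) 1, ?_⟩
  intro n hn X hX1 hX2
  obtain ⟨hn1, hp1, hp2, hp3⟩ := h1 n ((le_max_left _ _).trans ((le_max_left _ _).trans hn))
  have hN₀ : N₀ ≤ NN n := by
    have := h2 n ((le_max_right _ _).trans ((le_max_left _ _).trans hn))
    rwa [pow_zero, mul_one, Real.rpow_one] at this
  set N := NN n with hNdef
  have hN1 : 1 ≤ N := ch_one_le_NN n
  have hlogN : 0 ≤ Real.log N := Real.log_nonneg hN1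
  have hX0 : 0 < Real.log X := lt_of_lt_of_le (by positivity) hX1
  have hKdef : ((KK b n : ℕ) : ℝ) = (n : ℝ) ^ (2 * b + 2) := by unfold KK; push_cast; rfl
  have hK1 : 1 ≤ KK b n := by unfold KK; exact Nat.one_le_pow _ _ (by omega)
  obtain ⟨s, hs⟩ : ∃ s, KK b n = s + 1 := ⟨KK b n - 1, by omega⟩
  set M := MM b n with hMdef
  have hM2 : 2 ≤ M := two_le_MM hn1
  have hM1 : (1 : ℝ) ≤ M := by exact_mod_cast (by omega : 1 ≤ M)
  set q := C₁ * ((s + 2 : ℕ) : ℝ) * Real.log N / Real.log X with hq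
  have hq0 : 0 ≤ q := by positivity
  have hsN : (((s + 2 : ℕ)) : ℝ) ≤ N ^ (1 / 6 : ℝ) := by
    refine le_trans ?_ hp1
    rw [hs]
    have : s + 2 ≤ 1 + (s + 1) * (s + 1 + 1) := by nlinarith
    exact_mod_cast this
  have hN6 : (1 : ℝ) ≤ N ^ (1 / 6 : ℝ) := Real.one_le_rpow hN1 (by norm_num)
  -- q * S1 ≤ exp (-1)
  have hqS : q * S1 M ≤ Real.exp (-1) := by
    rw [Real.exp_neg, ← one_div, le_div_iff₀ (Real.exp_pos 1), hq]
    have e : C₁ * ((s + 2 : ℕ) : ℝ) * Real.log N / Real.log X * S1 M * Real.exp 1 =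
      (C₁ * Real.exp 1 * (((s + 2 : ℕ) : ℝ) * Real.log N) * S1 M) / Real.log X := by ring
    rw [e, div_le_one hX0]
    refine le_trans ?_ (hp3.trans hX1)
    have := S1_nonneg M
    gcongr
  have hS1 : 1 ≤ S1 M := by
    unfold S1
    have h3 : (fun m : ℕ => (1 : ℝ) / m) 1 ≤ ∑ m ∈ Ico 1 M, (fun m : ℕ => (1 : ℝ) / m) m := by
      apply Finset.single_le_sum (f := fun m : ℕ => (1 : ℝ) / m) (fun m _ => by positivity)
      rw [mem_Ico]; omega
    simpa using h3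
  have hq1 : q ≤ 1 := by
    have h3 : q ≤ q * S1 M := le_mul_of_one_le_right hq0 hS1
    have h4 : Real.exp (-1) ≤ 1 := Real.exp_le_one_iff.mpr (by norm_num)
    linarith
  -- expand
  have step1 : ∀ P : ℕ, uu M (KK b n) P = ∑ m ∈ Ico 1 M, ∑ l ∈ chs M s,
      if (∀ h ≤ s + 1, (vf (fm (1, 0) (m :: l) h) P).Prime) then wt (m :: l) else 0 := by
    intro P
    have e : P = vf (1, 0) P := by simp [vf]
    conv_lhs => rw [e]
    rw [uu_expand, hs, sum_chs_succ]
  rw [Finset.sum_congr rfl (fun P _ => step1 P), Finset.sum_comm]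
  have step2 : ∀ m ∈ Ico 1 M, ∀ l ∈ chs M s,
      (∑ P ∈ Ioc X (2 * X), if (∀ h ≤ s + 1, (vf (fm (1, 0) (m :: l) h) P).Prime) then
        wt (m :: l) else 0) ≤ wt (m :: l) * (X * q ^ (s + 2)) := by
    intro m hm l hl
    rw [mem_Ico] at hm
    obtain ⟨hl1, hl2⟩ := mem_chs hl
    rw [← Finset.sum_filter, Finset.sum_const, nsmul_eq_mul, mul_comm]
    apply mul_le_mul_of_nonneg_left _ (wt_nonneg _)
    obtain ⟨B, hB⟩ : ∃ B : Finset (ℕ × ℕ), B = {(1, 0)} := ⟨_, rfl⟩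
    have hBc : B.card = 1 := by rw [hB]; simp
    have hcnt := hCC N hN₀ Unit (fun _ => m) B (fun _ => l) M X (s + 2)
      (Function.injective_of_subsingleton _) (by rw [hB]) (by rw [hBc]; simp [hl1]; omega) (by omega)
      hsN hM2 (fun _ => hl2) (fun _ => ⟨hm.1, ?_⟩) hX1 (by linarith)
    · refine le_trans (Nat.cast_le.mpr (card_le_card ?_)) (hcnt.trans ?_)
      · intro t ht
        rw [mem_filter] at ht ⊢
        refine ⟨ht.1, ?_, ?_⟩
        · intro g hg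
          rw [hB, mem_singleton] at hg
          rw [hg]
          exact ht.2 0 (by omega)
        · intro _ h hh
          have := ht.2 (h + 1) (by omega)
          rw [fm_cons] at this
          have e : stp m (1, 0) = (m, 1) := by simp [stp]
          rwa [e] at this
      have hP1 : ∏ l ∈ PZ ⌊N ^ 2⌋₊,
          (1 - (om (B ∪ univ.image (fun _ : Unit => (m, 1))) l : ℝ) / l) ≤ 1 :=
        Finset.prod_le_one (fun l _ => fac_nonneg _ l) (fun l _ => fac_le_one _ l)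
      calc _ ≤ (X : ℝ) * 1 * q ^ (s + 2) := by
            rw [hq]
            gcongr
        _ = _ := by ring
    · rw [hl1]
      have h3 : (M : ℝ) ^ s * M ≤ Real.exp (2 * N) := by
        rw [← pow_succ, ← hs]; exact hp2
      have h4 : (m : ℝ) ≤ M := by exact_mod_cast hm.2.le
      calc (m : ℝ) * (M : ℝ) ^ s ≤ M * (M : ℝ) ^ s := by gcongr
        _ = (M : ℝ) ^ s * M := by ring
        _ ≤ Real.exp (2 * N) := h3
        _ ≤ Real.exp (5 * N) := Real.exp_le_exp.mpr (by linarith)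
  have step3 : ∑ m ∈ Ico 1 M, ∑ P ∈ Ioc X (2 * X), ∑ l ∈ chs M s,
      (if (∀ h ≤ s + 1, (vf (fm (1, 0) (m :: l) h) P).Prime) then wt (m :: l) else 0) ≤
      (S1 M) ^ (s + 1) * (X * q ^ (s + 2)) := by
    rw [← sum_wt, sum_chs_succ, Finset.sum_mul]
    apply Finset.sum_le_sum
    intro m hm
    rw [Finset.sum_comm, Finset.sum_mul]
    apply Finset.sum_le_sum
    intro l hl
    exact step2 m hm l hl
  refine step3.trans ?_
  have hfin : (S1 M) ^ (s + 1) * q ^ (s + 2) ≤ Real.exp (-(n : ℝ) ^ (2 * b + 2)) := by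
    have e : (S1 M) ^ (s + 1) * q ^ (s + 2) = (q * S1 M) ^ (s + 1) * q := by
      rw [mul_pow]; ring
    rw [e]
    have h5 : (q * S1 M) ^ (s + 1) ≤ (Real.exp (-1)) ^ (s + 1) :=
      pow_le_pow_left₀ (mul_nonneg hq0 (by linarith)) hqS _
    have h6 : (Real.exp (-1)) ^ (s + 1) = Real.exp (-(n : ℝ) ^ (2 * b + 2)) := by
      rw [← Real.exp_nat_mul, ← hKdef, hs]
      congr 1
      ring
    have h7 : 0 ≤ (Real.exp (-1)) ^ (s + 1) := by positivity
    calc (q * S1 M) ^ (s + 1) * q ≤ (Real.exp (-1)) ^ (s + 1) * 1 := by gcongr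
      _ = _ := by rw [mul_one, h6]
  calc (S1 M) ^ (s + 1) * (X * q ^ (s + 2)) = X * ((S1 M) ^ (s + 1) * q ^ (s + 2)) := by ring
    _ ≤ _ := by gcongr

end

end Pool.Agent.NTot
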