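import Pool.Agent.NTot.Mom

/-!
# Module M5: bias of rare sets
-/

set_option autoImplicit false

namespace Pool.Agent.NTot

open Finset Filter Topology

noncomputable section

/-! ### Young's inequality with the truncated exponential -/

theorem LS_fact (n : ℕ) (hn : 1 ≤ n) :
    (n.factorial : ℝ) ≤ (n : ℝ) ^ (n + 1) * Real.exp (1 - n) := by
  induction n, hn using Nat.le_induction with
  | base => simp
  | succ n hn ih =>
    have hn0 : (0 : ℝ) < n := by exact_mod_cast hn
    have hn1 : (0 : ℝ) < (n : ℝ) + 1 := by linarith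
    have h1 : 1 ≤ ((n : ℝ) + 1) * Real.log (((n : ℝ) + 1) / n) := by
      have h2 := Real.one_sub_inv_le_log_of_pos (div_pos hn1 hn0)
      have h3 : 1 - (((n : ℝ) + 1) / n)⁻¹ = 1 / ((n : ℝ) + 1) := by
        rw [inv_div]
        field_simp
        ring
      rw [h3, div_le_iff₀ hn1] at h2
      linarith
    have h4 : Real.exp 1 ≤ (((n : ℝ) + 1) / n) ^ (n + 1) := by
      rw [← Real.exp_log (pow_pos (div_pos hn1 hn0) (n + 1)), Real.log_pow]
      apply Real.exp_le_exp.2
      push_cast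
      exact h1
    have h5 : Real.exp 1 * (n : ℝ) ^ (n + 1) ≤ ((n : ℝ) + 1) ^ (n + 1) := by
      rw [div_pow, le_div_iff₀ (by positivity)] at h4
      exact h4
    rw [Nat.factorial_succ]
    push_cast
    calc ((n : ℝ) + 1) * (n.factorial : ℝ)
        ≤ ((n : ℝ) + 1) * ((n : ℝ) ^ (n + 1) * Real.exp (1 - n)) := by gcongr
      _ = ((n : ℝ) + 1) * ((Real.exp 1 * (n : ℝ) ^ (n + 1)) * Real.exp (1 - n - 1)) := by
          rw [Real.exp_sub (1 - (n : ℝ)) 1]
          field_simp
      _ ≤ ((n : ℝ) + 1) * (((n : ℝ) + 1) ^ (n + 1) * Real.exp (1 - n - 1)) := by gcongr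
      _ = ((n : ℝ) + 1) ^ (n + 1 + 1) * Real.exp (1 - (n + 1)) := by
          rw [show (1 : ℝ) - n - 1 = 1 - (n + 1) by ring]
          ring

theorem LS_num (K : ℕ) (hK : 100000 ≤ K) :
    (K.factorial : ℝ) * Real.exp (K / 4) ≤ ((K : ℝ) / 2) ^ (K - 1) := by
  have hKr : (100000 : ℝ) ≤ K := by exact_mod_cast hK
  have hK0 : (0 : ℝ) < K := by linarith
  have h1 := LS_fact K (by omega)
  -- `exp (K (3/4 - log 2)) ≥ (e/2) K^2`
  have h2 : Real.exp 1 / 2 * (K : ℝ) ^ 2 ≤ Real.exp (K * (3 / 4 - Real.log 2)) := by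
    have h3 : (K : ℝ) / 20 ≤ K * (3 / 4 - Real.log 2) := by
      have := Real.log_two_lt_d9
      nlinarith
    have h4 := Real.pow_div_factorial_le_exp (K / 20 : ℝ) (by positivity) 3
    have h5 : Real.exp 1 < 2.7182818286 := Real.exp_one_lt_d9
    refine le_trans ?_ (h4.trans (Real.exp_le_exp.2 h3))
    have h6 : ((3 : ℕ).factorial : ℝ) = 6 := by norm_num [Nat.factorial]
    rw [h6]
    have h7 : ((K : ℝ) / 20) ^ 3 / 6 = K ^ 2 * (K / 48000) := by ring
    rw [h7]
    have h8 : Real.exp 1 / 2 ≤ K / 48000 := by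
      rw [le_div_iff₀ (by norm_num)]
      linarith
    calc Real.exp 1 / 2 * (K : ℝ) ^ 2 = (K : ℝ) ^ 2 * (Real.exp 1 / 2) := by ring
      _ ≤ (K : ℝ) ^ 2 * (K / 48000) := by gcongr
  have h9 : ((K : ℝ) / 2) ^ (K - 1) = (K : ℝ) ^ (K - 1) * Real.exp (-((K : ℝ) - 1) * Real.log 2) := by
    rw [div_pow, div_eq_mul_inv]
    congr 1
    rw [neg_mul, Real.exp_neg, mul_comm, Real.exp_mul, Real.exp_log (by norm_num)]
    congr 1
    rw [← Real.rpow_natCast]
    congr 1
    rw [Nat.cast_sub (by omega)]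
    simp
  rw [h9]
  have h10 : (K : ℝ) ^ (K + 1) = (K : ℝ) ^ (K - 1) * (K : ℝ) ^ 2 := by
    rw [← pow_add]
    congr 1
    omega
  calc (K.factorial : ℝ) * Real.exp (K / 4)
      ≤ ((K : ℝ) ^ (K + 1) * Real.exp (1 - K)) * Real.exp (K / 4) := by gcongr
    _ = (K : ℝ) ^ (K - 1) * ((K : ℝ) ^ 2 * (Real.exp (1 - K) * Real.exp (K / 4))) := by
        rw [h10]; ring
    _ = (K : ℝ) ^ (K - 1) * ((Real.exp 1 / 2 * (K : ℝ) ^ 2) * (2 * Real.exp (-(3 / 4 * K)))) := by
        have : Real.exp (1 - K) * Real.exp (K / 4) = Real.exp 1 * Real.exp (-(3 / 4 * K)) := by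
          rw [← Real.exp_add, ← Real.exp_add]
          congr 1
          ring
        rw [this]
        ring
    _ ≤ (K : ℝ) ^ (K - 1) * (Real.exp (K * (3 / 4 - Real.log 2)) *
          (2 * Real.exp (-(3 / 4 * K)))) := by gcongr
    _ = (K : ℝ) ^ (K - 1) * Real.exp (-((K : ℝ) - 1) * Real.log 2) := by
        congr 1
        have : (2 : ℝ) = Real.exp (Real.log 2) := (Real.exp_log (by norm_num)).symm
        conv_lhs => rw [show (2 * Real.exp (-(3 / 4 * (K : ℝ))) : ℝ) =
          Real.exp (Real.log 2) * Real.exp (-(3 / 4 * (K : ℝ))) by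
            rw [Real.exp_log (by norm_num)]]
        rw [← Real.exp_add, ← Real.exp_add]
        congr 1
        ring

/-- the truncated exponential -/
def LS_EK (K : ℕ) (x : ℝ) : ℝ := ∑ k ∈ range (K + 1), x ^ k / k.factorial

theorem LS_EK_ge (K : ℕ) {x : ℝ} (hx : 0 ≤ x) {k : ℕ} (hk : k ≤ K) :
    x ^ k / k.factorial ≤ LS_EK K x := by
  unfold LS_EK
  exact Finset.single_le_sum (f := fun k : ℕ => x ^ k / (k.factorial : ℝ))
    (fun i _ => by positivity) (Finset.mem_range.2 (by omega))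

theorem LS_exp_le (K : ℕ) {x : ℝ} (hx : 0 ≤ x) (hxK : x ≤ K / 2) :
    Real.exp x ≤ 2 * LS_EK K x := by
  have h1 : ‖(x : ℂ)‖ / ((K + 1).succ : ℕ) ≤ 1 / 2 := by
    rw [Complex.norm_real, Real.norm_of_nonneg hx, div_le_iff₀ (by positivity)]
    push_cast
    linarith
  have h2 := Complex.exp_bound' h1
  rw [Complex.norm_real, Real.norm_of_nonneg hx] at h2
  have h3 : Complex.exp (x : ℂ) - ∑ m ∈ range (K + 1), (x : ℂ) ^ m / (m.factorial : ℂ) =
      ((Real.exp x - LS_EK K x : ℝ) : ℂ) := by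
    unfold LS_EK
    push_cast
    rfl
  rw [h3, Complex.norm_real, Real.norm_eq_abs] at h2
  have h4 := le_abs_self (Real.exp x - LS_EK K x)
  have h5 : x ^ (K + 1) / ((K + 1).factorial : ℝ) * 2 ≤ x ^ K / K.factorial := by
    rw [Nat.factorial_succ]
    push_cast
    rw [div_mul_eq_mul_div, div_le_div_iff₀ (by positivity) (by positivity)]
    have h6 : x * 2 ≤ (K : ℝ) + 1 := by linarith
    calc x ^ (K + 1) * 2 * (K.factorial : ℝ) = x ^ K * (x * 2) * K.factorial := by ring
      _ ≤ x ^ K * ((K : ℝ) + 1) * K.factorial := by gcongr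
      _ = x ^ K * (((K : ℝ) + 1) * K.factorial) := by ring
  have h7 := LS_EK_ge K hx (le_refl K)
  linarith

theorem LS_young (K : ℕ) (hK : 100000 ≤ K) {a x : ℝ} (ha0 : 0 ≤ a) (ha : a ≤ Real.exp (K / 4))
    (hx : 0 ≤ x) : a * x ≤ a * Real.posLog a + LS_EK K x := by
  have hpl : 0 ≤ a * Real.posLog a := mul_nonneg ha0 Real.posLog_nonneg
  rcases lt_or_ge a 1 with h | h
  · have h1 := LS_EK_ge K hx (show 1 ≤ K by omega)
    have h2 : x ^ 1 / ((1 : ℕ).factorial : ℝ) = x := by simp
    rw [h2] at h1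
    have h3 : a * x ≤ 1 * x := by gcongr
    linarith
  · rcases le_or_gt x ((K : ℝ) / 2) with h1 | h1
    · have ha1 : 0 < a := by linarith
      have h2 : a * (x - Real.log a) ≤ Real.exp (x - 1) := by
        have h3 := Real.add_one_le_exp (x - 1 - Real.log a)
        calc a * (x - Real.log a) = a * ((x - 1 - Real.log a) + 1) := by ring
          _ ≤ a * Real.exp (x - 1 - Real.log a) := by gcongr
          _ = Real.exp (x - 1) := by
              rw [Real.exp_sub (x - 1), Real.exp_log ha1]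
              field_simp
      have h3 : Real.posLog a = Real.log a := Real.posLog_eq_log (by rw [abs_of_pos ha1]; exact h)
      have h4 : Real.exp (x - 1) ≤ Real.exp x / 2 := by
        rw [Real.exp_sub]
        have : 2 ≤ Real.exp 1 := by linarith [Real.exp_one_gt_d9]
        gcongr
      have h5 := LS_exp_le K hx h1
      rw [h3]
      nlinarith
    · have hK0 : (0 : ℝ) < K := by
        have : (100000 : ℝ) ≤ K := by exact_mod_cast hK
        linarith
      have h2 := LS_num K hK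
      have h3 : ((K : ℝ) / 2) ^ (K - 1) ≤ x ^ (K - 1) := by gcongr
      have h4 : Real.exp (K / 4) ≤ x ^ (K - 1) / K.factorial := by
        rw [le_div_iff₀ (by positivity), mul_comm]
        exact h2.trans h3
      have h5 : x ^ (K - 1) / K.factorial * x = x ^ K / K.factorial := by
        obtain ⟨m, rfl⟩ : ∃ m, K = m + 1 := ⟨K - 1, by omega⟩
        simp only [Nat.add_sub_cancel]
        rw [pow_succ]
        ring
      have h6 := LS_EK_ge K hx (le_refl K)
      calc a * x ≤ Real.exp (K / 4) * x := by gcongr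
        _ ≤ x ^ (K - 1) / K.factorial * x := by gcongr
        _ = x ^ K / K.factorial := h5
        _ ≤ a * Real.posLog a + LS_EK K x := by linarith

theorem LS : ∃ C₄ : ℝ, 1 ≤ C₄ ∧ ∀ b : ℕ, ∃ n₀ : ℕ, ∀ n, n₀ ≤ n →
    ∀ (d X M : ℕ) (F : ℕ → ℝ) (A : ℝ), 1 ≤ d → (d : ℝ) ≤ Real.exp (NN n) →
    (NN n) ^ (0.49 : ℝ) ≤ Real.log X → Real.log X ≤ NN n → MM b n ≤ 2 * M →
    (M : ℝ) ≤ Real.exp (NN n) → 0 < A →
    (∀ t ∈ PB X, 0 ≤ F t ∧ F t ≤ A * Real.exp (KK b n / 4)) →
    ∑ t ∈ PB X, F t * NM b n d M t ≤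
      C₄ * (M * dphi d / Real.log X) *
        (∑ t ∈ PB X, F t * Real.posLog (F t / A) + A * X / Real.log X) := by
  obtain ⟨C₃, hC₃, hmom⟩ := MOM
  obtain ⟨C, hC, hPB⟩ := card_PB
  have he1 : 2 ≤ Real.exp 1 := by linarith [Real.exp_one_gt_d9]
  refine ⟨2 * Real.exp 1 * C₃ * (C + 1), ?_, fun b => ?_⟩
  · have h1 : 1 ≤ 2 * Real.exp 1 * C₃ := by nlinarith
    nlinarith
  obtain ⟨n₁, hn₁⟩ := hmom b
  refine ⟨max n₁ 400, fun n hn d X M F A hd hdN hX1 hX2 hM1 hM2 hA hF => ?_⟩
  have hn1 : n₁ ≤ n := (le_max_left _ _).trans hn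
  have hn2 : 400 ≤ n := (le_max_right _ _).trans hn
  set K := KK b n with hK
  have hK1 : 100000 ≤ K := by
    rw [hK]
    unfold KK
    calc 100000 ≤ 400 ^ 2 := by norm_num
      _ ≤ n ^ 2 := Nat.pow_le_pow_left hn2 2
      _ ≤ n ^ (2 * b + 2) := Nat.pow_le_pow_right (by omega) (by omega)
  have hNN : 0 < NN n := by unfold NN lam; positivity
  have hlX : 0 < Real.log X := lt_of_lt_of_le (by positivity) hX1
  have hXr : 1 < (X : ℝ) := by
    by_contra hcon
    have := Real.log_nonpos (Nat.cast_nonneg X) (not_lt.1 hcon)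
    linarith
  have hX : 2 ≤ X := by
    have : 1 < X := by exact_mod_cast hXr
    omega
  have hM : 0 < M := by
    have : 0 < MM b n := by
      unfold MM
      exact Nat.ceil_pos.2 (Real.exp_pos _)
    omega
  have hMr : (0 : ℝ) < M := by exact_mod_cast hM
  have hdr : (0 : ℝ) < d := by exact_mod_cast hd
  have htot : (0 : ℝ) < Nat.totient d := by exact_mod_cast Nat.totient_pos.2 (by omega)
  have hdp : 0 < dphi d := by unfold dphi; positivity
  set Λ := M * dphi d / Real.log X with hΛ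
  have hΛ0 : 0 < Λ := by positivity
  set l0 := 2 * Real.exp 1 * C₃ * Λ with hl0
  have hl00 : 0 < l0 := by
    have : 0 < C₃ := by linarith
    positivity
  have hNM0 : ∀ t, 0 ≤ NM b n d M t := fun t => Finset.sum_nonneg fun m _ => U_nonneg b n _
  -- the moments
  have hmk : ∀ k, 1 ≤ k → k ≤ K → ∑ t ∈ PB X, (NM b n d M t / l0) ^ k / k.factorial ≤
      X / Real.log X * (1 / 2) ^ k := by
    intro k hk1 hk2
    have h1 := hn₁ n hn1 k d X M hk1 hk2 hd hdN hX1 hX2 hM1 hM2
    have h2 : ∑ t ∈ PB X, (NM b n d M t / l0) ^ k / k.factorial =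
        (∑ t ∈ PB X, (NM b n d M t) ^ k) / (l0 ^ k * k.factorial) := by
      rw [Finset.sum_div]
      apply Finset.sum_congr rfl
      intro t _
      rw [div_pow, div_div]
    rw [h2, div_le_iff₀ (by positivity)]
    refine h1.trans ?_
    have h3 := Real.pow_div_factorial_le_exp (k : ℝ) (by positivity) k
    have h4 : Real.exp (k : ℝ) = Real.exp 1 ^ k := by
      rw [← Real.exp_nat_mul, mul_one]
    rw [h4, div_le_iff₀ (by positivity)] at h3
    have h5 : (C₃ * k * Λ) ^ k = (C₃ * Λ) ^ k * (k : ℝ) ^ k := by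
      rw [← mul_pow]
      congr 1
      ring
    have h6 : l0 ^ k = 2 ^ k * Real.exp 1 ^ k * (C₃ * Λ) ^ k := by
      rw [hl0, ← mul_pow, ← mul_pow]
      congr 1
      ring
    have hC₃0 : 0 < C₃ := by linarith
    rw [h5, h6]
    calc X / Real.log X * ((C₃ * Λ) ^ k * (k : ℝ) ^ k)
        ≤ X / Real.log X * ((C₃ * Λ) ^ k * (Real.exp 1 ^ k * k.factorial)) := by gcongr
      _ = X / Real.log X * (1 / 2) ^ k * (2 ^ k * Real.exp 1 ^ k * (C₃ * Λ) ^ k *
          k.factorial) := by
          have : (1 / 2 : ℝ) ^ k * 2 ^ k = 1 := by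
            rw [← mul_pow]; norm_num
          linear_combination (-(X / Real.log X) * ((C₃ * Λ) ^ k * (Real.exp 1 ^ k *
            k.factorial))) * this
  have hEK : ∑ t ∈ PB X, LS_EK K (NM b n d M t / l0) ≤ (C + 1) * (X / Real.log X) := by
    unfold LS_EK
    rw [Finset.sum_comm, Finset.sum_range_succ']
    have h1 : ∑ t ∈ PB X, (NM b n d M t / l0) ^ 0 / ((0 : ℕ).factorial : ℝ) ≤
        C * (X / Real.log X) := by
      have := hPB X hX
      simp only [pow_zero, Nat.factorial_zero, Nat.cast_one, div_one, Finset.sum_const,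
        nsmul_eq_mul, mul_one]
      rw [mul_div_assoc] at this
      exact this
    have h2 : ∑ k ∈ range K, ∑ t ∈ PB X, (NM b n d M t / l0) ^ (k + 1) /
        ((k + 1).factorial : ℝ) ≤ X / Real.log X := by
      calc ∑ k ∈ range K, ∑ t ∈ PB X, (NM b n d M t / l0) ^ (k + 1) / ((k + 1).factorial : ℝ)
          ≤ ∑ k ∈ range K, X / Real.log X * (1 / 2) ^ (k + 1) := by
            apply Finset.sum_le_sum
            intro k hk
            exact hmk (k + 1) (by omega) (by have := Finset.mem_range.1 hk; omega)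
        _ = X / Real.log X * (1 / 2) * ∑ k ∈ range K, (1 / 2 : ℝ) ^ k := by
            rw [Finset.mul_sum]
            apply Finset.sum_congr rfl
            intro k _
            rw [pow_succ]
            ring
        _ ≤ X / Real.log X * (1 / 2) * 2 := by
            have := sum_geometric_two_le K
            gcongr
        _ = X / Real.log X := by ring
    linarith
  -- Young
  have hY : ∑ t ∈ PB X, (F t / A) * (NM b n d M t / l0) ≤
      ∑ t ∈ PB X, (F t / A) * Real.posLog (F t / A) + (C + 1) * (X / Real.log X) := by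
    calc ∑ t ∈ PB X, (F t / A) * (NM b n d M t / l0)
        ≤ ∑ t ∈ PB X, ((F t / A) * Real.posLog (F t / A) + LS_EK K (NM b n d M t / l0)) := by
          apply Finset.sum_le_sum
          intro t ht
          obtain ⟨h1, h2⟩ := hF t ht
          apply LS_young K hK1 (by positivity)
          · rw [div_le_iff₀ hA, mul_comm]
            exact h2
          · exact div_nonneg (hNM0 t) hl00.le
      _ ≤ _ := by
          rw [Finset.sum_add_distrib]
          linarith
  have h1 : ∑ t ∈ PB X, F t * NM b n d M t =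
      A * l0 * ∑ t ∈ PB X, (F t / A) * (NM b n d M t / l0) := by
    rw [Finset.mul_sum]
    apply Finset.sum_congr rfl
    intro t _
    field_simp
  have h2 : A * ∑ t ∈ PB X, (F t / A) * Real.posLog (F t / A) =
      ∑ t ∈ PB X, F t * Real.posLog (F t / A) := by
    rw [Finset.mul_sum]
    apply Finset.sum_congr rfl
    intro t _
    field_simp
  have h3 : 0 ≤ ∑ t ∈ PB X, F t * Real.posLog (F t / A) :=
    Finset.sum_nonneg fun t ht => mul_nonneg (hF t ht).1 Real.posLog_nonneg
  rw [h1]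
  calc A * l0 * ∑ t ∈ PB X, (F t / A) * (NM b n d M t / l0)
      ≤ A * l0 * (∑ t ∈ PB X, (F t / A) * Real.posLog (F t / A) +
        (C + 1) * (X / Real.log X)) := by gcongr
    _ = l0 * (A * ∑ t ∈ PB X, (F t / A) * Real.posLog (F t / A) +
        (C + 1) * (A * X / Real.log X)) := by ring
    _ = l0 * (∑ t ∈ PB X, F t * Real.posLog (F t / A) +
        (C + 1) * (A * X / Real.log X)) := by rw [h2]
    _ ≤ l0 * ((C + 1) * (∑ t ∈ PB X, F t * Real.posLog (F t / A) + A * X / Real.log X)) := by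
        apply mul_le_mul_of_nonneg_left _ hl00.le
        have : ∑ t ∈ PB X, F t * Real.posLog (F t / A) ≤
            (C + 1) * ∑ t ∈ PB X, F t * Real.posLog (F t / A) := by nlinarith
        linarith
    _ = 2 * Real.exp 1 * C₃ * (C + 1) * Λ *
        (∑ t ∈ PB X, F t * Real.posLog (F t / A) + A * X / Real.log X) := by
        rw [hl0]
        ring

end

end Pool.Agent.NTot
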