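import Pool.Agent.NTot.Ls
import Pool.Agent.NTot.Basic

/-!
# The main term (module M6)
-/

set_option autoImplicit false

namespace Pool.Agent.NTot

open Finset Filter Topology

noncomputable section

theorem mt_bern {c δ : ℝ} (hc : 0 ≤ c) (hc1 : c ≤ 1) (hδ : 0 ≤ δ) (k : ℕ) :
    c ^ k + k * c ^ k * δ ≤ (c + δ) ^ k := by
  induction k with
  | zero => simp
  | succ k ih =>
    have h1 : 0 ≤ c ^ k := pow_nonneg hc k
    have h2 : c ^ (k + 1) ≤ c ^ k := pow_le_pow_of_le_one hc hc1 (Nat.le_succ k)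
    have h3 : (c + δ) * (c ^ k + k * c ^ k * δ) ≤ (c + δ) ^ (k + 1) := by
      rw [pow_succ' (c + δ)]; exact mul_le_mul_of_nonneg_left ih (by linarith)
    refine le_trans ?_ h3
    push_cast
    have h4 : c ^ (k + 1) = c * c ^ k := pow_succ' c k
    have h5 : 0 ≤ k * c ^ k * δ * δ := by positivity
    have h6 := mul_nonneg hδ (sub_nonneg.2 h2)
    rw [h4] at h6 ⊢
    nlinarith

theorem mt_posLog {A φ : ℝ} (hA0 : 0 < A) (hA : A ≤ 1) (hφ0 : 0 ≤ φ) :
    (Real.exp φ - 1) * Real.posLog ((Real.exp φ - 1) / A) ≤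
      (1 + Real.log (1 / A)) * (φ * Real.exp φ) := by
  have hl0' : 0 ≤ Real.log (1 / A) := Real.log_nonneg (by rw [le_div_iff₀ hA0]; linarith)
  have h5 : 0 ≤ Real.exp φ - 1 := by have := Real.add_one_le_exp φ; linarith
  have h6 : Real.exp φ - 1 ≤ φ * Real.exp φ := by
    have h := Real.add_one_le_exp (-φ)
    have e : Real.exp φ * Real.exp (-φ) = 1 := by rw [← Real.exp_add]; simp
    nlinarith [Real.exp_pos φ]
  have h4 : Real.posLog ((Real.exp φ - 1) / A) ≤ φ + Real.log (1 / A) := by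
    show max 0 (Real.log ((Real.exp φ - 1) / A)) ≤ φ + Real.log (1 / A)
    refine max_le (by linarith) ?_
    rcases h5.eq_or_lt with h | h
    · rw [← h]; simp only [zero_div, Real.log_zero]; linarith
    · rw [div_eq_mul_one_div, Real.log_mul h.ne' (by positivity)]
      have : Real.log (Real.exp φ - 1) ≤ φ := by
        calc Real.log (Real.exp φ - 1) ≤ Real.log (Real.exp φ) :=
              Real.log_le_log h (by linarith)
          _ = φ := Real.log_exp φ
      linarith
  calc _ ≤ (Real.exp φ - 1) * (φ + Real.log (1 / A)) := mul_le_mul_of_nonneg_left h4 h5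
    _ = (Real.exp φ - 1) * φ + Real.log (1 / A) * (Real.exp φ - 1) := by ring
    _ ≤ Real.exp φ * φ + Real.log (1 / A) * (φ * Real.exp φ) := by
        have h7 := mul_le_mul_of_nonneg_left h6 hl0'
        have h8 : (Real.exp φ - 1) * φ ≤ Real.exp φ * φ := by nlinarith
        linarith
    _ = _ := by ring

theorem mt_diff {b : ℕ} (hb : 2 ≤ b) {P A u v : ℝ} (hP : 0 ≤ P) (hA0 : 0 < A) (hA : A ≤ 1)
    (huv : u ≤ v) (hv : v ≤ 1) (hv0 : 0 ≤ v) :
    (v - u) * ((Real.exp ((1 - v / 2) ^ (b - 1) * P) - 1) *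
        Real.posLog ((Real.exp ((1 - v / 2) ^ (b - 1) * P) - 1) / A)) ≤
      2 * (1 + Real.log (1 / A)) / (b - 1) *
        (Real.exp ((1 - u / 2) ^ (b - 1) * P) - Real.exp ((1 - v / 2) ^ (b - 1) * P)) := by
  have hl0' : 0 ≤ Real.log (1 / A) := Real.log_nonneg (by rw [le_div_iff₀ hA0]; linarith)
  have hb1 : (0 : ℝ) < b - 1 := by
    have : (2 : ℝ) ≤ b := by exact_mod_cast hb
    linarith
  have hc : 0 ≤ 1 - v / 2 := by linarith
  have hφ0 : 0 ≤ (1 - v / 2) ^ (b - 1) * P := mul_nonneg (pow_nonneg hc _) hP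
  have h1 : (b - 1) * ((v - u) / 2) * ((1 - v / 2) ^ (b - 1) * P) ≤
      (1 - u / 2) ^ (b - 1) * P - (1 - v / 2) ^ (b - 1) * P := by
    have h := mt_bern hc (by linarith) (show 0 ≤ (v - u) / 2 by linarith) (b - 1)
    rw [show 1 - v / 2 + (v - u) / 2 = 1 - u / 2 by ring] at h
    have e : ((b - 1 : ℕ) : ℝ) = b - 1 := by rw [Nat.cast_sub (by omega)]; simp
    rw [e] at h
    have := mul_le_mul_of_nonneg_right h hP
    linarith
  have h3 := mt_posLog hA0 hA hφ0
  revert h1 hφ0 h3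
  generalize (1 - v / 2) ^ (b - 1) * P = φ
  generalize (1 - u / 2) ^ (b - 1) * P = ψ
  generalize Real.log (1 / A) = l0 at *
  intro hφ0 h1 h3
  have h2 : Real.exp φ * (ψ - φ) ≤ Real.exp ψ - Real.exp φ := by
    have h := Real.add_one_le_exp (ψ - φ)
    have e : Real.exp ψ = Real.exp φ * Real.exp (ψ - φ) := by
      rw [← Real.exp_add]; congr 1; ring
    rw [e]; nlinarith [Real.exp_pos φ]
  have h7 : (v - u) * ((1 + l0) * (φ * Real.exp φ)) =
      2 * (1 + l0) / (b - 1) * (Real.exp φ * ((b - 1) * ((v - u) / 2) * φ)) := by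
    field_simp
  refine (mul_le_mul_of_nonneg_left h3 (by linarith)).trans ?_
  rw [h7]
  refine mul_le_mul_of_nonneg_left ?_ (by positivity)
  exact (mul_le_mul_of_nonneg_left h1 (Real.exp_pos φ).le).trans h2

/-- telescoping over the dyadic `m`-blocks -/
theorem mt_tel {b : ℕ} (hb : 2 ≤ b) {P A N L : ℝ} (hP : 0 ≤ P) (hA0 : 0 < A) (hA : A ≤ 1)
    (hN : 0 < N) (hL : Real.log 2 ≤ L) (I : ℕ) (hI : ∀ l < I, l * Real.log 2 + L ≤ N) :
    ∑ l ∈ range I, ((Real.exp ((1 - (l * Real.log 2 + L) / N / 2) ^ (b - 1) * P) - 1) *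
        Real.posLog ((Real.exp ((1 - (l * Real.log 2 + L) / N / 2) ^ (b - 1) * P) - 1) / A)) ≤
      (N / Real.log 2) * (2 * (1 + Real.log (1 / A)) / (b - 1)) * (Real.exp P - 1) := by
  have hl2 : 0 < Real.log 2 := Real.log_pos (by norm_num)
  have hl0' : 0 ≤ Real.log (1 / A) := Real.log_nonneg (by rw [le_div_iff₀ hA0]; linarith)
  have hb1 : (0 : ℝ) < b - 1 := by
    have : (2 : ℝ) ≤ b := by exact_mod_cast hb
    linarith
  have hP1 : 0 ≤ Real.exp P - 1 := by have := Real.add_one_le_exp P; linarith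
  set w : ℕ → ℝ := fun l => ((l : ℝ) * Real.log 2 + L - Real.log 2) / N with hw
  set g : ℕ → ℝ := fun l => Real.exp ((1 - w l / 2) ^ (b - 1) * P) with hg
  set c := 2 * (1 + Real.log (1 / A)) / (b - 1 : ℝ) with hc
  have hc0 : 0 ≤ c := by rw [hc]; positivity
  have step : ∀ l ∈ range I, ((Real.exp ((1 - (l * Real.log 2 + L) / N / 2) ^ (b - 1) * P) - 1) *
        Real.posLog ((Real.exp ((1 - (l * Real.log 2 + L) / N / 2) ^ (b - 1) * P) - 1) / A)) ≤
      (N / Real.log 2) * c * (g l - g (l + 1)) := by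
    intro l hl
    have hle := hI l (mem_range.1 hl)
    have e : w (l + 1) = (l * Real.log 2 + L) / N := by
      simp only [hw]; push_cast; ring
    have h0 : 0 ≤ (l : ℝ) * Real.log 2 + L := by
      have h00 : (0 : ℝ) ≤ (l : ℝ) * Real.log 2 := by positivity
      linarith
    have := mt_diff hb (u := w l) (v := w (l + 1)) hP hA0 hA ?_ ?_ ?_
    · have e2 : w (l + 1) - w l = Real.log 2 / N := by
        simp only [hw]; push_cast; field_simp; ring
      rw [e2, e] at this
      rw [hg]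
      simp only
      rw [e]
      have h9 := mul_le_mul_of_nonneg_left this (show 0 ≤ N / Real.log 2 by positivity)
      have e3 : N / Real.log 2 * (Real.log 2 / N * ((Real.exp ((1 - (l * Real.log 2 + L) / N / 2) ^ (b - 1) * P) - 1) *
        Real.posLog ((Real.exp ((1 - (l * Real.log 2 + L) / N / 2) ^ (b - 1) * P) - 1) / A))) =
        ((Real.exp ((1 - (l * Real.log 2 + L) / N / 2) ^ (b - 1) * P) - 1) *
        Real.posLog ((Real.exp ((1 - (l * Real.log 2 + L) / N / 2) ^ (b - 1) * P) - 1) / A)) := by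
        field_simp
      rw [e3] at h9
      rw [mul_assoc]
      exact h9
    · simp only [hw]; push_cast
      rw [div_le_div_iff_of_pos_right hN]; nlinarith
    · rw [e, div_le_one hN]; exact hle
    · rw [e]; positivity
  refine (Finset.sum_le_sum step).trans ?_
  rw [← Finset.mul_sum, Finset.sum_range_sub']
  rcases Nat.eq_zero_or_pos I with h0 | h0
  · rw [h0, sub_self, mul_zero]; positivity
  · refine mul_le_mul_of_nonneg_left ?_ (by positivity)
    have hw0 : 0 ≤ w 0 := by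
      simp only [hw]; push_cast
      exact div_nonneg (by linarith) hN.le
    have hwI : w I ≤ 1 := by
      have := hI (I - 1) (by omega)
      rw [Nat.cast_sub h0] at this
      simp only [hw]
      rw [div_le_one hN]; push_cast at this; linarith
    have hw01 : w 0 ≤ w I := by
      simp only [hw]; push_cast
      rw [div_le_div_iff_of_pos_right hN]
      have : (0:ℝ) ≤ I := Nat.cast_nonneg I
      nlinarith
    have h1 : g 0 ≤ Real.exp P := by
      simp only [hg]
      rw [Real.exp_le_exp]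
      have : (1 - w 0 / 2) ^ (b - 1) ≤ 1 := pow_le_one₀ (by linarith) (by linarith)
      nlinarith
    have h2 : 1 ≤ g I := by
      simp only [hg]
      rw [Real.one_le_exp_iff]
      exact mul_nonneg (pow_nonneg (by linarith) _) hP
    linarith

theorem Aq_abs_le {b n : ℕ} {E : ℕ → ℝ} {q m1 m2 : ℕ} (hE : 0 ≤ E q) (h1 : 0 < m1)
    (h12 : m1 ≤ m2) (h2 : Real.log m2 ≤ 2 * NN n) : |Aq b n E q m2| ≤ Aq b n E q m1 := by
  have hN := NN_pos n
  have hl : Real.log m1 ≤ Real.log m2 :=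
    Real.log_le_log (by exact_mod_cast h1) (by exact_mod_cast h12)
  have ha : 0 ≤ 1 - Real.log m2 / NN n / 2 := by
    have : Real.log m2 / NN n ≤ 2 := by rw [div_le_iff₀ hN]; exact h2
    linarith
  have hb : 1 - Real.log m2 / NN n / 2 ≤ 1 - Real.log m1 / NN n / 2 := by
    have : Real.log m1 / NN n ≤ Real.log m2 / NN n := div_le_div_of_nonneg_right hl hN.le
    linarith
  have hEb : 0 ≤ (E q) ^ b := pow_nonneg hE b
  have h3 : 0 ≤ (1 - Real.log m2 / NN n / 2) ^ (b - 1) * (E q) ^ b :=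
    mul_nonneg (pow_nonneg ha _) hEb
  have h4 : (1 - Real.log m2 / NN n / 2) ^ (b - 1) * (E q) ^ b ≤
      (1 - Real.log m1 / NN n / 2) ^ (b - 1) * (E q) ^ b :=
    mul_le_mul_of_nonneg_right (pow_le_pow_left₀ ha hb _) hEb
  have h5 := Real.add_one_le_exp ((1 - Real.log m2 / NN n / 2) ^ (b - 1) * (E q) ^ b)
  unfold Aq
  rw [abs_of_nonneg (by linarith)]
  have := Real.exp_le_exp.2 h4
  linarith

theorem Aq_nonneg {b n : ℕ} {E : ℕ → ℝ} {q m : ℕ} (hE : 0 ≤ E q) (h1 : 0 < m)
    (h2 : Real.log m ≤ 2 * NN n) : 0 ≤ Aq b n E q m :=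
  (abs_nonneg _).trans (Aq_abs_le hE h1 le_rfl h2)

theorem Aq_le {b n : ℕ} {E : ℕ → ℝ} {q m : ℕ} (hE : 0 ≤ E q) (h1 : 0 < m)
    (h2 : Real.log m ≤ 2 * NN n) : Aq b n E q m ≤ Real.exp ((E q) ^ b) := by
  have hN := NN_pos n
  have hEb : 0 ≤ (E q) ^ b := pow_nonneg hE b
  have ha : 0 ≤ 1 - Real.log m / NN n / 2 := by
    have : Real.log m / NN n ≤ 2 := by rw [div_le_iff₀ hN]; exact h2
    linarith
  have hb : 1 - Real.log m / NN n / 2 ≤ 1 := by
    have h3 : 0 ≤ Real.log m := Real.log_nonneg (by exact_mod_cast h1)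
    have : 0 ≤ Real.log m / NN n := div_nonneg h3 hN.le
    linarith
  unfold Aq
  have h4 : (1 - Real.log m / NN n / 2) ^ (b - 1) * (E q) ^ b ≤ 1 * (E q) ^ b :=
    mul_le_mul_of_nonneg_right (pow_le_one₀ ha hb) hEb
  have := Real.exp_le_exp.2 h4
  rw [one_mul] at this
  linarith

theorem main_term : ∃ C₅ : ℝ, 1 ≤ C₅ ∧ ∀ b : ℕ, 2 ≤ b → ∃ n₀ : ℕ, ∀ n, n₀ ≤ n →
    ∀ (d : ℕ) (E : ℕ → ℝ) (A : ℝ), 1 ≤ d → (d : ℝ) ≤ Real.exp (NN n) →
    (∀ q, 0 ≤ E q ∧ (q ∈ LP n → (E q) ^ b ≤ (n : ℝ) ^ (2 * b + 1))) → 1 / (n : ℝ) ≤ A → A ≤ 1 →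
    ∑ q ∈ W7 n, ∑ m ∈ Icc (MM b n) ⌊Real.exp (NN n)⌋₊,
        (1 : ℝ) / (q * m) * Aq b n E q m * U b n (d * q * m + 1) ≤
      C₅ * dphi d * (A + (1 + Real.log (1 / A)) / (b - 1) * H7 b E n) := by
  classical
  obtain ⟨C₄, hC₄, hLS⟩ := LS
  refine ⟨144 * C₄, by linarith, fun b hb => ?_⟩
  obtain ⟨n1, hn1⟩ := hLS b
  obtain ⟨n2, hn2⟩ := poly_le 0 12 0.51 (by norm_num)
  obtain ⟨n3, hn3⟩ := pow_le_pow_ev (2 * b + 1) (2 * b + 2) 8 (by omega)
  refine ⟨max (max n1 n2) (max n3 14), fun n hn d E A hd1 hd2 hE hA1 hA2 => ?_⟩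
  have hnn1 : n1 ≤ n := by omega
  have hnn2 : n2 ≤ n := by omega
  have hnn3 : n3 ≤ n := by omega
  have hn14 : 14 ≤ n := by omega
  have hN0 := NN_pos n
  have hN1 := one_le_NN n
  have hn0r : (0 : ℝ) < n := by exact_mod_cast (by omega : 0 < n)
  have hn1r : (1 : ℝ) ≤ n := by exact_mod_cast (by omega : 1 ≤ n)
  have hA0 : 0 < A := lt_of_lt_of_le (by positivity) hA1
  have hl2 : 0 < Real.log 2 := Real.log_pos (by norm_num)
  have hl2' : Real.log 2 < 0.7 := by have := Real.log_two_lt_d9; linarith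
  have hl2'' : 0.69 < Real.log 2 := by have := Real.log_two_gt_d9; linarith
  -- N ^ 0.49 ≤ N / 12
  have hN51 : (12 : ℝ) ≤ NN n ^ (0.51 : ℝ) := by have := hn2 n hnn2; simpa using this
  have hN49 : NN n ^ (0.49 : ℝ) ≤ NN n / 12 := by
    have e : NN n = NN n ^ (0.49 : ℝ) * NN n ^ (0.51 : ℝ) := by
      rw [← Real.rpow_add hN0]; norm_num
    have h0 : 0 ≤ NN n ^ (0.49 : ℝ) := Real.rpow_nonneg hN0.le _
    nlinarith
  have hN12 : 12 ≤ NN n := by
    refine hN51.trans ?_
    calc NN n ^ (0.51 : ℝ) ≤ NN n ^ (1 : ℝ) := Real.rpow_le_rpow_of_exponent_le hN1 (by norm_num)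
      _ = NN n := Real.rpow_one _
  -- the starting point of the `m`-blocks
  have hMM : 3 ≤ MM b n := by
    have h1 : Real.exp 1 ≤ Real.exp ((n : ℝ) ^ (4 * b + 8)) :=
      Real.exp_le_exp.2 (one_le_pow₀ hn1r)
    have h2 : (2 : ℝ) < Real.exp 1 := by have := Real.exp_one_gt_d9; linarith
    have h3 : (2 : ℝ) < (MM b n : ℝ) := lt_of_lt_of_le (h2.trans_le h1) (Nat.le_ceil _)
    have h4 : 2 < MM b n := by exact_mod_cast h3
    omega
  obtain ⟨M, hM⟩ : ∃ M, M = MM b n - 1 := ⟨_, rfl⟩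
  have hM2 : 2 ≤ M := by omega
  have hMMM : MM b n ≤ 2 * M := by omega
  have hex : ∃ i, ⌊Real.exp (NN n)⌋₊ ≤ 2 ^ i * M :=
    ⟨⌊Real.exp (NN n)⌋₊, (Nat.lt_two_pow_self).le.trans (Nat.le_mul_of_pos_right _ (by omega))⟩
  obtain ⟨I, hI1, hI2⟩ : ∃ I, ⌊Real.exp (NN n)⌋₊ ≤ 2 ^ I * M ∧
      ∀ i < I, 2 ^ i * M < ⌊Real.exp (NN n)⌋₊ :=
    ⟨Nat.find hex, Nat.find_spec hex, fun i hi => not_le.1 (Nat.find_min hex hi)⟩
  have hI4 : ∀ i < I, ((2 ^ i * M : ℕ) : ℝ) ≤ Real.exp (NN n) := fun i hi =>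
    (Nat.le_floor_iff (Real.exp_pos _).le).1 (hI2 i hi).le
  have hMr : (0 : ℝ) < M := by exact_mod_cast (by omega : 0 < M)
  have hlogM : Real.log 2 ≤ Real.log M := Real.log_le_log (by norm_num) (by exact_mod_cast hM2)
  have hlogMi : ∀ i : ℕ, Real.log ((2 ^ i * M : ℕ) : ℝ) = i * Real.log 2 + Real.log M := by
    intro i
    push_cast
    rw [Real.log_mul (by positivity) hMr.ne', Real.log_pow]
  have hI5 : ∀ i < I, i * Real.log 2 + Real.log M ≤ NN n := by
    intro i hi
    rw [← hlogMi, ← Real.log_exp (NN n)]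
    exact Real.log_le_log (by positivity) (hI4 i hi)
  have hI3 : (I : ℝ) ≤ 3 * NN n := by
    rcases Nat.eq_zero_or_pos I with h | h
    · rw [h]; push_cast; linarith
    · have h1 := hI5 (I - 1) (by omega)
      rw [Nat.cast_sub h] at h1
      push_cast at h1
      have h2 : I * Real.log 2 ≤ NN n := by linarith
      have h3 : (0 : ℝ) ≤ I := Nat.cast_nonneg I
      nlinarith
  -- the `q`-blocks
  obtain ⟨J, hJ⟩ : ∃ J, J = ⌈NN n / Real.log 2⌉₊ := ⟨_, rfl⟩
  have hJ1 : ∀ q ∈ W7 n, 1 < q ∧ q ≤ 2 ^ J := by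
    intro q hq
    have hlog := W7_log (by omega) hq
    have hp := prime_of_mem_LP (W7_sub_LP hn14 hq)
    refine ⟨hp.one_lt, ?_⟩
    have h1 : NN n ≤ J * Real.log 2 := by
      rw [← div_le_iff₀ hl2, hJ]; exact Nat.le_ceil _
    have h2 : Real.log q ≤ Real.log ((2 ^ J : ℕ) : ℝ) := by
      push_cast; rw [Real.log_pow]; linarith [hlog.2]
    have h3 := (Real.log_le_log_iff (by exact_mod_cast hp.pos) (by positivity)).1 h2
    exact_mod_cast h3
  have hJ2 : (J : ℝ) ≤ 3 * NN n := by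
    have h1 : (J : ℝ) < NN n / Real.log 2 + 1 := by
      rw [hJ]; exact Nat.ceil_lt_add_one (by positivity)
    have h2 : NN n / Real.log 2 ≤ 2 * NN n := by
      rw [div_le_iff₀ hl2]; nlinarith
    linarith
  have hl0 : 0 ≤ Real.log (1 / A) := Real.log_nonneg (by rw [le_div_iff₀ hA0]; linarith)
  have hb1 : (0 : ℝ) < b - 1 := by
    have : (2 : ℝ) ≤ b := by exact_mod_cast hb
    linarith
  obtain ⟨c, hc⟩ : ∃ c : ℝ, c = 2 * (1 + Real.log (1 / A)) / (b - 1) := ⟨_, rfl⟩
  have hc0 : 0 ≤ c := by rw [hc]; positivity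
  have hdphi : 0 ≤ dphi d := by unfold dphi; positivity
  have hVnn : ∀ q, 0 ≤ V b (E q) := fun q => by
    unfold V
    have := Real.add_one_le_exp ((E q) ^ b)
    have := pow_nonneg (hE q).1 b
    linarith
  have hbig : Real.exp ((n : ℝ) ^ (2 * b + 1)) ≤ A * Real.exp (KK b n / 4) := by
    have h1 : 8 * (n : ℝ) ^ (2 * b + 1) ≤ (n : ℝ) ^ (2 * b + 2) := hn3 n hnn3
    have h2 : (n : ℝ) ≤ (n : ℝ) ^ (2 * b + 1) := by
      calc (n : ℝ) = (n : ℝ) ^ 1 := (pow_one _).symm
        _ ≤ _ := pow_le_pow_right₀ hn1r (by omega)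
    have h3 : Real.log n ≤ n := by
      have := Real.log_le_sub_one_of_pos hn0r; linarith
    have h4 : Real.exp (-Real.log n) ≤ A := by
      rw [Real.exp_neg, Real.exp_log hn0r]; simpa using hA1
    have h5 : (KK b n : ℝ) = (n : ℝ) ^ (2 * b + 2) := by unfold KK; push_cast; rfl
    calc Real.exp ((n : ℝ) ^ (2 * b + 1)) ≤ Real.exp (-Real.log n + KK b n / 4) := by
          rw [Real.exp_le_exp, h5]; linarith
      _ = Real.exp (-Real.log n) * Real.exp (KK b n / 4) := Real.exp_add _ _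
      _ ≤ _ := mul_le_mul_of_nonneg_right h4 (Real.exp_pos _).le
  have key : ∀ i ∈ range J, ∑ q ∈ (W7 n).filter (fun q => 2 ^ i < q ∧ q ≤ 2 ^ (i + 1)),
      ∑ m ∈ Icc (MM b n) ⌊Real.exp (NN n)⌋₊,
        (1 : ℝ) / (q * m) * Aq b n E q m * U b n (d * q * m + 1) ≤
      C₄ * dphi d * (12 * c *
        ∑ q ∈ (W7 n).filter (fun q => 2 ^ i < q ∧ q ≤ 2 ^ (i + 1)), V b (E q) / q
          + 48 * A / NN n) := by
    intro i _
    obtain ⟨B, hB⟩ : ∃ B, B = (W7 n).filter (fun q => 2 ^ i < q ∧ q ≤ 2 ^ (i + 1)) := ⟨_, rfl⟩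
    rw [← hB]
    rcases B.eq_empty_or_nonempty with h0 | ⟨q0, hq0⟩
    · rw [h0]; simp only [Finset.sum_empty, mul_zero, zero_add]; positivity
    have hBmem : ∀ q ∈ B, q ∈ W7 n ∧ 2 ^ i < q ∧ q ≤ 2 ^ (i + 1) := fun q hq => by
      rw [hB] at hq; exact mem_filter.1 hq
    have hX1 : NN n / 4 ≤ Real.log ((2 ^ i : ℕ) : ℝ) := by
      obtain ⟨hq1, hq2, hq3⟩ := hBmem q0 hq0
      have hlq := W7_log (by omega) hq1
      have h1 : Real.log q0 ≤ Real.log ((2 ^ (i + 1) : ℕ) : ℝ) :=
        Real.log_le_log (by exact_mod_cast (by omega : 0 < q0)) (by exact_mod_cast hq3)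
      push_cast at h1 ⊢
      rw [Real.log_pow] at h1 ⊢
      push_cast at h1
      linarith
    have hX2 : Real.log ((2 ^ i : ℕ) : ℝ) ≤ NN n := by
      obtain ⟨hq1, hq2, hq3⟩ := hBmem q0 hq0
      have hlq := W7_log (by omega) hq1
      exact (Real.log_le_log (by positivity) (by exact_mod_cast hq2.le)).trans hlq.2
    obtain ⟨X, hXdef⟩ : ∃ X : ℕ, X = 2 ^ i := ⟨_, rfl⟩
    rw [← hXdef] at hX1 hX2
    have hXpos : (0 : ℝ) < X := by rw [hXdef]; positivity
    have hlX : 0 < Real.log X := by linarith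
    have hBX : ∀ q ∈ B, q ∈ W7 n ∧ X < q ∧ q ≤ 2 * X := fun q hq => by
      obtain ⟨h1, h2, h3⟩ := hBmem q hq
      refine ⟨h1, by rw [hXdef]; exact h2, by rw [hXdef, ← pow_succ']; exact h3⟩
    have hBP : B = (PB X).filter (fun t => t ∈ W7 n) := by
      ext t
      rw [mem_filter, mem_PB]
      constructor
      · intro h
        obtain ⟨h1, h2, h3⟩ := hBX t h
        exact ⟨⟨prime_of_mem_LP (W7_sub_LP hn14 h1), h2, h3⟩, h1⟩
      · rintro ⟨⟨_, h2, h3⟩, h1⟩
        rw [hB, mem_filter]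
        refine ⟨h1, by rw [← hXdef]; exact h2, by rw [pow_succ', ← hXdef]; exact h3⟩
    have hlogl : ∀ l < I, Real.log ((2 ^ l * M : ℕ) : ℝ) ≤ 2 * NN n := by
      intro l hl
      rw [hlogMi]; have := hI5 l hl; linarith
    have hLl : ∀ l ∈ range I, ∑ q ∈ B, Aq b n E q (2 ^ l * M) * NM b n d (2 ^ l * M) q ≤
        C₄ * ((2 ^ l * M : ℕ) * dphi d / Real.log X) *
          (∑ t ∈ B, Aq b n E t (2 ^ l * M) * Real.posLog (Aq b n E t (2 ^ l * M) / A) +
            A * X / Real.log X) := by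
      intro l hl
      have hlI := mem_range.1 hl
      have hpos : 0 < 2 ^ l * M := by positivity
      have hls := hn1 n hnn1 d X (2 ^ l * M)
        (fun t => if t ∈ W7 n then Aq b n E t (2 ^ l * M) else 0) A hd1 hd2
        (by linarith) hX2
        (hMMM.trans (by
          have : 1 ≤ 2 ^ l := Nat.one_le_two_pow
          nlinarith))
        (hI4 l hlI) hA0
        (by
          intro t ht
          have hp : (0 : ℝ) ≤ A * Real.exp (KK b n / 4) := by positivity
          by_cases h : t ∈ W7 n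
          · simp only [h, if_true]
            refine ⟨Aq_nonneg (hE t).1 hpos (hlogl l hlI), ?_⟩
            refine (Aq_le (hE t).1 hpos (hlogl l hlI)).trans (le_trans ?_ hbig)
            exact Real.exp_le_exp.2 ((hE t).2 (W7_sub_LP hn14 h))
          · simp only [h, if_false]
            exact ⟨le_rfl, hp⟩)
      have e1 : ∑ t ∈ PB X, (fun t => if t ∈ W7 n then Aq b n E t (2 ^ l * M) else 0) t *
          NM b n d (2 ^ l * M) t = ∑ q ∈ B, Aq b n E q (2 ^ l * M) * NM b n d (2 ^ l * M) q := by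
        rw [hBP, Finset.sum_filter]
        refine Finset.sum_congr rfl fun t _ => ?_
        by_cases h : t ∈ W7 n <;> simp [h]
      have e2 : ∑ t ∈ PB X, (fun t => if t ∈ W7 n then Aq b n E t (2 ^ l * M) else 0) t *
          Real.posLog ((fun t => if t ∈ W7 n then Aq b n E t (2 ^ l * M) else 0) t / A) =
          ∑ t ∈ B, Aq b n E t (2 ^ l * M) * Real.posLog (Aq b n E t (2 ^ l * M) / A) := by
        rw [hBP, Finset.sum_filter]
        refine Finset.sum_congr rfl fun t _ => ?_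
        by_cases h : t ∈ W7 n <;> simp [h]
      rw [e1, e2] at hls
      exact hls
    have hm : ∀ q ∈ B, ∑ m ∈ Icc (MM b n) ⌊Real.exp (NN n)⌋₊,
        (1 : ℝ) / (q * m) * Aq b n E q m * U b n (d * q * m + 1) ≤
        ∑ l ∈ range I, 1 / ((X : ℝ) * (2 ^ l * M : ℕ)) *
          (Aq b n E q (2 ^ l * M) * NM b n d (2 ^ l * M) q) := by
      intro q hq
      obtain ⟨hq1, hq2, hq3⟩ := hBX q hq
      have hqpos : (0 : ℝ) < q := by exact_mod_cast (by omega : 0 < q)
      calc _ ≤ ∑ m ∈ Icc (MM b n) ⌊Real.exp (NN n)⌋₊,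
            (1 : ℝ) / (q * m) * |Aq b n E q m| * U b n (d * q * m + 1) := by
            refine Finset.sum_le_sum fun m _ => ?_
            exact mul_le_mul_of_nonneg_right
              (mul_le_mul_of_nonneg_left (le_abs_self _) (by positivity)) (U_nonneg _ _ _)
        _ ≤ ∑ l ∈ range I, ∑ m ∈ Ioc (2 ^ l * M) (2 * (2 ^ l * M)),
            (1 : ℝ) / (q * m) * |Aq b n E q m| * U b n (d * q * m + 1) := by
            refine sum_dyadic_from M _ I _ ?_ ?_
            · intro m hm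
              rw [mem_Icc] at hm
              exact ⟨by omega, hm.2.trans hI1⟩
            · intro m
              exact mul_nonneg (mul_nonneg (by positivity) (abs_nonneg _)) (U_nonneg _ _ _)
        _ ≤ _ := by
            refine Finset.sum_le_sum fun l hl => ?_
            have hlI := mem_range.1 hl
            unfold NM
            rw [Finset.mul_sum, Finset.mul_sum]
            refine Finset.sum_le_sum fun m hm => ?_
            rw [mem_Ioc] at hm
            have hmM : 0 < 2 ^ l * M := by positivity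
            have hmMr : (0 : ℝ) < (2 ^ l * M : ℕ) := by exact_mod_cast hmM
            have hm0 : 0 < m := by omega
            have hlm : Real.log m ≤ 2 * NN n := by
              have h1 : Real.log m ≤ Real.log (2 * (2 ^ l * M : ℕ)) :=
                Real.log_le_log (by exact_mod_cast hm0) (by exact_mod_cast hm.2)
              rw [Real.log_mul (by norm_num) hmMr.ne', hlogMi] at h1
              have := hI5 l hlI
              linarith
            have h1 := Aq_abs_le (b := b) (hE q).1 hmM hm.1.le hlm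
            have h2 : (1 : ℝ) / (q * m) ≤ 1 / (X * (2 ^ l * M : ℕ)) := by
              apply one_div_le_one_div_of_le (by positivity)
              exact mul_le_mul (by exact_mod_cast hq2.le) (by exact_mod_cast hm.1.le)
                hmMr.le hqpos.le
            rw [show d * q * m = d * m * q by ring]
            have h3 := U_nonneg b n (d * m * q + 1)
            calc (1 : ℝ) / (q * m) * |Aq b n E q m| * U b n (d * m * q + 1) ≤
                1 / (X * (2 ^ l * M : ℕ)) * Aq b n E q (2 ^ l * M) * U b n (d * m * q + 1) := by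
                  refine mul_le_mul_of_nonneg_right ?_ h3
                  exact mul_le_mul h2 h1 (abs_nonneg _) (by positivity)
              _ = _ := by ring
    refine (Finset.sum_le_sum hm).trans ?_
    rw [Finset.sum_comm]
    have hl1 : ∀ l ∈ range I, ∑ q ∈ B, 1 / ((X : ℝ) * (2 ^ l * M : ℕ)) *
          (Aq b n E q (2 ^ l * M) * NM b n d (2 ^ l * M) q) ≤
        C₄ * dphi d * (∑ t ∈ B, 8 / (NN n * t) * (Aq b n E t (2 ^ l * M) *
          Real.posLog (Aq b n E t (2 ^ l * M) / A)) + 16 * A / NN n ^ 2) := by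
      intro l hl
      have hlI := mem_range.1 hl
      have hmM : 0 < 2 ^ l * M := by positivity
      have hmMr : (0 : ℝ) < (2 ^ l * M : ℕ) := by exact_mod_cast hmM
      rw [← Finset.mul_sum]
      refine (mul_le_mul_of_nonneg_left (hLl l hl) (by positivity)).trans ?_
      have hf : ∀ t ∈ B, 0 ≤ Aq b n E t (2 ^ l * M) *
          Real.posLog (Aq b n E t (2 ^ l * M) / A) := fun t _ =>
        mul_nonneg (Aq_nonneg (hE t).1 hmM (hlogl l hlI)) Real.posLog_nonneg
      have e : 1 / ((X : ℝ) * (2 ^ l * M : ℕ)) * (C₄ * ((2 ^ l * M : ℕ) * dphi d / Real.log X) *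
          (∑ t ∈ B, Aq b n E t (2 ^ l * M) * Real.posLog (Aq b n E t (2 ^ l * M) / A) +
            A * X / Real.log X)) =
          C₄ * dphi d * (∑ t ∈ B, 1 / (X * Real.log X) * (Aq b n E t (2 ^ l * M) *
            Real.posLog (Aq b n E t (2 ^ l * M) / A)) + A * (1 / Real.log X) ^ 2) := by
        rw [← Finset.mul_sum]
        field_simp
      rw [e]
      refine mul_le_mul_of_nonneg_left ?_ (by positivity)
      have hinv : 1 / Real.log X ≤ 4 / NN n := by
        rw [div_le_div_iff₀ hlX hN0]; linarith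
      refine add_le_add (Finset.sum_le_sum fun t ht => ?_) ?_
      · refine mul_le_mul_of_nonneg_right ?_ (hf t ht)
        obtain ⟨_, ht2, ht3⟩ := hBX t ht
        have htpos : (0 : ℝ) < t := by exact_mod_cast (by omega : 0 < t)
        have ht3' : (t : ℝ) ≤ 2 * X := by exact_mod_cast ht3
        rw [div_le_div_iff₀ (by positivity) (by positivity)]
        have h5 : NN n ≤ 4 * Real.log X := by linarith
        calc 1 * (NN n * t) ≤ (4 * Real.log X) * (2 * X) := by
              rw [one_mul]; exact mul_le_mul h5 ht3' htpos.le (by positivity)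
          _ = 8 * (X * Real.log X) := by ring
      · have h6 : (1 / Real.log X) ^ 2 ≤ (4 / NN n) ^ 2 := pow_le_pow_left₀ (by positivity) hinv 2
        calc A * (1 / Real.log X) ^ 2 ≤ A * (4 / NN n) ^ 2 := mul_le_mul_of_nonneg_left h6 hA0.le
          _ = _ := by ring
    refine (Finset.sum_le_sum hl1).trans ?_
    rw [← Finset.mul_sum, Finset.sum_add_distrib, Finset.sum_const, card_range, nsmul_eq_mul]
    refine mul_le_mul_of_nonneg_left (add_le_add ?_ ?_) (by positivity)
    · rw [Finset.sum_comm, Finset.mul_sum]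
      refine Finset.sum_le_sum fun t ht => ?_
      rw [← Finset.mul_sum]
      obtain ⟨_, ht2, ht3⟩ := hBX t ht
      have htpos : (0 : ℝ) < t := by exact_mod_cast (by omega : 0 < t)
      have htel := mt_tel hb (P := (E t) ^ b) (A := A) (N := NN n) (L := Real.log M)
        (pow_nonneg (hE t).1 b) hA0 hA2 hN0 hlogM I hI5
      have e : ∑ l ∈ range I, Aq b n E t (2 ^ l * M) *
          Real.posLog (Aq b n E t (2 ^ l * M) / A) =
          ∑ l ∈ range I, ((Real.exp ((1 - (l * Real.log 2 + Real.log M) / NN n / 2) ^ (b - 1) *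
              (E t) ^ b) - 1) *
            Real.posLog ((Real.exp ((1 - (l * Real.log 2 + Real.log M) / NN n / 2) ^ (b - 1) *
              (E t) ^ b) - 1) / A)) := by
        refine Finset.sum_congr rfl fun l _ => ?_
        unfold Aq
        rw [hlogMi]
      rw [e]
      refine (mul_le_mul_of_nonneg_left htel (by positivity)).trans ?_
      rw [← hc]
      have hV : Real.exp ((E t) ^ b) - 1 = V b (E t) := rfl
      rw [hV]
      have e3 : 8 / (NN n * t) * (NN n / Real.log 2 * c * V b (E t)) =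
          8 / Real.log 2 * (c * (V b (E t) / t)) := by
        field_simp
      rw [e3, mul_assoc 12]
      refine mul_le_mul_of_nonneg_right ?_ (mul_nonneg hc0 (div_nonneg (hVnn t) htpos.le))
      rw [div_le_iff₀ hl2]; linarith
    · calc (I : ℝ) * (16 * A / NN n ^ 2) ≤ (3 * NN n) * (16 * A / NN n ^ 2) :=
            mul_le_mul_of_nonneg_right hI3 (by positivity)
        _ = 48 * A / NN n := by field_simp; norm_num
  rw [sum_dyadic (W7 n) _ J hJ1]
  refine (Finset.sum_le_sum key).trans ?_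
  rw [← Finset.mul_sum, Finset.sum_add_distrib, ← Finset.mul_sum,
    ← sum_dyadic (W7 n) (fun q => V b (E q) / q) J hJ1, Finset.sum_const, card_range,
    nsmul_eq_mul]
  have hH : ∑ q ∈ W7 n, V b (E q) / q ≤ H7 b E n := by
    unfold W7 H7 HH
    refine le_of_eq (Finset.sum_biUnion ?_)
    intro i hi j hj hij
    rw [mem_coe, mem_range] at hi hj
    exact W_disjoint (by omega)
  have hJ3 : (J : ℝ) * (48 * A / NN n) ≤ 144 * A := by
    calc (J : ℝ) * (48 * A / NN n) ≤ (3 * NN n) * (48 * A / NN n) :=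
          mul_le_mul_of_nonneg_right hJ2 (by positivity)
      _ = 144 * A := by field_simp; norm_num
  have hH0 : 0 ≤ ∑ q ∈ W7 n, V b (E q) / q :=
    Finset.sum_nonneg fun q _ => div_nonneg (hVnn q) (Nat.cast_nonneg q)
  have e1 : 144 * C₄ * dphi d * (A + (1 + Real.log (1 / A)) / (b - 1) * H7 b E n) =
      C₄ * dphi d * (144 * A + 72 * c * H7 b E n) := by
    rw [hc]; ring
  rw [e1]
  refine mul_le_mul_of_nonneg_left ?_ (by positivity)
  have h9 : 12 * c * ∑ q ∈ W7 n, V b (E q) / q ≤ 72 * c * H7 b E n := by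
    calc 12 * c * ∑ q ∈ W7 n, V b (E q) / q ≤ 72 * c * ∑ q ∈ W7 n, V b (E q) / q := by nlinarith [mul_nonneg hc0 hH0]
      _ ≤ 72 * c * H7 b E n := mul_le_mul_of_nonneg_left hH (by positivity)
  linarith

end

end Pool.Agent.NTot
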