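import Pool.Agent.NTot.UMoment
import Pool.Agent.NTot.SL
import Pool.Agent.H6.Hooley1

/-!
# The moment lemma (module M4)
-/

set_option autoImplicit false

namespace Pool.Agent.NTot

open Finset Filter Topology

noncomputable section

namespace Mom

open scoped Classical in
theorem card_noninj (S : Finset ℕ) (k : ℕ) :
    ((Fintype.piFinset (fun _ : Fin k => S)).filter
      (fun f => ¬ Function.Injective f)).card ≤ k ^ 2 * S.card ^ (k - 1) := by
  classical
  have hsub : (Fintype.piFinset (fun _ : Fin k => S)).filter (fun f => ¬ Function.Injective f) ⊆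
     (univ : Finset (Fin k × Fin k)).biUnion (fun ij => (Fintype.piFinset
      (fun _ : Fin k => S)).filter (fun f => ij.1 ≠ ij.2 ∧ f ij.1 = f ij.2)) := by
    intro f hf
    rw [mem_filter] at hf
    obtain ⟨hf1, hf2⟩ := hf
    rw [Function.Injective] at hf2
    push Not at hf2
    obtain ⟨i, j, hij, hne⟩ := hf2
    rw [mem_biUnion]
    exact ⟨(i, j), mem_univ _, mem_filter.mpr ⟨hf1, hne, hij⟩⟩
  refine (card_le_card hsub).trans ?_
  refine (card_biUnion_le_card_mul _ _ (S.card ^ (k - 1)) ?_).trans ?_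
  · rintro ⟨i, j⟩ _
    by_cases hij : i = j
    · simp [hij]
    · have h1 : ((Fintype.piFinset (fun _ : Fin k => S)).filter
          (fun f => (i, j).1 ≠ (i, j).2 ∧ f (i, j).1 = f (i, j).2)).card ≤
          (Fintype.piFinset (fun _ : {l : Fin k // l ≠ i} => S)).card := by
        apply card_le_card_of_injOn (fun f l => f l.1)
        · intro f hf
          rw [mem_coe, mem_filter, Fintype.mem_piFinset] at hf
          rw [mem_coe, Fintype.mem_piFinset]
          intro l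
          exact hf.1 l
        · intro f hf g hg hfg
          rw [mem_coe, mem_filter, Fintype.mem_piFinset] at hf hg
          funext l
          by_cases hl : l = i
          · subst hl
            have h1 := congrFun hfg ⟨j, fun h => hij h.symm⟩
            have h2 := hf.2.2
            have h3 := hg.2.2
            simp only at h1 h2 h3
            rw [h2, h3, h1]
          · exact congrFun hfg ⟨l, hl⟩
      refine h1.trans ?_
      rw [Fintype.card_piFinset]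
      simp
  · simp [sq]

/-- roots of a tuple -/
def omf (d : ℕ) {k : ℕ} (f : Fin k → ℕ) (l : ℕ) : ℕ :=
  ((range l).filter (fun t => l ∣ t ∨ ∃ i, l ∣ d * f i * t + 1)).card

theorem prod_omf (d : ℕ) {k : ℕ} (z : ℕ) (f : Fin k → ℕ) :
    ∏ l ∈ PZ z, (1 - (omf d f l : ℝ) / l) =
      (((range (∏ l ∈ PZ z, l)).filter
        (fun t => ∀ l ∈ PZ z, ¬ (l ∣ t ∨ ∃ i, l ∣ d * f i * t + 1))).card : ℝ) /
        ((∏ l ∈ PZ z, l : ℕ) : ℝ) := by
  have hper : H6.Hooley.Per (fun l t => ¬ (l ∣ t ∨ ∃ i, l ∣ d * f i * t + 1)) := by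
    intro q s
    have h1 : ∀ i, q ∣ d * f i * (s % q) + 1 ↔ q ∣ d * f i * s + 1 := by
      intro i
      have : d * f i * (s % q) + 1 ≡ d * f i * s + 1 [MOD q] :=
        Nat.ModEq.add_right _ (Nat.ModEq.mul_left _ (Nat.mod_modEq s q))
      exact this.dvd_iff dvd_rfl
    have h2 : q ∣ s % q ↔ q ∣ s := by
      rw [Nat.dvd_mod_iff dvd_rfl]
    simp only [h1, h2]
  have h := H6.Hooley.card_period hper (PZ z) (fun q hq => (mem_PZ.mp hq).1)
  have h3 : (((range (∏ l ∈ PZ z, l)).filter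
        (fun t => ∀ l ∈ PZ z, ¬ (l ∣ t ∨ ∃ i, l ∣ d * f i * t + 1))).card : ℝ) =
      ((∏ q ∈ PZ z, H6.Hooley.rho (fun l t => ¬ (l ∣ t ∨ ∃ i, l ∣ d * f i * t + 1)) q : ℕ) : ℝ) := by
    rw [← h]
    congr!
  rw [h3]
  push_cast
  rw [← Finset.prod_div_distrib]
  apply Finset.prod_congr rfl
  intro l hl
  have hl0 : (0 : ℝ) < l := by exact_mod_cast (mem_PZ.mp hl).1.pos
  have h4 : (H6.Hooley.rho (fun l t => ¬ (l ∣ t ∨ ∃ i, l ∣ d * f i * t + 1)) l : ℝ) =
      l - omf d f l := by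
    have h7 : H6.Hooley.rho (fun l t => ¬ (l ∣ t ∨ ∃ i, l ∣ d * f i * t + 1)) l =
        ((range l).filter (fun t => ¬ (l ∣ t ∨ ∃ i, l ∣ d * f i * t + 1))).card := by
      unfold H6.Hooley.rho
      congr!
    rw [h7]
    unfold omf
    have h5 := Finset.card_filter_add_card_filter_not (s := range l)
      (fun t => l ∣ t ∨ ∃ i, l ∣ d * f i * t + 1)
    rw [card_range] at h5
    have h6 : ((((range l).filter (fun t => l ∣ t ∨ ∃ i, l ∣ d * f i * t + 1)).card : ℝ) +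
        (((range l).filter (fun t => ¬ (l ∣ t ∨ ∃ i, l ∣ d * f i * t + 1))).card : ℝ)) = l := by
      exact_mod_cast h5
    linarith
  rw [h4]
  field_simp

/-- the number of `m` in the block with `d m t + 1` free of small primes -/
def cc0 (d M z t : ℕ) : ℕ := ((Ioc M (2 * M)).filter (fun m => ∀ l ∈ PZ z, ¬ l ∣ d * m * t + 1)).card

theorem sum_omf (d k M z : ℕ) :
    ∑ f ∈ Fintype.piFinset (fun _ : Fin k => Ioc M (2 * M)), ∏ l ∈ PZ z, (1 - (omf d f l : ℝ) / l) =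
      (∑ t ∈ (range (∏ l ∈ PZ z, l)).filter (fun t => ∀ l ∈ PZ z, ¬ l ∣ t), (cc0 d M z t : ℝ) ^ k) /
        ((∏ l ∈ PZ z, l : ℕ) : ℝ) := by
  classical
  simp_rw [prod_omf]
  rw [← Finset.sum_div]
  congr 1
  have h1 : ∀ t, (cc0 d M z t : ℝ) ^ k =
      ∑ f ∈ Fintype.piFinset (fun _ : Fin k => Ioc M (2 * M)),
        ∏ i, (if ∀ l ∈ PZ z, ¬ l ∣ d * f i * t + 1 then (1 : ℝ) else 0) := by
    intro t
    rw [← Finset.sum_pow' (Ioc M (2 * M))
      (fun m => if ∀ l ∈ PZ z, ¬ l ∣ d * m * t + 1 then (1 : ℝ) else 0) k]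
    congr 1
    unfold cc0
    rw [Finset.sum_boole]
  simp_rw [h1]
  rw [Finset.sum_comm]
  apply Finset.sum_congr rfl
  intro f _
  rw [Finset.card_filter, Finset.sum_filter]
  push_cast
  apply Finset.sum_congr rfl
  intro t _
  by_cases ht : ∀ l ∈ PZ z, ¬ l ∣ t
  · rw [if_pos ht]
    by_cases hf : ∀ i, ∀ l ∈ PZ z, ¬ l ∣ d * f i * t + 1
    · rw [if_pos, Finset.prod_eq_one]
      · intro i _
        rw [if_pos (hf i)]
      · intro l hl
        push Not
        exact ⟨ht l hl, fun i => hf i l hl⟩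
    · rw [if_neg]
      · push Not at hf
        obtain ⟨i, l, hl, hd⟩ := hf
        symm
        apply Finset.prod_eq_zero (mem_univ i)
        rw [if_neg]
        intro h
        exact h l hl hd
      · intro h
        apply hf
        intro i l hl hd
        exact h l hl (Or.inr ⟨i, hd⟩)
  · rw [if_neg ht, if_neg]
    intro h
    apply ht
    intro l hl hd
    exact h l hl (Or.inl hd)

/-- residues `m mod l` with `l ∣ d m t + 1` -/
def Om (d t l : ℕ) : Finset ℕ := (range l).filter (fun m => l ∣ d * m * t + 1)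

theorem Om_le (d t l : ℕ) (hl : l.Prime) : (Om d t l).card ≤ 1 := by
  rw [Finset.card_le_one]
  intro a ha b hb
  unfold Om at ha hb
  rw [mem_filter, mem_range] at ha hb
  have : Fact l.Prime := ⟨hl⟩
  have h1 : ((d * a * t + 1 : ℕ) : ZMod l) = 0 := (ZMod.natCast_eq_zero_iff _ _).2 ha.2
  have h2 : ((d * b * t + 1 : ℕ) : ZMod l) = 0 := (ZMod.natCast_eq_zero_iff _ _).2 hb.2
  push_cast at h1 h2
  have hdt : ((d : ZMod l) * t) ≠ 0 := by
    intro h
    have h3 : (d : ZMod l) * a * t + 1 = ((d : ZMod l) * t) * a + 1 := by ring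
    rw [h3, h, zero_mul, zero_add] at h1
    exact one_ne_zero h1
  have h4 : ((d : ZMod l) * t) * (a : ZMod l) = ((d : ZMod l) * t) * (b : ZMod l) := by
    linear_combination h1 - h2
  have h5 := mul_left_cancel₀ hdt h4
  rw [ZMod.natCast_eq_natCast_iff'] at h5
  rwa [Nat.mod_eq_of_lt ha.1, Nat.mod_eq_of_lt hb.1] at h5

theorem Om_ge (d t l : ℕ) (hl : l.Prime) (hd : ¬ l ∣ d) (ht : ¬ l ∣ t) : 1 ≤ (Om d t l).card := by
  have : Fact l.Prime := ⟨hl⟩
  rw [Nat.one_le_iff_ne_zero, Finset.card_ne_zero]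
  have hd' : (d : ZMod l) ≠ 0 := by rwa [Ne, ZMod.natCast_eq_zero_iff]
  have ht' : (t : ZMod l) ≠ 0 := by rwa [Ne, ZMod.natCast_eq_zero_iff]
  refine ⟨(-((d : ZMod l) * t)⁻¹).val, ?_⟩
  unfold Om
  rw [mem_filter, mem_range]
  refine ⟨ZMod.val_lt _, ?_⟩
  rw [← ZMod.natCast_eq_zero_iff]
  push_cast
  rw [ZMod.natCast_zmod_val]
  field_simp
  ring

theorem cc0_le {C₀ : ℝ} (hSL : ∀ (k X H z : ℕ) (Ω : ℕ → Finset ℕ), 1 ≤ k → 2 ≤ z → 1 ≤ X →
    C₀ * k * Real.log z ≤ Real.log X → (∀ l ∈ PZ z, Ω l ⊆ range l ∧ (Ω l).card ≤ k) →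
    (((Ioc H (H + X)).filter (fun n => ∀ l ∈ PZ z, n % l ∉ Ω l)).card : ℝ) ≤
      4 * X * ∏ l ∈ PZ z, (1 - ((Ω l).card : ℝ) / l))
    (d M z t : ℕ) (hz : 2 ≤ z) (hM : 1 ≤ M) (hlog : C₀ * Real.log z ≤ Real.log M)
    (ht : ∀ l ∈ PZ z, ¬ l ∣ t) :
    (cc0 d M z t : ℝ) ≤ 4 * M * ∏ l ∈ (PZ z).filter (fun l => ¬ l ∣ d), (1 - (1 : ℝ) / l) := by
  have h := hSL 1 M M z (Om d t) le_rfl hz hM (by simpa using hlog) (fun l hl =>
    ⟨filter_subset _ _, Om_le d t l (mem_PZ.mp hl).1⟩)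
  have h1 : (cc0 d M z t : ℝ) ≤ (((Ioc M (M + M)).filter
      (fun n => ∀ l ∈ PZ z, n % l ∉ Om d t l)).card : ℝ) := by
    unfold cc0
    rw [two_mul]
    norm_cast
    apply card_le_card
    intro m hm
    rw [mem_filter] at hm ⊢
    refine ⟨hm.1, fun l hl hO => hm.2 l hl ?_⟩
    unfold Om at hO
    rw [mem_filter] at hO
    have : d * (m % l) * t + 1 ≡ d * m * t + 1 [MOD l] :=
      Nat.ModEq.add_right _ (Nat.ModEq.mul_right _ (Nat.ModEq.mul_left _ (Nat.mod_modEq m l)))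
    exact (this.dvd_iff dvd_rfl).mp hO.2
  refine h1.trans (h.trans ?_)
  have h2 : ∏ l ∈ PZ z, (1 - ((Om d t l).card : ℝ) / l) ≤
      ∏ l ∈ (PZ z).filter (fun l => ¬ l ∣ d), (1 - (1 : ℝ) / l) := by
    rw [Finset.prod_filter]
    apply Finset.prod_le_prod
    · intro l hl
      have hl0 : (1 : ℝ) ≤ l := by exact_mod_cast (mem_PZ.mp hl).1.one_lt.le
      have h3 : ((Om d t l).card : ℝ) ≤ 1 := by exact_mod_cast Om_le d t l (mem_PZ.mp hl).1
      have : ((Om d t l).card : ℝ) / l ≤ 1 := by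
        rw [div_le_one (by linarith)]; linarith
      linarith
    · intro l hl
      have hl0 : (1 : ℝ) ≤ l := by exact_mod_cast (mem_PZ.mp hl).1.one_lt.le
      by_cases hd : l ∣ d
      · rw [if_neg (not_not.mpr hd)]
        have : (0 : ℝ) ≤ ((Om d t l).card : ℝ) / l := by positivity
        linarith
      · rw [if_pos hd]
        have h3 : (1 : ℝ) ≤ ((Om d t l).card : ℝ) := by
          exact_mod_cast Om_ge d t l (mem_PZ.mp hl).1 hd (ht l hl)
        gcongr
  gcongr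

theorem one_sub_inv_pos {l : ℕ} (hl : l.Prime) : 0 < 1 - (1 : ℝ) / l := by
  have h1 : (1 : ℝ) < l := by exact_mod_cast hl.one_lt
  have : (1 : ℝ) / l < 1 := by rw [div_lt_one (by linarith)]; exact h1
  linarith

theorem one_sub_inv_le (l : ℕ) : 1 - (1 : ℝ) / l ≤ 1 := by
  have : (0 : ℝ) ≤ 1 / l := by positivity
  linarith

theorem dphi_eq (d : ℕ) (hd : 1 ≤ d) : dphi d = (∏ l ∈ d.primeFactors, (1 - (1 : ℝ) / l))⁻¹ := by
  unfold dphi
  have h1 := Nat.totient_eq_mul_prod_factors d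
  have h2 : ((Nat.totient d : ℕ) : ℝ) = d * ∏ p ∈ d.primeFactors, (1 - (1 : ℝ) / p) := by
    have h3 := congrArg (fun x : ℚ => (x : ℝ)) h1
    push_cast at h3
    rw [h3]
    simp only [one_div]
  rw [h2]
  have hd0 : (0 : ℝ) < d := by exact_mod_cast hd
  have h4 : 0 < ∏ p ∈ d.primeFactors, (1 - (1 : ℝ) / p) :=
    Finset.prod_pos (fun p hp => one_sub_inv_pos (Nat.prime_of_mem_primeFactors hp))
  field_simp

theorem one_le_dphi (d : ℕ) (hd : 1 ≤ d) : 1 ≤ dphi d := by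
  rw [dphi_eq d hd]
  apply one_le_inv₀ _ |>.mpr
  · apply Finset.prod_le_one
    · intro l hl
      exact (one_sub_inv_pos (Nat.prime_of_mem_primeFactors hl)).le
    · intro l _
      exact one_sub_inv_le l
  · exact Finset.prod_pos (fun p hp => one_sub_inv_pos (Nat.prime_of_mem_primeFactors hp))

theorem prod_filter_le (d z : ℕ) (hd : 1 ≤ d) :
    ∏ l ∈ (PZ z).filter (fun l => ¬ l ∣ d), (1 - (1 : ℝ) / l) ≤
      (∏ l ∈ PZ z, (1 - (1 : ℝ) / l)) * dphi d := by
  rw [dphi_eq d hd]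
  have h4 : 0 < ∏ p ∈ d.primeFactors, (1 - (1 : ℝ) / p) :=
    Finset.prod_pos (fun p hp => one_sub_inv_pos (Nat.prime_of_mem_primeFactors hp))
  rw [← div_eq_mul_inv, le_div_iff₀ h4, ← Finset.prod_filter_mul_prod_filter_not (PZ z) (fun l => ¬ l ∣ d)]
  have h5 : ∏ p ∈ d.primeFactors, (1 - (1 : ℝ) / p) ≤
      ∏ l ∈ (PZ z).filter (fun l => ¬ ¬ l ∣ d), (1 - (1 : ℝ) / l) := by
    rw [← Finset.prod_sdiff (s₁ := (PZ z).filter (fun l => ¬ ¬ l ∣ d)) (s₂ := d.primeFactors)]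
    · have h6 : ∏ p ∈ d.primeFactors \ (PZ z).filter (fun l => ¬ ¬ l ∣ d), (1 - (1 : ℝ) / p) ≤ 1 := by
        apply Finset.prod_le_one
        · intro l hl
          exact (one_sub_inv_pos (Nat.prime_of_mem_primeFactors (mem_sdiff.mp hl).1)).le
        · intro l _
          exact one_sub_inv_le l
      have h7 : 0 ≤ ∏ l ∈ (PZ z).filter (fun l => ¬ ¬ l ∣ d), (1 - (1 : ℝ) / l) :=
        Finset.prod_nonneg (fun l hl => (one_sub_inv_pos (mem_PZ.mp (mem_filter.mp hl).1).1).le)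
      exact mul_le_of_le_one_left h7 h6
    · intro l hl
      rw [mem_filter, not_not] at hl
      rw [Nat.mem_primeFactors]
      exact ⟨(mem_PZ.mp hl.1).1, hl.2, by omega⟩
  have h8 : 0 ≤ ∏ l ∈ (PZ z).filter (fun l => ¬ l ∣ d), (1 - (1 : ℝ) / l) :=
    Finset.prod_nonneg (fun l hl => (one_sub_inv_pos (mem_PZ.mp (mem_filter.mp hl).1).1).le)
  gcongr

theorem card_coprime (z : ℕ) :
    (((range (∏ l ∈ PZ z, l)).filter (fun t => ∀ l ∈ PZ z, ¬ l ∣ t)).card : ℝ) /
        ((∏ l ∈ PZ z, l : ℕ) : ℝ) = ∏ l ∈ PZ z, (1 - (1 : ℝ) / l) := by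
  have h := prod_omf 0 (k := 0) z (fun _ => 0)
  have h2 : ∀ l ∈ PZ z, (omf 0 (k := 0) (fun _ => 0) l) = 1 := by
    intro l hl
    unfold omf
    rw [Finset.card_eq_one]
    refine ⟨0, ?_⟩
    ext t
    rw [mem_filter, mem_range, mem_singleton]
    constructor
    · rintro ⟨h1, h2 | ⟨i, _⟩⟩
      · exact Nat.eq_zero_of_dvd_of_lt h2 h1
      · exact i.elim0
    · rintro rfl
      exact ⟨(mem_PZ.mp hl).1.pos, Or.inl (dvd_zero _)⟩
  have h3 : ∏ l ∈ PZ z, (1 - (omf 0 (k := 0) (fun _ => 0) l : ℝ) / l) =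
      ∏ l ∈ PZ z, (1 - (1 : ℝ) / l) := by
    apply Finset.prod_congr rfl
    intro l hl
    rw [h2 l hl]
    norm_num
  rw [← h3, h]
  congr 2
  congr 1
  apply Finset.filter_congr
  intro t _
  constructor
  · intro h l hl h'
    rcases h' with h' | ⟨i, _⟩
    · exact h l hl h'
    · exact i.elim0
  · intro h l hl h'
    exact h l hl (Or.inl h')

/-- the average (AV) -/
theorem AV {C₀ : ℝ} (hSL : ∀ (k X H z : ℕ) (Ω : ℕ → Finset ℕ), 1 ≤ k → 2 ≤ z → 1 ≤ X →
    C₀ * k * Real.log z ≤ Real.log X → (∀ l ∈ PZ z, Ω l ⊆ range l ∧ (Ω l).card ≤ k) →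
    (((Ioc H (H + X)).filter (fun n => ∀ l ∈ PZ z, n % l ∉ Ω l)).card : ℝ) ≤
      4 * X * ∏ l ∈ PZ z, (1 - ((Ω l).card : ℝ) / l))
    (d M z k : ℕ) (hz : 2 ≤ z) (hM : 1 ≤ M) (hd : 1 ≤ d) (hlog : C₀ * Real.log z ≤ Real.log M) :
    ∑ f ∈ Fintype.piFinset (fun _ : Fin k => Ioc M (2 * M)), ∏ l ∈ PZ z, (1 - (omf d f l : ℝ) / l) ≤
      (∏ l ∈ PZ z, (1 - (1 : ℝ) / l)) * (4 * M * ((∏ l ∈ PZ z, (1 - (1 : ℝ) / l)) * dphi d)) ^ k := by
  rw [sum_omf]
  have hP0 : (0 : ℝ) < ((∏ l ∈ PZ z, l : ℕ) : ℝ) := by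
    exact_mod_cast Finset.prod_pos (fun l hl => (mem_PZ.mp hl).1.pos)
  have h1 : ∑ t ∈ (range (∏ l ∈ PZ z, l)).filter (fun t => ∀ l ∈ PZ z, ¬ l ∣ t), (cc0 d M z t : ℝ) ^ k ≤
      (((range (∏ l ∈ PZ z, l)).filter (fun t => ∀ l ∈ PZ z, ¬ l ∣ t)).card : ℝ) *
        (4 * M * ((∏ l ∈ PZ z, (1 - (1 : ℝ) / l)) * dphi d)) ^ k := by
    rw [← nsmul_eq_mul]
    apply Finset.sum_le_card_nsmul
    intro t ht
    rw [mem_filter] at ht
    apply pow_le_pow_left₀ (Nat.cast_nonneg _)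
    refine (cc0_le hSL d M z t hz hM hlog ht.2).trans ?_
    have := prod_filter_le d z hd
    gcongr
  calc _ ≤ (((range (∏ l ∈ PZ z, l)).filter (fun t => ∀ l ∈ PZ z, ¬ l ∣ t)).card : ℝ) *
        (4 * M * ((∏ l ∈ PZ z, (1 - (1 : ℝ) / l)) * dphi d)) ^ k / ((∏ l ∈ PZ z, l : ℕ) : ℝ) := by
        gcongr
    _ = _ := by
        rw [← card_coprime]
        ring

/-- the real inequality for tuples of distinct elements -/
theorem real_inj {C C₂ LN LX X M D P₁ : ℝ} {k : ℕ} (hC : 1 ≤ C) (hC₂ : 1 ≤ C₂) (hLN : 0 < LN)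
    (hLX : 0 < LX) (hX : 0 ≤ X) (hM : 0 ≤ M) (hD : 0 ≤ D) (hk : 1 ≤ k) (hP0 : 0 ≤ P₁)
    (hP : P₁ ≤ C / LN) :
    X * (C₂ * (k + 1) * LN / LX) ^ (k + 1) * (P₁ * (4 * M * (P₁ * D)) ^ k) ≤
      X / LX * (32 * (C₂ * C) ^ 2 * k * (M * D / LX)) ^ k / 2 := by
  have hk1 : (1 : ℝ) ≤ k := by exact_mod_cast hk
  have h1 : P₁ * (4 * M * (P₁ * D)) ^ k ≤ (C / LN) * (4 * M * ((C / LN) * D)) ^ k := by
    gcongr
  have hCC : 1 ≤ C₂ * C := one_le_mul_of_one_le_of_one_le hC₂ hC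
  calc X * (C₂ * (k + 1) * LN / LX) ^ (k + 1) * (P₁ * (4 * M * (P₁ * D)) ^ k)
      ≤ X * (C₂ * (k + 1) * LN / LX) ^ (k + 1) * ((C / LN) * (4 * M * ((C / LN) * D)) ^ k) := by
        gcongr
    _ = X / LX * (C₂ * C * (k + 1)) * (4 * (C₂ * C) * (k + 1) * (M * D / LX)) ^ k := by
        rw [pow_succ]
        have e : (C₂ * (k + 1) * LN / LX) ^ k * (4 * M * ((C / LN) * D)) ^ k =
            (4 * (C₂ * C) * (k + 1) * (M * D / LX)) ^ k := by
          rw [← mul_pow]
          congr 1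
          field_simp
        have e2 : (C₂ * (k + 1) * LN / LX) * (C / LN) = (C₂ * C * (k + 1)) / LX := by
          field_simp
        calc X * ((C₂ * (k + 1) * LN / LX) ^ k * (C₂ * (k + 1) * LN / LX)) *
              ((C / LN) * (4 * M * ((C / LN) * D)) ^ k)
            = X * ((C₂ * (k + 1) * LN / LX) * (C / LN)) *
              ((C₂ * (k + 1) * LN / LX) ^ k * (4 * M * ((C / LN) * D)) ^ k) := by ring
          _ = _ := by rw [e, e2]; ring
    _ ≤ X / LX * (2 * (C₂ * C)) ^ k * (4 * (C₂ * C) * (2 * k) * (M * D / LX)) ^ k := by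
        have h2 : C₂ * C * (k + 1) ≤ (2 * (C₂ * C)) ^ k := by
          rw [mul_pow, mul_comm]
          have h3 : (k + 1 : ℝ) ≤ 2 ^ k := by
            exact_mod_cast Nat.lt_two_pow_self
          have h4 : C₂ * C ≤ (C₂ * C) ^ k := le_self_pow₀ hCC (by omega)
          gcongr
        have h5 : (k + 1 : ℝ) ≤ 2 * k := by linarith
        gcongr
    _ = X / LX * (16 * (C₂ * C) ^ 2 * k * (M * D / LX)) ^ k := by
        rw [mul_assoc, ← mul_pow]
        congr 2
        ring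
    _ ≤ X / LX * (32 * (C₂ * C) ^ 2 * k * (M * D / LX)) ^ k / 2 := by
        have e : (32 * (C₂ * C) ^ 2 * k * (M * D / LX)) ^ k =
            2 ^ k * (16 * (C₂ * C) ^ 2 * k * (M * D / LX)) ^ k := by
          rw [← mul_pow]; congr 1; ring
        rw [e]
        have h2 : (2 : ℝ) ≤ 2 ^ k := le_self_pow₀ (by norm_num) (by omega)
        have h3 : 0 ≤ X / LX * (16 * (C₂ * C) ^ 2 * k * (M * D / LX)) ^ k := by positivity
        nlinarith

/-- the real inequality for tuples with a coincidence -/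
theorem real_noninj {LX X M U Y : ℝ} {k : ℕ} (hLX : 0 < LX) (hX : 0 ≤ X) (hM : 0 < M)
    (hk : 1 ≤ k) (hY : M / LX ≤ Y) (hA : 2 * k ^ 2 * U ^ k * LX ^ (k + 1) ≤ M) :
    ((k : ℝ) ^ 2 * M ^ (k - 1)) * (X * U ^ k) ≤ X / LX * Y ^ k / 2 := by
  have h1 : (M / LX) ^ k ≤ Y ^ k := by gcongr
  have h2 : X / LX * (M / LX) ^ k / 2 ≤ X / LX * Y ^ k / 2 := by gcongr
  refine le_trans ?_ h2
  have e : M ^ k = M ^ (k - 1) * M := by
    rw [← pow_succ]; congr 1; omega
  rw [div_pow, div_mul_div_comm, div_div, le_div_iff₀ (by positivity)]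
  calc ((k : ℝ) ^ 2 * M ^ (k - 1)) * (X * U ^ k) * (LX * LX ^ k * 2)
      = (X * M ^ (k - 1)) * (2 * k ^ 2 * U ^ k * LX ^ (k + 1)) := by ring
    _ ≤ (X * M ^ (k - 1)) * M := by gcongr
    _ = X * M ^ k := by rw [e]; ring

/-- the numerical condition for the coincidences -/
theorem num_cond (b n k : ℕ) (M : ℕ) (LX : ℝ) (hn : 3 ≤ n) (hk1 : 1 ≤ k) (hk : k ≤ KK b n)
    (hM : MM b n ≤ 2 * M) (hLX0 : 0 ≤ LX) (hLX : LX ≤ NN n) :
    2 * (k : ℝ) ^ 2 * (Real.exp ((n : ℝ) ^ (2 * b + 3))) ^ k * LX ^ (k + 1) ≤ M := by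
  have hn1 : (3 : ℝ) ≤ n := by exact_mod_cast hn
  have hn0 : (1 : ℝ) ≤ n := by linarith
  have hkK : (k : ℝ) ≤ (n : ℝ) ^ (2 * b + 2) := by
    have : (k : ℝ) ≤ ((KK b n : ℕ) : ℝ) := by exact_mod_cast hk
    refine this.trans (le_of_eq ?_)
    unfold KK
    push_cast
    rfl
  have hk1' : (1 : ℝ) ≤ k := by exact_mod_cast hk1
  set T : ℝ := (n : ℝ) ^ (4 * b + 5) with hT
  have hT1 : 1 ≤ T := one_le_pow₀ hn0
  have h1 : 2 * (k : ℝ) ^ 2 ≤ Real.exp (1 + 2 * T) := by
    have a1 : (k : ℝ) ≤ T := hkK.trans (pow_le_pow_right₀ hn0 (by omega))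
    have a2 : (k : ℝ) ≤ Real.exp T := a1.trans ((by linarith [Real.add_one_le_exp T]))
    have a3 : (2 : ℝ) ≤ Real.exp 1 := by linarith [Real.add_one_le_exp (1 : ℝ)]
    have a4 : (k : ℝ) ^ 2 ≤ (Real.exp T) ^ 2 := by gcongr
    rw [Real.exp_add, ← Real.exp_nat_mul] at *
    push_cast at a4
    gcongr
  have h2 : (Real.exp ((n : ℝ) ^ (2 * b + 3))) ^ k ≤ Real.exp T := by
    rw [← Real.exp_nat_mul]
    apply Real.exp_le_exp.mpr
    calc (k : ℝ) * (n : ℝ) ^ (2 * b + 3) ≤ (n : ℝ) ^ (2 * b + 2) * (n : ℝ) ^ (2 * b + 3) := by gcongr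
      _ = T := by rw [hT, ← pow_add]; congr 1; ring
  have h3 : LX ^ (k + 1) ≤ Real.exp (2 * T) := by
    have a1 : NN n ≤ Real.exp n := by
      unfold NN lam
      rw [← Real.exp_one_pow]
      apply pow_le_pow_left₀ (by norm_num)
      have := Real.add_one_le_exp (1 : ℝ)
      linarith
    have a2 : LX ^ (k + 1) ≤ (Real.exp n) ^ (k + 1) := by
      have := hLX.trans a1
      gcongr
    refine a2.trans ?_
    rw [← Real.exp_nat_mul]
    apply Real.exp_le_exp.mpr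
    push_cast
    calc ((k : ℝ) + 1) * n ≤ (2 * (n : ℝ) ^ (2 * b + 2)) * n := by
          gcongr
          linarith
      _ = 2 * (n : ℝ) ^ (2 * b + 3) := by ring
      _ ≤ 2 * T := by
          have : (n : ℝ) ^ (2 * b + 3) ≤ T := pow_le_pow_right₀ hn0 (by omega)
          linarith
  have h4 : Real.exp ((n : ℝ) ^ (4 * b + 8)) ≤ 2 * M := by
    have a1 : Real.exp ((n : ℝ) ^ (4 * b + 8)) ≤ ((MM b n : ℕ) : ℝ) := Nat.le_ceil _
    have a2 : ((MM b n : ℕ) : ℝ) ≤ 2 * M := by exact_mod_cast hM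
    exact a1.trans a2
  have h5 : 2 * Real.exp (1 + 5 * T) ≤ Real.exp ((n : ℝ) ^ (4 * b + 8)) := by
    have a3 : (2 : ℝ) ≤ Real.exp 1 := by linarith [Real.add_one_le_exp (1 : ℝ)]
    calc 2 * Real.exp (1 + 5 * T) ≤ Real.exp 1 * Real.exp (1 + 5 * T) := by gcongr
      _ = Real.exp (1 + (1 + 5 * T)) := by rw [← Real.exp_add]
      _ ≤ Real.exp ((n : ℝ) ^ (4 * b + 8)) := by
          apply Real.exp_le_exp.mpr
          have e : (n : ℝ) ^ (4 * b + 8) = T * n ^ 3 := by rw [hT, ← pow_add]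
          rw [e]
          have : (27 : ℝ) ≤ (n : ℝ) ^ 3 := by
            calc (27 : ℝ) = 3 ^ 3 := by norm_num
              _ ≤ _ := by gcongr
          nlinarith
  calc 2 * (k : ℝ) ^ 2 * (Real.exp ((n : ℝ) ^ (2 * b + 3))) ^ k * LX ^ (k + 1)
      ≤ Real.exp (1 + 2 * T) * Real.exp T * Real.exp (2 * T) := by gcongr
    _ = Real.exp (1 + 5 * T) := by rw [← Real.exp_add, ← Real.exp_add]; congr 1; ring
    _ ≤ M := by linarith

end Mom

theorem MOM : ∃ C₃ : ℝ, 1 ≤ C₃ ∧ ∀ b : ℕ, ∃ n₀ : ℕ, ∀ n, n₀ ≤ n → ∀ (k d X M : ℕ), 1 ≤ k →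
    k ≤ KK b n → 1 ≤ d → (d : ℝ) ≤ Real.exp (NN n) → (NN n) ^ (0.49 : ℝ) ≤ Real.log X →
    Real.log X ≤ NN n → MM b n ≤ 2 * M → (M : ℝ) ≤ Real.exp (NN n) →
    ∑ t ∈ PB X, (NM b n d M t) ^ k ≤
      X / Real.log X * (C₃ * k * (M * dphi d / Real.log X)) ^ k := by
  classical
  obtain ⟨C₀, hC₀, hSL⟩ := SL
  obtain ⟨C₂, hC₂, hUM⟩ := U_moment
  obtain ⟨C, hC, hMP⟩ := mertens_prod
  have hCC : 1 ≤ C₂ * C := one_le_mul_of_one_le_of_one_le hC₂ hC
  have hC3 : 1 ≤ 32 * (C₂ * C) ^ 2 := by nlinarith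
  refine ⟨32 * (C₂ * C) ^ 2, hC3, fun b => ?_⟩
  obtain ⟨n1, hn1⟩ := hUM b
  obtain ⟨n2, hn2⟩ := U_le b
  have hlim : Filter.Tendsto (fun n : ℕ => NN n) Filter.atTop Filter.atTop :=
    tendsto_pow_atTop_atTop_of_one_lt (by unfold lam; norm_num)
  obtain ⟨n3, hn3⟩ := Filter.eventually_atTop.mp (hlim.eventually (Filter.eventually_ge_atTop 4))
  refine ⟨max (max n1 n2) (max n3 (max 3 (⌈C₀⌉₊ + 1))), fun n hn k d X M hk1 hk hd hde hX1 hX2 hM1 hM2 => ?_⟩
  have hnn1 : n1 ≤ n := (le_max_left _ _).trans ((le_max_left _ _).trans hn)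
  have hnn2 : n2 ≤ n := (le_max_right _ _).trans ((le_max_left _ _).trans hn)
  have hnn3 : n3 ≤ n := (le_max_left _ _).trans ((le_max_right _ _).trans hn)
  have hnn4 : 3 ≤ n := (le_max_left _ _).trans ((le_max_right _ _).trans ((le_max_right _ _).trans hn))
  have hnn5 : ⌈C₀⌉₊ + 1 ≤ n :=
    (le_max_right _ _).trans ((le_max_right _ _).trans ((le_max_right _ _).trans hn))
  have hN4 : 4 ≤ NN n := hn3 n hnn3
  have hNpos : 0 < NN n := by linarith
  have hLX : 0 < Real.log X := lt_of_lt_of_le (Real.rpow_pos_of_pos hNpos _) hX1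
  have hLN : 0 < Real.log (NN n) := Real.log_pos (by linarith)
  have hd0 : (1 : ℝ) ≤ d := by exact_mod_cast hd
  have hdp : 1 ≤ dphi d := Mom.one_le_dphi d hd
  have hMM4 : 4 * n ^ 2 ≤ n ^ (4 * b + 8) + 3 * n ^ 2 := by
    have : n ^ 2 ≤ n ^ (4 * b + 8) := Nat.pow_le_pow_right (by omega) (by omega)
    omega
  have hn3r : (3 : ℝ) ≤ n := by exact_mod_cast hnn4
  have hMexp : Real.exp ((n : ℝ) ^ (4 * b + 8)) ≤ 2 * M := by
    have a1 : Real.exp ((n : ℝ) ^ (4 * b + 8)) ≤ ((MM b n : ℕ) : ℝ) := Nat.le_ceil _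
    have a2 : ((MM b n : ℕ) : ℝ) ≤ 2 * M := by exact_mod_cast hM1
    exact a1.trans a2
  have hMpos : (0 : ℝ) < M := by
    have := Real.exp_pos ((n : ℝ) ^ (4 * b + 8))
    linarith
  have hMnat : 1 ≤ M := by
    have : (0 : ℝ) < (M : ℝ) := hMpos
    exact_mod_cast this
  set z : ℕ := ⌊(NN n) ^ 2⌋₊ with hz
  have hzle : (z : ℝ) ≤ (NN n) ^ 2 := Nat.floor_le (by positivity)
  have hzge : NN n ≤ (z : ℝ) := by
    have h1 : (NN n) ^ 2 < (z : ℝ) + 1 := Nat.lt_floor_add_one _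
    nlinarith
  have hz2 : 2 ≤ z := by
    have : (2 : ℝ) ≤ z := by linarith
    exact_mod_cast this
  have hlogz : Real.log (NN n) ≤ Real.log z := Real.log_le_log hNpos hzge
  have hlogz2 : Real.log z ≤ n := by
    have h1 : Real.log z ≤ Real.log ((NN n) ^ 2) := Real.log_le_log (by linarith) hzle
    refine h1.trans ?_
    unfold NN
    rw [← pow_mul, Real.log_pow]
    have h2 : Real.log lam ≤ 1 / 8 := by
      have := Real.log_le_sub_one_of_pos (show (0 : ℝ) < lam by unfold lam; norm_num)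
      refine this.trans ?_
      unfold lam; norm_num
    push_cast
    have : (0 : ℝ) ≤ n := by positivity
    nlinarith
  have hlogM : C₀ * Real.log z ≤ Real.log M := by
    have h1 : (n : ℝ) ^ (4 * b + 8) - 1 ≤ Real.log M := by
      have h2 : Real.exp ((n : ℝ) ^ (4 * b + 8) - 1) ≤ M := by
        rw [Real.exp_sub]
        rw [div_le_iff₀ (Real.exp_pos _)]
        have a3 : (2 : ℝ) ≤ Real.exp 1 := by linarith [Real.add_one_le_exp (1 : ℝ)]
        nlinarith
      rw [Real.le_log_iff_exp_le hMpos]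
      exact h2
    have h3 : C₀ * Real.log z ≤ C₀ * n := by gcongr
    have h4 : C₀ + 1 ≤ n := by
      have h5 : C₀ ≤ (⌈C₀⌉₊ : ℝ) := Nat.le_ceil _
      have h6 : ((⌈C₀⌉₊ : ℝ)) + 1 ≤ n := by exact_mod_cast hnn5
      linarith
    have h5 : (n : ℝ) ^ 2 ≤ (n : ℝ) ^ (4 * b + 8) := pow_le_pow_right₀ (by linarith) (by omega)
    nlinarith
  -- the product over primes
  set P₁ : ℝ := ∏ l ∈ PZ z, (1 - (1 : ℝ) / l) with hP₁
  have hP₁0 : 0 ≤ P₁ := Finset.prod_nonneg (fun l hl => (Mom.one_sub_inv_pos (mem_PZ.mp hl).1).le)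
  have hP₁le : P₁ ≤ C / Real.log (NN n) := by
    refine (hMP z hz2).trans ?_
    gcongr
  -- expand the power
  have hexp : ∀ t, (NM b n d M t) ^ k = ∑ f ∈ Fintype.piFinset (fun _ : Fin k => Ioc M (2 * M)),
      ∏ i, U b n (d * f i * t + 1) := by
    intro t
    unfold NM
    rw [Finset.sum_pow']
  have h1 : ∑ t ∈ PB X, (NM b n d M t) ^ k =
      ∑ f ∈ Fintype.piFinset (fun _ : Fin k => Ioc M (2 * M)),
        ∑ t ∈ PB X, ∏ i, U b n (d * f i * t + 1) := by
    simp_rw [hexp]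
    rw [Finset.sum_comm]
  rw [h1, ← Finset.sum_filter_add_sum_filter_not _ (fun f : Fin k → ℕ => Function.Injective f)]
  -- injective part
  have hinj : ∑ f ∈ (Fintype.piFinset (fun _ : Fin k => Ioc M (2 * M))).filter
      (fun f : Fin k → ℕ => Function.Injective f), ∑ t ∈ PB X, ∏ i, U b n (d * f i * t + 1) ≤
      X / Real.log X * (32 * (C₂ * C) ^ 2 * k * (M * dphi d / Real.log X)) ^ k / 2 := by
    have hstep : ∀ f ∈ (Fintype.piFinset (fun _ : Fin k => Ioc M (2 * M))).filter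
        (fun f : Fin k → ℕ => Function.Injective f), ∑ t ∈ PB X, ∏ i, U b n (d * f i * t + 1) ≤
        (X * (C₂ * (k + 1) * Real.log (NN n) / Real.log X) ^ (k + 1)) *
          ∏ l ∈ PZ z, (1 - (Mom.omf d f l : ℝ) / l) := by
      intro f hf
      rw [mem_filter, Fintype.mem_piFinset] at hf
      obtain ⟨hf1, hf2⟩ := hf
      have hinj' : Function.Injective (fun i => d * f i) := by
        intro i j hij
        apply hf2
        exact Nat.eq_of_mul_eq_mul_left (by omega) hij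
      set A : Finset ℕ := univ.image (fun i => d * f i) with hA
      have hAcard : A.card = k := by
        rw [hA, card_image_of_injective _ hinj', card_univ, Fintype.card_fin]
      have h2 := hn1 n hnn1 A X (by omega) (by omega) (by
        intro a ha
        rw [hA, mem_image] at ha
        obtain ⟨i, _, rfl⟩ := ha
        have h3 := mem_Ioc.mp (hf1 i)
        refine ⟨Nat.mul_pos (by omega) (by omega), ?_⟩
        push_cast
        have h4 : (f i : ℝ) ≤ 2 * M := by exact_mod_cast h3.2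
        calc (d : ℝ) * f i ≤ Real.exp (NN n) * (2 * Real.exp (NN n)) := by
              apply mul_le_mul hde _ (by positivity) (by positivity)
              linarith
          _ = 2 * Real.exp (2 * NN n) := by
              rw [two_mul (NN n), Real.exp_add]; ring
          _ ≤ Real.exp (NN n) * Real.exp (2 * NN n) := by
              have := Real.add_one_le_exp (NN n)
              gcongr
              linarith
          _ = Real.exp (3 * NN n) := by rw [← Real.exp_add]; congr 1; ring) hX1 (by linarith)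
      have h5 : ∀ t, ∏ a ∈ A, U b n (a * t + 1) = ∏ i, U b n (d * f i * t + 1) := by
        intro t
        rw [hA, Finset.prod_image (fun i _ j _ hij => hinj' hij)]
      have h6 : ∀ l, omA A l = Mom.omf d f l := by
        intro l
        unfold omA Mom.omf
        congr 1
        apply Finset.filter_congr
        intro t _
        rw [hA]
        simp only [mem_image, mem_univ, true_and, exists_exists_eq_and]
      simp_rw [h5, h6] at h2
      rw [hAcard] at h2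
      calc _ ≤ _ := h2
        _ = _ := by ring
    refine (Finset.sum_le_sum hstep).trans ?_
    rw [← Finset.mul_sum]
    have hsub : ∑ f ∈ (Fintype.piFinset (fun _ : Fin k => Ioc M (2 * M))).filter
        (fun f : Fin k → ℕ => Function.Injective f), ∏ l ∈ PZ z, (1 - (Mom.omf d f l : ℝ) / l) ≤
        ∑ f ∈ Fintype.piFinset (fun _ : Fin k => Ioc M (2 * M)),
          ∏ l ∈ PZ z, (1 - (Mom.omf d f l : ℝ) / l) := by
      apply Finset.sum_le_sum_of_subset_of_nonneg (filter_subset _ _)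
      intro f _ _
      apply Finset.prod_nonneg
      intro l hl
      have hl0 : (0 : ℝ) < l := by exact_mod_cast (mem_PZ.mp hl).1.pos
      have h2 : (Mom.omf d f l : ℝ) ≤ l := by
        have : Mom.omf d f l ≤ l := by
          unfold Mom.omf
          exact (card_filter_le _ _).trans (by rw [card_range])
        exact_mod_cast this
      have : (Mom.omf d f l : ℝ) / l ≤ 1 := by rw [div_le_one hl0]; exact h2
      linarith
    have hAV := Mom.AV (C₀ := C₀) hSL d M z k hz2 hMnat hd hlogM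
    have hcoef : 0 ≤ (X * (C₂ * (k + 1) * Real.log (NN n) / Real.log X) ^ (k + 1)) := by positivity
    refine (mul_le_mul_of_nonneg_left (hsub.trans hAV) hcoef).trans ?_
    exact Mom.real_inj hC hC₂ hLN hLX (by positivity) hMpos.le (by linarith) hk1 hP₁0 hP₁le
  have hnon : ∑ f ∈ (Fintype.piFinset (fun _ : Fin k => Ioc M (2 * M))).filter
      (fun f : Fin k → ℕ => ¬ Function.Injective f), ∑ t ∈ PB X, ∏ i, U b n (d * f i * t + 1) ≤
      X / Real.log X * (32 * (C₂ * C) ^ 2 * k * (M * dphi d / Real.log X)) ^ k / 2 := by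
    have hstep : ∀ f ∈ (Fintype.piFinset (fun _ : Fin k => Ioc M (2 * M))).filter
        (fun f : Fin k → ℕ => ¬ Function.Injective f), ∑ t ∈ PB X, ∏ i, U b n (d * f i * t + 1) ≤
        X * (Real.exp ((n : ℝ) ^ (2 * b + 3))) ^ k := by
      intro f _
      have h2 : ∀ t ∈ PB X, ∏ i, U b n (d * f i * t + 1) ≤ (Real.exp ((n : ℝ) ^ (2 * b + 3))) ^ k := by
        intro t _
        calc ∏ i, U b n (d * f i * t + 1) ≤ ∏ _i : Fin k, Real.exp ((n : ℝ) ^ (2 * b + 3)) := by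
              apply Finset.prod_le_prod
              · intro i _; exact U_nonneg _ _ _
              · intro i _; exact hn2 n hnn2 _
          _ = _ := by simp
      refine (Finset.sum_le_card_nsmul _ _ _ h2).trans ?_
      rw [nsmul_eq_mul]
      have h3 : ((PB X).card : ℝ) ≤ X := by
        have : (PB X).card ≤ X := by
          unfold PB
          refine (card_filter_le _ _).trans ?_
          rw [Nat.card_Ioc]
          omega
        exact_mod_cast this
      gcongr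
    refine (Finset.sum_le_card_nsmul _ _ _ hstep).trans ?_
    rw [nsmul_eq_mul]
    have hcard := Mom.card_noninj (Ioc M (2 * M)) k
    have hc2 : (Ioc M (2 * M)).card = M := by rw [Nat.card_Ioc]; omega
    rw [hc2] at hcard
    have hcard' : (((Fintype.piFinset (fun _ : Fin k => Ioc M (2 * M))).filter
      (fun f : Fin k → ℕ => ¬ Function.Injective f)).card : ℝ) ≤ (k : ℝ) ^ 2 * (M : ℝ) ^ (k - 1) := by
      exact_mod_cast hcard
    refine le_trans (mul_le_mul_of_nonneg_right hcard' (by positivity)) ?_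
    refine Mom.real_noninj hLX (by positivity) hMpos hk1 ?_
      (Mom.num_cond b n k M (Real.log X) hnn4 hk1 hk hM1 hLX.le hX2)
    have hk1' : (1 : ℝ) ≤ k := by exact_mod_cast hk1
    have h5 : (M : ℝ) / Real.log X ≤ M * dphi d / Real.log X := by
      gcongr
      exact le_mul_of_one_le_right hMpos.le hdp
    have h6 : 0 ≤ (M : ℝ) * dphi d / Real.log X := by positivity
    have h7 : 1 ≤ 32 * (C₂ * C) ^ 2 * k := one_le_mul_of_one_le_of_one_le hC3 hk1'
    exact h5.trans (le_mul_of_one_le_left h6 h7)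
  linarith

end

end Pool.Agent.NTot
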