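import Pool.Agent.NTot.Propag
import Pool.Agent.NTot.Basic
import Pool.Agent.NTot.Mertens

/-!
# M15: non-rarity (Proposition 12)
-/

set_option autoImplicit false

namespace Pool.Agent.NTot

open Finset Filter Topology

noncomputable section

/-- the extremal level -/
def alpha (D : ℕ → ℝ) : ℝ :=
  sInf {c : ℝ | 0 ≤ c ∧ Tendsto (fun n => rho n (fun p => c < D p / Real.log p)) atTop (𝓝 0)}

theorem rho_nonneg (n : ℕ) (P : ℕ → Prop) : 0 ≤ rho n P := by
  unfold rho
  exact Finset.sum_nonneg (fun p _ => by positivity)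

theorem rho_mono {n : ℕ} {P Q : ℕ → Prop} (h : ∀ p ∈ W n, P p → Q p) : rho n P ≤ rho n Q := by
  classical
  unfold rho
  apply Finset.sum_le_sum_of_subset_of_nonneg
  · intro p hp
    rw [mem_filter] at hp ⊢
    exact ⟨hp.1, h p hp.1 hp.2⟩
  · intro p _ _
    positivity

theorem rho_eq_zero {n : ℕ} {P : ℕ → Prop} (h : ∀ p ∈ W n, ¬ P p) : rho n P = 0 := by
  classical
  unfold rho
  apply Finset.sum_eq_zero
  intro p hp
  rw [mem_filter] at hp
  exact absurd hp.2 (h p hp.1)

theorem y_bounds {Δ D₂ : ℝ} {D : ℕ → ℝ} (hD : AddFn Δ D₂ D) {p : ℕ} (hp : p.Prime) :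
    0 ≤ D p / Real.log p ∧ D p / Real.log p ≤ Δ := by
  have h2 : (2 : ℝ) ≤ p := by exact_mod_cast hp.two_le
  have hl : 0 < Real.log p := Real.log_pos (by linarith)
  refine ⟨div_nonneg (hD.nonneg p hp.one_lt.le) hl.le, ?_⟩
  rw [div_le_iff₀ hl]
  exact hD.le_log p hp.one_lt.le

theorem alpha_set_bdd (D : ℕ → ℝ) : BddBelow {c : ℝ | 0 ≤ c ∧
    Tendsto (fun n => rho n (fun p => c < D p / Real.log p)) atTop (𝓝 0)} :=
  ⟨0, fun _ hc => hc.1⟩

theorem mem_alpha_set {Δ D₂ : ℝ} {D : ℕ → ℝ} (hΔ : 0 ≤ Δ) (hD : AddFn Δ D₂ D) :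
    Δ ∈ {c : ℝ | 0 ≤ c ∧ Tendsto (fun n => rho n (fun p => c < D p / Real.log p)) atTop (𝓝 0)} := by
  refine ⟨hΔ, ?_⟩
  have : (fun n => rho n (fun p => Δ < D p / Real.log p)) = fun _ => (0 : ℝ) := by
    funext n
    apply rho_eq_zero
    intro p hp
    exact not_lt.mpr (y_bounds hD (prime_of_mem_W hp)).2
  rw [this]
  exact tendsto_const_nhds

theorem alpha_le_of {D : ℕ → ℝ} {c : ℝ} (hc : 0 ≤ c)
    (h : Tendsto (fun n => rho n (fun p => c < D p / Real.log p)) atTop (𝓝 0)) : alpha D ≤ c :=
  csInf_le (alpha_set_bdd D) ⟨hc, h⟩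

theorem alpha_le {Δ D₂ : ℝ} {D : ℕ → ℝ} (hΔ : 0 ≤ Δ) (hD : AddFn Δ D₂ D) : alpha D ≤ Δ :=
  csInf_le (alpha_set_bdd D) (mem_alpha_set hΔ hD)

theorem alpha_nonneg {Δ D₂ : ℝ} {D : ℕ → ℝ} (hΔ : 0 ≤ Δ) (hD : AddFn Δ D₂ D) : 0 ≤ alpha D :=
  le_csInf ⟨Δ, mem_alpha_set hΔ hD⟩ (fun _ hc => hc.1)

theorem alpha_lt_tendsto {Δ D₂ : ℝ} {D : ℕ → ℝ} (hΔ : 0 ≤ Δ) (hD : AddFn Δ D₂ D) {x : ℝ}
    (hx : alpha D < x) : Tendsto (fun n => rho n (fun p => x < D p / Real.log p)) atTop (𝓝 0) := by
  obtain ⟨c, hc, hcx⟩ := exists_lt_of_csInf_lt ⟨Δ, mem_alpha_set hΔ hD⟩ hx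
  refine squeeze_zero (fun n => rho_nonneg n _) (fun n => rho_mono ?_) hc.2
  intro p _ h
  exact hcx.trans h

theorem nonrare (Δ D₂ : ℝ) (hΔ : 1 ≤ Δ) (hD₂ : 0 ≤ D₂) : ∃ π₁ : ℝ, 0 < π₁ ∧ ∀ D : ℕ → ℝ, AddFn Δ D₂ D →
    ∀ δ : ℝ, 0 < δ → δ < alpha D → ∃ w n₁ : ℕ, ∀ n₀, n₁ ≤ n₀ → ∃ n, n₀ ≤ n + w ∧ n ≤ n₀ ∧
      π₁ < rho n (fun p => alpha D - δ < D p / Real.log p) := by
  classical
  obtain ⟨b, hb, L, hL, N₀, hP⟩ := propagation Δ D₂ hΔ hD₂
  have hΔ0 : 0 ≤ Δ := by linarith
  have hb2 : (2 : ℝ) ≤ b := by exact_mod_cast hb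
  have hb0 : b ≠ 0 := by omega
  set kap : ℝ := 1 / (4 * b) with hkap
  have hkap0 : 0 < kap := by rw [hkap]; positivity
  have hl2 : 0 < Real.log 2 := Real.log_pos (by norm_num)
  set Cst : ℝ := L + L / Real.log 2 / kap with hCst
  have hCst0 : 0 ≤ Cst := by rw [hCst]; positivity
  set K₁ : ℝ := 2 * Cst + 1 + Δ with hK₁
  have hK₁0 : 0 < K₁ := by rw [hK₁]; linarith
  refine ⟨1 / 2 * Real.exp (-(2 * K₁) ^ b), by positivity, ?_⟩
  intro D hD δ hδ hδα
  by_contra hcon
  push Not at hcon
  have hαΔ := alpha_le hΔ0 hD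
  set α := alpha D with hα
  set a : ℝ := δ / K₁ with ha
  have ha0 : 0 < a := by rw [ha]; positivity
  have ha1 : a ≤ 1 := by
    rw [ha, div_le_one hK₁0, hK₁]; linarith
  have haK : a * K₁ = δ := by rw [ha]; field_simp
  -- the length of the window
  obtain ⟨w, hw⟩ := (((tendsto_NN_rpow hkap0).eventually
    (eventually_ge_atTop (2 * Δ / a)))).exists
  have hw' : 2 * Δ ≤ a * NN w ^ kap := by
    rw [div_le_iff₀ ha0] at hw; linarith
  -- thresholds
  obtain ⟨m₀, hm₀⟩ := rho_le_one
  have hE : 0 < 1 / 2 * Real.exp (-(Δ / a) ^ b) := by positivity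
  obtain ⟨m₁, hm₁⟩ := eventually_atTop.mp
    ((alpha_lt_tendsto hΔ0 hD (x := α + δ) (by linarith)).eventually (ge_mem_nhds hE))
  obtain ⟨m₂, hm₂⟩ := exists_nat_ge (9 * (8 * (L * (1 + 1 / Real.log 2)) / δ + 1))
  obtain ⟨n₀, hn₀, hr⟩ := hcon w (N₀ + 2 * m₀ + 4 + m₁ + w + m₂)
  -- t0
  have ht0 : 8 * (L * (1 + 1 / Real.log 2)) / δ + 1 ≤ Real.log (NN n₀) := by
    have h1 := le_log_NN n₀
    have h2 : (m₂ : ℝ) ≤ n₀ := by exact_mod_cast (by omega : m₂ ≤ n₀)
    linarith
  have hpos1 : 0 ≤ 8 * (L * (1 + 1 / Real.log 2)) / δ := by positivity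
  have ht1 : 1 ≤ Real.log (NN n₀) := by linarith
  set t0 : ℝ := Real.log (NN n₀) with ht0def
  have ht00 : 0 < t0 := by linarith
  have ht2 : L / t0 ^ 2 + L / Real.log 2 * (1 / t0) ≤ δ / 8 := by
    have h1 : L / t0 ^ 2 ≤ L / t0 := by
      apply div_le_div_of_nonneg_left (by linarith) ht00
      nlinarith
    have h2 : L / t0 + L / Real.log 2 * (1 / t0) = L * (1 + 1 / Real.log 2) / t0 := by
      field_simp
    have h3 : L * (1 + 1 / Real.log 2) / t0 ≤ δ / 8 := by
      rw [div_le_iff₀ ht00]
      have : 8 * (L * (1 + 1 / Real.log 2)) / δ ≤ t0 := by linarith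
      rw [div_le_iff₀ hδ] at this
      linarith
    linarith
  -- frame
  let f : Frame := ⟨n₀, α - δ, a, L, kap⟩
  have hfn0 : f.n0 = n₀ := rfl
  have hfc0 : f.c0 = α - δ := rfl
  have hfa : f.a = a := rfl
  have hfL : f.L = L := rfl
  have hfk : f.kap = kap := rfl
  have hft : f.t0 = t0 := rfl
  have hfinal := hP f D hD (by rw [hfn0]; omega) (by rw [hfc0]; linarith) (by rw [hfa]; exact ha0.le)
    (by rw [hfa]; exact ha1) (by rw [hfk]) (by rw [hfL]) ?_
  · -- contradiction with the definition of `alpha`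
    have hmem : Tendsto (fun n => rho n (fun p => α - δ / 4 < D p / Real.log p)) atTop (𝓝 0) := by
      -- the width at level n
      have hlam : Tendsto (fun n : ℕ => 8 / δ * (NN n₀ ^ kap / NN (n - 1) ^ kap +
          1 / (((n - 1 : ℕ) : ℝ) / 9) ^ 2)) atTop (𝓝 0) := by
        have hsub : Tendsto (fun n : ℕ => n - 1) atTop atTop := tendsto_sub_atTop_nat 1
        have h1 : Tendsto (fun n : ℕ => NN n₀ ^ kap / NN (n - 1) ^ kap) atTop (𝓝 0) :=
          ((tendsto_NN_rpow hkap0).comp hsub).const_div_atTop _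
        have h2 : Tendsto (fun n : ℕ => 1 / (((n - 1 : ℕ) : ℝ) / 9) ^ 2) atTop (𝓝 0) := by
          have h3 : Tendsto (fun n : ℕ => (((n - 1 : ℕ) : ℝ) / 9) ^ 2) atTop atTop := by
            have h4 : Tendsto (fun n : ℕ => (((n - 1 : ℕ) : ℝ) / 9)) atTop atTop :=
              ((tendsto_natCast_atTop_atTop (R := ℝ)).comp hsub).atTop_div_const (by norm_num)
            exact (tendsto_pow_atTop (by norm_num)).comp h4
          exact h3.const_div_atTop _
        have := (h1.add h2).const_mul (8 / δ)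
        simpa using this
      have hev : ∀ᶠ n : ℕ in atTop, 8 / δ * (NN n₀ ^ kap / NN (n - 1) ^ kap +
          1 / (((n - 1 : ℕ) : ℝ) / 9) ^ 2) ≤ 1 := hlam.eventually (ge_mem_nhds (by norm_num))
      refine squeeze_zero' (Eventually.of_forall (fun n => rho_nonneg n _)) ?_ hlam
      filter_upwards [hev, eventually_ge_atTop (n₀ + 2)] with n hn1 hn2
      set Λ : ℝ := NN n₀ ^ kap / NN (n - 1) ^ kap + 1 / (((n - 1 : ℕ) : ℝ) / 9) ^ 2 with hΛ
      have hNNn := NN_pos (n - 1)
      have hNN0 := NN_pos n₀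
      have hn1pos : (0 : ℝ) < ((n - 1 : ℕ) : ℝ) := by exact_mod_cast (by omega : 0 < n - 1)
      have hΛ0 : 0 < Λ := by rw [hΛ]; positivity
      have hH := hfinal n (by rw [hfn0]; omega)
      have hNNeq : NN n = lam * NN (n - 1) := by
        rw [← NN_succ]; congr 1; omega
      -- each prime counted has large V
      have key : ∀ p ∈ W n, α - δ / 4 < D p / Real.log p →
          δ / 8 / Λ ≤ V b (lev f D p) := by
        intro p hp hy
        obtain ⟨hpp, hp1, hp2⟩ := mem_W.mp hp
        have hlamp := lam_pos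
        have hu1 : NN (n - 1) < Real.log p := by
          rw [hNNeq] at hp1
          exact lt_of_mul_lt_mul_left hp1 hlamp.le
        have hu2 : NN n₀ < Real.log p := (NN_mono (by omega : n₀ ≤ n - 1)).trans_lt hu1
        have hu0 : 0 < Real.log p := hNN0.trans hu2
        have hnot : ¬ (Real.log p ≤ NN f.n0) := by rw [hfn0]; exact not_le.mpr hu2
        have hratio0 : 0 ≤ (NN n₀ / Real.log p) ^ kap := by positivity
        -- log log p ≥ (n-1)/9
        have hll : ((n - 1 : ℕ) : ℝ) / 9 ≤ Real.log (Real.log p) :=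
          (le_log_NN (n - 1)).trans (Real.log_le_log hNNn hu1.le)
        have hll0 : 0 < Real.log (Real.log p) := by
          have : 0 < ((n - 1 : ℕ) : ℝ) / 9 := by positivity
          linarith
        have hcc : f.cc (Real.log p) ≤ α - 3 * δ / 8 := by
          unfold Frame.cc
          rw [if_neg hnot, hfc0, hfL, hfa, hft, hfn0, hfk]
          have h1 : a * (1 - (NN n₀ / Real.log p) ^ kap) / kap ≤ a / kap := by
            apply div_le_div_of_nonneg_right _ hkap0.le
            nlinarith
          have h2 : 0 ≤ 1 / Real.log (Real.log p) := by positivity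
          have h3 : L / Real.log 2 * (a * (1 - (NN n₀ / Real.log p) ^ kap) / kap + 1 / t0 -
              1 / Real.log (Real.log p)) ≤ L / Real.log 2 * (a / kap + 1 / t0) := by
            apply mul_le_mul_of_nonneg_left _ (by positivity)
            linarith
          have h4 : L * (a + 1 / t0 ^ 2) + L / Real.log 2 * (a / kap + 1 / t0) =
              Cst * a + (L / t0 ^ 2 + L / Real.log 2 * (1 / t0)) := by
            rw [hCst]; ring
          have h5 : Cst * a ≤ δ / 2 := by
            rw [← haK, hK₁]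
            nlinarith
          linarith
        have hLam : f.Lam (Real.log p) ≤ Λ := by
          unfold Frame.Lam
          rw [if_neg hnot, hfa, hfn0, hfk, hΛ]
          have h1 : a * (NN n₀ / Real.log p) ^ kap ≤ NN n₀ ^ kap / NN (n - 1) ^ kap := by
            calc a * (NN n₀ / Real.log p) ^ kap ≤ 1 * (NN n₀ / Real.log p) ^ kap :=
                  mul_le_mul_of_nonneg_right ha1 hratio0
              _ = (NN n₀ / Real.log p) ^ kap := one_mul _
              _ ≤ (NN n₀ / NN (n - 1)) ^ kap := by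
                  apply Real.rpow_le_rpow (by positivity) _ hkap0.le
                  exact div_le_div_of_nonneg_left hNN0.le hNNn hu1.le
              _ = NN n₀ ^ kap / NN (n - 1) ^ kap := Real.div_rpow hNN0.le hNNn.le _
          have h2 : 1 / Real.log (Real.log p) ^ 2 ≤ 1 / (((n - 1 : ℕ) : ℝ) / 9) ^ 2 := by
            apply one_div_le_one_div_of_le (by positivity)
            exact pow_le_pow_left₀ (by positivity) hll 2
          linarith
        have hLam0 : 0 < f.Lam (Real.log p) := by
          unfold Frame.Lam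
          rw [if_neg hnot, hfa, hfn0, hfk]
          have : 0 < 1 / Real.log (Real.log p) ^ 2 := by positivity
          positivity
        have hlev : δ / 8 / Λ ≤ lev f D p := by
          unfold lev
          have h1 : δ / 8 ≤ max 0 (D p / Real.log p - f.cc (Real.log p)) :=
            le_max_of_le_right (by linarith)
          calc δ / 8 / Λ ≤ δ / 8 / f.Lam (Real.log p) :=
                div_le_div_of_nonneg_left (by positivity) hLam0 hLam
            _ ≤ _ := div_le_div_of_nonneg_right h1 hLam0.le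
        have h1Λ : 1 ≤ δ / 8 / Λ := by
          rw [le_div_iff₀ hΛ0]
          have h9 : 8 / δ * Λ ≤ 1 := hn1
          rw [div_mul_eq_mul_div, div_le_one hδ] at h9
          linarith
        unfold V
        have h2 : lev f D p ^ b + 1 ≤ Real.exp (lev f D p ^ b) := Real.add_one_le_exp _
        have h3 : lev f D p ≤ lev f D p ^ b := le_self_pow₀ (h1Λ.trans hlev) hb0
        linarith
      have hsum : δ / 8 / Λ * rho n (fun p => α - δ / 4 < D p / Real.log p) ≤ 1 := by
        refine le_trans ?_ hH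
        unfold HH rho
        rw [Finset.mul_sum]
        calc ∑ p ∈ (W n).filter (fun p => α - δ / 4 < D p / Real.log p), δ / 8 / Λ * (1 / (p : ℝ))
            ≤ ∑ p ∈ (W n).filter (fun p => α - δ / 4 < D p / Real.log p), V b (lev f D p) / p := by
              apply Finset.sum_le_sum
              intro p hp
              rw [mem_filter] at hp
              rw [mul_one_div]
              exact div_le_div_of_nonneg_right (key p hp.1 hp.2) (Nat.cast_nonneg p)
          _ ≤ ∑ p ∈ W n, V b (lev f D p) / p := by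
              apply Finset.sum_le_sum_of_subset_of_nonneg (filter_subset _ _)
              intro p hp _
              apply div_nonneg _ (Nat.cast_nonneg p)
              unfold V
              have hpp := prime_of_mem_W hp
              have hlev0 : 0 ≤ lev f D p := by
                unfold lev
                apply div_nonneg (le_max_left _ _)
                unfold Frame.Lam
                have hlp : 0 ≤ Real.log p := Real.log_nonneg (by exact_mod_cast hpp.one_lt.le)
                have hNf := NN_pos f.n0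
                split_ifs
                · have : 0 ≤ f.a := by rw [hfa]; exact ha0.le
                  positivity
                · have : 0 ≤ f.a := by rw [hfa]; exact ha0.le
                  positivity
              have : 1 ≤ Real.exp (lev f D p ^ b) := Real.one_le_exp (by positivity)
              linarith
      have hx : δ / 8 / Λ = 1 / (8 / δ * Λ) := by field_simp
      rw [hx, one_div_mul_eq_div, div_le_one (by positivity)] at hsum
      exact hsum
    have := alpha_le_of (by linarith : 0 ≤ α - δ / 4) hmem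
    rw [← hα] at this
    linarith
  · -- the old region
    intro n hn1 hn2
    rw [hfn0] at hn1 hn2
    have hsum1 : ∑ p ∈ W n, (1 : ℝ) / p ≤ 1 := hm₀ n (by omega)
    have hNNn := NN_pos n
    have hNN0 := NN_pos n₀
    have hmono := NN_mono hn2
    -- bounds for the level
    have hLam : ∀ p ∈ W n, a * (NN n₀ / NN n) ^ kap ≤ f.Lam (Real.log p) ∧
        f.cc (Real.log p) = α - δ := by
      intro p hp
      obtain ⟨hpp, hp1, hp2⟩ := mem_W.mp hp
      have hu0 : 0 < Real.log p := Real.log_pos (by exact_mod_cast hpp.one_lt)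
      have hle : Real.log p ≤ NN f.n0 := by rw [hfn0]; exact hp2.trans hmono
      refine ⟨?_, ?_⟩
      · unfold Frame.Lam
        rw [if_pos hle, hfa, hft, hfn0, hfk]
        have h1 : (NN n₀ / NN n) ^ kap ≤ (NN n₀ / Real.log p) ^ kap := by
          apply Real.rpow_le_rpow (by positivity) _ hkap0.le
          exact div_le_div_of_nonneg_left hNN0.le hu0 hp2
        have h2 : 0 ≤ (NN n₀ / NN n) ^ kap := by positivity
        have h3 : a ≤ a + 1 / t0 ^ 2 := by
          have : 0 ≤ 1 / t0 ^ 2 := by positivity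
          linarith
        calc a * (NN n₀ / NN n) ^ kap ≤ (a + 1 / t0 ^ 2) * (NN n₀ / NN n) ^ kap :=
              mul_le_mul_of_nonneg_right h3 h2
          _ ≤ _ := mul_le_mul_of_nonneg_left h1 (by positivity)
      · unfold Frame.cc
        rw [if_pos hle]
    have hone : 1 ≤ (NN n₀ / NN n) ^ kap := by
      apply Real.one_le_rpow _ hkap0.le
      rw [le_div_iff₀ hNNn]; linarith
    have hlevle : ∀ p ∈ W n, ∀ x : ℝ, 0 ≤ x → ∀ Λ : ℝ, 0 < Λ → Λ ≤ a * (NN n₀ / NN n) ^ kap →
        D p / Real.log p - (α - δ) ≤ x → 0 ≤ lev f D p ∧ lev f D p ≤ x / Λ := by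
      intro p hp x hx Λ hΛ hΛ2 hxx
      obtain ⟨h1, h2⟩ := hLam p hp
      unfold lev
      rw [h2]
      have h3 : Λ ≤ f.Lam (Real.log p) := hΛ2.trans h1
      refine ⟨div_nonneg (le_max_left _ _) (hΛ.le.trans h3), ?_⟩
      calc max 0 (D p / Real.log p - (α - δ)) / f.Lam (Real.log p) ≤ x / f.Lam (Real.log p) :=
            div_le_div_of_nonneg_right (max_le hx hxx) (hΛ.le.trans h3)
        _ ≤ x / Λ := div_le_div_of_nonneg_left hx hΛ h3
    have hyΔ : ∀ p ∈ W n, D p / Real.log p - (α - δ) ≤ Δ := by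
      intro p hp
      have := (y_bounds hD (prime_of_mem_W hp)).2
      linarith
    rcases Nat.lt_or_ge (n + w) n₀ with hlt | hge
    · -- far from n₀ : the width is at least 2Δ
      have hwid : 2 * Δ ≤ a * (NN n₀ / NN n) ^ kap := by
        refine hw'.trans (mul_le_mul_of_nonneg_left ?_ ha0.le)
        apply Real.rpow_le_rpow (NN_pos w).le _ hkap0.le
        rw [le_div_iff₀ hNNn, ← NN_add]
        exact NN_mono (by omega)
      unfold HH
      refine le_trans (Finset.sum_le_sum (g := fun p : ℕ => (1 : ℝ) / p) ?_) hsum1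
      intro p hp
      apply div_le_div_of_nonneg_right _ (Nat.cast_nonneg p)
      obtain ⟨h1, h2⟩ := hlevle p hp Δ hΔ0 (2 * Δ) (by linarith) hwid (hyΔ p hp)
      have h3 : Δ / (2 * Δ) = 1 / 2 := by field_simp
      rw [h3] at h2
      unfold V
      have h4 : lev f D p ^ b ≤ 1 / 2 := by
        calc lev f D p ^ b ≤ (1 / 2 : ℝ) ^ b := pow_le_pow_left₀ h1 h2 b
          _ ≤ (1 / 2 : ℝ) ^ 1 := pow_le_pow_of_le_one (by norm_num) (by norm_num) (by omega)
          _ = 1 / 2 := pow_one _
      have h5 : Real.exp (lev f D p ^ b) ≤ 2 := by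
        calc Real.exp (lev f D p ^ b) ≤ Real.exp (1 / 2) := Real.exp_le_exp.mpr h4
          _ ≤ 2 := by
              have h6 : Real.exp (1 / 2) ^ 2 = Real.exp 1 := by
                rw [← Real.exp_nat_mul]; norm_num
              have h7 := Real.exp_one_lt_d9
              nlinarith [Real.exp_pos (1 / 2 : ℝ)]
      linarith
    · have hwid : a ≤ a * (NN n₀ / NN n) ^ kap := le_mul_of_one_le_right ha0.le hone
      have hr1 := hr n hge hn2
      have hr2 : rho n (fun p => α + δ < D p / Real.log p) ≤ 1 / 2 * Real.exp (-(Δ / a) ^ b) :=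
        hm₁ n (by omega)
      have hsplit : HH b (lev f D) n ≤
          Real.exp ((2 * K₁) ^ b) * rho n (fun p => α - δ < D p / Real.log p) +
          Real.exp ((Δ / a) ^ b) * rho n (fun p => α + δ < D p / Real.log p) := by
        unfold HH rho
        rw [Finset.mul_sum, Finset.mul_sum, Finset.sum_filter, Finset.sum_filter,
          ← Finset.sum_add_distrib]
        apply Finset.sum_le_sum
        intro p hp
        have hpp := prime_of_mem_W hp
        have hp0 : (0 : ℝ) < p := by exact_mod_cast hpp.pos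
        by_cases hy1 : α - δ < D p / Real.log p
        · rw [if_pos hy1]
          by_cases hy2 : α + δ < D p / Real.log p
          · rw [if_pos hy2]
            obtain ⟨h1, h2⟩ := hlevle p hp Δ hΔ0 a ha0 hwid (hyΔ p hp)
            have h3 : V b (lev f D p) ≤ Real.exp ((Δ / a) ^ b) := by
              unfold V
              have : Real.exp (lev f D p ^ b) ≤ Real.exp ((Δ / a) ^ b) :=
                Real.exp_le_exp.mpr (pow_le_pow_left₀ h1 h2 b)
              linarith
            have h4 : 0 ≤ Real.exp ((2 * K₁) ^ b) * (1 / (p : ℝ)) := by positivity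
            have h5 : V b (lev f D p) / p ≤ Real.exp ((Δ / a) ^ b) * (1 / (p : ℝ)) := by
              rw [mul_one_div]
              exact div_le_div_of_nonneg_right h3 hp0.le
            linarith
          · rw [if_neg hy2, add_zero, mul_one_div]
            apply div_le_div_of_nonneg_right _ hp0.le
            obtain ⟨h1, h2⟩ := hlevle p hp (2 * δ) (by linarith) a ha0 hwid
              (by rw [not_lt] at hy2; linarith)
            have h3 : 2 * δ / a = 2 * K₁ := by
              rw [← haK]; field_simp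
            rw [h3] at h2
            unfold V
            have : Real.exp (lev f D p ^ b) ≤ Real.exp ((2 * K₁) ^ b) :=
              Real.exp_le_exp.mpr (pow_le_pow_left₀ h1 h2 b)
            linarith
        · have hy2 : ¬ (α + δ < D p / Real.log p) := by
            rw [not_lt] at hy1 ⊢; linarith
          rw [if_neg hy1, if_neg hy2, add_zero]
          obtain ⟨h1, h2⟩ := hlevle p hp 0 le_rfl a ha0 hwid (by rw [not_lt] at hy1; linarith)
          rw [zero_div] at h2
          have h3 : lev f D p = 0 := le_antisymm h2 h1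
          rw [h3]
          unfold V
          rw [zero_pow hb0, Real.exp_zero]
          simp
      refine hsplit.trans ?_
      have h1 : Real.exp ((2 * K₁) ^ b) * rho n (fun p => α - δ < D p / Real.log p) ≤ 1 / 2 := by
        calc _ ≤ Real.exp ((2 * K₁) ^ b) * (1 / 2 * Real.exp (-(2 * K₁) ^ b)) :=
              mul_le_mul_of_nonneg_left hr1 (Real.exp_pos _).le
          _ = 1 / 2 * (Real.exp ((2 * K₁) ^ b) * Real.exp (-(2 * K₁) ^ b)) := by ring
          _ = 1 / 2 := by rw [← Real.exp_add]; simp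
      have h2 : Real.exp ((Δ / a) ^ b) * rho n (fun p => α + δ < D p / Real.log p) ≤ 1 / 2 := by
        calc _ ≤ Real.exp ((Δ / a) ^ b) * (1 / 2 * Real.exp (-(Δ / a) ^ b)) :=
              mul_le_mul_of_nonneg_left hr2 (Real.exp_pos _).le
          _ = 1 / 2 * (Real.exp ((Δ / a) ^ b) * Real.exp (-(Δ / a) ^ b)) := by ring
          _ = 1 / 2 := by rw [← Real.exp_add]; simp
      linarith

end

end Pool.Agent.NTot
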