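import Pool.Agent.NTot.PrimesConc
import Pool.Agent.NTot.Basic

/-!
# M17: from primes to integers
-/

set_option autoImplicit false

namespace Pool.Agent.NTot

open Finset Filter Topology

noncomputable section

/-- the weight `log p |y_p - c|` -/
def nw (D : ℕ → ℝ) (c : ℝ) (p : ℕ) : ℝ := Real.log p * |D p / Real.log p - c|

theorem nw_nonneg (D : ℕ → ℝ) (c : ℝ) (p : ℕ) : 0 ≤ nw D c p :=
  mul_nonneg (Real.log_natCast_nonneg p) (abs_nonneg _)

theorem nw_eq (D : ℕ → ℝ) (c : ℝ) {p : ℕ} (hp : 2 ≤ p) :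
    |D p - c * Real.log p| = nw D c p := by
  have h1 : (1 : ℝ) < p := by exact_mod_cast (by omega : 1 < p)
  have h : 0 < Real.log p := Real.log_pos h1
  unfold nw
  conv_rhs => rw [← abs_of_pos h, ← abs_mul, abs_of_pos h]
  congr 1
  field_simp

/-- the multiplicity sum -/
def Tn (D : ℕ → ℝ) (c : ℝ) (x n : ℕ) : ℝ :=
  ∑ p ∈ PZ x, ∑ a ∈ Ioc 0 x, if p ^ a ∣ n then nw D c p else 0

theorem mem_PZ' {z l : ℕ} : l ∈ PZ z ↔ l.Prime ∧ l ≤ z := by
  unfold PZ
  rw [mem_filter, mem_Icc]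
  constructor
  · rintro ⟨⟨_, h1⟩, h2⟩; exact ⟨h2, h1⟩
  · rintro ⟨h1, h2⟩; exact ⟨⟨h1.one_le, h2⟩, h1⟩

theorem Tn_step (D : ℕ → ℝ) (c : ℝ) (x p m : ℕ) (hp : p.Prime) (hm : m ≠ 0) (h : p * m ≤ x) :
    Tn D c x m + nw D c p ≤ Tn D c x (p * m) := by
  classical
  set v := m.factorization p with hv
  have hv1 : p ^ (v + 1) ∣ p * m := by
    rw [pow_succ']
    exact mul_dvd_mul_left p (Nat.ordProj_dvd m p)
  have hv2 : ¬ p ^ (v + 1) ∣ m := Nat.pow_succ_factorization_not_dvd hm hp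
  have hpm : p * m ≠ 0 := mul_ne_zero hp.ne_zero hm
  have hvx : v + 1 ≤ x := by
    have h1 : p ^ (v + 1) ≤ p * m := Nat.le_of_dvd (Nat.pos_of_ne_zero hpm) hv1
    have h2 : v + 1 < p ^ (v + 1) := Nat.lt_pow_self hp.one_lt
    omega
  have hpx : p ∈ PZ x := by
    rw [mem_PZ']
    refine ⟨hp, ?_⟩
    have : 1 ≤ m := Nat.pos_of_ne_zero hm
    nlinarith
  have hvmem : v + 1 ∈ Ioc 0 x := by rw [mem_Ioc]; omega
  unfold Tn
  rw [← Finset.add_sum_erase _ _ hpx, ← Finset.add_sum_erase (PZ x)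
    (fun q => ∑ a ∈ Ioc 0 x, if q ^ a ∣ p * m then nw D c q else 0) hpx]
  have e1 : ∑ q ∈ (PZ x).erase p, ∑ a ∈ Ioc 0 x, (if q ^ a ∣ m then nw D c q else 0) ≤
      ∑ q ∈ (PZ x).erase p, ∑ a ∈ Ioc 0 x, (if q ^ a ∣ p * m then nw D c q else 0) := by
    refine Finset.sum_le_sum fun q _ => Finset.sum_le_sum fun a _ => ?_
    split_ifs with h1 h2
    · exact le_rfl
    · exact absurd (Dvd.dvd.mul_left h1 p) h2
    · exact nw_nonneg _ _ _
    · exact le_rfl
  have e2 : ∑ a ∈ Ioc 0 x, (if p ^ a ∣ m then nw D c p else 0) + nw D c p ≤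
      ∑ a ∈ Ioc 0 x, (if p ^ a ∣ p * m then nw D c p else 0) := by
    rw [← Finset.add_sum_erase _ _ hvmem, ← Finset.add_sum_erase (Ioc 0 x)
      (fun a => if p ^ a ∣ p * m then nw D c p else 0) hvmem]
    rw [if_neg hv2, if_pos hv1]
    have : ∑ a ∈ (Ioc 0 x).erase (v + 1), (if p ^ a ∣ m then nw D c p else 0) ≤
        ∑ a ∈ (Ioc 0 x).erase (v + 1), (if p ^ a ∣ p * m then nw D c p else 0) := by
      refine Finset.sum_le_sum fun a _ => ?_
      split_ifs with h1 h2
      · exact le_rfl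
      · exact absurd (Dvd.dvd.mul_left h1 p) h2
      · exact nw_nonneg _ _ _
      · exact le_rfl
    linarith
  linarith

theorem dev_le_Tn {Δ D₂ : ℝ} {D : ℕ → ℝ} (hD : AddFn Δ D₂ D) (c : ℝ) (x : ℕ) (n : ℕ) :
    n ≠ 0 → n ≤ x → |D n - c * Real.log n| ≤ Tn D c x n := by
  induction n using induction_on_primes with
  | zero => intro h; exact absurd rfl h
  | one =>
    intro _ _
    have h1 : D 1 = 0 := by
      have := hD.mul 1 1 one_ne_zero one_ne_zero
      rw [mul_one] at this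
      linarith
    have h2 : |D 1 - c * Real.log ((1 : ℕ) : ℝ)| = 0 := by
      rw [h1]; simp
    rw [h2]
    exact Finset.sum_nonneg fun p _ => Finset.sum_nonneg fun a _ => by
      split_ifs
      · exact nw_nonneg _ _ _
      · exact le_rfl
  | prime_mul p a hp ih =>
    intro hn hx
    have hpp : p.Prime := Nat.prime_iff.mpr hp.prime
    have ha : a ≠ 0 := right_ne_zero_of_mul hn
    have hax : a ≤ x := by
      have : 1 ≤ p := hpp.one_le
      nlinarith
    have h1 := ih ha hax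
    have h2 := Tn_step D c x p a hpp ha hx
    have h3 : D (p * a) = D p + D a := hD.mul p a hpp.ne_zero ha
    have h4 : Real.log ((p * a : ℕ) : ℝ) = Real.log p + Real.log a := by
      push_cast
      exact Real.log_mul (by exact_mod_cast hpp.ne_zero) (by exact_mod_cast ha)
    have h5 : |D (p * a) - c * Real.log ((p * a : ℕ) : ℝ)| ≤
        |D p - c * Real.log p| + |D a - c * Real.log a| := by
      rw [h3, h4]
      refine le_trans (le_of_eq ?_) (abs_add_le _ _)
      congr 1; ring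
    rw [nw_eq D c hpp.two_le] at h5
    linarith

theorem sum_Tn_le (D : ℕ → ℝ) (c : ℝ) (x : ℕ) :
    ∑ n ∈ Ioc 0 x, Tn D c x n ≤ 2 * x * ∑ p ∈ PZ x, nw D c p / p := by
  classical
  unfold Tn
  rw [Finset.sum_comm, Finset.mul_sum]
  refine Finset.sum_le_sum fun p hp => ?_
  rw [Finset.sum_comm]
  have hpp := (mem_PZ'.mp hp).1
  have hp2 : (2 : ℝ) ≤ p := by exact_mod_cast hpp.two_le
  have hp0 : (0 : ℝ) < p := by linarith
  have hw := nw_nonneg D c p
  have h1 : ∀ a ∈ Ioc 0 x, ∑ n ∈ Ioc 0 x, (if p ^ a ∣ n then nw D c p else 0) ≤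
      nw D c p * x / p * (1 / 2) ^ (a - 1) := by
    intro a ha
    rw [mem_Ioc] at ha
    rw [← Finset.sum_filter, Finset.sum_const, nsmul_eq_mul, Nat.Ioc_filter_dvd_card_eq_div]
    have h2 : ((x / p ^ a : ℕ) : ℝ) ≤ x / p ^ a := by
      have := @Nat.cast_div_le ℝ _ _ _ x (p ^ a)
      push_cast at this
      exact this
    have h3 : (p : ℝ) ^ a = p * p ^ (a - 1) := by
      rw [← pow_succ']; congr 1; omega
    have h4 : (x : ℝ) / p ^ a ≤ x / p * (1 / 2) ^ (a - 1) := by
      rw [h3, ← div_div]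
      rw [div_eq_mul_inv ((x : ℝ) / p)]
      refine mul_le_mul_of_nonneg_left ?_ (by positivity)
      rw [one_div, inv_pow]
      exact inv_anti₀ (by positivity) (pow_le_pow_left₀ (by norm_num) hp2 _)
    calc ((x / p ^ a : ℕ) : ℝ) * nw D c p ≤ (x / p * (1 / 2) ^ (a - 1)) * nw D c p :=
          mul_le_mul_of_nonneg_right (h2.trans h4) hw
      _ = nw D c p * x / p * (1 / 2) ^ (a - 1) := by ring
  refine (Finset.sum_le_sum h1).trans ?_
  rw [← Finset.mul_sum]
  have h5 : ∑ a ∈ Ioc 0 x, (1 / 2 : ℝ) ^ (a - 1) ≤ 2 := by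
    have e : Ioc 0 x = (range x).image (fun i => i + 1) := by
      ext i
      rw [mem_Ioc, mem_image]
      constructor
      · intro h; exact ⟨i - 1, mem_range.mpr (by omega), by omega⟩
      · rintro ⟨j, hj, rfl⟩; rw [mem_range] at hj; omega
    rw [e, Finset.sum_image (by intro i _ j _ h; simpa using h)]
    simpa using sum_geometric_two_le x
  calc nw D c p * x / p * ∑ a ∈ Ioc 0 x, (1 / 2 : ℝ) ^ (a - 1) ≤ nw D c p * x / p * 2 :=
        mul_le_mul_of_nonneg_left h5 (by positivity)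
    _ = 2 * x * (nw D c p / p) := by ring

theorem sum_NN_le (I : ℕ) : ∑ i ∈ range (I + 1), NN i ≤ 9 * NN I := by
  have h : ∀ I, ∑ i ∈ range (I + 1), NN i ≤ 9 * NN I - 8 := by
    intro I
    induction I with
    | zero => simp [NN]; norm_num
    | succ I ih =>
      rw [Finset.sum_range_succ, NN_succ]
      unfold lam at *
      linarith
  have := h I
  linarith

/-- smallness of the prime sum -/
theorem prime_sum_small {Δ D₂ : ℝ} (hΔ : 1 ≤ Δ) {D : ℕ → ℝ} (hD : AddFn Δ D₂ D) (c : ℝ)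
    (hc : ∀ ε : ℝ, 0 < ε → Tendsto (fun n => rho n (fun p => ε < |D p / Real.log p - c|))
      atTop (𝓝 0)) (δ : ℝ) (hδ : 0 < δ) :
    ∃ x₀ : ℕ, ∀ x, x₀ ≤ x → ∑ p ∈ PZ x, nw D c p / p ≤ δ * Real.log x := by
  classical
  set B : ℝ := Δ + |c| with hB
  have hB0 : 0 < B := by
    have := abs_nonneg c
    linarith
  have hg : ∀ p : ℕ, p.Prime → |D p / Real.log p - c| ≤ B := by
    intro p hp
    have h1 : (1 : ℝ) < p := by exact_mod_cast hp.one_lt
    have h : 0 < Real.log p := Real.log_pos h1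
    have h2 : 0 ≤ D p / Real.log p := div_nonneg (hD.nonneg p hp.one_le) h.le
    have h3 : D p / Real.log p ≤ Δ := by
      rw [div_le_iff₀ h]; exact hD.le_log p hp.one_le
    have h4 : |D p / Real.log p| ≤ Δ := by rw [abs_of_nonneg h2]; exact h3
    calc |D p / Real.log p - c| ≤ |D p / Real.log p| + |c| := abs_sub _ _
      _ ≤ B := by linarith
  set ε : ℝ := δ / 50 with hε
  have hε0 : 0 < ε := by positivity
  obtain ⟨n₁, hn₁⟩ := rho_le_one
  have hev := (hc ε hε0).eventually (gt_mem_nhds (show (0 : ℝ) < ε / B by positivity))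
  obtain ⟨n₂, hn₂⟩ := eventually_atTop.mp hev
  set i₀ := max n₁ n₂ with hi₀
  -- one window
  have hwin : ∀ i, i₀ ≤ i → ∑ p ∈ W i, nw D c p / p ≤ 2 * ε * NN i := by
    intro i hi
    have h1 := hn₁ i (le_trans (le_max_left _ _) hi)
    have h2 := (hn₂ i (le_trans (le_max_right _ _) hi)).le
    have h3 : ∀ p ∈ W i, nw D c p / p ≤ NN i * (ε * (1 / p) +
        B * (if ε < |D p / Real.log p - c| then (1 : ℝ) / p else 0)) := by
      intro p hp
      rw [mem_W] at hp
      obtain ⟨hpp, _, hlog⟩ := hp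
      have hp0 : (0 : ℝ) < p := by exact_mod_cast hpp.pos
      have hl0 : 0 ≤ Real.log p := Real.log_natCast_nonneg p
      have hb := hg p hpp
      have hgn := abs_nonneg (D p / Real.log p - c)
      have h4 : |D p / Real.log p - c| * (1 / p) ≤ ε * (1 / p) +
          B * (if ε < |D p / Real.log p - c| then (1 : ℝ) / p else 0) := by
        have hp1 : (0 : ℝ) < 1 / p := by positivity
        split_ifs with h
        · nlinarith
        · push Not at h
          nlinarith
      have h5 : nw D c p / p = Real.log p * (|D p / Real.log p - c| * (1 / p)) := by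
        unfold nw; ring
      rw [h5]
      calc Real.log p * (|D p / Real.log p - c| * (1 / p))
          ≤ NN i * (|D p / Real.log p - c| * (1 / p)) :=
            mul_le_mul_of_nonneg_right hlog (by positivity)
        _ ≤ _ := mul_le_mul_of_nonneg_left h4 (NN_pos i).le
    refine (Finset.sum_le_sum h3).trans ?_
    rw [← Finset.mul_sum, Finset.sum_add_distrib, ← Finset.mul_sum, ← Finset.mul_sum,
      ← Finset.sum_filter]
    have h6 : ∑ p ∈ (W i).filter (fun p => ε < |D p / Real.log p - c|), (1 : ℝ) / p ≤ ε / B := by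
      have e : rho i (fun p => ε < |D p / Real.log p - c|) =
        ∑ p ∈ (W i).filter (fun p => ε < |D p / Real.log p - c|), (1 : ℝ) / p := by
        unfold rho
        refine Finset.sum_congr ?_ (fun _ _ => rfl)
        ext p; simp
      rw [← e]; exact h2
    have h7 : B * ∑ p ∈ (W i).filter (fun p => ε < |D p / Real.log p - c|), (1 : ℝ) / p ≤ ε := by
      calc B * ∑ p ∈ (W i).filter (fun p => ε < |D p / Real.log p - c|), (1 : ℝ) / p
          ≤ B * (ε / B) := mul_le_mul_of_nonneg_left h6 hB0.le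
        _ = ε := by field_simp
    have h8 : ε * ∑ p ∈ W i, (1 : ℝ) / p ≤ ε := by nlinarith
    calc NN i * (ε * ∑ p ∈ W i, (1 : ℝ) / p +
          B * ∑ p ∈ (W i).filter (fun p => ε < |D p / Real.log p - c|), (1 : ℝ) / p)
        ≤ NN i * (ε + ε) := mul_le_mul_of_nonneg_left (add_le_add h8 h7) (NN_pos i).le
      _ = 2 * ε * NN i := by ring
  -- the constant from small primes
  set K : ℝ := ∑ p ∈ PZ ⌊Real.exp (NN i₀)⌋₊, nw D c p / p with hK
  have hlogt : Tendsto (fun x : ℕ => Real.log x) atTop atTop :=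
    Real.tendsto_log_atTop.comp tendsto_natCast_atTop_atTop
  obtain ⟨x₁, hx₁⟩ := eventually_atTop.mp (hlogt.eventually_ge_atTop (2 * K / δ + 2))
  refine ⟨x₁, fun x hx => ?_⟩
  have hlx := hx₁ x hx
  have hK0 : 0 ≤ K := Finset.sum_nonneg fun p _ =>
    div_nonneg (nw_nonneg _ _ _) (Nat.cast_nonneg p)
  have hlx2 : 2 ≤ Real.log x := by
    have : 0 ≤ 2 * K / δ := by positivity
    linarith
  -- choose I
  have htN : Tendsto (fun n : ℕ => NN n) atTop atTop :=
    tendsto_pow_atTop_atTop_of_one_lt one_lt_lam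
  have hex : ∃ I, Real.log x ≤ NN I := (htN.eventually_ge_atTop (Real.log x)).exists
  set I := Nat.find hex with hI
  have hI1 : Real.log x ≤ NN I := Nat.find_spec hex
  have hI0 : 0 < I := by
    by_contra h0
    have h1 : I = 0 := by omega
    rw [h1] at hI1
    have : NN 0 = 1 := by unfold NN; simp
    rw [this] at hI1
    linarith
  have hI2 : NN I ≤ lam * Real.log x := by
    have h1 := not_le.mp (Nat.find_min hex (m := I - 1) (by omega))
    have h2 : NN I = lam * NN (I - 1) := by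
      rw [← NN_succ]; congr 1; omega
    rw [h2]
    exact mul_le_mul_of_nonneg_left h1.le lam_pos.le
  have hsub : PZ x ⊆ PZ ⌊Real.exp (NN i₀)⌋₊ ∪ ((range (I + 1)).filter (fun i => i₀ ≤ i)).biUnion W
      := by
    intro p hp
    rw [mem_PZ'] at hp
    obtain ⟨hpp, hpx⟩ := hp
    rw [mem_union]
    by_cases h : p ≤ ⌊Real.exp (NN i₀)⌋₊
    · left; rw [mem_PZ']; exact ⟨hpp, h⟩
    · right
      have h1 : ¬ Real.log p ≤ NN i₀ := fun h2 => h (le_exp_of_log_le hpp.pos h2)
      push Not at h1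
      have h3 : Real.log p ≤ NN I := by
        refine le_trans ?_ hI1
        exact Real.log_le_log (by exact_mod_cast hpp.pos) (by exact_mod_cast hpx)
      obtain ⟨i, hi, hW⟩ := exists_window hpp ((one_le_NN i₀).trans h1.le) h3
      rw [mem_biUnion]
      refine ⟨i, ?_, hW⟩
      rw [mem_filter, mem_range]
      refine ⟨by omega, ?_⟩
      by_contra h4
      have h5 : NN i ≤ NN i₀ := NN_mono (by omega)
      have h6 := (mem_W.mp hW).2.2
      linarith
  have hnn : ∀ p : ℕ, 0 ≤ nw D c p / p := fun p =>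
    div_nonneg (nw_nonneg _ _ _) (Nat.cast_nonneg p)
  have h9 : ∑ p ∈ PZ x, nw D c p / p ≤ K +
      ∑ i ∈ (range (I + 1)).filter (fun i => i₀ ≤ i), ∑ p ∈ W i, nw D c p / p := by
    refine (Finset.sum_le_sum_of_subset_of_nonneg hsub (fun p _ _ => hnn p)).trans ?_
    have h10 : ∑ p ∈ ((range (I + 1)).filter (fun i => i₀ ≤ i)).biUnion W, nw D c p / (p : ℝ) =
        ∑ i ∈ (range (I + 1)).filter (fun i => i₀ ≤ i), ∑ p ∈ W i, nw D c p / p := by
      rw [Finset.sum_biUnion]
      intro i _ j _ hij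
      exact W_disjoint hij
    have h11 := Finset.sum_union_inter (s₁ := PZ ⌊Real.exp (NN i₀)⌋₊)
      (s₂ := ((range (I + 1)).filter (fun i => i₀ ≤ i)).biUnion W)
      (f := fun p => nw D c p / (p : ℝ))
    have h12 : 0 ≤ ∑ p ∈ PZ ⌊Real.exp (NN i₀)⌋₊ ∩
        ((range (I + 1)).filter (fun i => i₀ ≤ i)).biUnion W, nw D c p / (p : ℝ) :=
      Finset.sum_nonneg fun p _ => hnn p
    linarith
  have h13 : ∑ i ∈ (range (I + 1)).filter (fun i => i₀ ≤ i), ∑ p ∈ W i, nw D c p / p ≤
      2 * ε * (9 * NN I) := by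
    calc ∑ i ∈ (range (I + 1)).filter (fun i => i₀ ≤ i), ∑ p ∈ W i, nw D c p / p
        ≤ ∑ i ∈ (range (I + 1)).filter (fun i => i₀ ≤ i), 2 * ε * NN i :=
          Finset.sum_le_sum fun i hi => hwin i (mem_filter.mp hi).2
      _ ≤ ∑ i ∈ range (I + 1), 2 * ε * NN i :=
          Finset.sum_le_sum_of_subset_of_nonneg (filter_subset _ _) (fun i _ _ => by
            have := (NN_pos i).le
            positivity)
      _ = 2 * ε * ∑ i ∈ range (I + 1), NN i := by rw [Finset.mul_sum]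
      _ ≤ 2 * ε * (9 * NN I) := mul_le_mul_of_nonneg_left (sum_NN_le I) (by positivity)
  have h14 : 2 * ε * (9 * NN I) ≤ δ / 2 * Real.log x := by
    have h15 : NN I ≤ 9 / 8 * Real.log x := by
      have := hI2
      unfold lam at this
      exact this
    rw [hε]
    nlinarith
  have h16 : K ≤ δ / 2 * Real.log x := by
    have h17 : 2 * K / δ ≤ Real.log x := by linarith
    rw [div_le_iff₀ hδ] at h17
    linarith
  linarith

theorem normal_order (Δ D₂ : ℝ) (hΔ : 1 ≤ Δ) (hD₂ : 0 ≤ D₂) (D : ℕ → ℝ) (hD : AddFn Δ D₂ D) :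
    ∃ c : ℝ, ∀ ε : ℝ, 0 < ε →
      Tendsto (fun x : ℕ => (((range x).filter
        (fun n : ℕ => ε < |D n / Real.log n - c|)).card : ℝ) / x) atTop (𝓝 0) := by
  classical
  obtain ⟨c, hc⟩ := primes_conc Δ D₂ hΔ hD₂ D hD
  refine ⟨c, fun ε hε => ?_⟩
  rw [Metric.tendsto_atTop]
  intro η hη
  -- constants
  obtain ⟨x₀, hx₀⟩ := prime_sum_small hΔ hD c hc (η * ε / 16) (by positivity)
  have ht1 : Tendsto (fun x : ℕ => (x : ℝ)) atTop atTop := tendsto_natCast_atTop_atTop
  obtain ⟨x₁, hx₁⟩ := eventually_atTop.mp (ht1.eventually_ge_atTop ((4 / η) ^ 2 + 4))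
  obtain ⟨x₂, hx₂⟩ := eventually_atTop.mp (ht1.eventually_ge_atTop (8 / η))
  refine ⟨max x₀ (max x₁ x₂), fun x hx => ?_⟩
  have hxa : x₀ ≤ x := le_trans (le_max_left _ _) hx
  have hxb : x₁ ≤ x := le_trans (le_trans (le_max_left _ _) (le_max_right _ _)) hx
  have hxc : x₂ ≤ x := le_trans (le_trans (le_max_right _ _) (le_max_right _ _)) hx
  have hS := hx₀ x hxa
  have hX1 := hx₁ x hxb
  have hX2 := hx₂ x hxc
  have hxpos : (0 : ℝ) < x := by
    have : (0 : ℝ) ≤ (4 / η) ^ 2 := sq_nonneg _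
    linarith
  have hx4 : (4 : ℝ) ≤ x := by
    have : (0 : ℝ) ≤ (4 / η) ^ 2 := sq_nonneg _
    linarith
  have hlog : 0 < Real.log x := Real.log_pos (by linarith)
  set Bad := (range x).filter (fun n : ℕ => ε < |D n / Real.log n - c|) with hBad
  -- total deviation
  have htot : ∑ n ∈ Ioc 0 x, |D n - c * Real.log n| ≤ 2 * x * (η * ε / 16 * Real.log x) := by
    calc ∑ n ∈ Ioc 0 x, |D n - c * Real.log n| ≤ ∑ n ∈ Ioc 0 x, Tn D c x n := by
          refine Finset.sum_le_sum fun n hn => ?_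
          rw [mem_Ioc] at hn
          exact dev_le_Tn hD c x n (by omega) hn.2
      _ ≤ 2 * x * ∑ p ∈ PZ x, nw D c p / p := sum_Tn_le D c x
      _ ≤ 2 * x * (η * ε / 16 * Real.log x) := mul_le_mul_of_nonneg_left hS (by positivity)
  -- split
  have hsplit : Bad ⊆ range (Nat.sqrt x + 1) ∪ Bad.filter (fun n => Nat.sqrt x < n) := by
    intro n hn
    rw [mem_union]
    by_cases h : Nat.sqrt x < n
    · right; exact mem_filter.mpr ⟨hn, h⟩
    · left; rw [mem_range]; omega
  have hcard : (Bad.card : ℝ) ≤ (Nat.sqrt x + 1 : ℝ) +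
      ((Bad.filter (fun n => Nat.sqrt x < n)).card : ℝ) := by
    have h1 := (Finset.card_le_card hsplit).trans (Finset.card_union_le _ _)
    rw [card_range] at h1
    exact_mod_cast h1
  have hmark : ((Bad.filter (fun n => Nat.sqrt x < n)).card : ℝ) * (ε * (Real.log x / 2)) ≤
      ∑ n ∈ Ioc 0 x, |D n - c * Real.log n| := by
    have h1 : Bad.filter (fun n => Nat.sqrt x < n) ⊆ Ioc 0 x := by
      intro n hn
      rw [mem_filter, hBad, mem_filter, mem_range] at hn
      rw [mem_Ioc]; omega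
    refine le_trans ?_ (Finset.sum_le_sum_of_subset_of_nonneg h1 (fun _ _ _ => abs_nonneg _))
    rw [← nsmul_eq_mul, ← Finset.sum_const]
    refine Finset.sum_le_sum fun n hn => ?_
    rw [mem_filter, hBad, mem_filter, mem_range] at hn
    obtain ⟨⟨hnx, hdev⟩, hsq⟩ := hn
    have h2 : x < n * n := Nat.sqrt_lt.mp hsq
    have hn2 : 2 ≤ n := by
      by_contra h
      have : n ≤ 1 := by omega
      have h5 : n * n ≤ 1 := by nlinarith
      have h6 : 4 ≤ x := by exact_mod_cast hx4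
      omega
    have hnpos : (0 : ℝ) < n := by exact_mod_cast (by omega : 0 < n)
    have h3 : Real.log x / 2 ≤ Real.log n := by
      have h4 : Real.log x ≤ Real.log ((n : ℝ) * n) :=
        Real.log_le_log hxpos (by exact_mod_cast h2.le)
      rw [Real.log_mul hnpos.ne' hnpos.ne'] at h4
      linarith
    rw [nw_eq D c hn2]
    unfold nw
    have hln : 0 ≤ Real.log n := Real.log_natCast_nonneg n
    calc ε * (Real.log x / 2) = (Real.log x / 2) * ε := by ring
      _ ≤ Real.log n * |D n / Real.log n - c| :=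
        mul_le_mul h3 hdev.le hε.le hln
  have hmark2 : ((Bad.filter (fun n => Nat.sqrt x < n)).card : ℝ) ≤ η / 4 * x := by
    have h1 := hmark.trans htot
    have h2 : (0 : ℝ) < ε * (Real.log x / 2) := by positivity
    have h3 : 2 * x * (η * ε / 16 * Real.log x) = (η / 4 * x) * (ε * (Real.log x / 2)) := by ring
    rw [h3] at h1
    exact le_of_mul_le_mul_right h1 h2
  have hsqrt : (Nat.sqrt x : ℝ) ≤ η / 4 * x := by
    have h1 : (Nat.sqrt x : ℝ) ≤ Real.sqrt x := Real.nat_sqrt_le_real_sqrt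
    refine h1.trans ?_
    have h2 : 4 / η ≤ Real.sqrt x := by
      rw [Real.le_sqrt' (by positivity)]
      linarith
    have h3 : Real.sqrt x * Real.sqrt x = x := Real.mul_self_sqrt hxpos.le
    have h4 : 0 ≤ Real.sqrt x := Real.sqrt_nonneg x
    have h5 : 1 ≤ η / 4 * Real.sqrt x := by
      have : η / 4 * (4 / η) ≤ η / 4 * Real.sqrt x := mul_le_mul_of_nonneg_left h2 (by positivity)
      have e : η / 4 * (4 / η) = 1 := by field_simp
      linarith
    calc Real.sqrt x = 1 * Real.sqrt x := by ring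
      _ ≤ (η / 4 * Real.sqrt x) * Real.sqrt x := mul_le_mul_of_nonneg_right h5 h4
      _ = η / 4 * x := by rw [mul_assoc, h3]
  have hone : (1 : ℝ) ≤ η / 8 * x := by
    rw [div_le_iff₀ hη] at hX2
    linarith
  have hfin : (Bad.card : ℝ) < η * x := by
    have : 0 < η * x := by positivity
    linarith
  rw [Real.dist_eq, sub_zero, abs_of_nonneg (by positivity), div_lt_iff₀ hxpos]
  exact hfin

end

end Pool.Agent.NTot
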