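import Pool.Agent.NTot.SL
import Pool.Agent.NTot.Basic

/-!
# Module M9d: sieving `p - 1` by a set of primes
-/

set_option autoImplicit false

namespace Pool.Agent.NTot

open Finset Filter Topology

noncomputable section

/-- the sieved classes -/
def ssOm (B : Finset ℕ) (l : ℕ) : Finset ℕ := if l ∈ B then {0, 1} else {0}

theorem ssOm_card (B : Finset ℕ) (l : ℕ) : (ssOm B l).card = if l ∈ B then 2 else 1 := by
  unfold ssOm
  split_ifs <;> rfl

theorem ssProd (z : ℕ) (B : Finset ℕ) (hB : ∀ q ∈ B, q.Prime ∧ q ≤ z) :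
    ∏ l ∈ PZ z, (1 - ((ssOm B l).card : ℝ) / l) ≤
      (∏ l ∈ PZ z, (1 - (1 : ℝ) / l)) * Real.exp (-∑ q ∈ B, (1 : ℝ) / q) := by
  have h1 : ∀ l ∈ PZ z, (2 : ℝ) ≤ l := fun l hl => by exact_mod_cast (mem_PZ.mp hl).1.two_le
  have hstep : ∏ l ∈ PZ z, (1 - ((ssOm B l).card : ℝ) / l) ≤
      ∏ l ∈ PZ z, ((1 - (1 : ℝ) / l) * (if l ∈ B then (1 - (1 : ℝ) / l) else 1)) := by
    apply Finset.prod_le_prod
    · intro l hl
      have h2 := h1 l hl
      rw [ssOm_card]
      have h3 : (((if l ∈ B then 2 else 1 : ℕ) : ℝ)) ≤ 2 := by split_ifs <;> norm_num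
      rw [sub_nonneg, div_le_one (by linarith)]
      linarith
    · intro l hl
      have h2 := h1 l hl
      rw [ssOm_card]
      split_ifs with h
      · push_cast
        have h3 : (0 : ℝ) ≤ (1 / l) ^ 2 := sq_nonneg _
        have e : (2 : ℝ) / l = 2 * (1 / l) := by ring
        rw [e]
        nlinarith
      · push_cast
        rw [mul_one]
  refine hstep.trans ?_
  rw [Finset.prod_mul_distrib]
  apply mul_le_mul_of_nonneg_left
  · rw [← Finset.prod_filter]
    have e : (PZ z).filter (fun l => l ∈ B) = B := by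
      ext l
      rw [mem_filter, mem_PZ]
      constructor
      · exact fun h => h.2
      · exact fun h => ⟨hB l h, h⟩
    rw [e]
    exact prod_one_sub_le_exp B (fun l hl => (hB l hl).1.one_lt.le)
  · apply Finset.prod_nonneg
    intro l hl
    have h2 := h1 l hl
    rw [sub_nonneg, div_le_one (by linarith)]
    linarith

theorem ssBlock : ∃ C : ℝ, 1 ≤ C ∧ ∀ (X z : ℕ) (B : Finset ℕ), 2 ≤ z → 1 ≤ X →
    C * Real.log z ≤ Real.log X → (∀ q ∈ B, q.Prime ∧ q ≤ z) →
    (((Ioc X (2 * X)).filter (fun p => p.Prime ∧ ∀ q ∈ B, ¬ q ∣ p - 1)).card : ℝ) ≤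
      C * X / Real.log z * Real.exp (-∑ q ∈ B, (1 : ℝ) / q) := by
  obtain ⟨C₀, hC₀, hSL⟩ := SL
  obtain ⟨C₁, hC₁, hM⟩ := mertens_prod
  refine ⟨4 * C₀ * C₁, by nlinarith, ?_⟩
  intro X z B hz hX hlog hB
  have hz2 : (2 : ℝ) ≤ z := by exact_mod_cast hz
  have hlz : 0 < Real.log z := Real.log_pos (by linarith)
  have hC01 : C₀ ≤ C₀ * C₁ := by nlinarith
  have hlog2 : C₀ * (2 : ℕ) * Real.log z ≤ Real.log X := by
    refine le_trans ?_ hlog
    apply mul_le_mul_of_nonneg_right _ hlz.le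
    push_cast
    nlinarith
  have hzX : Real.log z ≤ Real.log X := by
    refine le_trans ?_ hlog2
    push_cast
    nlinarith
  have hX0 : (0 : ℝ) < X := by exact_mod_cast hX
  have hzX' : z ≤ X := by
    have := (Real.log_le_log_iff (by linarith) hX0).mp hzX
    exact_mod_cast this
  have h := hSL 2 X X z (ssOm B) (by norm_num) hz hX hlog2 (by
    intro l hl
    have hl' := (mem_PZ.mp hl).1
    refine ⟨?_, ?_⟩
    · unfold ssOm
      intro s hs
      rw [mem_range]
      have := hl'.two_le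
      split_ifs at hs with hlB
      · rw [mem_insert, mem_singleton] at hs
        omega
      · rw [mem_singleton] at hs
        omega
    · rw [ssOm_card]; split_ifs <;> norm_num)
  have hcard : (((Ioc X (2 * X)).filter (fun p => p.Prime ∧ ∀ q ∈ B, ¬ q ∣ p - 1)).card : ℝ) ≤
      (((Ioc X (X + X)).filter (fun n => ∀ l ∈ PZ z, n % l ∉ ssOm B l)).card : ℝ) := by
    have hsub : (Ioc X (2 * X)).filter (fun p => p.Prime ∧ ∀ q ∈ B, ¬ q ∣ p - 1) ⊆
        (Ioc X (X + X)).filter (fun n => ∀ l ∈ PZ z, n % l ∉ ssOm B l) := by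
      intro p hp
      rw [mem_filter, mem_Ioc] at hp
      obtain ⟨⟨hp1, hp2⟩, hpp, hpB⟩ := hp
      rw [mem_filter, mem_Ioc]
      refine ⟨⟨hp1, by omega⟩, ?_⟩
      intro l hl hmem
      obtain ⟨hlp, hlz'⟩ := mem_PZ.mp hl
      have hne : p % l ≠ 0 := by
        intro h0
        have hd : l ∣ p := Nat.dvd_of_mod_eq_zero h0
        have := (Nat.prime_dvd_prime_iff_eq hlp hpp).mp hd
        omega
      unfold ssOm at hmem
      split_ifs at hmem with hlB
      · rw [mem_insert, mem_singleton] at hmem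
        rcases hmem with h0 | h0
        · exact hne h0
        · apply hpB l hlB
          have h2 := Nat.div_add_mod p l
          rw [h0] at h2
          exact ⟨p / l, by omega⟩
      · rw [mem_singleton] at hmem
        exact hne hmem
    exact_mod_cast Finset.card_le_card hsub
  refine hcard.trans (h.trans ?_)
  have h3 := ssProd z B hB
  have h4 := hM z hz
  calc 4 * (X : ℝ) * ∏ l ∈ PZ z, (1 - ((ssOm B l).card : ℝ) / l)
      ≤ 4 * X * ((C₁ / Real.log z) * Real.exp (-∑ q ∈ B, (1 : ℝ) / q)) := by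
        apply mul_le_mul_of_nonneg_left _ (by positivity)
        refine h3.trans ?_
        exact mul_le_mul_of_nonneg_right h4 (Real.exp_pos _).le
    _ = (4 * C₁) * X / Real.log z * Real.exp (-∑ q ∈ B, (1 : ℝ) / q) := by ring
    _ ≤ (4 * C₀ * C₁) * X / Real.log z * Real.exp (-∑ q ∈ B, (1 : ℝ) / q) := by
        have : 4 * C₁ ≤ 4 * C₀ * C₁ := by nlinarith
        gcongr

theorem sieve_set : ∃ C : ℝ, 1 ≤ C ∧ ∃ n₀ : ℕ, ∀ n, n₀ ≤ n → ∀ B : Finset ℕ,
    (∀ q ∈ B, q.Prime ∧ C * Real.log q ≤ NN n) →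
    rho n (fun p => ∀ q ∈ B, ¬ q ∣ p - 1) ≤ C * Real.exp (-∑ q ∈ B, (1 : ℝ) / q) := by
  obtain ⟨C, hC, hblock⟩ := ssBlock
  have hC2 : C ≤ C ^ 2 := by nlinarith
  refine ⟨8 * C ^ 2, by nlinarith, ?_⟩
  -- N is large
  have hlim : Tendsto (fun n : ℕ => NN n) atTop atTop :=
    tendsto_pow_atTop_atTop_of_one_lt one_lt_lam
  obtain ⟨n₀, hn₀⟩ := eventually_atTop.mp (hlim.eventually (eventually_ge_atTop (8 * C)))
  refine ⟨n₀, fun n hn B hB => ?_⟩
  have hN := hn₀ n hn
  set N := NN n with hNdef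
  have hN8 : 8 ≤ N := by linarith
  have hN0 : 0 < N := by linarith
  have hl2a : (0.69 : ℝ) < Real.log 2 := by linarith [Real.log_two_gt_d9]
  have hl2b : Real.log 2 < (0.7 : ℝ) := by linarith [Real.log_two_lt_d9]
  -- the sieving level
  set y : ℝ := Real.exp (N / (2 * C)) with hy
  have hy4 : (4 : ℝ) ≤ N / (2 * C) := by
    rw [le_div_iff₀ (by linarith)]; linarith
  have hy5 : (5 : ℝ) ≤ y := by
    have := Real.add_one_le_exp (N / (2 * C))
    rw [hy]; linarith
  set z : ℕ := ⌊y⌋₊ with hz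
  have hzle : (z : ℝ) ≤ y := Nat.floor_le (by linarith)
  have hzlt : y < z + 1 := Nat.lt_floor_add_one y
  have hz2 : 2 ≤ z := by
    have : (2 : ℝ) < z := by linarith
    exact_mod_cast this.le
  have hz2' : (2 : ℝ) ≤ z := by exact_mod_cast hz2
  have hlz1 : Real.log z ≤ N / (2 * C) := by
    have := Real.log_le_log (by linarith) hzle
    rwa [hy, Real.log_exp] at this
  have hlz2 : N / (4 * C) ≤ Real.log z := by
    have h1 : y / 2 ≤ z := by linarith
    have h2 := Real.log_le_log (by positivity) h1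
    rw [Real.log_div (by positivity) (by norm_num), hy, Real.log_exp] at h2
    have h3 : N / (4 * C) = N / (2 * C) / 2 := by ring
    rw [h3]
    linarith
  have hlz0 : 0 < Real.log z := Real.log_pos (by linarith)
  have hBz : ∀ q ∈ B, q.Prime ∧ q ≤ z := by
    intro q hq
    obtain ⟨hqp, hq2⟩ := hB q hq
    refine ⟨hqp, ?_⟩
    apply le_exp_of_log_le hqp.pos
    rw [le_div_iff₀ (by linarith)]
    have : 0 ≤ Real.log q := Real.log_natCast_nonneg q
    nlinarith
  set S : ℝ := Real.exp (-∑ q ∈ B, (1 : ℝ) / q) with hS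
  have hSpos : 0 < S := Real.exp_pos _
  -- dyadic decomposition
  classical
  set I : ℕ := ⌈N / Real.log 2⌉₊ with hI
  have hIle : (I : ℝ) ≤ 2 * N := by
    have h1 : (I : ℝ) < N / Real.log 2 + 1 := Nat.ceil_lt_add_one (by positivity)
    have h2 : N / Real.log 2 ≤ 1.5 * N := by
      rw [div_le_iff₀ (by linarith)]
      nlinarith
    linarith
  have hIge : N ≤ I * Real.log 2 := by
    have h1 : N / Real.log 2 ≤ I := Nat.le_ceil _
    rwa [div_le_iff₀ (by linarith)] at h1
  set T := (W n).filter (fun p => ∀ q ∈ B, ¬ q ∣ p - 1) with hT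
  have hrho : rho n (fun p => ∀ q ∈ B, ¬ q ∣ p - 1) = ∑ p ∈ T, (1 : ℝ) / p := by
    unfold rho
    apply Finset.sum_congr _ (fun _ _ => rfl)
    rw [hT]
    apply Finset.filter_congr_decidable
  rw [hrho]
  have hTI : ∀ r ∈ T, 1 < r ∧ r ≤ 2 ^ I := by
    intro r hr
    have hr' := mem_W.mp (mem_filter.mp hr).1
    refine ⟨hr'.1.one_lt, ?_⟩
    have hr0 : (0 : ℝ) < r := by exact_mod_cast hr'.1.pos
    have h1 : Real.log r ≤ Real.log ((2 : ℝ) ^ I) := by
      rw [Real.log_pow]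
      exact hr'.2.2.trans hIge
    have h2 := (Real.log_le_log_iff hr0 (by positivity)).mp h1
    exact_mod_cast h2
  rw [sum_dyadic T (fun p => (1 : ℝ) / p) I hTI]
  have hterm : ∀ i ∈ range I, ∑ r ∈ T.filter (fun r => 2 ^ i < r ∧ r ≤ 2 ^ (i + 1)), (1 : ℝ) / r ≤
      4 * C ^ 2 / N * S := by
    intro i _
    by_cases hne : (T.filter (fun r => 2 ^ i < r ∧ r ≤ 2 ^ (i + 1))).Nonempty
    · obtain ⟨r, hr⟩ := hne
      rw [mem_filter] at hr
      have hrW := mem_W.mp (mem_filter.mp hr.1).1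
      have hX0 : (0 : ℝ) < ((2 ^ i : ℕ) : ℝ) := by positivity
      have hr0 : (0 : ℝ) < r := by exact_mod_cast hrW.1.pos
      have hlogX : N / 2 ≤ Real.log ((2 ^ i : ℕ) : ℝ) := by
        have h1 : (r : ℝ) / 2 ≤ ((2 ^ i : ℕ) : ℝ) := by
          have h2 : r ≤ 2 * 2 ^ i := by
            have := hr.2.2
            rw [pow_succ] at this
            omega
          have h3 : (r : ℝ) ≤ 2 * ((2 ^ i : ℕ) : ℝ) := by exact_mod_cast h2
          linarith
        have h2 := Real.log_le_log (by positivity) h1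
        rw [Real.log_div hr0.ne' (by norm_num)] at h2
        have h3 := hrW.2.1
        have h4 : lam = 9 / 8 := rfl
        rw [h4, ← hNdef] at h3
        linarith
      have hcond : C * Real.log z ≤ Real.log ((2 ^ i : ℕ) : ℝ) := by
        refine le_trans ?_ hlogX
        calc C * Real.log z ≤ C * (N / (2 * C)) := by gcongr
          _ = N / 2 := by field_simp
      have hb := hblock (2 ^ i) z B hz2 (Nat.one_le_two_pow) hcond hBz
      rw [← hS] at hb
      have hcardle : ((T.filter (fun r => 2 ^ i < r ∧ r ≤ 2 ^ (i + 1))).card : ℝ) ≤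
          (((Ioc (2 ^ i) (2 * 2 ^ i)).filter (fun p => p.Prime ∧ ∀ q ∈ B, ¬ q ∣ p - 1)).card : ℝ) := by
        have hsub : T.filter (fun r => 2 ^ i < r ∧ r ≤ 2 ^ (i + 1)) ⊆
            (Ioc (2 ^ i) (2 * 2 ^ i)).filter (fun p => p.Prime ∧ ∀ q ∈ B, ¬ q ∣ p - 1) := by
          intro p hp
          rw [mem_filter] at hp
          have h1 := mem_filter.mp hp.1
          rw [mem_filter, mem_Ioc]
          refine ⟨⟨hp.2.1, ?_⟩, (mem_W.mp h1.1).1, h1.2⟩
          have := hp.2.2
          rw [pow_succ] at this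
          omega
        exact_mod_cast Finset.card_le_card hsub
      have hsum : ∑ r ∈ T.filter (fun r => 2 ^ i < r ∧ r ≤ 2 ^ (i + 1)), (1 : ℝ) / r ≤
          ((T.filter (fun r => 2 ^ i < r ∧ r ≤ 2 ^ (i + 1))).card : ℝ) * (1 / ((2 ^ i : ℕ) : ℝ)) := by
        rw [← nsmul_eq_mul]
        apply Finset.sum_le_card_nsmul
        intro p hp
        have h1 := (mem_filter.mp hp).2.1
        apply one_div_le_one_div_of_le hX0
        exact_mod_cast h1.le
      calc ∑ r ∈ T.filter (fun r => 2 ^ i < r ∧ r ≤ 2 ^ (i + 1)), (1 : ℝ) / r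
          ≤ (C * ((2 ^ i : ℕ) : ℝ) / Real.log z * S) * (1 / ((2 ^ i : ℕ) : ℝ)) := by
            refine hsum.trans ?_
            exact mul_le_mul_of_nonneg_right (hcardle.trans hb) (by positivity)
        _ = C / Real.log z * S := by field_simp
        _ ≤ C / (N / (4 * C)) * S := by gcongr
        _ = 4 * C ^ 2 / N * S := by field_simp
    · rw [Finset.not_nonempty_iff_eq_empty] at hne
      rw [hne, Finset.sum_empty]
      positivity
  calc ∑ i ∈ range I, ∑ r ∈ T.filter (fun r => 2 ^ i < r ∧ r ≤ 2 ^ (i + 1)), (1 : ℝ) / r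
      ≤ ∑ _i ∈ range I, (4 * C ^ 2 / N * S) := Finset.sum_le_sum hterm
    _ = I * (4 * C ^ 2 / N * S) := by rw [Finset.sum_const, card_range, nsmul_eq_mul]
    _ ≤ (2 * N) * (4 * C ^ 2 / N * S) := by gcongr
    _ = 8 * C ^ 2 * S := by field_simp; ring

end

end Pool.Agent.NTot
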