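import Pool.Agent.NTot.Nonrare
import Pool.Agent.NTot.LargeFactor
import Pool.Agent.NTot.SieveSet

/-!
# Conclusion for primes, part 1: windows, the extremal level, the complementary function
-/

set_option autoImplicit false

namespace Pool.Agent.NTot.PC

open Finset Filter Topology

noncomputable section

theorem lam_pos : 0 < lam := by unfold lam; norm_num

theorem one_lt_lam : 1 < lam := by unfold lam; norm_num

theorem NN_pos (n : ℕ) : 0 < NN n := pow_pos lam_pos n

theorem NN_mono {m n : ℕ} (h : m ≤ n) : NN m ≤ NN n := pow_le_pow_right₀ one_lt_lam.le h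

theorem NN_succ (n : ℕ) : NN (n + 1) = lam * NN n := by unfold NN; ring

theorem NN_tendsto : Tendsto NN atTop atTop := tendsto_pow_atTop_atTop_of_one_lt one_lt_lam

theorem NN_sub {n i : ℕ} (h : i ≤ n) : NN n = lam ^ i * NN (n - i) := by
  unfold NN
  rw [← pow_add]
  congr 1
  omega

theorem mem_W' {n p : ℕ} : p ∈ W n ↔ p.Prime ∧ NN n < lam * Real.log p ∧ Real.log p ≤ NN n := by
  unfold W
  rw [mem_filter, mem_range]
  constructor
  · rintro ⟨_, h⟩; exact h
  · rintro ⟨h1, h2, h3⟩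
    refine ⟨?_, h1, h2, h3⟩
    rw [Nat.lt_succ_iff]
    apply Nat.le_floor
    rw [← Real.exp_log (by exact_mod_cast h1.pos : (0 : ℝ) < p)]
    exact Real.exp_le_exp.mpr h3

theorem le_exp_of_mem_W {n p : ℕ} (h : p ∈ W n) : p ≤ ⌊Real.exp (NN n)⌋₊ := by
  unfold W at h
  rw [mem_filter, mem_range] at h
  omega

theorem W_disj {i j : ℕ} (h : i ≠ j) : Disjoint (W i) (W j) := by
  rw [Finset.disjoint_left]
  intro p hi hj
  rw [mem_W'] at hi hj
  rcases lt_or_gt_of_ne h with h | h
  · have h1 := NN_mono (Nat.succ_le_of_lt h)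
    rw [Nat.succ_eq_add_one, NN_succ] at h1
    have h2 := mul_le_mul_of_nonneg_left hi.2.2 lam_pos.le
    linarith [hj.2.1]
  · have h1 := NN_mono (Nat.succ_le_of_lt h)
    rw [Nat.succ_eq_add_one, NN_succ] at h1
    have h2 := mul_le_mul_of_nonneg_left hj.2.2 lam_pos.le
    linarith [hi.2.1]

theorem log_pos_of_mem_W {n p : ℕ} (h : p ∈ W n) : 0 < Real.log p := by
  rw [mem_W'] at h
  exact Real.log_pos (by exact_mod_cast h.1.one_lt)

theorem rho_def (n : ℕ) (P : ℕ → Prop) [DecidablePred P] :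
    rho n P = ∑ p ∈ (W n).filter P, (1 : ℝ) / p := by
  unfold rho
  apply Finset.sum_congr _ (fun _ _ => rfl)
  ext p
  simp only [mem_filter]

theorem rho_nonneg (n : ℕ) (P : ℕ → Prop) : 0 ≤ rho n P := by
  classical
  unfold rho
  exact Finset.sum_nonneg (fun i _ => by positivity)

theorem rho_mono {n : ℕ} {P Q : ℕ → Prop} (h : ∀ p ∈ W n, P p → Q p) : rho n P ≤ rho n Q := by
  classical
  unfold rho
  apply Finset.sum_le_sum_of_subset_of_nonneg
  · intro p hp
    rw [mem_filter] at hp ⊢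
    exact ⟨hp.1, h p hp.1 hp.2⟩
  · intro i _ _; positivity

theorem rho_or (n : ℕ) (P Q : ℕ → Prop) : rho n (fun p => P p ∨ Q p) ≤ rho n P + rho n Q := by
  classical
  unfold rho
  have h := Finset.sum_union_inter (s₁ := (W n).filter P) (s₂ := (W n).filter Q)
    (f := fun p : ℕ => (1 : ℝ) / p)
  have h2 : 0 ≤ ∑ p ∈ (W n).filter P ∩ (W n).filter Q, (1 : ℝ) / p :=
    Finset.sum_nonneg (fun i _ => by positivity)
  have h3 : ∑ p ∈ (W n).filter (fun p => P p ∨ Q p), (1 : ℝ) / p ≤
      ∑ p ∈ (W n).filter P ∪ (W n).filter Q, (1 : ℝ) / p := by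
    apply Finset.sum_le_sum_of_subset_of_nonneg
    · intro p hp
      rw [mem_filter] at hp
      rw [mem_union, mem_filter, mem_filter]
      tauto
    · intro i _ _; positivity
  refine le_trans (le_of_eq ?_) (h3.trans (by linarith))
  apply Finset.sum_congr _ (fun _ _ => rfl)
  ext p
  simp only [mem_filter]

theorem rho_le_all (n : ℕ) (P : ℕ → Prop) : rho n P ≤ ∑ p ∈ W n, (1 : ℝ) / p := by
  classical
  unfold rho
  apply Finset.sum_le_sum_of_subset_of_nonneg (Finset.filter_subset _ _)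
  intro i _ _; positivity

theorem rho_eq_zero {n : ℕ} {P : ℕ → Prop} (h : ∀ p ∈ W n, ¬ P p) : rho n P = 0 := by
  classical
  unfold rho
  rw [Finset.filter_false_of_mem h, Finset.sum_empty]

theorem tendsto_rho_of_le {P Q : ℕ → ℕ → Prop} (h : ∀ n, ∀ p ∈ W n, P n p → Q n p)
    (hQ : Tendsto (fun n => rho n (Q n)) atTop (𝓝 0)) : Tendsto (fun n => rho n (P n)) atTop (𝓝 0) :=
  squeeze_zero (fun n => rho_nonneg _ _) (fun n => rho_mono (h n)) hQ

section alpha

variable {Δ D₂ : ℝ} {D : ℕ → ℝ}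

theorem div_le_Delta (hD : AddFn Δ D₂ D) {n p : ℕ} (h : p ∈ W n) : D p / Real.log p ≤ Δ := by
  rw [div_le_iff₀ (log_pos_of_mem_W h)]
  exact hD.le_log p (mem_W'.mp h).1.one_lt.le

theorem mem_Delta (hΔ : 0 ≤ Δ) (hD : AddFn Δ D₂ D) :
    Δ ∈ {c : ℝ | 0 ≤ c ∧ Tendsto (fun n => rho n (fun p => c < D p / Real.log p)) atTop (𝓝 0)} := by
  refine ⟨hΔ, ?_⟩
  have : (fun n => rho n (fun p => Δ < D p / Real.log p)) = fun _ => (0 : ℝ) := by
    funext n
    exact rho_eq_zero (fun p hp => not_lt.mpr (div_le_Delta hD hp))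
  rw [this]
  exact tendsto_const_nhds

theorem alpha_bdd (D : ℕ → ℝ) :
    BddBelow {c : ℝ | 0 ≤ c ∧ Tendsto (fun n => rho n (fun p => c < D p / Real.log p)) atTop (𝓝 0)} :=
  ⟨0, fun _ hc => hc.1⟩

theorem alpha_nonneg (hΔ : 0 ≤ Δ) (hD : AddFn Δ D₂ D) : 0 ≤ alpha D :=
  le_csInf ⟨Δ, mem_Delta hΔ hD⟩ (fun _ hc => hc.1)

theorem alpha_le (hΔ : 0 ≤ Δ) (hD : AddFn Δ D₂ D) : alpha D ≤ Δ :=
  csInf_le (alpha_bdd D) (mem_Delta hΔ hD)

theorem alpha_tendsto (hΔ : 0 ≤ Δ) (hD : AddFn Δ D₂ D) {ε : ℝ} (hε : 0 < ε) :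
    Tendsto (fun n => rho n (fun p => alpha D + ε < D p / Real.log p)) atTop (𝓝 0) := by
  have h1 : alpha D < alpha D + ε := by linarith
  obtain ⟨c, hc, hlt⟩ := exists_lt_of_csInf_lt ⟨Δ, mem_Delta hΔ hD⟩ h1
  exact tendsto_rho_of_le (fun n p _ h => hlt.trans h) hc.2

theorem addFn_mono {D₃ : ℝ} (hD : AddFn Δ D₂ D) (h : D₂ ≤ D₃) : AddFn Δ D₃ D where
  mul := hD.mul
  nonneg := hD.nonneg
  le_log := hD.le_log
  shift := fun p hp h2 => (hD.shift p hp h2).trans (by gcongr)

theorem addFn_compl (hΔ : 0 ≤ Δ) (hD : AddFn Δ D₂ D) :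
    AddFn Δ (D₂ + 2 * Δ) (fun n => Δ * Real.log n - D n) where
  mul := by
    intro a b ha hb
    have ha' : (a : ℝ) ≠ 0 := by exact_mod_cast ha
    have hb' : (b : ℝ) ≠ 0 := by exact_mod_cast hb
    rw [hD.mul a b ha hb, Nat.cast_mul, Real.log_mul ha' hb']
    ring
  nonneg := by
    intro n hn
    have := hD.le_log n hn
    linarith
  le_log := by
    intro n hn
    have := hD.nonneg n hn
    linarith
  shift := by
    intro p hp h2
    have h1 := hD.shift p hp h2
    have hp3 : (3 : ℝ) ≤ p := by exact_mod_cast h2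
    have hcast : ((p - 1 : ℕ) : ℝ) = (p : ℝ) - 1 := by
      rw [Nat.cast_sub hp.one_lt.le]; norm_num
    have h3 : |Real.log p - Real.log ((p - 1 : ℕ) : ℝ)| ≤ 2 / p := by
      rw [hcast, ← Real.log_div (by linarith) (by linarith), abs_of_nonneg]
      · have h4 := Real.log_le_sub_one_of_pos (x := (p : ℝ) / (p - 1)) (by
          apply div_pos <;> linarith)
        refine h4.trans ?_
        rw [div_sub_one (by linarith), div_le_div_iff₀ (by linarith) (by linarith)]
        nlinarith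
      · apply Real.log_nonneg
        rw [le_div_iff₀ (by linarith)]
        linarith
    have e : Δ * Real.log p - D p - (Δ * Real.log ((p - 1 : ℕ) : ℝ) - D (p - 1)) =
        Δ * (Real.log p - Real.log ((p - 1 : ℕ) : ℝ)) - (D p - D (p - 1)) := by ring
    rw [e]
    calc |Δ * (Real.log p - Real.log ((p - 1 : ℕ) : ℝ)) - (D p - D (p - 1))|
        ≤ |Δ * (Real.log p - Real.log ((p - 1 : ℕ) : ℝ))| + |D p - D (p - 1)| := abs_sub _ _
      _ ≤ Δ * (2 / p) + D₂ / p := by
          rw [abs_mul, abs_of_nonneg hΔ]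
          gcongr
      _ = (D₂ + 2 * Δ) / p := by ring

end alpha

/-! ## expansion of completely additive functions -/

theorem add_expand (f : ℕ → ℝ) (hf : ∀ a b, a ≠ 0 → b ≠ 0 → f (a * b) = f a + f b) :
    ∀ m : ℕ, m ≠ 0 → f m = ∑ r ∈ m.primeFactors, (m.factorization r : ℝ) * f r := by
  have h1 : f 1 = 0 := by
    have := hf 1 1 one_ne_zero one_ne_zero
    rw [mul_one] at this
    linarith
  intro m
  induction m using Nat.recOnMul with
  | zero => intro h; exact absurd rfl h
  | one => intro _; simp [h1]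
  | prime p hp =>
    intro _
    rw [hp.primeFactors, Finset.sum_singleton, hp.factorization_self]
    norm_num
  | mul a b iha ihb =>
    intro hab
    have ha : a ≠ 0 := left_ne_zero_of_mul hab
    have hb : b ≠ 0 := right_ne_zero_of_mul hab
    rw [hf a b ha hb, iha ha, ihb hb, Nat.factorization_mul ha hb]
    have key : ∀ c : ℕ, c.primeFactors ⊆ (a * b).primeFactors →
        ∑ r ∈ c.primeFactors, (c.factorization r : ℝ) * f r =
          ∑ r ∈ (a * b).primeFactors, (c.factorization r : ℝ) * f r := by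
      intro c hc
      apply Finset.sum_subset hc
      intro r _ hr
      rw [← Nat.support_factorization, Finsupp.notMem_support_iff] at hr
      rw [hr]; simp
    rw [key a (by rw [Nat.primeFactors_mul ha hb]; exact Finset.subset_union_left),
      key b (by rw [Nat.primeFactors_mul ha hb]; exact Finset.subset_union_right),
      ← Finset.sum_add_distrib]
    apply Finset.sum_congr rfl
    intro r _
    rw [Finsupp.add_apply]
    push_cast
    ring

end

end Pool.Agent.NTot.PC
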