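import Pool.Agent.NTot.PC1

/-!
# Conclusion for primes, part 2: first moments
-/

set_option autoImplicit false

namespace Pool.Agent.NTot.PC

open Finset Filter Topology

noncomputable section

/-- trivial bound for multiples of `d` -/
theorem trivial_mult (n d : ℕ) (hd : 1 ≤ d) :
    ∑ p ∈ (W n).filter (fun p => d ∣ p - 1), (1 : ℝ) / p ≤ (1 + NN n) / d := by
  have hd0 : (0 : ℝ) < d := by exact_mod_cast hd
  set Y := ⌊Real.exp (NN n)⌋₊ with hY
  set S := (W n).filter (fun p => d ∣ p - 1) with hS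
  have hmem : ∀ p ∈ S, p.Prime ∧ p ≤ Y ∧ ∃ k, 1 ≤ k ∧ p - 1 = d * k ∧ (p - 1) / d = k := by
    intro p hp
    rw [hS, mem_filter] at hp
    obtain ⟨hp1, k, hk⟩ := hp
    have hpp := (mem_W'.mp hp1).1
    refine ⟨hpp, le_exp_of_mem_W hp1, k, ?_, hk, ?_⟩
    · rcases Nat.eq_zero_or_pos k with h0 | h0
      · rw [h0, mul_zero] at hk
        have := hpp.two_le
        omega
      · exact h0
    · rw [hk]; exact Nat.mul_div_cancel_left k hd
  have h1 : ∑ p ∈ S, (1 : ℝ) / p ≤ ∑ p ∈ S, (fun k : ℕ => (1 : ℝ) / (d * k)) ((p - 1) / d) := by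
    apply Finset.sum_le_sum
    intro p hp
    obtain ⟨hpp, _, k, hk1, hk2, hk3⟩ := hmem p hp
    show (1 : ℝ) / p ≤ (1 : ℝ) / (d * (((p - 1) / d : ℕ) : ℝ))
    rw [hk3]
    have hk0 : (0 : ℝ) < k := by exact_mod_cast hk1
    apply one_div_le_one_div_of_le (by positivity)
    have : d * k ≤ p := by omega
    exact_mod_cast this
  have hinj : Set.InjOn (fun p => (p - 1) / d) (S : Set ℕ) := by
    intro p hp q hq h
    obtain ⟨hpp, _, k, hk1, hk2, hk3⟩ := hmem p hp
    obtain ⟨hqp, _, l, hl1, hl2, hl3⟩ := hmem q hq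
    have h' : (p - 1) / d = (q - 1) / d := h
    rw [hk3, hl3] at h'
    rw [← h'] at hl2
    have := hpp.two_le
    have := hqp.two_le
    omega
  have h2 : ∑ p ∈ S, (fun k : ℕ => (1 : ℝ) / (d * k)) ((p - 1) / d) =
      ∑ k ∈ S.image (fun p => (p - 1) / d), (1 : ℝ) / (d * k) := by
    rw [Finset.sum_image hinj]
  have h3 : ∑ k ∈ S.image (fun p => (p - 1) / d), (1 : ℝ) / (d * k) ≤
      ∑ k ∈ Icc 1 Y, (1 : ℝ) / (d * k) := by
    apply Finset.sum_le_sum_of_subset_of_nonneg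
    · intro k hk
      rw [mem_image] at hk
      obtain ⟨p, hp, hpk⟩ := hk
      obtain ⟨hpp, hpY, l, hl1, hl2, hl3⟩ := hmem p hp
      rw [mem_Icc]
      have e : k = l := by rw [← hpk, hl3]
      have : l ≤ d * l := Nat.le_mul_of_pos_left l hd
      omega
    · intro k _ _; positivity
  have h4 : ∑ k ∈ Icc 1 Y, (1 : ℝ) / (d * k) = (1 / d) * ∑ k ∈ Icc 1 Y, ((k : ℝ))⁻¹ := by
    rw [Finset.mul_sum]
    apply Finset.sum_congr rfl
    intro k _
    rw [one_div, mul_inv, one_div]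
  have h5 : ∑ k ∈ Icc 1 Y, ((k : ℝ))⁻¹ ≤ 1 + NN n := by
    have h6 := harmonic_le_one_add_log Y
    rw [harmonic_eq_sum_Icc] at h6
    push_cast at h6
    refine h6.trans ?_
    have h7 : Real.log Y ≤ NN n := by
      have hYpos : 0 < Y := Nat.floor_pos.mpr (Real.one_le_exp (NN_pos n).le)
      rw [Real.log_le_iff_le_exp (by exact_mod_cast hYpos)]
      exact Nat.floor_le (Real.exp_pos _).le
    linarith
  calc ∑ p ∈ S, (1 : ℝ) / p ≤ (1 / d) * ∑ k ∈ Icc 1 Y, ((k : ℝ))⁻¹ := by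
        rw [← h4]; exact h1.trans (h2.le.trans h3)
    _ ≤ (1 / d) * (1 + NN n) := by gcongr
    _ = (1 + NN n) / d := by ring

/-- the terms `log r / r^a` -/
def ppf (x : ℕ × ℕ) : ℝ := if 2 ≤ x.1 ∧ 2 ≤ x.2 then Real.log x.1 / (x.1 : ℝ) ^ x.2 else 0

theorem ppf_nonneg (x : ℕ × ℕ) : 0 ≤ ppf x := by
  unfold ppf
  split_ifs
  · exact div_nonneg (Real.log_natCast_nonneg _) (by positivity)
  · exact le_rfl

theorem summable_ppf : Summable ppf := by
  have hg : Summable (fun r : ℕ => 2 * (1 / (r : ℝ) ^ (3 / 2 : ℝ))) :=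
    (Real.summable_one_div_nat_rpow.mpr (by norm_num)).mul_left 2
  have hh : Summable (fun a : ℕ => 4 * (1 / 2 : ℝ) ^ a) :=
    (summable_geometric_of_lt_one (by norm_num) (by norm_num)).mul_left 4
  have hgh := hg.mul_of_nonneg hh (fun r => by positivity) (fun a => by positivity)
  refine Summable.of_nonneg_of_le ppf_nonneg ?_ hgh
  rintro ⟨r, a⟩
  unfold ppf
  show (if 2 ≤ r ∧ 2 ≤ a then Real.log r / (r : ℝ) ^ a else 0) ≤
    2 * (1 / (r : ℝ) ^ (3 / 2 : ℝ)) * (4 * (1 / 2 : ℝ) ^ a)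
  split_ifs with h
  · obtain ⟨hr, ha⟩ := h
    have hr2 : (2 : ℝ) ≤ r := by exact_mod_cast hr
    have hr0 : (0 : ℝ) < r := by linarith
    have hsq : 0 < Real.sqrt r := Real.sqrt_pos.mpr hr0
    have hlog : Real.log r ≤ 2 * Real.sqrt r := by
      have h1 := Real.log_le_sub_one_of_pos hsq
      have h2 : Real.log r = 2 * Real.log (Real.sqrt r) := by
        rw [Real.log_sqrt hr0.le]; ring
      linarith
    obtain ⟨c, rfl⟩ : ∃ c, a = c + 2 := ⟨a - 2, by omega⟩
    have e1 : (r : ℝ) ^ (3 / 2 : ℝ) * Real.sqrt r = (r : ℝ) ^ 2 := by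
      rw [Real.sqrt_eq_rpow, ← Real.rpow_add hr0, ← Real.rpow_natCast]
      norm_num
    have h32 : 0 < (r : ℝ) ^ (3 / 2 : ℝ) := Real.rpow_pos_of_pos hr0 _
    have h2c : (2 : ℝ) ^ c ≤ (r : ℝ) ^ c := pow_le_pow_left₀ (by norm_num) hr2 c
    have h2c0 : (0 : ℝ) < 2 ^ c := by positivity
    calc Real.log r / (r : ℝ) ^ (c + 2) ≤ 2 * Real.sqrt r / ((2 : ℝ) ^ c * (r : ℝ) ^ 2) := by
          rw [pow_add]
          gcongr
      _ = 2 * (1 / (r : ℝ) ^ (3 / 2 : ℝ)) * (4 * (1 / 2 : ℝ) ^ (c + 2)) := by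
          rw [← e1, one_div_pow, pow_add]
          field_simp
          ring
  · positivity

theorem partB : ∀ κ : ℝ, 0 < κ → ∃ n₀ : ℕ, ∀ n, n₀ ≤ n →
    ∑ p ∈ W n, (1 / (p : ℝ)) * ∑ r ∈ (p - 1).primeFactors,
      (((p - 1).factorization r : ℝ) - 1) * Real.log r ≤ κ * NN n := by
  intro κ hκ
  obtain ⟨s, hs⟩ := summable_iff_vanishing_norm.mp summable_ppf (κ / 4) (by positivity)
  obtain ⟨n₁, hn₁⟩ := rho_le_one
  obtain ⟨n₂, hn₂⟩ := eventually_atTop.mp (NN_tendsto.eventually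
    (eventually_ge_atTop (max 1 (4 * (∑ x ∈ s, Real.log (x.1 : ℝ)) / κ))))
  refine ⟨max n₁ n₂, fun n hn => ?_⟩
  have hrho := hn₁ n ((le_max_left _ _).trans hn)
  have hN := hn₂ n ((le_max_right _ _).trans hn)
  have hN1 : 1 ≤ NN n := (le_max_left _ _).trans hN
  have hNs : ∑ x ∈ s, Real.log (x.1 : ℝ) ≤ κ / 4 * NN n := by
    have := (le_max_right _ _).trans hN
    rw [div_le_iff₀ hκ] at this
    linarith
  set Y := ⌊Real.exp (NN n)⌋₊ with hY
  set T : Finset (ℕ × ℕ) := PZ Y ×ˢ Icc 2 Y with hT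
  have step1 : ∀ p ∈ W n, ∑ r ∈ (p - 1).primeFactors,
      (((p - 1).factorization r : ℝ) - 1) * Real.log r ≤
      ∑ x ∈ T, if x.1 ^ x.2 ∣ p - 1 then Real.log (x.1 : ℝ) else 0 := by
    intro p hp
    have hpp := (mem_W'.mp hp).1
    have hpY := le_exp_of_mem_W hp
    have hp1 : p - 1 ≠ 0 := by have := hpp.two_le; omega
    rw [hT, Finset.sum_product]
    have hsub : (p - 1).primeFactors ⊆ PZ Y := by
      intro r hr
      rw [mem_PZ]
      refine ⟨Nat.prime_of_mem_primeFactors hr, ?_⟩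
      have := Nat.le_of_mem_primeFactors hr
      omega
    refine le_trans ?_ (Finset.sum_le_sum_of_subset_of_nonneg hsub ?_)
    · apply Finset.sum_le_sum
      intro r hr
      have hrp := Nat.prime_of_mem_primeFactors hr
      rw [← Finset.sum_filter]
      show _ ≤ ∑ _a ∈ (Icc 2 Y).filter (fun a => (r, a).1 ^ (r, a).2 ∣ p - 1), Real.log (r : ℝ)
      rw [Finset.sum_const, nsmul_eq_mul]
      apply mul_le_mul_of_nonneg_right _ (Real.log_natCast_nonneg r)
      have hv1 : 1 ≤ (p - 1).factorization r :=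
        (hrp.dvd_iff_one_le_factorization hp1).mp (Nat.dvd_of_mem_primeFactors hr)
      have hvY : (p - 1).factorization r ≤ Y := by
        have := Nat.factorization_lt r hp1
        omega
      have hsub2 : Icc 2 ((p - 1).factorization r) ⊆
          (Icc 2 Y).filter (fun a => (r, a).1 ^ (r, a).2 ∣ p - 1) := by
        intro a ha
        rw [mem_Icc] at ha
        rw [mem_filter, mem_Icc]
        exact ⟨⟨ha.1, ha.2.trans hvY⟩, (hrp.pow_dvd_iff_le_factorization hp1).mpr ha.2⟩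
      have hc := Finset.card_le_card hsub2
      rw [Nat.card_Icc] at hc
      have hc' : (p - 1).factorization r ≤
          ((Icc 2 Y).filter (fun a => (r, a).1 ^ (r, a).2 ∣ p - 1)).card + 1 := by omega
      have hc'' : ((p - 1).factorization r : ℝ) ≤
          (((Icc 2 Y).filter (fun a => (r, a).1 ^ (r, a).2 ∣ p - 1)).card : ℝ) + 1 := by
        exact_mod_cast hc'
      linarith
    · intro r _ _
      apply Finset.sum_nonneg
      intro a _
      split_ifs
      · exact Real.log_natCast_nonneg _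
      · exact le_rfl
  have step2 : ∑ p ∈ W n, (1 / (p : ℝ)) * ∑ r ∈ (p - 1).primeFactors,
      (((p - 1).factorization r : ℝ) - 1) * Real.log r ≤
      ∑ x ∈ T, Real.log (x.1 : ℝ) * ∑ p ∈ (W n).filter (fun p => x.1 ^ x.2 ∣ p - 1), 1 / (p : ℝ) := by
    calc ∑ p ∈ W n, (1 / (p : ℝ)) * ∑ r ∈ (p - 1).primeFactors,
          (((p - 1).factorization r : ℝ) - 1) * Real.log r
        ≤ ∑ p ∈ W n, (1 / (p : ℝ)) *
            ∑ x ∈ T, (if x.1 ^ x.2 ∣ p - 1 then Real.log (x.1 : ℝ) else 0) := by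
          apply Finset.sum_le_sum
          intro p hp
          exact mul_le_mul_of_nonneg_left (step1 p hp) (by positivity)
      _ = ∑ x ∈ T, ∑ p ∈ W n, (1 / (p : ℝ)) *
            (if x.1 ^ x.2 ∣ p - 1 then Real.log (x.1 : ℝ) else 0) := by
          simp_rw [Finset.mul_sum]
          exact Finset.sum_comm
      _ = _ := by
          apply Finset.sum_congr rfl
          intro x _
          rw [Finset.mul_sum, Finset.sum_filter]
          apply Finset.sum_congr rfl
          intro p _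
          split_ifs <;> ring
  refine step2.trans ?_
  rw [← Finset.sum_filter_add_sum_filter_not T (fun x => x ∈ s)]
  have hA : ∑ x ∈ T.filter (fun x => x ∈ s), Real.log (x.1 : ℝ) *
      ∑ p ∈ (W n).filter (fun p => x.1 ^ x.2 ∣ p - 1), 1 / (p : ℝ) ≤ κ / 4 * NN n := by
    refine le_trans ?_ hNs
    calc ∑ x ∈ T.filter (fun x => x ∈ s), Real.log (x.1 : ℝ) *
          ∑ p ∈ (W n).filter (fun p => x.1 ^ x.2 ∣ p - 1), 1 / (p : ℝ)
        ≤ ∑ x ∈ T.filter (fun x => x ∈ s), Real.log (x.1 : ℝ) := by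
          apply Finset.sum_le_sum
          intro x _
          refine mul_le_of_le_one_right (Real.log_natCast_nonneg _) (le_trans ?_ hrho)
          apply Finset.sum_le_sum_of_subset_of_nonneg (Finset.filter_subset _ _)
          intro i _ _; positivity
      _ ≤ ∑ x ∈ s, Real.log (x.1 : ℝ) := by
          apply Finset.sum_le_sum_of_subset_of_nonneg
          · intro x hx; exact (mem_filter.mp hx).2
          · intro x _ _; exact Real.log_natCast_nonneg _
  have hB : ∑ x ∈ T.filter (fun x => ¬ x ∈ s), Real.log (x.1 : ℝ) *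
      ∑ p ∈ (W n).filter (fun p => x.1 ^ x.2 ∣ p - 1), 1 / (p : ℝ) ≤ (1 + NN n) * (κ / 4) := by
    have h1 : ∑ x ∈ T.filter (fun x => ¬ x ∈ s), Real.log (x.1 : ℝ) *
        ∑ p ∈ (W n).filter (fun p => x.1 ^ x.2 ∣ p - 1), 1 / (p : ℝ) ≤
        ∑ x ∈ T.filter (fun x => ¬ x ∈ s), (1 + NN n) * ppf x := by
      apply Finset.sum_le_sum
      intro x hx
      have hxT := (mem_filter.mp hx).1
      rw [hT, mem_product, mem_PZ, mem_Icc] at hxT
      have hx2 : 2 ≤ x.1 := hxT.1.1.two_le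
      have hpos : 1 ≤ x.1 ^ x.2 := Nat.one_le_pow _ _ (by omega)
      have h2 := trivial_mult n (x.1 ^ x.2) hpos
      unfold ppf
      rw [if_pos ⟨hx2, hxT.2.1⟩]
      calc Real.log (x.1 : ℝ) * ∑ p ∈ (W n).filter (fun p => x.1 ^ x.2 ∣ p - 1), 1 / (p : ℝ)
          ≤ Real.log (x.1 : ℝ) * ((1 + NN n) / ((x.1 ^ x.2 : ℕ) : ℝ)) :=
            mul_le_mul_of_nonneg_left h2 (Real.log_natCast_nonneg _)
        _ = _ := by push_cast; ring
    refine h1.trans ?_
    rw [← Finset.mul_sum]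
    apply mul_le_mul_of_nonneg_left _ (by linarith)
    have h3 := hs (T.filter (fun x => ¬ x ∈ s)) (by
      rw [Finset.disjoint_left]
      intro x hx
      exact (mem_filter.mp hx).2)
    rw [Real.norm_eq_abs, abs_of_nonneg (Finset.sum_nonneg (fun x _ => ppf_nonneg x))] at h3
    exact h3.le
  nlinarith

/-- positive part of the excess over the level `cl` -/
def GG (D : ℕ → ℝ) (cl : ℝ) (r : ℕ) : ℝ := max 0 (D r - cl * Real.log r)

theorem GG_nonneg (D : ℕ → ℝ) (cl : ℝ) (r : ℕ) : 0 ≤ GG D cl r := le_max_left _ _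

theorem GG_le {Δ D₂ : ℝ} {D : ℕ → ℝ} (hΔ : 0 ≤ Δ) (hD : AddFn Δ D₂ D) {cl : ℝ} (hcl : 0 ≤ cl) {r : ℕ}
    (hr : 1 ≤ r) : GG D cl r ≤ Δ * Real.log r := by
  have h1 := Real.log_natCast_nonneg r
  unfold GG
  apply max_le
  · positivity
  · have := hD.le_log r hr
    have : 0 ≤ cl * Real.log r := by positivity
    linarith

theorem exists_window {m₀ n : ℕ} {x : ℝ} (h1 : NN m₀ < x) (h2 : x ≤ NN n) :
    ∃ j ∈ Ioc m₀ n, NN j < lam * x ∧ x ≤ NN j := by
  classical
  have hex : ∃ j, x ≤ NN j := ⟨n, h2⟩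
  set j := Nat.find hex with hj
  have hj1 : x ≤ NN j := Nat.find_spec hex
  have hjn : j ≤ n := Nat.find_min' hex h2
  have hmj : m₀ < j := by
    by_contra hcon
    have := NN_mono (not_lt.mp hcon)
    linarith
  refine ⟨j, mem_Ioc.mpr ⟨hmj, hjn⟩, ?_, hj1⟩
  have hlt : NN (j - 1) < x := by
    by_contra hcon
    have := Nat.find_min hex (m := j - 1) (by omega)
    exact this (not_lt.mp hcon)
  obtain ⟨i, hi⟩ : ∃ i, j = i + 1 := ⟨j - 1, by omega⟩
  rw [hi, NN_succ]
  rw [hi, Nat.add_sub_cancel] at hlt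
  exact mul_lt_mul_of_pos_left hlt lam_pos

theorem sum_NN_le (m₀ n : ℕ) : ∑ j ∈ Ioc m₀ n, NN j ≤ 9 * NN n := by
  have h1 : ∑ j ∈ Ioc m₀ n, NN j ≤ ∑ j ∈ range (n + 1), NN j := by
    apply Finset.sum_le_sum_of_subset_of_nonneg
    · intro j hj
      rw [mem_Ioc] at hj
      rw [mem_range]
      omega
    · intro j _ _; exact (NN_pos j).le
  refine h1.trans ?_
  have h2 : ∑ j ∈ range (n + 1), NN j = (lam ^ (n + 1) - 1) / (lam - 1) := by
    unfold NN
    exact geom_sum_eq one_lt_lam.ne' (n + 1)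
  rw [h2, div_le_iff₀ (by linarith [one_lt_lam])]
  have e : lam ^ (n + 1) = 9 / 8 * NN n := by
    unfold NN; rw [pow_succ, mul_comm]; rfl
  rw [e]
  have : lam = 9 / 8 := rfl
  rw [this]
  linarith

theorem partA {Δ D₂ : ℝ} {D : ℕ → ℝ} (hΔ : 0 < Δ) (hD : AddFn Δ D₂ D) {cl : ℝ} (hcl : 0 ≤ cl)
    (ht : Tendsto (fun n => rho n (fun p => cl < D p / Real.log p)) atTop (𝓝 0)) :
    ∀ κ : ℝ, 0 < κ → ∃ n₀ : ℕ, ∀ n, n₀ ≤ n →
      ∑ r ∈ PZ ⌊Real.exp (NN n)⌋₊, GG D cl r / r ≤ κ * NN n := by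
  classical
  intro κ hκ
  obtain ⟨C, hC, hm⟩ := mertens_log
  obtain ⟨m₀, hm₀⟩ := eventually_atTop.mp (ht.eventually (gt_mem_nhds
    (show (0 : ℝ) < κ / (20 * Δ) by positivity)))
  obtain ⟨n₂, hn₂⟩ := eventually_atTop.mp (NN_tendsto.eventually
    (eventually_ge_atTop (2 * (Δ * (NN m₀ + C)) / κ)))
  refine ⟨max m₀ n₂, fun n hn => ?_⟩
  have hN := hn₂ n ((le_max_right _ _).trans hn)
  rw [div_le_iff₀ hκ] at hN
  set Y := ⌊Real.exp (NN n)⌋₊ with hY
  set Y₀ := ⌊Real.exp (NN m₀)⌋₊ with hY₀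
  rw [← Finset.sum_filter_add_sum_filter_not (PZ Y) (fun r => r ≤ Y₀)]
  have hA : ∑ r ∈ (PZ Y).filter (fun r => r ≤ Y₀), GG D cl r / r ≤ Δ * (NN m₀ + C) := by
    calc ∑ r ∈ (PZ Y).filter (fun r => r ≤ Y₀), GG D cl r / r
        ≤ ∑ r ∈ PZ Y₀, Δ * (Real.log r / r) := by
          refine (Finset.sum_le_sum_of_subset_of_nonneg (t := PZ Y₀) ?_ ?_).trans ?_
          · intro r hr
            rw [mem_filter, mem_PZ] at hr
            rw [mem_PZ]
            exact ⟨hr.1.1, hr.2⟩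
          · intro r _ _
            exact div_nonneg (GG_nonneg _ _ _) (by positivity)
          · apply Finset.sum_le_sum
            intro r hr
            rw [mem_PZ] at hr
            have hr0 : (0 : ℝ) < r := by exact_mod_cast hr.1.pos
            rw [← mul_div_assoc]
            exact div_le_div_of_nonneg_right (GG_le hΔ.le hD hcl hr.1.one_lt.le) hr0.le
      _ = Δ * ∑ r ∈ PZ Y₀, Real.log r / r := by rw [Finset.mul_sum]
      _ ≤ Δ * (NN m₀ + C) := by
          apply mul_le_mul_of_nonneg_left _ hΔ.le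
          have hexp1 : (2 : ℝ) ≤ Real.exp (NN m₀) := by
            have h1 : (1 : ℝ) ≤ NN m₀ := one_le_pow₀ one_lt_lam.le
            have h2 := Real.add_one_le_exp (NN m₀)
            linarith
          have hY2 : 2 ≤ Y₀ := Nat.le_floor (by exact_mod_cast hexp1)
          refine (hm Y₀ hY2).trans ?_
          have h7 : Real.log Y₀ ≤ NN m₀ := by
            rw [Real.log_le_iff_le_exp (by exact_mod_cast (by omega : 0 < Y₀))]
            exact Nat.floor_le (Real.exp_pos _).le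
          linarith
  have hB : ∑ r ∈ (PZ Y).filter (fun r => ¬ r ≤ Y₀), GG D cl r / r ≤ κ / 2 * NN n := by
    have hsub : (PZ Y).filter (fun r => ¬ r ≤ Y₀) ⊆ (Ioc m₀ n).biUnion W := by
      intro r hr
      rw [mem_filter, mem_PZ] at hr
      obtain ⟨⟨hrp, hrY⟩, hrY0⟩ := hr
      have hr0 : (0 : ℝ) < r := by exact_mod_cast hrp.pos
      have h1 : NN m₀ < Real.log r := by
        rw [Real.lt_log_iff_exp_lt hr0]
        exact (Nat.lt_of_floor_lt (not_le.mp hrY0))
      have h2 : Real.log r ≤ NN n := by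
        rw [Real.log_le_iff_le_exp hr0]
        exact (Nat.le_floor_iff (Real.exp_pos _).le).mp hrY
      obtain ⟨j, hj, hj1, hj2⟩ := exists_window h1 h2
      rw [mem_biUnion]
      exact ⟨j, hj, mem_W'.mpr ⟨hrp, hj1, hj2⟩⟩
    calc ∑ r ∈ (PZ Y).filter (fun r => ¬ r ≤ Y₀), GG D cl r / r
        ≤ ∑ r ∈ (Ioc m₀ n).biUnion W, GG D cl r / r := by
          apply Finset.sum_le_sum_of_subset_of_nonneg hsub
          intro r _ _
          exact div_nonneg (GG_nonneg _ _ _) (by positivity)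
      _ = ∑ j ∈ Ioc m₀ n, ∑ r ∈ W j, GG D cl r / r := by
          apply Finset.sum_biUnion
          intro i _ j _ hij
          exact W_disj hij
      _ ≤ ∑ j ∈ Ioc m₀ n, NN j * (κ / 20) := by
          apply Finset.sum_le_sum
          intro j hj
          rw [mem_Ioc] at hj
          have h1 : ∑ r ∈ W j, GG D cl r / r ≤
              Δ * NN j * rho j (fun p => cl < D p / Real.log p) := by
            unfold rho
            rw [Finset.mul_sum, Finset.sum_filter]
            apply Finset.sum_le_sum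
            intro r hr
            have hlog := log_pos_of_mem_W hr
            have hr' := mem_W'.mp hr
            have hr0 : (0 : ℝ) < r := by exact_mod_cast hr'.1.pos
            split_ifs with hc
            · rw [mul_one_div]
              apply div_le_div_of_nonneg_right _ hr0.le
              refine (GG_le hΔ.le hD hcl hr'.1.one_lt.le).trans ?_
              exact mul_le_mul_of_nonneg_left hr'.2.2 hΔ.le
            · rw [not_lt, div_le_iff₀ hlog] at hc
              have : GG D cl r = 0 := max_eq_left (by linarith)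
              rw [this, zero_div]
          refine h1.trans ?_
          have h2 := (hm₀ j hj.1.le).le
          calc Δ * NN j * rho j (fun p => cl < D p / Real.log p)
              ≤ Δ * NN j * (κ / (20 * Δ)) :=
                mul_le_mul_of_nonneg_left h2 (mul_nonneg hΔ.le (NN_pos j).le)
            _ = NN j * (κ / 20) := by field_simp
      _ = (κ / 20) * ∑ j ∈ Ioc m₀ n, NN j := by rw [Finset.mul_sum]; simp_rw [mul_comm]
      _ ≤ (κ / 20) * (9 * NN n) := mul_le_mul_of_nonneg_left (sum_NN_le m₀ n) (by positivity)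
      _ ≤ κ / 2 * NN n := by
          have := NN_pos n
          nlinarith
  linarith

end

end Pool.Agent.NTot.PC
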