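import Pool.Agent.NTot.PC2

/-!
# Conclusion for primes, part 3: the excess `Z` is small for almost all primes; the pointwise inequality
-/

set_option autoImplicit false

namespace Pool.Agent.NTot.PC

open Finset Filter Topology

noncomputable section

/-- the excess -/
def ZZ (D : ℕ → ℝ) (cl : ℝ) (p : ℕ) : ℝ :=
  ∑ r ∈ (p - 1).primeFactors, ((p - 1).factorization r : ℝ) * GG D cl r

theorem ZZ_nonneg (D : ℕ → ℝ) (cl : ℝ) (p : ℕ) : 0 ≤ ZZ D cl p :=
  Finset.sum_nonneg (fun _ _ => mul_nonneg (Nat.cast_nonneg _) (GG_nonneg _ _ _))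

theorem Z_small {Δ D₂ : ℝ} {D : ℕ → ℝ} (hΔ : 0 < Δ) (hD : AddFn Δ D₂ D) {cl η : ℝ} (hcl : 0 ≤ cl)
    (hη : 0 < η)
    (ht : Tendsto (fun n => rho n (fun p => cl < D p / Real.log p)) atTop (𝓝 0)) :
    ∀ κ : ℝ, 0 < κ → ∃ n₀ : ℕ, ∀ n, n₀ ≤ n →
      rho n (fun p => η * Real.log p < ZZ D cl p) ≤ κ := by
  classical
  intro κ hκ
  obtain ⟨CL, hCL, hL⟩ := large_factor
  obtain ⟨CB, hCB, hBT⟩ := BT_window
  set v : ℝ := min (1 / 4) (κ / (3 * CL)) with hv
  have hv0 : 0 < v := lt_min (by norm_num) (by positivity)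
  have hv2 : v < 1 / 2 := (min_le_left _ _).trans_lt (by norm_num)
  have hvL : CL * v ≤ κ / 3 := by
    have : v ≤ κ / (3 * CL) := min_le_right _ _
    calc CL * v ≤ CL * (κ / (3 * CL)) := mul_le_mul_of_nonneg_left this (by linarith)
      _ = κ / 3 := by field_simp
  obtain ⟨n₁, hn₁⟩ := hL v hv0 hv2
  obtain ⟨n₂, hn₂⟩ := hBT v hv0 hv2
  obtain ⟨n₃, hn₃⟩ := partA hΔ hD hcl ht (κ * η * v / (6 * lam * CB)) (by
    have := lam_pos; positivity)
  obtain ⟨n₄, hn₄⟩ := partB (κ * η / (3 * lam * Δ)) (by have := lam_pos; positivity)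
  refine ⟨max (max n₁ n₂) (max n₃ n₄), fun n hn => ?_⟩
  have e1 := hn₁ n (((le_max_left _ _).trans (le_max_left _ _)).trans hn)
  have e2 := hn₂ n (((le_max_right _ _).trans (le_max_left _ _)).trans hn)
  have e3 := hn₃ n (((le_max_left _ _).trans (le_max_right _ _)).trans hn)
  have e4 := hn₄ n (((le_max_right _ _).trans (le_max_right _ _)).trans hn)
  set P1 : ℕ → Prop := fun p => ∃ r, r.Prime ∧ r ∣ p - 1 ∧ (1 - v) * Real.log p < Real.log r with hP1
  have hN := NN_pos n
  have hlam := lam_pos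
  have hsplit : rho n (fun p => η * Real.log p < ZZ D cl p) ≤
      rho n P1 + rho n (fun p => η * Real.log p < ZZ D cl p ∧ ¬ P1 p) := by
    refine le_trans (rho_mono (Q := fun p => P1 p ∨ (η * Real.log p < ZZ D cl p ∧ ¬ P1 p)) ?_)
      (rho_or n _ _)
    intro p _ h
    by_cases h1 : P1 p
    · exact Or.inl h1
    · exact Or.inr ⟨h, h1⟩
  -- Markov
  have hmarkov : rho n (fun p => η * Real.log p < ZZ D cl p ∧ ¬ P1 p) ≤
      lam / (η * NN n) * ∑ p ∈ (W n).filter (fun p => ¬ P1 p), 1 / (p : ℝ) * ZZ D cl p := by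
    rw [rho_def, Finset.mul_sum]
    calc ∑ p ∈ (W n).filter (fun p : ℕ => η * Real.log p < ZZ D cl p ∧ ¬ P1 p), (1 : ℝ) / p
        ≤ ∑ p ∈ (W n).filter (fun p : ℕ => η * Real.log p < ZZ D cl p ∧ ¬ P1 p),
            lam / (η * NN n) * (1 / (p : ℝ) * ZZ D cl p) := by
          apply Finset.sum_le_sum
          intro p hp
          rw [mem_filter] at hp
          have hp' := mem_W'.mp hp.1
          have hp0 : (0 : ℝ) < p := by exact_mod_cast hp'.1.pos
          have h1 : 1 ≤ lam / (η * NN n) * ZZ D cl p := by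
            rw [div_mul_eq_mul_div, le_div_iff₀ (by positivity)]
            have h2 : η * NN n ≤ η * (lam * Real.log p) := mul_le_mul_of_nonneg_left hp'.2.1.le hη.le
            have h3 : lam * (η * Real.log p) ≤ lam * ZZ D cl p :=
              mul_le_mul_of_nonneg_left hp.2.1.le hlam.le
            linarith
          have h4 : 0 ≤ (1 : ℝ) / p := by positivity
          calc (1 : ℝ) / p = (1 / p) * 1 := by ring
            _ ≤ (1 / p) * (lam / (η * NN n) * ZZ D cl p) := mul_le_mul_of_nonneg_left h1 h4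
            _ = _ := by ring
      _ ≤ _ := by
          apply Finset.sum_le_sum_of_subset_of_nonneg
          · intro p hp
            rw [mem_filter] at hp ⊢
            exact ⟨hp.1, hp.2.2⟩
          · intro p _ _
            have := ZZ_nonneg D cl p
            positivity
  -- split of the excess
  have hZ : ∀ p ∈ W n, ZZ D cl p ≤ ∑ r ∈ (p - 1).primeFactors, GG D cl r +
      Δ * ∑ r ∈ (p - 1).primeFactors, (((p - 1).factorization r : ℝ) - 1) * Real.log r := by
    intro p hp
    have hp' := mem_W'.mp hp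
    have hp1 : p - 1 ≠ 0 := by have := hp'.1.two_le; omega
    unfold ZZ
    rw [Finset.mul_sum, ← Finset.sum_add_distrib]
    apply Finset.sum_le_sum
    intro r hr
    have hrp := Nat.prime_of_mem_primeFactors hr
    have hv1 : 1 ≤ (p - 1).factorization r :=
      (hrp.dvd_iff_one_le_factorization hp1).mp (Nat.dvd_of_mem_primeFactors hr)
    have hv1' : (1 : ℝ) ≤ ((p - 1).factorization r : ℝ) := by exact_mod_cast hv1
    have hG := GG_le hΔ.le hD hcl hrp.one_lt.le
    have : (((p - 1).factorization r : ℝ) - 1) * GG D cl r ≤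
        (((p - 1).factorization r : ℝ) - 1) * (Δ * Real.log r) :=
      mul_le_mul_of_nonneg_left hG (by linarith)
    linarith
  set Y := ⌊Real.exp (NN n)⌋₊ with hY
  have hfirst : ∑ p ∈ (W n).filter (fun p => ¬ P1 p), 1 / (p : ℝ) *
      ∑ r ∈ (p - 1).primeFactors, GG D cl r ≤ 2 * CB / v * (κ * η * v / (6 * lam * CB) * NN n) := by
    have h1 : ∀ p ∈ (W n).filter (fun p => ¬ P1 p), ∑ r ∈ (p - 1).primeFactors, GG D cl r ≤
        ∑ r ∈ PZ Y, if r ∣ p - 1 ∧ Real.log r ≤ (1 - v) * Real.log p then GG D cl r else 0 := by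
      intro p hp
      rw [mem_filter] at hp
      have hpY := le_exp_of_mem_W hp.1
      rw [← Finset.sum_filter]
      apply Finset.sum_le_sum_of_subset_of_nonneg
      · intro r hr
        have hrp := Nat.prime_of_mem_primeFactors hr
        rw [mem_filter, mem_PZ]
        refine ⟨⟨hrp, ?_⟩, Nat.dvd_of_mem_primeFactors hr, ?_⟩
        · have := Nat.le_of_mem_primeFactors hr
          omega
        · by_contra hcon
          exact hp.2 ⟨r, hrp, Nat.dvd_of_mem_primeFactors hr, not_le.mp hcon⟩
      · intro r _ _; exact GG_nonneg _ _ _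
    calc ∑ p ∈ (W n).filter (fun p => ¬ P1 p), 1 / (p : ℝ) *
          ∑ r ∈ (p - 1).primeFactors, GG D cl r
        ≤ ∑ p ∈ (W n).filter (fun p => ¬ P1 p), 1 / (p : ℝ) *
          ∑ r ∈ PZ Y, (if r ∣ p - 1 ∧ Real.log r ≤ (1 - v) * Real.log p then GG D cl r else 0) := by
          apply Finset.sum_le_sum
          intro p hp
          exact mul_le_mul_of_nonneg_left (h1 p hp) (by positivity)
      _ ≤ ∑ p ∈ W n, 1 / (p : ℝ) *
          ∑ r ∈ PZ Y, (if r ∣ p - 1 ∧ Real.log r ≤ (1 - v) * Real.log p then GG D cl r else 0) := by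
          apply Finset.sum_le_sum_of_subset_of_nonneg (Finset.filter_subset _ _)
          intro p _ _
          apply mul_nonneg (by positivity)
          apply Finset.sum_nonneg
          intro r _
          split_ifs
          · exact GG_nonneg _ _ _
          · exact le_rfl
      _ = ∑ r ∈ PZ Y, GG D cl r *
            rho n (fun p => r ∣ p - 1 ∧ Real.log r ≤ (1 - v) * Real.log p) := by
          simp_rw [Finset.mul_sum]
          rw [Finset.sum_comm]
          apply Finset.sum_congr rfl
          intro r _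
          unfold rho
          rw [Finset.mul_sum, Finset.sum_filter]
          apply Finset.sum_congr rfl
          intro p _
          split_ifs <;> ring
      _ ≤ ∑ r ∈ PZ Y, 2 * CB / v * (GG D cl r / r) := by
          apply Finset.sum_le_sum
          intro r hr
          rw [mem_PZ] at hr
          have hr2 : (2 : ℝ) ≤ r := by exact_mod_cast hr.1.two_le
          have h2 := e2 r hr.1.one_lt.le
          rw [Nat.totient_prime hr.1, Nat.cast_sub hr.1.one_lt.le] at h2
          have h3 : CB / (v * ((r : ℝ) - (1 : ℕ))) ≤ 2 * CB / v * (1 / r) := by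
            rw [div_mul_div_comm, mul_one]
            rw [div_le_div_iff₀ (by push_cast; apply mul_pos hv0; linarith) (by positivity)]
            push_cast
            have : 0 < CB * v := by positivity
            nlinarith
          calc GG D cl r * rho n (fun p => r ∣ p - 1 ∧ Real.log r ≤ (1 - v) * Real.log p)
              ≤ GG D cl r * (2 * CB / v * (1 / r)) :=
                mul_le_mul_of_nonneg_left (h2.trans h3) (GG_nonneg _ _ _)
            _ = _ := by ring
      _ = 2 * CB / v * ∑ r ∈ PZ Y, GG D cl r / r := by rw [Finset.mul_sum]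
      _ ≤ _ := mul_le_mul_of_nonneg_left e3 (by positivity)
  have hsecond : ∑ p ∈ (W n).filter (fun p => ¬ P1 p), 1 / (p : ℝ) *
      (Δ * ∑ r ∈ (p - 1).primeFactors, (((p - 1).factorization r : ℝ) - 1) * Real.log r) ≤
      Δ * (κ * η / (3 * lam * Δ) * NN n) := by
    refine le_trans ?_ (mul_le_mul_of_nonneg_left e4 hΔ.le)
    rw [Finset.mul_sum]
    have hnn : ∀ p ∈ W n, 0 ≤ ∑ r ∈ (p - 1).primeFactors,
        (((p - 1).factorization r : ℝ) - 1) * Real.log r := by
      intro p hp
      have hp' := mem_W'.mp hp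
      have hp1 : p - 1 ≠ 0 := by have := hp'.1.two_le; omega
      apply Finset.sum_nonneg
      intro r hr
      have hrp := Nat.prime_of_mem_primeFactors hr
      have hv1 : 1 ≤ (p - 1).factorization r :=
        (hrp.dvd_iff_one_le_factorization hp1).mp (Nat.dvd_of_mem_primeFactors hr)
      have hv1' : (1 : ℝ) ≤ ((p - 1).factorization r : ℝ) := by exact_mod_cast hv1
      exact mul_nonneg (by linarith) (Real.log_natCast_nonneg _)
    refine (Finset.sum_le_sum_of_subset_of_nonneg (Finset.filter_subset _ _) ?_).trans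
      (le_of_eq ?_)
    · intro p hp _
      have := hnn p hp
      positivity
    · apply Finset.sum_congr rfl
      intro p _
      ring
  have hsum : ∑ p ∈ (W n).filter (fun p => ¬ P1 p), 1 / (p : ℝ) * ZZ D cl p ≤
      2 * CB / v * (κ * η * v / (6 * lam * CB) * NN n) + Δ * (κ * η / (3 * lam * Δ) * NN n) := by
    refine le_trans ?_ (add_le_add hfirst hsecond)
    rw [← Finset.sum_add_distrib]
    apply Finset.sum_le_sum
    intro p hp
    rw [← mul_add]
    exact mul_le_mul_of_nonneg_left (hZ p (mem_filter.mp hp).1) (by positivity)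
  have hfin : lam / (η * NN n) * (2 * CB / v * (κ * η * v / (6 * lam * CB) * NN n) +
      Δ * (κ * η / (3 * lam * Δ) * NN n)) = κ / 3 + κ / 3 := by
    have hCB0 : CB ≠ 0 := by positivity
    field_simp
    ring
  have h5 := mul_le_mul_of_nonneg_left hsum (show 0 ≤ lam / (η * NN n) by positivity)
  linarith

/-- the pointwise inequality -/
theorem point {Δ D₂ : ℝ} {D : ℕ → ℝ} (hD : AddFn Δ D₂ D) {al lo g w : ℝ} (hal : 0 ≤ al)
    (hlo : lo = al - 3 / 4 * g) (hg : 0 < g) (hw : 0 < w) {n p q : ℕ} (hp : p ∈ W n) (hp2 : 2 < p)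
    (hq : q.Prime) (hqp : q ∣ p - 1) (hyq : D q ≤ lo * Real.log q) (hwq : w * Real.log p ≤ Real.log q)
    (hZ : ZZ D (al + w * g / 8) p ≤ w * g / 8 * Real.log p) (hsm : D₂ / p ≤ w * g / 8 * Real.log p) :
    D p / Real.log p ≤ al - w * g / 4 := by
  have hp' := mem_W'.mp hp
  have hlog := log_pos_of_mem_W hp
  have hp1 : p - 1 ≠ 0 := by omega
  rw [div_le_iff₀ hlog]
  set cl := al + w * g / 8 with hcl
  have hcl0 : 0 ≤ cl := by positivity
  have hlogmul : ∀ a b : ℕ, a ≠ 0 → b ≠ 0 → Real.log ((a * b : ℕ) : ℝ) = Real.log a + Real.log b := by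
    intro a b ha hb
    rw [Nat.cast_mul, Real.log_mul (by exact_mod_cast ha) (by exact_mod_cast hb)]
  have eD := add_expand D hD.mul (p - 1) hp1
  have eL := add_expand (fun m => Real.log (m : ℝ)) hlogmul (p - 1) hp1
  have hqm : q ∈ (p - 1).primeFactors := Nat.mem_primeFactors.mpr ⟨hq, hqp, hp1⟩
  have hterm : ∀ r ∈ (p - 1).primeFactors,
      0 ≤ ((p - 1).factorization r : ℝ) * (cl * Real.log r + GG D cl r - D r) := by
    intro r _
    apply mul_nonneg (Nat.cast_nonneg _)
    have : D r - cl * Real.log r ≤ GG D cl r := le_max_right _ _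
    linarith
  have hsingle := Finset.single_le_sum hterm hqm
  have hv1 : (1 : ℝ) ≤ ((p - 1).factorization q : ℝ) := by
    exact_mod_cast (hq.dvd_iff_one_le_factorization hp1).mp hqp
  have hlogq : 0 < Real.log q := Real.log_pos (by exact_mod_cast hq.one_lt)
  have hq1 : 3 / 4 * g * Real.log q ≤ cl * Real.log q + GG D cl q - D q := by
    have h1 := GG_nonneg D cl q
    have h2 : 0 ≤ w * g / 8 * Real.log q := by positivity
    rw [hlo] at hyq
    rw [hcl]
    nlinarith
  have hq2 : 3 / 4 * g * Real.log q ≤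
      ((p - 1).factorization q : ℝ) * (cl * Real.log q + GG D cl q - D q) := by
    have h0 : 0 ≤ 3 / 4 * g * Real.log q := by positivity
    nlinarith
  have hsum : ∑ r ∈ (p - 1).primeFactors,
      ((p - 1).factorization r : ℝ) * (cl * Real.log r + GG D cl r - D r) =
      cl * Real.log ((p - 1 : ℕ) : ℝ) + ZZ D cl p - D (p - 1) := by
    rw [eD]
    have eL' : Real.log ((p - 1 : ℕ) : ℝ) = ∑ r ∈ (p - 1).primeFactors,
        ((p - 1).factorization r : ℝ) * Real.log r := eL
    rw [eL']
    unfold ZZ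
    rw [Finset.mul_sum, ← Finset.sum_add_distrib, ← Finset.sum_sub_distrib]
    apply Finset.sum_congr rfl
    intro r _
    ring
  rw [hsum] at hsingle
  have hshift := (abs_le.mp (hD.shift p hp'.1 hp2)).2
  have hlogle : Real.log ((p - 1 : ℕ) : ℝ) ≤ Real.log p := by
    apply Real.log_le_log
    · exact_mod_cast Nat.pos_of_ne_zero hp1
    · exact_mod_cast Nat.sub_le _ _
  have h3 := mul_le_mul_of_nonneg_left hlogle hcl0
  have h4 : 3 / 4 * g * (w * Real.log p) ≤ 3 / 4 * g * Real.log q :=
    mul_le_mul_of_nonneg_left hwq (by positivity)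
  have h5 : 0 ≤ w * g / 8 * Real.log p := by positivity
  have h6 : cl * Real.log p = al * Real.log p + w * g / 8 * Real.log p := by rw [hcl]; ring
  nlinarith

end

end Pool.Agent.NTot.PC
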