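import Pool.Agent.NTot.Defs2
import Pool.Agent.NTot.LevLe

/-!
# M12b: the pointwise inequality
-/

set_option autoImplicit false

namespace Pool.Agent.NTot

open Finset Filter Topology

noncomputable section

namespace Pw

open Fr

/-! ### numerical facts -/

theorem NN_rpow (n : ℕ) (c : ℝ) : (NN n) ^ c = (lam ^ c) ^ n := by
  unfold NN
  rw [← Real.rpow_natCast, ← Real.rpow_mul lam_pos.le, mul_comm, Real.rpow_mul lam_pos.le,
    Real.rpow_natCast]

theorem poly_le (C : ℝ) (A : ℕ) : ∃ n₀ : ℕ, ∀ n, n₀ ≤ n →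
    C * (n : ℝ) ^ A ≤ (NN n) ^ (1 / 20 : ℝ) := by
  have hr : (1 : ℝ) < lam ^ (1 / 20 : ℝ) := Real.one_lt_rpow one_lt_lam (by norm_num)
  have h := tendsto_pow_const_div_const_pow_of_one_lt A hr
  have h2 : ∀ᶠ n : ℕ in atTop, (n : ℝ) ^ A / (lam ^ (1 / 20 : ℝ)) ^ n < 1 / (|C| + 1) :=
    h.eventually_lt_const (by positivity)
  obtain ⟨n₀, hn₀⟩ := eventually_atTop.1 h2
  refine ⟨n₀, fun n hn => ?_⟩
  have h3 := hn₀ n hn
  rw [NN_rpow]
  have hpos : 0 < (lam ^ (1 / 20 : ℝ)) ^ n := by positivity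
  rw [div_lt_iff₀ hpos] at h3
  have h4 : C * (n : ℝ) ^ A ≤ (|C| + 1) * (n : ℝ) ^ A := by
    apply mul_le_mul_of_nonneg_right _ (by positivity)
    linarith [le_abs_self C]
  refine h4.trans ?_
  have h5 : (|C| + 1) * (n : ℝ) ^ A ≤
      (|C| + 1) * (1 / (|C| + 1) * (lam ^ (1 / 20 : ℝ)) ^ n) :=
    mul_le_mul_of_nonneg_left h3.le (by positivity)
  refine h5.trans (le_of_eq ?_)
  field_simp

theorem log_MM_le (b n : ℕ) (hn : 1 ≤ n) : Real.log (MM b n) ≤ 2 * (n : ℝ) ^ (4 * b + 8) := by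
  have h1 : (1 : ℝ) ≤ (n : ℝ) ^ (4 * b + 8) := one_le_pow₀ (by exact_mod_cast hn)
  have h2 : (MM b n : ℝ) ≤ Real.exp (2 * (n : ℝ) ^ (4 * b + 8)) := by
    unfold MM
    have h3 := (Nat.ceil_lt_add_one (Real.exp_pos ((n : ℝ) ^ (4 * b + 8))).le).le
    refine h3.trans ?_
    have h4 : Real.exp (2 * (n : ℝ) ^ (4 * b + 8)) =
        Real.exp ((n : ℝ) ^ (4 * b + 8)) * Real.exp ((n : ℝ) ^ (4 * b + 8)) := by
      rw [← Real.exp_add]; ring_nf
    rw [h4]
    have h5 : 2 ≤ Real.exp ((n : ℝ) ^ (4 * b + 8)) := by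
      have := Real.add_one_le_exp ((n : ℝ) ^ (4 * b + 8))
      linarith
    nlinarith
  have h6 : (0 : ℝ) < MM b n := by
    unfold MM
    exact_mod_cast Nat.ceil_pos.2 (Real.exp_pos _)
  rwa [← Real.log_le_iff_le_exp h6] at h2

theorem one_le_MM (b n : ℕ) : 1 ≤ MM b n := by
  unfold MM
  exact Nat.ceil_pos.2 (Real.exp_pos _)

/-- all the numerical requirements on `n` -/
theorem numeric (Δ D₂ : ℝ) (hΔ : 1 ≤ Δ) (hD₂ : 0 ≤ D₂) (b : ℕ) (hb : 2 ≤ b) : ∃ n₀ : ℕ,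
    ∀ n, n₀ ≤ n → 7 ≤ n ∧ 144 * b ≤ n ∧ (100 : ℝ) ≤ NN n ∧ (NN n) ^ (-(1 / 10) : ℝ) ≤ 1 / 2 ∧
    2 * (KK b n * (Real.log (MM b n) + 1) + 1) / NN n ≤ 1 ∧
    2 * (n : ℝ) ^ 2 * (Δ * (NN n) ^ (3 / 4 : ℝ) + D₂ + KK b n * (Δ * Real.log (MM b n) + D₂)) / NN n
      ≤ 1 ∧
    3 * (2 * (KK b n * (Real.log (MM b n) + 1) + 1) / NN n) * (n : ℝ) ^ (2 * b + 1) +
      b * (2 * (n : ℝ) ^ 2 * (Δ * (NN n) ^ (3 / 4 : ℝ) + D₂ +
        KK b n * (Δ * Real.log (MM b n) + D₂)) / NN n) * (Δ * (n : ℝ) ^ 2 + 1) ^ (b - 1) ≤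
      (NN n) ^ (-(1 / 10) : ℝ) := by
  obtain ⟨n1, h1⟩ := poly_le 100 0
  obtain ⟨n2, h2⟩ := poly_le 48 (8 * b + 11)
  obtain ⟨C', hC'⟩ : ∃ C' : ℝ, C' = 2 * b * (3 * Δ + 2 * D₂) * (Δ + 1) ^ (b - 1) := ⟨_, rfl⟩
  obtain ⟨n3, h3⟩ := poly_le (2 * C') (8 * b + 10)
  obtain ⟨n4, h4⟩ := poly_le (2 * (3 * Δ + 2 * D₂)) (6 * b + 12)
  refine ⟨max 7 (max (144 * b) (max n1 (max n2 (max n3 n4)))), fun n hn => ?_⟩
  simp only [max_le_iff] at hn
  obtain ⟨hn7, hnb, hn1, hn2, hn3, hn4⟩ := hn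
  have e1 := h1 n hn1
  have e2 := h2 n hn2
  have e3 := h3 n hn3
  have e4 := h4 n hn4
  have hn1' : (1 : ℝ) ≤ n := by exact_mod_cast (by omega : 1 ≤ n)
  obtain ⟨x, hx⟩ : ∃ x : ℝ, x = (NN n) ^ (1 / 20 : ℝ) := ⟨_, rfl⟩
  rw [← hx] at e1 e2 e3 e4
  rw [pow_zero, mul_one] at e1
  have hxN : NN n = x ^ 20 := by
    rw [hx, ← Real.rpow_natCast, ← Real.rpow_mul (NN_pos n).le]; norm_num
  have hx34 : (NN n) ^ (3 / 4 : ℝ) = x ^ 15 := by
    rw [hx, ← Real.rpow_natCast, ← Real.rpow_mul (NN_pos n).le]; norm_num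
  have hx10 : (NN n) ^ (-(1 / 10) : ℝ) = (x ^ 2)⁻¹ := by
    rw [hx, ← Real.rpow_natCast, ← Real.rpow_mul (NN_pos n).le, ← Real.rpow_neg (NN_pos n).le]
    norm_num
  have hx1 : 1 ≤ x := by linarith
  have hx0 : 0 < x := by linarith
  rw [hx34, hx10, hxN]
  have hlogM := log_MM_le b n (by omega)
  have hlogM0 : 0 ≤ Real.log (MM b n) := Real.log_natCast_nonneg _
  have hKK : (KK b n : ℝ) = (n : ℝ) ^ (2 * b + 2) := by unfold KK; push_cast; ring
  rw [hKK]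
  have hp : ∀ k l : ℕ, k ≤ l → (n : ℝ) ^ k ≤ (n : ℝ) ^ l := fun k l hkl => pow_le_pow_right₀ hn1' hkl
  have hp1 : ∀ k : ℕ, (1 : ℝ) ≤ (n : ℝ) ^ k := fun k => one_le_pow₀ hn1'
  -- bound of the first quantity
  have hKM : 2 * ((n : ℝ) ^ (2 * b + 2) * (Real.log (MM b n) + 1) + 1) ≤ 8 * (n : ℝ) ^ (6 * b + 10) := by
    have f1 : (n : ℝ) ^ (2 * b + 2) * (Real.log (MM b n) + 1) ≤
        (n : ℝ) ^ (2 * b + 2) * (3 * (n : ℝ) ^ (4 * b + 8)) := by
      apply mul_le_mul_of_nonneg_left _ (by positivity)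
      have := hp1 (4 * b + 8)
      linarith
    have f2 : (n : ℝ) ^ (2 * b + 2) * (3 * (n : ℝ) ^ (4 * b + 8)) = 3 * (n : ℝ) ^ (6 * b + 10) := by
      rw [show 6 * b + 10 = (2 * b + 2) + (4 * b + 8) by ring, pow_add]; ring
    have f3 := hp1 (6 * b + 10)
    linarith
  have hErr : Δ * x ^ 15 + D₂ + (n : ℝ) ^ (2 * b + 2) * (Δ * Real.log (MM b n) + D₂) ≤
      (3 * Δ + 2 * D₂) * ((n : ℝ) ^ (6 * b + 10) * x ^ 15) := by
    have f0 : (1 : ℝ) ≤ x ^ 15 := one_le_pow₀ hx1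
    have f1 : (n : ℝ) ^ (2 * b + 2) * (Δ * Real.log (MM b n) + D₂) ≤
        (2 * Δ + D₂) * (n : ℝ) ^ (6 * b + 10) := by
      calc (n : ℝ) ^ (2 * b + 2) * (Δ * Real.log (MM b n) + D₂)
          ≤ (n : ℝ) ^ (2 * b + 2) * (Δ * (2 * (n : ℝ) ^ (4 * b + 8)) + D₂ * (n : ℝ) ^ (4 * b + 8)) := by
            apply mul_le_mul_of_nonneg_left _ (by positivity)
            have g1 : Δ * Real.log (MM b n) ≤ Δ * (2 * (n : ℝ) ^ (4 * b + 8)) :=
              mul_le_mul_of_nonneg_left hlogM (by linarith)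
            have g2 : D₂ * 1 ≤ D₂ * (n : ℝ) ^ (4 * b + 8) :=
              mul_le_mul_of_nonneg_left (hp1 _) hD₂
            linarith
        _ = (2 * Δ + D₂) * (n : ℝ) ^ (6 * b + 10) := by
            rw [show 6 * b + 10 = (2 * b + 2) + (4 * b + 8) by ring, pow_add]; ring
    have f2 : (1 : ℝ) ≤ (n : ℝ) ^ (6 * b + 10) := hp1 _
    have f3 : (n : ℝ) ^ (6 * b + 10) ≤ (n : ℝ) ^ (6 * b + 10) * x ^ 15 :=
      le_mul_of_one_le_right (by positivity) f0
    have f4 : x ^ 15 ≤ (n : ℝ) ^ (6 * b + 10) * x ^ 15 := le_mul_of_one_le_left (by positivity) f2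
    have f5 : Δ * x ^ 15 ≤ Δ * ((n : ℝ) ^ (6 * b + 10) * x ^ 15) :=
      mul_le_mul_of_nonneg_left f4 (by linarith)
    have f6 : D₂ * 1 ≤ D₂ * ((n : ℝ) ^ (6 * b + 10) * x ^ 15) :=
      mul_le_mul_of_nonneg_left (by linarith) hD₂
    have f7 : (2 * Δ + D₂) * (n : ℝ) ^ (6 * b + 10) ≤
        (2 * Δ + D₂) * ((n : ℝ) ^ (6 * b + 10) * x ^ 15) :=
      mul_le_mul_of_nonneg_left f3 (by linarith)
    linarith
  have hErr0 : 0 ≤ Δ * x ^ 15 + D₂ + (n : ℝ) ^ (2 * b + 2) * (Δ * Real.log (MM b n) + D₂) := by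
    positivity
  obtain ⟨δ, hδ⟩ : ∃ δ, δ = 2 * ((n : ℝ) ^ (2 * b + 2) * (Real.log (MM b n) + 1) + 1) / x ^ 20 :=
    ⟨_, rfl⟩
  obtain ⟨ε, hε⟩ : ∃ ε, ε = 2 * (n : ℝ) ^ 2 * (Δ * x ^ 15 + D₂ +
      (n : ℝ) ^ (2 * b + 2) * (Δ * Real.log (MM b n) + D₂)) / x ^ 20 := ⟨_, rfl⟩
  rw [← hδ, ← hε]
  have hδ1 : δ ≤ 8 * (n : ℝ) ^ (6 * b + 10) / x ^ 20 := by
    rw [hδ]; exact div_le_div_of_nonneg_right hKM (by positivity)
  have hε1 : ε ≤ 2 * (3 * Δ + 2 * D₂) * (n : ℝ) ^ (6 * b + 12) / x ^ 5 := by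
    rw [hε]
    calc 2 * (n : ℝ) ^ 2 * (Δ * x ^ 15 + D₂ +
          (n : ℝ) ^ (2 * b + 2) * (Δ * Real.log (MM b n) + D₂)) / x ^ 20
        ≤ 2 * (n : ℝ) ^ 2 * ((3 * Δ + 2 * D₂) * ((n : ℝ) ^ (6 * b + 10) * x ^ 15)) / x ^ 20 := by
          apply div_le_div_of_nonneg_right _ (by positivity)
          exact mul_le_mul_of_nonneg_left hErr (by positivity)
      _ = 2 * (3 * Δ + 2 * D₂) * (n : ℝ) ^ (6 * b + 12) / x ^ 5 := by
          rw [show x ^ 20 = x ^ 15 * x ^ 5 by ring, show 6 * b + 12 = 2 + (6 * b + 10) by ring,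
            pow_add (n : ℝ) 2]
          field_simp
  have hxk : ∀ k : ℕ, (1 : ℝ) ≤ x ^ k := fun k => one_le_pow₀ hx1
  have hxmono : ∀ k l : ℕ, k ≤ l → x ^ k ≤ x ^ l := fun k l hkl => pow_le_pow_right₀ hx1 hkl
  have hε0 : 0 ≤ ε := by rw [hε]; positivity
  refine ⟨hn7, hnb, ?_, ?_, ?_, ?_, ?_⟩
  · calc (100 : ℝ) ≤ x := e1
      _ = x ^ 1 := by ring
      _ ≤ x ^ 20 := hxmono 1 20 (by norm_num)
  · rw [inv_le_comm₀ (by positivity) (by norm_num)]
    nlinarith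
  · refine hδ1.trans ?_
    rw [div_le_one (by positivity)]
    calc 8 * (n : ℝ) ^ (6 * b + 10) ≤ 48 * (n : ℝ) ^ (8 * b + 11) := by
          have := hp (6 * b + 10) (8 * b + 11) (by omega)
          have h0 : (0 : ℝ) ≤ (n : ℝ) ^ (8 * b + 11) := by positivity
          linarith
      _ ≤ x := e2
      _ = x ^ 1 := by ring
      _ ≤ x ^ 20 := hxmono 1 20 (by norm_num)
  · refine hε1.trans ?_
    rw [div_le_one (by positivity)]
    calc 2 * (3 * Δ + 2 * D₂) * (n : ℝ) ^ (6 * b + 12) ≤ x := e4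
      _ = x ^ 1 := by ring
      _ ≤ x ^ 5 := hxmono 1 5 (by norm_num)
  · have g1 : 3 * δ * (n : ℝ) ^ (2 * b + 1) ≤ (x ^ 2)⁻¹ / 2 := by
      calc 3 * δ * (n : ℝ) ^ (2 * b + 1)
          ≤ 3 * (8 * (n : ℝ) ^ (6 * b + 10) / x ^ 20) * (n : ℝ) ^ (2 * b + 1) := by
            gcongr
        _ = (48 * (n : ℝ) ^ (8 * b + 11)) / (2 * x ^ 20) := by
            rw [show 8 * b + 11 = (6 * b + 10) + (2 * b + 1) by ring, pow_add]
            field_simp
            ring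
        _ ≤ x / (2 * x ^ 20) := div_le_div_of_nonneg_right e2 (by positivity)
        _ ≤ (x ^ 2)⁻¹ / 2 := by
            rw [inv_eq_one_div, div_div, div_le_div_iff₀ (by positivity) (by positivity)]
            have := hxmono 3 20 (by norm_num)
            nlinarith
    have g2 : b * ε * (Δ * (n : ℝ) ^ 2 + 1) ^ (b - 1) ≤ (x ^ 2)⁻¹ / 2 := by
      have g3 : (Δ * (n : ℝ) ^ 2 + 1) ^ (b - 1) ≤ (Δ + 1) ^ (b - 1) * (n : ℝ) ^ (2 * (b - 1)) := by
        rw [pow_mul, ← mul_pow]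
        gcongr
        have := hp1 2
        nlinarith
      calc b * ε * (Δ * (n : ℝ) ^ 2 + 1) ^ (b - 1)
          ≤ b * (2 * (3 * Δ + 2 * D₂) * (n : ℝ) ^ (6 * b + 12) / x ^ 5) *
            ((Δ + 1) ^ (b - 1) * (n : ℝ) ^ (2 * (b - 1))) := by
            gcongr
        _ = (2 * C' * (n : ℝ) ^ (8 * b + 10)) / (2 * x ^ 5) := by
            have : (n : ℝ) ^ (8 * b + 10) = (n : ℝ) ^ (6 * b + 12) * (n : ℝ) ^ (2 * (b - 1)) := by
              rw [← pow_add]; congr 1; omega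
            rw [this, hC']
            field_simp
        _ ≤ x / (2 * x ^ 5) := div_le_div_of_nonneg_right e3 (by positivity)
        _ ≤ (x ^ 2)⁻¹ / 2 := by
            rw [inv_eq_one_div, div_div, div_le_div_iff₀ (by positivity) (by positivity)]
            have := hxmono 3 5 (by norm_num)
            nlinarith
    linarith

/-! ### power mean and elementary inequalities -/

theorem pm {ι : Type*} (s : Finset ι) (w x : ι → ℝ) (hw : ∀ i ∈ s, 0 ≤ w i) (hx : ∀ i ∈ s, 0 ≤ x i)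
    (hW : ∑ i ∈ s, w i ≤ 1) (c : ℕ) : (∑ i ∈ s, w i * x i) ^ (c + 1) ≤ ∑ i ∈ s, w i * x i ^ (c + 1) := by
  have hW0 : 0 ≤ ∑ i ∈ s, w i := sum_nonneg hw
  rcases hW0.eq_or_lt with h0 | h0
  · have h1 : ∀ i ∈ s, w i = 0 := (sum_eq_zero_iff_of_nonneg hw).1 h0.symm
    rw [sum_eq_zero (fun i hi => by rw [h1 i hi, zero_mul]),
      sum_eq_zero (fun i hi => by rw [h1 i hi, zero_mul])]
    simp
  · set W := ∑ i ∈ s, w i with hWdef
    have h1 := Real.pow_arith_mean_le_arith_mean_pow s (fun i => w i / W) x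
      (fun i hi => div_nonneg (hw i hi) h0.le) (by rw [← sum_div, ← hWdef, div_self h0.ne']) hx (c + 1)
    have h2 : ∑ i ∈ s, w i * x i = W * ∑ i ∈ s, w i / W * x i := by
      rw [mul_sum]; apply sum_congr rfl; intro i _; field_simp
    have h3 : ∑ i ∈ s, w i * x i ^ (c + 1) = W * ∑ i ∈ s, w i / W * x i ^ (c + 1) := by
      rw [mul_sum]; apply sum_congr rfl; intro i _; field_simp
    rw [h2, h3, mul_pow]
    have h4 : 0 ≤ ∑ i ∈ s, w i / W * x i ^ (c + 1) := sum_nonneg fun i hi =>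
      mul_nonneg (div_nonneg (hw i hi) h0.le) (pow_nonneg (hx i hi) _)
    have h5 : W ^ (c + 1) ≤ W := by
      calc W ^ (c + 1) ≤ W ^ 1 := pow_le_pow_of_le_one h0.le hW (by omega)
        _ = W := pow_one W
    calc W ^ (c + 1) * (∑ i ∈ s, w i / W * x i) ^ (c + 1)
        ≤ W ^ (c + 1) * ∑ i ∈ s, w i / W * x i ^ (c + 1) :=
          mul_le_mul_of_nonneg_left h1 (by positivity)
      _ ≤ _ := mul_le_mul_of_nonneg_right h5 h4

theorem pow_sub_le {a y : ℝ} (ha : 0 ≤ a) (hay : a ≤ y) (c : ℕ) :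
    y ^ (c + 1) - a ^ (c + 1) ≤ (c + 1) * (y - a) * y ^ c := by
  induction c with
  | zero => simp
  | succ c ih =>
    have h1 : y ^ (c + 2) - a ^ (c + 2) = y * (y ^ (c + 1) - a ^ (c + 1)) + a ^ (c + 1) * (y - a) := by
      ring
    have h2 : a ^ (c + 1) ≤ y ^ (c + 1) := by gcongr
    have h3 : y * (y ^ (c + 1) - a ^ (c + 1)) ≤ y * ((c + 1) * (y - a) * y ^ c) :=
      mul_le_mul_of_nonneg_left ih (ha.trans hay)
    have h4 : a ^ (c + 1) * (y - a) ≤ y ^ (c + 1) * (y - a) :=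
      mul_le_mul_of_nonneg_right h2 (by linarith)
    rw [show c + 1 + 1 = c + 2 by ring, h1]
    push_cast
    have h5 : y * ((c + 1) * (y - a) * y ^ c) = (c + 1) * (y - a) * y ^ (c + 1) := by ring
    rw [h5] at h3
    nlinarith

/-- `((1+w)/2)^2 ≤ w^{1/4}` on `[1/2,1]` -/
theorem half_sq {w : ℝ} (h1 : 1 / 2 ≤ w) (h2 : w ≤ 1) : ((1 + w) / 2) ^ 2 ≤ w ^ (1 / 4 : ℝ) := by
  obtain ⟨s, hs⟩ : ∃ s : ℝ, s = w ^ (1 / 4 : ℝ) := ⟨_, rfl⟩
  have hw : w = s ^ 4 := by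
    rw [hs, ← Real.rpow_natCast, ← Real.rpow_mul (by linarith)]; norm_num
  have hs0 : 0 ≤ s := by rw [hs]; exact Real.rpow_nonneg (by linarith) _
  have hs1 : s ≤ 1 := by rw [hs]; exact Real.rpow_le_one (by linarith) h2 (by norm_num)
  have hs2 : 4 / 5 ≤ s := by
    by_contra hcon
    push Not at hcon
    have : s ^ 4 < (4 / 5 : ℝ) ^ 4 := by gcongr
    rw [← hw] at this
    norm_num at this
    linarith
  rw [← hs, hw]
  have key : s - ((1 + s ^ 4) / 2) ^ 2 =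
      (1 - s) * (s ^ 7 + s ^ 6 + s ^ 5 + s ^ 4 + 3 * s ^ 3 + 3 * s ^ 2 + (3 * s - 1)) / 4 := by ring
  have h3 : 0 ≤ (1 - s) * (s ^ 7 + s ^ 6 + s ^ 5 + s ^ 4 + 3 * s ^ 3 + 3 * s ^ 2 + (3 * s - 1)) / 4 := by
    have : 0 ≤ 3 * s - 1 := by linarith
    have : 0 ≤ 1 - s := by linarith
    positivity
  linarith

theorem half_sq' {w δ : ℝ} (h1 : 1 / 2 ≤ w) (h2 : w ≤ 1) (hδ : 0 ≤ δ) (hδ1 : δ ≤ 1) {α : ℝ}
    (hα0 : 0 ≤ α) (hα : α ≤ (1 + w + δ) / 2) : α ^ 2 ≤ (1 + 3 * δ) * w ^ (1 / 4 : ℝ) := by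
  have h3 := half_sq h1 h2
  have h4 : α ≤ (1 + w) / 2 * (1 + δ) := by nlinarith
  calc α ^ 2 ≤ ((1 + w) / 2 * (1 + δ)) ^ 2 := by gcongr
    _ = (1 + δ) ^ 2 * ((1 + w) / 2) ^ 2 := by ring
    _ ≤ (1 + 3 * δ) * w ^ (1 / 4 : ℝ) := by
        apply mul_le_mul _ h3 (by positivity) (by positivity)
        nlinarith

/-- the final exponential step -/
theorem exp_step {x Y P τ : ℝ} (hx : x ≤ Y + τ) (hτ0 : 0 ≤ τ) (hτ : τ ≤ 1 / 2) (hY : Real.exp Y ≤ P)
    (hP : 1 ≤ P) : Real.exp x - 1 ≤ 2 * (P - 1) + 2 * τ := by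
  have h1 : Real.exp τ ≤ 1 + 2 * τ := by
    have := Real.exp_bound' hτ0 (by linarith : τ ≤ 1) (n := 1) (by norm_num)
    simp at this
    linarith
  calc Real.exp x - 1 ≤ Real.exp (Y + τ) - 1 := by
        have := Real.exp_le_exp.2 hx; linarith
    _ = Real.exp τ * Real.exp Y - 1 := by rw [Real.exp_add]; ring
    _ ≤ (1 + 2 * τ) * P - 1 := by
        have := mul_le_mul h1 hY (Real.exp_pos _).le (by linarith : (0 : ℝ) ≤ 1 + 2 * τ)
        linarith
    _ ≤ _ := by nlinarith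

/-! ### arithmetic facts -/

theorem gpf_mem {m : ℕ} (hm : 2 ≤ m) : gpf m ∈ m.primeFactors := by
  have hne : m.primeFactors.Nonempty := by
    rw [Nat.nonempty_primeFactors]; omega
  obtain ⟨a, ha, h⟩ := Finset.exists_mem_eq_sup m.primeFactors hne id
  unfold gpf
  rw [h]; exact ha

theorem le_gpf {m r : ℕ} (h : r ∈ m.primeFactors) : r ≤ gpf m := by
  unfold gpf
  exact Finset.le_sup (f := id) h

variable {Δ D₂ : ℝ} {D : ℕ → ℝ}

theorem D_one (hD : AddFn Δ D₂ D) : D 1 = 0 := by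
  have := hD.mul 1 1 one_ne_zero one_ne_zero
  simp at this
  linarith

theorem D_fact (hD : AddFn Δ D₂ D) (m : ℕ) (hm : m ≠ 0) :
    D m = ∑ r ∈ m.primeFactors, (m.factorization r : ℝ) * D r := by
  have key : ∀ m : ℕ, m ≠ 0 → D m = m.factorization.sum (fun r v => (v : ℝ) * D r) := by
    intro m
    induction m using Nat.recOnMul with
    | zero => intro h; exact absurd rfl h
    | one => intro _; rw [D_one hD]; simp
    | prime p hp =>
      intro _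
      rw [hp.factorization, Finsupp.sum_single_index (by simp)]
      simp
    | mul a b iha ihb =>
      intro hab
      have ha := left_ne_zero_of_mul hab
      have hb := right_ne_zero_of_mul hab
      rw [hD.mul a b ha hb, Nat.factorization_mul ha hb, Finsupp.sum_add_index', iha ha, ihb hb]
      · intro; simp
      · intro r v w; push_cast; ring
  rw [key m hm, Finsupp.sum, Nat.support_factorization]

theorem desc_bound (hD : AddFn Δ D₂ D) (hΔ : 0 ≤ Δ) (hD₂ : 0 ≤ D₂) {M₀ : ℕ} (s : ℕ) :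
    ∀ Q p : ℕ, desc M₀ s Q p → Q.Prime ∧ p.Prime ∧
      D p ≤ D Q + s * (Δ * Real.log M₀ + D₂) ∧
      Real.log p ≤ Real.log Q + s * (Real.log M₀ + 1) ∧ Real.log Q ≤ Real.log p := by
  have hlM : 0 ≤ Real.log M₀ := Real.log_natCast_nonneg _
  induction s with
  | zero =>
    intro Q p h
    obtain ⟨h1, h2⟩ := h
    subst h1
    simp [h2]
  | succ s ih =>
    intro Q p h
    obtain ⟨hp, hp2, hμ, hd⟩ := h
    obtain ⟨hQ, hg, h1, h2, h3⟩ := ih Q (gpf (p - 1)) hd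
    have hgm := gpf_mem (by omega : 2 ≤ p - 1)
    have hgd := Nat.dvd_of_mem_primeFactors hgm
    obtain ⟨μ, hμd⟩ : ∃ μ, μ = (p - 1) / gpf (p - 1) := ⟨_, rfl⟩
    rw [← hμd] at hμ
    have hmul : gpf (p - 1) * μ = p - 1 := by rw [hμd]; exact Nat.mul_div_cancel' hgd
    have hμ1 : 1 ≤ μ := by
      rcases Nat.eq_zero_or_pos μ with h | h
      · rw [h] at hmul; omega
      · exact h
    have hp0 : (0 : ℝ) < p := by exact_mod_cast hp.pos
    have hg0 : (0 : ℝ) < gpf (p - 1) := by exact_mod_cast hg.pos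
    have hμ0 : (0 : ℝ) < μ := by exact_mod_cast hμ1
    have hlμ : Real.log μ ≤ Real.log M₀ := Real.log_le_log hμ0 (by exact_mod_cast hμ.le)
    have hlμ0 : 0 ≤ Real.log μ := Real.log_natCast_nonneg _
    refine ⟨hQ, hp, ?_, ?_, ?_⟩
    · have e1 := hD.shift p hp hp2
      have e2 : D₂ / p ≤ D₂ := div_le_self hD₂ (by exact_mod_cast hp.one_lt.le)
      have e3 : D (p - 1) = D (gpf (p - 1)) + D μ := by
        nth_rewrite 1 [← hmul]
        exact hD.mul _ _ hg.ne_zero (by omega)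
      have e4 := hD.le_log μ hμ1
      have e5 : Δ * Real.log μ ≤ Δ * Real.log M₀ := mul_le_mul_of_nonneg_left hlμ hΔ
      have e6 := (abs_le.1 e1).2
      push_cast
      linarith
    · have e1 : (p : ℝ) ≤ 2 * (gpf (p - 1) * μ) := by
        have : p ≤ 2 * (gpf (p - 1) * μ) := by omega
        exact_mod_cast this
      have e2 := Real.log_le_log hp0 e1
      rw [Real.log_mul (by norm_num) (by positivity), Real.log_mul hg0.ne' hμ0.ne'] at e2
      have e3 : Real.log 2 < 0.6931471808 := Real.log_two_lt_d9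
      push_cast
      linarith
    · have e1 : (gpf (p - 1) : ℝ) ≤ p := by
        have := Nat.le_of_dvd (by omega) hgd
        exact_mod_cast (by omega : gpf (p - 1) ≤ p)
      exact h3.trans (Real.log_le_log hg0 e1)

theorem mem_lpd {n m r : ℕ} : r ∈ lpd n m ↔ r ∈ LP n ∧ r ∣ m := by
  unfold lpd; rw [mem_filter]

theorem sum_log_lpd {n m : ℕ} (hm : 1 ≤ m) : ∑ r ∈ lpd n m, Real.log r ≤ Real.log m := by
  have h1 : ∏ r ∈ lpd n m, r ∣ m := by
    apply Finset.prod_primes_dvd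
    · intro r hr; exact (mem_LP.1 (mem_lpd.1 hr).1).1.prime
    · intro r hr; exact (mem_lpd.1 hr).2
  have h2 : (∏ r ∈ lpd n m, (r : ℝ)) ≤ m := by
    have h0 : ((∏ r ∈ lpd n m, r : ℕ) : ℝ) ≤ (m : ℝ) := Nat.cast_le.2 (Nat.le_of_dvd (by omega) h1)
    rwa [Nat.cast_prod] at h0
  have h3 : 0 < ∏ r ∈ lpd n m, (r : ℝ) := prod_pos fun r hr => by
    exact_mod_cast (mem_LP.1 (mem_lpd.1 hr).1).1.pos
  rw [← Real.log_prod (fun r hr => by
    have : (0 : ℝ) < r := by exact_mod_cast (mem_LP.1 (mem_lpd.1 hr).1).1.pos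
    exact this.ne')]
  exact Real.log_le_log h3 h2

theorem D_split (hD : AddFn Δ D₂ D) (hΔ : 0 ≤ Δ) {n m : ℕ} (hm : 1 ≤ m) {B : ℝ}
    (hsq : ∀ r ∈ LP n, ¬ r ^ 2 ∣ m)
    (hB : ∑ r ∈ m.primeFactors.filter (fun r => r ∉ LP n), (m.factorization r : ℝ) * Real.log r ≤ B) :
    D m ≤ ∑ r ∈ lpd n m, D r + Δ * B := by
  rw [D_fact hD m (by omega), ← sum_filter_add_sum_filter_not m.primeFactors (fun r => r ∈ LP n)]
  have h1 : m.primeFactors.filter (fun r => r ∈ LP n) = lpd n m := by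
    ext r
    rw [mem_filter, mem_lpd, Nat.mem_primeFactors]
    constructor
    · rintro ⟨⟨_, h2, _⟩, h3⟩; exact ⟨h3, h2⟩
    · rintro ⟨h2, h3⟩; exact ⟨⟨(mem_LP.1 h2).1, h3, by omega⟩, h2⟩
  rw [h1]
  have h2 : ∑ r ∈ lpd n m, (m.factorization r : ℝ) * D r = ∑ r ∈ lpd n m, D r := by
    apply sum_congr rfl
    intro r hr
    obtain ⟨hrL, hrm⟩ := mem_lpd.1 hr
    have hrp := (mem_LP.1 hrL).1
    have h3 : m.factorization r = 1 := by
      have h4 : 1 ≤ m.factorization r := (hrp.dvd_iff_one_le_factorization (by omega)).1 hrm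
      have h5 : ¬ 2 ≤ m.factorization r := by
        intro h6
        exact hsq r hrL ((hrp.pow_dvd_iff_le_factorization (by omega)).2 h6)
      omega
    rw [h3]; simp
  rw [h2]
  have h3 : ∑ r ∈ m.primeFactors.filter (fun r => ¬ r ∈ LP n), (m.factorization r : ℝ) * D r ≤
      Δ * ∑ r ∈ m.primeFactors.filter (fun r => ¬ r ∈ LP n),
        (m.factorization r : ℝ) * Real.log r := by
    rw [mul_sum]
    apply sum_le_sum
    intro r hr
    rw [mem_filter, Nat.mem_primeFactors] at hr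
    have h4 := hD.le_log r hr.1.1.one_lt.le
    have h5 : (0 : ℝ) ≤ m.factorization r := Nat.cast_nonneg _
    nlinarith
  have h4 := mul_le_mul_of_nonneg_left hB hΔ
  linarith

/-! ### the truncated excesses -/

/-- `X_r = (y_r - c(u))_+ / Λ(u)` -/
def Xf (f : Frame) (D : ℕ → ℝ) (u : ℝ) (r : ℕ) : ℝ :=
  max 0 (D r / Real.log r - f.cc u) / f.Lam u

variable {b : ℕ} {f : Frame}

theorem Xf_nonneg (h : Ok b f) (D : ℕ → ℝ) {u : ℝ} (hu : 0 ≤ u) (r : ℕ) : 0 ≤ Xf f D u r := by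
  unfold Xf
  exact div_nonneg (le_max_left _ _) (Lam_nonneg h hu)

theorem X_le (h : Ok b f) (D : ℕ → ℝ) {u : ℝ} {r : ℕ} (hr : 0 < Real.log r)
    (hl : 8 * (b : ℝ) ≤ Real.log (Real.log r)) (hru : Real.log r ≤ u) :
    Xf f D u r ≤ (u / Real.log r) ^ f.kap * lev f D r := by
  have hu : 0 < u := lt_of_lt_of_le hr hru
  have hlu : 8 * (b : ℝ) ≤ Real.log u := hl.trans (Real.log_le_log hr hru)
  have hLu := Lam_pos h hu hlu
  have hLr := Lam_pos h hr hl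
  have h1 : max 0 (D r / Real.log r - f.cc u) ≤ max 0 (D r / Real.log r - f.cc (Real.log r)) := by
    apply max_le_max le_rfl
    have := cc_mono h hr hru
    linarith
  have h2 : max 0 (D r / Real.log r - f.cc (Real.log r)) = lev f D r * f.Lam (Real.log r) := by
    unfold lev; field_simp
  have h3 := Lam_le h hr hru hl
  have h4 := lev_nonneg h D r
  unfold Xf
  rw [div_le_iff₀ hLu]
  calc max 0 (D r / Real.log r - f.cc u) ≤ lev f D r * f.Lam (Real.log r) := h1.trans h2.le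
    _ ≤ lev f D r * (f.Lam u * (u / Real.log r) ^ f.kap) := mul_le_mul_of_nonneg_left h3 h4
    _ = _ := by ring

theorem X_le2 (h : Ok b f) (D : ℕ → ℝ) {u : ℝ} {r : ℕ} (hr : 0 < Real.log r)
    (hl : 8 * (b : ℝ) ≤ Real.log (Real.log r)) (hT : NN f.n0 < u) (hru : 2 * Real.log r ≤ u) :
    Xf f D u r ≤ max 0 ((u / Real.log r) ^ f.kap * lev f D r - f.L) := by
  have hru' : Real.log r ≤ u := by linarith
  have hu : 0 < u := lt_of_lt_of_le hr hru'
  have hlu : 8 * (b : ℝ) ≤ Real.log u := hl.trans (Real.log_le_log hr hru')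
  have hLu := Lam_pos h hu hlu
  have hLr := Lam_pos h hr hl
  have h2 : D r / Real.log r - f.cc (Real.log r) ≤ lev f D r * f.Lam (Real.log r) := by
    have : max 0 (D r / Real.log r - f.cc (Real.log r)) = lev f D r * f.Lam (Real.log r) := by
      unfold lev; field_simp
    rw [← this]; exact le_max_right _ _
  have h3 := Lam_le h hr hru' hl
  have h4 := lev_nonneg h D r
  have h5 := cc_gap h hr hT hru
  unfold Xf
  rw [div_le_iff₀ hLu]
  apply max_le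
  · exact mul_nonneg (le_max_left _ _) hLu.le
  · have h6 : lev f D r * f.Lam (Real.log r) ≤ lev f D r * (f.Lam u * (u / Real.log r) ^ f.kap) :=
      mul_le_mul_of_nonneg_left h3 h4
    calc D r / Real.log r - f.cc u ≤ ((u / Real.log r) ^ f.kap * lev f D r - f.L) * f.Lam u := by
          linarith
      _ ≤ _ := mul_le_mul_of_nonneg_right (le_max_right _ _) hLu.le

theorem kap_mul (h : Ok b f) : f.kap * b = 1 / 4 := by
  rw [h.kap]
  have : (b : ℝ) ≠ 0 := by have := h.hb; positivity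
  field_simp

theorem pow_kap (h : Ok b f) {x : ℝ} (hx : 0 ≤ x) : (x ^ f.kap) ^ b = x ^ (1 / 4 : ℝ) := by
  rw [← Real.rpow_natCast, ← Real.rpow_mul hx, kap_mul h]

theorem w_mul {u v : ℝ} (hu : 0 < u) (hv : 0 < v) :
    v / u * (u / v) ^ (1 / 4 : ℝ) = (v / u) ^ (3 / 4 : ℝ) := by
  have h1 : u / v = (v / u)⁻¹ := by field_simp
  have h2 : 0 < v / u := by positivity
  rw [h1, Real.inv_rpow h2.le, ← Real.rpow_neg h2.le]
  nth_rewrite 1 [← Real.rpow_one (v / u)]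
  rw [← Real.rpow_add h2]
  norm_num

theorem er_nonneg {w3 Ls ω E : ℝ} (hE : 0 ≤ E) : 0 ≤ er w3 Ls ω E := by
  unfold er; split_ifs
  · exact le_max_left _ _
  · exact hE

/-- always: `w X^b ≤ w^{3/4} E^b` -/
theorem wX (h : Ok b f) (D : ℕ → ℝ) {u : ℝ} {r : ℕ} (hr : 0 < Real.log r)
    (hl : 8 * (b : ℝ) ≤ Real.log (Real.log r)) (hru : Real.log r ≤ u) :
    Real.log r / u * (Xf f D u r) ^ b ≤ (Real.log r / u) ^ (3 / 4 : ℝ) * (lev f D r) ^ b := by
  have hu : 0 < u := lt_of_lt_of_le hr hru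
  have h1 := X_le h D hr hl hru
  have h0 := Xf_nonneg h D hu.le r
  calc Real.log r / u * (Xf f D u r) ^ b
      ≤ Real.log r / u * ((u / Real.log r) ^ f.kap * lev f D r) ^ b := by gcongr
    _ = (Real.log r / u * (u / Real.log r) ^ (1 / 4 : ℝ)) * (lev f D r) ^ b := by
        rw [mul_pow, pow_kap h (by positivity)]; ring
    _ = _ := by rw [w_mul hu hr]

/-- for `w ≤ 1/2`: `X ≤ w^{-κ} er` -/
theorem X_er (h : Ok b f) (D : ℕ → ℝ) {u N w3 Ls : ℝ} {r : ℕ} (hr : 0 < Real.log r)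
    (hl : 8 * (b : ℝ) ≤ Real.log (Real.log r)) (hT : NN f.n0 < u) (hru : 2 * Real.log r ≤ u)
    (huN : u ≤ N) (hw3 : 0 < w3) (hLs : 0 ≤ Ls) (hL : f.L = Ls * w3 ^ (-f.kap)) :
    Xf f D u r ≤ (u / Real.log r) ^ f.kap * er w3 Ls (Real.log r / N) (lev f D r) := by
  have hru' : Real.log r ≤ u := by linarith
  have hu : 0 < u := lt_of_lt_of_le hr hru'
  have hN : 0 < N := lt_of_lt_of_le hu huN
  unfold er
  split_ifs with hc
  · have h1 := X_le2 h D hr hl hT hru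
    refine h1.trans ?_
    apply max_le
    · exact mul_nonneg (by positivity) (le_max_left _ _)
    · have h2 : (u / Real.log r) ^ f.kap ≤ w3 ^ (-f.kap) := by
        rw [Real.rpow_neg hw3.le, ← Real.inv_rpow hw3.le]
        apply Real.rpow_le_rpow (by positivity) _ h.kap_pos.le
        rw [div_le_iff₀ hr, inv_mul_eq_div, le_div_iff₀ hw3]
        have : w3 * N ≤ Real.log r := by rwa [le_div_iff₀ hN] at hc
        nlinarith
      have h3 : (u / Real.log r) ^ f.kap * Ls ≤ f.L := by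
        rw [hL, mul_comm]; exact mul_le_mul_of_nonneg_left h2 hLs
      calc (u / Real.log r) ^ f.kap * lev f D r - f.L
          ≤ (u / Real.log r) ^ f.kap * (lev f D r - Ls) := by linarith
        _ ≤ _ := mul_le_mul_of_nonneg_left (le_max_right _ _) (by positivity)
  · exact X_le h D hr hl hru'

theorem wX_er (h : Ok b f) (D : ℕ → ℝ) {u N w3 Ls : ℝ} {r : ℕ} (hr : 0 < Real.log r)
    (hl : 8 * (b : ℝ) ≤ Real.log (Real.log r)) (hT : NN f.n0 < u) (hru : 2 * Real.log r ≤ u)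
    (huN : u ≤ N) (hw3 : 0 < w3) (hLs : 0 ≤ Ls) (hL : f.L = Ls * w3 ^ (-f.kap)) :
    Real.log r / u * (Xf f D u r) ^ b ≤
      (Real.log r / u) ^ (3 / 4 : ℝ) * (er w3 Ls (Real.log r / N) (lev f D r)) ^ b := by
  have hru' : Real.log r ≤ u := by linarith
  have hu : 0 < u := lt_of_lt_of_le hr hru'
  have h1 := X_er h D hr hl hT hru huN hw3 hLs hL
  have h0 := Xf_nonneg h D hu.le r
  calc Real.log r / u * (Xf f D u r) ^ b
      ≤ Real.log r / u * ((u / Real.log r) ^ f.kap * er w3 Ls (Real.log r / N) (lev f D r)) ^ b := by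
        gcongr
    _ = (Real.log r / u * (u / Real.log r) ^ (1 / 4 : ℝ)) *
        (er w3 Ls (Real.log r / N) (lev f D r)) ^ b := by
        rw [mul_pow, pow_kap h (by positivity)]; ring
    _ = _ := by rw [w_mul hu hr]

theorem bet_nonneg (b : ℕ) (w3 Ls ω E : ℝ) : 0 ≤ bet b w3 Ls ω E := by
  unfold bet; split_ifs
  · exact (Real.exp_pos _).le
  · exact le_rfl

theorem hfun_nonneg (b : ℕ) {w3 Ls ω E : ℝ} (hω : 0 ≤ ω) (hE : 0 ≤ E) : 0 ≤ hfun b w3 Ls ω E := by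
  have h0 := er_nonneg (w3 := w3) (Ls := Ls) (ω := ω) hE
  have h1 := bet_nonneg b w3 Ls ω E
  have hl := lam_pos
  unfold hfun
  split_ifs
  · have : 1 ≤ Real.exp (1 / 4 * (lam * ω) ^ (1 / 4 : ℝ) * (er w3 Ls ω E) ^ b) :=
      Real.one_le_exp (by positivity)
    linarith
  · have : 1 ≤ Real.exp ((1 / 2 : ℝ) ^ (3 / 4 : ℝ) * (er w3 Ls ω E) ^ b) :=
      Real.one_le_exp (by positivity)
    linarith
  · exact le_rfl

/-- the data for one prime `r` with `w_r ≤ 1/2` -/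
structure Small1 (b n : ℕ) (f : Frame) (u w3 Ls : ℝ) (r : ℕ) : Prop where
  ok : Ok b f
  hr : 0 < Real.log r
  hl : 8 * (b : ℝ) ≤ Real.log (Real.log r)
  hT : NN f.n0 < u
  hru : 2 * Real.log r ≤ u
  huN : u ≤ NN n
  hNu : NN n < lam * u
  hw3 : 0 < w3
  hw32 : w3 ≤ w2 b
  hLs : 0 ≤ Ls
  hL : f.L = Ls * w3 ^ (-f.kap)

namespace Small1

variable {n : ℕ} {u w3 Ls : ℝ} {r : ℕ}

theorem u_pos (h : Small1 b n f u w3 Ls r) : 0 < u := by
  have := h.hr; have := h.hru; linarith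

theorem om_nonneg (h : Small1 b n f u w3 Ls r) : 0 ≤ omr n r := by
  unfold omr; exact div_nonneg h.hr.le (NN_pos n).le

theorem om_le_w (h : Small1 b n f u w3 Ls r) : omr n r ≤ Real.log r / u := by
  unfold omr
  exact div_le_div_of_nonneg_left h.hr.le h.u_pos h.huN

theorem w_le_half (h : Small1 b n f u w3 Ls r) : Real.log r / u ≤ 1 / 2 := by
  rw [div_le_div_iff₀ h.u_pos (by norm_num)]
  have := h.hru; linarith

theorem w_le_lam (h : Small1 b n f u w3 Ls r) : Real.log r / u ≤ lam * omr n r := by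
  unfold omr
  rw [mul_div_assoc', div_le_div_iff₀ h.u_pos (NN_pos n)]
  have h1 := h.hNu
  have h2 := h.hr
  nlinarith

theorem base (h : Small1 b n f u w3 Ls r) (D : ℕ → ℝ) : Real.log r / u * (Xf f D u r) ^ b ≤
    (Real.log r / u) ^ (3 / 4 : ℝ) * (er w3 Ls (omr n r) (lev f D r)) ^ b :=
  wX_er h.ok D h.hr h.hl h.hT h.hru h.huN h.hw3 h.hLs h.hL

theorem light (h : Small1 b n f u w3 Ls r) (D : ℕ → ℝ) (ho : omr n r ≤ w2 b) :
    2 ^ (b - 1) * (Real.log r / u * (Xf f D u r) ^ b) ≤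
      1 / 4 * (lam * omr n r) ^ (1 / 4 : ℝ) * (er w3 Ls (omr n r) (lev f D r)) ^ b := by
  have hE := lev_nonneg h.ok D r
  have her := er_nonneg (w3 := w3) (Ls := Ls) (ω := omr n r) hE
  have hlo : 0 ≤ lam * omr n r := mul_nonneg lam_pos.le h.om_nonneg
  have hu := h.u_pos
  have hb := h.ok.hb
  have h1 : (Real.log r / u) ^ (3 / 4 : ℝ) ≤ (lam * omr n r) ^ (3 / 4 : ℝ) :=
    Real.rpow_le_rpow (div_nonneg h.hr.le hu.le) h.w_le_lam (by norm_num)
  have h2 : (lam * omr n r) ^ (3 / 4 : ℝ) =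
      (lam * omr n r) ^ (1 / 2 : ℝ) * (lam * omr n r) ^ (1 / 4 : ℝ) := by
    rw [← Real.rpow_add_of_nonneg hlo (by norm_num) (by norm_num)]; norm_num
  have h3 : (lam * omr n r) ^ (1 / 2 : ℝ) ≤ (1 / 2 : ℝ) ^ (b + 1) := by
    have h4 : lam * omr n r ≤ ((1 / 2 : ℝ) ^ (b + 1)) ^ 2 := by
      calc lam * omr n r ≤ lam * w2 b := mul_le_mul_of_nonneg_left ho lam_pos.le
        _ = ((1 / 2 : ℝ) ^ (b + 1)) ^ 2 := by
            unfold w2
            rw [← pow_mul, mul_comm (b + 1) 2, mul_div_cancel₀ _ lam_pos.ne']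
    calc (lam * omr n r) ^ (1 / 2 : ℝ) ≤ (((1 / 2 : ℝ) ^ (b + 1)) ^ 2) ^ (1 / 2 : ℝ) :=
          Real.rpow_le_rpow hlo h4 (by norm_num)
      _ = (1 / 2 : ℝ) ^ (b + 1) := by
          rw [← Real.sqrt_eq_rpow, Real.sqrt_sq (by positivity)]
  have h4 : (2 : ℝ) ^ (b - 1) * (1 / 2 : ℝ) ^ (b + 1) = 1 / 4 := by
    obtain ⟨c, rfl⟩ : ∃ c, b = c + 1 := ⟨b - 1, by omega⟩
    rw [Nat.add_sub_cancel, show c + 1 + 1 = c + 2 by ring, pow_add (1 / 2 : ℝ) c 2, ← mul_assoc,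
      ← mul_pow]
    norm_num
  calc 2 ^ (b - 1) * (Real.log r / u * (Xf f D u r) ^ b)
      ≤ 2 ^ (b - 1) * ((Real.log r / u) ^ (3 / 4 : ℝ) * (er w3 Ls (omr n r) (lev f D r)) ^ b) :=
        mul_le_mul_of_nonneg_left (h.base D) (by positivity)
    _ ≤ 2 ^ (b - 1) * (((1 / 2 : ℝ) ^ (b + 1) * (lam * omr n r) ^ (1 / 4 : ℝ)) *
          (er w3 Ls (omr n r) (lev f D r)) ^ b) := by
        apply mul_le_mul_of_nonneg_left _ (by positivity)
        apply mul_le_mul_of_nonneg_right _ (by positivity)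
        refine h1.trans ?_
        rw [h2]
        exact mul_le_mul_of_nonneg_right h3 (by positivity)
    _ = (2 ^ (b - 1) * (1 / 2 : ℝ) ^ (b + 1)) * (lam * omr n r) ^ (1 / 4 : ℝ) *
          (er w3 Ls (omr n r) (lev f D r)) ^ b := by ring
    _ = _ := by rw [h4]

theorem mid (h : Small1 b n f u w3 Ls r) (D : ℕ → ℝ) : Real.log r / u * (Xf f D u r) ^ b ≤
    (1 / 2 : ℝ) ^ (3 / 4 : ℝ) * (er w3 Ls (omr n r) (lev f D r)) ^ b := by
  have her := er_nonneg (w3 := w3) (Ls := Ls) (ω := omr n r) (lev_nonneg h.ok D r)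
  refine (h.base D).trans ?_
  apply mul_le_mul_of_nonneg_right _ (by positivity)
  exact Real.rpow_le_rpow (div_nonneg h.hr.le h.u_pos.le) h.w_le_half (by norm_num)

theorem wX_nonneg (h : Small1 b n f u w3 Ls r) (D : ℕ → ℝ) :
    0 ≤ Real.log r / u * (Xf f D u r) ^ b := by
  have := Xf_nonneg h.ok D h.u_pos.le r
  have := h.hr; have := h.u_pos
  positivity

/-- case I -/
theorem h_case1 (h : Small1 b n f u w3 Ls r) (D : ℕ → ℝ) (hc : omr n r ≤ w2 b ∨ lev f D r ≤ Ls) :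
    Real.exp (2 ^ (b - 1) * (Real.log r / u * (Xf f D u r) ^ b)) ≤
      1 + hfun b w3 Ls (omr n r) (lev f D r) := by
  by_cases ho : omr n r ≤ w2 b
  · have h1 := h.light D ho
    unfold hfun
    rw [if_pos ho]
    have := Real.exp_le_exp.2 h1
    linarith
  · have hE := hc.resolve_left ho
    have h1 : er w3 Ls (omr n r) (lev f D r) = 0 := by
      unfold er
      rw [if_pos (h.hw32.trans (not_le.1 ho).le)]
      exact max_eq_left (by linarith)
    have h2 := h.base D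
    rw [h1, zero_pow (by have := h.ok.hb; omega), mul_zero] at h2
    have h3 := h.wX_nonneg D
    have h4 : Real.log r / u * (Xf f D u r) ^ b = 0 := le_antisymm h2 h3
    rw [h4, mul_zero, Real.exp_zero]
    have := hfun_nonneg b (w3 := w3) (Ls := Ls) h.om_nonneg (lev_nonneg h.ok D r)
    linarith

theorem h_all (h : Small1 b n f u w3 Ls r) (D : ℕ → ℝ) :
    Real.exp (Real.log r / u * (Xf f D u r) ^ b) ≤ 1 + hfun b w3 Ls (omr n r) (lev f D r) := by
  by_cases ho : omr n r ≤ w2 b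
  · refine le_trans ?_ (h.h_case1 D (Or.inl ho))
    apply Real.exp_le_exp.2
    apply le_mul_of_one_le_left (h.wX_nonneg D)
    exact one_le_pow₀ (by norm_num)
  · have h1 := h.mid D
    have h2 : omr n r ≤ 1 / 2 := h.om_le_w.trans h.w_le_half
    have h3 := bet_nonneg b w3 Ls (omr n r) (lev f D r)
    unfold hfun
    rw [if_neg ho, if_pos h2]
    have := Real.exp_le_exp.2 h1
    linarith

theorem h_bet (h : Small1 b n f u w3 Ls r) (D : ℕ → ℝ) (ho : w2 b < omr n r)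
    (hE : Ls < lev f D r) :
    Real.exp (Real.log r / u * (Xf f D u r) ^ b) ≤ bet b w3 Ls (omr n r) (lev f D r) := by
  have h2 : omr n r ≤ 1 / 2 := h.om_le_w.trans h.w_le_half
  unfold bet
  rw [if_pos ⟨ho, h2, hE⟩]
  exact Real.exp_le_exp.2 (h.mid D)

end Small1

theorem mem_W {n p : ℕ} : p ∈ W n ↔ p.Prime ∧ NN n < lam * Real.log p ∧ Real.log p ≤ NN n := by
  unfold W
  rw [mem_filter, mem_range, Nat.lt_succ_iff]
  constructor
  · rintro ⟨h1, h2, h3, h4⟩; exact ⟨h2, h3, h4⟩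
  · rintro ⟨h1, h2, h3⟩
    refine ⟨?_, h1, h2, h3⟩
    rw [Nat.le_floor_iff (Real.exp_pos _).le]
    have h5 : (0 : ℝ) < p := by exact_mod_cast h1.pos
    rwa [Real.log_le_iff_le_exp h5] at h3

theorem NN_succ (n : ℕ) : NN (n + 1) = lam * NN n := by unfold NN; rw [pow_succ]; ring

theorem NN_mono {m n : ℕ} (h : m ≤ n) : NN m ≤ NN n := pow_le_pow_right₀ one_lt_lam.le h

theorem mem_W7 {n g : ℕ} (hg : g.Prime) (hn : 7 ≤ n) {u : ℝ} (hNu : NN n < lam * u) (huN : u ≤ NN n)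
    (h1 : u < 2 * Real.log g) (h2 : Real.log g ≤ u) : g ∈ W7 n := by
  unfold W7
  rw [mem_biUnion]
  obtain ⟨k, rfl⟩ : ∃ k, n = k + 7 := ⟨n - 7, by omega⟩
  have e0 : NN (k + 7) = lam * NN (k + 6) := NN_succ (k + 6)
  have e1 : NN (k + 6) = lam * NN (k + 5) := NN_succ (k + 5)
  have e2 : NN (k + 5) = lam * NN (k + 4) := NN_succ (k + 4)
  have e3 : NN (k + 4) = lam * NN (k + 3) := NN_succ (k + 3)
  have e4 : NN (k + 3) = lam * NN (k + 2) := NN_succ (k + 2)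
  have e5 : NN (k + 2) = lam * NN (k + 1) := NN_succ (k + 1)
  have hk := NN_pos (k + 1)
  have hlam : lam = 9 / 8 := rfl
  by_cases c1 : Real.log g ≤ NN (k + 1)
  · refine ⟨6, by simp, ?_⟩
    rw [show k + 7 - 6 = k + 1 by omega, mem_W]
    refine ⟨hg, ?_, c1⟩
    rw [e0, e1, e2, e3, e4, e5, hlam] at hNu
    rw [hlam]
    nlinarith
  by_cases c2 : Real.log g ≤ NN (k + 2)
  · refine ⟨5, by simp, ?_⟩
    rw [show k + 7 - 5 = k + 2 by omega, mem_W]
    exact ⟨hg, by rw [e5]; exact mul_lt_mul_of_pos_left (not_le.1 c1) lam_pos, c2⟩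
  by_cases c3 : Real.log g ≤ NN (k + 3)
  · refine ⟨4, by simp, ?_⟩
    rw [show k + 7 - 4 = k + 3 by omega, mem_W]
    exact ⟨hg, by rw [e4]; exact mul_lt_mul_of_pos_left (not_le.1 c2) lam_pos, c3⟩
  by_cases c4 : Real.log g ≤ NN (k + 4)
  · refine ⟨3, by simp, ?_⟩
    rw [show k + 7 - 3 = k + 4 by omega, mem_W]
    exact ⟨hg, by rw [e3]; exact mul_lt_mul_of_pos_left (not_le.1 c3) lam_pos, c4⟩
  by_cases c5 : Real.log g ≤ NN (k + 5)
  · refine ⟨2, by simp, ?_⟩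
    rw [show k + 7 - 2 = k + 5 by omega, mem_W]
    exact ⟨hg, by rw [e2]; exact mul_lt_mul_of_pos_left (not_le.1 c4) lam_pos, c5⟩
  by_cases c6 : Real.log g ≤ NN (k + 6)
  · refine ⟨1, by simp, ?_⟩
    rw [show k + 7 - 1 = k + 6 by omega, mem_W]
    exact ⟨hg, by rw [e1]; exact mul_lt_mul_of_pos_left (not_le.1 c5) lam_pos, c6⟩
  · refine ⟨0, by simp, ?_⟩
    rw [show k + 7 - 0 = k + 7 by omega, mem_W]
    exact ⟨hg, by rw [e0]; exact mul_lt_mul_of_pos_left (not_le.1 c6) lam_pos, h2.trans huN⟩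

/-- everything that is known about `p` and its good root `Q` -/
structure Setup (b n : ℕ) (Δ D₂ : ℝ) (D : ℕ → ℝ) (f : Frame) (p Q : ℕ) : Prop where
  ok : Ok b f
  hΔ : 1 ≤ Δ
  hD : AddFn Δ D₂ D
  hn7 : 7 ≤ n
  hnb : 144 * b ≤ n
  hN : (100 : ℝ) ≤ NN n
  hp : p.Prime
  hNu : NN n < lam * Real.log p
  huN : Real.log p ≤ NN n
  hT : NN f.n0 < Real.log p
  hQ : Q ∈ NP b n
  hQp : Real.log Q ≤ Real.log p
  hpQ : Real.log p - Real.log (Q - 1 : ℕ) ≤ KK b n * (Real.log (MM b n) + 1) + 1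
  hDp : D p ≤ ∑ r ∈ lpd n (Q - 1), D r + (Δ * (NN n) ^ (3 / 4 : ℝ) + D₂ +
    KK b n * (Δ * Real.log (MM b n) + D₂))
  hErr : 0 ≤ Δ * (NN n) ^ (3 / 4 : ℝ) + D₂ + KK b n * (Δ * Real.log (MM b n) + D₂)

/-- `ε_n` -/
def eps (b n : ℕ) (Δ D₂ : ℝ) : ℝ := 2 * (n : ℝ) ^ 2 * (Δ * (NN n) ^ (3 / 4 : ℝ) + D₂ +
  KK b n * (Δ * Real.log (MM b n) + D₂)) / NN n

/-- `δ_n` -/
def del (b n : ℕ) : ℝ := 2 * (KK b n * (Real.log (MM b n) + 1) + 1) / NN n

theorem mem_NP {n Q : ℕ} (h : Q ∈ NP b n) : Q.Prime ∧ NN n / 2 ≤ Real.log Q ∧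
    MM b n ≤ (Q - 1) / gpf (Q - 1) ∧ ∀ r ∈ LP n, ¬ r ^ 2 ∣ Q - 1 := by
  unfold NP at h
  rw [mem_filter] at h
  exact h.2

theorem setup_of_good {n p Q : ℕ} (hΔ : 1 ≤ Δ) (hD₂ : 0 ≤ D₂) (hD : AddFn Δ D₂ D) (ok : Ok b f)
    (hn7 : 7 ≤ n) (hnb : 144 * b ≤ n) (hN : (100 : ℝ) ≤ NN n) (hn0 : f.n0 < n) (hp : p ∈ W n)
    (hG : Good b n p Q) : Setup b n Δ D₂ D f p Q := by
  obtain ⟨hpp, hNu, huN⟩ := mem_W.1 hp
  obtain ⟨hQN, ⟨s, hs, hdesc⟩, hsm⟩ := hG
  obtain ⟨hQp, hQN2, hQM, hQsq⟩ := mem_NP hQN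
  obtain ⟨-, -, hb1, hb2, hb3⟩ := desc_bound hD (by linarith) hD₂ s Q p hdesc
  have hlM : 0 ≤ Real.log (MM b n) := Real.log_natCast_nonneg _
  have hsK : (s : ℝ) ≤ KK b n := by exact_mod_cast hs.le
  have hQ3 : 3 ≤ Q := by
    by_contra hcon
    have h1 : Q = 2 := by have := hQp.two_le; omega
    rw [h1] at hQN2
    have h2 : Real.log 2 < 0.6931471808 := Real.log_two_lt_d9
    push_cast at hQN2
    linarith
  have hQ0 : (0 : ℝ) < (Q - 1 : ℕ) := by exact_mod_cast (by omega : 0 < Q - 1)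
  refine ⟨ok, hΔ, hD, hn7, hnb, hN, hpp, hNu, huN, ?_, hQN, hb3, ?_, ?_, by positivity⟩
  · obtain ⟨k, rfl⟩ : ∃ k, n = k + 1 := ⟨n - 1, by omega⟩
    have h1 := NN_mono (by omega : f.n0 ≤ k)
    rw [NN_succ] at hNu
    have h2 : NN k < Real.log p := lt_of_mul_lt_mul_left hNu lam_pos.le
    linarith
  · have h1 : (Q : ℝ) ≤ 2 * (Q - 1 : ℕ) := by exact_mod_cast (by omega : Q ≤ 2 * (Q - 1))
    have h2 := Real.log_le_log (by exact_mod_cast hQp.pos) h1
    rw [Real.log_mul (by norm_num) hQ0.ne'] at h2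
    have h3 : Real.log 2 < 0.6931471808 := Real.log_two_lt_d9
    have h4 : (s : ℝ) * (Real.log (MM b n) + 1) ≤ KK b n * (Real.log (MM b n) + 1) :=
      mul_le_mul_of_nonneg_right hsK (by linarith)
    linarith
  · have h1 := hD.shift Q hQp (by omega)
    have h2 : D₂ / Q ≤ D₂ := div_le_self hD₂ (by exact_mod_cast hQp.one_lt.le)
    have h3 := (abs_le.1 h1).2
    have h4 := D_split hD (by linarith) (by omega : 1 ≤ Q - 1) hQsq hsm
    have h5 : (s : ℝ) * (Δ * Real.log (MM b n) + D₂) ≤ KK b n * (Δ * Real.log (MM b n) + D₂) :=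
      mul_le_mul_of_nonneg_right hsK (by positivity)
    linarith

namespace Setup

variable {n p Q : ℕ}

theorem u_ge (h : Setup b n Δ D₂ D f p Q) : 8 / 9 * NN n < Real.log p := by
  have h1 := h.hNu
  have h2 : lam = 9 / 8 := rfl
  rw [h2] at h1
  linarith

theorem u_pos (h : Setup b n Δ D₂ D f p Q) : 0 < Real.log p := by
  have := h.u_ge; have := h.hN; linarith

theorem sqrt_le (h : Setup b n Δ D₂ D f p Q) : Real.sqrt (NN n) ≤ NN n / 10 := by
  have h1 := h.hN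
  rw [Real.sqrt_le_left (by linarith)]
  nlinarith

theorem log_u (h : Setup b n Δ D₂ D f p Q) : 8 * (b : ℝ) ≤ Real.log (Real.log p) := by
  apply loglog_ge h.hnb
  have := h.sqrt_le; have := h.u_ge; have := h.hN
  linarith

theorem Q3 (h : Setup b n Δ D₂ D f p Q) : 3 ≤ Q := by
  obtain ⟨hQp, hQN2, -, -⟩ := mem_NP h.hQ
  by_contra hcon
  have h1 : Q = 2 := by have := hQp.two_le; omega
  rw [h1] at hQN2
  have h2 : Real.log 2 < 0.6931471808 := Real.log_two_lt_d9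
  have := h.hN
  push_cast at hQN2
  linarith

theorem logQ1 (h : Setup b n Δ D₂ D f p Q) : Real.log (Q - 1 : ℕ) ≤ Real.log p := by
  have h3 := h.Q3
  refine le_trans ?_ h.hQp
  apply Real.log_le_log
  · exact_mod_cast (by omega : 0 < Q - 1)
  · exact_mod_cast Nat.sub_le Q 1

theorem lr_pos {r : ℕ} (hr : r ∈ LP n) : 0 < Real.log r :=
  (Real.sqrt_pos.2 (NN_pos n)).trans (mem_LP.1 hr).2.1

theorem llr (h : Setup b n Δ D₂ D f p Q) {r : ℕ} (hr : r ∈ LP n) :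
    8 * (b : ℝ) ≤ Real.log (Real.log r) := loglog_ge h.hnb (mem_LP.1 hr).2.1.le

theorem sum_w (h : Setup b n Δ D₂ D f p Q) :
    ∑ r ∈ lpd n (Q - 1), Real.log r / Real.log p ≤ 1 := by
  rw [← sum_div, div_le_one h.u_pos]
  exact (sum_log_lpd (by have := h.Q3; omega)).trans h.logQ1

theorem Xf_le (h : Setup b n Δ D₂ D f p Q) {r : ℕ} (hr : r ∈ LP n) :
    Xf f D (Real.log p) r ≤ Δ * (n / 8 : ℝ) ^ 2 := by
  unfold Xf
  exact exc_le h.hΔ h.hD h.ok h.u_pos h.log_u h.huN _ (cc_nonneg h.ok h.u_pos)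
    (mem_LP.1 hr).1.one_lt

/-- the main sum -/
theorem S_nonneg (h : Setup b n Δ D₂ D f p Q) :
    0 ≤ ∑ r ∈ lpd n (Q - 1), Real.log r / Real.log p * Xf f D (Real.log p) r :=
  sum_nonneg fun r hr => mul_nonneg (div_nonneg (lr_pos (mem_lpd.1 hr).1).le h.u_pos.le)
    (Xf_nonneg h.ok D h.u_pos.le r)

theorem S_le (h : Setup b n Δ D₂ D f p Q) :
    ∑ r ∈ lpd n (Q - 1), Real.log r / Real.log p * Xf f D (Real.log p) r ≤ Δ * (n : ℝ) ^ 2 := by
  have hΔ := h.hΔ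
  calc ∑ r ∈ lpd n (Q - 1), Real.log r / Real.log p * Xf f D (Real.log p) r
      ≤ ∑ r ∈ lpd n (Q - 1), Real.log r / Real.log p * (Δ * (n / 8 : ℝ) ^ 2) := by
        apply sum_le_sum
        intro r hr
        exact mul_le_mul_of_nonneg_left (h.Xf_le (mem_lpd.1 hr).1)
          (div_nonneg (lr_pos (mem_lpd.1 hr).1).le h.u_pos.le)
    _ = (∑ r ∈ lpd n (Q - 1), Real.log r / Real.log p) * (Δ * (n / 8 : ℝ) ^ 2) := by
        rw [sum_mul]
    _ ≤ 1 * (Δ * (n / 8 : ℝ) ^ 2) := mul_le_mul_of_nonneg_right h.sum_w (by positivity)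
    _ ≤ Δ * (n : ℝ) ^ 2 := by
        have : (n / 8 : ℝ) ^ 2 ≤ (n : ℝ) ^ 2 := by
          have := Nat.cast_nonneg (α := ℝ) n
          gcongr; linarith
        nlinarith

theorem E_le (h : Setup b n Δ D₂ D f p Q) : lev f D p ≤
    ∑ r ∈ lpd n (Q - 1), Real.log r / Real.log p * Xf f D (Real.log p) r + eps b n Δ D₂ := by
  have hu := h.u_pos
  have hLu := Lam_pos h.ok hu h.log_u
  have hcc := cc_nonneg h.ok hu
  obtain ⟨Er, hEr⟩ : ∃ Er, Er = Δ * (NN n) ^ (3 / 4 : ℝ) + D₂ +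
    KK b n * (Δ * Real.log (MM b n) + D₂) := ⟨_, rfl⟩
  have hEr0 := h.hErr
  have hDp := h.hDp
  rw [← hEr] at hEr0 hDp
  have h1 : D p / Real.log p - f.cc (Real.log p) ≤
      ∑ r ∈ lpd n (Q - 1), Real.log r / Real.log p *
        max 0 (D r / Real.log r - f.cc (Real.log p)) + Er / Real.log p := by
    have e1 : D p / Real.log p ≤ (∑ r ∈ lpd n (Q - 1), D r + Er) / Real.log p :=
      div_le_div_of_nonneg_right hDp hu.le
    have e2 : ∑ r ∈ lpd n (Q - 1), D r / Real.log p =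
        ∑ r ∈ lpd n (Q - 1), Real.log r / Real.log p * (D r / Real.log r) := by
      apply sum_congr rfl
      intro r hr
      have := lr_pos (mem_lpd.1 hr).1
      field_simp
    have e3 : (∑ r ∈ lpd n (Q - 1), Real.log r / Real.log p) * f.cc (Real.log p) ≤
        1 * f.cc (Real.log p) := mul_le_mul_of_nonneg_right h.sum_w hcc
    have e4 : ∑ r ∈ lpd n (Q - 1), Real.log r / Real.log p *
        (D r / Real.log r - f.cc (Real.log p)) ≤ ∑ r ∈ lpd n (Q - 1), Real.log r / Real.log p *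
        max 0 (D r / Real.log r - f.cc (Real.log p)) := by
      apply sum_le_sum
      intro r hr
      exact mul_le_mul_of_nonneg_left (le_max_right _ _)
        (div_nonneg (lr_pos (mem_lpd.1 hr).1).le hu.le)
    have e5 : ∑ r ∈ lpd n (Q - 1), Real.log r / Real.log p *
        (D r / Real.log r - f.cc (Real.log p)) =
        ∑ r ∈ lpd n (Q - 1), Real.log r / Real.log p * (D r / Real.log r) -
        (∑ r ∈ lpd n (Q - 1), Real.log r / Real.log p) * f.cc (Real.log p) := by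
      rw [sum_mul, ← sum_sub_distrib]
      apply sum_congr rfl
      intro r _; ring
    rw [add_div, sum_div, e2] at e1
    linarith
  have h2 : max 0 (D p / Real.log p - f.cc (Real.log p)) ≤
      ∑ r ∈ lpd n (Q - 1), Real.log r / Real.log p *
        max 0 (D r / Real.log r - f.cc (Real.log p)) + Er / Real.log p := by
    apply max_le _ h1
    have : 0 ≤ ∑ r ∈ lpd n (Q - 1), Real.log r / Real.log p *
        max 0 (D r / Real.log r - f.cc (Real.log p)) := sum_nonneg fun r hr =>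
      mul_nonneg (div_nonneg (lr_pos (mem_lpd.1 hr).1).le hu.le) (le_max_left _ _)
    have : 0 ≤ Er / Real.log p := by positivity
    linarith
  have h3 : lev f D p ≤ (∑ r ∈ lpd n (Q - 1), Real.log r / Real.log p *
        max 0 (D r / Real.log r - f.cc (Real.log p)) + Er / Real.log p) / f.Lam (Real.log p) := by
    unfold lev
    exact div_le_div_of_nonneg_right h2 hLu.le
  rw [add_div, sum_div] at h3
  have h4 : ∑ r ∈ lpd n (Q - 1), Real.log r / Real.log p *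
      max 0 (D r / Real.log r - f.cc (Real.log p)) / f.Lam (Real.log p) =
      ∑ r ∈ lpd n (Q - 1), Real.log r / Real.log p * Xf f D (Real.log p) r := by
    apply sum_congr rfl
    intro r _
    unfold Xf
    ring
  rw [h4] at h3
  have h5 : Er / Real.log p / f.Lam (Real.log p) ≤ eps b n Δ D₂ := by
    have e1 := Lam_ge h.ok hu h.log_u
    have hb2 : (2 : ℝ) ≤ b := by exact_mod_cast h.ok.hb
    have hlu : 0 < Real.log (Real.log p) := by have := h.log_u; linarith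
    have e2 : 1 / f.Lam (Real.log p) ≤ (n : ℝ) ^ 2 := by
      have e3 : 1 / f.Lam (Real.log p) ≤ Real.log (Real.log p) ^ 2 := by
        rw [div_le_iff₀ hLu]
        calc (1 : ℝ) = Real.log (Real.log p) ^ 2 * (1 / Real.log (Real.log p) ^ 2) := by field_simp
          _ ≤ _ := mul_le_mul_of_nonneg_left e1 (by positivity)
      have e4 : Real.log (Real.log p) ≤ n := by
        have e5 : Real.log (Real.log p) ≤ Real.log (NN n) := Real.log_le_log hu h.huN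
        rw [log_NN] at e5
        have e6 := mul_le_mul_of_nonneg_left loglam_le (Nat.cast_nonneg (α := ℝ) n)
        have := Nat.cast_nonneg (α := ℝ) n
        linarith
      exact e3.trans (by gcongr)
    have e3 : Er / Real.log p ≤ 2 * Er / NN n := by
      rw [div_le_div_iff₀ hu (NN_pos n)]
      have := h.u_ge
      have := NN_pos n
      nlinarith
    calc Er / Real.log p / f.Lam (Real.log p) = Er / Real.log p * (1 / f.Lam (Real.log p)) := by ring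
      _ ≤ 2 * Er / NN n * (n : ℝ) ^ 2 := by
          apply mul_le_mul e3 e2 (by positivity)
          have := NN_pos n
          positivity
      _ = eps b n Δ D₂ := by unfold eps; rw [← hEr]; ring
  linarith

/-- `E^b ≤ S^b + small` -/
theorem Epow_le (h : Setup b n Δ D₂ D f p Q) (heps0 : 0 ≤ eps b n Δ D₂)
    (heps1 : eps b n Δ D₂ ≤ 1) : (lev f D p) ^ b ≤
    (∑ r ∈ lpd n (Q - 1), Real.log r / Real.log p * Xf f D (Real.log p) r) ^ b +
      b * eps b n Δ D₂ * (Δ * (n : ℝ) ^ 2 + 1) ^ (b - 1) := by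
  obtain ⟨S, hS⟩ : ∃ S, S = ∑ r ∈ lpd n (Q - 1), Real.log r / Real.log p * Xf f D (Real.log p) r :=
    ⟨_, rfl⟩
  have h1 := h.E_le
  have h2 := h.S_nonneg
  have h3 := h.S_le
  have h4 := lev_nonneg h.ok D p
  rw [← hS] at h1 h2 h3 ⊢
  obtain ⟨c, hc⟩ : ∃ c, b = c + 1 := ⟨b - 1, by have := h.ok.hb; omega⟩
  have h5 := pow_sub_le h2 (by linarith : S ≤ S + eps b n Δ D₂) c
  have h6 : (lev f D p) ^ b ≤ (S + eps b n Δ D₂) ^ b := by gcongr
  have h7 : (S + eps b n Δ D₂) ^ c ≤ (Δ * (n : ℝ) ^ 2 + 1) ^ c := by gcongr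
  have hb1 : b - 1 = c := by omega
  rw [hb1]
  have h8 : (((c : ℝ) + 1) * (S + eps b n Δ D₂ - S)) * (S + eps b n Δ D₂) ^ c ≤
      (((c : ℝ) + 1) * (S + eps b n Δ D₂ - S)) * (Δ * (n : ℝ) ^ 2 + 1) ^ c := by
    apply mul_le_mul_of_nonneg_left h7
    have : S + eps b n Δ D₂ - S = eps b n Δ D₂ := by ring
    rw [this]; positivity
  have h9 : (b : ℝ) = (c : ℝ) + 1 := by rw [hc]; push_cast; ring
  rw [h9]
  rw [hc] at h6 ⊢
  have h10 : ((c : ℝ) + 1) * (S + eps (c + 1) n Δ D₂ - S) * (Δ * (n : ℝ) ^ 2 + 1) ^ c =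
    ((c : ℝ) + 1) * eps (c + 1) n Δ D₂ * (Δ * (n : ℝ) ^ 2 + 1) ^ c := by ring
  rw [hc] at h5 h8
  linarith

/-- the data of one large prime divisor of `Q - 1` with `w ≤ 1/2` -/
theorem small1 (h : Setup b n Δ D₂ D f p Q) {w3 Ls : ℝ} (hw3 : 0 < w3) (hw32 : w3 ≤ w2 b)
    (hLs : 0 ≤ Ls) (hL : f.L = Ls * w3 ^ (-f.kap)) {r : ℕ} (hr : r ∈ LP n)
    (hru : 2 * Real.log r ≤ Real.log p) : Small1 b n f (Real.log p) w3 Ls r :=
  ⟨h.ok, lr_pos hr, h.llr hr, h.hT, hru, h.huN, h.hNu, hw3, hw32, hLs, hL⟩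

theorem g_facts (h : Setup b n Δ D₂ D f p Q) : (gpf (Q - 1)).Prime ∧ gpf (Q - 1) ∣ Q - 1 ∧
    gpf (Q - 1) * ((Q - 1) / gpf (Q - 1)) = Q - 1 ∧ 1 ≤ (Q - 1) / gpf (Q - 1) ∧
    Real.log (gpf (Q - 1)) + Real.log ((Q - 1) / gpf (Q - 1) : ℕ) = Real.log (Q - 1 : ℕ) := by
  have hQ3 := h.Q3
  have hgm := gpf_mem (by omega : 2 ≤ Q - 1)
  have hgp := Nat.prime_of_mem_primeFactors hgm
  have hgd := Nat.dvd_of_mem_primeFactors hgm
  have hmul : gpf (Q - 1) * ((Q - 1) / gpf (Q - 1)) = Q - 1 := Nat.mul_div_cancel' hgd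
  have hm1 : 1 ≤ (Q - 1) / gpf (Q - 1) := by
    rcases Nat.eq_zero_or_pos ((Q - 1) / gpf (Q - 1)) with h | h
    · rw [h] at hmul; omega
    · exact h
  refine ⟨hgp, hgd, hmul, hm1, ?_⟩
  have hg0 : (0 : ℝ) < gpf (Q - 1) := by exact_mod_cast hgp.pos
  have hm0 : (0 : ℝ) < ((Q - 1) / gpf (Q - 1) : ℕ) := by exact_mod_cast hm1
  rw [← Real.log_mul hg0.ne' hm0.ne', ← Nat.cast_mul, hmul]

theorem w2_lt (b : ℕ) : 0 < w2 b ∧ w2 b ≤ 1 / 2 := by
  unfold w2
  have hl := lam_pos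
  refine ⟨by positivity, ?_⟩
  rw [div_le_iff₀ hl]
  have h1 : (1 / 2 : ℝ) ^ (2 * (b + 1)) ≤ (1 / 2 : ℝ) ^ 1 :=
    pow_le_pow_of_le_one (by norm_num) (by norm_num) (by omega)
  have h2 : lam = 9 / 8 := rfl
  rw [h2]
  linarith

theorem Aq_nonneg (h : Setup b n Δ D₂ D f p Q) :
    0 ≤ Aq b n (lev f D) (gpf (Q - 1)) ((Q - 1) / gpf (Q - 1)) := by
  obtain ⟨hgp, hgd, hmul, hm1, hlog⟩ := h.g_facts
  have hE := lev_nonneg h.ok D (gpf (Q - 1))
  have hN := NN_pos n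
  unfold Aq
  have h1 : Real.log ((Q - 1) / gpf (Q - 1) : ℕ) / NN n ≤ 1 := by
    rw [div_le_one hN]
    have h2 : 0 ≤ Real.log (gpf (Q - 1)) := Real.log_natCast_nonneg _
    have := h.logQ1
    have := h.huN
    linarith
  have h2 : 0 ≤ 1 - Real.log ((Q - 1) / gpf (Q - 1) : ℕ) / NN n / 2 := by linarith
  have : 1 ≤ Real.exp ((1 - Real.log ((Q - 1) / gpf (Q - 1) : ℕ) / NN n / 2) ^ (b - 1) *
      (lev f D (gpf (Q - 1))) ^ b) := Real.one_le_exp (by positivity)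
  linarith

/-- lower bounds of the majorant -/
theorem Maj_ge (h : Setup b n Δ D₂ D f p Q) {w3 Ls s : ℝ} (hs : 1 ≤ s) :
    4 * (∏ r ∈ lpd n (Q - 1), (1 + hfun b w3 Ls (omr n r) (lev f D r)) - 1) +
      2 * (if gpf (Q - 1) ∈ W7 n then
        Aq b n (lev f D) (gpf (Q - 1)) ((Q - 1) / gpf (Q - 1)) *
          ∏ r ∈ lpd n ((Q - 1) / gpf (Q - 1)), (1 + hfun b w3 Ls (omr n r) (lev f D r)) else 0) +
      2 * (1 / s * ∑ q ∈ lpd n (Q - 1), Qf b n (lev f D) q *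
        ∏ r ∈ (lpd n (Q - 1)).filter (· < q),
          (1 + (hfun b w3 Ls (omr n r) (lev f D r) + s * bet b w3 Ls (omr n r) (lev f D r)))) ≤
      Maj b n w3 Ls s (lev f D) Q ∧
    0 ≤ (∏ r ∈ lpd n (Q - 1), (1 + hfun b w3 Ls (omr n r) (lev f D r)) - 1) ∧
    0 ≤ (if gpf (Q - 1) ∈ W7 n then
        Aq b n (lev f D) (gpf (Q - 1)) ((Q - 1) / gpf (Q - 1)) *
          ∏ r ∈ lpd n ((Q - 1) / gpf (Q - 1)), (1 + hfun b w3 Ls (omr n r) (lev f D r)) else 0) ∧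
    (∀ q ∈ lpd n (Q - 1), 0 ≤ Qf b n (lev f D) q *
        ∏ r ∈ (lpd n (Q - 1)).filter (· < q),
          (1 + (hfun b w3 Ls (omr n r) (lev f D r) + s * bet b w3 Ls (omr n r) (lev f D r)))) := by
  have hh : ∀ r, 0 ≤ hfun b w3 Ls (omr n r) (lev f D r) := fun r => by
    apply hfun_nonneg b _ (lev_nonneg h.ok D r)
    unfold omr
    exact div_nonneg (Real.log_natCast_nonneg r) (NN_pos n).le
  refine ⟨?_, ?_, ?_, ?_⟩
  · unfold Maj
    rw [prod_one_add_ordered]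
    apply le_of_eq
    ring
  · have : 1 ≤ ∏ r ∈ lpd n (Q - 1), (1 + hfun b w3 Ls (omr n r) (lev f D r)) := by
      apply one_le_prod
      intro r _
      have := hh r
      linarith
    linarith
  · split_ifs
    · apply mul_nonneg h.Aq_nonneg
      exact prod_nonneg fun r _ => by have := hh r; linarith
    · exact le_rfl
  · intro q _
    apply mul_nonneg
    · unfold Qf; split_ifs
      · exact (Real.exp_pos _).le
      · exact le_rfl
    · apply prod_nonneg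
      intro r _
      have h1 := hh r
      have h2 := bet_nonneg b w3 Ls (omr n r) (lev f D r)
      have h3 : 0 ≤ s * bet b w3 Ls (omr n r) (lev f D r) := mul_nonneg (by linarith) h2
      linarith

/-- case B -/
theorem caseB (h : Setup b n Δ D₂ D f p Q) {w3 Ls s τ : ℝ} (hw3 : 0 < w3) (hw32 : w3 ≤ w2 b)
    (hLs : 0 ≤ Ls) (hL : f.L = Ls * w3 ^ (-f.kap)) (hs : 1 ≤ s) (heps0 : 0 ≤ eps b n Δ D₂)
    (heps1 : eps b n Δ D₂ ≤ 1) (hτ0 : 0 ≤ τ) (hτ : τ ≤ 1 / 2)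
    (hτ1 : b * eps b n Δ D₂ * (Δ * (n : ℝ) ^ 2 + 1) ^ (b - 1) ≤ τ)
    (hB : 2 * Real.log (gpf (Q - 1)) ≤ Real.log p) :
    V b (lev f D p) ≤ Maj b n w3 Ls s (lev f D) Q + 2 * τ := by
  have hQ3 := h.Q3
  obtain ⟨c, hc⟩ : ∃ c, b = c + 1 := ⟨b - 1, by have := h.ok.hb; omega⟩
  have hsm : ∀ r ∈ lpd n (Q - 1), Small1 b n f (Real.log p) w3 Ls r := by
    intro r hr
    obtain ⟨hrL, hrd⟩ := mem_lpd.1 hr
    apply h.small1 hw3 hw32 hLs hL hrL
    have h1 : r ≤ gpf (Q - 1) := le_gpf (Nat.mem_primeFactors.2 ⟨(mem_LP.1 hrL).1, hrd, by omega⟩)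
    have h2 : Real.log r ≤ Real.log (gpf (Q - 1)) :=
      Real.log_le_log (by exact_mod_cast (mem_LP.1 hrL).1.pos) (by exact_mod_cast h1)
    linarith
  have h1 := h.Epow_le heps0 heps1
  have h2 := pm (lpd n (Q - 1)) (fun r => Real.log r / Real.log p) (fun r => Xf f D (Real.log p) r)
    (fun r hr => div_nonneg (lr_pos (mem_lpd.1 hr).1).le h.u_pos.le)
    (fun r hr => Xf_nonneg h.ok D h.u_pos.le r) h.sum_w c
  rw [← hc] at h2
  obtain ⟨Y, hY⟩ : ∃ Y, Y = ∑ r ∈ lpd n (Q - 1),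
    Real.log r / Real.log p * Xf f D (Real.log p) r ^ b := ⟨_, rfl⟩
  rw [← hY] at h2
  have h3 : (lev f D p) ^ b ≤ Y + τ := by linarith
  have h4 : Real.exp Y ≤ ∏ r ∈ lpd n (Q - 1), (1 + hfun b w3 Ls (omr n r) (lev f D r)) := by
    rw [hY, Real.exp_sum]
    apply Finset.prod_le_prod
    · intro r _; exact (Real.exp_pos _).le
    · intro r hr; exact (hsm r hr).h_all D
  obtain ⟨m1, m2, m3, m4⟩ := h.Maj_ge (w3 := w3) (Ls := Ls) hs
  have h5 := exp_step h3 hτ0 hτ h4 (by linarith)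
  have h6 : 0 ≤ 1 / s * ∑ q ∈ lpd n (Q - 1), Qf b n (lev f D) q *
        ∏ r ∈ (lpd n (Q - 1)).filter (· < q),
          (1 + (hfun b w3 Ls (omr n r) (lev f D r) + s * bet b w3 Ls (omr n r) (lev f D r))) :=
    mul_nonneg (by positivity) (sum_nonneg m4)
  unfold V
  linarith

/-- decomposition of the large divisors in case A -/
theorem caseA_data (h : Setup b n Δ D₂ D f p Q) (hA : Real.log p < 2 * Real.log (gpf (Q - 1))) :
    gpf (Q - 1) ∈ LP n ∧ gpf (Q - 1) ∈ W7 n ∧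
    gpf (Q - 1) ∉ lpd n ((Q - 1) / gpf (Q - 1)) ∧
    lpd n (Q - 1) = insert (gpf (Q - 1)) (lpd n ((Q - 1) / gpf (Q - 1))) ∧
    (lpd n (Q - 1)).filter (· < gpf (Q - 1)) = lpd n ((Q - 1) / gpf (Q - 1)) := by
  obtain ⟨hgp, hgd, hmul, hm1, hlog⟩ := h.g_facts
  obtain ⟨hQp, hQN2, hQM, hQsq⟩ := mem_NP h.hQ
  have hQ3 := h.Q3
  have hlm : 0 ≤ Real.log ((Q - 1) / gpf (Q - 1) : ℕ) := Real.log_natCast_nonneg _
  have hgu : Real.log (gpf (Q - 1)) ≤ Real.log p := by have := h.logQ1; linarith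
  have hgL : gpf (Q - 1) ∈ LP n := by
    rw [mem_LP]
    refine ⟨hgp, ?_, hgu.trans h.huN⟩
    have := h.sqrt_le; have := h.u_ge; have := h.hN
    linarith
  have hg7 : gpf (Q - 1) ∈ W7 n := mem_W7 hgp h.hn7 h.hNu h.huN hA hgu
  have hgm : gpf (Q - 1) ∉ lpd n ((Q - 1) / gpf (Q - 1)) := by
    intro hc
    apply hQsq _ hgL
    rw [pow_two]
    have := Nat.mul_dvd_mul_left (gpf (Q - 1)) (mem_lpd.1 hc).2
    rwa [hmul] at this
  have hins : lpd n (Q - 1) = insert (gpf (Q - 1)) (lpd n ((Q - 1) / gpf (Q - 1))) := by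
    ext r
    rw [mem_insert, mem_lpd, mem_lpd]
    constructor
    · rintro ⟨h1, h2⟩
      by_cases hrg : r = gpf (Q - 1)
      · exact Or.inl hrg
      · right
        refine ⟨h1, ?_⟩
        rw [← hmul] at h2
        have hrp := (mem_LP.1 h1).1
        rcases (hrp.dvd_mul).1 h2 with h3 | h3
        · exact absurd ((Nat.prime_dvd_prime_iff_eq hrp hgp).1 h3) hrg
        · exact h3
    · rintro (h1 | ⟨h1, h2⟩)
      · rw [h1]; exact ⟨hgL, hgd⟩
      · exact ⟨h1, h2.trans ⟨gpf (Q - 1), by rw [mul_comm]; exact hmul.symm⟩⟩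
  refine ⟨hgL, hg7, hgm, hins, ?_⟩
  ext r
  rw [mem_filter]
  constructor
  · rintro ⟨h1, h2⟩
    rw [hins, mem_insert] at h1
    rcases h1 with h1 | h1
    · omega
    · exact h1
  · intro h1
    have h2 : r ∈ lpd n (Q - 1) := by rw [hins]; exact mem_insert_of_mem h1
    refine ⟨h2, lt_of_le_of_ne ?_ ?_⟩
    · exact le_gpf (Nat.mem_primeFactors.2 ⟨(mem_LP.1 (mem_lpd.1 h2).1).1, (mem_lpd.1 h2).2, by omega⟩)
    · rintro rfl
      exact hgm h1

theorem caseA_small (h : Setup b n Δ D₂ D f p Q) (hA : Real.log p < 2 * Real.log (gpf (Q - 1)))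
    {w3 Ls : ℝ} (hw3 : 0 < w3) (hw32 : w3 ≤ w2 b)
    (hLs : 0 ≤ Ls) (hL : f.L = Ls * w3 ^ (-f.kap)) {r : ℕ}
    (hr : r ∈ lpd n ((Q - 1) / gpf (Q - 1))) : Small1 b n f (Real.log p) w3 Ls r := by
  obtain ⟨hgp, hgd, hmul, hm1, hlog⟩ := h.g_facts
  obtain ⟨hrL, hrd⟩ := mem_lpd.1 hr
  apply h.small1 hw3 hw32 hLs hL hrL
  have h1 : r ≤ (Q - 1) / gpf (Q - 1) := Nat.le_of_dvd (by omega) hrd
  have h2 : Real.log r ≤ Real.log ((Q - 1) / gpf (Q - 1) : ℕ) :=
    Real.log_le_log (by exact_mod_cast (mem_LP.1 hrL).1.pos) (by exact_mod_cast h1)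
  have := h.logQ1
  linarith

/-- case A, II -/
theorem caseA2 (h : Setup b n Δ D₂ D f p Q) {w3 Ls s τ : ℝ} (hw3 : 0 < w3) (hw32 : w3 ≤ w2 b)
    (hLs : 0 ≤ Ls) (hL : f.L = Ls * w3 ^ (-f.kap)) (hs : 1 ≤ s) (heps0 : 0 ≤ eps b n Δ D₂)
    (heps1 : eps b n Δ D₂ ≤ 1) (hτ0 : 0 ≤ τ) (hτ : τ ≤ 1 / 2)
    (hτ1 : b * eps b n Δ D₂ * (Δ * (n : ℝ) ^ 2 + 1) ^ (b - 1) ≤ τ)
    (hA : Real.log p < 2 * Real.log (gpf (Q - 1))) {r₀ : ℕ}
    (hr₀ : r₀ ∈ lpd n ((Q - 1) / gpf (Q - 1))) (ho : w2 b < omr n r₀) (hE : Ls < lev f D r₀) :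
    V b (lev f D p) ≤ Maj b n w3 Ls s (lev f D) Q + 2 * τ := by
  obtain ⟨hgL, hg7, hgm, hins, hfil⟩ := h.caseA_data hA
  obtain ⟨hgp, hgd, hmul, hm1, hlog⟩ := h.g_facts
  obtain ⟨c, hc⟩ : ∃ c, b = c + 1 := ⟨b - 1, by have := h.ok.hb; omega⟩
  have hu := h.u_pos
  obtain ⟨g, hg⟩ : ∃ g, g = gpf (Q - 1) := ⟨_, rfl⟩
  obtain ⟨R', hR'⟩ : ∃ R', R' = lpd n ((Q - 1) / gpf (Q - 1)) := ⟨_, rfl⟩
  have hsm : ∀ r ∈ R', Small1 b n f (Real.log p) w3 Ls r := by
    intro r hr; rw [hR'] at hr; exact h.caseA_small hA hw3 hw32 hLs hL hr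
  have h1 := h.Epow_le heps0 heps1
  have h2 := pm (lpd n (Q - 1)) (fun r => Real.log r / Real.log p) (fun r => Xf f D (Real.log p) r)
    (fun r hr => div_nonneg (lr_pos (mem_lpd.1 hr).1).le h.u_pos.le)
    (fun r hr => Xf_nonneg h.ok D h.u_pos.le r) h.sum_w c
  rw [← hc] at h2
  have hsumw := h.sum_w
  obtain ⟨m1, m2, m3, m4⟩ := h.Maj_ge (w3 := w3) (Ls := Ls) hs
  have hm4g := m4 (gpf (Q - 1)) (by rw [hins]; exact mem_insert_self _ _)
  have hsingle : Qf b n (lev f D) (gpf (Q - 1)) *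
        ∏ r ∈ (lpd n (Q - 1)).filter (· < gpf (Q - 1)),
          (1 + (hfun b w3 Ls (omr n r) (lev f D r) + s * bet b w3 Ls (omr n r) (lev f D r))) ≤
      ∑ q ∈ lpd n (Q - 1), Qf b n (lev f D) q *
        ∏ r ∈ (lpd n (Q - 1)).filter (· < q),
          (1 + (hfun b w3 Ls (omr n r) (lev f D r) + s * bet b w3 Ls (omr n r) (lev f D r))) :=
    single_le_sum (f := fun q => Qf b n (lev f D) q *
        ∏ r ∈ (lpd n (Q - 1)).filter (· < q),
          (1 + (hfun b w3 Ls (omr n r) (lev f D r) + s * bet b w3 Ls (omr n r) (lev f D r)))) m4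
      (by rw [hins]; exact mem_insert_self _ _)
  rw [hfil] at hsingle
  rw [hins, sum_insert hgm] at h2 hsumw
  rw [← hR', ← hg] at h2 hsumw hsingle hgm hins
  rw [← hg] at hg7 hgL hA
  rw [← hR'] at hr₀
  -- the top prime
  have hwr₀ : omr n r₀ ≤ Real.log r₀ / Real.log p := (hsm r₀ hr₀).om_le_w
  have hwr₀' : Real.log r₀ / Real.log p ≤ ∑ r ∈ R', Real.log r / Real.log p :=
    single_le_sum (f := fun r : ℕ => Real.log (r : ℝ) / Real.log p)
      (fun r hr => div_nonneg (hsm r hr).hr.le hu.le) hr₀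
  have hwg : Real.log g / Real.log p ≤ 1 - w2 b := by linarith
  have hwg0 : 0 < Real.log g := lr_pos hgL
  have hgle : Real.log g ≤ Real.log p := by
    have := (w2_lt b).1
    rw [div_le_iff₀ hu] at hwg
    nlinarith
  have hEg := lev_nonneg h.ok D g
  have hXg : Real.log g / Real.log p * Xf f D (Real.log p) g ^ b ≤
      (1 - w2 b) ^ (3 / 4 : ℝ) * (lev f D g) ^ b := by
    refine (wX h.ok D hwg0 (h.llr hgL) hgle).trans ?_
    apply mul_le_mul_of_nonneg_right _ (by positivity)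
    exact Real.rpow_le_rpow (div_nonneg hwg0.le hu.le) hwg (by norm_num)
  obtain ⟨Y, hY⟩ : ∃ Y, Y = (1 - w2 b) ^ (3 / 4 : ℝ) * (lev f D g) ^ b +
    ∑ r ∈ R', Real.log r / Real.log p * Xf f D (Real.log p) r ^ b := ⟨_, rfl⟩
  have h3 : (lev f D p) ^ b ≤ Y + τ := by
    rw [hins, sum_insert hgm] at h1
    rw [sum_insert hgm] at h2
    linarith
  have hw1 : 0 ≤ 1 - w2 b := by have := (w2_lt b).2; linarith
  have hY0 : 0 ≤ Y := by
    rw [hY]
    apply add_nonneg (by positivity)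
    exact sum_nonneg fun r hr => (hsm r hr).wX_nonneg D
  have hQf : Qf b n (lev f D) g = Real.exp ((1 - w2 b) ^ (3 / 4 : ℝ) * (lev f D g) ^ b) := by
    unfold Qf; rw [if_pos hg7]
  -- the product
  have hprod : (s * ∏ r ∈ R', Real.exp (Real.log r / Real.log p * Xf f D (Real.log p) r ^ b)) ≤
      ∏ r ∈ R', (1 + (hfun b w3 Ls (omr n r) (lev f D r) +
        s * bet b w3 Ls (omr n r) (lev f D r))) := by
    rw [← mul_prod_erase R' _ hr₀, ← mul_prod_erase R' _ hr₀, ← mul_assoc]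
    apply mul_le_mul
    · have e1 := (hsm r₀ hr₀).h_bet D ho hE
      have e2 := hfun_nonneg b (w3 := w3) (Ls := Ls) (hsm r₀ hr₀).om_nonneg
        (lev_nonneg h.ok D r₀)
      have e3 := mul_le_mul_of_nonneg_left e1 (by linarith : 0 ≤ s)
      linarith
    · apply Finset.prod_le_prod
      · intro r _; exact (Real.exp_pos _).le
      · intro r hr
        have e1 := (hsm r (mem_of_mem_erase hr)).h_all D
        have e2 := bet_nonneg b w3 Ls (omr n r) (lev f D r)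
        have e3 := mul_nonneg (by linarith : 0 ≤ s) e2
        linarith
    · exact prod_nonneg fun r _ => (Real.exp_pos _).le
    · have e2 := hfun_nonneg b (w3 := w3) (Ls := Ls) (hsm r₀ hr₀).om_nonneg
        (lev_nonneg h.ok D r₀)
      have e3 := mul_nonneg (by linarith : 0 ≤ s) (bet_nonneg b w3 Ls (omr n r₀) (lev f D r₀))
      linarith
  obtain ⟨P, hP⟩ : ∃ P, P = Qf b n (lev f D) g *
    ∏ r ∈ R', Real.exp (Real.log r / Real.log p * Xf f D (Real.log p) r ^ b) := ⟨_, rfl⟩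
  have hYP : Real.exp Y = P := by
    rw [hY, hP, Real.exp_add, Real.exp_sum, hQf]
  have h5 := exp_step h3 hτ0 hτ hYP.le (by rw [← hYP]; exact Real.one_le_exp hY0)
  have h6 : P ≤ 1 / s * ∑ q ∈ lpd n (Q - 1), Qf b n (lev f D) q *
        ∏ r ∈ (lpd n (Q - 1)).filter (· < q),
          (1 + (hfun b w3 Ls (omr n r) (lev f D r) + s * bet b w3 Ls (omr n r) (lev f D r))) := by
    rw [one_div, inv_mul_eq_div, le_div_iff₀ (by linarith)]
    refine le_trans ?_ hsingle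
    rw [hP]
    have e1 : Qf b n (lev f D) g *
        (∏ r ∈ R', Real.exp (Real.log r / Real.log p * Xf f D (Real.log p) r ^ b)) * s =
        Qf b n (lev f D) g *
        (s * ∏ r ∈ R', Real.exp (Real.log r / Real.log p * Xf f D (Real.log p) r ^ b)) := by ring
    rw [e1]
    apply mul_le_mul_of_nonneg_left hprod
    rw [hQf]; exact (Real.exp_pos _).le
  unfold V
  linarith

/-- case A, I -/
theorem caseA1 (h : Setup b n Δ D₂ D f p Q) {w3 Ls s τ : ℝ} (hw3 : 0 < w3) (hw32 : w3 ≤ w2 b)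
    (hLs : 0 ≤ Ls) (hL : f.L = Ls * w3 ^ (-f.kap)) (hs : 1 ≤ s) (heps0 : 0 ≤ eps b n Δ D₂)
    (heps1 : eps b n Δ D₂ ≤ 1) (hdel0 : 0 ≤ del b n) (hdel1 : del b n ≤ 1)
    (hτ0 : 0 ≤ τ) (hτ : τ ≤ 1 / 2)
    (hτ1 : 3 * del b n * (n : ℝ) ^ (2 * b + 1) +
      b * eps b n Δ D₂ * (Δ * (n : ℝ) ^ 2 + 1) ^ (b - 1) ≤ τ)
    (hlev : ∀ r ∈ LP n, (lev f D r) ^ b ≤ (n : ℝ) ^ (2 * b + 1))
    (hA : Real.log p < 2 * Real.log (gpf (Q - 1)))
    (hI : ∀ r ∈ lpd n ((Q - 1) / gpf (Q - 1)), omr n r ≤ w2 b ∨ lev f D r ≤ Ls) :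
    V b (lev f D p) ≤ Maj b n w3 Ls s (lev f D) Q + 2 * τ := by
  obtain ⟨hgL, hg7, hgm, hins, hfil⟩ := h.caseA_data hA
  obtain ⟨hgp, hgd, hmul, hm1, hlog⟩ := h.g_facts
  obtain ⟨c, hc⟩ : ∃ c, b = c + 1 := ⟨b - 1, by have := h.ok.hb; omega⟩
  have hu := h.u_pos
  have h1 := h.Epow_le heps0 heps1
  obtain ⟨m1, m2, m3, m4⟩ := h.Maj_ge (w3 := w3) (Ls := Ls) hs
  have hlogQ1 := h.logQ1
  have hsm : ∀ r ∈ lpd n ((Q - 1) / gpf (Q - 1)), Small1 b n f (Real.log p) w3 Ls r := by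
    intro r hr; exact h.caseA_small hA hw3 hw32 hLs hL hr
  rw [if_pos hg7] at m1 m3
  obtain ⟨g, hg⟩ : ∃ g, g = gpf (Q - 1) := ⟨_, rfl⟩
  obtain ⟨m, hm⟩ : ∃ m, m = (Q - 1) / gpf (Q - 1) := ⟨_, rfl⟩
  have hAq := h.Aq_nonneg
  rw [← hm, ← hg] at hins hgm m1 m3 hAq hlog
  rw [← hg] at hg7 hgL hA hgp
  rw [← hm] at hI hsm hm1
  have hwg0 : 0 < Real.log g := lr_pos hgL
  have hlm0 : 0 ≤ Real.log m := Real.log_natCast_nonneg m
  obtain ⟨v, hv⟩ : ∃ v, v = Real.log m / Real.log p := ⟨_, rfl⟩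
  obtain ⟨w, hw⟩ : ∃ w, w = Real.log g / Real.log p := ⟨_, rfl⟩
  have hv0 : 0 ≤ v := by rw [hv]; positivity
  have hwpos : 0 < w := by rw [hw]; positivity
  have hwv : w + v ≤ 1 := by
    rw [hv, hw, ← add_div, div_le_one hu]; linarith
  have hwhalf : 1 / 2 ≤ w := by
    rw [hw, div_le_div_iff₀ (by norm_num) hu]; linarith
  have hdel : 1 ≤ w + v + del b n := by
    have e1 := h.hpQ
    rw [← hlog] at e1
    have e2 : Real.log p - (Real.log g + Real.log m) = (1 - w - v) * Real.log p := by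
      rw [hv, hw]; field_simp; ring
    rw [e2] at e1
    have e3 : (1 - w - v) * Real.log p ≤ del b n * Real.log p := by
      refine e1.trans ?_
      unfold del
      rw [div_mul_eq_mul_div, le_div_iff₀ (NN_pos n)]
      have e4 := h.u_ge
      have e5 := NN_pos n
      have hlM : 0 ≤ Real.log (MM b n) := Real.log_natCast_nonneg _
      have e6 : 0 ≤ (KK b n : ℝ) * (Real.log (MM b n) + 1) + 1 := by positivity
      nlinarith
    have := le_of_mul_le_mul_right e3 hu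
    linarith
  have hXn : ∀ r, 0 ≤ Xf f D (Real.log p) r := fun r => Xf_nonneg h.ok D hu.le r
  obtain ⟨α, hα⟩ : ∃ α, α = 1 - v / 2 := ⟨_, rfl⟩
  have hα0 : 1 / 2 ≤ α := by rw [hα]; linarith
  have hα1 : α ≤ 1 := by rw [hα]; linarith
  have hsumR : ∑ r ∈ lpd n m, Real.log r / Real.log p ≤ v := by
    rw [← sum_div, hv]
    exact div_le_div_of_nonneg_right (sum_log_lpd hm1) hu.le
  -- the weighted power mean
  have hS : ∑ r ∈ lpd n (Q - 1), Real.log r / Real.log p * Xf f D (Real.log p) r ≤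
      ∑ r ∈ lpd n (Q - 1), (if r = g then α else Real.log r / Real.log p / 2) *
        (if r = g then (1 - v) / α * Xf f D (Real.log p) g else 2 * Xf f D (Real.log p) r) := by
    rw [hins, sum_insert hgm, sum_insert hgm, if_pos rfl, if_pos rfl]
    apply add_le_add
    · have e1 : α * ((1 - v) / α * Xf f D (Real.log p) g) = (1 - v) * Xf f D (Real.log p) g := by
        field_simp
      rw [e1, ← hw]
      exact mul_le_mul_of_nonneg_right (by linarith) (hXn g)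
    · apply sum_le_sum
      intro r hr
      have hrg : r ≠ g := by rintro rfl; exact hgm hr
      rw [if_neg hrg, if_neg hrg]
      apply le_of_eq; ring
  have hpm := pm (lpd n (Q - 1)) (fun r => if r = g then α else Real.log r / Real.log p / 2)
    (fun r => if r = g then (1 - v) / α * Xf f D (Real.log p) g else 2 * Xf f D (Real.log p) r)
    (by
      intro r hr
      split_ifs
      · linarith
      · have := lr_pos (mem_lpd.1 hr).1
        positivity)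
    (by
      intro r _
      split_ifs
      · have := hXn g
        have : 0 ≤ 1 - v := by linarith
        positivity
      · have := hXn r
        linarith)
    (by
      rw [hins, sum_insert hgm, if_pos rfl]
      have e1 : ∑ r ∈ lpd n m, (if r = g then α else Real.log r / Real.log p / 2) =
          (∑ r ∈ lpd n m, Real.log r / Real.log p) / 2 := by
        rw [sum_div]
        apply sum_congr rfl
        intro r hr
        have hrg : r ≠ g := by rintro rfl; exact hgm hr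
        rw [if_neg hrg]
      rw [e1, hα]
      linarith) c
  rw [← hc] at hpm
  have hrhs : ∑ r ∈ lpd n (Q - 1), (if r = g then α else Real.log r / Real.log p / 2) *
        (if r = g then (1 - v) / α * Xf f D (Real.log p) g else 2 * Xf f D (Real.log p) r) ^ b =
      α * ((1 - v) / α) ^ b * Xf f D (Real.log p) g ^ b +
        2 ^ (b - 1) * ∑ r ∈ lpd n m, Real.log r / Real.log p * Xf f D (Real.log p) r ^ b := by
    rw [hins, sum_insert hgm, if_pos rfl, if_pos rfl, mul_pow, mul_sum]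
    congr 1
    · ring
    · apply sum_congr rfl
      intro r hr
      have hrg : r ≠ g := by rintro rfl; exact hgm hr
      rw [if_neg hrg, if_neg hrg, mul_pow]
      have e1 : (2 : ℝ) ^ b = 2 * 2 ^ (b - 1) := by
        rw [hc, Nat.add_sub_cancel, pow_succ]; ring
      rw [e1]; ring
  rw [hrhs] at hpm
  -- the top prime
  have htop : α * ((1 - v) / α) ^ b * Xf f D (Real.log p) g ^ b ≤
      (1 - Real.log m / NN n / 2) ^ (b - 1) * (lev f D g) ^ b + 3 * del b n * (n : ℝ) ^ (2 * b + 1) := by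
    have hgle : Real.log g ≤ Real.log p := by
      have : w ≤ 1 := by linarith
      rw [hw, div_le_one hu] at this
      exact this
    have e1 : (1 - v) / α ≤ α := by
      rw [div_le_iff₀ (by linarith), hα]
      nlinarith
    have e0 : 0 ≤ (1 - v) / α := div_nonneg (by linarith) (by linarith)
    have e2 : α * ((1 - v) / α) ^ b ≤ α ^ (b - 1) * α ^ 2 := by
      calc α * ((1 - v) / α) ^ b ≤ α * α ^ b := by gcongr
        _ = α ^ (b - 1) * α ^ 2 := by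
            rw [← pow_add, ← pow_succ']
            congr 1
            omega
    have e3 : Xf f D (Real.log p) g ^ b ≤ (Real.log p / Real.log g) ^ (1 / 4 : ℝ) * (lev f D g) ^ b := by
      have e4 := X_le h.ok D hwg0 (h.llr hgL) hgle
      have e5 := hXn g
      calc Xf f D (Real.log p) g ^ b ≤ ((Real.log p / Real.log g) ^ f.kap * lev f D g) ^ b := by
            gcongr
        _ = _ := by rw [mul_pow, pow_kap h.ok (by positivity)]
    have e4 : α ^ 2 ≤ (1 + 3 * del b n) * w ^ (1 / 4 : ℝ) := by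
      apply half_sq' hwhalf (by linarith) hdel0 hdel1 (by linarith)
      rw [hα]; linarith
    have e5 : w ^ (1 / 4 : ℝ) * (Real.log p / Real.log g) ^ (1 / 4 : ℝ) = 1 := by
      rw [← Real.mul_rpow hwpos.le (by positivity), hw]
      have : Real.log g / Real.log p * (Real.log p / Real.log g) = 1 := by field_simp
      rw [this, Real.one_rpow]
    have hE := lev_nonneg h.ok D g
    have e6 : α ^ 2 * Xf f D (Real.log p) g ^ b ≤ (1 + 3 * del b n) * (lev f D g) ^ b := by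
      calc α ^ 2 * Xf f D (Real.log p) g ^ b
          ≤ ((1 + 3 * del b n) * w ^ (1 / 4 : ℝ)) *
            ((Real.log p / Real.log g) ^ (1 / 4 : ℝ) * (lev f D g) ^ b) := by
            apply mul_le_mul e4 e3 (pow_nonneg (hXn g) _)
            positivity
        _ = (1 + 3 * del b n) * (w ^ (1 / 4 : ℝ) * (Real.log p / Real.log g) ^ (1 / 4 : ℝ)) *
            (lev f D g) ^ b := by ring
        _ = _ := by rw [e5]; ring
    have e7 : α ^ (b - 1) ≤ 1 := pow_le_one₀ (by linarith) hα1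
    have e8 : α ^ (b - 1) ≤ (1 - Real.log m / NN n / 2) ^ (b - 1) := by
      have e9 : α ≤ 1 - Real.log m / NN n / 2 := by
        have : Real.log m / NN n ≤ v := by
          rw [hv]; exact div_le_div_of_nonneg_left hlm0 hu h.huN
        rw [hα]; linarith
      gcongr
    calc α * ((1 - v) / α) ^ b * Xf f D (Real.log p) g ^ b
        ≤ α ^ (b - 1) * α ^ 2 * Xf f D (Real.log p) g ^ b :=
          mul_le_mul_of_nonneg_right e2 (pow_nonneg (hXn g) _)
      _ = α ^ (b - 1) * (α ^ 2 * Xf f D (Real.log p) g ^ b) := by ring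
      _ ≤ α ^ (b - 1) * ((1 + 3 * del b n) * (lev f D g) ^ b) :=
          mul_le_mul_of_nonneg_left e6 (by positivity)
      _ = α ^ (b - 1) * (lev f D g) ^ b + α ^ (b - 1) * (3 * del b n * (lev f D g) ^ b) := by ring
      _ ≤ (1 - Real.log m / NN n / 2) ^ (b - 1) * (lev f D g) ^ b +
          1 * (3 * del b n * (n : ℝ) ^ (2 * b + 1)) := by
          apply add_le_add
          · exact mul_le_mul_of_nonneg_right e8 (by positivity)
          · apply mul_le_mul e7 _ (by positivity) zero_le_one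
            exact mul_le_mul_of_nonneg_left (hlev g hgL) (by positivity)
      _ = _ := by rw [one_mul]
  obtain ⟨Y, hY⟩ : ∃ Y, Y = (1 - Real.log m / NN n / 2) ^ (b - 1) * (lev f D g) ^ b +
    ∑ r ∈ lpd n m, 2 ^ (b - 1) * (Real.log r / Real.log p * Xf f D (Real.log p) r ^ b) := ⟨_, rfl⟩
  have hSb : (∑ r ∈ lpd n (Q - 1), Real.log r / Real.log p * Xf f D (Real.log p) r) ^ b ≤
      Y + 3 * del b n * (n : ℝ) ^ (2 * b + 1) := by
    have e1 : (∑ r ∈ lpd n (Q - 1), Real.log r / Real.log p * Xf f D (Real.log p) r) ^ b ≤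
        (∑ r ∈ lpd n (Q - 1), (if r = g then α else Real.log r / Real.log p / 2) *
        (if r = g then (1 - v) / α * Xf f D (Real.log p) g else 2 * Xf f D (Real.log p) r)) ^ b :=
      pow_le_pow_left₀ h.S_nonneg hS b
    rw [hY, ← mul_sum]
    linarith
  have h3 : (lev f D p) ^ b ≤ Y + τ := by linarith
  have h4 : Real.exp Y ≤ (1 + Aq b n (lev f D) g m) *
      ∏ r ∈ lpd n m, (1 + hfun b w3 Ls (omr n r) (lev f D r)) := by
    rw [hY, Real.exp_add, Real.exp_sum]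
    apply mul_le_mul
    · unfold Aq; linarith
    · apply Finset.prod_le_prod
      · intro r _; exact (Real.exp_pos _).le
      · intro r hr
        exact (hsm r hr).h_case1 D (hI r hr)
    · exact prod_nonneg fun r _ => (Real.exp_pos _).le
    · linarith
  have hh : ∀ r, 0 ≤ hfun b w3 Ls (omr n r) (lev f D r) := fun r => by
    apply hfun_nonneg b _ (lev_nonneg h.ok D r)
    unfold omr
    exact div_nonneg (Real.log_natCast_nonneg r) (NN_pos n).le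
  have hP1 : 1 ≤ ∏ r ∈ lpd n m, (1 + hfun b w3 Ls (omr n r) (lev f D r)) := by
    apply one_le_prod
    intro r _
    have := hh r
    linarith
  have h5 := exp_step h3 hτ0 hτ h4 (by nlinarith)
  have h6 : ∏ r ∈ lpd n m, (1 + hfun b w3 Ls (omr n r) (lev f D r)) ≤
      ∏ r ∈ lpd n (Q - 1), (1 + hfun b w3 Ls (omr n r) (lev f D r)) := by
    rw [hins, prod_insert hgm]
    apply le_mul_of_one_le_left (by linarith)
    have := hh g
    linarith
  have h7 : 0 ≤ 1 / s * ∑ q ∈ lpd n (Q - 1), Qf b n (lev f D) q *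
        ∏ r ∈ (lpd n (Q - 1)).filter (· < q),
          (1 + (hfun b w3 Ls (omr n r) (lev f D r) + s * bet b w3 Ls (omr n r) (lev f D r))) :=
    mul_nonneg (by positivity) (sum_nonneg m4)
  unfold V
  linarith

end Setup

end Pw

open Fr Pw in
theorem pointwise (Δ D₂ : ℝ) (hΔ : 1 ≤ Δ) (hD₂ : 0 ≤ D₂) : ∀ (b : ℕ) (w3 Ls s : ℝ), 2 ≤ b → 0 < w3 → w3 ≤ w2 b →
    1 ≤ Ls → 1 ≤ s → ∃ n₀ : ℕ, ∀ (f : Frame) (D : ℕ → ℝ), AddFn Δ D₂ D → n₀ ≤ f.n0 →
    0 ≤ f.c0 → 0 ≤ f.a → f.a ≤ 1 → f.kap = 1 / (4 * b) → f.L = Ls * w3 ^ (-f.kap) →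
    ∀ n, f.n0 < n → ∀ p ∈ W n, ∀ Q, Good b n p Q →
    V b (lev f D p) ≤ Maj b n w3 Ls s (lev f D) Q + 2 * (NN n) ^ (-(1 / 10) : ℝ) := by
  intro b w3 Ls s hb hw3 hw32 hLs hs
  obtain ⟨n1, h1⟩ := lev_le Δ D₂ hΔ b hb
  obtain ⟨n2, h2⟩ := numeric Δ D₂ hΔ hD₂ b hb
  refine ⟨max n1 n2, ?_⟩
  intro f D hD hn0 hc0 ha ha1 hkap hL n hn p hp Q hG
  have hn1 : n1 ≤ f.n0 := (le_max_left _ _).trans hn0
  have hn2 : n2 ≤ f.n0 := (le_max_right _ _).trans hn0
  obtain ⟨hn7, hnb, hN, hτ, hdel1, heps1, hτ1⟩ := h2 n (by omega)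
  obtain ⟨-, hnb0, -⟩ := h2 f.n0 hn2
  have hLs0 : 0 ≤ Ls := by linarith
  have hb0 : (0 : ℝ) < b := by positivity
  have hkap0 : 0 ≤ f.kap := by rw [hkap]; positivity
  have hL1 : 1 ≤ f.L := by
    rw [hL]
    have h3 : 1 ≤ w3 ^ (-f.kap) := by
      apply Real.one_le_rpow_of_pos_of_le_one_of_nonpos hw3
      · have := (Setup.w2_lt b).2; linarith
      · linarith
    nlinarith
  have ok : Ok b f := ⟨hb, hkap, hc0, ha, by linarith, t0_ge hnb0⟩
  have hS : Setup b n Δ D₂ D f p Q := setup_of_good hΔ hD₂ hD ok hn7 hnb hN hn hp hG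
  have hNp := NN_pos n
  have hlM : 0 ≤ Real.log (MM b n) := Real.log_natCast_nonneg _
  have heps0 : 0 ≤ eps b n Δ D₂ := by unfold eps; have := hS.hErr; positivity
  have hdel0 : 0 ≤ del b n := by unfold del; positivity
  have hτ0 : 0 ≤ (NN n) ^ (-(1 / 10) : ℝ) := by positivity
  have hτ1' : 3 * del b n * (n : ℝ) ^ (2 * b + 1) +
      b * eps b n Δ D₂ * (Δ * (n : ℝ) ^ 2 + 1) ^ (b - 1) ≤ (NN n) ^ (-(1 / 10) : ℝ) := hτ1
  have hτ2 : b * eps b n Δ D₂ * (Δ * (n : ℝ) ^ 2 + 1) ^ (b - 1) ≤ (NN n) ^ (-(1 / 10) : ℝ) := by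
    have : 0 ≤ 3 * del b n * (n : ℝ) ^ (2 * b + 1) := by positivity
    linarith
  by_cases hA : Real.log p < 2 * Real.log (gpf (Q - 1))
  · by_cases hI : ∀ r ∈ lpd n ((Q - 1) / gpf (Q - 1)), omr n r ≤ w2 b ∨ lev f D r ≤ Ls
    · refine hS.caseA1 hw3 hw32 hLs0 hL hs heps0 heps1 hdel0 hdel1 hτ0 hτ hτ1' ?_ hA hI
      intro r hr
      have h3 := h1 n (by omega) f D hD hn1 hn hc0 ha ha1 hL1 hkap r hr
      have h4 : (0 : ℝ) ≤ (n : ℝ) ^ (2 * b + 1) := by positivity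
      linarith
    · push Not at hI
      obtain ⟨r₀, hr₀, ho, hE⟩ := hI
      exact hS.caseA2 hw3 hw32 hLs0 hL hs heps0 heps1 hτ0 hτ hτ2 hA hr₀ ho hE
  · exact hS.caseB hw3 hw32 hLs0 hL hs heps0 heps1 hτ0 hτ hτ2 (not_lt.1 hA)

end

end Pool.Agent.NTot
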