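import Pool.Agent.NTot.PC3

/-!
# M16: conclusion for primes
-/

set_option autoImplicit false

namespace Pool.Agent.NTot

open Finset Filter Topology

noncomputable section

namespace PC

theorem block_sum (f : ℕ → ℝ) (hf : ∀ i, 0 ≤ f i) (c : ℝ) (w i₀ : ℕ) :
    ∀ R : ℕ, (∀ k < R, ∃ i, i₀ + k * (w + 1) ≤ i ∧ i ≤ i₀ + k * (w + 1) + w ∧ c ≤ f i) →
      R * c ≤ ∑ i ∈ Ico i₀ (i₀ + R * (w + 1)), f i := by
  intro R
  induction R with
  | zero => intro _; simp
  | succ R ih =>
    intro h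
    have h1 := ih (fun k hk => h k (by omega))
    obtain ⟨i, hi1, hi2, hi3⟩ := h R (by omega)
    have e : i₀ + (R + 1) * (w + 1) = i₀ + R * (w + 1) + (w + 1) := by ring
    rw [← Finset.sum_Ico_consecutive f (Nat.le_add_right i₀ (R * (w + 1)))
      (show i₀ + R * (w + 1) ≤ i₀ + (R + 1) * (w + 1) by rw [e]; omega)]
    have h2 : f i ≤ ∑ i ∈ Ico (i₀ + R * (w + 1)) (i₀ + (R + 1) * (w + 1)), f i := by
      apply Finset.single_le_sum (fun j _ => hf j)
      rw [mem_Ico, e]
      omega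
    push_cast
    linarith

theorem alpha_add_le {Δ D₂ : ℝ} (hΔ : 1 ≤ Δ) (hD₂ : 0 ≤ D₂) {D : ℕ → ℝ} (hD : AddFn Δ D₂ D) :
    alpha D + alpha (fun n => Δ * Real.log n - D n) ≤ Δ := by
  classical
  have hΔ0 : 0 < Δ := by linarith
  by_contra hcon
  rw [not_le] at hcon
  set D' : ℕ → ℝ := fun n => Δ * Real.log n - D n with hD'
  set al := alpha D with hal
  set be := alpha D' with hbe
  set g := al + be - Δ with hg
  have hg0 : 0 < g := by rw [hg]; linarith
  have hD1 : AddFn Δ (D₂ + 2 * Δ) D := addFn_mono hD (by linarith)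
  have hD2 : AddFn Δ (D₂ + 2 * Δ) D' := addFn_compl hΔ0.le hD
  have hal1 : al ≤ Δ := alpha_le hΔ0.le hD1
  have hal0 : 0 ≤ al := alpha_nonneg hΔ0.le hD1
  have hbe1 : be ≤ Δ := alpha_le hΔ0.le hD2
  obtain ⟨π₁, hπ, hnr⟩ := nonrare Δ (D₂ + 2 * Δ) hΔ (by linarith)
  obtain ⟨w', n₁, h1⟩ := hnr D' hD2 (g / 4) (by linarith) (by rw [← hbe]; linarith)
  obtain ⟨Cs, hCs, ns, hs⟩ := sieve_set
  obtain ⟨R, hR⟩ : ∃ R : ℕ, Cs * Real.exp (-(R * π₁)) ≤ π₁ / 2 := by
    obtain ⟨R, hR⟩ := exists_nat_ge (Real.log (2 * Cs / π₁) / π₁)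
    refine ⟨R, ?_⟩
    rw [div_le_iff₀ hπ] at hR
    have h2 : Real.exp (-(R * π₁)) ≤ Real.exp (-Real.log (2 * Cs / π₁)) :=
      Real.exp_le_exp.mpr (by linarith)
    rw [Real.exp_neg (Real.log _), Real.exp_log (by positivity)] at h2
    calc Cs * Real.exp (-(R * π₁)) ≤ Cs * (2 * Cs / π₁)⁻¹ :=
          mul_le_mul_of_nonneg_left h2 (by linarith)
      _ = π₁ / 2 := by field_simp
  obtain ⟨i₀, hi₀⟩ := pow_unbounded_of_one_lt Cs one_lt_lam
  set T := i₀ + R * (w' + 1) with hT
  set w₃ : ℝ := (lam ^ T)⁻¹ with hw₃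
  have hw0 : 0 < w₃ := inv_pos.mpr (pow_pos lam_pos T)
  have hw1 : w₃ ≤ 1 := inv_le_one_of_one_le₀ (one_le_pow₀ one_lt_lam.le)
  have hwg : w₃ * g ≤ g := by nlinarith
  obtain ⟨w2, n₂, h2⟩ := hnr D hD1 (w₃ * g / 4) (by positivity) (by rw [← hal]; linarith)
  obtain ⟨n₃, h3⟩ := Z_small (cl := al + w₃ * g / 8) (η := w₃ * g / 8) hΔ0 hD1 (by positivity)
    (by positivity) (alpha_tendsto hΔ0.le hD1 (ε := w₃ * g / 8) (by positivity)) (π₁ / 2) (by linarith)
  obtain ⟨n₄, h4⟩ := eventually_atTop.mp (NN_tendsto.eventually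
    (eventually_ge_atTop (max lam (lam * (8 * (D₂ + 2 * Δ) / (w₃ * g))))))
  -- upper bound for the mass of the primes above the level
  have hup : ∀ n, max (max ns n₃) (max n₄ (n₁ + T)) ≤ n →
      rho n (fun p => al - w₃ * g / 4 < D p / Real.log p) ≤ π₁ := by
    intro n hn
    have hns : ns ≤ n := ((le_max_left _ _).trans (le_max_left _ _)).trans hn
    have hn3 : n₃ ≤ n := ((le_max_right _ _).trans (le_max_left _ _)).trans hn
    have hn4 : n₄ ≤ n := ((le_max_left _ _).trans (le_max_right _ _)).trans hn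
    have hnT : n₁ + T ≤ n := ((le_max_right _ _).trans (le_max_right _ _)).trans hn
    have h4n := h4 n hn4
    have hNlam : lam ≤ NN n := (le_max_left _ _).trans h4n
    have hND : lam * (8 * (D₂ + 2 * Δ) / (w₃ * g)) ≤ NN n := (le_max_right _ _).trans h4n
    set P' : ℕ → Prop := fun q => be - g / 4 < D' q / Real.log q with hP'
    set B := (Ico i₀ T).biUnion (fun i => (W (n - i)).filter P') with hB
    have hsumB : ∑ q ∈ B, (1 : ℝ) / q = ∑ i ∈ Ico i₀ T, rho (n - i) P' := by
      rw [hB, Finset.sum_biUnion]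
      · apply Finset.sum_congr rfl
        intro i _
        rw [rho_def]
      · intro i hi j hj hij
        rw [Finset.mem_coe, mem_Ico] at hi hj
        apply Finset.disjoint_of_subset_left (Finset.filter_subset _ _)
        apply Finset.disjoint_of_subset_right (Finset.filter_subset _ _)
        apply W_disj
        omega
    have hlow : R * π₁ ≤ ∑ q ∈ B, (1 : ℝ) / q := by
      rw [hsumB, hT]
      apply block_sum (fun i => rho (n - i) P') (fun i => rho_nonneg _ _)
      intro k hk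
      have hkR : i₀ + k * (w' + 1) + w' + 1 ≤ T := by
        have : (k + 1) * (w' + 1) ≤ R * (w' + 1) := Nat.mul_le_mul_right _ hk
        have e : (k + 1) * (w' + 1) = k * (w' + 1) + w' + 1 := by ring
        omega
      obtain ⟨m, hm1, hm2, hm3⟩ := h1 (n - (i₀ + k * (w' + 1))) (by omega)
      refine ⟨n - m, by omega, by omega, ?_⟩
      have e : n - (n - m) = m := by omega
      show π₁ ≤ rho (n - (n - m)) P'
      rw [e]
      exact hm3.le
    have hBq : ∀ q ∈ B, q.Prime ∧ Cs * Real.log q ≤ NN n ∧ w₃ * NN n ≤ Real.log q ∧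
        D q ≤ (al - 3 / 4 * g) * Real.log q := by
      intro q hq
      rw [hB, mem_biUnion] at hq
      obtain ⟨i, hi, hqi⟩ := hq
      rw [mem_Ico] at hi
      rw [mem_filter] at hqi
      have hq' := mem_W'.mp hqi.1
      have hlogq := log_pos_of_mem_W hqi.1
      refine ⟨hq'.1, ?_, ?_, ?_⟩
      · have e := NN_sub (n := n) (i := i₀) (by omega)
        rw [e]
        have h5 : NN (n - i) ≤ NN (n - i₀) := NN_mono (by omega)
        exact mul_le_mul hi₀.le (hq'.2.2.trans h5) hlogq.le (pow_nonneg lam_pos.le _)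
      · have e := NN_sub (n := n) (i := i) (by omega)
        rw [hw₃, inv_mul_le_iff₀ (pow_pos lam_pos T), e]
        have h5 : lam ^ T = lam ^ i * lam ^ (T - i) := by
          rw [← pow_add]; congr 1; omega
        rw [h5, mul_assoc]
        apply mul_le_mul_of_nonneg_left _ (pow_nonneg lam_pos.le _)
        have h6 : lam ≤ lam ^ (T - i) := by
          calc lam = lam ^ 1 := (pow_one _).symm
            _ ≤ lam ^ (T - i) := pow_le_pow_right₀ one_lt_lam.le (by omega)
        have h7 := mul_le_mul_of_nonneg_right h6 hlogq.le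
        linarith [hq'.2.1]
      · have h5 : be - g / 4 < D' q / Real.log q := hqi.2
        rw [lt_div_iff₀ hlogq] at h5
        have h6 : D' q = Δ * Real.log q - D q := rfl
        rw [h6] at h5
        have h7 : be = g - al + Δ := by rw [hg]; ring
        rw [h7] at h5
        nlinarith
    have hsv := hs n hns B (fun q hq => ⟨(hBq q hq).1, (hBq q hq).2.1⟩)
    have hsv2 : rho n (fun p => ∀ q ∈ B, ¬ q ∣ p - 1) ≤ π₁ / 2 := by
      refine hsv.trans (le_trans ?_ hR)
      apply mul_le_mul_of_nonneg_left _ (by linarith)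
      exact Real.exp_le_exp.mpr (by linarith)
    have h3n := h3 n hn3
    refine (rho_mono (Q := fun p => (∀ q ∈ B, ¬ q ∣ p - 1) ∨
      w₃ * g / 8 * Real.log p < ZZ D (al + w₃ * g / 8) p) ?_).trans
      ((rho_or n _ _).trans (by linarith))
    intro p hp hpy
    by_contra hno
    rw [not_or, not_lt] at hno
    obtain ⟨hno1, hno2⟩ := hno
    push Not at hno1
    obtain ⟨q, hqB, hqp⟩ := hno1
    obtain ⟨hqpr, _, hq3, hq4⟩ := hBq q hqB
    have hp' := mem_W'.mp hp
    have hlogp := log_pos_of_mem_W hp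
    have hlogp1 : NN n / lam < Real.log p := by
      rw [div_lt_iff₀ lam_pos]; linarith
    have hp2 : 2 < p := by
      have h5 : 1 < Real.log p := by
        refine lt_of_le_of_lt ?_ hlogp1
        rw [le_div_iff₀ lam_pos]; linarith
      by_contra hcon2
      have h6 : p = 2 := by have := hp'.1.two_le; omega
      rw [h6] at h5
      have := Real.log_two_lt_d9
      push_cast at h5
      linarith
    have hsm : (D₂ + 2 * Δ) / p ≤ w₃ * g / 8 * Real.log p := by
      have hp1 : (1 : ℝ) ≤ p := by exact_mod_cast hp'.1.one_lt.le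
      have h5 : (D₂ + 2 * Δ) / p ≤ D₂ + 2 * Δ := div_le_self (by linarith) hp1
      have h6 : 8 * (D₂ + 2 * Δ) / (w₃ * g) ≤ NN n / lam := by
        rw [le_div_iff₀ lam_pos]; linarith
      have h7 := h6.trans hlogp1.le
      rw [div_le_iff₀ (by positivity)] at h7
      linarith
    have hfin := point hD1 hal0 rfl hg0 hw0 hp hp2 hqpr hqp hq4
      ((mul_le_mul_of_nonneg_left hp'.2.2 hw0.le).trans hq3) hno2 hsm
    linarith
  obtain ⟨n, hn1, hn2, hn3⟩ := h2 (max n₂ (max (max ns n₃) (max n₄ (n₁ + T)) + w2)) (le_max_left _ _)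
  have h5 : max (max ns n₃) (max n₄ (n₁ + T)) ≤ n := by
    have := le_max_right n₂ (max (max ns n₃) (max n₄ (n₁ + T)) + w2)
    omega
  have h6 := hup n h5
  rw [← hal] at hn3
  linarith

end PC

open PC in
theorem primes_conc (Δ D₂ : ℝ) (hΔ : 1 ≤ Δ) (hD₂ : 0 ≤ D₂) (D : ℕ → ℝ) (hD : AddFn Δ D₂ D) :
    ∃ c : ℝ, ∀ ε : ℝ, 0 < ε →
      Tendsto (fun n => rho n (fun p => ε < |D p / Real.log p - c|)) atTop (𝓝 0) := by
  have hΔ0 : 0 < Δ := by linarith
  refine ⟨alpha D, fun ε hε => ?_⟩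
  have hD2 : AddFn Δ (D₂ + 2 * Δ) (fun n => Δ * Real.log n - D n) := addFn_compl hΔ0.le hD
  have h1 := alpha_tendsto hΔ0.le hD hε
  have h2 := alpha_tendsto hΔ0.le hD2 hε
  have h3 := alpha_add_le hΔ hD₂ hD
  have h4 := h1.add h2
  rw [add_zero] at h4
  refine squeeze_zero (fun n => rho_nonneg _ _) (fun n => ?_) h4
  refine (rho_mono ?_).trans (rho_or n _ _)
  intro p hp h
  have hlog := log_pos_of_mem_W hp
  rcases lt_abs.mp h with h | h
  · left; linarith
  · right
    show alpha (fun n => Δ * Real.log n - D n) + ε < (Δ * Real.log p - D p) / Real.log p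
    rw [sub_div, mul_div_assoc, div_self hlog.ne']
    linarith

end

end Pool.Agent.NTot
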