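import Pool.Agent.NTot.Defs2

/-!
# M13: smallness
-/

set_option autoImplicit false

namespace Pool.Agent.NTot

open Finset Filter Topology

noncomputable section

/-- weights `A_j = ε 2^{-j}` -/
def Aw (ε : ℝ) (j : ℕ) : ℝ := ε * (1 / 2) ^ j

theorem small_posLog {X A Y : ℝ} (hX : 0 ≤ X) (hA : 0 < A) (hY : 0 ≤ Y)
    (h : X ≤ A * Real.exp Y) : Real.posLog (X / A) ≤ Y := by
  rw [Real.posLog_def]
  apply max_le hY
  rcases hX.eq_or_lt with h0 | h0
  · rw [← h0]; simpa using hY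
  · rw [Real.log_le_iff_le_exp (div_pos h0 hA), div_le_iff₀ hA]
    linarith [mul_comm A (Real.exp Y)]

theorem small_theta : (1 / 2 : ℝ) ^ (3 / 4 : ℝ) ≤ 3 / 5 := by
  have h4 : ((1 / 2 : ℝ) ^ (3 / 4 : ℝ)) ^ 4 = (1 / 2) ^ 3 := by
    rw [← Real.rpow_natCast, ← Real.rpow_mul (by norm_num)]
    norm_num
  have h0 : (0 : ℝ) ≤ (1 / 2 : ℝ) ^ (3 / 4 : ℝ) := by positivity
  by_contra hcon
  push Not at hcon
  have : (3 / 5 : ℝ) ^ 4 < ((1 / 2 : ℝ) ^ (3 / 4 : ℝ)) ^ 4 :=
    pow_lt_pow_left₀ hcon (by norm_num) (by norm_num)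
  rw [h4] at this
  norm_num at this

theorem small_lam_w2 (b : ℕ) : lam * w2 b ≤ 1 := by
  unfold w2 lam
  have : (1 / 2 : ℝ) ^ (2 * (b + 1)) ≤ 1 := pow_le_one₀ (by norm_num) (by norm_num)
  linarith [mul_div_cancel₀ ((1 / 2 : ℝ) ^ (2 * (b + 1))) (show (9 / 8 : ℝ) ≠ 0 by norm_num),
    show (9 / 8 : ℝ) * ((1 / 2) ^ (2 * (b + 1)) / (9 / 8)) = (1 / 2) ^ (2 * (b + 1)) by ring]

theorem small_w2_pos (b : ℕ) : 0 < w2 b := by
  unfold w2 lam; positivity

theorem small_er_nonneg {w3 Ls ω E : ℝ} (hE : 0 ≤ E) : 0 ≤ er w3 Ls ω E := by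
  unfold er; split_ifs
  · exact le_max_left _ _
  · exact hE

theorem small_er_le {w3 Ls ω E : ℝ} (hE : 0 ≤ E) (hL : 0 ≤ Ls) : er w3 Ls ω E ≤ E := by
  unfold er; split_ifs
  · exact max_le hE (by linarith)
  · exact le_rfl

/-- basic bounds for `h + s β` -/
theorem small_bounds {b : ℕ} {w3 Ls ω E s : ℝ} (hs : 0 ≤ s) (hE : 0 ≤ E)
    (hL : 0 ≤ Ls) (hω : 0 < ω) :
    0 ≤ hfun b w3 Ls ω E + s * bet b w3 Ls ω E ∧
    hfun b w3 Ls ω E + s * bet b w3 Ls ω E ≤ (2 + s) * Real.exp (3 / 5 * E ^ b) := by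
  have he0 := small_er_nonneg (w3 := w3) (Ls := Ls) (ω := ω) hE
  have heE := small_er_le (w3 := w3) (Ls := Ls) (ω := ω) hE hL
  set e := er w3 Ls ω E with hedef
  have heb0 : 0 ≤ e ^ b := pow_nonneg he0 b
  have heb : e ^ b ≤ E ^ b := pow_le_pow_left₀ he0 heE b
  have hEb : 0 ≤ E ^ b := pow_nonneg hE b
  have hθ := small_theta
  have hθ0 : (0 : ℝ) ≤ (1 / 2 : ℝ) ^ (3 / 4 : ℝ) := by positivity
  have h1 : Real.exp ((1 / 2 : ℝ) ^ (3 / 4 : ℝ) * e ^ b) ≤ Real.exp (3 / 5 * E ^ b) := by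
    apply Real.exp_le_exp.2
    exact mul_le_mul hθ heb heb0 (by norm_num)
  have h1' : 1 ≤ Real.exp ((1 / 2 : ℝ) ^ (3 / 4 : ℝ) * e ^ b) :=
    Real.one_le_exp (mul_nonneg hθ0 heb0)
  have hb0 : 0 ≤ bet b w3 Ls ω E := by
    unfold bet; split_ifs
    · exact (Real.exp_pos _).le
    · exact le_rfl
  have hb1 : bet b w3 Ls ω E ≤ Real.exp (3 / 5 * E ^ b) := by
    unfold bet; split_ifs
    · exact h1
    · exact (Real.exp_pos _).le
  have hX : 0 ≤ hfun b w3 Ls ω E ∧ hfun b w3 Ls ω E ≤ 2 * Real.exp (3 / 5 * E ^ b) := by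
    unfold hfun
    split_ifs with hc1 hc2
    · have hlw : lam * ω ≤ 1 := by
        have h2 : lam * ω ≤ lam * w2 b := by
          apply mul_le_mul_of_nonneg_left hc1; unfold lam; norm_num
        exact h2.trans (small_lam_w2 b)
      have hlw0 : 0 ≤ lam * ω := by unfold lam; positivity
      have hr : (lam * ω) ^ (1 / 4 : ℝ) ≤ 1 := Real.rpow_le_one hlw0 hlw (by norm_num)
      have hr0 : 0 ≤ (lam * ω) ^ (1 / 4 : ℝ) := Real.rpow_nonneg hlw0 _
      constructor
      · have : 1 ≤ Real.exp (1 / 4 * (lam * ω) ^ (1 / 4 : ℝ) * e ^ b) :=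
          Real.one_le_exp (by positivity)
        linarith
      · have : Real.exp (1 / 4 * (lam * ω) ^ (1 / 4 : ℝ) * e ^ b) ≤ Real.exp (3 / 5 * E ^ b) := by
          apply Real.exp_le_exp.2
          apply mul_le_mul _ heb heb0 (by norm_num)
          linarith
        have h5 := Real.exp_pos (3 / 5 * E ^ b)
        linarith
    · constructor
      · linarith
      · linarith
    · constructor
      · exact le_rfl
      · positivity
  constructor
  · have := mul_nonneg hs hb0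
    linarith [hX.1]
  · have : s * bet b w3 Ls ω E ≤ s * Real.exp (3 / 5 * E ^ b) :=
      mul_le_mul_of_nonneg_left hb1 hs
    nlinarith [hX.2]

theorem small_second {b : ℕ} {w3 Ls ω E s : ℝ} (hs : 0 ≤ s) (hE : 0 ≤ E)
    (hL : 0 ≤ Ls) (hω : 0 < ω) :
    (hfun b w3 Ls ω E + s * bet b w3 Ls ω E) ^ (3 / 2 : ℝ) ≤
      (2 + s) ^ (3 / 2 : ℝ) * (1 + V b E) := by
  obtain ⟨h0, h1⟩ := small_bounds (b := b) (w3 := w3) hs hE hL hω
  have hEb : 0 ≤ E ^ b := pow_nonneg hE b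
  calc (hfun b w3 Ls ω E + s * bet b w3 Ls ω E) ^ (3 / 2 : ℝ)
      ≤ ((2 + s) * Real.exp (3 / 5 * E ^ b)) ^ (3 / 2 : ℝ) :=
        Real.rpow_le_rpow h0 h1 (by norm_num)
    _ = (2 + s) ^ (3 / 2 : ℝ) * Real.exp (3 / 5 * E ^ b * (3 / 2)) := by
        rw [Real.mul_rpow (by linarith) (Real.exp_pos _).le, ← Real.exp_mul]
    _ ≤ (2 + s) ^ (3 / 2 : ℝ) * Real.exp (E ^ b) := by
        apply mul_le_mul_of_nonneg_left _ (Real.rpow_nonneg (by linarith) _)
        apply Real.exp_le_exp.2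
        linarith
    _ = (2 + s) ^ (3 / 2 : ℝ) * (1 + V b E) := by
        unfold V; ring

/-- in the reduced range nothing happens below `Ls` -/
theorem small_zero {b : ℕ} {w3 Ls ω E s : ℝ} (hb : 2 ≤ b) (h3 : w3 ≤ ω)
    (hEL : E ≤ Ls) : hfun b w3 Ls ω E + s * bet b w3 Ls ω E = 0 := by
  have he : er w3 Ls ω E = 0 := by
    unfold er; rw [if_pos h3]; exact max_eq_left (by linarith)
  have hbet : bet b w3 Ls ω E = 0 := by
    unfold bet; rw [if_neg]; rintro ⟨_, _, h⟩; linarith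
  have hz : (0 : ℝ) ^ b = 0 := zero_pow (by omega)
  rw [hbet]
  unfold hfun
  rw [hbet, he, hz]
  split_ifs <;> simp

/-- convexity: `e^{θx} - 1 ≤ θ (e^x - 1)` -/
theorem small_convex {θ x : ℝ} (h0 : 0 ≤ θ) (h1 : θ ≤ 1) :
    Real.exp (θ * x) - 1 ≤ θ * (Real.exp x - 1) := by
  have := convexOn_exp.2 (Set.mem_univ x) (Set.mem_univ 0) h0 (by linarith : (0:ℝ) ≤ 1 - θ) (by ring)
  simp only [smul_eq_mul, mul_zero, add_zero, Real.exp_zero, mul_one] at this
  linarith

theorem small_quarter {x : ℝ} (hx : 0 ≤ x) :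
    (Real.exp (x / 4) - 1) * x ≤ Real.exp x - 1 := by
  have h1 : x / 4 + 1 ≤ Real.exp (x / 4) := Real.add_one_le_exp _
  have h2 : Real.exp x = Real.exp (x / 4) ^ 4 := by
    rw [← Real.exp_nat_mul]; congr 1; push_cast; ring
  set y := Real.exp (x / 4)
  rw [h2]
  have hy : 1 ≤ y := by linarith
  have h3 : y ^ 4 - 1 = (y - 1) * (1 + y + y ^ 2 + y ^ 3) := by ring
  rw [h3]
  apply mul_le_mul_of_nonneg_left _ (by linarith)
  nlinarith [sq_nonneg (y - 1), mul_nonneg (sub_nonneg.2 hy) (sub_nonneg.2 hy),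
    mul_nonneg (mul_nonneg (sub_nonneg.2 hy) (sub_nonneg.2 hy)) (sub_nonneg.2 hy), h1]

/-- choice of the index -/
theorem small_exists_j (ε : ℝ) (hε : 0 < ε) : ∃ j0 : ℕ, ∀ j : ℕ, j0 ≤ j →
    1 / 4 * lam ^ ((1 - (j : ℝ)) / 4) * (2 + 2 * j + Real.log (1 / ε)) ≤
      ε * (1 / 50) * lam ^ (-(j : ℝ) / 8) := by
  have hlam : (0 : ℝ) < lam := by unfold lam; norm_num
  have hlam1 : (1 : ℝ) < lam := by unfold lam; norm_num
  set r : ℝ := lam ^ (-(1 : ℝ) / 8) with hr
  have hr0 : 0 < r := Real.rpow_pos_of_pos hlam _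
  have hr1 : r < 1 := Real.rpow_lt_one_of_one_lt_of_neg hlam1 (by norm_num)
  have ht1 : Tendsto (fun j : ℕ => (j : ℝ) * r ^ j) atTop (𝓝 0) :=
    tendsto_self_mul_const_pow_of_lt_one hr0.le hr1
  have ht0 : Tendsto (fun j : ℕ => r ^ j) atTop (𝓝 0) :=
    tendsto_pow_atTop_nhds_zero_of_lt_one hr0.le hr1
  have ht : Tendsto (fun j : ℕ => 1 / 4 * lam ^ (1 / 4 : ℝ) *
      ((2 + Real.log (1 / ε)) * r ^ j + 2 * ((j : ℝ) * r ^ j))) atTop
      (𝓝 (1 / 4 * lam ^ (1 / 4 : ℝ) * ((2 + Real.log (1 / ε)) * 0 + 2 * 0))) :=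
    ((ht0.const_mul _).add (ht1.const_mul _)).const_mul _
  rw [mul_zero, mul_zero, add_zero, mul_zero] at ht
  have hev := ht.eventually (ge_mem_nhds (show (0 : ℝ) < ε * (1 / 50) by positivity))
  obtain ⟨j0, hj0⟩ := eventually_atTop.1 hev
  refine ⟨j0, fun j hj => ?_⟩
  have h := hj0 j hj
  have hrj : r ^ j = lam ^ (-(j : ℝ) / 8) := by
    rw [hr, ← Real.rpow_natCast, ← Real.rpow_mul hlam.le]; congr 1; ring
  have hsplit : lam ^ ((1 - (j : ℝ)) / 4) = lam ^ (1 / 4 : ℝ) * (r ^ j * r ^ j) := by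
    rw [hrj, ← Real.rpow_add hlam, ← Real.rpow_add hlam]; congr 1; ring
  rw [hsplit, ← hrj]
  have hrjpos : 0 < r ^ j := pow_pos hr0 j
  calc 1 / 4 * (lam ^ (1 / 4 : ℝ) * (r ^ j * r ^ j)) * (2 + 2 * j + Real.log (1 / ε))
      = (1 / 4 * lam ^ (1 / 4 : ℝ) *
        ((2 + Real.log (1 / ε)) * r ^ j + 2 * ((j : ℝ) * r ^ j))) * r ^ j := by ring
    _ ≤ ε * (1 / 50) * r ^ j := mul_le_mul_of_nonneg_right h hrjpos.le

/-- choice of `Ls` -/
theorem small_exists_L (s C c : ℝ) (hc : 0 < c) : ∃ x0 : ℝ, ∀ x : ℝ, x0 ≤ x →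
    (2 + s) * Real.exp (3 / 5 * x) * (C + x) ≤ c * (Real.exp x - 1) := by
  have h1 : Tendsto (fun x : ℝ => x ^ 1 * Real.exp (-(2 / 5 * x))) atTop (𝓝 0) := by
    have := (Real.tendsto_pow_mul_exp_neg_atTop_nhds_zero 1)
    have h2 : Tendsto (fun x : ℝ => 2 / 5 * x) atTop atTop :=
      tendsto_id.const_mul_atTop (by norm_num)
    have h3 := (this.comp h2).const_mul (5 / 2)
    rw [mul_zero] at h3
    refine h3.congr fun x => ?_
    simp only [Function.comp]
    ring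
  have h0 : Tendsto (fun x : ℝ => Real.exp (-(2 / 5 * x))) atTop (𝓝 0) := by
    have h2 : Tendsto (fun x : ℝ => 2 / 5 * x) atTop atTop :=
      tendsto_id.const_mul_atTop (by norm_num)
    exact (Real.tendsto_exp_neg_atTop_nhds_zero.comp h2)
  have ht : Tendsto (fun x : ℝ => (2 + s) * (C * Real.exp (-(2 / 5 * x)) +
      x ^ 1 * Real.exp (-(2 / 5 * x)))) atTop (𝓝 ((2 + s) * (C * 0 + 0))) :=
    ((h0.const_mul _).add h1).const_mul _
  rw [mul_zero, add_zero, mul_zero] at ht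
  have hev := ht.eventually (ge_mem_nhds (show (0 : ℝ) < c / 2 by positivity))
  obtain ⟨x1, hx1⟩ := eventually_atTop.1 hev
  refine ⟨max x1 1, fun x hx => ?_⟩
  have hxx1 : x1 ≤ x := (le_max_left _ _).trans hx
  have hx1' : 1 ≤ x := (le_max_right _ _).trans hx
  have h := hx1 x hxx1
  have he : Real.exp (3 / 5 * x) = Real.exp x * Real.exp (-(2 / 5 * x)) := by
    rw [← Real.exp_add]; congr 1; ring
  have hex : 2 ≤ Real.exp x := by
    have := Real.add_one_le_exp x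
    linarith
  calc (2 + s) * Real.exp (3 / 5 * x) * (C + x)
      = Real.exp x * ((2 + s) * (C * Real.exp (-(2 / 5 * x)) + x ^ 1 * Real.exp (-(2 / 5 * x)))) := by
        rw [he]; ring
    _ ≤ Real.exp x * (c / 2) := mul_le_mul_of_nonneg_left h (Real.exp_pos x).le
    _ ≤ c * (Real.exp x - 1) := by nlinarith

theorem small_Aw_inv {ε : ℝ} (hε : 0 < ε) (j : ℕ) :
    1 = Aw ε j * Real.exp (Real.log (1 / ε) + j * Real.log 2) := by
  unfold Aw
  rw [Real.exp_add, Real.exp_log (by positivity), mul_comm (j : ℝ), Real.exp_mul,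
    Real.exp_log (by norm_num), Real.rpow_natCast]
  rw [one_div, one_div, inv_pow]
  field_simp

theorem small : ∀ (b : ℕ) (ε s : ℝ), 2 ≤ b → 0 < ε → ε ≤ 1 → 1 ≤ s → ∃ w3 Ls : ℝ, 0 < w3 ∧ w3 ≤ w2 b ∧
    1 ≤ Ls ∧ ∀ (j : ℕ) (ω E : ℝ), 0 ≤ E → lam ^ (-(j : ℝ) - 1) < ω → ω ≤ lam ^ (-(j : ℝ)) →
    (hfun b w3 Ls ω E + s * bet b w3 Ls ω E) *
      (1 + j + Real.posLog ((hfun b w3 Ls ω E + s * bet b w3 Ls ω E) / Aw ε j)) ≤
        ε * (1 / 50) * lam ^ (-(j : ℝ) / 8) * V b E ∧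
    (hfun b w3 Ls ω E + s * bet b w3 Ls ω E) ^ (3 / 2 : ℝ) ≤ (2 + s) ^ (3 / 2 : ℝ) * (1 + V b E) := by
  intro b ε s hb hε hε1 hs
  have hlam : (0 : ℝ) < lam := by unfold lam; norm_num
  have hlam1 : (1 : ℝ) < lam := by unfold lam; norm_num
  have hloglam : 0 < Real.log lam := Real.log_pos hlam1
  obtain ⟨j0, hj0⟩ := small_exists_j ε hε
  set w3 : ℝ := min (w2 b) (lam ^ (-(j0 : ℝ))) with hw3
  have hw3pos : 0 < w3 := lt_min (small_w2_pos b) (Real.rpow_pos_of_pos hlam _)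
  -- bound for the indices in the reduced range
  set J : ℝ := Real.log (1 / w3) / Real.log lam with hJ
  obtain ⟨x0, hx0⟩ := small_exists_L s
    (1 + |J| + (Real.log (2 + s) + Real.log (1 / ε) + |J| * Real.log 2))
    (ε * (1 / 50) * w3 ^ (1 / 8 : ℝ)) (by positivity)
  refine ⟨w3, max 1 x0, hw3pos, min_le_left _ _, le_max_left _ _, ?_⟩
  intro j ω E hE hω1 hω2
  have hω : 0 < ω := lt_trans (Real.rpow_pos_of_pos hlam _) hω1
  have hL1 : (1 : ℝ) ≤ max 1 x0 := le_max_left _ _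
  have hs0 : 0 ≤ s := by linarith
  refine ⟨?_, small_second hs0 hE (by linarith) hω⟩
  obtain ⟨hX0, hX1⟩ := small_bounds (b := b) (w3 := w3) (Ls := max 1 x0) hs0 hE (by linarith) hω
  have hEb : 0 ≤ E ^ b := pow_nonneg hE b
  have hV0 : 0 ≤ V b E := by
    unfold V; have := Real.one_le_exp hEb; linarith
  have hAw : 0 < Aw ε j := by unfold Aw; positivity
  have hlogε : 0 ≤ Real.log (1 / ε) := Real.log_nonneg (by rw [le_div_iff₀ hε]; linarith)
  have hlog2 : 0 < Real.log 2 := Real.log_pos (by norm_num)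
  have hlog21 : Real.log 2 ≤ 1 := by
    have := Real.log_two_lt_d9; linarith
  by_cases h3 : w3 ≤ ω
  · by_cases hEL : E ≤ max 1 x0
    · rw [small_zero hb h3 hEL, zero_mul]
      positivity
    · push Not at hEL
      set X := hfun b w3 (max 1 x0) ω E + s * bet b w3 (max 1 x0) ω E with hXdef
      -- j ≤ J
      have hjJ : (j : ℝ) ≤ |J| := by
        have h5 : w3 ≤ lam ^ (-(j : ℝ)) := h3.trans hω2
        have h6 : Real.log w3 ≤ -(j : ℝ) * Real.log lam := by
          have := Real.log_le_log hw3pos h5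
          rwa [Real.log_rpow hlam] at this
        have h7 : (j : ℝ) ≤ J := by
          rw [hJ, le_div_iff₀ hloglam, one_div, Real.log_inv]
          linarith
        exact h7.trans (le_abs_self J)
      have hE1 : 1 ≤ E := by linarith
      have hxE : x0 ≤ E ^ b := by
        have h8 : x0 ≤ E := by have := le_max_right 1 x0; linarith
        have h9 : E ≤ E ^ b := le_self_pow₀ hE1 (by omega)
        linarith
      have hlogs : 0 ≤ Real.log (2 + s) := Real.log_nonneg (by linarith)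
      have hpl : Real.posLog (X / Aw ε j) ≤
          Real.log (2 + s) + 3 / 5 * E ^ b + (Real.log (1 / ε) + j * Real.log 2) := by
        apply small_posLog hX0 hAw (by positivity)
        rw [Real.exp_add (Real.log (2 + s) + 3 / 5 * E ^ b), Real.exp_add (Real.log (2 + s)),
          Real.exp_log (by linarith)]
        calc X ≤ (2 + s) * Real.exp (3 / 5 * E ^ b) * 1 := by rw [mul_one]; exact hX1
          _ = (2 + s) * Real.exp (3 / 5 * E ^ b) *
              (Aw ε j * Real.exp (Real.log (1 / ε) + j * Real.log 2)) := by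
              rw [← small_Aw_inv hε j]
          _ = _ := by ring
      have hpl0 : 0 ≤ Real.posLog (X / Aw ε j) := Real.posLog_nonneg
      have hfac : 1 + j + Real.posLog (X / Aw ε j) ≤
          (1 + |J| + (Real.log (2 + s) + Real.log (1 / ε) + |J| * Real.log 2)) + E ^ b := by
        have : (j : ℝ) * Real.log 2 ≤ |J| * Real.log 2 := mul_le_mul_of_nonneg_right hjJ hlog2.le
        linarith
      have hw8 : w3 ^ (1 / 8 : ℝ) ≤ lam ^ (-(j : ℝ) / 8) := by
        have h5 : w3 ≤ lam ^ (-(j : ℝ)) := h3.trans hω2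
        have h6 := Real.rpow_le_rpow hw3pos.le h5 (show (0 : ℝ) ≤ 1 / 8 by norm_num)
        rw [← Real.rpow_mul hlam.le, show -(j : ℝ) * (1 / 8) = -(j : ℝ) / 8 by ring] at h6
        exact h6
      calc X * (1 + j + Real.posLog (X / Aw ε j))
          ≤ ((2 + s) * Real.exp (3 / 5 * E ^ b)) *
            ((1 + |J| + (Real.log (2 + s) + Real.log (1 / ε) + |J| * Real.log 2)) + E ^ b) := by
            apply mul_le_mul hX1 hfac (by positivity) (by positivity)
        _ ≤ ε * (1 / 50) * w3 ^ (1 / 8 : ℝ) * (Real.exp (E ^ b) - 1) := hx0 _ hxE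
        _ ≤ ε * (1 / 50) * lam ^ (-(j : ℝ) / 8) * V b E := by
            apply mul_le_mul_of_nonneg_right _ hV0
            apply mul_le_mul_of_nonneg_left hw8 (by positivity)
  · push Not at h3
    have hw2 : ω ≤ w2 b := h3.le.trans (min_le_left _ _)
    have her : er w3 (max 1 x0) ω E = E := by unfold er; rw [if_neg (not_le.2 h3)]
    have hbet : bet b w3 (max 1 x0) ω E = 0 := by
      unfold bet; rw [if_neg]; rintro ⟨h, _, _⟩; linarith
    have hX : hfun b w3 (max 1 x0) ω E + s * bet b w3 (max 1 x0) ω E =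
        Real.exp (1 / 4 * (lam * ω) ^ (1 / 4 : ℝ) * E ^ b) - 1 := by
      rw [hbet, mul_zero, add_zero]; unfold hfun; rw [if_pos hw2, her]
    -- j0 ≤ j
    have hj : j0 ≤ j := by
      by_contra hcon
      push Not at hcon
      have h5 : lam ^ (-(j : ℝ) - 1) < lam ^ (-(j0 : ℝ)) :=
        hω1.trans (h3.trans_le (min_le_right _ _))
      have h6 : -(j : ℝ) - 1 < -(j0 : ℝ) := (Real.rpow_lt_rpow_left_iff hlam1).1 h5
      have h7 : (j : ℝ) + 1 ≤ j0 := by exact_mod_cast hcon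
      linarith
    have hkey := hj0 j hj
    set θ : ℝ := 1 / 4 * (lam * ω) ^ (1 / 4 : ℝ) with hθ
    have hlw0 : 0 ≤ lam * ω := by positivity
    have hlw1 : lam * ω ≤ 1 := by
      have h2 : lam * ω ≤ lam * w2 b := mul_le_mul_of_nonneg_left hw2 hlam.le
      exact h2.trans (small_lam_w2 b)
    have hθ0 : 0 ≤ θ := by positivity
    have hθ4 : θ ≤ 1 / 4 := by
      have : (lam * ω) ^ (1 / 4 : ℝ) ≤ 1 := Real.rpow_le_one hlw0 hlw1 (by norm_num)
      rw [hθ]; linarith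
    have hθj : θ ≤ 1 / 4 * lam ^ ((1 - (j : ℝ)) / 4) := by
      rw [hθ]
      apply mul_le_mul_of_nonneg_left _ (by norm_num)
      have h5 : lam * ω ≤ lam ^ (1 - (j : ℝ)) := by
        calc lam * ω ≤ lam * lam ^ (-(j : ℝ)) := mul_le_mul_of_nonneg_left hω2 hlam.le
          _ = lam ^ (1 - (j : ℝ)) := by
            rw [sub_eq_add_neg, Real.rpow_add hlam, Real.rpow_one]
      have h6 := Real.rpow_le_rpow hlw0 h5 (show (0 : ℝ) ≤ 1 / 4 by norm_num)
      rw [← Real.rpow_mul hlam.le, show (1 - (j : ℝ)) * (1 / 4) = (1 - (j : ℝ)) / 4 by ring] at h6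
      exact h6
    rw [hX] at hX0 ⊢
    set X := Real.exp (θ * E ^ b) - 1 with hXdef
    have hpl : Real.posLog (X / Aw ε j) ≤
        θ * E ^ b + (Real.log (1 / ε) + j * Real.log 2) := by
      apply small_posLog hX0 hAw (by positivity)
      rw [Real.exp_add]
      calc X ≤ Real.exp (θ * E ^ b) * 1 := by rw [mul_one, hXdef]; linarith
        _ = Real.exp (θ * E ^ b) *
            (Aw ε j * Real.exp (Real.log (1 / ε) + j * Real.log 2)) := by
            rw [← small_Aw_inv hε j]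
        _ = _ := by ring
    have hXV : X ≤ θ * V b E := small_convex hθ0 (by linarith)
    have hXx : X * (θ * E ^ b) ≤ θ * V b E := by
      have h5 : X ≤ Real.exp (E ^ b / 4) - 1 := by
        rw [hXdef]
        have : Real.exp (θ * E ^ b) ≤ Real.exp (E ^ b / 4) := by
          apply Real.exp_le_exp.2
          have := mul_le_mul_of_nonneg_right hθ4 hEb
          linarith
        linarith
      have h6 := small_quarter hEb
      have h7 : X * E ^ b ≤ V b E := by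
        calc X * E ^ b ≤ (Real.exp (E ^ b / 4) - 1) * E ^ b :=
              mul_le_mul_of_nonneg_right h5 hEb
          _ ≤ V b E := h6
      calc X * (θ * E ^ b) = θ * (X * E ^ b) := by ring
        _ ≤ θ * V b E := mul_le_mul_of_nonneg_left h7 hθ0
    have hj0' : (0 : ℝ) ≤ j := Nat.cast_nonneg j
    calc X * (1 + j + Real.posLog (X / Aw ε j))
        ≤ X * (1 + j + (θ * E ^ b + (Real.log (1 / ε) + j * Real.log 2))) := by
          apply mul_le_mul_of_nonneg_left _ hX0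
          linarith
      _ ≤ X * (1 + 2 * j + Real.log (1 / ε)) + X * (θ * E ^ b) := by
          have : X * (j * Real.log 2) ≤ X * j := by
            apply mul_le_mul_of_nonneg_left _ hX0
            nlinarith
          nlinarith
      _ ≤ θ * V b E * (1 + 2 * j + Real.log (1 / ε)) + θ * V b E := by
          apply add_le_add _ hXx
          apply mul_le_mul_of_nonneg_right hXV (by positivity)
      _ = θ * (2 + 2 * j + Real.log (1 / ε)) * V b E := by ring
      _ ≤ (1 / 4 * lam ^ ((1 - (j : ℝ)) / 4)) * (2 + 2 * j + Real.log (1 / ε)) * V b E := by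
          apply mul_le_mul_of_nonneg_right _ hV0
          apply mul_le_mul_of_nonneg_right hθj (by positivity)
      _ ≤ ε * (1 / 50) * lam ^ (-(j : ℝ) / 8) * V b E :=
          mul_le_mul_of_nonneg_right hkey hV0

end

end Pool.Agent.NTot
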