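import Pool.Agent.NTot.FBound
import Pool.Agent.NTot.Tiny
import Pool.Agent.NTot.Expand

/-!
# M11b: bound for T(F,h)
-/

set_option autoImplicit false

namespace Pool.Agent.NTot

open Finset Filter Topology

noncomputable section

theorem TT_bound : ∃ C : ℝ, 1 ≤ C ∧ ∀ b : ℕ, ∃ n₀ : ℕ, ∀ n, n₀ ≤ n →
    ∀ (F h A : ℕ → ℝ), (∀ r, 0 ≤ F r ∧ F r ≤ Real.exp (KK b n / 8)) →
    (∀ r, 0 ≤ h r ∧ h r ≤ Real.exp (KK b n / 8)) → (∀ j, 0 < A j ∧ A j ≤ 1) →
    (∀ j ≤ n, ∀ r ∈ W (n - j), F r ≤ A j * Real.exp (KK b n / 4)) →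
    TT b n F h ≤ Real.exp (∑ r ∈ LP n, h r / (r - 1)) *
      (C * Phi n A F + (NN n) ^ (-(1 / 4) : ℝ) * (1 + ∑ r ∈ LP n, F r / r) *
          (1 + ∑ r ∈ LP n, (h r) ^ (3 / 2 : ℝ) / r)) := by
  classical
  obtain ⟨C, hC1, hC⟩ := F_bound
  refine ⟨C, hC1, fun b => ?_⟩
  obtain ⟨n₁, h₁⟩ := hC b
  obtain ⟨n₂, h₂⟩ := expand b
  refine ⟨max n₁ n₂, fun n hn F h A hF hh hA hFA => ?_⟩
  have hn1 := h₁ n (le_trans (le_max_left _ _) hn)
  have hn2 := h₂ n (le_trans (le_max_right _ _) hn)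
  have H : ExpData b n (LP n) (fun Q => lpd n (Q - 1))
      (fun Q q => (lpd n (Q - 1)).filter (· < q)) (fun q _ => F q) F h := by
    refine ⟨subset_refl _, ?_, ?_, ?_, ?_, ?_, ?_, hF, hh⟩
    · intro Q _ q hq
      exact (mem_lpd.mp hq).1
    · intro Q _ q hq
      exact (mem_lpd.mp hq).2
    · intro Q hQ q hq r hr
      rw [mem_filter, mem_lpd] at hr
      obtain ⟨⟨h1, h2⟩, h3⟩ := hr
      obtain ⟨g1, g2⟩ := mem_lpd.mp hq
      rw [mem_lpd]
      refine ⟨h1, ?_⟩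
      have hcop : Nat.Coprime r q :=
        (Nat.coprime_primes (prime_of_mem_LP h1) (prime_of_mem_LP g1)).mpr (Nat.ne_of_lt h3)
      rw [← Nat.mul_div_cancel' g2] at h2
      exact hcop.dvd_of_dvd_mul_left h2
    · intro q _ m _ _; exact (hF q).1
    · intro q _ m _ _; exact le_refl (F q)
    · intro q _ m m' _ _ _; exact le_refl (F q)
  have key := hn2 _ _ _ _ _ _ H
  unfold TT
  refine key.trans ?_
  rw [mul_add (Real.exp (∑ r ∈ LP n, h r / ((r : ℝ) - 1)))]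
  refine add_le_add ?_ (le_of_eq (by ring))
  have hPhi : 0 ≤ Phi n A F := by
    unfold Phi
    refine sum_nonneg (fun j _ => ?_)
    refine add_nonneg (sum_nonneg (fun r _ => ?_)) (hA j).1.le
    have h1 := (hF r).1
    have h2 : 0 ≤ Real.posLog (F r / A j) := Real.posLog_nonneg
    positivity
  have step : ∀ S ∈ (LP n).powerset.filter (fun S => (dS S : ℝ) ≤ Real.exp (NN n)),
      (∏ r ∈ S, h r) / (dS S : ℝ) *
          (∑ q ∈ LP n, ∑ m ∈ Icc (MM b n) ⌊Real.exp (NN n)⌋₊,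
            (1 : ℝ) / (q * m) * F q * U b n (dS S * q * m + 1)) ≤
      (∏ r ∈ S, h r) / (Nat.totient (dS S) : ℝ) * (C * Phi n A F) := by
    intro S hS
    rw [mem_filter, mem_powerset] at hS
    obtain ⟨h1, h2⟩ := hS
    have hd : 1 ≤ dS S := dS_pos (fun r hr => prime_of_mem_LP (h1 hr))
    have h3 := hn1 (dS S) F A hd h2 (fun r => (hF r).1) hA hFA
    have hh0 : 0 ≤ ∏ r ∈ S, h r := prod_nonneg (fun r _ => (hh r).1)
    have e : ∑ q ∈ LP n, ∑ m ∈ Icc (MM b n) ⌊Real.exp (NN n)⌋₊,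
            (1 : ℝ) / (q * m) * F q * U b n (dS S * q * m + 1) =
        ∑ r ∈ LP n, F r / r * ∑ m ∈ Icc (MM b n) ⌊Real.exp (NN n)⌋₊,
        (1 : ℝ) / m * U b n (dS S * r * m + 1) := by
      refine sum_congr rfl (fun q _ => ?_)
      rw [mul_sum]
      refine sum_congr rfl (fun m _ => ?_)
      rw [one_div, mul_inv]
      ring
    rw [e]
    have hd0 : (0 : ℝ) < dS S := by exact_mod_cast hd
    refine (mul_le_mul_of_nonneg_left h3 (by positivity)).trans (le_of_eq ?_)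
    unfold dphi
    have ht : (Nat.totient (dS S) : ℝ) ≠ 0 := by
      have := Nat.totient_pos.mpr hd
      positivity
    field_simp
  refine (sum_le_sum step).trans ?_
  rw [← sum_mul]
  refine mul_le_mul_of_nonneg_right ?_ (mul_nonneg (by linarith) hPhi)
  refine le_trans ?_ (sum_h_div_totient n h (fun r => (hh r).1))
  refine sum_le_sum_of_subset_of_nonneg (filter_subset _ _) (fun S _ _ => ?_)
  exact div_nonneg (prod_nonneg (fun r _ => (hh r).1)) (Nat.cast_nonneg _)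

end

end Pool.Agent.NTot
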