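import Pool.Agent.NTot.TIb
import Pool.Agent.NTot.TTb
import Pool.Agent.NTot.Pointwise
import Pool.Agent.NTot.Small
import Pool.Agent.NTot.Decomp

/-!
# M14: propagation (section 5 of the notes)

Assembly of Theorem P from `TI_bound`, `TT_bound`, `pointwise`, `small`, `decomposition`:
choice of the constants `A₀ → b → s → ε → (w₃, L_*) → n₀` and strong induction over the windows.
-/

set_option autoImplicit false

namespace Pool.Agent.NTot

open Finset Filter Topology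

noncomputable section

namespace P14

theorem lam_pos : (0:ℝ) < lam := by unfold lam; norm_num
theorem one_lt_lam : (1:ℝ) < lam := by unfold lam; norm_num

theorem NN_pos (n : ℕ) : 0 < NN n := by
  unfold NN lam; positivity

theorem one_le_NN (n : ℕ) : 1 ≤ NN n := by
  unfold NN lam; exact one_le_pow₀ (by norm_num)

theorem NN_mono {m n : ℕ} (h : m ≤ n) : NN m ≤ NN n := by
  unfold NN lam; exact pow_le_pow_right₀ (by norm_num) h

theorem NN_succ (m : ℕ) : NN (m + 1) = lam * NN m := by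
  unfold NN; rw [pow_succ]; ring

theorem mem_W {n p : ℕ} : p ∈ W n ↔ p.Prime ∧ NN n < lam * Real.log p ∧ Real.log p ≤ NN n := by
  unfold W
  rw [mem_filter, mem_range]
  constructor
  · rintro ⟨_, h⟩; exact h
  · rintro ⟨hp, h1, h2⟩
    refine ⟨?_, hp, h1, h2⟩
    have hp0 : (0:ℝ) < p := by exact_mod_cast hp.pos
    have : (p:ℝ) ≤ Real.exp (NN n) := by
      rw [← Real.log_le_iff_le_exp hp0]; exact h2
    exact Nat.lt_succ_of_le (Nat.le_floor this)

theorem mem_LP {n r : ℕ} : r ∈ LP n ↔ r.Prime ∧ Real.sqrt (NN n) < Real.log r ∧ Real.log r ≤ NN n := by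
  unfold LP
  rw [mem_filter, mem_range]
  constructor
  · rintro ⟨h0, hp, h⟩
    refine ⟨hp, h, ?_⟩
    have hp0 : (0:ℝ) < r := by exact_mod_cast hp.pos
    rw [Real.log_le_iff_le_exp hp0]
    exact (Nat.le_floor_iff (Real.exp_pos _).le).mp (Nat.lt_succ_iff.mp h0)
  · rintro ⟨hp, h1, h2⟩
    refine ⟨?_, hp, h1⟩
    have hp0 : (0:ℝ) < r := by exact_mod_cast hp.pos
    have : (r:ℝ) ≤ Real.exp (NN n) := by
      rw [← Real.log_le_iff_le_exp hp0]; exact h2
    exact Nat.lt_succ_of_le (Nat.le_floor this)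

/-- every large prime lies in a window `W (n-j)`, `j ≤ n`, `n < 2 (n-j)` -/
theorem LP_cover {n r : ℕ} (h : r ∈ LP n) : ∃ j, j ≤ n ∧ r ∈ W (n - j) ∧ n < 2 * (n - j) := by
  obtain ⟨hp, h1, h2⟩ := mem_LP.mp h
  classical
  have hex : ∃ m, Real.log r ≤ NN m := ⟨n, h2⟩
  have hm := Nat.find_spec hex
  have hmn : Nat.find hex ≤ n := Nat.find_min' hex h2
  have hm0 : Nat.find hex ≠ 0 := by
    intro h0
    rw [h0] at hm
    have : NN 0 = 1 := by unfold NN; simp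
    rw [this] at hm
    have h3 : 1 ≤ Real.sqrt (NN n) := by
      rw [Real.one_le_sqrt]; exact one_le_NN n
    linarith
  obtain ⟨k, hk⟩ := Nat.exists_eq_succ_of_ne_zero hm0
  have hk2 : ¬ Real.log r ≤ NN k := Nat.find_min hex (by omega)
  push Not at hk2
  have e1 : n - (n - Nat.find hex) = Nat.find hex := by omega
  refine ⟨n - Nat.find hex, by omega, ?_, ?_⟩
  · rw [e1, mem_W]
    refine ⟨hp, ?_, hm⟩
    rw [hk, Nat.succ_eq_add_one, NN_succ]
    exact mul_lt_mul_of_pos_left hk2 lam_pos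
  · rw [e1]
    have h3 : Real.sqrt (NN n) < NN (Nat.find hex) := lt_of_lt_of_le h1 hm
    have h4 : NN n < NN (2 * Nat.find hex) := by
      have : NN (2 * Nat.find hex) = (NN (Nat.find hex)) ^ 2 := by
        unfold NN; rw [← pow_mul, mul_comm]
      rw [this]
      exact (Real.sqrt_lt' (NN_pos _)).mp h3
    by_contra hcon
    push Not at hcon
    exact absurd (NN_mono hcon) (not_le.mpr h4)

theorem W_disj {m m' : ℕ} (h : m < m') : Disjoint (W m) (W m') := by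
  rw [Finset.disjoint_left]
  intro p hp hp'
  obtain ⟨_, _, h2⟩ := mem_W.mp hp
  obtain ⟨_, h3, _⟩ := mem_W.mp hp'
  have h4 : lam * NN m ≤ NN m' := by rw [← NN_succ]; exact NN_mono h
  have h5 : lam * Real.log p ≤ lam * NN m := mul_le_mul_of_nonneg_left h2 lam_pos.le
  linarith

/-- large primes are split into windows -/
theorem sum_LP_le (n : ℕ) (F : ℕ → ℝ) (hF : ∀ r, 0 ≤ F r) :
    ∑ r ∈ LP n, F r ≤ ∑ j ∈ range (n + 1), ∑ r ∈ (W (n - j)).filter (· ∈ LP n), F r := by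
  classical
  have h1 : LP n ⊆ (range (n + 1)).biUnion (fun j => (W (n - j)).filter (· ∈ LP n)) := by
    intro r hr
    obtain ⟨j, hj, hw, _⟩ := LP_cover hr
    rw [mem_biUnion]
    exact ⟨j, mem_range.mpr (by omega), mem_filter.mpr ⟨hw, hr⟩⟩
  refine (Finset.sum_le_sum_of_subset_of_nonneg h1 (fun r _ _ => hF r)).trans ?_
  rw [Finset.sum_biUnion]
  intro i hi j hj hij
  have hi' : i < n + 1 := mem_range.mp hi
  have hj' : j < n + 1 := mem_range.mp hj
  apply Finset.disjoint_of_subset_left (filter_subset _ _)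
  apply Finset.disjoint_of_subset_right (filter_subset _ _)
  rcases lt_or_gt_of_ne (show n - i ≠ n - j by omega) with h | h
  · exact W_disj h
  · exact (W_disj h).symm

/-- polynomials are eventually below powers of `NN` -/
theorem poly_le_NN (C : ℝ) (k : ℕ) (δ : ℝ) (hδ : 0 < δ) :
    ∃ n₀ : ℕ, ∀ n : ℕ, n₀ ≤ n → C * (n:ℝ) ^ k ≤ (NN n) ^ δ := by
  have hr : (1:ℝ) < lam ^ δ := by
    unfold lam; exact Real.one_lt_rpow (by norm_num) hδ
  have h := tendsto_pow_const_div_const_pow_of_one_lt k hr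
  have h2 : Tendsto (fun n : ℕ => C * ((n:ℝ) ^ k / (lam ^ δ) ^ n)) atTop (𝓝 (C * 0)) :=
    h.const_mul C
  rw [mul_zero] at h2
  have h3 := h2.eventually (gt_mem_nhds (zero_lt_one))
  obtain ⟨n₀, hn₀⟩ := eventually_atTop.mp h3
  refine ⟨n₀, fun n hn => ?_⟩
  have h4 := hn₀ n hn
  have h5 : (0:ℝ) < (lam ^ δ) ^ n := by positivity
  have h6 : (NN n) ^ δ = (lam ^ δ) ^ n := by
    unfold NN
    rw [← Real.rpow_natCast, ← Real.rpow_mul lam_pos.le, mul_comm, Real.rpow_mul lam_pos.le,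
      Real.rpow_natCast]
  rw [h6]
  rw [← mul_div_assoc, div_lt_one h5] at h4
  exact h4.le

/-- geometric sum with ratio `lam^{-1/8}` -/
theorem geom_sum_le (n : ℕ) : ∑ j ∈ range n, lam ^ (-(j : ℝ) / 8) ≤ 70 := by
  set x : ℝ := lam ^ (-(1:ℝ) / 8) with hx
  have hx0 : 0 ≤ x := by rw [hx]; exact Real.rpow_nonneg lam_pos.le _
  have hx8 : x ^ 8 = 8 / 9 := by
    rw [hx, ← Real.rpow_natCast, ← Real.rpow_mul lam_pos.le]
    norm_num
    rw [Real.rpow_neg_one]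
    unfold lam; norm_num
  have hx1 : x ≤ 69 / 70 := by
    by_contra hcon
    push Not at hcon
    have : (69 / 70 : ℝ) ^ 8 < x ^ 8 := pow_lt_pow_left₀ hcon (by norm_num) (by norm_num)
    rw [hx8] at this
    norm_num at this
  have e : ∀ j : ℕ, lam ^ (-(j : ℝ) / 8) = x ^ j := by
    intro j
    rw [hx, ← Real.rpow_natCast, ← Real.rpow_mul lam_pos.le]
    congr 1; ring
  rw [Finset.sum_congr rfl (fun j _ => e j)]
  have h1 : (∑ j ∈ range n, x ^ j) * (1 - x) = 1 - x ^ n := by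
    have := geom_sum_mul x n
    linarith [this]
  have h2 : 0 ≤ x ^ n := by positivity
  have h3 : 0 ≤ ∑ j ∈ range n, x ^ j := Finset.sum_nonneg (fun _ _ => by positivity)
  nlinarith

theorem half_sum_le (n : ℕ) (ε : ℝ) (hε : 0 ≤ ε) : ∑ j ∈ range n, Aw ε j ≤ 2 * ε := by
  have h1 : (∑ j ∈ range n, (1/2:ℝ) ^ j) * (1/2 - 1) = (1/2:ℝ) ^ n - 1 := geom_sum_mul (1/2:ℝ) n
  have h2 : (0:ℝ) ≤ (1/2) ^ n := by positivity
  have h3 : ∑ j ∈ range n, Aw ε j = ε * ∑ j ∈ range n, (1/2:ℝ) ^ j := by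
    rw [Finset.mul_sum]; rfl
  rw [h3]
  nlinarith

theorem V_nonneg {b : ℕ} {x : ℝ} (h : 0 ≤ x) : 0 ≤ V b x := by
  unfold V
  have : 1 ≤ Real.exp (x ^ b) := Real.one_le_exp (by positivity)
  linarith

/-- hypotheses on a weight `g` -/
structure Wt (b n : ℕ) (ε K : ℝ) (E g : ℕ → ℝ) : Prop where
  nonneg : ∀ r, 0 ≤ g r
  supp : ∀ r, r ∉ LP n → g r = 0
  top : ∀ r ∈ W n, g r = 0
  sm : ∀ j, 1 ≤ j → j ≤ n → ∀ r ∈ W (n - j), r ∈ LP n →
    g r * (1 + j + Real.posLog (g r / Aw ε j)) ≤ ε * (1 / 50) * lam ^ (-(j : ℝ) / 8) * V b (E r)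
  pw : ∀ r ∈ LP n, (g r) ^ (3 / 2 : ℝ) ≤ K * (1 + V b (E r))

/-- hypotheses on the windows -/
structure Win (b n : ℕ) (E : ℕ → ℝ) : Prop where
  nonneg : ∀ r, 0 ≤ E r
  mass : ∀ j, 1 ≤ j → j ≤ n → ∑ r ∈ (W (n - j)).filter (· ∈ LP n), V b (E r) / r ≤ 1
  rho : ∀ j, 1 ≤ j → j ≤ n → ∑ r ∈ (W (n - j)).filter (· ∈ LP n), (1:ℝ) / r ≤ 1

theorem Wt.win {b n : ℕ} {ε K : ℝ} {E g : ℕ → ℝ} (hg : Wt b n ε K E g) (hw : Win b n E)
    (hε : 0 ≤ ε) : ∀ j, j ≤ n →
    ∑ r ∈ (W (n - j)).filter (· ∈ LP n), g r / r * (1 + j + Real.posLog (g r / Aw ε j)) ≤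
      ε * (1 / 50) * lam ^ (-(j : ℝ) / 8) := by
  intro j hj
  have hl : 0 ≤ lam ^ (-(j : ℝ) / 8) := Real.rpow_nonneg lam_pos.le _
  rcases Nat.eq_zero_or_pos j with h0 | h0
  · have : ∑ r ∈ (W (n - j)).filter (· ∈ LP n),
        g r / r * (1 + j + Real.posLog (g r / Aw ε j)) = 0 := by
      apply Finset.sum_eq_zero
      intro r hr
      rw [mem_filter, h0, Nat.sub_zero] at hr
      rw [hg.top r hr.1]; simp
    rw [this]; positivity
  · have h1 : ∑ r ∈ (W (n - j)).filter (· ∈ LP n),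
        g r / r * (1 + j + Real.posLog (g r / Aw ε j)) ≤
        ∑ r ∈ (W (n - j)).filter (· ∈ LP n), ε * (1 / 50) * lam ^ (-(j : ℝ) / 8) * (V b (E r) / r) := by
      apply Finset.sum_le_sum
      intro r hr
      rw [mem_filter] at hr
      have h2 := hg.sm j h0 hj r hr.1 hr.2
      have hr0 : (0:ℝ) ≤ 1 / (r:ℝ) := by positivity
      have h3 := mul_le_mul_of_nonneg_right h2 hr0
      calc g r / r * (1 + j + Real.posLog (g r / Aw ε j))
          = g r * (1 + j + Real.posLog (g r / Aw ε j)) * (1 / r) := by ring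
        _ ≤ _ := h3
        _ = _ := by ring
    refine h1.trans ?_
    rw [← Finset.mul_sum]
    have h4 := hw.mass j h0 hj
    have h5 : 0 ≤ ε * (1 / 50) * lam ^ (-(j : ℝ) / 8) := by positivity
    calc _ ≤ ε * (1 / 50) * lam ^ (-(j : ℝ) / 8) * 1 := mul_le_mul_of_nonneg_left h4 h5
      _ = _ := by ring

theorem Wt.sum_div {b n : ℕ} {ε K : ℝ} {E g : ℕ → ℝ} (hg : Wt b n ε K E g) (hw : Win b n E)
    (hε : 0 ≤ ε) : ∑ r ∈ LP n, g r / r ≤ 7 / 5 * ε := by
  refine (sum_LP_le n (fun r => g r / r) (fun r => div_nonneg (hg.nonneg r) (by positivity))).trans ?_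
  have h1 : ∀ j ∈ range (n + 1), ∑ r ∈ (W (n - j)).filter (· ∈ LP n), g r / r ≤
      ε * (1 / 50) * lam ^ (-(j : ℝ) / 8) := by
    intro j hj
    rw [mem_range] at hj
    refine le_trans ?_ (hg.win hw hε j (by omega))
    apply Finset.sum_le_sum
    intro r _
    have h2 : 0 ≤ g r / r := div_nonneg (hg.nonneg r) (by positivity)
    have h3 : (1:ℝ) ≤ 1 + j + Real.posLog (g r / Aw ε j) := by
      have := Real.posLog_nonneg (x := g r / Aw ε j)
      have hj0 : (0:ℝ) ≤ j := by positivity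
      linarith
    calc g r / r = g r / r * 1 := by ring
      _ ≤ _ := mul_le_mul_of_nonneg_left h3 h2
  refine (Finset.sum_le_sum h1).trans ?_
  rw [← Finset.mul_sum]
  have h2 := geom_sum_le (n + 1)
  have h3 := mul_le_mul_of_nonneg_left h2 (by positivity : 0 ≤ ε * (1 / 50))
  linarith

theorem Wt.sum_div' {b n : ℕ} {ε K : ℝ} {E g : ℕ → ℝ} (hg : Wt b n ε K E g) (hw : Win b n E)
    (hε : 0 ≤ ε) : ∑ r ∈ LP n, g r / (r - 1) ≤ 3 * ε := by
  have h1 : ∑ r ∈ LP n, g r / ((r:ℝ) - 1) ≤ ∑ r ∈ LP n, 2 * (g r / r) := by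
    apply Finset.sum_le_sum
    intro r hr
    have hp := (mem_LP.mp hr).1
    have h2 : (2:ℝ) ≤ r := by exact_mod_cast hp.two_le
    have h3 : 0 ≤ g r := hg.nonneg r
    rw [← mul_div_assoc, div_le_div_iff₀ (by linarith) (by linarith)]
    nlinarith
  refine h1.trans ?_
  rw [← Finset.mul_sum]
  have := hg.sum_div hw hε
  linarith

theorem Wt.Phi_le {b n : ℕ} {ε K : ℝ} {E g : ℕ → ℝ} (hg : Wt b n ε K E g) (hw : Win b n E)
    (hε : 0 ≤ ε) : Phi n (Aw ε) g ≤ 4 * ε := by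
  unfold Phi
  rw [Finset.sum_add_distrib]
  have h1 : ∀ j ∈ range (n + 1), ∑ r ∈ W (n - j), g r / r * (1 + j + Real.posLog (g r / Aw ε j)) ≤
      ε * (1 / 50) * lam ^ (-(j : ℝ) / 8) := by
    intro j hj
    rw [mem_range] at hj
    refine le_trans (le_of_eq ?_) (hg.win hw hε j (by omega))
    rw [Finset.sum_filter]
    apply Finset.sum_congr rfl
    intro r _
    split_ifs with h
    · rfl
    · rw [hg.supp r h]; simp
  have h2 := Finset.sum_le_sum h1
  rw [← Finset.mul_sum] at h2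
  have h3 := geom_sum_le (n + 1)
  have h4 := mul_le_mul_of_nonneg_left h3 (by positivity : 0 ≤ ε * (1 / 50))
  have h5 := half_sum_le (n + 1) ε hε
  linarith

theorem Wt.pow_sum {b n : ℕ} {ε K : ℝ} {E g : ℕ → ℝ} (hg : Wt b n ε K E g) (hw : Win b n E)
    (hK : 0 ≤ K) : ∑ r ∈ LP n, (g r) ^ (3 / 2 : ℝ) / r ≤ 2 * K * (n + 1) := by
  refine (sum_LP_le n (fun r => (g r) ^ (3 / 2 : ℝ) / r)
    (fun r => div_nonneg (Real.rpow_nonneg (hg.nonneg r) _) (by positivity))).trans ?_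
  have h1 : ∀ j ∈ range (n + 1), ∑ r ∈ (W (n - j)).filter (· ∈ LP n), (g r) ^ (3 / 2 : ℝ) / r ≤ 2 * K := by
    intro j hj
    rw [mem_range] at hj
    rcases Nat.eq_zero_or_pos j with h0 | h0
    · have : ∑ r ∈ (W (n - j)).filter (· ∈ LP n), (g r) ^ (3 / 2 : ℝ) / r = 0 := by
        apply Finset.sum_eq_zero
        intro r hr
        rw [mem_filter, h0, Nat.sub_zero] at hr
        rw [hg.top r hr.1, Real.zero_rpow (by norm_num)]; simp
      rw [this]; positivity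
    · have h2 : ∑ r ∈ (W (n - j)).filter (· ∈ LP n), (g r) ^ (3 / 2 : ℝ) / r ≤
          ∑ r ∈ (W (n - j)).filter (· ∈ LP n), (K * (1 / r) + K * (V b (E r) / r)) := by
        apply Finset.sum_le_sum
        intro r hr
        rw [mem_filter] at hr
        have h3 := hg.pw r hr.2
        have hr0 : (0:ℝ) ≤ 1 / (r:ℝ) := by positivity
        have h4 := mul_le_mul_of_nonneg_right h3 hr0
        calc (g r) ^ (3 / 2 : ℝ) / r = (g r) ^ (3 / 2 : ℝ) * (1 / r) := by ring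
          _ ≤ _ := h4
          _ = _ := by ring
      refine h2.trans ?_
      rw [Finset.sum_add_distrib, ← Finset.mul_sum, ← Finset.mul_sum]
      have h5 := mul_le_mul_of_nonneg_left (hw.mass j h0 (by omega)) hK
      have h6 := mul_le_mul_of_nonneg_left (hw.rho j h0 (by omega)) hK
      linarith
  refine (Finset.sum_le_sum h1).trans ?_
  rw [Finset.sum_const, card_range]
  rw [nsmul_eq_mul]; push_cast; linarith

theorem two_mul_of_mem {n m r : ℕ} (h : r ∈ LP n) (hw : r ∈ W m) : n < 2 * m := by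
  obtain ⟨_, h1, _⟩ := mem_LP.mp h
  obtain ⟨_, _, h2⟩ := mem_W.mp hw
  have h3 : Real.sqrt (NN n) < NN m := lt_of_lt_of_le h1 h2
  have h4 : NN n < NN (2 * m) := by
    have : NN (2 * m) = (NN m) ^ 2 := by
      unfold NN; rw [← pow_mul, mul_comm]
    rw [this]
    exact (Real.sqrt_lt' (NN_pos _)).mp h3
  by_contra hcon
  push Not at hcon
  exact absurd (NN_mono hcon) (not_le.mpr h4)

theorem Win_of {b n : ℕ} {E : ℕ → ℝ} (hE : ∀ r, 0 ≤ E r)
    (hH : ∀ m, n < 2 * m → m < n → HH b E m ≤ 1)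
    (hr : ∀ m, n < 2 * m → ∑ p ∈ W m, (1:ℝ) / p ≤ 1) : Win b n E := by
  refine ⟨hE, ?_, ?_⟩
  · intro j hj hjn
    by_cases hne : ((W (n - j)).filter (· ∈ LP n)).Nonempty
    · obtain ⟨r, hr'⟩ := hne
      rw [mem_filter] at hr'
      have h1 := two_mul_of_mem hr'.2 hr'.1
      refine le_trans ?_ (hH (n - j) h1 (by omega))
      unfold HH
      apply Finset.sum_le_sum_of_subset_of_nonneg (filter_subset _ _)
      intro i _ _
      exact div_nonneg (V_nonneg (hE i)) (by positivity)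
    · rw [Finset.not_nonempty_iff_eq_empty] at hne
      rw [hne]; simp
  · intro j hj hjn
    by_cases hne : ((W (n - j)).filter (· ∈ LP n)).Nonempty
    · obtain ⟨r, hr'⟩ := hne
      rw [mem_filter] at hr'
      have h1 := two_mul_of_mem hr'.2 hr'.1
      refine le_trans ?_ (hr (n - j) h1)
      apply Finset.sum_le_sum_of_subset_of_nonneg (filter_subset _ _)
      intro i _ _
      positivity
    · rw [Finset.not_nonempty_iff_eq_empty] at hne
      rw [hne]; simp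

theorem er_nonneg {w3 Ls ω E : ℝ} (hE : 0 ≤ E) : 0 ≤ er w3 Ls ω E := by
  unfold er; split_ifs
  · exact le_max_left _ _
  · exact hE

theorem er_le {w3 Ls ω E : ℝ} (hE : 0 ≤ E) (hL : 0 ≤ Ls) : er w3 Ls ω E ≤ E := by
  unfold er; split_ifs
  · exact max_le hE (by linarith)
  · exact le_rfl

theorem bet_nonneg (b : ℕ) (w3 Ls ω E : ℝ) : 0 ≤ bet b w3 Ls ω E := by
  unfold bet; split_ifs
  · exact (Real.exp_pos _).le
  · exact le_rfl

theorem half_rpow_le : (1 / 2 : ℝ) ^ (3 / 4 : ℝ) ≤ 1 :=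
  Real.rpow_le_one (by norm_num) (by norm_num) (by norm_num)

theorem w2_pos (b : ℕ) : 0 < w2 b := by unfold w2 lam; positivity

theorem w2_le (b : ℕ) : w2 b ≤ 1 / 4 := by
  unfold w2
  have h1 : (1 / 2 : ℝ) ^ (2 * (b + 1)) ≤ (1 / 2) ^ 2 :=
    pow_le_pow_of_le_one (by norm_num) (by norm_num) (by omega)
  rw [div_le_iff₀ lam_pos]
  unfold lam
  norm_num at h1 ⊢
  linarith

theorem bet_le {b : ℕ} {w3 Ls ω E : ℝ} (hE : 0 ≤ E) (hL : 0 ≤ Ls) :
    bet b w3 Ls ω E ≤ Real.exp (E ^ b) := by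
  unfold bet; split_ifs
  · apply Real.exp_le_exp.mpr
    have h1 : (er w3 Ls ω E) ^ b ≤ E ^ b := pow_le_pow_left₀ (er_nonneg hE) (er_le hE hL) b
    have h2 : (0:ℝ) ≤ (er w3 Ls ω E) ^ b := pow_nonneg (er_nonneg hE) b
    calc _ ≤ 1 * (er w3 Ls ω E) ^ b := mul_le_mul_of_nonneg_right half_rpow_le h2
      _ ≤ _ := by linarith
  · exact (Real.exp_pos _).le

theorem hfun_nonneg {b : ℕ} {w3 Ls ω E : ℝ} (hE : 0 ≤ E) (hω : 0 ≤ ω) : 0 ≤ hfun b w3 Ls ω E := by
  have h2 : (0:ℝ) ≤ (er w3 Ls ω E) ^ b := pow_nonneg (er_nonneg hE) b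
  unfold hfun; split_ifs
  · have h1 : 0 ≤ (lam * ω) ^ (1 / 4 : ℝ) := Real.rpow_nonneg (mul_nonneg lam_pos.le hω) _
    have : 1 ≤ Real.exp (1 / 4 * (lam * ω) ^ (1 / 4 : ℝ) * (er w3 Ls ω E) ^ b) :=
      Real.one_le_exp (by positivity)
    linarith
  · have : 1 ≤ Real.exp ((1 / 2 : ℝ) ^ (3 / 4 : ℝ) * (er w3 Ls ω E) ^ b) :=
      Real.one_le_exp (by positivity)
    have := bet_nonneg b w3 Ls ω E
    linarith
  · exact le_rfl

theorem hfun_le {b : ℕ} {w3 Ls ω E : ℝ} (hE : 0 ≤ E) (hL : 0 ≤ Ls) (hω : 0 ≤ ω) :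
    hfun b w3 Ls ω E ≤ 2 * Real.exp (E ^ b) := by
  have h1 : (er w3 Ls ω E) ^ b ≤ E ^ b := pow_le_pow_left₀ (er_nonneg hE) (er_le hE hL) b
  have h2 : (0:ℝ) ≤ (er w3 Ls ω E) ^ b := pow_nonneg (er_nonneg hE) b
  have hexp : 0 < Real.exp (E ^ b) := Real.exp_pos _
  unfold hfun; split_ifs with hc hc2
  · have h3 : lam * ω ≤ 1 := by
      unfold w2 at hc
      rw [le_div_iff₀ lam_pos] at hc
      have : (1 / 2 : ℝ) ^ (2 * (b + 1)) ≤ 1 := pow_le_one₀ (by norm_num) (by norm_num)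
      linarith
    have h4 : (lam * ω) ^ (1 / 4 : ℝ) ≤ 1 :=
      Real.rpow_le_one (mul_nonneg lam_pos.le hω) h3 (by norm_num)
    have h4' : 0 ≤ (lam * ω) ^ (1 / 4 : ℝ) := Real.rpow_nonneg (mul_nonneg lam_pos.le hω) _
    have h5 : Real.exp (1 / 4 * (lam * ω) ^ (1 / 4 : ℝ) * (er w3 Ls ω E) ^ b) ≤ Real.exp (E ^ b) := by
      apply Real.exp_le_exp.mpr
      calc _ ≤ 1 * (er w3 Ls ω E) ^ b := mul_le_mul_of_nonneg_right (by linarith) h2
        _ ≤ _ := by linarith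
    linarith
  · have h5 : Real.exp ((1 / 2 : ℝ) ^ (3 / 4 : ℝ) * (er w3 Ls ω E) ^ b) ≤ Real.exp (E ^ b) := by
      apply Real.exp_le_exp.mpr
      calc _ ≤ 1 * (er w3 Ls ω E) ^ b := mul_le_mul_of_nonneg_right half_rpow_le h2
        _ ≤ _ := by linarith
    have h6 := bet_le (b := b) (w3 := w3) (ω := ω) hE hL
    linarith
  · linarith

theorem top_zero {b : ℕ} {w3 Ls ω E : ℝ} (hω : 1 / 2 < ω) :
    hfun b w3 Ls ω E = 0 ∧ bet b w3 Ls ω E = 0 := by
  have h1 := w2_le b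
  unfold hfun bet
  refine ⟨?_, ?_⟩
  · rw [if_neg (by linarith), if_neg (by linarith)]
  · rw [if_neg]; rintro ⟨_, h, _⟩; linarith

theorem omr_pos {n r : ℕ} (h : r ∈ LP n) : 0 < omr n r := by
  obtain ⟨_, h1, _⟩ := mem_LP.mp h
  unfold omr
  have := Real.sqrt_nonneg (NN n)
  exact div_pos (by linarith) (NN_pos n)

theorem omr_window {n j r : ℕ} (hj : j ≤ n) (hr : r ∈ W (n - j)) :
    lam ^ (-(j : ℝ) - 1) < omr n r ∧ omr n r ≤ lam ^ (-(j : ℝ)) := by
  obtain ⟨_, h1, h2⟩ := mem_W.mp hr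
  have e : NN (n - j) = NN n * lam ^ (-(j:ℝ)) := by
    unfold NN
    rw [Real.rpow_neg lam_pos.le, Real.rpow_natCast, ← div_eq_mul_inv, eq_div_iff (by have := lam_pos; positivity),
      ← pow_add]
    congr 1; omega
  have e2 : lam ^ (-(j:ℝ) - 1) = lam ^ (-(j:ℝ)) / lam := by
    rw [Real.rpow_sub lam_pos, Real.rpow_one]
  unfold omr
  rw [e] at h1 h2
  refine ⟨?_, ?_⟩
  · rw [e2, lt_div_iff₀ (NN_pos n), div_mul_eq_mul_div, div_lt_iff₀ lam_pos]
    linarith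
  · rw [div_le_iff₀ (NN_pos n)]; linarith

/-- the weight `h + s β` cut off to the large primes -/
def gg (b n : ℕ) (w3 Ls s : ℝ) (E : ℕ → ℝ) (r : ℕ) : ℝ :=
  if r ∈ LP n then hfun b w3 Ls (omr n r) (E r) + s * bet b w3 Ls (omr n r) (E r) else 0

theorem gg_Wt {b n : ℕ} {ε s w3 Ls : ℝ} {E : ℕ → ℝ} (hE : ∀ r, 0 ≤ E r) (hs : 0 ≤ s)
    (hsm : ∀ (j : ℕ) (ω E : ℝ), 0 ≤ E → lam ^ (-(j : ℝ) - 1) < ω → ω ≤ lam ^ (-(j : ℝ)) →
    (hfun b w3 Ls ω E + s * bet b w3 Ls ω E) *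
      (1 + j + Real.posLog ((hfun b w3 Ls ω E + s * bet b w3 Ls ω E) / Aw ε j)) ≤
        ε * (1 / 50) * lam ^ (-(j : ℝ) / 8) * V b E ∧
    (hfun b w3 Ls ω E + s * bet b w3 Ls ω E) ^ (3 / 2 : ℝ) ≤ (2 + s) ^ (3 / 2 : ℝ) * (1 + V b E)) :
    Wt b n ε ((2 + s) ^ (3 / 2 : ℝ)) E (gg b n w3 Ls s E) := by
  refine ⟨?_, ?_, ?_, ?_, ?_⟩
  · intro r
    unfold gg
    split_ifs with h
    · have h1 := hfun_nonneg (b := b) (w3 := w3) (Ls := Ls) (hE r) (omr_pos h).le
      have h2 := bet_nonneg b w3 Ls (omr n r) (E r)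
      have := mul_nonneg hs h2
      linarith
    · exact le_rfl
  · intro r hr; unfold gg; rw [if_neg hr]
  · intro r hr
    unfold gg
    have h1 := (omr_window (j := 0) (Nat.zero_le n) (by simpa using hr)).1
    have h2 : (1:ℝ) / 2 < omr n r := by
      refine lt_trans ?_ h1
      rw [show (-((0:ℕ):ℝ) - 1) = -1 by norm_num, Real.rpow_neg_one]
      unfold lam; norm_num
    obtain ⟨h3, h4⟩ := top_zero (b := b) (w3 := w3) (Ls := Ls) (E := E r) h2
    rw [h3, h4]; simp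
  · intro j _ hjn r hr hL
    unfold gg
    rw [if_pos hL]
    obtain ⟨h1, h2⟩ := omr_window hjn hr
    exact (hsm j (omr n r) (E r) (hE r) h1 h2).1
  · intro r hr
    unfold gg
    rw [if_pos hr]
    obtain ⟨j, hj, hw, _⟩ := LP_cover hr
    obtain ⟨h1, h2⟩ := omr_window hj hw
    exact (hsm j (omr n r) (E r) (hE r) h1 h2).2

theorem Wt.mono {b n : ℕ} {ε K : ℝ} {E g h : ℕ → ℝ} (hg : Wt b n ε K E g) (hε : 0 < ε)
    (h0 : ∀ r, 0 ≤ h r) (hle : ∀ r, h r ≤ g r) : Wt b n ε K E h := by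
  refine ⟨h0, ?_, ?_, ?_, ?_⟩
  · intro r hr; exact le_antisymm (by rw [← hg.supp r hr]; exact hle r) (h0 r)
  · intro r hr; exact le_antisymm (by rw [← hg.top r hr]; exact hle r) (h0 r)
  · intro j hj hjn r hr hL
    refine le_trans ?_ (hg.sm j hj hjn r hr hL)
    have hA : 0 < Aw ε j := by unfold Aw; positivity
    have h1 : Real.posLog (h r / Aw ε j) ≤ Real.posLog (g r / Aw ε j) := by
      apply Real.posLog_le_posLog (div_nonneg (h0 r) hA.le)
      exact div_le_div_of_nonneg_right (hle r) hA.le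
    have h2 := Real.posLog_nonneg (x := h r / Aw ε j)
    have hj0 : (0:ℝ) ≤ j := by positivity
    apply mul_le_mul (hle r) (by linarith) (by linarith) (hg.nonneg r)
  · intro r hr
    refine le_trans ?_ (hg.pw r hr)
    exact Real.rpow_le_rpow (h0 r) (hle r) (by norm_num)

theorem lpd_sub {n m r : ℕ} (h : r ∈ lpd n m) : r ∈ LP n := by
  unfold lpd at h; exact (mem_filter.mp h).1

theorem TI_congr {b n : ℕ} {E h h' : ℕ → ℝ} (hh : ∀ r ∈ LP n, h r = h' r) :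
    TI b n E h = TI b n E h' := by
  unfold TI
  apply Finset.sum_congr rfl
  intro Q _
  congr 2
  congr 1
  apply Finset.prod_congr rfl
  intro r hr
  rw [hh r (lpd_sub hr)]

theorem TT_congr {b n : ℕ} {F F' h h' : ℕ → ℝ} (hF : ∀ r ∈ LP n, F r = F' r)
    (hh : ∀ r ∈ LP n, h r = h' r) : TT b n F h = TT b n F' h' := by
  unfold TT
  apply Finset.sum_congr rfl
  intro Q _
  congr 1
  apply Finset.sum_congr rfl
  intro q hq
  rw [hF q (lpd_sub hq)]
  congr 1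
  apply Finset.prod_congr rfl
  intro r hr
  rw [hh r (lpd_sub (mem_filter.mp hr).1)]

theorem Maj_sum (b n : ℕ) (w3 Ls s : ℝ) (E : ℕ → ℝ) :
    ∑ Q ∈ NP b n, U b n Q / Q * Maj b n w3 Ls s E Q =
      2 * (TI b n E (fun r => hfun b w3 Ls (omr n r) (E r)) +
        2 * TT b n (fun r => hfun b w3 Ls (omr n r) (E r)) (fun r => hfun b w3 Ls (omr n r) (E r)) +
        1 / s * TT b n (Qf b n E)
          (fun r => hfun b w3 Ls (omr n r) (E r) + s * bet b w3 Ls (omr n r) (E r))) := by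
  unfold Maj TI TT
  rw [Finset.mul_sum, Finset.mul_sum, ← Finset.sum_add_distrib, ← Finset.sum_add_distrib,
    Finset.mul_sum]
  apply Finset.sum_congr rfl
  intro Q _
  ring

theorem Maj_nonneg {b n : ℕ} {w3 Ls s : ℝ} {E : ℕ → ℝ} (hE : ∀ r, 0 ≤ E r) (hs : 0 < s) {Q : ℕ}
    (hQ : Q ∈ NP b n) : 0 ≤ Maj b n w3 Ls s E Q := by
  have hh : ∀ r ∈ LP n, 0 ≤ hfun b w3 Ls (omr n r) (E r) :=
    fun r hr => hfun_nonneg (hE r) (omr_pos hr).le
  have hb : ∀ r, 0 ≤ bet b w3 Ls (omr n r) (E r) := fun r => bet_nonneg _ _ _ _ _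
  have hQf : ∀ q, 0 ≤ Qf b n E q := by
    intro q; unfold Qf; split_ifs
    · exact (Real.exp_pos _).le
    · exact le_rfl
  unfold Maj
  have hA : 0 ≤ Aq b n E (gpf (Q - 1)) ((Q - 1) / gpf (Q - 1)) := by
    unfold Aq
    have hQ' : (Q:ℝ) ≤ Real.exp (NN n) := by
      unfold NP at hQ
      rw [mem_filter, mem_range] at hQ
      exact (Nat.le_floor_iff (Real.exp_pos _).le).mp (Nat.lt_succ_iff.mp hQ.1)
    set m := (Q - 1) / gpf (Q - 1) with hm
    have hmQ : m ≤ Q := (Nat.div_le_self _ _).trans (Nat.sub_le _ _)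
    have h1 : Real.log m ≤ NN n := by
      rcases Nat.eq_zero_or_pos m with h0 | h0
      · rw [h0]; simp; exact (NN_pos n).le
      · rw [Real.log_le_iff_le_exp (by exact_mod_cast h0)]
        exact le_trans (by exact_mod_cast hmQ) hQ'
    have h2 : Real.log m / NN n ≤ 1 := (div_le_one (NN_pos n)).mpr h1
    have h3 : 0 ≤ (1 - Real.log m / NN n / 2) ^ (b - 1) * (E (gpf (Q - 1))) ^ b := by
      apply mul_nonneg (pow_nonneg (by linarith) _) (pow_nonneg (hE _) _)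
    have := Real.one_le_exp h3
    linarith
  apply mul_nonneg (by norm_num)
  apply add_nonneg (add_nonneg _ _) _
  · split_ifs
    · apply mul_nonneg hA
      apply Finset.prod_nonneg
      intro r hr
      have := hh r (lpd_sub hr)
      linarith
    · exact le_rfl
  · apply mul_nonneg (by norm_num)
    apply Finset.sum_nonneg
    intro q hq
    apply mul_nonneg (hh q (lpd_sub hq))
    apply Finset.prod_nonneg
    intro r hr
    have := hh r (lpd_sub (mem_filter.mp hr).1)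
    linarith
  · apply mul_nonneg (by positivity)
    apply Finset.sum_nonneg
    intro q _
    apply mul_nonneg (hQf q)
    apply Finset.prod_nonneg
    intro r hr
    have h1 := hh r (lpd_sub (mem_filter.mp hr).1)
    have h2 := mul_nonneg hs.le (hb r)
    linarith

/-- `Qf` cut off to the large primes -/
def Qt (b n : ℕ) (E : ℕ → ℝ) (r : ℕ) : ℝ := if r ∈ LP n then Qf b n E r else 0

theorem Qt_nonneg (b n : ℕ) (E : ℕ → ℝ) (r : ℕ) : 0 ≤ Qt b n E r := by
  unfold Qt Qf; split_ifs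
  · exact (Real.exp_pos _).le
  · exact le_rfl
  · exact le_rfl

theorem theta_lt (b : ℕ) : (1 - w2 b) ^ (3 / 4 : ℝ) < 1 := by
  have h1 := w2_pos b
  have h2 := w2_le b
  exact Real.rpow_lt_one (by linarith) (by linarith) (by norm_num)

theorem theta_nonneg (b : ℕ) : 0 ≤ (1 - w2 b) ^ (3 / 4 : ℝ) := by
  have h2 := w2_le b
  exact Real.rpow_nonneg (by linarith) _

/-- the constant `C_b` -/
def Cb (b : ℕ) : ℝ := 13 + 1 / (1 - (1 - w2 b) ^ (3 / 4 : ℝ))

theorem Cb_ge (b : ℕ) : 13 ≤ Cb b := by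
  unfold Cb
  have := theta_lt b
  have : 0 < 1 / (1 - (1 - w2 b) ^ (3 / 4 : ℝ)) := by
    apply one_div_pos.mpr; linarith
  linarith

theorem Qt_term {b n : ℕ} {E : ℕ → ℝ} (hE : ∀ r, 0 ≤ E r) {j r : ℕ} (hj : j < 7) :
    Qt b n E r * (1 + j + Real.posLog (Qt b n E r / Aw 1 j)) ≤ Cb b * (1 + V b (E r)) := by
  have hCb := Cb_ge b
  have hVe : 1 + V b (E r) = Real.exp ((E r) ^ b) := by unfold V; ring
  rw [hVe]
  by_cases h : r ∈ LP n ∧ r ∈ W7 n
  · set θ := (1 - w2 b) ^ (3 / 4 : ℝ) with hθ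
    have hQ : Qt b n E r = Real.exp (θ * (E r) ^ b) := by
      unfold Qt Qf; rw [if_pos h.1, if_pos h.2]
    have hθ1 : θ < 1 := theta_lt b
    have hθ0 : 0 ≤ θ := theta_nonneg b
    set x := (E r) ^ b with hx
    have hx0 : 0 ≤ x := pow_nonneg (hE r) b
    have hj' : (j:ℝ) ≤ 6 := by exact_mod_cast (by omega : j ≤ 6)
    have hj0 : (0:ℝ) ≤ j := by positivity
    have hA : Aw 1 j = (1/2:ℝ) ^ j := by unfold Aw; ring
    have hlog : Real.log (Real.exp (θ * x) / Aw 1 j) = θ * x + j * Real.log 2 := by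
      rw [hA, Real.log_div (Real.exp_pos _).ne' (by positivity), Real.log_exp, Real.log_pow,
        Real.log_div (by norm_num) (by norm_num), Real.log_one]
      ring
    have hlog2 : Real.log 2 ≤ 1 := by
      have := Real.log_two_lt_d9; linarith
    have hlog20 : 0 ≤ Real.log 2 := Real.log_nonneg (by norm_num)
    have hpl : Real.posLog (Real.exp (θ * x) / Aw 1 j) ≤ x + 6 := by
      unfold Real.posLog
      rw [hlog]
      apply max_le (by linarith)
      have : θ * x ≤ x := by nlinarith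
      nlinarith
    rw [hQ]
    have h1 : Real.exp (θ * x) * (1 + j + Real.posLog (Real.exp (θ * x) / Aw 1 j)) ≤
        Real.exp (θ * x) * (13 + x) :=
      mul_le_mul_of_nonneg_left (by linarith) (Real.exp_pos _).le
    refine h1.trans ?_
    have h2 : 13 + x ≤ Cb b * Real.exp ((1 - θ) * x) := by
      have h3 : 1 ≤ Real.exp ((1 - θ) * x) := Real.one_le_exp (mul_nonneg (by linarith) hx0)
      have h4 : (1 - θ) * x ≤ Real.exp ((1 - θ) * x) := by
        have := Real.add_one_le_exp ((1 - θ) * x); linarith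
      have h5 : x ≤ 1 / (1 - θ) * Real.exp ((1 - θ) * x) := by
        rw [one_div, ← div_eq_inv_mul, le_div_iff₀ (by linarith)]
        linarith
      unfold Cb
      rw [← hθ, add_mul]
      linarith
    calc Real.exp (θ * x) * (13 + x) ≤ Real.exp (θ * x) * (Cb b * Real.exp ((1 - θ) * x)) :=
          mul_le_mul_of_nonneg_left h2 (Real.exp_pos _).le
      _ = Cb b * (Real.exp (θ * x) * Real.exp ((1 - θ) * x)) := by ring
      _ = Cb b * Real.exp x := by rw [← Real.exp_add]; congr 2; ring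
  · have hQ : Qt b n E r = 0 := by
      unfold Qt Qf
      split_ifs with h1 h2
      · exact absurd ⟨h1, h2⟩ h
      · rfl
      · rfl
    rw [hQ]
    have := Real.exp_pos ((E r) ^ b)
    rw [zero_mul]
    positivity

theorem Qt_far {b n : ℕ} {E : ℕ → ℝ} {j r : ℕ} (hj : 7 ≤ j) (hjn : j ≤ n) (hr : r ∈ W (n - j)) :
    Qt b n E r = 0 := by
  unfold Qt Qf
  split_ifs with h1 h2
  · exfalso
    unfold W7 at h2
    rw [mem_biUnion] at h2
    obtain ⟨i, hi, hri⟩ := h2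
    rw [mem_range] at hi
    have := W_disj (show n - j < n - i by omega)
    exact (Finset.disjoint_left.mp this) hr hri
  · rfl
  · rfl

theorem Qt_core {b n : ℕ} {E : ℕ → ℝ} (hE : ∀ r, 0 ≤ E r) (hn : 7 ≤ n)
    (hr : ∀ j < 7, ∑ p ∈ W (n - j), (1:ℝ) / p ≤ 1) :
    ∑ j ∈ range (n + 1), ∑ r ∈ W (n - j), Qt b n E r / r * (1 + j + Real.posLog (Qt b n E r / Aw 1 j)) ≤
      Cb b * (7 + H7 b E n) := by
  have hCb := Cb_ge b
  have h1 : ∑ j ∈ range (n + 1), ∑ r ∈ W (n - j), Qt b n E r / r * (1 + j + Real.posLog (Qt b n E r / Aw 1 j)) =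
      ∑ j ∈ range 7, ∑ r ∈ W (n - j), Qt b n E r / r * (1 + j + Real.posLog (Qt b n E r / Aw 1 j)) := by
    symm
    apply Finset.sum_subset
    · intro j hj; rw [mem_range] at hj ⊢; omega
    · intro j hj hj'
      rw [mem_range] at hj hj'
      apply Finset.sum_eq_zero
      intro r hr'
      rw [Qt_far (by omega) (by omega) hr']; simp
  rw [h1]
  have h2 : ∀ j ∈ range 7, ∑ r ∈ W (n - j), Qt b n E r / r * (1 + j + Real.posLog (Qt b n E r / Aw 1 j)) ≤
      Cb b * (1 + HH b E (n - j)) := by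
    intro j hj
    rw [mem_range] at hj
    have h3 : ∑ r ∈ W (n - j), Qt b n E r / r * (1 + j + Real.posLog (Qt b n E r / Aw 1 j)) ≤
        ∑ r ∈ W (n - j), (Cb b * (1 / r) + Cb b * (V b (E r) / r)) := by
      apply Finset.sum_le_sum
      intro r _
      have h4 := Qt_term (b := b) (n := n) hE (j := j) (r := r) hj
      have hr0 : (0:ℝ) ≤ 1 / (r:ℝ) := by positivity
      have h5 := mul_le_mul_of_nonneg_right h4 hr0
      calc _ = Qt b n E r * (1 + j + Real.posLog (Qt b n E r / Aw 1 j)) * (1 / r) := by ring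
        _ ≤ _ := h5
        _ = _ := by ring
    refine h3.trans ?_
    rw [Finset.sum_add_distrib, ← Finset.mul_sum, ← Finset.mul_sum]
    have h6 := mul_le_mul_of_nonneg_left (hr j hj) (by linarith : 0 ≤ Cb b)
    have h7 : ∑ r ∈ W (n - j), V b (E r) / r = HH b E (n - j) := rfl
    rw [h7]
    linarith
  refine (Finset.sum_le_sum h2).trans ?_
  rw [← Finset.mul_sum, Finset.sum_add_distrib]
  have : ∑ j ∈ range 7, HH b E (n - j) = H7 b E n := rfl
  rw [this]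
  simp

theorem Qt_Phi {b n : ℕ} {E : ℕ → ℝ} (hE : ∀ r, 0 ≤ E r) (hn : 7 ≤ n)
    (hr : ∀ j < 7, ∑ p ∈ W (n - j), (1:ℝ) / p ≤ 1) :
    Phi n (Aw 1) (Qt b n E) ≤ Cb b * (7 + H7 b E n) + 2 := by
  unfold Phi
  rw [Finset.sum_add_distrib]
  have h1 := Qt_core (b := b) hE hn hr
  have h2 := half_sum_le (n + 1) 1 (by norm_num)
  linarith

theorem Qt_sum {b n : ℕ} {E : ℕ → ℝ} (hE : ∀ r, 0 ≤ E r) (hn : 7 ≤ n)
    (hr : ∀ j < 7, ∑ p ∈ W (n - j), (1:ℝ) / p ≤ 1) :
    ∑ r ∈ LP n, Qt b n E r / r ≤ Cb b * (7 + H7 b E n) := by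
  refine le_trans ?_ (Qt_core (b := b) hE hn hr)
  refine (sum_LP_le n (fun r => Qt b n E r / r)
    (fun r => div_nonneg (Qt_nonneg b n E r) (by positivity))).trans ?_
  apply Finset.sum_le_sum
  intro j _
  refine (Finset.sum_le_sum_of_subset_of_nonneg (filter_subset _ _) (fun r _ _ =>
    div_nonneg (Qt_nonneg b n E r) (by positivity))).trans ?_
  apply Finset.sum_le_sum
  intro r _
  have h2 : 0 ≤ Qt b n E r / r := div_nonneg (Qt_nonneg b n E r) (by positivity)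
  have h3 : (1:ℝ) ≤ 1 + j + Real.posLog (Qt b n E r / Aw 1 j) := by
    have := Real.posLog_nonneg (x := Qt b n E r / Aw 1 j)
    have hj0 : (0:ℝ) ≤ j := by positivity
    linarith
  calc Qt b n E r / r = Qt b n E r / r * 1 := by ring
    _ ≤ _ := mul_le_mul_of_nonneg_left h3 h2

theorem lev_nonneg (f : Frame) (D : ℕ → ℝ) (ha : 0 ≤ f.a) (p : ℕ) : 0 ≤ lev f D p := by
  unfold lev
  apply div_nonneg (le_max_left _ _)
  have hlog : 0 ≤ Real.log p := Real.log_natCast_nonneg p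
  have hN := NN_pos f.n0
  unfold Frame.Lam
  split_ifs
  · have h1 : 0 ≤ NN f.n0 / Real.log p := div_nonneg hN.le hlog
    have := Real.rpow_nonneg h1 f.kap
    positivity
  · have h1 : 0 ≤ NN f.n0 / Real.log p := div_nonneg hN.le hlog
    have := Real.rpow_nonneg h1 f.kap
    positivity

theorem W_sub_LP {n : ℕ} (hn : 2 ≤ n) : W n ⊆ LP n := by
  intro p hp
  obtain ⟨h1, h2, h3⟩ := mem_W.mp hp
  rw [mem_LP]
  refine ⟨h1, ?_, h3⟩
  have e : NN n = lam * NN (n - 1) := by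
    rw [← NN_succ]; congr 1; omega
  have h4 : Real.sqrt (NN n) ≤ NN (n - 1) := by
    rw [Real.sqrt_le_left (NN_pos _).le]
    have : NN (n - 1) ^ 2 = NN (2 * (n - 1)) := by
      unfold NN; rw [← pow_mul, mul_comm]
    rw [this]
    exact NN_mono (by omega)
  rw [e] at h2
  have h5 := lt_of_mul_lt_mul_left h2 lam_pos.le
  linarith

theorem size1 (b : ℕ) (M : ℝ) (hM : 1 ≤ M) : ∃ n₁ : ℕ, ∀ n : ℕ, n₁ ≤ n →
    M * Real.exp ((n:ℝ) ^ (2 * b + 1) / 2) ≤ Real.exp (KK b n / 8) ∧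
    M * Real.exp ((n:ℝ) ^ (2 * b + 1) / 2) ≤ (1 / 2) ^ n * Real.exp (KK b n / 4) := by
  refine ⟨max 8 ⌈2 * Real.log M⌉₊, fun n hn => ?_⟩
  have h8 : (8:ℝ) ≤ n := by exact_mod_cast (le_max_left _ _).trans hn
  have hlM : 2 * Real.log M ≤ n := (Nat.le_ceil _).trans (by exact_mod_cast (le_max_right _ _).trans hn)
  have hM0 : 0 < M := by linarith
  have hK : (KK b n : ℝ) = (n:ℝ) * (n:ℝ) ^ (2 * b + 1) := by
    unfold KK; push_cast; ring
  have hn1 : (n:ℝ) ≤ (n:ℝ) ^ (2 * b + 1) := by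
    calc (n:ℝ) = (n:ℝ) ^ 1 := by ring
      _ ≤ _ := pow_le_pow_right₀ (by linarith) (by omega)
  have hx : 0 ≤ (n:ℝ) ^ (2 * b + 1) := by positivity
  have e1 : M * Real.exp ((n:ℝ) ^ (2 * b + 1) / 2) = Real.exp (Real.log M + (n:ℝ) ^ (2 * b + 1) / 2) := by
    rw [Real.exp_add, Real.exp_log hM0]
  have e2 : ((1:ℝ) / 2) ^ n = Real.exp (-(n * Real.log 2)) := by
    rw [Real.exp_neg, mul_comm, Real.exp_mul, Real.exp_log (by norm_num), Real.rpow_natCast]
    rw [one_div, inv_pow]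
  have hlog2 : Real.log 2 ≤ 1 := by
    have := Real.log_two_lt_d9; linarith
  have hmul : (8:ℝ) * (n:ℝ) ^ (2 * b + 1) ≤ (n:ℝ) * (n:ℝ) ^ (2 * b + 1) :=
    mul_le_mul_of_nonneg_right h8 hx
  have hn2 : (n:ℝ) * Real.log 2 ≤ n := by nlinarith
  refine ⟨?_, ?_⟩
  · rw [e1, hK]
    apply Real.exp_le_exp.mpr
    linarith
  · rw [e1, e2, ← Real.exp_add, hK]
    apply Real.exp_le_exp.mpr
    linarith

/-- the numerical inequality at the end -/
theorem final_num {H TIv TT1 TT2 : ℝ} {CI CT A0 l bb s ε C σ τ e : ℝ} (hH : 0 ≤ H)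
    (hCT : 1 ≤ CT) (hC : 13 ≤ C)
    (hA0 : CI * A0 = 1 / 64) (hb : CI * (l / bb) ≤ 1 / 400) (hs : s = 800 * CT * (C + 2))
    (hε : ε = 1 / (512 * CT)) (hσ0 : 0 ≤ σ) (hσ : 8 * (2 + C) * σ ≤ 1 / 1000)
    (h1 : TIv ≤ 2 * (CI * (A0 + l / bb * (6 + H)) + σ * (7 + H)))
    (h2 : TT1 ≤ 2 * (CT * (4 * ε) + 2 * σ))
    (h3 : TT2 ≤ 2 * (CT * (C * (13 + H) + 2) + σ * (1 + C * (13 + H))))
    (hτ : 2 * τ ≤ 1 / 1000) (he : e ≤ 1 / 1000)
    (htot : H ≤ 2 * (TIv + 2 * TT1 + 1 / s * TT2) + e + 2 * τ) : H ≤ 1 := by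
  have hs0 : 0 < s := by rw [hs]; positivity
  have hε' : CT * ε = 1 / 512 := by
    rw [hε]; field_simp
  have hσ1 : σ ≤ 1 / 100000 := by nlinarith
  have hσC : C * σ ≤ 1 / 8000 := by nlinarith
  have a1 : TIv ≤ 1 / 32 + (6 + H) / 200 + 2 * (7 + H) / 100000 := by
    have : CI * (A0 + l / bb * (6 + H)) ≤ 1 / 64 + 1 / 400 * (6 + H) := by
      rw [mul_add, hA0]
      have := mul_le_mul_of_nonneg_right hb (by linarith : 0 ≤ 6 + H)
      linarith
    have h4 := mul_le_mul_of_nonneg_right hσ1 (by linarith : 0 ≤ 7 + H)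
    linarith
  have a2 : TT1 ≤ 1 / 64 + 4 / 100000 := by
    have : CT * (4 * ε) = 1 / 128 := by linarith
    linarith
  have a3 : 1 / s * TT2 ≤ (13 + H) / 400 + 1 / 1000 * (1 / 4) * (14 + H) := by
    have hq : TT2 ≤ 2 * (CT * ((C + 2) * (13 + H))) + 2 * (1 / 8000) * (14 + H) := by
      have b1 : C * (13 + H) + 2 ≤ (C + 2) * (13 + H) := by nlinarith
      have b2 := mul_le_mul_of_nonneg_left b1 (by linarith : 0 ≤ CT)
      have b3 : σ * (1 + C * (13 + H)) ≤ 1 / 8000 * (14 + H) := by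
        have c1 : σ * (1 + C * (13 + H)) = σ + C * σ * (13 + H) := by ring
        rw [c1]
        have c2 := mul_le_mul_of_nonneg_right hσC (by linarith : 0 ≤ 13 + H)
        linarith
      linarith
    have hinv : 0 < 1 / s := by positivity
    have hinv1 : 1 / s ≤ 1 := by
      rw [div_le_one hs0, hs]
      nlinarith
    have c3 := mul_le_mul_of_nonneg_left hq hinv.le
    have c4 : 1 / s * (2 * (CT * ((C + 2) * (13 + H)))) = (13 + H) / 400 := by
      rw [hs]; field_simp; ring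
    have c5 : 1 / s * (2 * (1 / 8000) * (14 + H)) ≤ 2 * (1 / 8000) * (14 + H) := by
      have : 0 ≤ 2 * (1 / 8000) * (14 + H) := by positivity
      nlinarith
    rw [mul_add, c4] at c3
    linarith
  linarith

/-- one window: the basic inequality -/
theorem HH_le {b n : ℕ} {w3 Ls s τ e : ℝ} {E : ℕ → ℝ} (hE : ∀ r, 0 ≤ E r) (hs : 0 < s)
    (hτ : 0 ≤ τ) (hn : 2 ≤ n)
    (hEs : ∀ r ∈ LP n, (E r) ^ b ≤ (n : ℝ) ^ (2 * b + 1) / 2)
    (hrho : ∑ p ∈ W n, (1:ℝ) / p ≤ 1)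
    (hdec : ∀ (G F : ℕ → ℝ),
      (∀ p ∈ W n, 0 ≤ G p ∧ G p ≤ Real.exp ((n : ℝ) ^ (2 * b + 1))) → (∀ Q ∈ NP b n, 0 ≤ F Q) →
      (∀ p ∈ W n, ∀ Q, Good b n p Q → G p ≤ F Q) →
      ∑ p ∈ W n, G p / p ≤ ∑ Q ∈ NP b n, U b n Q / Q * F Q + e)
    (hpt : ∀ p ∈ W n, ∀ Q, Good b n p Q → V b (E p) ≤ Maj b n w3 Ls s E Q + 2 * τ) :
    HH b E n ≤ ∑ Q ∈ NP b n, U b n Q / Q * Maj b n w3 Ls s E Q + e + 2 * τ := by
  set G : ℕ → ℝ := fun p => max 0 (V b (E p) - 2 * τ) with hG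
  have h1 := hdec G (fun Q => Maj b n w3 Ls s E Q) (by
      intro p hp
      refine ⟨le_max_left _ _, ?_⟩
      apply max_le (Real.exp_pos _).le
      have h2 := hEs p (W_sub_LP hn hp)
      have h3 : V b (E p) ≤ Real.exp ((n : ℝ) ^ (2 * b + 1)) := by
        unfold V
        have h4 : (0:ℝ) ≤ (n : ℝ) ^ (2 * b + 1) := by positivity
        have : Real.exp ((E p) ^ b) ≤ Real.exp ((n : ℝ) ^ (2 * b + 1)) :=
          Real.exp_le_exp.mpr (by linarith)
        linarith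
      linarith)
    (fun Q hQ => Maj_nonneg hE hs hQ)
    (by
      intro p hp Q hQ
      apply max_le (Maj_nonneg hE hs hQ.1)
      have := hpt p hp Q hQ
      linarith)
  have h2 : HH b E n ≤ ∑ p ∈ W n, (G p / p + 2 * τ * (1 / p)) := by
    unfold HH
    apply Finset.sum_le_sum
    intro p _
    have h3 : V b (E p) ≤ G p + 2 * τ := by
      have := le_max_right 0 (V b (E p) - 2 * τ)
      simp only [hG]
      linarith
    have hr0 : (0:ℝ) ≤ 1 / (p:ℝ) := by positivity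
    have h4 := mul_le_mul_of_nonneg_right h3 hr0
    calc V b (E p) / p = V b (E p) * (1 / p) := by ring
      _ ≤ _ := h4
      _ = _ := by ring
  rw [Finset.sum_add_distrib, ← Finset.mul_sum] at h2
  have h5 : 2 * τ * ∑ p ∈ W n, (1:ℝ) / p ≤ 2 * τ * 1 :=
    mul_le_mul_of_nonneg_left hrho (by linarith)
  linarith

theorem exp_half_le : Real.exp (1/2) ≤ 2 := by
  have h3 : (Real.exp (1/2)) ^ 2 = Real.exp 1 := by
    rw [← Real.exp_nat_mul]; norm_num
  have h4 := Real.exp_one_lt_d9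
  have h5 := Real.exp_pos (1/2 : ℝ)
  nlinarith

theorem aux_lin {K x : ℝ} (hK : 0 ≤ K) (hx : 1 ≤ x) : 1 + 2 * K * (x + 1) ≤ (1 + 4 * K) * x := by
  nlinarith

end P14

theorem propagation (Δ D₂ : ℝ) (hΔ : 1 ≤ Δ) (hD₂ : 0 ≤ D₂) : ∃ b : ℕ, 2 ≤ b ∧ ∃ L : ℝ, 1 ≤ L ∧ ∃ n₀ : ℕ,
    ∀ (f : Frame) (D : ℕ → ℝ), AddFn Δ D₂ D → n₀ ≤ f.n0 → 0 ≤ f.c0 → 0 ≤ f.a → f.a ≤ 1 →
    f.kap = 1 / (4 * b) → f.L = L →
    (∀ n, f.n0 ≤ 2 * n + 4 → n ≤ f.n0 → HH b (lev f D) n ≤ 1) →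
    ∀ n, f.n0 < n → HH b (lev f D) n ≤ 1 := by
  obtain ⟨CI, hCI1, hCI⟩ := TI_bound
  obtain ⟨CT, hCT1, hCT⟩ := TT_bound
  set A0 : ℝ := 1 / (64 * CI) with hA0
  have hA0pos : 0 < A0 := by rw [hA0]; positivity
  have hA0le : A0 ≤ 1 := by
    rw [hA0, div_le_one (by positivity)]; linarith
  have hCA : CI * A0 = 1 / 64 := by rw [hA0]; field_simp
  set l : ℝ := 1 + Real.log (1 / A0) with hl
  have hl1 : 1 ≤ l := by
    have : 0 ≤ Real.log (1 / A0) := Real.log_nonneg ((one_le_div hA0pos).mpr hA0le)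
    linarith
  set b : ℕ := ⌈400 * CI * l⌉₊ + 2 with hb
  have hb2 : 2 ≤ b := by omega
  have hbb : 400 * CI * l ≤ (b:ℝ) - 1 := by
    rw [hb]; push_cast
    have := Nat.le_ceil (400 * CI * l)
    linarith
  have hb1 : (0:ℝ) < (b:ℝ) - 1 := by
    have : (0:ℝ) < 400 * CI * l := by positivity
    linarith
  have hCb : CI * (l / ((b:ℝ) - 1)) ≤ 1 / 400 := by
    rw [← mul_div_assoc, div_le_div_iff₀ hb1 (by norm_num)]
    linarith
  set C := P14.Cb b with hC
  have hC13 : 13 ≤ C := P14.Cb_ge b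
  set s : ℝ := 800 * CT * (C + 2) with hs
  have hs1 : 1 ≤ s := by rw [hs]; nlinarith
  have hs0 : 0 < s := by linarith
  set ε : ℝ := 1 / (512 * CT) with hε
  have hε0 : 0 < ε := by rw [hε]; positivity
  have hε1 : ε ≤ 1 / 512 := by
    rw [hε]
    apply one_div_le_one_div_of_le (by norm_num); linarith
  obtain ⟨w3, Ls, hw3, hw3', hLs, hsm⟩ := small b ε s hb2 hε0 (by linarith) hs1
  have hw31 : w3 ≤ 1 := by have := P14.w2_le b; linarith
  set κ : ℝ := 1 / (4 * (b:ℝ)) with hκ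
  have hb0 : (0:ℝ) < b := by linarith
  have hκ0 : 0 < κ := by rw [hκ]; positivity
  set L : ℝ := Ls * w3 ^ (-κ) with hL
  have hL1 : 1 ≤ L := by
    have h1 : 1 ≤ w3 ^ (-κ) := Real.one_le_rpow_of_pos_of_le_one_of_nonpos hw3 hw31 (by linarith)
    rw [hL]; nlinarith
  refine ⟨b, hb2, L, hL1, ?_⟩
  set K : ℝ := (2 + s) ^ (3 / 2 : ℝ) with hK
  have hK0 : 0 ≤ K := by rw [hK]; exact Real.rpow_nonneg (by linarith) _
  obtain ⟨n1, h1⟩ := lev_le Δ D₂ hΔ b hb2
  obtain ⟨n2, h2⟩ := pointwise Δ D₂ hΔ hD₂ b w3 Ls s hb2 hw3 hw3' hLs hs1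
  obtain ⟨n3, h3⟩ := hCI b hb2
  obtain ⟨n4, h4⟩ := hCT b
  obtain ⟨n5, h5⟩ := decomposition b
  obtain ⟨n6, h6⟩ := rho_le_one
  obtain ⟨n7, h7⟩ := P14.size1 b ((2 + s) / ε) (by
    rw [le_div_iff₀ hε0]; linarith)
  obtain ⟨n8, h8⟩ := P14.poly_le_NN (1000 * (8 * (2 + C)) * (1 + 4 * K)) 1 (1 / 4) (by norm_num)
  obtain ⟨n9, h9⟩ := P14.poly_le_NN 2000 0 (1 / 10) (by norm_num)
  set N0 : ℕ := n1 + n2 + n3 + n4 + n5 + 2 * n6 + n7 + n8 + n9 + ⌈1 / A0⌉₊ + 1000 with hN0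
  refine ⟨N0, ?_⟩
  intro f D hD hf0 hc0 ha0 ha1 hkap hfL hold n
  induction n using Nat.strong_induction_on with
  | _ n ih =>
  intro hn
  set E := lev f D with hEdef
  have hnN : N0 < n := lt_of_le_of_lt hf0 hn
  have hE : ∀ r, 0 ≤ E r := P14.lev_nonneg f D ha0
  have hfL1 : 1 ≤ f.L := by rw [hfL]; exact hL1
  have hkap' : f.kap = 1 / (4 * b) := hkap
  have hEs : ∀ r ∈ LP n, (E r) ^ b ≤ (n : ℝ) ^ (2 * b + 1) / 2 :=
    h1 n (by omega) f D hD (by omega) hn hc0 ha0 ha1 hfL1 hkap'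
  have hEs' : ∀ q, 0 ≤ E q ∧ (q ∈ LP n → (E q) ^ b ≤ (n : ℝ) ^ (2 * b + 1)) := by
    intro q
    refine ⟨hE q, fun hq => ?_⟩
    have := hEs q hq
    have h0 : (0:ℝ) ≤ (n : ℝ) ^ (2 * b + 1) := by positivity
    linarith
  -- windows
  have hHm : ∀ m, n < 2 * m → m < n → HH b E m ≤ 1 := by
    intro m hm1 hm2
    by_cases hm : m ≤ f.n0
    · exact hold m (by omega) hm
    · exact ih m hm2 (by omega)
  have hwin : P14.Win b n E := P14.Win_of hE hHm (fun m hm => h6 m (by omega))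
  have hH0 : 0 ≤ HH b E n := by
    unfold HH
    exact Finset.sum_nonneg (fun p _ => div_nonneg (P14.V_nonneg (hE p)) (by positivity))
  have hH7 : H7 b E n ≤ 6 + HH b E n := by
    unfold H7
    rw [Finset.sum_range_succ']
    have : ∑ j ∈ range 6, HH b E (n - (j + 1)) ≤ ∑ j ∈ range 6, (1:ℝ) := by
      apply Finset.sum_le_sum
      intro j hj
      rw [mem_range] at hj
      exact hHm _ (by omega) (by omega)
    rw [Finset.sum_const, card_range] at this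
    simp only [Nat.sub_zero]
    norm_num at this
    linarith
  have hH7' : 0 ≤ H7 b E n := by
    unfold H7 HH
    exact Finset.sum_nonneg (fun j _ => Finset.sum_nonneg
      (fun p _ => div_nonneg (P14.V_nonneg (hE p)) (by positivity)))
  have hn0 : (0:ℝ) < n := by
    have : 0 < n := by omega
    exact_mod_cast this
  -- weights
  have hgs : P14.Wt b n ε K E (P14.gg b n w3 Ls s E) := P14.gg_Wt hE hs0.le hsm
  have hg0nn : ∀ r, 0 ≤ P14.gg b n w3 Ls 0 E r := by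
    intro r
    unfold P14.gg
    split_ifs with h
    · have := P14.hfun_nonneg (b := b) (w3 := w3) (Ls := Ls) (hE r) (P14.omr_pos h).le
      simpa using this
    · exact le_rfl
  have hg0le : ∀ r, P14.gg b n w3 Ls 0 E r ≤ P14.gg b n w3 Ls s E r := by
    intro r
    unfold P14.gg
    split_ifs with h
    · have := mul_nonneg hs0.le (P14.bet_nonneg b w3 Ls (omr n r) (E r))
      linarith
    · exact le_rfl
  have hg0 : P14.Wt b n ε K E (P14.gg b n w3 Ls 0 E) := hgs.mono hε0 hg0nn hg0le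
  have hLs0 : 0 ≤ Ls := by linarith
  -- sizes
  have hexpE : ∀ r ∈ LP n, Real.exp ((E r) ^ b) ≤ Real.exp ((n : ℝ) ^ (2 * b + 1) / 2) :=
    fun r hr => Real.exp_le_exp.mpr (hEs r hr)
  obtain ⟨h7a, h7b⟩ := h7 n (by omega)
  have hM1 : (2 + s) ≤ (2 + s) / ε := by
    rw [le_div_iff₀ hε0]
    exact mul_le_of_le_one_right (by linarith) (by linarith)
  have hsize : ∀ r, P14.gg b n w3 Ls s E r ≤ (2 + s) * Real.exp ((n : ℝ) ^ (2 * b + 1) / 2) := by
    intro r
    unfold P14.gg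
    split_ifs with h
    · have a1 := P14.hfun_le (b := b) (w3 := w3) (hE r) hLs0 (P14.omr_pos h).le
      have a2 := P14.bet_le (b := b) (w3 := w3) (ω := omr n r) (hE r) hLs0
      have a3 := hexpE r h
      have a4 := mul_le_mul_of_nonneg_left (a2.trans a3) hs0.le
      linarith
    · positivity
  have hexp0 : 0 ≤ Real.exp ((n : ℝ) ^ (2 * b + 1) / 2) := (Real.exp_pos _).le
  have hsize8 : ∀ r, P14.gg b n w3 Ls s E r ≤ Real.exp (KK b n / 8) := by
    intro r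
    refine (hsize r).trans (le_trans ?_ h7a)
    exact mul_le_mul_of_nonneg_right hM1 hexp0
  have hpow : ∀ j, j ≤ n → (1 / 2 : ℝ) ^ n ≤ (1 / 2) ^ j :=
    fun j hj => pow_le_pow_of_le_one (by norm_num) (by norm_num) hj
  have hKe : 0 < Real.exp (KK b n / 4 : ℝ) := Real.exp_pos _
  have hsize4 : ∀ j ≤ n, ∀ r, P14.gg b n w3 Ls s E r ≤ Aw ε j * Real.exp (KK b n / 4) := by
    intro j hj r
    refine (hsize r).trans ?_
    have a1 : (2 + s) * Real.exp ((n : ℝ) ^ (2 * b + 1) / 2) =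
        ε * ((2 + s) / ε * Real.exp ((n : ℝ) ^ (2 * b + 1) / 2)) := by
      field_simp
    rw [a1]
    unfold Aw
    rw [mul_assoc]
    apply mul_le_mul_of_nonneg_left _ hε0.le
    refine h7b.trans ?_
    exact mul_le_mul_of_nonneg_right (hpow j hj) hKe.le
  have hQsize : ∀ r, P14.Qt b n E r ≤ 1 * Real.exp ((n : ℝ) ^ (2 * b + 1) / 2) := by
    intro r
    unfold P14.Qt Qf
    split_ifs with h h'
    · have a1 := P14.theta_lt b
      have a2 := P14.theta_nonneg b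
      have a3 : 0 ≤ (E r) ^ b := pow_nonneg (hE r) b
      rw [one_mul]
      apply Real.exp_le_exp.mpr
      have := hEs r h
      have a4 : (1 - w2 b) ^ (3 / 4 : ℝ) * (E r) ^ b ≤ 1 * (E r) ^ b :=
        mul_le_mul_of_nonneg_right a1.le a3
      linarith
    · positivity
    · positivity
  have hM2 : 1 ≤ (2 + s) / ε := by rw [le_div_iff₀ hε0]; linarith
  have hQ8 : ∀ r, P14.Qt b n E r ≤ Real.exp (KK b n / 8) := by
    intro r
    refine (hQsize r).trans (le_trans ?_ h7a)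
    exact mul_le_mul_of_nonneg_right hM2 hexp0
  have hQ4 : ∀ j ≤ n, ∀ r, P14.Qt b n E r ≤ Aw 1 j * Real.exp (KK b n / 4) := by
    intro j hj r
    refine (hQsize r).trans ?_
    refine le_trans (mul_le_mul_of_nonneg_right hM2 hexp0) (h7b.trans ?_)
    unfold Aw
    rw [one_mul]
    exact mul_le_mul_of_nonneg_right (hpow j hj) hKe.le
  have hAwε : ∀ j, 0 < Aw ε j ∧ Aw ε j ≤ 1 := by
    intro j
    unfold Aw
    have a1 : (1 / 2 : ℝ) ^ j ≤ 1 := pow_le_one₀ (by norm_num) (by norm_num)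
    have a2 : (0:ℝ) < (1 / 2 : ℝ) ^ j := by positivity
    refine ⟨by positivity, ?_⟩
    exact mul_le_one₀ (by linarith) a2.le a1
  have hAw1 : ∀ j, 0 < Aw 1 j ∧ Aw 1 j ≤ 1 := by
    intro j
    unfold Aw
    have a1 : (1 / 2 : ℝ) ^ j ≤ 1 := pow_le_one₀ (by norm_num) (by norm_num)
    have a2 : (0:ℝ) < (1 / 2 : ℝ) ^ j := by positivity
    refine ⟨by positivity, ?_⟩
    linarith
  -- exponential factors
  have hexp2 : ∀ x : ℝ, x ≤ 3 * ε → Real.exp x ≤ 2 := by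
    intro x hx
    have h1 : Real.exp x ≤ Real.exp (1/2) := Real.exp_le_exp.mpr (by linarith)
    have h2 : Real.exp (1/2) ≤ 2 := P14.exp_half_le
    linarith
  have hS0 := hexp2 _ (hg0.sum_div' hwin hε0.le)
  have hSs := hexp2 _ (hgs.sum_div' hwin hε0.le)
  -- small quantity
  set P : ℝ := 2 * K * (n + 1) with hP
  have hP0 : 0 ≤ P := by positivity
  have hNp : 0 < NN n := P14.NN_pos n
  set ν : ℝ := (NN n) ^ (-(1 / 4) : ℝ) with hν
  have hν0 : 0 < ν := by rw [hν]; exact Real.rpow_pos_of_pos hNp _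
  set σ : ℝ := ν * (1 + P) with hσ
  have hσ0 : 0 ≤ σ := by positivity
  have hn1 : (1:ℝ) ≤ n := by
    have : 1 ≤ n := by omega
    exact_mod_cast this
  have hσ1 : 8 * (2 + C) * σ ≤ 1 / 1000 := by
    have a1 := h8 n (by omega)
    rw [pow_one] at a1
    have a2 : ν * (NN n) ^ (1 / 4 : ℝ) = 1 := by
      rw [hν, ← Real.rpow_add hNp]; norm_num
    have a3 : 1 + P ≤ (1 + 4 * K) * n := by rw [hP]; exact P14.aux_lin hK0 hn1
    have a4 : 8 * (2 + C) * σ ≤ 8 * (2 + C) * (ν * ((1 + 4 * K) * n)) := by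
      rw [hσ]
      apply mul_le_mul_of_nonneg_left _ (by linarith)
      exact mul_le_mul_of_nonneg_left a3 hν0.le
    have a5 : 1000 * (8 * (2 + C) * (ν * ((1 + 4 * K) * n))) ≤ 1 := by
      calc 1000 * (8 * (2 + C) * (ν * ((1 + 4 * K) * n))) =
          ν * (1000 * (8 * (2 + C)) * (1 + 4 * K) * n) := by ring
        _ ≤ ν * (NN n) ^ (1 / 4 : ℝ) := mul_le_mul_of_nonneg_left a1 hν0.le
        _ = 1 := a2
    linarith
  have hA0n : 1 / (n:ℝ) ≤ A0 := by
    have a1 : 1 / A0 ≤ (n:ℝ) := (Nat.le_ceil _).trans (by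
      have : ⌈1 / A0⌉₊ ≤ n := by omega
      exact_mod_cast this)
    rw [div_le_iff₀ hn0]
    rw [div_le_iff₀ hA0pos] at a1
    linarith
  -- the three bounds
  have hTI : TI b n E (fun r => hfun b w3 Ls (omr n r) (E r)) ≤
      2 * (CI * (A0 + l / ((b:ℝ) - 1) * (6 + HH b E n)) + σ * (7 + HH b E n)) := by
    have a0 : TI b n E (fun r => hfun b w3 Ls (omr n r) (E r)) = TI b n E (P14.gg b n w3 Ls 0 E) := by
      apply P14.TI_congr
      intro r hr
      unfold P14.gg; rw [if_pos hr]; ring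
    rw [a0]
    have a1 := h3 n (by omega) E (P14.gg b n w3 Ls 0 E) A0 hEs' hA0n hA0le
      (fun r => ⟨hg0nn r, (hg0le r).trans (hsize8 r)⟩)
    refine a1.trans ?_
    have a2 := hg0.pow_sum hwin hK0
    have a3 : 0 ≤ l / ((b:ℝ) - 1) := by positivity
    have a4 : CI * (A0 + l / ((b:ℝ) - 1) * H7 b E n) ≤
        CI * (A0 + l / ((b:ℝ) - 1) * (6 + HH b E n)) := by
      apply mul_le_mul_of_nonneg_left _ (by linarith)
      have := mul_le_mul_of_nonneg_left hH7 a3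
      linarith
    have a5 : ν * (1 + H7 b E n) * (1 + ∑ r ∈ LP n, (P14.gg b n w3 Ls 0 E r) ^ (3 / 2 : ℝ) / r) ≤
        σ * (7 + HH b E n) := by
      have b1 : ν * (1 + H7 b E n) ≤ ν * (7 + HH b E n) :=
        mul_le_mul_of_nonneg_left (by linarith) hν0.le
      have b2 : 0 ≤ ∑ r ∈ LP n, (P14.gg b n w3 Ls 0 E r) ^ (3 / 2 : ℝ) / r :=
        Finset.sum_nonneg (fun r _ => div_nonneg (Real.rpow_nonneg (hg0nn r) _) (by positivity))
      calc _ ≤ ν * (7 + HH b E n) * (1 + P) :=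
            mul_le_mul b1 (by linarith) (by linarith) (by positivity)
        _ = _ := by rw [hσ]; ring
    have a6 : 0 ≤ CI * (A0 + l / ((b:ℝ) - 1) * (6 + HH b E n)) + σ * (7 + HH b E n) := by
      positivity
    calc _ ≤ Real.exp (∑ r ∈ LP n, P14.gg b n w3 Ls 0 E r / (r - 1)) *
          (CI * (A0 + l / ((b:ℝ) - 1) * (6 + HH b E n)) + σ * (7 + HH b E n)) :=
          mul_le_mul_of_nonneg_left (add_le_add a4 a5) (Real.exp_pos _).le
      _ ≤ _ := mul_le_mul_of_nonneg_right hS0 a6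
  have hTT1 : TT b n (fun r => hfun b w3 Ls (omr n r) (E r)) (fun r => hfun b w3 Ls (omr n r) (E r)) ≤
      2 * (CT * (4 * ε) + 2 * σ) := by
    have a0 : TT b n (fun r => hfun b w3 Ls (omr n r) (E r))
        (fun r => hfun b w3 Ls (omr n r) (E r)) =
        TT b n (P14.gg b n w3 Ls 0 E) (P14.gg b n w3 Ls 0 E) := by
      apply P14.TT_congr <;>
      · intro r hr
        unfold P14.gg; rw [if_pos hr]; ring
    rw [a0]
    have a1 := h4 n (by omega) (P14.gg b n w3 Ls 0 E) (P14.gg b n w3 Ls 0 E) (Aw ε)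
      (fun r => ⟨hg0nn r, (hg0le r).trans (hsize8 r)⟩)
      (fun r => ⟨hg0nn r, (hg0le r).trans (hsize8 r)⟩) hAwε
      (fun j hj r _ => (hg0le r).trans (hsize4 j hj r))
    refine a1.trans ?_
    have a2 := hg0.pow_sum hwin hK0
    have a3 := hg0.sum_div hwin hε0.le
    have a3' : 0 ≤ ∑ r ∈ LP n, P14.gg b n w3 Ls 0 E r / r :=
      Finset.sum_nonneg (fun r _ => div_nonneg (hg0nn r) (by positivity))
    have a4 : CT * Phi n (Aw ε) (P14.gg b n w3 Ls 0 E) ≤ CT * (4 * ε) :=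
      mul_le_mul_of_nonneg_left (hg0.Phi_le hwin hε0.le) (by linarith)
    have a5 : ν * (1 + ∑ r ∈ LP n, P14.gg b n w3 Ls 0 E r / r) *
        (1 + ∑ r ∈ LP n, (P14.gg b n w3 Ls 0 E r) ^ (3 / 2 : ℝ) / r) ≤ 2 * σ := by
      have b1 : ν * (1 + ∑ r ∈ LP n, P14.gg b n w3 Ls 0 E r / r) ≤ ν * 2 :=
        mul_le_mul_of_nonneg_left (by linarith) hν0.le
      have b2 : 0 ≤ ∑ r ∈ LP n, (P14.gg b n w3 Ls 0 E r) ^ (3 / 2 : ℝ) / r :=
        Finset.sum_nonneg (fun r _ => div_nonneg (Real.rpow_nonneg (hg0nn r) _) (by positivity))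
      calc _ ≤ ν * 2 * (1 + P) :=
            mul_le_mul b1 (by linarith) (by linarith) (by positivity)
        _ = _ := by rw [hσ]; ring
    have a6 : 0 ≤ CT * (4 * ε) + 2 * σ := by positivity
    calc _ ≤ Real.exp (∑ r ∈ LP n, P14.gg b n w3 Ls 0 E r / (r - 1)) *
          (CT * (4 * ε) + 2 * σ) :=
          mul_le_mul_of_nonneg_left (add_le_add a4 a5) (Real.exp_pos _).le
      _ ≤ _ := mul_le_mul_of_nonneg_right hS0 a6
  have hrho7 : ∀ j < 7, ∑ p ∈ W (n - j), (1:ℝ) / p ≤ 1 := fun j hj => h6 _ (by omega)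
  have hTT2 : TT b n (Qf b n E)
      (fun r => hfun b w3 Ls (omr n r) (E r) + s * bet b w3 Ls (omr n r) (E r)) ≤
      2 * (CT * (C * (13 + HH b E n) + 2) + σ * (1 + C * (13 + HH b E n))) := by
    have a0 : TT b n (Qf b n E)
        (fun r => hfun b w3 Ls (omr n r) (E r) + s * bet b w3 Ls (omr n r) (E r)) =
        TT b n (P14.Qt b n E) (P14.gg b n w3 Ls s E) := by
      apply P14.TT_congr
      · intro r hr
        unfold P14.Qt; rw [if_pos hr]
      · intro r hr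
        unfold P14.gg; rw [if_pos hr]
    rw [a0]
    have a1 := h4 n (by omega) (P14.Qt b n E) (P14.gg b n w3 Ls s E) (Aw 1)
      (fun r => ⟨P14.Qt_nonneg b n E r, hQ8 r⟩)
      (fun r => ⟨hgs.nonneg r, hsize8 r⟩) hAw1
      (fun j hj r _ => hQ4 j hj r)
    refine a1.trans ?_
    have a2 := hgs.pow_sum hwin hK0
    have hC0 : 0 ≤ C := by linarith
    have a3 : ∑ r ∈ LP n, P14.Qt b n E r / r ≤ C * (13 + HH b E n) := by
      refine (P14.Qt_sum hE (by omega) hrho7).trans ?_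
      exact mul_le_mul_of_nonneg_left (by linarith) hC0
    have a3' : 0 ≤ ∑ r ∈ LP n, P14.Qt b n E r / r :=
      Finset.sum_nonneg (fun r _ => div_nonneg (P14.Qt_nonneg b n E r) (by positivity))
    have a4 : CT * Phi n (Aw 1) (P14.Qt b n E) ≤ CT * (C * (13 + HH b E n) + 2) := by
      apply mul_le_mul_of_nonneg_left _ (by linarith)
      refine (P14.Qt_Phi hE (by omega) hrho7).trans ?_
      have := mul_le_mul_of_nonneg_left (show 7 + H7 b E n ≤ 13 + HH b E n by linarith) hC0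
      linarith
    have a5 : ν * (1 + ∑ r ∈ LP n, P14.Qt b n E r / r) *
        (1 + ∑ r ∈ LP n, (P14.gg b n w3 Ls s E r) ^ (3 / 2 : ℝ) / r) ≤
        σ * (1 + C * (13 + HH b E n)) := by
      have b1 : ν * (1 + ∑ r ∈ LP n, P14.Qt b n E r / r) ≤ ν * (1 + C * (13 + HH b E n)) :=
        mul_le_mul_of_nonneg_left (by linarith) hν0.le
      have b2 : 0 ≤ ∑ r ∈ LP n, (P14.gg b n w3 Ls s E r) ^ (3 / 2 : ℝ) / r :=
        Finset.sum_nonneg (fun r _ => div_nonneg (Real.rpow_nonneg (hgs.nonneg r) _) (by positivity))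
      calc _ ≤ ν * (1 + C * (13 + HH b E n)) * (1 + P) :=
            mul_le_mul b1 (by linarith) (by linarith) (by positivity)
        _ = _ := by rw [hσ]; ring
    have a6 : 0 ≤ CT * (C * (13 + HH b E n) + 2) + σ * (1 + C * (13 + HH b E n)) := by
      positivity
    calc _ ≤ Real.exp (∑ r ∈ LP n, P14.gg b n w3 Ls s E r / (r - 1)) *
          (CT * (C * (13 + HH b E n) + 2) + σ * (1 + C * (13 + HH b E n))) :=
          mul_le_mul_of_nonneg_left (add_le_add a4 a5) (Real.exp_pos _).le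
      _ ≤ _ := mul_le_mul_of_nonneg_right hSs a6
  -- the basic inequality
  set τ : ℝ := (NN n) ^ (-(1 / 10) : ℝ) with hτ
  have hτ0 : 0 < τ := by rw [hτ]; exact Real.rpow_pos_of_pos hNp _
  have hτ1 : 2 * τ ≤ 1 / 1000 := by
    have a1 := h9 n (by omega)
    rw [pow_zero, mul_one] at a1
    have a2 : τ * (NN n) ^ (1 / 10 : ℝ) = 1 := by
      rw [hτ, ← Real.rpow_add hNp]; norm_num
    have a3 := mul_le_mul_of_nonneg_left a1 hτ0.le
    linarith
  have he1 : Real.exp (-(n:ℝ)) ≤ 1 / 1000 := by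
    rw [Real.exp_neg, ← one_div]
    apply one_div_le_one_div_of_le (by norm_num)
    have a1 := Real.add_one_le_exp (n:ℝ)
    have a2 : (1000:ℝ) ≤ n := by
      have : 1000 ≤ n := by omega
      exact_mod_cast this
    linarith
  have hbasic := P14.HH_le (b := b) (n := n) (w3 := w3) (Ls := Ls) (s := s) (τ := τ)
    (e := Real.exp (-(n:ℝ))) (E := E) hE hs0 hτ0.le (by omega) hEs (h6 n (by omega))
    (h5 n (by omega))
    (by
      intro p hp Q hQ
      exact h2 f D hD (by omega) hc0 ha0 ha1 hkap' (by rw [hfL, hL, hkap']) n hn p hp Q hQ)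
  rw [P14.Maj_sum] at hbasic
  exact P14.final_num (H := HH b E n) hH0 hCT1 hC13 hCA hCb hs hε hσ0 hσ1
    hTI hTT1 hTT2 hτ1 he1 hbasic

end

end Pool.Agent.NTot
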