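import Pool.Agent.NTot.Mertens
import Pool.Agent.H6.Selberg
import Pool.Agent.H6.Hooley1

/-!
# The Selberg sieve for residue classes (first part of module M1)
-/

set_option autoImplicit false

namespace Pool.Agent.NTot.SL1

open Finset BoundingSieve ArithmeticFunction
open scoped Classical

noncomputable section

/-- squarefree code of `s`: product of the primes of `P` that are bad for `s` -/
def code (bad : ℕ → ℕ → Prop) (P : Finset ℕ) (s : ℕ) : ℕ := ∏ q ∈ P.filter (fun q => bad q s), q

variable {bad : ℕ → ℕ → Prop} {P : Finset ℕ}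

theorem primeFactors_code (hP : ∀ q ∈ P, q.Prime) (s : ℕ) :
    (code bad P s).primeFactors = P.filter (fun q => bad q s) :=
  Nat.primeFactors_prod (fun p hp => hP p (mem_filter.mp hp).1)

theorem squarefree_prod (hP : ∀ q ∈ P, q.Prime) : Squarefree (∏ q ∈ P, q) := by
  refine Finset.squarefree_prod_of_pairwise_isCoprime (fun p hp q hq hpq ↦ ?_)
    (fun q hq => (hP q hq).prime.squarefree)
  show IsRelPrime p q
  rw [← Nat.coprime_iff_isRelPrime]
  exact (Nat.coprime_primes (hP p hp) (hP q hq)).mpr hpq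

theorem code_dvd (s : ℕ) : code bad P s ∣ ∏ q ∈ P, q :=
  Finset.prod_dvd_prod_of_subset _ _ _ (filter_subset _ _)

theorem dvd_code_iff (hP : ∀ q ∈ P, q.Prime) {d : ℕ} (hd : d ∣ ∏ q ∈ P, q) (s : ℕ) :
    d ∣ code bad P s ↔ ∀ q ∈ d.primeFactors, bad q s := by
  have hsq : Squarefree d := (squarefree_prod hP).squarefree_of_dvd hd
  have hP0 : (∏ q ∈ P, q) ≠ 0 := (squarefree_prod hP).ne_zero
  have hsub : d.primeFactors ⊆ P := by
    have := Nat.primeFactors_mono hd hP0
    rwa [Nat.primeFactors_prod hP] at this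
  constructor
  · intro h q hq
    have h1 : q ∈ (code bad P s).primeFactors := by
      refine Nat.primeFactors_mono h ?_ hq
      exact ne_zero_of_dvd_ne_zero hP0 (code_dvd s)
    rw [primeFactors_code hP, mem_filter] at h1
    exact h1.2
  · intro h
    rw [← Nat.prod_primeFactors_of_squarefree hsq]
    apply Finset.prod_dvd_prod_of_subset
    intro q hq
    rw [mem_filter]
    exact ⟨hsub hq, h q hq⟩

/-- the sieve attached to residue classes -/
def cSieve (bad : ℕ → ℕ → Prop) (P : Finset ℕ) (hP : ∀ q ∈ P, q.Prime)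
    (h0 : ∀ q ∈ P, 0 < H6.Hooley.rho bad q) (h1 : ∀ q ∈ P, H6.Hooley.rho bad q < q) (X : ℕ) :
    BoundingSieve where
  support := (range X).image (code bad P)
  prodPrimes := ∏ q ∈ P, q
  prodPrimes_squarefree := squarefree_prod hP
  weights m := (((range X).filter (fun s => code bad P s = m)).card : ℝ)
  weights_nonneg m := Nat.cast_nonneg _
  totalMass := X
  nu := prodPrimeFactors (fun q => (H6.Hooley.rho bad q : ℝ) / q)
  nu_mult := IsMultiplicative.prodPrimeFactors _
  nu_pos_of_prime p hp hd := by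
    rw [prodPrimeFactors_apply hp.ne_zero, hp.primeFactors, prod_singleton]
    have hmem : p ∈ P := by
      have := Nat.mem_primeFactors.mpr ⟨hp, hd, (squarefree_prod hP).ne_zero⟩
      rwa [Nat.primeFactors_prod hP] at this
    have := h0 p hmem
    have := hp.pos
    positivity
  nu_lt_one_of_prime p hp hd := by
    rw [prodPrimeFactors_apply hp.ne_zero, hp.primeFactors, prod_singleton]
    have hmem : p ∈ P := by
      have := Nat.mem_primeFactors.mpr ⟨hp, hd, (squarefree_prod hP).ne_zero⟩
      rwa [Nat.primeFactors_prod hP] at this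
    rw [div_lt_one (by exact_mod_cast hp.pos)]
    exact_mod_cast h1 p hmem

variable (hP : ∀ q ∈ P, q.Prime) (h0 : ∀ q ∈ P, 0 < H6.Hooley.rho bad q)
  (h1 : ∀ q ∈ P, H6.Hooley.rho bad q < q) (X : ℕ)

theorem nu_eq {d : ℕ} (hd : d ∣ ∏ q ∈ P, q) :
    (cSieve bad P hP h0 h1 X).nu d = H6.Hooley.GH bad d.primeFactors := by
  have hd0 : d ≠ 0 := ne_zero_of_dvd_ne_zero (squarefree_prod hP).ne_zero hd
  show prodPrimeFactors (fun q => (H6.Hooley.rho bad q : ℝ) / q) d = _
  rw [prodPrimeFactors_apply hd0]
  rfl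

theorem multSum_eq {d : ℕ} (hd : d ∣ ∏ q ∈ P, q) :
    (cSieve bad P hP h0 h1 X).multSum d =
      (((range X).filter (fun s => ∀ q ∈ d.primeFactors, bad q s)).card : ℝ) := by
  show ∑ n ∈ (range X).image (code bad P), (if d ∣ n then
    (((range X).filter (fun s => code bad P s = n)).card : ℝ) else 0) = _
  have e : ((range X).filter (fun s => ∀ q ∈ d.primeFactors, bad q s)).card =
      ∑ n ∈ (range X).image (code bad P),
        (((range X).filter (fun s => ∀ q ∈ d.primeFactors, bad q s)).filter
          (fun s => code bad P s = n)).card :=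
    Finset.card_eq_sum_card_fiberwise (fun s hs => by
      rw [coe_image]
      exact ⟨s, by simpa using (mem_filter.mp hs).1, rfl⟩)
  rw [e]
  push_cast
  apply Finset.sum_congr rfl
  intro n _
  split_ifs with h
  · congr 1
    congr 1
    ext s
    simp only [mem_filter]
    constructor
    · rintro ⟨ha, rfl⟩
      exact ⟨⟨ha, (dvd_code_iff hP hd s).mp h⟩, rfl⟩
    · rintro ⟨⟨ha, _⟩, hb⟩
      exact ⟨ha, hb⟩
  · symm
    norm_cast
    rw [Finset.card_eq_zero, Finset.filter_eq_empty_iff]
    rintro s hs rfl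
    exact h ((dvd_code_iff hP hd s).mpr (mem_filter.mp hs).2)

theorem sifted_eq : (cSieve bad P hP h0 h1 X).siftedSum =
    (((range X).filter (fun s => ∀ q ∈ P, ¬ bad q s)).card : ℝ) := by
  show ∑ n ∈ (range X).image (code bad P), (if Nat.Coprime (∏ q ∈ P, q) n then
    (((range X).filter (fun s => code bad P s = n)).card : ℝ) else 0) = _
  have e : ((range X).filter (fun s => ∀ q ∈ P, ¬ bad q s)).card =
      ∑ n ∈ (range X).image (code bad P),
        (((range X).filter (fun s => ∀ q ∈ P, ¬ bad q s)).filter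
          (fun s => code bad P s = n)).card :=
    Finset.card_eq_sum_card_fiberwise (fun s hs => by
      rw [coe_image]
      exact ⟨s, by simpa using (mem_filter.mp hs).1, rfl⟩)
  rw [e]
  push_cast
  apply Finset.sum_congr rfl
  intro n hn
  have key : ∀ s, Nat.Coprime (∏ q ∈ P, q) (code bad P s) ↔ ∀ q ∈ P, ¬ bad q s := by
    intro s
    constructor
    · intro h q hq hb
      have h2 : q ∣ code bad P s := by
        apply Finset.dvd_prod_of_mem
        rw [mem_filter]; exact ⟨hq, hb⟩
      have h3 : q ∣ ∏ q ∈ P, q := Finset.dvd_prod_of_mem _ hq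
      have := Nat.Coprime.eq_one_of_dvd (Nat.Coprime.coprime_dvd_left h3 h) h2
      exact (hP q hq).one_lt.ne' this
    · intro h
      have : code bad P s = 1 := by
        unfold code
        rw [Finset.filter_false_of_mem h, Finset.prod_empty]
      rw [this]
      exact Nat.coprime_one_right _
  split_ifs with h
  · congr 1
    congr 1
    ext s
    simp only [mem_filter]
    constructor
    · rintro ⟨ha, rfl⟩
      exact ⟨⟨ha, (key s).mp h⟩, rfl⟩
    · rintro ⟨⟨ha, _⟩, hb⟩
      exact ⟨ha, hb⟩
  · symm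
    norm_cast
    rw [Finset.card_eq_zero, Finset.filter_eq_empty_iff]
    rintro s hs rfl
    exact h ((key s).mpr (mem_filter.mp hs).2)

theorem prod_pf_eq (hP : ∀ q ∈ P, q.Prime) {d : ℕ} (hd : d ∣ ∏ q ∈ P, q) : ∏ q ∈ d.primeFactors, q = d :=
  Nat.prod_primeFactors_of_squarefree ((squarefree_prod hP).squarefree_of_dvd hd)

theorem pf_sub (hP : ∀ q ∈ P, q.Prime) {d : ℕ} (hd : d ∣ ∏ q ∈ P, q) : d.primeFactors ⊆ P := by
  have := Nat.primeFactors_mono hd (squarefree_prod hP).ne_zero
  rwa [Nat.primeFactors_prod hP] at this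

/-- the crude Selberg bound for residue classes -/
theorem bound (hper : H6.Hooley.Per bad) (D : ℕ) (hD : 1 ≤ D) :
    (((range X).filter (fun s => ∀ q ∈ P, ¬ bad q s)).card : ℝ) ≤
      X / H6.SS (cSieve bad P hP h0 h1 X) D + (D : ℝ) ^ 6 := by
  rw [← sifted_eq hP h0 h1 X]
  have h := H6.selberg_bound (cSieve bad P hP h0 h1 X) D hD D ((D : ℝ) ^ 2) (by positivity)
    (by positivity) ?_ ?_
  · refine h.trans (le_of_eq ?_)
    show (X : ℝ) / _ + _ = _
    ring
  · intro d hd hdD
    have hd' : d ∣ ∏ q ∈ P, q := hd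
    rw [nu_eq hP h0 h1 X hd']
    unfold H6.Hooley.GH
    rw [← Finset.prod_inv_distrib]
    calc ∏ q ∈ d.primeFactors, ((H6.Hooley.rho bad q : ℝ) / q)⁻¹
        ≤ ∏ q ∈ d.primeFactors, (q : ℝ) := by
          apply Finset.prod_le_prod
          · intro q hq; positivity
          · intro q hq
            have hq' := pf_sub hP hd' hq
            have h2 : (1 : ℝ) ≤ H6.Hooley.rho bad q := by exact_mod_cast h0 q hq'
            rw [inv_div]
            exact div_le_self (by positivity) h2
      _ = (d : ℝ) := by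
          rw [← Nat.cast_prod, prod_pf_eq hP hd']
      _ ≤ D := by exact_mod_cast hdD
  · intro d hd hdD
    have hd' : d ∣ ∏ q ∈ P, q := hd
    have hd0 : d ≠ 0 := ne_zero_of_dvd_ne_zero (squarefree_prod hP).ne_zero hd'
    unfold BoundingSieve.rem
    rw [multSum_eq hP h0 h1 X hd', nu_eq hP h0 h1 X hd']
    have h2 := H6.Hooley.card_bad hper d.primeFactors (fun q hq => (Nat.prime_of_mem_primeFactors hq)) X
    have h3 : H6.Hooley.RH bad d.primeFactors ≤ (D : ℝ) ^ 2 := by
      calc H6.Hooley.RH bad d.primeFactors ≤ ∏ q ∈ d.primeFactors, (q : ℝ) := by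
            unfold H6.Hooley.RH
            apply Finset.prod_le_prod
            · intro q _; positivity
            · intro q hq
              exact_mod_cast (h1 q (pf_sub hP hd' hq)).le
        _ = (d : ℝ) := by rw [← Nat.cast_prod, prod_pf_eq hP hd']
        _ ≤ _ := by exact_mod_cast hdD
    refine (le_of_eq ?_).trans (h2.trans h3)
    congr 1
    show _ - _ * (X : ℝ) = _
    ring

end

end Pool.Agent.NTot.SL1
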