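import Pool.Agent.NTot.MainTerm
import Pool.Agent.NTot.Tiny
import Pool.Agent.NTot.Expand

/-!
# M11a: bound for T_I
-/

set_option autoImplicit false

namespace Pool.Agent.NTot

open Finset Filter Topology

noncomputable section

theorem V_nonneg {b : ℕ} {E : ℝ} (hE : 0 ≤ E) : 0 ≤ V b E := by
  unfold V
  have := Real.one_le_exp (pow_nonneg hE b)
  linarith

theorem half_le {n m : ℕ} (h1 : 1 ≤ m) (h2 : (m : ℝ) ≤ Real.exp (NN n)) :
    1 / 2 ≤ 1 - Real.log m / NN n / 2 ∧ 1 - Real.log m / NN n / 2 ≤ 1 := by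
  have hN := NN_pos n
  have hm : (0 : ℝ) < m := by exact_mod_cast h1
  have hl : Real.log m ≤ NN n := by
    rw [← Real.log_exp (NN n)]
    exact Real.log_le_log hm h2
  have hl0 : 0 ≤ Real.log m := Real.log_nonneg (by exact_mod_cast h1)
  have h3 : Real.log m / NN n ≤ 1 := by rw [div_le_one hN]; exact hl
  have h4 : 0 ≤ Real.log m / NN n := div_nonneg hl0 hN.le
  constructor <;> linarith

theorem tib_Aq_nonneg {b n : ℕ} {E : ℕ → ℝ} (hE : ∀ q, 0 ≤ E q) {q m : ℕ} (h1 : 1 ≤ m)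
    (h2 : (m : ℝ) ≤ Real.exp (NN n)) : 0 ≤ Aq b n E q m := by
  unfold Aq
  have h := half_le h1 h2
  have h3 : 0 ≤ (1 - Real.log m / NN n / 2) ^ (b - 1) * (E q) ^ b := by
    have := hE q
    have h4 : 0 ≤ 1 - Real.log m / NN n / 2 := by linarith [h.1]
    positivity
  have := Real.one_le_exp h3
  linarith

theorem Aq_le_V {b n : ℕ} {E : ℕ → ℝ} (hE : ∀ q, 0 ≤ E q) {q m : ℕ} (h1 : 1 ≤ m)
    (h2 : (m : ℝ) ≤ Real.exp (NN n)) : Aq b n E q m ≤ V b (E q) := by
  unfold Aq V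
  have h := half_le h1 h2
  have h4 : 0 ≤ 1 - Real.log m / NN n / 2 := by linarith [h.1]
  have h5 : (1 - Real.log m / NN n / 2) ^ (b - 1) ≤ 1 := pow_le_one₀ h4 h.2
  have h6 : (1 - Real.log m / NN n / 2) ^ (b - 1) * (E q) ^ b ≤ (E q) ^ b := by
    have := pow_nonneg (hE q) b
    nlinarith
  have := Real.exp_le_exp.mpr h6
  linarith

theorem Aq_anti {b n : ℕ} {E : ℕ → ℝ} (hE : ∀ q, 0 ≤ E q) {q m m' : ℕ} (h1 : 1 ≤ m')
    (hm : m' ≤ m) (h2 : (m : ℝ) ≤ Real.exp (NN n)) : Aq b n E q m ≤ Aq b n E q m' := by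
  unfold Aq
  have h := half_le (le_trans h1 hm) h2
  have hN := NN_pos n
  have h4 : 0 ≤ 1 - Real.log m / NN n / 2 := by linarith [h.1]
  have hm0 : (0 : ℝ) < m' := by exact_mod_cast h1
  have hlog : Real.log m' ≤ Real.log m := Real.log_le_log hm0 (by exact_mod_cast hm)
  have h5 : 1 - Real.log m / NN n / 2 ≤ 1 - Real.log m' / NN n / 2 := by
    have : Real.log m' / NN n ≤ Real.log m / NN n := div_le_div_of_nonneg_right hlog hN.le
    linarith
  have h6 := pow_le_pow_left₀ h4 h5 (b - 1)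
  have h7 := mul_le_mul_of_nonneg_right h6 (pow_nonneg (hE q) b)
  have := Real.exp_le_exp.mpr h7
  linarith

theorem sum_W7_le (n : ℕ) (f : ℕ → ℝ) (hf : ∀ r, 0 ≤ f r) :
    ∑ q ∈ W7 n, f q ≤ ∑ j ∈ range 7, ∑ q ∈ W (n - j), f q := by
  classical
  unfold W7
  have : ∀ s : Finset ℕ, ∑ q ∈ s.biUnion (fun j => W (n - j)), f q ≤
      ∑ j ∈ s, ∑ q ∈ W (n - j), f q := by
    intro s
    induction s using Finset.induction_on with
    | empty => simp
    | insert a s ha ih =>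
      rw [biUnion_insert, sum_insert ha]
      have h1 := sum_union_inter (s₁ := W (n - a)) (s₂ := s.biUnion (fun j => W (n - j))) (f := f)
      have h2 : 0 ≤ ∑ q ∈ W (n - a) ∩ s.biUnion (fun j => W (n - j)), f q :=
        sum_nonneg (fun q _ => hf q)
      linarith
  exact this _

theorem TI_bound : ∃ C : ℝ, 1 ≤ C ∧ ∀ b : ℕ, 2 ≤ b → ∃ n₀ : ℕ, ∀ n, n₀ ≤ n →
    ∀ (E h : ℕ → ℝ) (A : ℝ), (∀ q, 0 ≤ E q ∧ (q ∈ LP n → (E q) ^ b ≤ (n : ℝ) ^ (2 * b + 1))) →
    1 / (n : ℝ) ≤ A → A ≤ 1 → (∀ r, 0 ≤ h r ∧ h r ≤ Real.exp (KK b n / 8)) →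
    TI b n E h ≤ Real.exp (∑ r ∈ LP n, h r / (r - 1)) *
      (C * (A + (1 + Real.log (1 / A)) / (b - 1) * H7 b E n) +
        (NN n) ^ (-(1 / 4) : ℝ) * (1 + H7 b E n) *
          (1 + ∑ r ∈ LP n, (h r) ^ (3 / 2 : ℝ) / r)) := by
  classical
  obtain ⟨C, hC1, hC⟩ := main_term
  refine ⟨C, hC1, fun b hb => ?_⟩
  obtain ⟨n₁, h₁⟩ := hC b hb
  obtain ⟨n₂, h₂⟩ := expand b
  refine ⟨max (max n₁ n₂) 14, fun n hn E h A hE hA0 hA1 hh => ?_⟩
  have hn1 := h₁ n (le_trans (le_trans (le_max_left _ _) (le_max_left _ _)) hn)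
  have hn2 := h₂ n (le_trans (le_trans (le_max_right _ _) (le_max_left _ _)) hn)
  have hn14 : 14 ≤ n := le_trans (le_max_right _ _) hn
  have hW7 := W7_sub_LP hn14
  have hE0 : ∀ q, 0 ≤ E q := fun q => (hE q).1
  have hnR : (14 : ℝ) ≤ n := by exact_mod_cast hn14
  set F1 : ℕ → ℝ := fun q => if q ∈ W7 n then V b (E q) else 0 with hF1
  have hF1b : ∀ r, 0 ≤ F1 r ∧ F1 r ≤ Real.exp (KK b n / 8) := by
    intro r
    simp only [hF1]
    split_ifs with hr
    · refine ⟨V_nonneg (hE0 r), ?_⟩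
      have h1 := (hE r).2 (hW7 hr)
      unfold V
      have h2 : (n : ℝ) ^ (2 * b + 1) ≤ (KK b n : ℝ) / 8 := by
        unfold KK
        push_cast
        have : (n : ℝ) ^ (2 * b + 2) = (n : ℝ) ^ (2 * b + 1) * n := by ring
        rw [this]
        have h3 : 0 < (n : ℝ) ^ (2 * b + 1) := by positivity
        nlinarith
      have h4 := Real.exp_le_exp.mpr (h1.trans h2)
      linarith
    · exact ⟨le_refl _, (Real.exp_pos _).le⟩
  have H : ExpData b n (W7 n) (fun Q => if gpf (Q - 1) ∈ W7 n then {gpf (Q - 1)} else ∅)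
      (fun Q q => lpd n ((Q - 1) / q)) (fun q m => Aq b n E q m) F1 h := by
    refine ⟨hW7, ?_, ?_, ?_, ?_, ?_, ?_, hF1b, hh⟩
    · intro Q _ q hq
      split_ifs at hq with hc
      · rw [mem_singleton] at hq; rw [hq]; exact hc
      · exact absurd hq (notMem_empty _)
    · intro Q hQ q hq
      split_ifs at hq with hc
      · rw [mem_singleton] at hq
        rw [hq]
        have hp := prime_of_mem_LP (hW7 hc)
        unfold gpf at hp ⊢
        rcases Finset.eq_empty_or_nonempty (Q - 1).primeFactors with h0 | h0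
        · rw [h0] at hp
          simp at hp
          exact absurd hp (by norm_num)
        · exact Nat.dvd_of_mem_primeFactors (sup_id_mem h0)
      · exact absurd hq (notMem_empty _)
    · intro Q _ q _; exact subset_refl _
    · intro q _ m h1 h2; exact tib_Aq_nonneg hE0 h1 h2
    · intro q hq m h1 h2
      simp only [hF1, if_pos hq]
      exact Aq_le_V hE0 h1 h2
    · intro q _ m m' h1 h2 h3; exact Aq_anti hE0 h1 h2 h3
  have key := hn2 _ _ _ _ _ _ H
  have eTI : TI b n E h = ∑ Q ∈ NP b n, U b n Q / Q *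
      ∑ q ∈ (if gpf (Q - 1) ∈ W7 n then ({gpf (Q - 1)} : Finset ℕ) else ∅),
        Aq b n E q ((Q - 1) / q) * ∏ r ∈ lpd n ((Q - 1) / q), (1 + h r) := by
    unfold TI
    refine sum_congr rfl (fun Q _ => ?_)
    split_ifs with hc
    · rw [sum_singleton]
    · simp
  rw [eTI]
  refine key.trans ?_
  have hH7 : ∑ q ∈ LP n, F1 q / q ≤ H7 b E n := by
    have e : ∑ q ∈ LP n, F1 q / q = ∑ q ∈ W7 n, V b (E q) / q := by
      rw [← sum_subset hW7]
      · refine sum_congr rfl (fun q hq => ?_)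
        simp only [hF1, if_pos hq]
      · intro q _ hq
        simp only [hF1, if_neg hq, zero_div]
    rw [e]
    refine (sum_W7_le n (fun q => V b (E q) / q)
      (fun q => div_nonneg (V_nonneg (hE0 q)) (Nat.cast_nonneg q))).trans (le_of_eq ?_)
    unfold H7 HH
    rfl
  have hH70 : 0 ≤ H7 b E n := by
    unfold H7 HH
    exact sum_nonneg (fun j _ => sum_nonneg (fun q _ => div_nonneg (V_nonneg (hE0 q))
      (Nat.cast_nonneg q)))
  have hApos : 0 < A := lt_of_lt_of_le (by positivity) hA0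
  have hlogA : 0 ≤ Real.log (1 / A) := Real.log_nonneg (by rw [le_div_iff₀ hApos]; linarith)
  have hb1 : (0 : ℝ) < (b : ℝ) - 1 := by
    have : (2 : ℝ) ≤ b := by exact_mod_cast hb
    linarith
  have hmain0 : 0 ≤ C * (A + (1 + Real.log (1 / A)) / (b - 1) * H7 b E n) := by
    have : 0 ≤ (1 + Real.log (1 / A)) / (b - 1) * H7 b E n :=
      mul_nonneg (div_nonneg (by linarith) hb1.le) hH70
    exact mul_nonneg (by linarith) (by linarith)
  rw [mul_add (Real.exp (∑ r ∈ LP n, h r / ((r : ℝ) - 1)))]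
  refine add_le_add ?_ ?_
  · have step : ∀ S ∈ (LP n).powerset.filter (fun S => (dS S : ℝ) ≤ Real.exp (NN n)),
        (∏ r ∈ S, h r) / (dS S : ℝ) *
          (∑ q ∈ W7 n, ∑ m ∈ Icc (MM b n) ⌊Real.exp (NN n)⌋₊,
            (1 : ℝ) / (q * m) * Aq b n E q m * U b n (dS S * q * m + 1)) ≤
        (∏ r ∈ S, h r) / (Nat.totient (dS S) : ℝ) *
          (C * (A + (1 + Real.log (1 / A)) / (b - 1) * H7 b E n)) := by
      intro S hS
      rw [mem_filter, mem_powerset] at hS
      obtain ⟨h1, h2⟩ := hS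
      have hd : 1 ≤ dS S := dS_pos (fun r hr => prime_of_mem_LP (h1 hr))
      have h3 := hn1 (dS S) E A hd h2 hE hA0 hA1
      have hh0 : 0 ≤ ∏ r ∈ S, h r := prod_nonneg (fun r _ => (hh r).1)
      have hd0 : (0 : ℝ) < dS S := by exact_mod_cast hd
      refine (mul_le_mul_of_nonneg_left h3 (by positivity)).trans (le_of_eq ?_)
      unfold dphi
      have ht : (Nat.totient (dS S) : ℝ) ≠ 0 := by
        have := Nat.totient_pos.mpr hd
        positivity
      field_simp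
    refine (sum_le_sum step).trans ?_
    rw [← sum_mul]
    refine mul_le_mul_of_nonneg_right ?_ hmain0
    refine le_trans ?_ (sum_h_div_totient n h (fun r => (hh r).1))
    refine sum_le_sum_of_subset_of_nonneg (filter_subset _ _) (fun S _ _ => ?_)
    exact div_nonneg (prod_nonneg (fun r _ => (hh r).1)) (Nat.cast_nonneg _)
  · refine mul_le_mul_of_nonneg_left ?_ (Real.exp_pos _).le
    have hs2 : 0 ≤ ∑ r ∈ LP n, (h r) ^ (3 / 2 : ℝ) / r :=
      sum_nonneg (fun r _ => div_nonneg (Real.rpow_nonneg (hh r).1 _) (Nat.cast_nonneg r))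
    refine mul_le_mul_of_nonneg_right ?_ (by linarith)
    refine mul_le_mul_of_nonneg_left (by linarith) (Real.rpow_nonneg (NN_pos n).le _)

end

end Pool.Agent.NTot
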