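import Pool.Agent.NTot.Chains

/-!
# M3a: moments of the chain weights
-/

set_option autoImplicit false

namespace Pool.Agent.NTot

open Finset Filter Topology

noncomputable section

/-- number of `t mod l` with `l ∣ t` or `l ∣ a t + 1` for some `a ∈ A` -/
def omA (A : Finset ℕ) (l : ℕ) : ℕ :=
  ((range l).filter (fun t => l ∣ t ∨ ∃ a ∈ A, l ∣ a * t + 1)).card

theorem U_moment : ∃ C₂ : ℝ, 1 ≤ C₂ ∧ ∀ b : ℕ, ∃ n₀ : ℕ, ∀ n, n₀ ≤ n →
    ∀ (A : Finset ℕ) (X : ℕ), 1 ≤ A.card → A.card ≤ KK b n →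
    (∀ a ∈ A, 1 ≤ a ∧ (a : ℝ) ≤ Real.exp (3 * NN n)) →
    (NN n) ^ (0.49 : ℝ) ≤ Real.log X → Real.log X ≤ 3 * NN n →
    ∑ t ∈ PB X, ∏ a ∈ A, U b n (a * t + 1) ≤
      X * (∏ l ∈ PZ ⌊(NN n) ^ 2⌋₊, (1 - (omA A l : ℝ) / l)) *
        (C₂ * (A.card + 1) * Real.log (NN n) / Real.log X) ^ (A.card + 1) := by
  obtain ⟨C₁, hC₁, h⟩ := chain_moment
  refine ⟨4 / 3 * C₁, by linarith, fun b => ?_⟩
  obtain ⟨n₀, hn₀⟩ := h b
  refine ⟨n₀, fun n hn A X _hA1 hAK ha hX1 hX2 => ?_⟩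
  have key := hn₀ n hn {x // x ∈ A} Subtype.val {(1, 0)} X Subtype.val_injective (Subset.refl _)
    (by simp) (by rw [Fintype.card_coe]; exact hAK) (fun i => ha i.1 i.2) hX1 hX2
  have e1 : ∀ t, (∀ g ∈ ({(1, 0)} : Finset (ℕ × ℕ)), (vf g t).Prime) ↔ t.Prime := by
    intro t
    simp [vf]
  have e2 : ∀ t, ∏ i : {x // x ∈ A}, U b n ((i : ℕ) * t + 1) = ∏ a ∈ A, U b n (a * t + 1) := by
    intro t
    exact Finset.prod_coe_sort A (fun a => U b n (a * t + 1))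
  have e3 : ∀ l, om ({(1, 0)} ∪ univ.image (fun i : {x // x ∈ A} => ((i : ℕ), 1))) l = omA A l := by
    intro l
    unfold om omA
    congr 1
    apply Finset.filter_congr
    intro t _
    simp only [mem_union, mem_singleton, mem_image, mem_univ, true_and, Subtype.exists]
    constructor
    · rintro ⟨g, hg | ⟨a, ha', rfl⟩, hd⟩
      · left
        rw [hg] at hd
        simpa using hd
      · right
        exact ⟨a, ha', by simpa using hd⟩
    · rintro (hd | ⟨a, ha', hd⟩)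
      · exact ⟨(1, 0), Or.inl rfl, by simpa using hd⟩
      · exact ⟨(a, 1), Or.inr ⟨a, ha', rfl⟩, hd⟩
  simp only [e1, e2, e3, Fintype.card_coe, card_singleton] at key
  refine key.trans ?_
  have hP0 : 0 ≤ ∏ l ∈ PZ ⌊(NN n) ^ 2⌋₊, (1 - (omA A l : ℝ) / l) := by
    apply Finset.prod_nonneg
    intro l _
    rw [← e3]
    exact fac_nonneg _ l
  have hN1 : 1 ≤ NN n := ch_one_le_NN n
  have hlogN : 0 ≤ Real.log (NN n) := Real.log_nonneg hN1
  have hX0 : 0 < Real.log X := lt_of_lt_of_le (by positivity) hX1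
  have e4 : (4 / 3 * C₁ * ((A.card : ℝ) + 1) * Real.log (NN n) / Real.log X) ^ (A.card + 1) =
      (C₁ * ((1 + A.card : ℕ) : ℝ) * Real.log (NN n) / Real.log X) ^ (1 + A.card) *
        (4 / 3) ^ (A.card + 1) := by
    rw [add_comm 1 A.card, ← mul_pow]
    congr 1
    push_cast
    ring
  rw [e4, mul_assoc ((X : ℝ) * _)]
  have h5 : (4 / 3 : ℝ) ^ A.card ≤ (4 / 3) ^ (A.card + 1) :=
    pow_le_pow_right₀ (by norm_num) (by omega)
  have h6 : 0 ≤ (C₁ * ((1 + A.card : ℕ) : ℝ) * Real.log (NN n) / Real.log X) ^ (1 + A.card) := by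
    positivity
  gcongr

end

end Pool.Agent.NTot
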